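import Pool.Agent.SPH.RemA

/-! Project SPH (MP_f7e9f1_co), helper28: representatives of the lines of a configuration with at most
three points; they satisfy the splitting hypothesis. -/

open MeasureTheory Set Metric Filter
open scoped ENNReal NNReal Topology

noncomputable section
namespace SPH

/-- representatives of the lines -/
theorem exists_line_reps {d : ℕ} (P : Finset (Sph d)) : ∃ Q : Finset (Sph d), Q ⊆ P ∧
    (∀ p ∈ P, ∃ q ∈ Q, p = q ∨ p = -q) ∧ (∀ q ∈ Q, ∀ q' ∈ Q, q ≠ q' → q ≠ -q') := by
  classical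
  induction P using Finset.induction_on with
  | empty => exact ⟨∅, by simp, by simp, by simp⟩
  | insert a P _ ih =>
    obtain ⟨Q, h1, h2, h3⟩ := ih
    by_cases h : ∃ q ∈ Q, a = q ∨ a = -q
    · refine ⟨Q, h1.trans (Finset.subset_insert _ _), ?_, h3⟩
      intro p hp
      rcases Finset.mem_insert.mp hp with rfl | hp
      · exact h
      · exact h2 p hp
    · push Not at h
      refine ⟨insert a Q, Finset.insert_subset_insert _ h1, ?_, ?_⟩
      · intro p hp
        rcases Finset.mem_insert.mp hp with rfl | hp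
        · exact ⟨p, Finset.mem_insert_self _ _, Or.inl rfl⟩
        · obtain ⟨q, hq, hpq⟩ := h2 p hp
          exact ⟨q, Finset.mem_insert_of_mem hq, hpq⟩
      · intro q hq q' hq' hne
        rcases Finset.mem_insert.mp hq with e | hq
        · rcases Finset.mem_insert.mp hq' with e' | hq'
          · exact absurd (e.trans e'.symm) hne
          · rw [e]
            exact (h q' hq').2
        · rcases Finset.mem_insert.mp hq' with e' | hq'
          · rw [e']
            intro e2
            apply (h q hq).2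
            rw [e2, neg_neg]
          · exact h3 q hq q' hq' hne

/-- a unit vector is not in the span of at most one other, unless it is plus or minus it -/
theorem notMem_span_subsingleton {d : ℕ} {ι : Type*} (v : ι → Sph d) (i0 : ι)
    (hv : ∀ i, i ≠ i0 → v i0 ≠ v i ∧ v i0 ≠ -(v i)) (s : Set ι) (hs : s.Subsingleton) (hi : i0 ∉ s) :
    (v i0 : E d) ∉ Submodule.span ℝ ((fun i => (v i : E d)) '' s) := by
  have h1 : ‖(v i0 : E d)‖ = 1 := norm_coe_sph _
  rcases hs.eq_empty_or_singleton with rfl | ⟨j, rfl⟩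
  · rw [Set.image_empty, Submodule.span_empty, Submodule.mem_bot]
    intro h
    rw [h, norm_zero] at h1
    exact zero_ne_one h1
  · rw [Set.image_singleton]
    intro h
    obtain ⟨c, hc⟩ := Submodule.mem_span_singleton.mp h
    have hj : j ≠ i0 := fun e => hi (by rw [e]; exact Set.mem_singleton _)
    have h2 : ‖(v j : E d)‖ = 1 := norm_coe_sph _
    have h3 : |c| = 1 := by
      rw [← hc, norm_smul, h2, mul_one, Real.norm_eq_abs] at h1
      exact h1
    rcases (abs_eq zero_le_one).mp h3 with e | e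
    · rw [e, one_smul] at hc
      exact (hv j hj).1 (Subtype.ext hc.symm)
    · rw [e, neg_one_smul] at hc
      exact (hv j hj).2 (Subtype.ext hc.symm)

/-- the data for theoremT for at most three points -/
theorem cor_data {d : ℕ} (hd : 3 ≤ d) (P : Finset (Sph d)) (hc : P.card ≤ 3) :
    ∃ (Q : Finset (Sph d)) (e0 : E d), ‖e0‖ = 1 ∧
      (∀ q : Q, inner ℝ e0 ((q : Sph d) : E d) = 0) ∧ Split (fun q : Q => (q : Sph d)) ∧
      ∀ p ∈ P, ∃ q : Q, p = (q : Sph d) ∨ p = -(q : Sph d) := by
  classical
  obtain ⟨Q, h1, h2, h3⟩ := exists_line_reps P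
  have hQ : Q.card ≤ 3 := (Finset.card_le_card h1).trans hc
  -- the orthogonal vector
  set V : Submodule ℝ (E d) := Submodule.span ℝ (((Q.image fun q : Sph d => (q : E d)) : Finset (E d)) :
    Set (E d)) with hV
  have hVr : Module.finrank ℝ V ≤ 3 :=
    (finrank_span_finset_le_card _).trans (Finset.card_image_le.trans hQ)
  have hadd := Submodule.finrank_add_finrank_orthogonal V
  rw [finrank_euclideanSpace_fin] at hadd
  have hne : Vᗮ ≠ ⊥ := by
    intro h
    rw [h, finrank_bot] at hadd
    omega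
  obtain ⟨w, hw, hw0⟩ := Submodule.exists_mem_ne_zero_of_ne_bot hne
  have hwn : ‖w‖ ≠ 0 := norm_ne_zero_iff.mpr hw0
  refine ⟨Q, (‖w‖⁻¹ : ℝ) • w, ?_, ?_, ?_, ?_⟩
  · rw [norm_smul, norm_inv, norm_norm, inv_mul_cancel₀ hwn]
  · intro q
    rw [real_inner_smul_left, real_inner_comm]
    have hq : ((q : Sph d) : E d) ∈ V := by
      refine Submodule.subset_span ?_
      rw [Finset.coe_image]
      exact ⟨q, q.2, rfl⟩
    rw [(Submodule.mem_orthogonal V w).mp hw _ hq, mul_zero]
  · intro i0
    have hv : ∀ i : Q, i ≠ i0 → (i0 : Sph d) ≠ (i : Sph d) ∧ (i0 : Sph d) ≠ -(i : Sph d) := by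
      intro i hi
      have hne : (i0 : Sph d) ≠ (i : Sph d) := fun e => hi (Subtype.ext e.symm)
      exact ⟨hne, h3 i0 i0.2 i i.2 hne⟩
    have hcard : (Finset.univ.erase i0).card ≤ 2 := by
      rw [Finset.card_erase_of_mem (Finset.mem_univ _), Finset.card_univ, Fintype.card_coe]
      omega
    -- the set A
    obtain ⟨A, hA0, hA1, hA2⟩ : ∃ A : Finset Q, i0 ∉ A ∧ A.card ≤ 1 ∧
        ((Finset.univ.erase i0) \ A).card ≤ 1 := by
      rcases (Finset.univ.erase i0).eq_empty_or_nonempty with he | ⟨j, hj⟩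
      · refine ⟨∅, by simp, by simp, ?_⟩
        rw [he]
        simp
      · refine ⟨{j}, ?_, by simp, ?_⟩
        · rw [Finset.mem_singleton]
          exact (Finset.ne_of_mem_erase hj).symm
        · rw [Finset.sdiff_singleton_eq_erase, Finset.card_erase_of_mem hj]
          omega
    refine ⟨A, hA0, ?_, ?_, ?_⟩
    · exact notMem_span_subsingleton (fun q : Q => (q : Sph d)) i0 hv (A : Set Q)
        (fun x hx y hy => Finset.card_le_one.mp hA1 x hx y hy) hA0
    · refine notMem_span_subsingleton (fun q : Q => (q : Sph d)) i0 hv {i | i ∉ A ∧ i ≠ i0} ?_ ?_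
      · intro x hx y hy
        refine Finset.card_le_one.mp hA2 x ?_ y ?_
        · exact Finset.mem_sdiff.mpr ⟨Finset.mem_erase.mpr ⟨hx.2, Finset.mem_univ _⟩, hx.1⟩
        · exact Finset.mem_sdiff.mpr ⟨Finset.mem_erase.mpr ⟨hy.2, Finset.mem_univ _⟩, hy.1⟩
      · exact fun h => h.2 rfl
    · have h4 : Module.finrank ℝ (Submodule.span ℝ ((fun i : Q => ((i : Sph d) : E d)) '' (A : Set Q))) ≤ 1 := by
        rw [← Finset.coe_image]
        exact (finrank_span_finset_le_card _).trans (Finset.card_image_le.trans hA1)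
      have h5 : Module.finrank ℝ (Submodule.span ℝ
          ((fun i : Q => (((fun q : Q => (q : Sph d)) i : Sph d) : E d)) '' (A : Set Q))) ≤ 1 := h4
      omega
  · intro p hp
    obtain ⟨q, hq, hpq⟩ := h2 p hp
    exact ⟨⟨q, hq⟩, hpq⟩

end SPH
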