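import Pool.Agent.SPH.Fin
import Pool.Agent.SPH.CorA

/-! Project SPH (MP_f7e9f1_co): configurations with at most three points. -/

open MeasureTheory Set Metric Filter
open scoped ENNReal NNReal Topology

noncomputable section
namespace SPH

/-- All configurations with at most three points, for `d` at least `3`. -/
theorem card_le_three {d : ℕ} (hd : 3 ≤ d) (P : Finset (Sph d)) (hP : P.Nonempty)
    (hc : P.card ≤ 3) : HasRemoval P := by
  classical
  obtain ⟨Q, e0, he0, hev, hs, hPv⟩ := cor_data hd P hc
  exact theoremT hd (fun q : Q => (q : Sph d)) e0 he0 hev hs P hP hPv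

end SPH
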