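import Mathlib

/-! Project SPH (MP_f7e9f1_co): the orthogonal group O(d+1), its Haar probability, its action on the
sphere. -/

open MeasureTheory Set Metric
open scoped ENNReal NNReal Topology

noncomputable section
namespace SPH

/-- the ambient Euclidean space R^(d+1) -/
abbrev E (d : ℕ) := EuclideanSpace ℝ (Fin (d + 1))

/-- the unit sphere S^d -/
abbrev Sph (d : ℕ) := ↥(Metric.sphere (0 : E d) 1)

/-- the orthogonal group O(d+1) -/
abbrev OG (d : ℕ) := ↥(Matrix.orthogonalGroup (Fin (d + 1)) ℝ)

instance instMeasurableSpaceOG (d : ℕ) : MeasurableSpace (OG d) := borel _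
instance instBorelSpaceOG (d : ℕ) : BorelSpace (OG d) := ⟨rfl⟩

instance instSecondCountableMat (d : ℕ) :
    SecondCountableTopology (Matrix (Fin (d + 1)) (Fin (d + 1)) ℝ) :=
  inferInstanceAs (SecondCountableTopology (Fin (d + 1) → Fin (d + 1) → ℝ))

instance instSecondCountableOG (d : ℕ) : SecondCountableTopology (OG d) :=
  TopologicalSpace.Subtype.secondCountableTopology _

theorem isClosed_orth (d : ℕ) :
    IsClosed ((Matrix.orthogonalGroup (Fin (d + 1)) ℝ : Set (Matrix (Fin (d + 1)) (Fin (d + 1)) ℝ))) := by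
  have h : ((Matrix.orthogonalGroup (Fin (d + 1)) ℝ : Set (Matrix (Fin (d + 1)) (Fin (d + 1)) ℝ))) =
      {A | A * star A = 1} := by
    ext A
    simp only [SetLike.mem_coe, Set.mem_ofPred_eq]
    exact Matrix.mem_orthogonalGroup_iff (Fin (d + 1)) ℝ
  rw [h]
  exact isClosed_eq (by fun_prop) continuous_const

theorem isCompact_orth (d : ℕ) :
    IsCompact ((Matrix.orthogonalGroup (Fin (d + 1)) ℝ : Set (Matrix (Fin (d + 1)) (Fin (d + 1)) ℝ))) := by
  have hK : IsCompact (Set.univ.pi fun _ : Fin (d + 1) =>
      (Set.univ.pi fun _ : Fin (d + 1) => Set.Icc (-1 : ℝ) 1)) :=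
    isCompact_univ_pi fun _ => isCompact_univ_pi fun _ => isCompact_Icc
  refine IsCompact.of_isClosed_subset (X := Matrix (Fin (d + 1)) (Fin (d + 1)) ℝ) hK
    (isClosed_orth d) ?_
  intro A hA i _ j _
  have h := entry_norm_bound_of_unitary (𝕜 := ℝ) (n := Fin (d + 1)) (U := A) hA i j
  rw [Real.norm_eq_abs] at h
  exact abs_le.mp h

instance instCompactSpaceOG (d : ℕ) : CompactSpace (OG d) :=
  isCompact_iff_compactSpace.mp (isCompact_orth d)

/-- the Haar probability measure of O(d+1) -/
def mu (d : ℕ) : Measure (OG d) := Measure.haarMeasure ⊤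

instance instIsHaarMeasure_mu (d : ℕ) : (mu d).IsHaarMeasure := by
  unfold mu; infer_instance

instance instIsProbabilityMeasure_mu (d : ℕ) : IsProbabilityMeasure (mu d) := by
  constructor
  have h := Measure.haarMeasure_self (G := OG d) (K₀ := ⊤)
  simpa [mu] using h

/-- Haar probability is right invariant -/
instance instIsMulRightInvariant_mu (d : ℕ) : (mu d).IsMulRightInvariant := by
  constructor
  intro g
  have hc : Continuous fun x : OG d => x * g := continuous_mul_const g
  have hm : Measurable fun x : OG d => x * g := hc.measurable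
  have : IsProbabilityMeasure (Measure.map (· * g) (mu d)) :=
    Measure.isProbabilityMeasure_map hm.aemeasurable
  have : (Measure.map (· * g) (mu d)).IsMulLeftInvariant := by
    constructor
    intro h
    have e1 : Measure.map (fun x => h * x) (Measure.map (· * g) (mu d)) =
        Measure.map (· * g) (Measure.map (fun x => h * x) (mu d)) := by
      rw [Measure.map_map (measurable_const_mul h) hm, Measure.map_map hm (measurable_const_mul h)]
      congr 1
      funext x
      simp [mul_assoc]
    rw [e1, map_mul_left_eq_self]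
  have h := Measure.isMulInvariant_eq_smul_of_compactSpace (Measure.map (· * g) (mu d)) (mu d)
  have h1 : (Measure.haarScalarFactor (Measure.map (· * g) (mu d)) (mu d) : ℝ≥0) = 1 := by
    have h2 := congrArg (fun ν : Measure (OG d) => ν univ) h
    simp only [measure_univ, Measure.smul_apply] at h2
    rw [ENNReal.smul_def, smul_eq_mul, mul_one] at h2
    exact_mod_cast h2.symm
  rw [h1, one_smul] at h
  exact h

/-- the action on R^(d+1) -/
def act {d : ℕ} (T : OG d) (x : E d) : E d := Matrix.toEuclideanLin (T : Matrix _ _ ℝ) x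

theorem act_mul {d : ℕ} (S T : OG d) (x : E d) : act (S * T) x = act S (act T x) := by
  show WithLp.toLp 2 (((S * T : OG d) : Matrix (Fin (d + 1)) (Fin (d + 1)) ℝ).mulVec x.ofLp) = _
  rw [Submonoid.coe_mul, ← Matrix.mulVec_mulVec]
  rfl

@[simp] theorem act_one {d : ℕ} (x : E d) : act (1 : OG d) x = x := by
  simp [act]

theorem act_add {d : ℕ} (T : OG d) (x y : E d) : act T (x + y) = act T x + act T y := by
  simp [act]

theorem act_smul {d : ℕ} (T : OG d) (c : ℝ) (x : E d) : act T (c • x) = c • act T x := by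
  simp [act]

theorem act_sub {d : ℕ} (T : OG d) (x y : E d) : act T (x - y) = act T x - act T y := by
  simp [act]

theorem act_neg {d : ℕ} (T : OG d) (x : E d) : act T (-x) = -act T x := by
  simp [act]

@[simp] theorem act_zero {d : ℕ} (T : OG d) : act T (0 : E d) = 0 := by
  simp [act]

theorem act_apply {d : ℕ} (T : OG d) (x : E d) (i : Fin (d + 1)) :
    act T x i = ∑ j, (T : Matrix (Fin (d + 1)) (Fin (d + 1)) ℝ) i j * x j := by
  simp [act, Matrix.mulVec, dotProduct]

theorem inner_act_act {d : ℕ} (T : OG d) (x y : E d) : inner ℝ (act T x) (act T y) = inner ℝ x y := by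
  have h : (T : Matrix (Fin (d + 1)) (Fin (d + 1)) ℝ).transpose * T = 1 :=
    (Matrix.mem_orthogonalGroup_iff' (Fin (d + 1)) ℝ).mp T.2
  have e1 : ∀ u v : E d, inner ℝ u v = (v.ofLp) ⬝ᵥ (u.ofLp) := by
    intro u v
    simp [EuclideanSpace.inner_eq_star_dotProduct]
  have e2 : ∀ u : E d, (act T u).ofLp = (T : Matrix (Fin (d + 1)) (Fin (d + 1)) ℝ).mulVec u.ofLp := by
    intro u
    rfl
  rw [e1, e1, e2, e2, Matrix.dotProduct_mulVec, Matrix.vecMul_mulVec, h, Matrix.vecMul_one]

theorem norm_act {d : ℕ} (T : OG d) (x : E d) : ‖act T x‖ = ‖x‖ := by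
  rw [norm_eq_sqrt_real_inner, norm_eq_sqrt_real_inner, inner_act_act]

/-- every linear isometry of R^(d+1) comes from O(d+1) -/
theorem exists_act_eq {d : ℕ} (L : E d →ₗᵢ[ℝ] E d) : ∃ T : OG d, ∀ x, act T x = L x := by
  classical
  set A : Matrix (Fin (d + 1)) (Fin (d + 1)) ℝ := Matrix.toEuclideanLin.symm L.toLinearMap with hA
  have hL : ∀ x : E d, Matrix.toEuclideanLin A x = L x := by
    intro x
    rw [hA, LinearEquiv.apply_symm_apply]
    rfl
  have hmem : A ∈ Matrix.orthogonalGroup (Fin (d + 1)) ℝ := by
    rw [Matrix.mem_orthogonalGroup_iff']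
    ext i j
    have h1 : inner ℝ (L (EuclideanSpace.single i 1)) (L (EuclideanSpace.single j 1)) =
        (if i = j then (1 : ℝ) else 0) := by
      rw [L.inner_map_map]
      simp [EuclideanSpace.inner_single_left]
    have h2 : ∀ k l : Fin (d + 1), (L (EuclideanSpace.single k 1)) l = A l k := by
      intro k l
      rw [← hL]
      have h4 : (Matrix.toEuclideanLin A (EuclideanSpace.single k (1 : ℝ))) l =
          ∑ x, A l x * (Pi.single k (1 : ℝ) : Fin (d + 1) → ℝ) x := by
        simp [Matrix.mulVec, dotProduct]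
      rw [h4, Finset.sum_eq_single k]
      · simp
      · intro b _ hb
        simp [hb]
      · intro h
        exact absurd (Finset.mem_univ k) h
    have h3 : inner ℝ (L (EuclideanSpace.single i 1)) (L (EuclideanSpace.single j 1)) =
        ∑ l, A l i * A l j := by
      rw [PiLp.inner_apply]
      refine Finset.sum_congr rfl fun l _ => ?_
      rw [h2, h2]
      simp [mul_comm]
    show (A.transpose * A) i j = (1 : Matrix _ _ ℝ) i j
    rw [Matrix.mul_apply, Matrix.one_apply, ← h1, h3]
    rfl
  exact ⟨⟨A, hmem⟩, hL⟩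

theorem continuous_act (d : ℕ) : Continuous fun p : OG d × E d => act p.1 p.2 := by
  have h : (fun p : OG d × E d => act p.1 p.2) = fun p : OG d × E d =>
      WithLp.toLp 2 (fun i => ∑ j, (p.1 : Matrix (Fin (d + 1)) (Fin (d + 1)) ℝ) i j * p.2 j) := by
    funext p
    ext i
    rw [act_apply]
  rw [h]
  refine (PiLp.continuous_toLp 2 _).comp (continuous_pi fun i => continuous_finsetSum _ fun j _ => ?_)
  refine Continuous.mul ?_ ?_
  · have h1 : Continuous fun p : OG d × E d => (p.1 : Matrix (Fin (d + 1)) (Fin (d + 1)) ℝ) :=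
      continuous_subtype_val.comp continuous_fst
    exact (continuous_apply j).comp ((continuous_apply i).comp h1)
  · exact (EuclideanSpace.proj (𝕜 := ℝ) j).continuous.comp continuous_snd

instance instSMulSph (d : ℕ) : SMul (OG d) (Sph d) :=
  ⟨fun T x => ⟨act T x, by
    have hx : ‖(x : E d)‖ = 1 := by simp
    simp [norm_act, hx]⟩⟩

@[simp] theorem coe_smul_sph {d : ℕ} (T : OG d) (x : Sph d) : ((T • x : Sph d) : E d) = act T x := rfl

instance instMulActionSph (d : ℕ) : MulAction (OG d) (Sph d) where
  one_smul x := Subtype.ext (by simp)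
  mul_smul S T x := Subtype.ext (by simp [act_mul])

instance instContinuousSMulSph (d : ℕ) : ContinuousSMul (OG d) (Sph d) :=
  ⟨Continuous.subtype_mk ((continuous_act d).comp (continuous_fst.prodMk
    (continuous_subtype_val.comp continuous_snd))) _⟩

theorem norm_coe_sph {d : ℕ} (x : Sph d) : ‖(x : E d)‖ = 1 := by simp

theorem smul_neg_sph {d : ℕ} (T : OG d) (x : Sph d) : T • (-x) = -(T • x) :=
  Subtype.ext (by simp [act_neg])

/-- the normalised surface measure of the sphere -/
def sig (d : ℕ) : Measure (Sph d) :=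
  ((volume : Measure (E d)).toSphere univ)⁻¹ • (volume : Measure (E d)).toSphere

instance instIsProbabilityMeasure_sig (d : ℕ) : IsProbabilityMeasure (sig d) := by
  constructor
  have h0 : (volume : Measure (E d)).toSphere univ ≠ 0 := by
    intro h
    exact (Measure.toSphere_ne_zero (volume : Measure (E d))) (Measure.measure_univ_eq_zero.mp h)
  have h1 : (volume : Measure (E d)).toSphere univ ≠ ⊤ := measure_ne_top _ _
  show (((volume : Measure (E d)).toSphere univ)⁻¹ • (volume : Measure (E d)).toSphere) univ = 1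
  rw [Measure.smul_apply, smul_eq_mul, ENNReal.inv_mul_cancel h0 h1]

end SPH
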