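import Pool.Agent.SPH.RL

/-! Project SPH (MP_f7e9f1_co), helper28: Bessel inequality along a filter for asymptotically
orthogonal families, and countability of the frequencies seen by a bounded sequence. -/

open MeasureTheory Set Metric Filter
open scoped ENNReal NNReal Topology

noncomputable section
namespace SPH

/-- Bessel inequality in the limit. -/
theorem bessel_lim {H κ : Type*} [NormedAddCommGroup H] [InnerProductSpace ℂ H] (U : Filter ℕ)
    [U.NeBot] (s : Finset κ) (x : ℕ → H) (e : κ → ℕ → H) (c : κ → ℂ) (B : ℝ) (hB : 0 ≤ B)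
    (hx : ∀ n, ‖x n‖ ≤ 1) (h1 : ∀ k ∈ s, Tendsto (fun n => inner ℂ (e k n) (x n)) U (𝓝 (c k)))
    (h2 : ∀ k ∈ s, ∀ n, ‖e k n‖ ^ 2 ≤ B)
    (h3 : ∀ k ∈ s, ∀ l ∈ s, k ≠ l → Tendsto (fun n => inner ℂ (e k n) (e l n)) U (𝓝 0)) :
    ∑ k ∈ s, ‖c k‖ ^ 2 ≤ B := by
  classical
  set S : ℝ := ∑ k ∈ s, ‖c k‖ ^ 2 with hS
  have hS0 : 0 ≤ S := Finset.sum_nonneg fun k _ => by positivity
  set y : ℕ → H := fun n => ∑ k ∈ s, c k • e k n with hy
  set D : ℕ → ℂ := fun n => ∑ k ∈ s, ∑ l ∈ s, if k = l then 0 else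
    (starRingEnd ℂ) (c k) * (c l * inner ℂ (e k n) (e l n)) with hD
  have hD0 : Tendsto D U (𝓝 0) := by
    have h : Tendsto D U (𝓝 (∑ k ∈ s, ∑ l ∈ s, (0 : ℂ))) := by
      refine tendsto_finsetSum _ fun k hk => tendsto_finsetSum _ fun l hl => ?_
      by_cases hkl : k = l
      · simp only [hkl, if_true]
        exact tendsto_const_nhds
      · simp only [hkl, if_false]
        have := ((h3 k hk l hl hkl).const_mul (c l)).const_mul ((starRingEnd ℂ) (c k))
        simpa using this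
    simpa using h
  have hyx : Tendsto (fun n => inner ℂ (y n) (x n)) U (𝓝 (S : ℂ)) := by
    have e1 : ∀ n, inner ℂ (y n) (x n) =
        ∑ k ∈ s, (starRingEnd ℂ) (c k) * inner ℂ (e k n) (x n) := by
      intro n
      simp only [hy]
      rw [sum_inner]
      exact Finset.sum_congr rfl fun k _ => inner_smul_left _ _ _
    have e2 : (S : ℂ) = ∑ k ∈ s, (starRingEnd ℂ) (c k) * c k := by
      rw [hS]
      push_cast
      refine Finset.sum_congr rfl fun k _ => ?_
      rw [Complex.conj_mul']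
    rw [e2]
    simp only [e1]
    exact tendsto_finsetSum _ fun k hk => (h1 k hk).const_mul _
  have hyy : ∀ n, ‖y n‖ ^ 2 ≤ S * B + ‖D n‖ := by
    intro n
    have e1 : inner ℂ (y n) (y n) = ((∑ k ∈ s, ‖c k‖ ^ 2 * ‖e k n‖ ^ 2 : ℝ) : ℂ) + D n := by
      have e3 : inner ℂ (y n) (y n) = ∑ k ∈ s, ∑ l ∈ s,
          (starRingEnd ℂ) (c k) * (c l * inner ℂ (e k n) (e l n)) := by
        simp only [hy]
        rw [sum_inner]
        refine Finset.sum_congr rfl fun k _ => ?_
        rw [inner_smul_left, inner_sum, Finset.mul_sum]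
        exact Finset.sum_congr rfl fun l _ => by rw [inner_smul_right]
      rw [e3, Complex.ofReal_sum, hD, ← Finset.sum_add_distrib]
      refine Finset.sum_congr rfl fun k hk => ?_
      rw [← Finset.add_sum_erase s _ hk, ← Finset.add_sum_erase s (fun l => if k = l then (0 : ℂ) else
        (starRingEnd ℂ) (c k) * (c l * inner ℂ (e k n) (e l n))) hk]
      have e4 : (starRingEnd ℂ) (c k) * (c k * inner ℂ (e k n) (e k n)) =
          ((‖c k‖ ^ 2 * ‖e k n‖ ^ 2 : ℝ) : ℂ) := by
        rw [← mul_assoc, Complex.conj_mul', inner_self_eq_norm_sq_to_K]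
        push_cast
        rfl
      rw [e4]
      have e5 : ∑ l ∈ s.erase k, (starRingEnd ℂ) (c k) * (c l * inner ℂ (e k n) (e l n)) =
          ∑ l ∈ s.erase k, (if k = l then (0 : ℂ) else
        (starRingEnd ℂ) (c k) * (c l * inner ℂ (e k n) (e l n))) := by
        refine Finset.sum_congr rfl fun l hl => ?_
        rw [if_neg (Finset.ne_of_mem_erase hl).symm]
      rw [e5]
      simp
    have e2 : ‖y n‖ ^ 2 = (inner ℂ (y n) (y n)).re := by
      rw [inner_self_eq_norm_sq_to_K]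
      norm_cast
    rw [e2, e1, Complex.add_re, Complex.ofReal_re]
    refine add_le_add ?_ (Complex.re_le_norm _)
    rw [hS, Finset.sum_mul]
    exact Finset.sum_le_sum fun k hk => mul_le_mul_of_nonneg_left (h2 k hk n) (by positivity)
  have key : ∀ n, ‖(inner ℂ (y n) (x n) : ℂ)‖ ^ 2 ≤ S * B + ‖D n‖ := by
    intro n
    have h4 : ‖(inner ℂ (y n) (x n) : ℂ)‖ ≤ ‖y n‖ := by
      calc ‖(inner ℂ (y n) (x n) : ℂ)‖ ≤ ‖y n‖ * ‖x n‖ := norm_inner_le_norm _ _
        _ ≤ ‖y n‖ * 1 := mul_le_mul_of_nonneg_left (hx n) (norm_nonneg _)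
        _ = ‖y n‖ := mul_one _
    exact (pow_le_pow_left₀ (norm_nonneg _) h4 2).trans (hyy n)
  have hlim : S ^ 2 ≤ S * B := by
    have l1 : Tendsto (fun n => ‖(inner ℂ (y n) (x n) : ℂ)‖ ^ 2) U (𝓝 (‖(S : ℂ)‖ ^ 2)) :=
      hyx.norm.pow 2
    have l2 : Tendsto (fun n => S * B + ‖D n‖) U (𝓝 (S * B + ‖(0 : ℂ)‖)) := hD0.norm.const_add _
    have h := le_of_tendsto_of_tendsto l1 l2 (Eventually.of_forall key)
    rw [norm_zero, add_zero, Complex.norm_real, Real.norm_eq_abs, sq_abs] at h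
    exact h
  by_contra h
  push Not at h
  have hpos : 0 < S := lt_of_le_of_lt hB h
  nlinarith

theorem inner_toLp' {α : Type*} [MeasurableSpace α] {μ : Measure α} {f g : α → ℂ}
    (hf : MemLp f 2 μ) (hg : MemLp g 2 μ) :
    inner ℂ (hf.toLp f) (hg.toLp g) = ∫ x, (starRingEnd ℂ) (f x) * g x ∂μ := by
  rw [L2.inner_def]
  refine integral_congr_ae ?_
  filter_upwards [hf.coeFn_toLp, hg.coeFn_toLp] with x h1 h2
  rw [h1, h2, RCLike.inner_apply, mul_comm]

/-- bounded sequences converge along ultrafilters -/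
theorem exists_lim_ultra (U : Ultrafilter ℕ) (z : ℕ → ℂ) (C : ℝ) (h : ∀ n, ‖z n‖ ≤ C) :
    ∃ c : ℂ, Tendsto z U (𝓝 c) := by
  obtain ⟨c, -, hc⟩ := (isCompact_closedBall (0 : ℂ) C).ultrafilter_le_nhds (U.map z) (by
    rw [le_principal_iff]
    have h1 : ∀ n, z n ∈ closedBall (0 : ℂ) C := fun n => by simpa using h n
    exact Filter.mem_map.mpr (Filter.univ_mem' h1))
  exact ⟨c, hc⟩

/-- The frequencies seen by a bounded sequence form a countable set. -/
theorem freq_countable {d : ℕ} (hd : 3 ≤ d) (U : Ultrafilter ℕ) (f : ℕ → Sph d → ℝ)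
    (hf : ∀ n, Measurable (f n)) (hf1 : ∀ n x, ‖f n x‖ ≤ 1) (W : Set (ℕ → E d))
    (hW : ∀ v ∈ W, ∀ w ∈ W, v ≠ w → Tendsto (fun n => ‖(v - w) n‖) U atTop) (u : C(Sph d, ℂ)) :
    {w ∈ W | ¬ Tendsto (fun n => ∫ x : Sph d, (f n x : ℂ) * u x *
      ee (-(inner ℝ (w n) (x : E d))) ∂(sig d)) U (𝓝 0)}.Countable := by
  have hu : ∀ x, ‖u x‖ ≤ ‖u‖ := fun x => u.norm_coe_le_norm x
  have hfc : ∀ n, AEStronglyMeasurable (fun x : Sph d => (f n x : ℂ)) (sig d) := fun n =>
    (Complex.measurable_ofReal.comp (hf n)).aestronglyMeasurable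
  have hec : ∀ w : E d, Continuous fun x : Sph d => ee (inner ℝ w (x : E d)) := fun w =>
    (chS w).continuous
  have hlimex : ∀ w : ℕ → E d, ∃ c : ℂ, Tendsto (fun n => ∫ x : Sph d, (f n x : ℂ) * u x *
      ee (-(inner ℝ (w n) (x : E d))) ∂(sig d)) U (𝓝 c) := by
    intro w
    refine exists_lim_ultra U _ ‖u‖ fun n => ?_
    refine (norm_integral_le_of_norm_le_const (C := ‖u‖) (Eventually.of_forall fun x => ?_)).trans ?_
    · rw [norm_mul, norm_mul, rl_norm_ee, mul_one, Complex.norm_real]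
      calc ‖f n x‖ * ‖u x‖ ≤ 1 * ‖u‖ :=
            mul_le_mul (hf1 n x) (hu x) (norm_nonneg _) zero_le_one
        _ = ‖u‖ := one_mul _
    · simp
  choose c hc using hlimex
  -- the vectors
  have hx : ∀ n, MemLp (fun x : Sph d => (f n x : ℂ)) 2 (sig d) := fun n =>
    MemLp.of_bound (hfc n) 1 (Eventually.of_forall fun x => by
      rw [Complex.norm_real]; exact hf1 n x)
  have he : ∀ w : E d, MemLp (fun x : Sph d => (starRingEnd ℂ) (u x) * ee (inner ℝ w (x : E d))) 2
      (sig d) := fun w => by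
    refine MemLp.of_bound ?_ ‖u‖ (Eventually.of_forall fun x => ?_)
    · exact ((Complex.continuous_conj.comp u.continuous).mul (hec w)).aestronglyMeasurable
    · rw [norm_mul, rl_norm_ee, mul_one, RCLike.norm_conj]
      exact hu x
  have hbes : ∀ s : Finset W, ∑ w ∈ s, ‖c w.1‖ ^ 2 ≤ ‖u‖ ^ 2 := by
    intro s
    refine bessel_lim (H := Lp ℂ 2 (sig d)) (U : Filter ℕ) s (fun n => (hx n).toLp _)
      (fun w n => (he (w.1 n)).toLp _) (fun w => c w.1) (‖u‖ ^ 2) (by positivity) ?_ ?_ ?_ ?_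
    · intro n
      have h1 : ‖(hx n).toLp _‖ ^ 2 ≤ 1 := by
        rw [← @inner_self_eq_norm_sq ℂ, inner_toLp']
        refine (RCLike.re_le_norm _).trans ?_
        refine (norm_integral_le_of_norm_le_const (C := 1) (Eventually.of_forall fun x => ?_)).trans ?_
        · rw [norm_mul, RCLike.norm_conj, Complex.norm_real]
          exact mul_le_one₀ (hf1 n x) (norm_nonneg _) (hf1 n x)
        · simp
      exact (sq_le_one_iff₀ (norm_nonneg _)).mp h1
    · intro w _
      refine (hc w.1).congr fun n => ?_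
      rw [inner_toLp']
      refine integral_congr_ae (Eventually.of_forall fun x => ?_)
      show (f n x : ℂ) * u x * ee (-(inner ℝ (w.1 n) (x : E d))) = (starRingEnd ℂ)
        ((starRingEnd ℂ) (u x) * ee (inner ℝ (w.1 n) (x : E d))) * (f n x : ℂ)
      rw [map_mul, Complex.conj_conj, rl_ee_conj]
      ring
    · intro w _ n
      rw [← @inner_self_eq_norm_sq ℂ, inner_toLp']
      refine (RCLike.re_le_norm _).trans ?_
      refine (norm_integral_le_of_norm_le_const (C := ‖u‖ ^ 2)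
        (Eventually.of_forall fun x => ?_)).trans ?_
      · rw [norm_mul, RCLike.norm_conj, norm_mul, rl_norm_ee, mul_one, RCLike.norm_conj, ← sq]
        exact pow_le_pow_left₀ (norm_nonneg _) (hu x) 2
      · simp
    · intro v _ w _ hvw
      have hne : v.1 ≠ w.1 := fun h => hvw (Subtype.ext h)
      have h1 : Tendsto (fun n => (w.1 - v.1) n) U (cocompact (E d)) := by
        rw [← Metric.cobounded_eq_cocompact, ← tendsto_norm_atTop_iff_cobounded]
        exact hW _ w.2 _ v.2 hne.symm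
      have h2 := (rl_sphere d hd (fun x => u x * (starRingEnd ℂ) (u x))
        (integrable_sph (u.continuous.mul (Complex.continuous_conj.comp u.continuous)))).comp h1
      refine h2.congr fun n => ?_
      rw [inner_toLp']
      refine integral_congr_ae (Eventually.of_forall fun x => ?_)
      show u x * (starRingEnd ℂ) (u x) * ee (inner ℝ ((w.1 - v.1) n) (x : E d)) = (starRingEnd ℂ)
        ((starRingEnd ℂ) (u x) * ee (inner ℝ (v.1 n) (x : E d))) *
          ((starRingEnd ℂ) (u x) * ee (inner ℝ (w.1 n) (x : E d)))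
      rw [map_mul, Complex.conj_conj, rl_ee_conj, Pi.sub_apply, inner_sub_left, sub_eq_add_neg,
        rl_ee_add]
      ring
  have hsum : Summable fun w : W => ‖c w.1‖ ^ 2 :=
    summable_of_sum_le (fun w => by positivity) hbes
  have hcount := hsum.countable_support
  refine (hcount.image Subtype.val).mono ?_
  rintro w ⟨hw, hn⟩
  refine ⟨⟨w, hw⟩, ?_, rfl⟩
  rw [Function.mem_support]
  intro h0
  apply hn
  have h1 : c w = 0 := by
    have h2 : ‖c w‖ = 0 := by simpa using h0
    exact norm_eq_zero.mp h2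
  rw [← h1]
  exact hc w

end SPH
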