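import Pool.Agent.SPH.Rec2

/-! Project SPH, row REC3: rectangles inscribed in the sphere are congruent to the standard ones. -/

open MeasureTheory Set Metric
open scoped ENNReal NNReal Topology

noncomputable section
namespace SPH

theorem inner_bas {d : ℕ} (hd : 2 ≤ d) (i j : ℕ) (hi : i ≤ 2) (hj : j ≤ 2) :
    inner ℝ (bas d i) (bas d j) = if i = j then (1 : ℝ) else 0 := by
  have h1 : (Fin.ofNat (d + 1) i = Fin.ofNat (d + 1) j) ↔ i = j := by
    constructor
    · intro h
      have h2 := congrArg Fin.val h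
      simp only [Fin.ofNat] at h2
      rw [Nat.mod_eq_of_lt (by omega), Nat.mod_eq_of_lt (by omega)] at h2
      exact h2
    · intro h; rw [h]
  unfold bas
  have h4 : inner ℝ (EuclideanSpace.single (Fin.ofNat (d + 1) i) (1 : ℝ))
      (EuclideanSpace.single (Fin.ofNat (d + 1) j) (1 : ℝ)) =
      if Fin.ofNat (d + 1) i = Fin.ofNat (d + 1) j then (1 : ℝ) else 0 := by
    rw [EuclideanSpace.inner_single_left]
    simp only [map_one, one_mul]
    exact Pi.single_apply _ _ _
  rw [h4]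
  by_cases hij : i = j
  · rw [if_pos hij, if_pos (h1.mpr hij)]
  · rw [if_neg hij, if_neg (fun h => hij (h1.mp h))]

/-- the average over a congruent quadruple is the same -/
theorem J4_act {d : ℕ} (g0 g1 g2 g3 : E d → ℂ) (y0 y1 y2 y3 : E d) (R : OG d) :
    J4 g0 g1 g2 g3 (act R y0) (act R y1) (act R y2) (act R y3) = J4 g0 g1 g2 g3 y0 y1 y2 y3 := by
  unfold J4
  simp only [← act_mul]
  exact integral_mul_right_eq_self (μ := mu d) (fun T : OG d => g0 (act T y0) *
    (starRingEnd ℂ) (g1 (act T y1)) * (starRingEnd ℂ) (g2 (act T y2)) * g3 (act T y3)) R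

/-- the vector with first coordinate cos psi and tail plus or minus sin psi w -/
theorem rect_gram {d : ℕ} (hd : 2 ≤ d) (C S c s C' S' c' s' : ℝ) :
    inner ℝ (C • bas d 0 + S • (c • bas d 1 + s • bas d 2))
      (C' • bas d 0 + S' • (c' • bas d 1 + s' • bas d 2)) = C * C' + S * S' * (c * c' + s * s') := by
  have e00 : inner ℝ (bas d 0) (bas d 0) = (1 : ℝ) := by
    rw [inner_bas hd 0 0 (by norm_num) (by norm_num), if_pos rfl]
  have e01 : inner ℝ (bas d 0) (bas d 1) = (0 : ℝ) := by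
    rw [inner_bas hd 0 1 (by norm_num) (by norm_num), if_neg (by norm_num)]
  have e02 : inner ℝ (bas d 0) (bas d 2) = (0 : ℝ) := by
    rw [inner_bas hd 0 2 (by norm_num) (by norm_num), if_neg (by norm_num)]
  have e10 : inner ℝ (bas d 1) (bas d 0) = (0 : ℝ) := by
    rw [inner_bas hd 1 0 (by norm_num) (by norm_num), if_neg (by norm_num)]
  have e11 : inner ℝ (bas d 1) (bas d 1) = (1 : ℝ) := by
    rw [inner_bas hd 1 1 (by norm_num) (by norm_num), if_pos rfl]
  have e12 : inner ℝ (bas d 1) (bas d 2) = (0 : ℝ) := by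
    rw [inner_bas hd 1 2 (by norm_num) (by norm_num), if_neg (by norm_num)]
  have e20 : inner ℝ (bas d 2) (bas d 0) = (0 : ℝ) := by
    rw [inner_bas hd 2 0 (by norm_num) (by norm_num), if_neg (by norm_num)]
  have e21 : inner ℝ (bas d 2) (bas d 1) = (0 : ℝ) := by
    rw [inner_bas hd 2 1 (by norm_num) (by norm_num), if_neg (by norm_num)]
  have e22 : inner ℝ (bas d 2) (bas d 2) = (1 : ℝ) := by
    rw [inner_bas hd 2 2 (by norm_num) (by norm_num), if_pos rfl]
  simp only [inner_add_left, inner_add_right, real_inner_smul_left, real_inner_smul_right, e00, e01,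
    e02, e10, e11, e12, e20, e21, e22]
  ring

theorem va_eq (d : ℕ) (ψ : ℝ) : va d ψ = Real.cos ψ • bas d 0 +
    Real.sin ψ • ((1 : ℝ) • bas d 1 + (0 : ℝ) • bas d 2) := by
  simp [va]

theorem vb_eq (d : ℕ) (ψ : ℝ) : vb d ψ = Real.cos ψ • bas d 0 +
    (-Real.sin ψ) • ((1 : ℝ) • bas d 1 + (0 : ℝ) • bas d 2) := by
  simp [vb, sub_eq_add_neg]

theorem vd_eq (d : ℕ) (ψ χ : ℝ) : vd d ψ χ = Real.cos ψ • bas d 0 +
    (-Real.sin ψ) • (Real.cos χ • bas d 1 + Real.sin χ • bas d 2) := by
  simp only [vd, sub_eq_add_neg, neg_smul]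

/-- ROW REC3 (a). -/
theorem J4_eq_jg {d : ℕ} (hd : 3 ≤ d) (g : E d → ℂ) (y0 y1 y2 y3 : E d) (h0 : ‖y0‖ = 1)
    (h1 : ‖y1‖ = 1) (h2 : ‖y2‖ = 1) (h3 : ‖y3‖ = 1) (hy : y0 + y3 = y1 + y2)
    (hst : inner ℝ y0 y1 + inner ℝ y0 y2 < (2 : ℝ)) :
    J4 g g g g y0 y1 y2 y3 = jg g (inner ℝ y0 y1) (inner ℝ y0 y2) := by
  obtain ⟨s, hs⟩ : ∃ s : ℝ, inner ℝ y0 y1 = s := ⟨_, rfl⟩
  obtain ⟨t, ht⟩ : ∃ t : ℝ, inner ℝ y0 y2 = t := ⟨_, rfl⟩
  rw [hs, ht] at hst ⊢
  have hd2 : 2 ≤ d := by omega
  have i00 : inner ℝ y0 y0 = (1 : ℝ) := by rw [real_inner_self_eq_norm_sq, h0]; norm_num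
  have i11 : inner ℝ y1 y1 = (1 : ℝ) := by rw [real_inner_self_eq_norm_sq, h1]; norm_num
  have i22 : inner ℝ y2 y2 = (1 : ℝ) := by rw [real_inner_self_eq_norm_sq, h2]; norm_num
  have i33 : inner ℝ y3 y3 = (1 : ℝ) := by rw [real_inner_self_eq_norm_sq, h3]; norm_num
  have hy3 : y3 = y1 + y2 - y0 := by rw [← hy]; abel
  have i10 : inner ℝ y1 y0 = s := by rw [real_inner_comm, hs]
  have i20 : inner ℝ y2 y0 = t := by rw [real_inner_comm, ht]
  have i12 : inner ℝ y1 y2 = s + t - 1 := by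
    have h := i33
    rw [hy3] at h
    simp only [inner_add_left, inner_add_right, inner_sub_left, inner_sub_right, i00, i11, i22, hs, ht,
      i10, i20] at h
    have h' : inner ℝ y2 y1 = inner ℝ y1 y2 := real_inner_comm _ _
    rw [h'] at h
    linarith
  have i21 : inner ℝ y2 y1 = s + t - 1 := by rw [real_inner_comm, i12]
  have i03 : inner ℝ y0 y3 = s + t - 1 := by
    rw [hy3]
    simp only [inner_add_right, inner_sub_right, i00, hs, ht]
  have i30 : inner ℝ y3 y0 = s + t - 1 := by rw [real_inner_comm, i03]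
  have i13 : inner ℝ y1 y3 = t := by
    rw [hy3]
    simp only [inner_add_right, inner_sub_right, i11, i12, i10]
    ring
  have i31 : inner ℝ y3 y1 = t := by rw [real_inner_comm, i13]
  have i23 : inner ℝ y2 y3 = s := by
    rw [hy3]
    simp only [inner_add_right, inner_sub_right, i22, i21, i20]
    ring
  have i32 : inner ℝ y3 y2 = s := by rw [real_inner_comm, i23]
  have hs1 : s ≤ 1 := by
    have h := real_inner_le_norm y0 y1
    rw [hs, h0, h1] at h
    linarith
  have ht1 : t ≤ 1 := by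
    have h := real_inner_le_norm y0 y2
    rw [ht, h0, h2] at h
    linarith
  have hst0 : 0 ≤ s + t := by
    have h := abs_real_inner_le_norm y1 y2
    rw [i12, h1, h2] at h
    have h' := (abs_le.mp h).1
    linarith
  -- angles
  have hq0 : 0 ≤ (s + t) / 2 := by linarith
  have hq1 : (s + t) / 2 ≤ 1 := by linarith
  have hsq0 : 0 ≤ Real.sqrt ((s + t) / 2) := Real.sqrt_nonneg _
  have hsq1 : Real.sqrt ((s + t) / 2) ≤ 1 := by
    rw [show (1 : ℝ) = Real.sqrt 1 from Real.sqrt_one.symm]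
    exact Real.sqrt_le_sqrt hq1
  have hcψ : Real.cos (psiOf s t) = Real.sqrt ((s + t) / 2) :=
    Real.cos_arccos (by linarith) hsq1
  have hcψ2 : Real.cos (psiOf s t) ^ 2 = (s + t) / 2 := by
    rw [hcψ, Real.sq_sqrt hq0]
  have hsψ2 : Real.sin (psiOf s t) ^ 2 = (2 - s - t) / 2 := by
    have h := Real.sin_sq_add_cos_sq (psiOf s t)
    rw [hcψ2] at h
    linarith
  have hden : 0 < 2 - s - t := by linarith
  have hcχ : Real.cos (chiOf s t) = (s - t) / (2 - s - t) := by
    unfold chiOf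
    refine Real.cos_arccos ?_ ?_
    · rw [le_div_iff₀ hden]; linarith
    · rw [div_le_iff₀ hden]; linarith
  have hsc : Real.sin (psiOf s t) ^ 2 * Real.cos (chiOf s t) = (s - t) / 2 := by
    rw [hsψ2, hcχ]
    field_simp
  have hχ1 := Real.sin_sq_add_cos_sq (chiOf s t)
  set ψ := psiOf s t with hψ
  set χ := chiOf s t with hχ
  -- Gram matrix of the standard quadruple
  have gac : inner ℝ (va d ψ) (vc d ψ χ) = s := by
    rw [va_eq, vc, rect_gram hd2]
    linear_combination hcψ2 + hsc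
  have gad : inner ℝ (va d ψ) (vd d ψ χ) = t := by
    rw [va_eq, vd_eq, rect_gram hd2]
    linear_combination hcψ2 - hsc
  have gab : inner ℝ (va d ψ) (vb d ψ) = s + t - 1 := by
    rw [va_eq, vb_eq, rect_gram hd2]
    linear_combination hcψ2 - hsψ2
  have gaa : inner ℝ (va d ψ) (va d ψ) = 1 := by
    rw [va_eq, rect_gram hd2]
    linear_combination hcψ2 + hsψ2
  have gbb : inner ℝ (vb d ψ) (vb d ψ) = 1 := by
    rw [vb_eq, rect_gram hd2]
    linear_combination hcψ2 + hsψ2
  have gcc : inner ℝ (vc d ψ χ) (vc d ψ χ) = 1 := by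
    rw [vc, rect_gram hd2]
    linear_combination hcψ2 + hsψ2 + Real.sin ψ ^ 2 * hχ1
  have gdd : inner ℝ (vd d ψ χ) (vd d ψ χ) = 1 := by
    rw [vd_eq, rect_gram hd2]
    linear_combination hcψ2 + hsψ2 + Real.sin ψ ^ 2 * hχ1
  have gcd : inner ℝ (vc d ψ χ) (vd d ψ χ) = s + t - 1 := by
    rw [vc, vd_eq, rect_gram hd2]
    linear_combination hcψ2 - hsψ2 - Real.sin ψ ^ 2 * hχ1
  have gcb : inner ℝ (vc d ψ χ) (vb d ψ) = t := by
    rw [vc, vb_eq, rect_gram hd2]
    linear_combination hcψ2 - hsc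
  have gdb : inner ℝ (vd d ψ χ) (vb d ψ) = s := by
    rw [vd_eq, vb_eq, rect_gram hd2]
    linear_combination hcψ2 + hsc
  have gca : inner ℝ (vc d ψ χ) (va d ψ) = s := by rw [real_inner_comm, gac]
  have gda : inner ℝ (vd d ψ χ) (va d ψ) = t := by rw [real_inner_comm, gad]
  have gba : inner ℝ (vb d ψ) (va d ψ) = s + t - 1 := by rw [real_inner_comm, gab]
  have gdc : inner ℝ (vd d ψ χ) (vc d ψ χ) = s + t - 1 := by rw [real_inner_comm, gcd]
  have gbc : inner ℝ (vb d ψ) (vc d ψ χ) = t := by rw [real_inner_comm, gcb]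
  have gbd : inner ℝ (vb d ψ) (vd d ψ χ) = s := by rw [real_inner_comm, gdb]
  obtain ⟨R, hR⟩ := exists_act_of_gram (ι := Fin 4) ![va d ψ, vc d ψ χ, vd d ψ χ, vb d ψ]
    ![y0, y1, y2, y3] (by
      intro i j
      fin_cases i <;> fin_cases j
      · exact gaa.trans i00.symm
      · exact gac.trans hs.symm
      · exact gad.trans ht.symm
      · exact gab.trans i03.symm
      · exact gca.trans i10.symm
      · exact gcc.trans i11.symm
      · exact gcd.trans i12.symm
      · exact gcb.trans i13.symm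
      · exact gda.trans i20.symm
      · exact gdc.trans i21.symm
      · exact gdd.trans i22.symm
      · exact gdb.trans i23.symm
      · exact gba.trans i30.symm
      · exact gbc.trans i31.symm
      · exact gbd.trans i32.symm
      · exact gbb.trans i33.symm)
  have r0 : act R (va d ψ) = y0 := hR 0
  have r1 : act R (vc d ψ χ) = y1 := hR 1
  have r2 : act R (vd d ψ χ) = y2 := hR 2
  have r3 : act R (vb d ψ) = y3 := hR 3
  have key := J4_act g g g g (va d ψ) (vc d ψ χ) (vd d ψ χ) (vb d ψ) R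
  rw [r0, r1, r2, r3] at key
  exact key

/-- ROW REC3 (c). -/
theorem norm_jg_le {d : ℕ} (g : E d → ℂ) (hg : ∀ x, ‖g x‖ ≤ 1) (s t : ℝ) : ‖jg g s t‖ ≤ 1 := by
  unfold jg
  exact norm_J4_le hg hg hg hg _ _ _ _

theorem measurable_vc {d : ℕ} {α : Type*} [MeasurableSpace α] {ψ χ : α → ℝ} (hψ : Measurable ψ)
    (hχ : Measurable χ) : Measurable fun a => vc d (ψ a) (χ a) := by
  have h1 : Measurable fun a => Real.cos (ψ a) := Real.measurable_cos.comp hψ
  have h2 : Measurable fun a => Real.sin (ψ a) := Real.measurable_sin.comp hψ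
  have h3 : Measurable fun a => Real.cos (χ a) := Real.measurable_cos.comp hχ
  have h4 : Measurable fun a => Real.sin (χ a) := Real.measurable_sin.comp hχ
  exact (h1.smul_const _).add (h2.smul ((h3.smul_const _).add (h4.smul_const _)))

theorem measurable_vd {d : ℕ} {α : Type*} [MeasurableSpace α] {ψ χ : α → ℝ} (hψ : Measurable ψ)
    (hχ : Measurable χ) : Measurable fun a => vd d (ψ a) (χ a) := by
  have h1 : Measurable fun a => Real.cos (ψ a) := Real.measurable_cos.comp hψ
  have h2 : Measurable fun a => Real.sin (ψ a) := Real.measurable_sin.comp hψ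
  have h3 : Measurable fun a => Real.cos (χ a) := Real.measurable_cos.comp hχ
  have h4 : Measurable fun a => Real.sin (χ a) := Real.measurable_sin.comp hχ
  exact (h1.smul_const _).sub (h2.smul ((h3.smul_const _).add (h4.smul_const _)))

theorem measurable_J4_std {d : ℕ} (g : E d → ℂ) (hg : Measurable g) {α : Type*} [MeasurableSpace α]
    {ψ χ : α → ℝ} (hψ : Measurable ψ) (hχ : Measurable χ) :
    Measurable fun a => J4 g g g g (va d (ψ a)) (vc d (ψ a) (χ a)) (vd d (ψ a) (χ a)) (vb d (ψ a)) := by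
  have m0 : Measurable fun a => va d (ψ a) := (continuous_va d).measurable.comp hψ
  have m3 : Measurable fun a => vb d (ψ a) := (continuous_vb d).measurable.comp hψ
  exact (stronglyMeasurable_J4 hg hg hg hg m0 (measurable_vc hψ hχ) (measurable_vd hψ hχ) m3).measurable

theorem measurable_psiOf : Measurable fun p : ℝ × ℝ => psiOf p.1 p.2 := by
  have h : Measurable fun p : ℝ × ℝ => Real.sqrt ((p.1 + p.2) / 2) := by fun_prop
  have h2 := Real.continuous_arccos.measurable.comp h
  exact h2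

theorem measurable_chiOf : Measurable fun p : ℝ × ℝ => chiOf p.1 p.2 := by
  have h : Measurable fun p : ℝ × ℝ => (p.1 - p.2) / (2 - p.1 - p.2) := by fun_prop
  have h2 := Real.continuous_arccos.measurable.comp h
  exact h2

/-- ROW REC3 (b). -/
theorem measurable_jg {d : ℕ} (g : E d → ℂ) (hg : Measurable g) :
    Measurable (fun p : ℝ × ℝ => jg g p.1 p.2) :=
  measurable_J4_std g hg (ψ := fun p : ℝ × ℝ => psiOf p.1 p.2) (χ := fun p : ℝ × ℝ => chiOf p.1 p.2)
    measurable_psiOf measurable_chiOf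

end SPH
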