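import Pool.Agent.SPH.CSOf
import Pool.Agent.SPH.Rec3

/-! Project SPH (MP_f7e9f1_co), row CS. -/

open MeasureTheory Set Metric Filter
open scoped ENNReal NNReal Topology ComplexConjugate

noncomputable section
namespace SPH

/-- ROW CS: the two Cauchy-Schwarz steps -/
theorem two_cs {d : ℕ} (hd : 3 ≤ d) {ι : Type*} [Fintype ι] [DecidableEq ι] (v : ι → Sph d) (i0 : ι)
    (A : Finset ι) (hA : i0 ∉ A) (e0 : E d) (he0 : ‖e0‖ = 1) (hev : ∀ i, inner ℝ e0 (v i : E d) = 0)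
    (h1 : (v i0 : E d) ∉ Submodule.span ℝ ((fun i => (v i : E d)) '' (A : Set ι)))
    (h2 : (v i0 : E d) ∉ Submodule.span ℝ ((fun i => (v i : E d)) '' {i | i ∉ A ∧ i ≠ i0}))
    (h3 : Module.finrank ℝ (Submodule.span ℝ ((fun i => (v i : E d)) '' (A : Set ι))) + 2 ≤ d) :
    ∃ (q : ℝ) (δ : ℝ → ℝ), 0 < q ∧ q ≤ 1 ∧ Measurable δ ∧ DifferentiableOn ℝ δ (Ioo 0 Real.pi) ∧
      (∀ θ ∈ Ioo 0 Real.pi, 0 < δ θ ∧ δ θ ≤ 1) ∧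
      (∀ θ ∈ Ioo 0 Real.pi, ∀ φ ∈ Ioo 0 Real.pi,
        0 ≤ (1 - q * (1 - Real.cos θ)) + (1 - δ θ * (1 - Real.cos φ))) ∧
      (∀ (g : E d → ℂ) (f : ι → E d → ℂ), Measurable g → (∀ x, ‖g x‖ ≤ 1) →
        (∀ i, Measurable (f i)) → (∀ i x, ‖f i x‖ ≤ 1) →
        ‖∫ T : OG d, g (act T (v i0)) * ∏ i ∈ Finset.univ.erase i0, f i (act T (v i)) ∂(mu d)‖ ^ 4 ≤
          (1 / Real.pi ^ 2) * ‖∫ θ in Ioo 0 Real.pi, ∫ φ in Ioo 0 Real.pi,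
            jg g (1 - q * (1 - Real.cos θ)) (1 - δ θ * (1 - Real.cos φ))‖) := by
  exact two_cs_of (fun g y0 y1 y2 y3 a0 a1 a2 a3 a4 a5 a6 =>
      J4_eq_jg hd g y0 y1 y2 y3 a0 a1 a2 a3 a4 (by linarith))
    (fun g hg => measurable_jg g hg) (fun g hg s t => norm_jg_le g hg s t) v i0 A hA e0 he0 hev h1 h2 h3

end SPH
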