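import Pool.Agent.SPH.RectSmall

/-! Project SPH (MP_f7e9f1_co), row UTHM: Theorem U, from the two Cauchy-Schwarz steps and the smallness
of the average over rectangles. -/

open MeasureTheory Set Metric Filter
open scoped ENNReal NNReal Topology

noncomputable section
namespace SPH

/-- conclusion of `two_cs` for one family -/
def TwoCS {d : ℕ} {ι : Type*} [Fintype ι] [DecidableEq ι] (v : ι → Sph d) (i0 : ι) : Prop :=
  ∃ (q : ℝ) (δ : ℝ → ℝ), 0 < q ∧ Measurable δ ∧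
    (∀ θ ∈ Ioo 0 Real.pi, 0 < δ θ ∧ δ θ ≤ 1) ∧
    (∀ θ ∈ Ioo 0 Real.pi, ∀ φ ∈ Ioo 0 Real.pi,
      0 ≤ (1 - q * (1 - Real.cos θ)) + (1 - δ θ * (1 - Real.cos φ))) ∧
    (∀ (g : E d → ℂ) (f : ι → E d → ℂ), Measurable g → (∀ x, ‖g x‖ ≤ 1) →
      (∀ i, Measurable (f i)) → (∀ i x, ‖f i x‖ ≤ 1) →
      ‖∫ T : OG d, g (act T (v i0)) * ∏ i ∈ Finset.univ.erase i0, f i (act T (v i)) ∂(mu d)‖ ^ 4 ≤
        (1 / Real.pi ^ 2) * ‖∫ θ in Ioo 0 Real.pi, ∫ φ in Ioo 0 Real.pi,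
          jg g (1 - q * (1 - Real.cos θ)) (1 - δ θ * (1 - Real.cos φ))‖)

/-- conclusion of `rect_small` -/
def RectSmall (d : ℕ) : Prop :=
  ∀ (q : ℝ) (δ : ℝ → ℝ), 0 < q → Measurable δ → (∀ θ ∈ Ioo 0 Real.pi, 0 < δ θ ∧ δ θ ≤ 1) →
    (∀ θ ∈ Ioo 0 Real.pi, ∀ φ ∈ Ioo 0 Real.pi,
        0 ≤ (1 - q * (1 - Real.cos θ)) + (1 - δ θ * (1 - Real.cos φ))) → ∀ η : ℝ, 0 < η →
    ∃ ε : ℝ, 0 < ε ∧ ∀ g : E d → ℂ, Measurable g → (∀ x, ‖g x‖ ≤ 1) → (∀ ξ, ‖FT g ξ‖ ≤ ε) →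
      ‖∫ θ in Ioo 0 Real.pi, ∫ φ in Ioo 0 Real.pi,
        jg g (1 - q * (1 - Real.cos θ)) (1 - δ θ * (1 - Real.cos φ))‖ ≤ η

theorem theoremU_of {d : ℕ} {ι : Type*} [Fintype ι] [DecidableEq ι] (v : ι → Sph d) (i0 : ι)
    (h1 : TwoCS v i0) (h2 : RectSmall d) (κ : ℝ) (hκ : 0 < κ) :
    ∃ ε : ℝ, 0 < ε ∧ ∀ (g : E d → ℂ) (f : ι → E d → ℂ), Measurable g → (∀ x, ‖g x‖ ≤ 1) →
        (∀ i, Measurable (f i)) → (∀ i x, ‖f i x‖ ≤ 1) → (∀ ξ, ‖FT g ξ‖ ≤ ε) →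
        ‖∫ T : OG d, g (act T (v i0)) * ∏ i ∈ Finset.univ.erase i0, f i (act T (v i)) ∂(mu d)‖ ≤ κ := by
  obtain ⟨q, δ, hq, hδm, hδ1, hδ2, hmain⟩ := h1
  obtain ⟨ε, hε, H⟩ := h2 q δ hq hδm hδ1 hδ2 (Real.pi ^ 2 * κ ^ 4) (by positivity)
  refine ⟨ε, hε, fun g f hg hg1 hf hf1 hξ => ?_⟩
  have h3 := hmain g f hg hg1 hf hf1
  have h4 := H g hg hg1 hξ
  have h5 : ‖∫ T : OG d, g (act T (v i0)) * ∏ i ∈ Finset.univ.erase i0, f i (act T (v i)) ∂(mu d)‖ ^ 4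
      ≤ κ ^ 4 := by
    refine h3.trans ?_
    calc (1 / Real.pi ^ 2) * _ ≤ (1 / Real.pi ^ 2) * (Real.pi ^ 2 * κ ^ 4) := by gcongr
      _ = κ ^ 4 := by field_simp
  exact le_of_pow_le_pow_left₀ (by norm_num) hκ.le h5

/-- extension by zero -/
def extS {d : ℕ} (g : Sph d → ℝ) (x : E d) : ℂ :=
  open Classical in if h : x ∈ Metric.sphere (0 : E d) 1 then ((g ⟨x, h⟩ : ℝ) : ℂ) else 0

theorem extS_coe {d : ℕ} (g : Sph d → ℝ) (x : Sph d) : extS g x = ((g x : ℝ) : ℂ) := by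
  unfold extS
  rw [dif_pos x.2]

theorem measurable_extS {d : ℕ} (g : Sph d → ℝ) (hg : Measurable g) : Measurable (extS g) := by
  classical
  have : Measurable fun x : E d => if h : x ∈ Metric.sphere (0 : E d) 1 then
      (fun y : Sph d => ((g y : ℝ) : ℂ)) ⟨x, h⟩ else
      (fun _ : ((Metric.sphere (0 : E d) 1)ᶜ : Set (E d)) => (0 : ℂ)) ⟨x, h⟩ :=
    Measurable.dite (Complex.measurable_ofReal.comp hg) measurable_const
      Metric.isClosed_sphere.measurableSet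
  exact this

theorem norm_extS_le {d : ℕ} (g : Sph d → ℝ) (hg : ∀ x, |g x| ≤ 1) (x : E d) : ‖extS g x‖ ≤ 1 := by
  unfold extS
  split_ifs with h
  · rw [Complex.norm_real]
    exact hg _
  · simp

theorem FT_extS {d : ℕ} (g : Sph d → ℝ) (ξ : E d) :
    FT (extS g) ξ = ∫ x : Sph d, ((g x : ℝ) : ℂ) * ee (-(inner ℝ ξ (x : E d))) ∂(sig d) := by
  unfold FT
  refine integral_congr_ae (Filter.Eventually.of_forall fun x => ?_)
  show extS g x * _ = _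
  rw [extS_coe]

/-- Theorem U for real functions on the sphere from Theorem U. -/
theorem theoremU_sph_of {d : ℕ} {ι : Type*} [Fintype ι] [DecidableEq ι] (v : ι → Sph d) (i0 : ι)
    (κ : ℝ)
    (hU : ∃ ε : ℝ, 0 < ε ∧ ∀ (g : E d → ℂ) (f : ι → E d → ℂ), Measurable g → (∀ x, ‖g x‖ ≤ 1) →
        (∀ i, Measurable (f i)) → (∀ i x, ‖f i x‖ ≤ 1) → (∀ ξ, ‖FT g ξ‖ ≤ ε) →
        ‖∫ T : OG d, g (act T (v i0)) * ∏ i ∈ Finset.univ.erase i0, f i (act T (v i)) ∂(mu d)‖ ≤ κ) :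
    ∃ ε : ℝ, 0 < ε ∧ ∀ (g : Sph d → ℝ) (f : ι → Sph d → ℝ), Measurable g → (∀ x, |g x| ≤ 1) →
        (∀ i, Measurable (f i)) → (∀ i x, |f i x| ≤ 1) →
        (∀ ξ : E d, ‖∫ x : Sph d, ((g x : ℝ) : ℂ) * ee (-(inner ℝ ξ (x : E d))) ∂(sig d)‖ ≤ ε) →
        |∫ T : OG d, g (T • v i0) * ∏ i ∈ Finset.univ.erase i0, f i (T • v i) ∂(mu d)| ≤ κ := by
  obtain ⟨ε, hε, H⟩ := hU
  refine ⟨ε, hε, fun g f hg hg1 hf hf1 hξ => ?_⟩
  have h := H (extS g) (fun i => extS (f i)) (measurable_extS g hg) (norm_extS_le g hg1)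
    (fun i => measurable_extS (f i) (hf i)) (fun i => norm_extS_le (f i) (hf1 i))
    (fun ξ => by rw [FT_extS]; exact hξ ξ)
  have e : ∫ T : OG d, extS g (act T (v i0)) * ∏ i ∈ Finset.univ.erase i0, extS (f i) (act T (v i))
      ∂(mu d) =
      ((∫ T : OG d, g (T • v i0) * ∏ i ∈ Finset.univ.erase i0, f i (T • v i) ∂(mu d) : ℝ) : ℂ) := by
    rw [← integral_complex_ofReal]
    refine integral_congr_ae (Filter.Eventually.of_forall fun T => ?_)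
    show extS g (act T (v i0)) * ∏ i ∈ Finset.univ.erase i0, extS (f i) (act T (v i)) = _
    have e1 : ∀ (g : Sph d → ℝ) (x : Sph d), extS g (act T x) = ((g (T • x) : ℝ) : ℂ) :=
      fun g x => extS_coe g (T • x)
    simp only [e1]
    push_cast
    rfl
  rw [e, Complex.norm_real] at h
  exact h

end SPH
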