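import Pool.Agent.SPH.CSOf
import Pool.Agent.SPH.UThmOf

/-! Project SPH (MP_f7e9f1_co), row CS2: the two Cauchy-Schwarz steps with a rotation plane that is
orthogonal only to the vectors outside A (full rank configurations). -/

open MeasureTheory Set Metric Filter
open scoped ENNReal NNReal Topology ComplexConjugate

noncomputable section
namespace SPH

/-- the second step, general form -/
theorem cs_step2W {d : ℕ}
    (hJ : ∀ (g : E d → ℂ) (y0 y1 y2 y3 : E d), ‖y0‖ = 1 → ‖y1‖ = 1 → ‖y2‖ = 1 → ‖y3‖ = 1 →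
      y0 + y3 = y1 + y2 → inner ℝ y0 y1 < 1 → inner ℝ y0 y2 < 1 →
      J4 g g g g y0 y1 y2 y3 = jg g (inner ℝ y0 y1) (inner ℝ y0 y2))
    (hjmeas : ∀ g : E d → ℂ, Measurable g → Measurable (fun p : ℝ × ℝ => jg g p.1 p.2))
    (hjb : ∀ g : E d → ℂ, (∀ x, ‖g x‖ ≤ 1) → ∀ s t : ℝ, ‖jg g s t‖ ≤ 1) {ι : Type*} (v : ι → E d) (w : E d) (hw : ‖w‖ = 1)
    (A : Finset ι) (r : OG d) (s δ : ℝ) (hs1 : s < 1) (hδ : 0 < δ)
    (hs : inner ℝ w (act r w) = s)
    (Q : ℝ → OG d) (hQc : Continuous Q) (hQm : ∀ s t, Q (s + t) = Q s * Q t)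
    (hQp : Q (2 * Real.pi) = 1) (hQv : ∀ φ, ∀ i ∈ A, act (Q φ) (v i) = v i)
    (hQrv : ∀ φ, ∀ i ∈ A, act (Q φ) (act r (v i)) = act r (v i))
    (hQd : ∀ φ, act (Q φ) (act r w) = act (Q φ) w + (act r w - w))
    (hQw : ∀ φ, inner ℝ w (act (Q φ) w) = 1 - δ * (1 - Real.cos φ))
    (g : E d → ℂ) (f : ι → E d → ℂ) (hg : Measurable g) (hg1 : ∀ x, ‖g x‖ ≤ 1)
    (hf : ∀ i, Measurable (f i)) (hf1 : ∀ i x, ‖f i x‖ ≤ 1) :
    ‖∫ T : OG d, (g (act T w) * ∏ i ∈ A, f i (act T (v i))) *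
        conj (g (act (T * r) w) * ∏ i ∈ A, f i (act (T * r) (v i))) ∂(mu d)‖ ^ 2 ≤
      (1 / Real.pi) * (∫ φ in Ioo 0 Real.pi, jg g s (1 - δ * (1 - Real.cos φ))).re := by
  have hpi := Real.pi_pos
  have hcos : ∀ θ ∈ Ioo 0 Real.pi, Real.cos θ < 1 := by
    intro θ hθ
    rw [← Real.cos_zero]
    exact Real.cos_lt_cos_of_nonneg_of_le_pi le_rfl hθ.2.le hθ.1
  have hKeq : ∀ T : OG d, (g (act T w) * ∏ i ∈ A, f i (act T (v i))) *
        conj (g (act (T * r) w) * ∏ i ∈ A, f i (act (T * r) (v i))) =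
      (∏ i ∈ A, (f i (act T (v i)) * conj (f i (act T (act r (v i)))))) *
        (g (act T w) * conj (g (act T (act r w)))) := by
    intro T
    simp only [act_mul, map_mul, map_prod, Finset.prod_mul_distrib]
    ring
  simp only [hKeq]
  have hYm : Measurable fun T : OG d => g (act T w) * conj (g (act T (act r w))) :=
    (hg.comp (measurable_act_left _)).mul
      (Complex.continuous_conj.measurable.comp (hg.comp (measurable_act_left _)))
  have hYb : ∀ T : OG d, ‖g (act T w) * conj (g (act T (act r w)))‖ ≤ 1 := by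
    intro T
    rw [norm_mul, RCLike.norm_conj]
    exact mul_le_one₀ (hg1 _) (norm_nonneg _) (hg1 _)
  have hFm : Measurable fun T : OG d =>
      ∏ i ∈ A, (f i (act T (v i)) * conj (f i (act T (act r (v i))))) :=
    Finset.measurable_prod _ fun i _ => ((hf i).comp (measurable_act_left _)).mul
      (Complex.continuous_conj.measurable.comp ((hf i).comp (measurable_act_left _)))
  have hFb : ∀ T : OG d, ‖∏ i ∈ A, (f i (act T (v i)) * conj (f i (act T (act r (v i)))))‖ ≤ 1 := by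
    intro T
    rw [norm_prod]
    refine Finset.prod_le_one (fun i _ => norm_nonneg _) fun i _ => ?_
    rw [norm_mul, RCLike.norm_conj]
    exact mul_le_one₀ (hf1 _ _) (norm_nonneg _) (hf1 _ _)
  have hFQ : ∀ (T : OG d) φ,
      ∏ i ∈ A, (f i (act (T * Q φ) (v i)) * conj (f i (act (T * Q φ) (act r (v i))))) =
      ∏ i ∈ A, (f i (act T (v i)) * conj (f i (act T (act r (v i))))) := by
    intro T φ
    refine Finset.prod_congr rfl fun i hi => ?_
    rw [act_mul, act_mul, hQv φ i hi, hQrv φ i hi]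
  refine (vdc Q hQc hQm hQp _ _ hFm hYm hFb hYb hFQ).trans (le_of_eq ?_)
  congr 1
  have hJ2 : ∀ φ ∈ Ioo 0 Real.pi, ∫ T : OG d, (g (act T w) * conj (g (act T (act r w)))) *
      conj (g (act (T * Q φ) w) * conj (g (act (T * Q φ) (act r w)))) ∂(mu d) =
        jg g s (1 - δ * (1 - Real.cos φ)) := by
    intro φ hφ
    have hJ' := hJ g w (act r w) (act (Q φ) w)
      (act (Q φ) (act r w)) hw (by rw [norm_act, hw]) (by rw [norm_act, hw])
      (by rw [norm_act, norm_act, hw])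
      (by rw [hQd]; abel)
      (by rw [hs]; exact hs1)
      (by
        rw [hQw]
        have h5 := hcos φ hφ
        nlinarith)
    rw [hs, hQw] at hJ'
    rw [← hJ']
    refine integral_congr_ae (Eventually.of_forall fun T => ?_)
    simp only [act_mul, map_mul, Complex.conj_conj]
    ring
  have hjm : Measurable fun φ => jg g s (1 - δ * (1 - Real.cos φ)) := by
    have h6 : Measurable fun φ : ℝ => ((s, 1 - δ * (1 - Real.cos φ)) : ℝ × ℝ) := by
      have hc : Measurable Real.cos := Real.measurable_cos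
      fun_prop
    have h7 := Measurable.comp (g := fun p : ℝ × ℝ => jg g p.1 p.2) (hjmeas g hg) h6
    exact h7
  have hji : Integrable (fun φ => jg g s (1 - δ * (1 - Real.cos φ)))
      (volume.restrict (Ioo 0 Real.pi)) :=
    integrable_bdd hjm.aestronglyMeasurable 1 fun φ => hjb g hg1 _ _
  have hre : (∫ φ in Ioo 0 Real.pi, jg g s (1 - δ * (1 - Real.cos φ))).re =
      ∫ φ in Ioo 0 Real.pi, (jg g s (1 - δ * (1 - Real.cos φ))).re :=
    (integral_re hji).symm
  rw [hre]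
  refine setIntegral_congr_fun measurableSet_Ioo fun φ hφ => ?_
  exact congrArg Complex.re (hJ2 φ hφ)

/-- the two Cauchy-Schwarz steps from the geometric data -/
theorem twoCS_core {d : ℕ}
    (hJ : ∀ (g : E d → ℂ) (y0 y1 y2 y3 : E d), ‖y0‖ = 1 → ‖y1‖ = 1 → ‖y2‖ = 1 → ‖y3‖ = 1 →
      y0 + y3 = y1 + y2 → inner ℝ y0 y1 < 1 → inner ℝ y0 y2 < 1 →
      J4 g g g g y0 y1 y2 y3 = jg g (inner ℝ y0 y1) (inner ℝ y0 y2))
    (hjmeas : ∀ g : E d → ℂ, Measurable g → Measurable (fun p : ℝ × ℝ => jg g p.1 p.2))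
    (hjb : ∀ g : E d → ℂ, (∀ x, ‖g x‖ ≤ 1) → ∀ s t : ℝ, ‖jg g s t‖ ≤ 1)
    {ι : Type*} [Fintype ι] [DecidableEq ι] (v : ι → Sph d) (i0 : ι)
    (A : Finset ι) (hA : i0 ∉ A) (q : ℝ) (δ : ℝ → ℝ) (R : ℝ → OG d) (hq0 : 0 < q)
    (hδm : Measurable δ) (hδ : ∀ θ ∈ Ioo 0 Real.pi, 0 < δ θ ∧ δ θ ≤ 1)
    (hRc : Continuous R) (hRm : ∀ s t, R (s + t) = R s * R t) (hRp : R (2 * Real.pi) = 1)
    (hRB : ∀ θ i, i ∉ A → i ≠ i0 → act (R θ) (v i : E d) = v i)
    (hs : ∀ θ, inner ℝ (v i0 : E d) (act (R θ) (v i0)) = 1 - q * (1 - Real.cos θ))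
    (hQ : ∀ θ ∈ Ioo 0 Real.pi, ∃ Q : ℝ → OG d, Continuous Q ∧ (∀ s t, Q (s + t) = Q s * Q t) ∧
        Q (2 * Real.pi) = 1 ∧ (∀ φ, ∀ i ∈ A, act (Q φ) (v i : E d) = v i) ∧
        (∀ φ, ∀ i ∈ A, act (Q φ) (act (R θ) (v i : E d)) = act (R θ) (v i : E d)) ∧
        (∀ φ, act (Q φ) (act (R θ) (v i0 : E d)) =
          act (Q φ) (v i0 : E d) + (act (R θ) (v i0 : E d) - (v i0 : E d))) ∧
        (∀ φ, inner ℝ (v i0 : E d) (act (Q φ) (v i0)) = 1 - δ θ * (1 - Real.cos φ))) :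
    TwoCS v i0 := by
  have hpi := Real.pi_pos
  have hv1 : ‖(v i0 : E d)‖ = 1 := norm_coe_sph _
  have hcos : ∀ θ ∈ Ioo 0 Real.pi, Real.cos θ < 1 := by
    intro θ hθ
    rw [← Real.cos_zero]
    exact Real.cos_lt_cos_of_nonneg_of_le_pi le_rfl hθ.2.le hθ.1
  refine ⟨q, δ, hq0, hδm, hδ, ?_, ?_⟩
  · intro θ hθ φ hφ
    obtain ⟨Q, hQc, hQm, hQp, hQW, hQW2, hQd, hQv⟩ := hQ θ hθ
    rw [← hs θ, ← hQv φ, ← inner_add_right]
    have e : act (R θ) (v i0 : E d) + act (Q φ) (v i0) =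
        (v i0 : E d) + act (Q φ) (act (R θ) (v i0)) := by
      rw [hQd]
      abel
    rw [e, inner_add_right, real_inner_self_eq_norm_sq, hv1]
    have h := abs_real_inner_le_norm (v i0 : E d) (act (Q φ) (act (R θ) (v i0)))
    rw [norm_act, norm_act, hv1, one_mul] at h
    have := (abs_le.mp h).1
    linarith
  · intro g f hg hg1 hf hf1
    have hAsub : A ⊆ Finset.univ.erase i0 := by
      intro i hi
      rw [Finset.mem_erase]
      exact ⟨fun h => hA (h ▸ hi), Finset.mem_univ _⟩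
    have hsplit : ∀ T : OG d, g (act T (v i0)) * ∏ i ∈ Finset.univ.erase i0, f i (act T (v i)) =
        (∏ i ∈ (Finset.univ.erase i0) \ A, f i (act T (v i))) *
          (g (act T (v i0)) * ∏ i ∈ A, f i (act T (v i))) := by
      intro T
      rw [← Finset.prod_sdiff hAsub]
      ring
    simp only [hsplit]
    have hXm : Measurable fun T : OG d => g (act T (v i0)) * ∏ i ∈ A, f i (act T (v i)) :=
      (hg.comp (measurable_act_left _)).mul (measurable_prod_act f hf _ A)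
    have hXb : ∀ T : OG d, ‖g (act T (v i0)) * ∏ i ∈ A, f i (act T (v i))‖ ≤ 1 := by
      intro T
      rw [norm_mul]
      exact mul_le_one₀ (hg1 _) (norm_nonneg _) (norm_prod_act_le f hf1 _ A T)
    have hFBR : ∀ (T : OG d) θ, ∏ i ∈ (Finset.univ.erase i0) \ A, f i (act (T * R θ) (v i)) =
        ∏ i ∈ (Finset.univ.erase i0) \ A, f i (act T (v i)) := by
      intro T θ
      refine Finset.prod_congr rfl fun i hi => ?_
      rw [Finset.mem_sdiff, Finset.mem_erase] at hi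
      rw [act_mul, hRB θ i hi.2 hi.1.1]
    have step1 := vdc R hRc hRm hRp _ _ (measurable_prod_act f hf (fun i => (v i : E d))
      ((Finset.univ.erase i0) \ A)) hXm (norm_prod_act_le f hf1 _ _) hXb hFBR
    have step2 : ∀ θ ∈ Ioo 0 Real.pi,
        ‖∫ T : OG d, (g (act T (v i0)) * ∏ i ∈ A, f i (act T (v i))) *
          conj (g (act (T * R θ) (v i0)) * ∏ i ∈ A, f i (act (T * R θ) (v i))) ∂(mu d)‖ ^ 2 ≤
        (1 / Real.pi) * (∫ φ in Ioo 0 Real.pi,
          jg g (1 - q * (1 - Real.cos θ)) (1 - δ θ * (1 - Real.cos φ))).re := by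
      intro θ hθ
      obtain ⟨Q, hQc, hQm, hQp, hQW, hQW2, hQd, hQv⟩ := hQ θ hθ
      exact cs_step2W hJ hjmeas hjb (fun i => (v i : E d)) (v i0 : E d) hv1 A (R θ)
        (1 - q * (1 - Real.cos θ)) (δ θ) (by have h5 := hcos θ hθ; nlinarith) (hδ θ hθ).1
        (hs θ) Q hQc hQm hQp hQW hQW2 hQd hQv g f hg hg1 hf hf1
    have hKm' := measurable_corr R hRc _ hXm
    have hKb' := norm_corr_le R _ hXb
    set K : ℝ → ℂ := fun θ => ∫ T : OG d, (g (act T (v i0)) * ∏ i ∈ A, f i (act T (v i))) *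
          conj (g (act (T * R θ) (v i0)) * ∏ i ∈ A, f i (act (T * R θ) (v i))) ∂(mu d) with hK
    have hKm : Measurable K := hKm'
    have hKb : ∀ θ, ‖K θ‖ ≤ 1 := hKb'
    clear hKm' hKb'
    have step2' : ∀ θ ∈ Ioo 0 Real.pi, ‖K θ‖ ^ 2 ≤ (1 / Real.pi) * (∫ φ in Ioo 0 Real.pi,
          jg g (1 - q * (1 - Real.cos θ)) (1 - δ θ * (1 - Real.cos φ))).re := step2
    set I : ℂ := ∫ T : OG d, (∏ i ∈ (Finset.univ.erase i0) \ A, f i (act T (v i))) *
          (g (act T (v i0)) * ∏ i ∈ A, f i (act T (v i))) ∂(mu d) with hI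
    have step1' : ‖I‖ ^ 2 ≤ (1 / Real.pi) * ∫ θ in Ioo 0 Real.pi, (K θ).re := step1
    clear step1 step2
    clear_value K I
    -- assembly
    set H : ℝ → ℂ := fun θ => ∫ φ in Ioo 0 Real.pi,
        jg g (1 - q * (1 - Real.cos θ)) (1 - δ θ * (1 - Real.cos φ)) with hH
    have hHm : Measurable H := by
      have h6 : Measurable fun p : ℝ × ℝ => ((1 - q * (1 - Real.cos p.1),
          1 - δ p.1 * (1 - Real.cos p.2)) : ℝ × ℝ) := by
        have hc : Measurable Real.cos := Real.measurable_cos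
        fun_prop
      have h7 := Measurable.comp (g := fun p : ℝ × ℝ => jg g p.1 p.2) (hjmeas g hg) h6
      exact (h7.stronglyMeasurable.integral_prod_right'
        (ν := volume.restrict (Ioo 0 Real.pi))).measurable
    have hHb : ∀ θ, ‖H θ‖ ≤ Real.pi := by
      intro θ
      have h := norm_integral_le_of_norm_le_const (μ := volume.restrict (Ioo 0 Real.pi))
        (f := fun φ => jg g (1 - q * (1 - Real.cos θ)) (1 - δ θ * (1 - Real.cos φ))) (C := 1)
        (Eventually.of_forall fun φ => hjb g hg1 _ _)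
      have h' : (volume.restrict (Ioo 0 Real.pi)).real univ = Real.pi := by
        simp only [measureReal_restrict_apply_univ, Real.volume_real_Ioo]
        rw [max_eq_left (by linarith)]; ring
      rw [h', one_mul] at h
      exact h
    have step2'' : ∀ θ ∈ Ioo 0 Real.pi, ‖K θ‖ ^ 2 ≤ (1 / Real.pi) * (H θ).re := step2'
    clear step2'
    clear_value H
    have hHi : Integrable H (volume.restrict (Ioo 0 Real.pi)) :=
      integrable_bdd hHm.aestronglyMeasurable _ hHb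
    have hKi : Integrable K (volume.restrict (Ioo 0 Real.pi)) :=
      integrable_bdd hKm.aestronglyMeasurable _ hKb
    have hKni : Integrable (fun θ => ‖K θ‖) (volume.restrict (Ioo 0 Real.pi)) := hKi.norm
    have hKn2 : Integrable (fun θ => ‖K θ‖ ^ 2) (volume.restrict (Ioo 0 Real.pi)) :=
      integrable_bdd (hKm.norm.pow_const 2).aestronglyMeasurable 1 fun θ => by
        rw [norm_pow, norm_norm]; exact pow_le_one₀ (norm_nonneg _) (hKb θ)
    have s1 : ‖I‖ ^ 2 ≤ (1 / Real.pi) * ∫ θ in Ioo 0 Real.pi, ‖K θ‖ := by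
      refine step1'.trans (mul_le_mul_of_nonneg_left ?_ (by positivity))
      exact integral_mono hKi.re hKni fun θ => Complex.re_le_norm _
    have s2 := sq_avg_le (fun θ => ‖K θ‖) hKm.norm (fun θ => norm_nonneg _) hKb
    have s3 : ∫ θ in Ioo 0 Real.pi, ‖K θ‖ ^ 2 ≤ (1 / Real.pi) * ‖∫ θ in Ioo 0 Real.pi, H θ‖ := by
      calc ∫ θ in Ioo 0 Real.pi, ‖K θ‖ ^ 2 ≤ ∫ θ in Ioo 0 Real.pi, (1 / Real.pi) * (H θ).re := by
            refine setIntegral_mono_on hKn2 (hHi.re.const_mul _) measurableSet_Ioo ?_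
            intro θ hθ
            exact step2'' θ hθ
        _ = (1 / Real.pi) * (∫ θ in Ioo 0 Real.pi, H θ).re := by
            rw [integral_const_mul]
            congr 1
            exact integral_re hHi
        _ ≤ _ := mul_le_mul_of_nonneg_left (Complex.re_le_norm _) (by positivity)
    calc ‖I‖ ^ 4 = (‖I‖ ^ 2) ^ 2 := by ring
      _ ≤ ((1 / Real.pi) * ∫ θ in Ioo 0 Real.pi, ‖K θ‖) ^ 2 :=
          pow_le_pow_left₀ (by positivity) s1 2
      _ ≤ (1 / Real.pi) * ∫ θ in Ioo 0 Real.pi, ‖K θ‖ ^ 2 := s2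
      _ ≤ (1 / Real.pi) * ((1 / Real.pi) * ‖∫ θ in Ioo 0 Real.pi, H θ‖) :=
          mul_le_mul_of_nonneg_left s3 (by positivity)
      _ = (1 / Real.pi ^ 2) * ‖∫ θ in Ioo 0 Real.pi, H θ‖ := by
          field_simp


/-- ROW CS2: the plane of the first rotation is orthogonal to the vectors outside A -/
theorem twoCS_plane_of {d : ℕ}
    (hJ : ∀ (g : E d → ℂ) (y0 y1 y2 y3 : E d), ‖y0‖ = 1 → ‖y1‖ = 1 → ‖y2‖ = 1 → ‖y3‖ = 1 →
      y0 + y3 = y1 + y2 → inner ℝ y0 y1 < 1 → inner ℝ y0 y2 < 1 →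
      J4 g g g g y0 y1 y2 y3 = jg g (inner ℝ y0 y1) (inner ℝ y0 y2))
    (hjmeas : ∀ g : E d → ℂ, Measurable g → Measurable (fun p : ℝ × ℝ => jg g p.1 p.2))
    (hjb : ∀ g : E d → ℂ, (∀ x, ‖g x‖ ≤ 1) → ∀ s t : ℝ, ‖jg g s t‖ ≤ 1)
    {ι : Type*} [Fintype ι] [DecidableEq ι] (v : ι → Sph d) (i0 : ι)
    (A : Finset ι) (hA : i0 ∉ A) (a b : E d) (ha : ‖a‖ = 1) (hb : ‖b‖ = 1) (hab : inner ℝ a b = 0)
    (hB : ∀ i, i ∉ A → i ≠ i0 → inner ℝ a (v i : E d) = 0 ∧ inner ℝ b (v i : E d) = 0)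
    (hne : inner ℝ a (v i0 : E d) ≠ 0 ∨ inner ℝ b (v i0 : E d) ≠ 0)
    (h1 : (v i0 : E d) ∉ Submodule.span ℝ ((fun i => (v i : E d)) '' (A : Set ι) ∪ {a, b}))
    (h3 : Module.finrank ℝ (Submodule.span ℝ ((fun i => (v i : E d)) '' (A : Set ι) ∪ {a, b})) + 1
      ≤ d) : TwoCS v i0 := by
  set W := Submodule.span ℝ ((fun i => (v i : E d)) '' (A : Set ι) ∪ {a, b}) with hW
  have hv1 : ‖(v i0 : E d)‖ = 1 := norm_coe_sph _
  have hAmem : ∀ i ∈ A, (v i : E d) ∈ W := fun i hi => Submodule.subset_span (Or.inl ⟨i, hi, rfl⟩)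
  have haW : a ∈ W := Submodule.subset_span (Or.inr (by simp))
  have hbW : b ∈ W := Submodule.subset_span (Or.inr (by simp))
  clear_value W
  obtain ⟨p, hp, hpW⟩ := exists_proj W (v i0 : E d)
  set n : E d := (v i0 : E d) - p with hn
  have hn0 : n ≠ 0 := by
    intro h
    apply h1
    rw [hn, sub_eq_zero] at h
    rw [h]; exact hp
  have hvn : inner ℝ (v i0 : E d) n = ‖n‖ ^ 2 := by
    have h : (v i0 : E d) = n + p := by rw [hn]; abel
    rw [h, inner_add_left, real_inner_self_eq_norm_sq, real_inner_comm, hpW p hp, add_zero]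
  have hn1 : ‖n‖ ^ 2 ≤ 1 := by
    have h' := real_inner_le_norm (v i0 : E d) n
    rw [hvn, hv1, one_mul] at h'
    have h'' : ‖n‖ ≤ 1 := by
      by_contra hlt
      push Not at hlt
      nlinarith [norm_nonneg n]
    exact pow_le_one₀ (norm_nonneg _) h''
  have hvnW : (v i0 : E d) - n ∈ W := by
    have h : (v i0 : E d) - n = p := by rw [hn]; abel
    rw [h]; exact hp
  clear_value n
  obtain ⟨R, hRc, hRm, hR⟩ := exists_rot a b ha hb hab
  have hRp : R (2 * Real.pi) = 1 := by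
    refine og_ext fun x => ?_
    rw [hR, act_one, Real.cos_two_pi, Real.sin_two_pi]
    module
  have hRd : ∀ θ x, act (R θ) x - x ∈ W := by
    intro θ x
    have e : act (R θ) x - x =
        ((Real.cos θ - 1) * inner ℝ x a - Real.sin θ * inner ℝ x b) • a +
        (Real.sin θ * inner ℝ x a + (Real.cos θ - 1) * inner ℝ x b) • b := by
      rw [hR]; abel
    rw [e]
    exact W.add_mem (W.smul_mem _ haW) (W.smul_mem _ hbW)
  obtain ⟨Q, hQc, hQm, hQp, hQW, hQv⟩ := exists_rot_fix W h3 (v i0 : E d) n hn0 hvnW hpW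
  refine twoCS_core hJ hjmeas hjb v i0 A hA
    (inner ℝ (v i0 : E d) a ^ 2 + inner ℝ (v i0 : E d) b ^ 2) (fun _ => ‖n‖ ^ 2) R ?_
    measurable_const (fun θ _ => ⟨by have := norm_pos_iff.mpr hn0; positivity, hn1⟩)
    hRc hRm hRp ?_ ?_ ?_
  · rcases hne with h | h
    · rw [real_inner_comm] at h
      have h2 : 0 < inner ℝ (v i0 : E d) a ^ 2 := by positivity
      have h4 : 0 ≤ inner ℝ (v i0 : E d) b ^ 2 := sq_nonneg _
      linarith
    · rw [real_inner_comm] at h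
      have h2 : 0 < inner ℝ (v i0 : E d) b ^ 2 := by positivity
      have h4 : 0 ≤ inner ℝ (v i0 : E d) a ^ 2 := sq_nonneg _
      linarith
  · intro θ i hi hi'
    obtain ⟨ha', hb'⟩ := hB i hi hi'
    rw [real_inner_comm] at ha' hb'
    rw [hR, ha', hb']
    module
  · intro θ
    rw [hR, inner_add_right, inner_add_right, real_inner_self_eq_norm_sq, hv1,
      real_inner_smul_right, real_inner_smul_right]
    ring
  · intro θ hθ
    refine ⟨Q, hQc, hQm, hQp, fun φ i hi => hQW φ _ (hAmem i hi), fun φ i hi => ?_, fun φ => ?_,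
      fun φ => ?_⟩
    · apply hQW
      have e : act (R θ) (v i : E d) = (v i : E d) + (act (R θ) (v i : E d) - (v i : E d)) := by abel
      rw [e]
      exact W.add_mem (hAmem i hi) (hRd θ _)
    · have h := hQW φ _ (hRd θ (v i0 : E d))
      rw [act_sub] at h
      rw [← h]
      abel
    · rw [hQv, hv1]
      ring

end SPH
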