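import Pool.Agent.SPH.Defs

/-! Project SPH (MP_f7e9f1_co), row ROT: rotations in the plane of an orthonormal pair. -/

open MeasureTheory Set Metric Filter
open scoped ENNReal NNReal Topology

noncomputable section
namespace SPH

theorem og_ext {d : ℕ} {S T : OG d} (h : ∀ x, act S x = act T x) : S = T := by
  apply Subtype.ext
  apply Matrix.toEuclideanLin.injective
  exact LinearMap.ext h

/-- the rotation of angle theta in the plane of the orthonormal pair a, b -/
def rotI {d : ℕ} (a b : E d) (ha : ‖a‖ = 1) (hb : ‖b‖ = 1) (hab : inner ℝ a b = 0) (θ : ℝ) :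
    E d →ₗᵢ[ℝ] E d where
  toFun x := x +
        ((Real.cos θ - 1) * inner ℝ x a - Real.sin θ * inner ℝ x b) • a +
        (Real.sin θ * inner ℝ x a + (Real.cos θ - 1) * inner ℝ x b) • b
  map_add' x y := by
    simp only [inner_add_left]
    module
  map_smul' c x := by
    simp only [inner_smul_left, RingHom.id_apply, conj_trivial]
    module
  norm_map' x := by
    simp only [LinearMap.coe_mk, AddHom.coe_mk]
    have haa : inner ℝ a a = 1 := by rw [real_inner_self_eq_norm_sq, ha]; norm_num
    have hbb : inner ℝ b b = 1 := by rw [real_inner_self_eq_norm_sq, hb]; norm_num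
    have hba : inner ℝ b a = 0 := by rw [real_inner_comm]; exact hab
    rw [norm_eq_sqrt_real_inner, norm_eq_sqrt_real_inner]
    congr 1
    simp only [inner_add_left, inner_add_right, inner_smul_left, inner_smul_right, haa, hbb, hab,
      hba, conj_trivial]
    rw [real_inner_comm x a, real_inner_comm x b]
    have h := Real.sin_sq_add_cos_sq θ
    linear_combination ((inner ℝ x a : ℝ) ^ 2 + (inner ℝ x b : ℝ) ^ 2) * h

theorem exists_rot {d : ℕ} (a b : E d) (ha : ‖a‖ = 1) (hb : ‖b‖ = 1) (hab : inner ℝ a b = 0) :
    ∃ R : ℝ → OG d, Continuous R ∧ (∀ s t, R (s + t) = R s * R t) ∧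
      (∀ θ x, act (R θ) x = x +
        ((Real.cos θ - 1) * inner ℝ x a - Real.sin θ * inner ℝ x b) • a +
        (Real.sin θ * inner ℝ x a + (Real.cos θ - 1) * inner ℝ x b) • b) := by
  choose R hR using fun θ : ℝ => exists_act_eq (rotI a b ha hb hab θ)
  have hR' : ∀ θ x, act (R θ) x = x +
        ((Real.cos θ - 1) * inner ℝ x a - Real.sin θ * inner ℝ x b) • a +
        (Real.sin θ * inner ℝ x a + (Real.cos θ - 1) * inner ℝ x b) • b := fun θ x => hR θ x
  have haa : inner ℝ a a = 1 := by rw [real_inner_self_eq_norm_sq, ha]; norm_num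
  have hbb : inner ℝ b b = 1 := by rw [real_inner_self_eq_norm_sq, hb]; norm_num
  have hba : inner ℝ b a = 0 := by rw [real_inner_comm]; exact hab
  refine ⟨R, ?_, ?_, hR'⟩
  · rw [continuous_induced_rng]
    refine continuous_pi fun i => continuous_pi fun j => ?_
    have h : ∀ θ, ((Subtype.val ∘ R) θ : Matrix (Fin (d + 1)) (Fin (d + 1)) ℝ) i j =
        act (R θ) (EuclideanSpace.single j (1 : ℝ)) i := by
      intro θ
      rw [act_apply, Finset.sum_eq_single j]
      · simp
      · intro k _ hk
        simp [hk]
      · intro h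
        exact absurd (Finset.mem_univ j) h
    simp only [h, hR']
    simp only [PiLp.add_apply, PiLp.smul_apply, smul_eq_mul]
    fun_prop
  · intro s t
    refine og_ext fun x => ?_
    rw [act_mul, hR', hR', hR']
    simp only [inner_add_left, inner_smul_left, haa, hbb, hab, hba, conj_trivial, Real.cos_add,
      Real.sin_add]
    module

end SPH
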