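import Pool.Agent.SPH.Vdc
import Pool.Agent.SPH.Rot

/-! Project SPH (MP_f7e9f1_co), row CS: the two Cauchy-Schwarz steps, with the three facts of row
REC3 as hypotheses. -/

open MeasureTheory Set Metric Filter
open scoped ENNReal NNReal Topology ComplexConjugate

noncomputable section
namespace SPH

theorem exists_proj {d : ℕ} (W : Submodule ℝ (E d)) (x : E d) :
    ∃ p ∈ W, ∀ w ∈ W, inner ℝ (x - p) w = 0 := by
  refine ⟨W.starProjection x, W.starProjection_apply_mem x, ?_⟩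
  intro w hw
  exact Submodule.starProjection_inner_eq_zero x w hw

theorem exists_unit_orth {d : ℕ} (W : Submodule ℝ (E d)) (hW : Module.finrank ℝ W ≤ d) :
    ∃ e : E d, ‖e‖ = 1 ∧ ∀ w ∈ W, inner ℝ e w = 0 := by
  have hne : Wᗮ ≠ ⊥ := by
    intro h
    rw [Submodule.orthogonal_eq_bot_iff] at h
    rw [h, finrank_top] at hW
    simp [E] at hW
  obtain ⟨x, hx, hx0⟩ := Submodule.exists_mem_ne_zero_of_ne_bot hne
  refine ⟨(‖x‖)⁻¹ • x, ?_, ?_⟩
  · rw [norm_smul, norm_inv, norm_norm, inv_mul_cancel₀ (norm_ne_zero_iff.mpr hx0)]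
  · intro w hw
    rw [real_inner_smul_left, Submodule.inner_left_of_mem_orthogonal hw hx, mul_zero]

theorem finrank_sup_span_le {d : ℕ} (W : Submodule ℝ (E d)) (x : E d) :
    Module.finrank ℝ (W ⊔ Submodule.span ℝ {x} : Submodule ℝ (E d)) ≤ Module.finrank ℝ W + 1 := by
  refine (Submodule.finrank_add_le_finrank_add_finrank W (Submodule.span ℝ {x})).trans ?_
  have h := finrank_span_le_card (R := ℝ) ({x} : Set (E d))
  rw [Set.toFinset_singleton, Finset.card_singleton] at h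
  omega

/-- a rotation group fixing W and moving v -/
theorem exists_rot_fix {d : ℕ} (W : Submodule ℝ (E d)) (hW : Module.finrank ℝ W + 1 ≤ d)
    (v n : E d) (hn : n ≠ 0) (hvn : v - n ∈ W) (hnW : ∀ w ∈ W, inner ℝ n w = 0) :
    ∃ Q : ℝ → OG d, Continuous Q ∧ (∀ s t, Q (s + t) = Q s * Q t) ∧ Q (2 * Real.pi) = 1 ∧
      (∀ φ, ∀ w ∈ W, act (Q φ) w = w) ∧
      (∀ φ, inner ℝ v (act (Q φ) v) = ‖v‖ ^ 2 - ‖n‖ ^ 2 * (1 - Real.cos φ)) := by
  obtain ⟨e, he1, he⟩ := exists_unit_orth (W ⊔ Submodule.span ℝ {v})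
    ((finrank_sup_span_le W v).trans hW)
  have heW : ∀ w ∈ W, inner ℝ e w = 0 := fun w hw => he w (Submodule.mem_sup_left hw)
  have hev : inner ℝ e v = 0 :=
    he v (Submodule.mem_sup_right (Submodule.mem_span_singleton_self v))
  have hen : inner ℝ e n = 0 := by
    have h : n = v - (v - n) := by abel
    rw [h, inner_sub_right, hev, heW _ hvn, sub_zero]
  have hn0 : ‖n‖ ≠ 0 := norm_ne_zero_iff.mpr hn
  set nh : E d := (‖n‖)⁻¹ • n with hnh
  have hnh1 : ‖nh‖ = 1 := by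
    rw [hnh, norm_smul, norm_inv, norm_norm, inv_mul_cancel₀ hn0]
  have hnhe : inner ℝ nh e = 0 := by
    rw [hnh, real_inner_smul_left, real_inner_comm, hen, mul_zero]
  obtain ⟨Q, hQc, hQm, hQ⟩ := exists_rot nh e hnh1 he1 hnhe
  have hvn' : inner ℝ v n = ‖n‖ ^ 2 := by
    have h : v = n + (v - n) := by abel
    rw [h, inner_add_left, real_inner_self_eq_norm_sq, real_inner_comm, hnW _ hvn, add_zero]
  have hvnh : inner ℝ v nh = ‖n‖ := by
    rw [hnh, real_inner_smul_right, hvn']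
    field_simp
  refine ⟨Q, hQc, hQm, ?_, ?_, ?_⟩
  · refine og_ext fun x => ?_
    rw [hQ, act_one, Real.cos_two_pi, Real.sin_two_pi]
    module
  · intro φ w hw
    have h1 : inner ℝ w nh = 0 := by
      rw [hnh, real_inner_smul_right, real_inner_comm, hnW w hw, mul_zero]
    have h2 : inner ℝ w e = 0 := by rw [real_inner_comm]; exact heW w hw
    rw [hQ, h1, h2]
    module
  · intro φ
    have h2 : inner ℝ v e = 0 := by rw [real_inner_comm]; exact hev
    rw [hQ, inner_add_right, inner_add_right, real_inner_smul_right v nh,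
      real_inner_smul_right v e, real_inner_self_eq_norm_sq, hvnh, h2]
    ring

theorem continuous_rmul {d : ℕ} (R : ℝ → OG d) (hRc : Continuous R) :
    Continuous fun p : OG d × ℝ => p.1 * R p.2 :=
  continuous_fst.mul (hRc.comp continuous_snd)

/-- measurability and bound of the correlation -/
theorem measurable_corr {d : ℕ} (R : ℝ → OG d) (hRc : Continuous R) (X : OG d → ℂ)
    (hX : Measurable X) : Measurable fun θ : ℝ => ∫ T, X T * conj (X (T * R θ)) ∂(mu d) := by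
  have hjm : Measurable fun p : OG d × ℝ => X (p.1 * R p.2) :=
    hX.comp (continuous_rmul R hRc).measurable
  have h1 : Measurable fun p : ℝ × OG d => X p.2 * conj (X (p.2 * R p.1)) :=
    (hX.comp measurable_snd).mul
      (Complex.continuous_conj.measurable.comp (hjm.comp measurable_swap))
  exact (h1.stronglyMeasurable.integral_prod_right' (ν := mu d)).measurable

theorem norm_corr_le {d : ℕ} (R : ℝ → OG d) (X : OG d → ℂ)
    (hX1 : ∀ T, ‖X T‖ ≤ 1) (θ : ℝ) : ‖∫ T, X T * conj (X (T * R θ)) ∂(mu d)‖ ≤ 1 := by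
  have h := norm_integral_le_of_norm_le_const (μ := mu d)
    (f := fun T => X T * conj (X (T * R θ))) (C := 1)
    (Eventually.of_forall fun T => by
      rw [norm_mul, RCLike.norm_conj]
      exact mul_le_one₀ (hX1 _) (norm_nonneg _) (hX1 _))
  simpa using h

/-- Cauchy-Schwarz on (0, pi) -/
theorem sq_avg_le (f : ℝ → ℝ) (hf : Measurable f) (hf0 : ∀ x, 0 ≤ f x) (hf1 : ∀ x, f x ≤ 1) :
    ((1 / Real.pi) * ∫ θ in Ioo 0 Real.pi, f θ) ^ 2 ≤ (1 / Real.pi) * ∫ θ in Ioo 0 Real.pi, f θ ^ 2 := by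
  have hpi := Real.pi_pos
  set ν : Measure ℝ := volume.restrict (Ioo 0 Real.pi) with hν
  have hνfin : IsFiniteMeasure ν := by rw [hν]; infer_instance
  have hν1 : ν.real univ = Real.pi := by
    rw [hν]
    simp only [measureReal_restrict_apply_univ, Real.volume_real_Ioo]
    rw [max_eq_left (by linarith)]; ring
  have h1 : Integrable f ν := integrable_bdd hf.aestronglyMeasurable 1 fun x => by
    rw [Real.norm_of_nonneg (hf0 x)]; exact hf1 x
  have h2 : Integrable (fun x => f x ^ 2) ν :=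
    integrable_bdd (hf.pow_const 2).aestronglyMeasurable 1 fun x => by
      rw [Real.norm_of_nonneg (sq_nonneg _)]
      exact pow_le_one₀ (hf0 x) (hf1 x)
  set c := (1 / Real.pi) * ∫ θ, f θ ∂ν with hc
  have hc' : ∫ θ, f θ ∂ν = Real.pi * c := by
    rw [hc]; field_simp
  have h0 : 0 ≤ ∫ x, (f x - c) ^ 2 ∂ν := integral_nonneg fun x => sq_nonneg _
  have h3 : ∫ x, (f x - c) ^ 2 ∂ν = (∫ x, f x ^ 2 ∂ν) - 2 * c * (∫ x, f x ∂ν) + Real.pi * c ^ 2 := by
    have e : ∀ x, (f x - c) ^ 2 = (f x ^ 2 - (2 * c) * f x) + c ^ 2 := fun x => by ring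
    simp only [e]
    have hi : Integrable (fun x => f x ^ 2 - (2 * c) * f x) ν := h2.sub (h1.const_mul (2 * c))
    rw [integral_add hi (integrable_const _), integral_sub h2 (h1.const_mul (2 * c)),
      integral_const_mul, integral_const, hν1, smul_eq_mul]
  rw [h3, hc'] at h0
  have h4 : Real.pi * c ^ 2 ≤ ∫ x, f x ^ 2 ∂ν := by nlinarith
  rw [one_div, inv_mul_eq_div, le_div_iff₀ hpi]
  linarith

/-- the geometry behind the two Cauchy-Schwarz steps -/
theorem cs_geom {d : ℕ} {ι : Type*} (v : ι → Sph d) (i0 : ι)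
    (A : Finset ι) (e0 : E d) (he0 : ‖e0‖ = 1) (hev : ∀ i, inner ℝ e0 (v i : E d) = 0)
    (h1 : (v i0 : E d) ∉ Submodule.span ℝ ((fun i => (v i : E d)) '' (A : Set ι)))
    (h2 : (v i0 : E d) ∉ Submodule.span ℝ ((fun i => (v i : E d)) '' {i | i ∉ A ∧ i ≠ i0}))
    (h3 : Module.finrank ℝ (Submodule.span ℝ ((fun i => (v i : E d)) '' (A : Set ι))) + 2 ≤ d) :
    ∃ (q : ℝ) (δ : ℝ → ℝ) (R : ℝ → OG d) (gt : ℝ → E d), 0 < q ∧ q ≤ 1 ∧ Measurable δ ∧
      DifferentiableOn ℝ δ (Ioo 0 Real.pi) ∧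
      (∀ θ ∈ Ioo 0 Real.pi, 0 < δ θ ∧ δ θ ≤ 1) ∧
      Continuous R ∧ (∀ s t, R (s + t) = R s * R t) ∧ R (2 * Real.pi) = 1 ∧
      (∀ θ i, i ∉ A → i ≠ i0 → act (R θ) (v i : E d) = v i) ∧
      (∀ θ i, ∃ c : ℝ, act (R θ) (v i : E d) = (v i : E d) + c • gt θ) ∧
      (∀ θ, inner ℝ (v i0 : E d) (act (R θ) (v i0)) = 1 - q * (1 - Real.cos θ)) ∧
      (∀ θ ∈ Ioo 0 Real.pi, ∃ Q : ℝ → OG d, Continuous Q ∧ (∀ s t, Q (s + t) = Q s * Q t) ∧
        Q (2 * Real.pi) = 1 ∧ (∀ φ, ∀ i ∈ A, act (Q φ) (v i : E d) = v i) ∧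
        (∀ φ, act (Q φ) (gt θ) = gt θ) ∧
        (∀ φ, inner ℝ (v i0 : E d) (act (Q φ) (v i0)) = 1 - δ θ * (1 - Real.cos φ))) := by
  have hpi := Real.pi_pos
  set WA := Submodule.span ℝ ((fun i => (v i : E d)) '' (A : Set ι)) with hWA
  set WB := Submodule.span ℝ ((fun i => (v i : E d)) '' {i | i ∉ A ∧ i ≠ i0}) with hWB
  have hv1 : ‖(v i0 : E d)‖ = 1 := norm_coe_sph _
  have hAmem : ∀ i ∈ A, (v i : E d) ∈ WA := fun i hi => Submodule.subset_span ⟨i, hi, rfl⟩
  have hBmem : ∀ i, i ∉ A → i ≠ i0 → (v i : E d) ∈ WB :=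
    fun i hi hi' => Submodule.subset_span ⟨i, ⟨hi, hi'⟩, rfl⟩
  have hspan : ∀ S : Set ι, ∀ x ∈ Submodule.span ℝ ((fun i => (v i : E d)) '' S),
      inner ℝ e0 x = 0 := by
    intro S x hx
    induction hx using Submodule.span_induction with
    | mem x hx =>
      obtain ⟨i, _, rfl⟩ := hx
      exact hev i
    | zero => simp
    | add x y _ _ hx hy => rw [inner_add_right, hx, hy, add_zero]
    | smul c x _ hx => rw [inner_smul_right, hx, mul_zero]
  have hspanA : ∀ x ∈ WA, inner ℝ e0 x = 0 := hspan _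
  have hspanB : ∀ x ∈ WB, inner ℝ e0 x = 0 := hspan _
  clear_value WA WB
  -- the first projection
  obtain ⟨pB, hpB, hqB⟩ := exists_proj WB (v i0 : E d)
  set qv : E d := (v i0 : E d) - pB with hqv
  have hqv0 : qv ≠ 0 := by
    intro h
    apply h2
    rw [hqv, sub_eq_zero] at h
    rw [h]; exact hpB
  have hqvn : ‖qv‖ ≠ 0 := norm_ne_zero_iff.mpr hqv0
  have hqve : inner ℝ e0 qv = 0 := by
    rw [hqv, inner_sub_right, hev, hspanB pB hpB, sub_zero]
  have hvq : inner ℝ (v i0 : E d) qv = ‖qv‖ ^ 2 := by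
    have h : (v i0 : E d) = qv + pB := by rw [hqv]; abel
    rw [h, inner_add_left, real_inner_self_eq_norm_sq, real_inner_comm, hqB pB hpB, add_zero]
  have hq1 : ‖qv‖ ^ 2 ≤ 1 := by
    have h := real_inner_le_norm (v i0 : E d) qv
    rw [hvq, hv1, one_mul] at h
    have h' : ‖qv‖ ≤ 1 := by
      by_contra hlt
      push Not at hlt
      nlinarith [norm_nonneg qv]
    exact pow_le_one₀ (norm_nonneg _) h'
  set qh : E d := (‖qv‖)⁻¹ • qv with hqh
  have hqh1 : ‖qh‖ = 1 := by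
    rw [hqh, norm_smul, norm_inv, norm_norm, inv_mul_cancel₀ hqvn]
  have hqhe : inner ℝ qh e0 = 0 := by
    rw [hqh, real_inner_smul_left, real_inner_comm, hqve, mul_zero]
  have hvqh : inner ℝ (v i0 : E d) qh = ‖qv‖ := by
    rw [hqh, real_inner_smul_right, hvq]; field_simp
  clear_value qh qv
  obtain ⟨R, hRc, hRm, hR⟩ := exists_rot qh e0 hqh1 he0 hqhe
  have hRp : R (2 * Real.pi) = 1 := by
    refine og_ext fun x => ?_
    rw [hR, act_one, Real.cos_two_pi, Real.sin_two_pi]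
    module
  set gt : ℝ → E d := fun θ => (Real.cos θ - 1) • qh + Real.sin θ • e0 with hgt
  have hRx : ∀ θ, ∀ x : E d, inner ℝ e0 x = 0 → act (R θ) x = x + (inner ℝ x qh : ℝ) • gt θ := by
    intro θ x hx
    have hx' : inner ℝ x e0 = 0 := by rw [real_inner_comm]; exact hx
    rw [hR, hx', hgt]
    module
  have hRB : ∀ θ i, i ∉ A → i ≠ i0 → act (R θ) (v i : E d) = v i := by
    intro θ i hi hi'
    have h : inner ℝ (v i : E d) qh = 0 := by
      rw [hqh, real_inner_smul_right, real_inner_comm, hqB _ (hBmem i hi hi'), mul_zero]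
    rw [hRx θ _ (hev i), h, zero_smul, add_zero]
  -- the second projection
  obtain ⟨pA, hpA, hmA⟩ := exists_proj WA (v i0 : E d)
  set m : E d := (v i0 : E d) - pA with hm
  have hm0 : m ≠ 0 := by
    intro h
    apply h1
    rw [hm, sub_eq_zero] at h
    rw [h]; exact hpA
  have hme : inner ℝ e0 m = 0 := by
    rw [hm, inner_sub_right, hev, hspanA pA hpA, sub_zero]
  have hm1 : ‖m‖ ^ 2 ≤ 1 := by
    have h : inner ℝ (v i0 : E d) m = ‖m‖ ^ 2 := by
      have h : (v i0 : E d) = m + pA := by rw [hm]; abel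
      rw [h, inner_add_left, real_inner_self_eq_norm_sq, real_inner_comm, hmA pA hpA, add_zero]
    have h' := real_inner_le_norm (v i0 : E d) m
    rw [h, hv1, one_mul] at h'
    have h'' : ‖m‖ ≤ 1 := by
      by_contra hlt
      push Not at hlt
      nlinarith [norm_nonneg m]
    exact pow_le_one₀ (norm_nonneg _) h''
  obtain ⟨pq, hpq, hqq⟩ := exists_proj WA qh
  set qk : E d := qh - pq with hqk
  have hqke : inner ℝ e0 qk = 0 := by
    rw [hqk, inner_sub_right, real_inner_comm, hqhe, hspanA pq hpq, sub_zero]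
  clear_value qk m
  set gk : ℝ → E d := fun θ => (Real.cos θ - 1) • qk + Real.sin θ • e0 with hgk
  set a : ℝ := inner ℝ m qk with ha
  clear_value a
  set D : ℝ → ℝ := fun θ => (Real.cos θ - 1) ^ 2 * ‖qk‖ ^ 2 + Real.sin θ ^ 2 with hD
  have hDpos : ∀ θ ∈ Ioo 0 Real.pi, 0 < D θ := by
    intro θ hθ
    have := Real.sin_pos_of_pos_of_lt_pi hθ.1 hθ.2
    rw [hD]
    positivity
  have hgkgk : ∀ θ, inner ℝ (gk θ) (gk θ) = D θ := by
    intro θ
    simp only [hgk, hD, inner_add_left, inner_add_right, inner_smul_left, inner_smul_right,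
      conj_trivial, hqke, real_inner_comm e0 qk, real_inner_self_eq_norm_sq, he0]
    ring
  have hmgk : ∀ θ, inner ℝ m (gk θ) = (Real.cos θ - 1) * a := by
    intro θ
    simp only [hgk, inner_add_right, inner_smul_right, ha, real_inner_comm e0 m, hme]
    ring
  have hgkA : ∀ θ, ∀ w ∈ WA, inner ℝ (gk θ) w = 0 := by
    intro θ w hw
    simp only [hgk, inner_add_left, inner_smul_left, hqq w hw, hspanA w hw, mul_zero, add_zero]
  have h5 : ∀ θ, inner ℝ e0 (gk θ) = Real.sin θ := by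
    intro θ
    simp only [hgk, inner_add_right, inner_smul_right, hqke, real_inner_self_eq_norm_sq, he0]
    ring
  have hgtk : ∀ θ, gt θ = gk θ + (Real.cos θ - 1) • pq := by
    intro θ
    simp only [hgt, hgk, hqk]
    module
  have hDd : Differentiable ℝ D := by
    rw [hD]
    have hc : Differentiable ℝ Real.cos := Real.differentiable_cos
    have hs : Differentiable ℝ Real.sin := Real.differentiable_sin
    fun_prop
  have hDm : Measurable D := hDd.continuous.measurable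
  have hs : ∀ θ, inner ℝ (v i0 : E d) (act (R θ) (v i0)) = 1 - ‖qv‖ ^ 2 * (1 - Real.cos θ) := by
    intro θ
    rw [hRx θ _ (hev i0), hvqh, inner_add_right, real_inner_self_eq_norm_sq, hv1,
      real_inner_smul_right]
    simp only [hgt, inner_add_right, inner_smul_right, hvqh]
    rw [real_inner_comm, hev]
    ring
  clear_value gk gt D
  set n : ℝ → E d := fun θ => m - (((Real.cos θ - 1) * a) / D θ) • gk θ with hn
  have hnn : ∀ θ ∈ Ioo 0 Real.pi, ‖n θ‖ ^ 2 = ‖m‖ ^ 2 - ((Real.cos θ - 1) * a) ^ 2 / D θ := by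
    intro θ hθ
    have hDθ := (hDpos θ hθ).ne'
    rw [← real_inner_self_eq_norm_sq]
    simp only [hn, inner_sub_left, inner_sub_right, inner_smul_left, inner_smul_right,
      conj_trivial, real_inner_comm m (gk θ), hmgk, hgkgk, real_inner_self_eq_norm_sq]
    field_simp
    ring
  have hngk : ∀ θ ∈ Ioo 0 Real.pi, inner ℝ (n θ) (gk θ) = 0 := by
    intro θ hθ
    have hDθ := (hDpos θ hθ).ne'
    simp only [hn, inner_sub_left, inner_smul_left, conj_trivial, hmgk, hgkgk]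
    field_simp
    ring
  have hnA : ∀ θ, ∀ w ∈ WA, inner ℝ (n θ) w = 0 := by
    intro θ w hw
    simp only [hn, inner_sub_left, inner_smul_left, hmA w hw, hgkA θ w hw, mul_zero, sub_zero]
  have hn0 : ∀ θ ∈ Ioo 0 Real.pi, n θ ≠ 0 := by
    intro θ hθ h
    have hs := Real.sin_pos_of_pos_of_lt_pi hθ.1 hθ.2
    have hn' : m - (((Real.cos θ - 1) * a) / D θ) • gk θ = 0 := h
    have h6 : ((Real.cos θ - 1) * a) / D θ * Real.sin θ = 0 := by
      have h7 : inner ℝ e0 (m - (((Real.cos θ - 1) * a) / D θ) • gk θ) = 0 := by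
        rw [hn', inner_zero_right]
      rw [inner_sub_right, hme, real_inner_smul_right, h5] at h7
      linarith
    have h8 : ((Real.cos θ - 1) * a) / D θ = 0 := by
      rcases mul_eq_zero.mp h6 with h | h
      · exact h
      · exact absurd h hs.ne'
    rw [h8, zero_smul, sub_zero] at hn'
    exact hm0 hn'
  have hvn : ∀ θ, (v i0 : E d) - n θ ∈ WA ⊔ Submodule.span ℝ {gt θ} := by
    intro θ
    have e : (v i0 : E d) - n θ = (pA - (((Real.cos θ - 1) * a) / D θ * (Real.cos θ - 1)) • pq) +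
        (((Real.cos θ - 1) * a) / D θ) • gt θ := by
      rw [hgtk]
      simp only [hn, hm]
      module
    rw [e]
    refine Submodule.add_mem_sup (WA.sub_mem hpA (WA.smul_mem _ hpq)) ?_
    exact Submodule.smul_mem _ _ (Submodule.mem_span_singleton_self _)
  clear_value n
  refine ⟨‖qv‖ ^ 2, fun θ => ‖m‖ ^ 2 - ((Real.cos θ - 1) * a) ^ 2 / D θ, R, gt, by positivity, hq1,
    ?_, ?_, ?_, hRc, hRm, hRp, hRB, fun θ i => ⟨_, hRx θ _ (hev i)⟩, hs, ?_⟩
  · have hc : Measurable Real.cos := Real.measurable_cos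
    fun_prop
  · have hNd : Differentiable ℝ fun θ => ((Real.cos θ - 1) * a) ^ 2 := by
      have hc : Differentiable ℝ Real.cos := Real.differentiable_cos
      fun_prop
    exact (differentiableOn_const _).sub
      (hNd.differentiableOn.div hDd.differentiableOn fun θ hθ => (hDpos θ hθ).ne')
  · intro θ hθ
    constructor
    · show 0 < ‖m‖ ^ 2 - ((Real.cos θ - 1) * a) ^ 2 / D θ
      rw [← hnn θ hθ]
      have := norm_pos_iff.mpr (hn0 θ hθ)
      positivity
    · show ‖m‖ ^ 2 - ((Real.cos θ - 1) * a) ^ 2 / D θ ≤ 1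
      have h := div_nonneg (sq_nonneg ((Real.cos θ - 1) * a)) (hDpos θ hθ).le
      linarith
  · intro θ hθ
    obtain ⟨Q, hQc, hQm, hQp, hQW, hQv⟩ := exists_rot_fix (WA ⊔ Submodule.span ℝ {gt θ})
      (by have := finrank_sup_span_le WA (gt θ); omega) (v i0 : E d) (n θ) (hn0 θ hθ) (hvn θ)
      (by
        intro w hw
        obtain ⟨x, hx, y, hy, rfl⟩ := Submodule.mem_sup.mp hw
        obtain ⟨c, rfl⟩ := Submodule.mem_span_singleton.mp hy
        rw [inner_add_right, hnA θ x hx, real_inner_smul_right, hgtk, inner_add_right,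
          hngk θ hθ, real_inner_smul_right, hnA θ pq hpq]
        ring)
    refine ⟨Q, hQc, hQm, hQp, fun φ i hi => hQW φ _ (Submodule.mem_sup_left (hAmem i hi)),
      fun φ => hQW φ _ (Submodule.mem_sup_right (Submodule.mem_span_singleton_self _)), ?_⟩
    intro φ
    rw [hQv, hv1, hnn θ hθ]
    ring

theorem measurable_act_left {d : ℕ} (x : E d) : Measurable fun T : OG d => act T x :=
  ((continuous_act d).comp (continuous_id.prodMk continuous_const)).measurable

theorem measurable_prod_act {d : ℕ} {ι : Type*} (f : ι → E d → ℂ) (hf : ∀ i, Measurable (f i))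
    (w : ι → E d) (S : Finset ι) : Measurable fun T : OG d => ∏ i ∈ S, f i (act T (w i)) :=
  Finset.measurable_prod _ fun i _ => (hf i).comp (measurable_act_left _)

theorem norm_prod_act_le {d : ℕ} {ι : Type*} (f : ι → E d → ℂ) (hf1 : ∀ i x, ‖f i x‖ ≤ 1)
    (w : ι → E d) (S : Finset ι) (T : OG d) : ‖∏ i ∈ S, f i (act T (w i))‖ ≤ 1 := by
  rw [norm_prod]
  exact Finset.prod_le_one (fun i _ => norm_nonneg _) fun i _ => hf1 _ _

/-- the second step -/
theorem cs_step2 {d : ℕ}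
    (hJ : ∀ (g : E d → ℂ) (y0 y1 y2 y3 : E d), ‖y0‖ = 1 → ‖y1‖ = 1 → ‖y2‖ = 1 → ‖y3‖ = 1 →
      y0 + y3 = y1 + y2 → inner ℝ y0 y1 < 1 → inner ℝ y0 y2 < 1 →
      J4 g g g g y0 y1 y2 y3 = jg g (inner ℝ y0 y1) (inner ℝ y0 y2))
    (hjmeas : ∀ g : E d → ℂ, Measurable g → Measurable (fun p : ℝ × ℝ => jg g p.1 p.2))
    (hjb : ∀ g : E d → ℂ, (∀ x, ‖g x‖ ≤ 1) → ∀ s t : ℝ, ‖jg g s t‖ ≤ 1) {ι : Type*} (v : ι → E d) (w : E d) (hw : ‖w‖ = 1)
    (A : Finset ι) (r : OG d) (gt : E d) (s δ : ℝ) (hs1 : s < 1) (hδ : 0 < δ)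
    (hrv : ∀ i, ∃ c : ℝ, act r (v i) = v i + c • gt) (hrw : ∃ c : ℝ, act r w = w + c • gt)
    (hs : inner ℝ w (act r w) = s)
    (Q : ℝ → OG d) (hQc : Continuous Q) (hQm : ∀ s t, Q (s + t) = Q s * Q t)
    (hQp : Q (2 * Real.pi) = 1) (hQv : ∀ φ, ∀ i ∈ A, act (Q φ) (v i) = v i)
    (hQg : ∀ φ, act (Q φ) gt = gt)
    (hQw : ∀ φ, inner ℝ w (act (Q φ) w) = 1 - δ * (1 - Real.cos φ))
    (g : E d → ℂ) (f : ι → E d → ℂ) (hg : Measurable g) (hg1 : ∀ x, ‖g x‖ ≤ 1)
    (hf : ∀ i, Measurable (f i)) (hf1 : ∀ i x, ‖f i x‖ ≤ 1) :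
    ‖∫ T : OG d, (g (act T w) * ∏ i ∈ A, f i (act T (v i))) *
        conj (g (act (T * r) w) * ∏ i ∈ A, f i (act (T * r) (v i))) ∂(mu d)‖ ^ 2 ≤
      (1 / Real.pi) * (∫ φ in Ioo 0 Real.pi, jg g s (1 - δ * (1 - Real.cos φ))).re := by
  have hpi := Real.pi_pos
  have hcos : ∀ θ ∈ Ioo 0 Real.pi, Real.cos θ < 1 := by
    intro θ hθ
    rw [← Real.cos_zero]
    exact Real.cos_lt_cos_of_nonneg_of_le_pi le_rfl hθ.2.le hθ.1
  have hKeq : ∀ T : OG d, (g (act T w) * ∏ i ∈ A, f i (act T (v i))) *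
        conj (g (act (T * r) w) * ∏ i ∈ A, f i (act (T * r) (v i))) =
      (∏ i ∈ A, (f i (act T (v i)) * conj (f i (act T (act r (v i)))))) *
        (g (act T w) * conj (g (act T (act r w)))) := by
    intro T
    simp only [act_mul, map_mul, map_prod, Finset.prod_mul_distrib]
    ring
  simp only [hKeq]
  have hYm : Measurable fun T : OG d => g (act T w) * conj (g (act T (act r w))) :=
    (hg.comp (measurable_act_left _)).mul
      (Complex.continuous_conj.measurable.comp (hg.comp (measurable_act_left _)))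
  have hYb : ∀ T : OG d, ‖g (act T w) * conj (g (act T (act r w)))‖ ≤ 1 := by
    intro T
    rw [norm_mul, RCLike.norm_conj]
    exact mul_le_one₀ (hg1 _) (norm_nonneg _) (hg1 _)
  have hFm : Measurable fun T : OG d =>
      ∏ i ∈ A, (f i (act T (v i)) * conj (f i (act T (act r (v i))))) :=
    Finset.measurable_prod _ fun i _ => ((hf i).comp (measurable_act_left _)).mul
      (Complex.continuous_conj.measurable.comp ((hf i).comp (measurable_act_left _)))
  have hFb : ∀ T : OG d, ‖∏ i ∈ A, (f i (act T (v i)) * conj (f i (act T (act r (v i)))))‖ ≤ 1 := by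
    intro T
    rw [norm_prod]
    refine Finset.prod_le_one (fun i _ => norm_nonneg _) fun i _ => ?_
    rw [norm_mul, RCLike.norm_conj]
    exact mul_le_one₀ (hf1 _ _) (norm_nonneg _) (hf1 _ _)
  have hFQ : ∀ (T : OG d) φ,
      ∏ i ∈ A, (f i (act (T * Q φ) (v i)) * conj (f i (act (T * Q φ) (act r (v i))))) =
      ∏ i ∈ A, (f i (act T (v i)) * conj (f i (act T (act r (v i))))) := by
    intro T φ
    refine Finset.prod_congr rfl fun i hi => ?_
    obtain ⟨c, hc⟩ := hrv i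
    rw [act_mul, act_mul, hQv φ i hi, hc, act_add, act_smul, hQg, hQv φ i hi]
  refine (vdc Q hQc hQm hQp _ _ hFm hYm hFb hYb hFQ).trans (le_of_eq ?_)
  congr 1
  have hJ2 : ∀ φ ∈ Ioo 0 Real.pi, ∫ T : OG d, (g (act T w) * conj (g (act T (act r w)))) *
      conj (g (act (T * Q φ) w) * conj (g (act (T * Q φ) (act r w)))) ∂(mu d) =
        jg g s (1 - δ * (1 - Real.cos φ)) := by
    intro φ hφ
    obtain ⟨c, hc⟩ := hrw
    have hJ' := hJ g w (act r w) (act (Q φ) w)
      (act (Q φ) (act r w)) hw (by rw [norm_act, hw]) (by rw [norm_act, hw])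
      (by rw [norm_act, norm_act, hw])
      (by rw [hc, act_add, act_smul, hQg]; abel)
      (by rw [hs]; exact hs1)
      (by
        rw [hQw]
        have h5 := hcos φ hφ
        nlinarith)
    rw [hs, hQw] at hJ'
    rw [← hJ']
    refine integral_congr_ae (Eventually.of_forall fun T => ?_)
    simp only [act_mul, map_mul, Complex.conj_conj]
    ring
  have hjm : Measurable fun φ => jg g s (1 - δ * (1 - Real.cos φ)) := by
    have h6 : Measurable fun φ : ℝ => ((s, 1 - δ * (1 - Real.cos φ)) : ℝ × ℝ) := by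
      have hc : Measurable Real.cos := Real.measurable_cos
      fun_prop
    have h7 := Measurable.comp (g := fun p : ℝ × ℝ => jg g p.1 p.2) (hjmeas g hg) h6
    exact h7
  have hji : Integrable (fun φ => jg g s (1 - δ * (1 - Real.cos φ)))
      (volume.restrict (Ioo 0 Real.pi)) :=
    integrable_bdd hjm.aestronglyMeasurable 1 fun φ => hjb g hg1 _ _
  have hre : (∫ φ in Ioo 0 Real.pi, jg g s (1 - δ * (1 - Real.cos φ))).re =
      ∫ φ in Ioo 0 Real.pi, (jg g s (1 - δ * (1 - Real.cos φ))).re :=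
    (integral_re hji).symm
  rw [hre]
  refine setIntegral_congr_fun measurableSet_Ioo fun φ hφ => ?_
  exact congrArg Complex.re (hJ2 φ hφ)

/-- ROW CS: the two Cauchy-Schwarz steps -/
theorem two_cs_of {d : ℕ}
    (hJ : ∀ (g : E d → ℂ) (y0 y1 y2 y3 : E d), ‖y0‖ = 1 → ‖y1‖ = 1 → ‖y2‖ = 1 → ‖y3‖ = 1 →
      y0 + y3 = y1 + y2 → inner ℝ y0 y1 < 1 → inner ℝ y0 y2 < 1 →
      J4 g g g g y0 y1 y2 y3 = jg g (inner ℝ y0 y1) (inner ℝ y0 y2))
    (hjmeas : ∀ g : E d → ℂ, Measurable g → Measurable (fun p : ℝ × ℝ => jg g p.1 p.2))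
    (hjb : ∀ g : E d → ℂ, (∀ x, ‖g x‖ ≤ 1) → ∀ s t : ℝ, ‖jg g s t‖ ≤ 1) {ι : Type*} [Fintype ι] [DecidableEq ι] (v : ι → Sph d) (i0 : ι)
    (A : Finset ι) (hA : i0 ∉ A) (e0 : E d) (he0 : ‖e0‖ = 1) (hev : ∀ i, inner ℝ e0 (v i : E d) = 0)
    (h1 : (v i0 : E d) ∉ Submodule.span ℝ ((fun i => (v i : E d)) '' (A : Set ι)))
    (h2 : (v i0 : E d) ∉ Submodule.span ℝ ((fun i => (v i : E d)) '' {i | i ∉ A ∧ i ≠ i0}))
    (h3 : Module.finrank ℝ (Submodule.span ℝ ((fun i => (v i : E d)) '' (A : Set ι))) + 2 ≤ d) :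
    ∃ (q : ℝ) (δ : ℝ → ℝ), 0 < q ∧ q ≤ 1 ∧ Measurable δ ∧ DifferentiableOn ℝ δ (Ioo 0 Real.pi) ∧
      (∀ θ ∈ Ioo 0 Real.pi, 0 < δ θ ∧ δ θ ≤ 1) ∧
      (∀ θ ∈ Ioo 0 Real.pi, ∀ φ ∈ Ioo 0 Real.pi,
        0 ≤ (1 - q * (1 - Real.cos θ)) + (1 - δ θ * (1 - Real.cos φ))) ∧
      (∀ (g : E d → ℂ) (f : ι → E d → ℂ), Measurable g → (∀ x, ‖g x‖ ≤ 1) →
        (∀ i, Measurable (f i)) → (∀ i x, ‖f i x‖ ≤ 1) →
        ‖∫ T : OG d, g (act T (v i0)) * ∏ i ∈ Finset.univ.erase i0, f i (act T (v i)) ∂(mu d)‖ ^ 4 ≤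
          (1 / Real.pi ^ 2) * ‖∫ θ in Ioo 0 Real.pi, ∫ φ in Ioo 0 Real.pi,
            jg g (1 - q * (1 - Real.cos θ)) (1 - δ θ * (1 - Real.cos φ))‖) := by
  have hpi := Real.pi_pos
  have hv1 : ‖(v i0 : E d)‖ = 1 := norm_coe_sph _
  obtain ⟨q, δ, R, gt, hq0, hq1, hδm, hδd, hδ, hRc, hRm, hRp, hRB, hRA, hs, hQ⟩ :=
    cs_geom v i0 A e0 he0 hev h1 h2 h3
  have hcos : ∀ θ ∈ Ioo 0 Real.pi, Real.cos θ < 1 := by
    intro θ hθ
    rw [← Real.cos_zero]
    exact Real.cos_lt_cos_of_nonneg_of_le_pi le_rfl hθ.2.le hθ.1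
  refine ⟨q, δ, hq0, hq1, hδm, hδd, hδ, ?_, ?_⟩
  · intro θ hθ φ hφ
    obtain ⟨Q, hQc, hQm, hQp, hQW, hQg, hQv⟩ := hQ θ hθ
    obtain ⟨c, hc⟩ := hRA θ i0
    rw [← hs θ, ← hQv φ, ← inner_add_right]
    have e : act (R θ) (v i0 : E d) + act (Q φ) (v i0) =
        (v i0 : E d) + act (Q φ) (act (R θ) (v i0)) := by
      rw [hc, act_add, act_smul, hQg]
      abel
    rw [e, inner_add_right, real_inner_self_eq_norm_sq, hv1]
    have h := abs_real_inner_le_norm (v i0 : E d) (act (Q φ) (act (R θ) (v i0)))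
    rw [norm_act, norm_act, hv1, one_mul] at h
    have := (abs_le.mp h).1
    linarith
  · intro g f hg hg1 hf hf1
    have hAsub : A ⊆ Finset.univ.erase i0 := by
      intro i hi
      rw [Finset.mem_erase]
      exact ⟨fun h => hA (h ▸ hi), Finset.mem_univ _⟩
    have hsplit : ∀ T : OG d, g (act T (v i0)) * ∏ i ∈ Finset.univ.erase i0, f i (act T (v i)) =
        (∏ i ∈ (Finset.univ.erase i0) \ A, f i (act T (v i))) *
          (g (act T (v i0)) * ∏ i ∈ A, f i (act T (v i))) := by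
      intro T
      rw [← Finset.prod_sdiff hAsub]
      ring
    simp only [hsplit]
    have hXm : Measurable fun T : OG d => g (act T (v i0)) * ∏ i ∈ A, f i (act T (v i)) :=
      (hg.comp (measurable_act_left _)).mul (measurable_prod_act f hf _ A)
    have hXb : ∀ T : OG d, ‖g (act T (v i0)) * ∏ i ∈ A, f i (act T (v i))‖ ≤ 1 := by
      intro T
      rw [norm_mul]
      exact mul_le_one₀ (hg1 _) (norm_nonneg _) (norm_prod_act_le f hf1 _ A T)
    have hFBR : ∀ (T : OG d) θ, ∏ i ∈ (Finset.univ.erase i0) \ A, f i (act (T * R θ) (v i)) =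
        ∏ i ∈ (Finset.univ.erase i0) \ A, f i (act T (v i)) := by
      intro T θ
      refine Finset.prod_congr rfl fun i hi => ?_
      rw [Finset.mem_sdiff, Finset.mem_erase] at hi
      rw [act_mul, hRB θ i hi.2 hi.1.1]
    have step1 := vdc R hRc hRm hRp _ _ (measurable_prod_act f hf (fun i => (v i : E d))
      ((Finset.univ.erase i0) \ A)) hXm (norm_prod_act_le f hf1 _ _) hXb hFBR
    have step2 : ∀ θ ∈ Ioo 0 Real.pi,
        ‖∫ T : OG d, (g (act T (v i0)) * ∏ i ∈ A, f i (act T (v i))) *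
          conj (g (act (T * R θ) (v i0)) * ∏ i ∈ A, f i (act (T * R θ) (v i))) ∂(mu d)‖ ^ 2 ≤
        (1 / Real.pi) * (∫ φ in Ioo 0 Real.pi,
          jg g (1 - q * (1 - Real.cos θ)) (1 - δ θ * (1 - Real.cos φ))).re := by
      intro θ hθ
      obtain ⟨Q, hQc, hQm, hQp, hQW, hQg, hQv⟩ := hQ θ hθ
      exact cs_step2 hJ hjmeas hjb (fun i => (v i : E d)) (v i0 : E d) hv1 A (R θ) (gt θ)
        (1 - q * (1 - Real.cos θ)) (δ θ) (by have h5 := hcos θ hθ; nlinarith) (hδ θ hθ).1 (hRA θ)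
        (hRA θ i0) (hs θ) Q hQc hQm hQp hQW hQg hQv g f hg hg1 hf hf1
    have hKm' := measurable_corr R hRc _ hXm
    have hKb' := norm_corr_le R _ hXb
    set K : ℝ → ℂ := fun θ => ∫ T : OG d, (g (act T (v i0)) * ∏ i ∈ A, f i (act T (v i))) *
          conj (g (act (T * R θ) (v i0)) * ∏ i ∈ A, f i (act (T * R θ) (v i))) ∂(mu d) with hK
    have hKm : Measurable K := hKm'
    have hKb : ∀ θ, ‖K θ‖ ≤ 1 := hKb'
    clear hKm' hKb'
    have step2' : ∀ θ ∈ Ioo 0 Real.pi, ‖K θ‖ ^ 2 ≤ (1 / Real.pi) * (∫ φ in Ioo 0 Real.pi,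
          jg g (1 - q * (1 - Real.cos θ)) (1 - δ θ * (1 - Real.cos φ))).re := step2
    set I : ℂ := ∫ T : OG d, (∏ i ∈ (Finset.univ.erase i0) \ A, f i (act T (v i))) *
          (g (act T (v i0)) * ∏ i ∈ A, f i (act T (v i))) ∂(mu d) with hI
    have step1' : ‖I‖ ^ 2 ≤ (1 / Real.pi) * ∫ θ in Ioo 0 Real.pi, (K θ).re := step1
    clear step1 step2
    clear_value K I
    -- assembly
    set H : ℝ → ℂ := fun θ => ∫ φ in Ioo 0 Real.pi,
        jg g (1 - q * (1 - Real.cos θ)) (1 - δ θ * (1 - Real.cos φ)) with hH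
    have hHm : Measurable H := by
      have h6 : Measurable fun p : ℝ × ℝ => ((1 - q * (1 - Real.cos p.1),
          1 - δ p.1 * (1 - Real.cos p.2)) : ℝ × ℝ) := by
        have hc : Measurable Real.cos := Real.measurable_cos
        fun_prop
      have h7 := Measurable.comp (g := fun p : ℝ × ℝ => jg g p.1 p.2) (hjmeas g hg) h6
      exact (h7.stronglyMeasurable.integral_prod_right'
        (ν := volume.restrict (Ioo 0 Real.pi))).measurable
    have hHb : ∀ θ, ‖H θ‖ ≤ Real.pi := by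
      intro θ
      have h := norm_integral_le_of_norm_le_const (μ := volume.restrict (Ioo 0 Real.pi))
        (f := fun φ => jg g (1 - q * (1 - Real.cos θ)) (1 - δ θ * (1 - Real.cos φ))) (C := 1)
        (Eventually.of_forall fun φ => hjb g hg1 _ _)
      have h' : (volume.restrict (Ioo 0 Real.pi)).real univ = Real.pi := by
        simp only [measureReal_restrict_apply_univ, Real.volume_real_Ioo]
        rw [max_eq_left (by linarith)]; ring
      rw [h', one_mul] at h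
      exact h
    have step2'' : ∀ θ ∈ Ioo 0 Real.pi, ‖K θ‖ ^ 2 ≤ (1 / Real.pi) * (H θ).re := step2'
    clear step2'
    clear_value H
    have hHi : Integrable H (volume.restrict (Ioo 0 Real.pi)) :=
      integrable_bdd hHm.aestronglyMeasurable _ hHb
    have hKi : Integrable K (volume.restrict (Ioo 0 Real.pi)) :=
      integrable_bdd hKm.aestronglyMeasurable _ hKb
    have hKni : Integrable (fun θ => ‖K θ‖) (volume.restrict (Ioo 0 Real.pi)) := hKi.norm
    have hKn2 : Integrable (fun θ => ‖K θ‖ ^ 2) (volume.restrict (Ioo 0 Real.pi)) :=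
      integrable_bdd (hKm.norm.pow_const 2).aestronglyMeasurable 1 fun θ => by
        rw [norm_pow, norm_norm]; exact pow_le_one₀ (norm_nonneg _) (hKb θ)
    have s1 : ‖I‖ ^ 2 ≤ (1 / Real.pi) * ∫ θ in Ioo 0 Real.pi, ‖K θ‖ := by
      refine step1'.trans (mul_le_mul_of_nonneg_left ?_ (by positivity))
      exact integral_mono hKi.re hKni fun θ => Complex.re_le_norm _
    have s2 := sq_avg_le (fun θ => ‖K θ‖) hKm.norm (fun θ => norm_nonneg _) hKb
    have s3 : ∫ θ in Ioo 0 Real.pi, ‖K θ‖ ^ 2 ≤ (1 / Real.pi) * ‖∫ θ in Ioo 0 Real.pi, H θ‖ := by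
      calc ∫ θ in Ioo 0 Real.pi, ‖K θ‖ ^ 2 ≤ ∫ θ in Ioo 0 Real.pi, (1 / Real.pi) * (H θ).re := by
            refine setIntegral_mono_on hKn2 (hHi.re.const_mul _) measurableSet_Ioo ?_
            intro θ hθ
            exact step2'' θ hθ
        _ = (1 / Real.pi) * (∫ θ in Ioo 0 Real.pi, H θ).re := by
            rw [integral_const_mul]
            congr 1
            exact integral_re hHi
        _ ≤ _ := mul_le_mul_of_nonneg_left (Complex.re_le_norm _) (by positivity)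
    calc ‖I‖ ^ 4 = (‖I‖ ^ 2) ^ 2 := by ring
      _ ≤ ((1 / Real.pi) * ∫ θ in Ioo 0 Real.pi, ‖K θ‖) ^ 2 :=
          pow_le_pow_left₀ (by positivity) s1 2
      _ ≤ (1 / Real.pi) * ∫ θ in Ioo 0 Real.pi, ‖K θ‖ ^ 2 := s2
      _ ≤ (1 / Real.pi) * ((1 / Real.pi) * ‖∫ θ in Ioo 0 Real.pi, H θ‖) :=
          mul_le_mul_of_nonneg_left s3 (by positivity)
      _ = (1 / Real.pi ^ 2) * ‖∫ θ in Ioo 0 Real.pi, H θ‖ := by
          field_simp

end SPH
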