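import Pool.Agent.SPH.Dens

/-!
The counting statement of section 2.3, abstract form.
-/

set_option autoImplicit false

open MeasureTheory Topology Filter Set
open scoped ENNReal

namespace SPH

/-- Telescoping: change the factors one after the other. -/
theorem abs_sub_le_of_swap {I T : Type*} [Fintype I] [DecidableEq I] (Φ : (I → T) → ℝ)
    (f g : I → T) (c : ℝ)
    (h : ∀ (s : Finset I) (a : I), a ∉ s →
      |Φ (fun j => if j ∈ insert a s then g j else f j) - Φ (fun j => if j ∈ s then g j else f j)|
        ≤ c) : |Φ g - Φ f| ≤ Fintype.card I * c := by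
  have key : ∀ s : Finset I, |Φ (fun j => if j ∈ s then g j else f j) - Φ f| ≤ s.card * c := by
    intro s
    induction s using Finset.induction_on with
    | empty => simp
    | insert a s ha ih =>
      have h1 := h s a ha
      rw [Finset.card_insert_of_notMem ha]
      push_cast
      have h2 : Φ (fun j => if j ∈ insert a s then g j else f j) - Φ f =
          (Φ (fun j => if j ∈ insert a s then g j else f j) -
            Φ (fun j => if j ∈ s then g j else f j)) +
          (Φ (fun j => if j ∈ s then g j else f j) - Φ f) := by ring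
      rw [h2]
      refine (abs_add_le _ _).trans ?_
      linarith
  have h3 := key Finset.univ
  simpa using h3

theorem ite_insert_eq {I T : Type*} [DecidableEq I] (f g : I → T) (s : Finset I) (a : I) :
    (fun j => if j ∈ insert a s then g j else f j) =
      Function.update (fun j => if j ∈ s then g j else f j) a (g a) := by
  funext j
  by_cases hj : j = a
  · subst hj; simp
  · simp [hj, Finset.mem_insert]

theorem ite_notMem_eq {I T : Type*} [DecidableEq I] (f g : I → T) (s : Finset I) (a : I)
    (ha : a ∉ s) :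
    (fun j => if j ∈ s then g j else f j) =
      Function.update (fun j => if j ∈ s then g j else f j) a (f a) := by
  funext j
  by_cases hj : j = a
  · subst hj; simp [ha]
  · simp [hj]

/-- products of numbers in `[-1, 1]` -/
theorem abs_prod_le_one {I : Type*} (s : Finset I) (u : I → ℝ) (h : ∀ i, |u i| ≤ 1) :
    |∏ i ∈ s, u i| ≤ 1 := by
  rw [Finset.abs_prod]
  exact Finset.prod_le_one (fun i _ => abs_nonneg _) fun i _ => h i

section

variable {X Y S G I : Type*} [TopologicalSpace X] [CompactSpace X] [T2Space X]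
  [SecondCountableTopology X] [MeasurableSpace X] [BorelSpace X] [MeasurableSpace S]
  [TopologicalSpace Y] [CompactSpace Y] [MeasurableSpace Y] [BorelSpace Y]
  [MeasurableSpace G] [Fintype I]

/-- Continuous functions with values in `[0,1]` approximate densities in `L¹`. -/
theorem exists_unit_approx (μX : Measure X) [IsProbabilityMeasure μX] (F : X → ℝ)
    (hF : Measurable F) (hF0 : ∀ x, 0 ≤ F x) (hF1 : ∀ x, F x ≤ 1) (ε : ℝ) (hε : 0 < ε) :
    ∃ φ : C(X, ℝ), (∀ x, 0 ≤ φ x ∧ φ x ≤ 1) ∧ ∫ x, |F x - φ x| ∂μX < ε := by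
  classical
  let _ : MetricSpace X := TopologicalSpace.metrizableSpaceMetric X
  have hFi : Integrable F μX := Integrable.of_bound hF.aestronglyMeasurable 1
    (Eventually.of_forall fun x => by rw [Real.norm_eq_abs, abs_of_nonneg (hF0 x)]; exact hF1 x)
  obtain ⟨g, hg, hgi⟩ := hFi.exists_boundedContinuous_integral_sub_le (half_pos hε)
  refine ⟨⟨fun x => max 0 (min 1 (g x)), ?_⟩, ?_, ?_⟩
  · exact continuous_const.max (continuous_const.min g.continuous)
  · intro x
    exact ⟨le_max_left _ _, max_le zero_le_one (min_le_left _ _)⟩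
  · have hle : ∀ x, |F x - max 0 (min 1 (g x))| ≤ ‖F x - g x‖ := by
      intro x
      have h0 := hF0 x
      have h1 := hF1 x
      rw [Real.norm_eq_abs]
      rcases le_total (g x) 0 with hg0 | hg0
      · have e : max 0 (min 1 (g x)) = 0 := by
          apply max_eq_left
          exact (min_le_right _ _).trans hg0
        rw [e, sub_zero, abs_of_nonneg h0]
        have : F x ≤ F x - g x := by linarith
        exact this.trans (le_abs_self _)
      · rcases le_total (g x) 1 with hg1 | hg1
        · rw [min_eq_right hg1, max_eq_right hg0]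
        · rw [min_eq_left hg1, max_eq_right zero_le_one]
          have h2 : |F x - 1| = 1 - F x := by
            rw [abs_of_nonpos (by linarith)]; ring
          rw [h2]
          have h3 : 1 - F x ≤ -(F x - g x) := by linarith
          exact h3.trans (neg_le_abs _)
    have hm : Continuous fun x => max 0 (min 1 (g x)) :=
      continuous_const.max (continuous_const.min g.continuous)
    have hi1 : Integrable (fun x => |F x - max 0 (min 1 (g x))|) μX := by
      refine Integrable.of_bound ((hF.sub hm.measurable).abs).aestronglyMeasurable 1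
        (Eventually.of_forall fun x => ?_)
      rw [Real.norm_eq_abs, abs_abs, abs_le]
      have a1 := hF0 x
      have a2 := hF1 x
      have a3 : 0 ≤ max 0 (min 1 (g x)) := le_max_left _ _
      have a4 : max 0 (min 1 (g x)) ≤ 1 := max_le zero_le_one (min_le_left _ _)
      constructor <;> linarith
    have hi2 : Integrable (fun x => ‖F x - g x‖) μX := (hFi.sub hgi).norm
    have h4 : ∫ x, |F x - max 0 (min 1 (g x))| ∂μX ≤ ∫ x, ‖F x - g x‖ ∂μX :=
      integral_mono hi1 hi2 hle
    have h5 : ∫ x, |F x - max 0 (min 1 (g x))| ∂μX ≤ ε / 2 := h4.trans hg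
    exact lt_of_le_of_lt h5 (half_lt_self hε)

/-- The counting statement. -/
theorem count (M : Measure Y) [IsProbabilityMeasure M] (μX : Measure X) [IsProbabilityMeasure μX]
    (μ : Measure G) [IsProbabilityMeasure μ] (U : Ultrafilter ℕ)
    (p : I → Y → X) (hp : ∀ i, Continuous (p i)) (hpM : ∀ i, Measure.map (p i) M = μX)
    (b : ℕ → S → X) (hb : ∀ n, Measurable (b n)) (ev : I → G → S) (hev : ∀ i, Measurable (ev i))
    (η : ℕ → G → Y) (hη : ∀ n i T, p i (η n T) = b n (ev i T))
    (hY : ∀ φ : C(Y, ℝ), Tendsto (fun n => ∫ T, φ (η n T) ∂μ) U (𝓝 (∫ y, φ y ∂M)))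
    (star : (S → ℝ) → ℝ)
    (hstar : ∀ κ : ℝ, 0 < κ → ∃ ε : ℝ, 0 < ε ∧ ∀ (i : I) (h : I → S → ℝ),
      (∀ j, Measurable (h j)) → (∀ j x, |h j x| ≤ 1) → star (h i) ≤ ε →
      |∫ T, ∏ j, h j (ev j T) ∂μ| ≤ κ)
    (f : ℕ → I → S → ℝ) (hf : ∀ n i, Measurable (f n i)) (hf0 : ∀ n i x, 0 ≤ f n i x)
    (hf1 : ∀ n i x, f n i x ≤ 1)
    (F : I → X → ℝ) (hF : ∀ i, Measurable (F i)) (hF0 : ∀ i x, 0 ≤ F i x)
    (hF1 : ∀ i x, F i x ≤ 1)
    (hclaim : ∀ i (φ : C(X, ℝ)), (∀ x, 0 ≤ φ x ∧ φ x ≤ 1) → ∀ ε : ℝ, 0 < ε →
      ∫ x, |F i x - φ x| ∂μX < ε →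
      ∀ᶠ n in (U : Filter ℕ), star (fun x => f n i x - φ (b n x)) ≤ ε) :
    Tendsto (fun n => ∫ T, ∏ i, f n i (ev i T) ∂μ) U (𝓝 (∫ y, ∏ i, F i (p i y) ∂M)) := by
  classical
  rw [Metric.tendsto_nhds]
  intro κ hκ
  set N : ℝ := (Fintype.card I : ℝ) + 1 with hN
  have hNpos : 0 < N := by rw [hN]; positivity
  have hcN : (Fintype.card I : ℝ) ≤ N := by rw [hN]; linarith
  set κ' : ℝ := κ / (4 * N) with hκ'
  have hκ'pos : 0 < κ' := by rw [hκ']; positivity
  have hNκ : N * κ' = κ / 4 := by rw [hκ']; field_simp
  obtain ⟨ε₀, hε₀, hU⟩ := hstar κ' hκ'pos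
  set ε : ℝ := min ε₀ κ' with hεdef
  have hε : 0 < ε := lt_min hε₀ hκ'pos
  choose φ hφ1 hφ2 using fun i => exists_unit_approx μX (F i) (hF i) (hF0 i) (hF1 i) ε hε
  have hcl : ∀ᶠ n in (U : Filter ℕ), ∀ i, star (fun x => f n i x - φ i (b n x)) ≤ ε :=
    eventually_all.2 fun i => hclaim i (φ i) (hφ1 i) ε hε (hφ2 i)
  -- the continuous function on `Y`
  let Φ : C(Y, ℝ) := ∏ i, (φ i).comp ⟨p i, hp i⟩
  have hΦ : ∀ y, Φ y = ∏ i, φ i (p i y) := by
    intro y
    simp [Φ, ContinuousMap.prod_apply]
  have hYΦ := hY Φ
  rw [Metric.tendsto_nhds] at hYΦ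
  have hYΦ' := hYΦ (κ / 4) (by positivity)
  -- the limit side
  have hlim : |∫ y, ∏ i, φ i (p i y) ∂M - ∫ y, ∏ i, F i (p i y) ∂M| ≤ κ / 4 := by
    have h1 : |(fun u : I → X → ℝ => ∫ y, ∏ i, u i (p i y) ∂M) (fun i => φ i) -
        (fun u : I → X → ℝ => ∫ y, ∏ i, u i (p i y) ∂M) F| ≤ Fintype.card I * ε := by
      refine abs_sub_le_of_swap (fun u : I → X → ℝ => ∫ y, ∏ i, u i (p i y) ∂M) F
        (fun i => φ i) ε ?_
      intro s a ha
      set u : I → X → ℝ := fun j => if j ∈ s then (φ j : X → ℝ) else F j with hu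
      have hum : ∀ j, Measurable (u j) := by
        intro j
        rw [hu]
        by_cases hj : j ∈ s
        · simp only [hj, if_true]; exact (φ j).continuous.measurable
        · simp only [hj, if_false]; exact hF j
      have hu1 : ∀ j x, |u j x| ≤ 1 := by
        intro j x
        rw [hu]
        by_cases hj : j ∈ s
        · simp only [hj, if_true]
          rw [abs_of_nonneg (hφ1 j x).1]; exact (hφ1 j x).2
        · simp only [hj, if_false]
          rw [abs_of_nonneg (hF0 j x)]; exact hF1 j x
      have e1 : (fun j => if j ∈ insert a s then (φ j : X → ℝ) else F j) =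
          Function.update u a (φ a) := ite_insert_eq F (fun i => (φ i : X → ℝ)) s a
      have e2 : u = Function.update u a (F a) := ite_notMem_eq F (fun i => (φ i : X → ℝ)) s a ha
      have hprod : ∀ (v : X → ℝ) y, ∏ i, Function.update u a v i (p i y) =
          v (p a y) * ∏ i ∈ Finset.univ \ {a}, u i (p i y) := by
        intro v y
        have h2 : ∏ i, Function.update u a v i (p i y) =
            ∏ i, Function.update (fun i => u i (p i y)) a (v (p a y)) i := by
          refine Finset.prod_congr rfl fun i _ => ?_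
          by_cases hi : i = a
          · subst hi; simp
          · simp [hi]
        rw [h2, Finset.prod_update_of_mem (Finset.mem_univ a)]
      have hmeas : Measurable fun y => ∏ i ∈ Finset.univ \ {a}, u i (p i y) :=
        Finset.measurable_prod _ fun i _ => (hum i).comp (hp i).measurable
      have hb1 : ∀ y, |∏ i ∈ Finset.univ \ {a}, u i (p i y)| ≤ 1 := fun y =>
        abs_prod_le_one _ _ fun i => hu1 i _
      have hI : ∀ v : X → ℝ, Measurable v → (∀ x, |v x| ≤ 1) →
          Integrable (fun y => v (p a y) * ∏ i ∈ Finset.univ \ {a}, u i (p i y)) M := by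
        intro v hv hv1
        refine Integrable.of_bound ((hv.comp (hp a).measurable).mul hmeas).aestronglyMeasurable 1
          (Eventually.of_forall fun y => ?_)
        rw [Real.norm_eq_abs, abs_mul]
        exact mul_le_one₀ (hv1 _) (abs_nonneg _) (hb1 y)
      have hφm : Measurable (φ a : X → ℝ) := (φ a).continuous.measurable
      have hφ1' : ∀ x, |φ a x| ≤ 1 := fun x => by
        rw [abs_of_nonneg (hφ1 a x).1]; exact (hφ1 a x).2
      have hF1' : ∀ x, |F a x| ≤ 1 := fun x => by
        rw [abs_of_nonneg (hF0 a x)]; exact hF1 a x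
      have e3 : (∫ y, ∏ i, (fun j => if j ∈ insert a s then (φ j : X → ℝ) else F j) i (p i y) ∂M) -
          ∫ y, ∏ i, u i (p i y) ∂M =
          ∫ y, (φ a (p a y) - F a (p a y)) * ∏ i ∈ Finset.univ \ {a}, u i (p i y) ∂M := by
        rw [e1]
        conv_lhs => rw [e2]
        rw [Function.update_idem]
        simp only [hprod]
        rw [← integral_sub (hI _ hφm hφ1') (hI _ (hF a) hF1')]
        refine integral_congr_ae (Eventually.of_forall fun y => ?_)
        ring
      show |(∫ y, ∏ i, (fun j => if j ∈ insert a s then (φ j : X → ℝ) else F j) i (p i y) ∂M) -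
          ∫ y, ∏ i, u i (p i y) ∂M| ≤ ε
      rw [e3]
      have hdm : Measurable fun x => |F a x - φ a x| := ((hF a).sub hφm).abs
      calc |∫ y, (φ a (p a y) - F a (p a y)) * ∏ i ∈ Finset.univ \ {a}, u i (p i y) ∂M|
          ≤ ∫ y, |(φ a (p a y) - F a (p a y)) * ∏ i ∈ Finset.univ \ {a}, u i (p i y)| ∂M :=
            abs_integral_le_integral_abs
        _ ≤ ∫ y, |F a (p a y) - φ a (p a y)| ∂M := by
            refine integral_mono_of_nonneg (Eventually.of_forall fun y => abs_nonneg _) ?_
              (Eventually.of_forall fun y => ?_)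
            · refine Integrable.of_bound (hdm.comp (hp a).measurable).aestronglyMeasurable 1
                (Eventually.of_forall fun y => ?_)
              rw [Real.norm_eq_abs, abs_abs, abs_le]
              have a1 := hF0 a (p a y)
              have a2 := hF1 a (p a y)
              have a3 := hφ1 a (p a y)
              constructor <;> linarith [a3.1, a3.2]
            · show |(φ a (p a y) - F a (p a y)) * ∏ i ∈ Finset.univ \ {a}, u i (p i y)| ≤
                |F a (p a y) - φ a (p a y)|
              rw [abs_mul, abs_sub_comm]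
              exact mul_le_of_le_one_right (abs_nonneg _) (hb1 y)
        _ = ∫ x, |F a x - φ a x| ∂μX := by
            rw [← hpM a, integral_map (hp a).measurable.aemeasurable hdm.aestronglyMeasurable]
        _ ≤ ε := (hφ2 a).le
    refine le_trans h1 ?_
    calc (Fintype.card I : ℝ) * ε ≤ N * κ' :=
          mul_le_mul hcN (min_le_right _ _) hε.le hNpos.le
      _ = κ / 4 := hNκ
  filter_upwards [hcl, hYΦ'] with n hn1 hn2
  -- the finite side
  have hfin : |(∫ T, ∏ i, φ i (b n (ev i T)) ∂μ) - ∫ T, ∏ i, f n i (ev i T) ∂μ| ≤ κ / 4 := by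
    have h1 : |(fun u : I → S → ℝ => ∫ T, ∏ i, u i (ev i T) ∂μ) (fun i x => φ i (b n x)) -
        (fun u : I → S → ℝ => ∫ T, ∏ i, u i (ev i T) ∂μ) (f n)| ≤ Fintype.card I * κ' := by
      refine abs_sub_le_of_swap (fun u : I → S → ℝ => ∫ T, ∏ i, u i (ev i T) ∂μ) (f n)
        (fun i x => φ i (b n x)) κ' ?_
      intro s a ha
      set u : I → S → ℝ := fun j => if j ∈ s then (fun x => φ j (b n x)) else f n j with hu
      have hum : ∀ j, Measurable (u j) := by
        intro j
        rw [hu]
        by_cases hj : j ∈ s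
        · simp only [hj, if_true]; exact (φ j).continuous.measurable.comp (hb n)
        · simp only [hj, if_false]; exact hf n j
      have hu1 : ∀ j x, |u j x| ≤ 1 := by
        intro j x
        rw [hu]
        by_cases hj : j ∈ s
        · simp only [hj, if_true]
          rw [abs_of_nonneg (hφ1 j _).1]; exact (hφ1 j _).2
        · simp only [hj, if_false]
          rw [abs_of_nonneg (hf0 n j x)]; exact hf1 n j x
      have e1 : (fun j => if j ∈ insert a s then (fun x => φ j (b n x)) else f n j) =
          Function.update u a (fun x => φ a (b n x)) :=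
        ite_insert_eq (f n) (fun i x => φ i (b n x)) s a
      have e2 : u = Function.update u a (f n a) :=
        ite_notMem_eq (f n) (fun i x => φ i (b n x)) s a ha
      have hprod : ∀ (v : S → ℝ) T, ∏ i, Function.update u a v i (ev i T) =
          v (ev a T) * ∏ i ∈ Finset.univ \ {a}, u i (ev i T) := by
        intro v T
        have h2 : ∏ i, Function.update u a v i (ev i T) =
            ∏ i, Function.update (fun i => u i (ev i T)) a (v (ev a T)) i := by
          refine Finset.prod_congr rfl fun i _ => ?_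
          by_cases hi : i = a
          · subst hi; simp
          · simp [hi]
        rw [h2, Finset.prod_update_of_mem (Finset.mem_univ a)]
      have hmeas : Measurable fun T => ∏ i ∈ Finset.univ \ {a}, u i (ev i T) :=
        Finset.measurable_prod _ fun i _ => (hum i).comp (hev i)
      have hb1 : ∀ T, |∏ i ∈ Finset.univ \ {a}, u i (ev i T)| ≤ 1 := fun T =>
        abs_prod_le_one _ _ fun i => hu1 i _
      have hI : ∀ v : S → ℝ, Measurable v → (∀ x, |v x| ≤ 1) →
          Integrable (fun T => v (ev a T) * ∏ i ∈ Finset.univ \ {a}, u i (ev i T)) μ := by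
        intro v hv hv1
        refine Integrable.of_bound ((hv.comp (hev a)).mul hmeas).aestronglyMeasurable 1
          (Eventually.of_forall fun y => ?_)
        rw [Real.norm_eq_abs, abs_mul]
        exact mul_le_one₀ (hv1 _) (abs_nonneg _) (hb1 y)
      have hφm : Measurable (fun x => φ a (b n x)) := (φ a).continuous.measurable.comp (hb n)
      have hφ1' : ∀ x, |φ a (b n x)| ≤ 1 := fun x => by
        rw [abs_of_nonneg (hφ1 a _).1]; exact (hφ1 a _).2
      have hf1' : ∀ x, |f n a x| ≤ 1 := fun x => by
        rw [abs_of_nonneg (hf0 n a x)]; exact hf1 n a x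
      set w : S → ℝ := fun x => f n a x - φ a (b n x) with hw
      have e3 : (∫ T, ∏ i, (fun j => if j ∈ insert a s then (fun x => φ j (b n x)) else f n j) i
            (ev i T) ∂μ) - ∫ T, ∏ i, u i (ev i T) ∂μ =
          -∫ T, ∏ i, Function.update u a w i (ev i T) ∂μ := by
        rw [e1]
        conv_lhs => rw [e2]
        rw [Function.update_idem]
        simp only [hprod]
        rw [← integral_sub (hI _ hφm hφ1') (hI _ (hf n a) hf1'), ← integral_neg]
        refine integral_congr_ae (Eventually.of_forall fun y => ?_)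
        simp only [hw]
        ring
      show |(∫ T, ∏ i, (fun j => if j ∈ insert a s then (fun x => φ j (b n x)) else f n j) i
            (ev i T) ∂μ) - ∫ T, ∏ i, u i (ev i T) ∂μ| ≤ κ'
      rw [e3, abs_neg]
      have hwm : Measurable w := (hf n a).sub hφm
      have hw1 : ∀ x, |w x| ≤ 1 := by
        intro x
        rw [hw, abs_le]
        have a1 := hf0 n a x
        have a2 := hf1 n a x
        have a3 := hφ1 a (b n x)
        constructor <;> linarith [a3.1, a3.2]
      refine hU a (Function.update u a w) ?_ ?_ ?_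
      · intro j
        by_cases hj : j = a
        · subst hj; simpa using hwm
        · simpa [hj] using hum j
      · intro j x
        by_cases hj : j = a
        · subst hj; simpa using hw1 x
        · simpa [hj] using hu1 j x
      · rw [Function.update_self]
        exact (hn1 a).trans (min_le_left _ _)
    refine le_trans h1 ?_
    calc (Fintype.card I : ℝ) * κ' ≤ N * κ' := mul_le_mul_of_nonneg_right hcN hκ'pos.le
      _ = κ / 4 := hNκ
  have hmid : (∫ T, Φ (η n T) ∂μ) = ∫ T, ∏ i, φ i (b n (ev i T)) ∂μ := by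
    refine integral_congr_ae (Eventually.of_forall fun T => ?_)
    show Φ (η n T) = ∏ i, φ i (b n (ev i T))
    rw [hΦ]
    refine Finset.prod_congr rfl fun i _ => ?_
    rw [hη]
  have hmid2 : (∫ y, Φ y ∂M) = ∫ y, ∏ i, φ i (p i y) ∂M :=
    integral_congr_ae (Eventually.of_forall fun y => hΦ y)
  rw [hmid, hmid2, Real.dist_eq] at hn2
  rw [Real.dist_eq]
  rw [abs_lt] at hn2 ⊢
  rw [abs_le] at hfin hlim
  constructor <;> linarith [hn2.1, hn2.2, hfin.1, hfin.2, hlim.1, hlim.2]

end

end SPH
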