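import Pool.Agent.SPH.RemA
import Pool.Agent.SPH.Count

/-!
The counting statement on the sphere, from the abstract one.
-/

open MeasureTheory Set Metric Filter
open scoped ENNReal NNReal Topology

noncomputable section
namespace SPH

namespace H31

theorem norm_ee (t : ℝ) : ‖ee t‖ = 1 := by
  unfold ee
  exact Complex.norm_exp_ofReal_mul_I _

/-- the Fourier supremum norm of a real function on the sphere -/
def fnorm {d : ℕ} (g : Sph d → ℝ) : ℝ :=
  ⨆ ξ : E d, ‖∫ x : Sph d, ((g x : ℝ) : ℂ) * ee (-(inner ℝ ξ (x : E d))) ∂(sig d)‖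

theorem norm_int_le_one {d : ℕ} (g : Sph d → ℝ) (hg : ∀ x, |g x| ≤ 1) (ξ : E d) :
    ‖∫ x : Sph d, ((g x : ℝ) : ℂ) * ee (-(inner ℝ ξ (x : E d))) ∂(sig d)‖ ≤ 1 := by
  have h := norm_integral_le_of_norm_le_const (μ := sig d)
    (f := fun x : Sph d => ((g x : ℝ) : ℂ) * ee (-(inner ℝ ξ (x : E d)))) (C := 1)
    (Eventually.of_forall fun x => by
      rw [norm_mul, norm_ee, mul_one, Complex.norm_real, Real.norm_eq_abs]
      exact hg x)
  simpa using h

theorem le_fnorm {d : ℕ} (g : Sph d → ℝ) (hg : ∀ x, |g x| ≤ 1) (ξ : E d) :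
    ‖∫ x : Sph d, ((g x : ℝ) : ℂ) * ee (-(inner ℝ ξ (x : E d))) ∂(sig d)‖ ≤ fnorm g :=
  le_ciSup (f := fun ξ : E d =>
    ‖∫ x : Sph d, ((g x : ℝ) : ℂ) * ee (-(inner ℝ ξ (x : E d))) ∂(sig d)‖)
    ⟨1, by rintro _ ⟨ξ, rfl⟩; exact norm_int_le_one g hg ξ⟩ ξ

end H31

open H31

/-- ROW CNT. Counting. -/
theorem counting {d : ℕ} {ι : Type*} [Fintype ι] [DecidableEq ι] (v : ι → Sph d)
    (hU : ∀ i0 : ι, ∀ κ : ℝ, 0 < κ → ∃ ε : ℝ, 0 < ε ∧ ∀ (g : Sph d → ℝ) (f : ι → Sph d → ℝ),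
        Measurable g → (∀ x, |g x| ≤ 1) → (∀ i, Measurable (f i)) → (∀ i x, |f i x| ≤ 1) →
        (∀ ξ : E d, ‖∫ x : Sph d, ((g x : ℝ) : ℂ) * ee (-(inner ℝ ξ (x : E d))) ∂(sig d)‖ ≤ ε) →
        |∫ T : OG d, g (T • v i0) * ∏ i ∈ Finset.univ.erase i0, f i (T • v i) ∂(mu d)| ≤ κ)
    {A : Type*} [AddCommGroup A] [Countable A] (w : ℕ → A →+ E d) (U : Ultrafilter ℕ)
    {J : Type*} [Fintype J] (vJ : J → Sph d) (m : ι → J → A →+ A)
    (heqY : ∀ φ : C(YY d A J, ℝ), Tendsto (fun n => ∫ T : OG d, φ (eta (w n) vJ T) ∂(mu d)) U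
      (𝓝 (∫ y, φ y ∂(muY d A J))))
    (hpi : ∀ i n T, piY (v i) (m i) (eta (w n) vJ T) = beta (w n) (T • v i))
    (hpm : ∀ i, Measure.map (piY (d := d) (v i) (m i)) (muY d A J) = muX d A)
    (f : ι → ℕ → Sph d → ℝ) (hf : ∀ i n, Measurable (f i n)) (hf0 : ∀ i n x, 0 ≤ f i n x)
    (hf1 : ∀ i n x, f i n x ≤ 1)
    (F : ι → XX d A → ℝ) (hF : ∀ i, Measurable (F i)) (hF0 : ∀ i p, 0 ≤ F i p) (hF1 : ∀ i p, F i p ≤ 1)
    (hsmall : ∀ i, ∀ φ : C(XX d A, ℝ), ∀ ε : ℝ, ∫ p, |F i p - φ p| ∂(muX d A) < ε →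
      ∀ᶠ n in (U : Filter ℕ), ∀ ξ : E d,
      ‖∫ x : Sph d, ((f i n x - φ (beta (w n) x) : ℝ) : ℂ) * ee (-(inner ℝ ξ (x : E d))) ∂(sig d)‖ ≤ ε) :
    Tendsto (fun n => ∫ T : OG d, ∏ i, f i n (T • v i) ∂(mu d)) U
      (𝓝 (∫ y, ∏ i, F i (piY (v i) (m i) y) ∂(muY d A J))) := by
  have i2 : IsProbabilityMeasure (muY d A J) := by unfold muY; infer_instance
  have i4 : IsProbabilityMeasure (muX d A) := by unfold muX; infer_instance
  have hbm : ∀ n, Measurable (beta (d := d) (w n)) := by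
    intro n
    have hc : Continuous (bmap (w n) : E d → Gh A) := by
      refine Continuous.subtype_mk (continuous_pi fun a => ?_) _
      exact Circle.exp.continuous.comp (continuous_const.mul (continuous_const.inner continuous_id))
    have hc2 : Continuous (beta (d := d) (w n)) :=
      continuous_id.prodMk (hc.comp continuous_subtype_val)
    exact hc2.measurable
  refine count (muY d A J) (muX d A) (mu d) U (fun i => piY (v i) (m i))
    (fun i => continuous_piY (v i) (m i)) hpm (fun n => beta (w n)) hbm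
    (fun i T => T • v i) (fun i => ?_) (fun n => eta (w n) vJ) (fun n i T => hpi i n T) heqY
    fnorm ?_ (fun n i => f i n) (fun n i => hf i n) (fun n i => hf0 i n) (fun n i => hf1 i n)
    F hF hF0 hF1 ?_
  · have hc : Continuous fun T : OG d => T • v i := continuous_id.smul continuous_const
    exact hc.measurable
  · intro κ hκ
    choose ε hε1 hε2 using fun i0 => hU i0 κ hκ
    rcases isEmpty_or_nonempty ι with hι | hι
    · exact ⟨1, one_pos, fun i => (hι.false i).elim⟩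
    · obtain ⟨i₁, hi₁⟩ := Finite.exists_min ε
      refine ⟨ε i₁, hε1 i₁, ?_⟩
      intro i h hm h1 hstar
      have h2 := hε2 i (h i) h (hm i) (h1 i) hm h1 (fun ξ =>
        (le_fnorm (h i) (h1 i) ξ).trans (hstar.trans (hi₁ i)))
      have e : ∀ T : OG d, ∏ j, h j (T • v j) =
          h i (T • v i) * ∏ j ∈ Finset.univ.erase i, h j (T • v j) := by
        intro T
        rw [Finset.mul_prod_erase Finset.univ (fun j => h j (T • v j)) (Finset.mem_univ i)]
      simp only [e]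
      exact h2
  · intro i φ hφ ε hε hφε
    filter_upwards [hsmall i φ ε hφε] with n hn
    exact ciSup_le hn

end SPH
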