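import Pool.Agent.SPH.Defs

/-! Project SPH, row CONG: families with the same Gram matrix are congruent under O(d+1). -/

open MeasureTheory Set Metric
open scoped ENNReal NNReal Topology

noncomputable section
namespace SPH

/-- ROW CONG. Families with the same Gram matrix are congruent. -/
theorem exists_act_of_gram {d : ℕ} {ι : Type*} [Fintype ι] (a b : ι → E d)
    (h : ∀ i j, inner ℝ (a i) (a j) = inner ℝ (b i) (b j)) : ∃ T : OG d, ∀ i, act T (a i) = b i := by
  classical
  set La : (ι → ℝ) →ₗ[ℝ] E d := Fintype.linearCombination ℝ a with hLa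
  set Lb : (ι → ℝ) →ₗ[ℝ] E d := Fintype.linearCombination ℝ b with hLb
  have hnorm : ∀ c : ι → ℝ, ‖La c‖ = ‖Lb c‖ := by
    intro c
    have e1 : ‖La c‖ ^ 2 = ‖Lb c‖ ^ 2 := by
      rw [← real_inner_self_eq_norm_sq, ← real_inner_self_eq_norm_sq]
      simp only [hLa, hLb, Fintype.linearCombination_apply, sum_inner, inner_sum, inner_smul_left,
        inner_smul_right, h]
    exact (sq_eq_sq₀ (norm_nonneg _) (norm_nonneg _)).mp e1
  have hker : LinearMap.ker La ≤ LinearMap.ker Lb := by
    intro c hc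
    rw [LinearMap.mem_ker] at hc ⊢
    rw [← norm_eq_zero, ← hnorm, hc, norm_zero]
  let f0 : LinearMap.range La →ₗ[ℝ] E d :=
    ((LinearMap.ker La).liftQ Lb hker).comp La.quotKerEquivRange.symm.toLinearMap
  have hf0 : ∀ c : ι → ℝ, f0 ⟨La c, LinearMap.mem_range_self La c⟩ = Lb c := by
    intro c
    have e2 : La.quotKerEquivRange.symm ⟨La c, LinearMap.mem_range_self La c⟩ =
        Submodule.Quotient.mk c := by
      rw [LinearEquiv.symm_apply_eq]
      apply Subtype.ext
      simp
    show ((LinearMap.ker La).liftQ Lb hker) (La.quotKerEquivRange.symm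
      ⟨La c, LinearMap.mem_range_self La c⟩) = _
    rw [e2]
    rfl
  let f : LinearMap.range La →ₗᵢ[ℝ] E d :=
    { f0 with
      norm_map' := by
        rintro ⟨y, c, rfl⟩
        show ‖f0 ⟨La c, _⟩‖ = _
        rw [hf0 c, ← hnorm]
        rfl }
  obtain ⟨T, hT⟩ := exists_act_eq f.extend
  refine ⟨T, fun i => ?_⟩
  have e3 : La (Pi.single i 1) = a i := by
    simp [hLa, Fintype.linearCombination_apply_single]
  have e4 : Lb (Pi.single i 1) = b i := by
    simp [hLb, Fintype.linearCombination_apply_single]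
  have e5 : f.extend (a i) = f ⟨a i, ⟨Pi.single i 1, e3⟩⟩ :=
    LinearIsometry.extend_apply f ⟨a i, ⟨Pi.single i 1, e3⟩⟩
  rw [hT, e5]
  have e6 : (⟨a i, ⟨Pi.single i 1, e3⟩⟩ : LinearMap.range La) =
      ⟨La (Pi.single i 1), LinearMap.mem_range_self La _⟩ := Subtype.ext e3.symm
  rw [e6]
  show f0 _ = _
  rw [hf0, e4]

end SPH
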