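import Pool.Agent.SPH.Basic

/-! Project SPH (MP_f7e9f1_co): common definitions. In the analytic part all functions are
g : E d → ℂ (only the values on the unit sphere matter). -/

open MeasureTheory Set Metric
open scoped ENNReal NNReal Topology

noncomputable section
namespace SPH

/-- e(t) = exp (2 pi i t) -/
def ee (t : ℝ) : ℂ := Complex.exp (((2 * Real.pi * t : ℝ) : ℂ) * Complex.I)

/-- Fourier transform of g sigma -/
def FT {d : ℕ} (g : E d → ℂ) (ξ : E d) : ℂ :=
  ∫ x : Sph d, g x * ee (-(inner ℝ ξ (x : E d))) ∂(sig d)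

/-- the basis vectors; used for k = 0, 1, 2 and d at least 2 -/
def bas (d : ℕ) (k : ℕ) : E d := EuclideanSpace.single (Fin.ofNat (d + 1) k) (1 : ℝ)

/-- a_psi = cos psi e1 + sin psi e2 -/
def va (d : ℕ) (ψ : ℝ) : E d := Real.cos ψ • bas d 0 + Real.sin ψ • bas d 1

/-- b_psi = cos psi e1 - sin psi e2 -/
def vb (d : ℕ) (ψ : ℝ) : E d := Real.cos ψ • bas d 0 - Real.sin ψ • bas d 1

/-- the four-fold average over O(d+1) -/
def J4 {d : ℕ} (g0 g1 g2 g3 : E d → ℂ) (y0 y1 y2 y3 : E d) : ℂ :=
  ∫ T : OG d, g0 (act T y0) * (starRingEnd ℂ) (g1 (act T y1)) * (starRingEnd ℂ) (g2 (act T y2)) *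
    g3 (act T y3) ∂(mu d)

/-- half angle of the rectangle with parameters s t -/
def psiOf (s t : ℝ) : ℝ := Real.arccos (Real.sqrt ((s + t) / 2))

/-- angle between the diagonals -/
def chiOf (s t : ℝ) : ℝ := Real.arccos ((s - t) / (2 - s - t))

/-- second vertex of the standard rectangle -/
def vc (d : ℕ) (ψ χ : ℝ) : E d :=
  Real.cos ψ • bas d 0 + Real.sin ψ • (Real.cos χ • bas d 1 + Real.sin χ • bas d 2)

/-- third vertex of the standard rectangle -/
def vd (d : ℕ) (ψ χ : ℝ) : E d :=
  Real.cos ψ • bas d 0 - Real.sin ψ • (Real.cos χ • bas d 1 + Real.sin χ • bas d 2)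

/-- the average of g over the rectangles with parameters s t -/
def jg {d : ℕ} (g : E d → ℂ) (s t : ℝ) : ℂ :=
  J4 g g g g (va d (psiOf s t)) (vc d (psiOf s t) (chiOf s t)) (vd d (psiOf s t) (chiOf s t))
    (vb d (psiOf s t))

/-- the stabiliser of e1 -/
def Kst (d : ℕ) : Subgroup (OG d) where
  carrier := {T | act T (bas d 0) = bas d 0}
  one_mem' := by simp
  mul_mem' := by
    intro a b ha hb
    simp only [Set.mem_ofPred_eq] at *
    rw [act_mul, hb, ha]
  inv_mem' := by
    intro a ha
    simp only [Set.mem_ofPred_eq] at *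
    have h : act (a⁻¹ * a) (bas d 0) = bas d 0 := by simp
    rw [act_mul, ha] at h
    exact h

theorem isClosed_Kst (d : ℕ) : IsClosed (Kst d : Set (OG d)) := by
  have h : Continuous fun T : OG d => act T (bas d 0) :=
    (continuous_act d).comp (continuous_id.prodMk continuous_const)
  exact isClosed_eq h continuous_const

instance instCompactSpaceKst (d : ℕ) : CompactSpace (Kst d) :=
  isCompact_iff_compactSpace.mp (isClosed_Kst d).isCompact

instance instBorelSpaceKst (d : ℕ) : BorelSpace (Kst d) := Subtype.borelSpace _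

/-- Haar probability of the stabiliser -/
def kap (d : ℕ) : Measure (Kst d) := Measure.haarMeasure ⊤

instance instIsHaarMeasure_kap (d : ℕ) : (kap d).IsHaarMeasure := by
  unfold kap; infer_instance

instance instIsProbabilityMeasure_kap (d : ℕ) : IsProbabilityMeasure (kap d) := by
  constructor
  have h := Measure.haarMeasure_self (G := Kst d) (K₀ := ⊤)
  simpa [kap] using h

/-- the action of the stabiliser -/
def kact {d : ℕ} (k : Kst d) (x : E d) : E d := act (k : OG d) x

/-- the weight rho lambda -/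
def wt (d : ℕ) (ψ : ℝ) : ℝ := Real.sin ψ ^ (2 * d - 3) * Real.cos ψ ^ (d - 2)

end SPH
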