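import Mathlib

/-!
Limit densities along an ultrafilter (first half of section 2.3).
-/

set_option autoImplicit false

open MeasureTheory Topology Filter Set
open scoped ENNReal CompactlySupported

namespace SPH

/-- Bounded real sequences converge along ultrafilters. -/
theorem exists_ulim (U : Ultrafilter ℕ) (u : ℕ → ℝ) (c : ℝ) (h : ∀ n, |u n| ≤ c) :
    ∃ l : ℝ, Tendsto u U (𝓝 l) := by
  obtain ⟨l, -, hl⟩ := (isCompact_Icc (a := -c) (b := c)).ultrafilter_le_nhds (U.map u) (by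
    rw [le_principal_iff]
    refine Filter.mem_map.2 (Filter.mem_of_superset Filter.univ_mem fun n _ => ?_)
    exact abs_le.1 (h n))
  exact ⟨l, hl⟩

section

variable {X S : Type*} [TopologicalSpace X] [CompactSpace X] [T2Space X]
  [SecondCountableTopology X] [MeasurableSpace X] [BorelSpace X] [MeasurableSpace S]

theorem integrable_dens (σ : Measure S) [IsProbabilityMeasure σ] (b : S → X) (hb : Measurable b)
    (f : S → ℝ) (hf : Measurable f) (hf0 : ∀ x, 0 ≤ f x) (hf1 : ∀ x, f x ≤ 1) (φ : C(X, ℝ)) :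
    Integrable (fun x => f x * φ (b x)) σ := by
  refine Integrable.of_bound (hf.mul (φ.continuous.measurable.comp hb)).aestronglyMeasurable
    ‖φ‖ (Eventually.of_forall fun x => ?_)
  rw [norm_mul, Real.norm_eq_abs, abs_of_nonneg (hf0 x)]
  calc f x * ‖φ (b x)‖ ≤ 1 * ‖φ‖ :=
        mul_le_mul (hf1 x) (φ.norm_coe_le_norm _) (norm_nonneg _) zero_le_one
    _ = ‖φ‖ := one_mul _

theorem abs_int_dens_le (σ : Measure S) [IsProbabilityMeasure σ] (b : S → X)
    (f : S → ℝ) (hf0 : ∀ x, 0 ≤ f x) (hf1 : ∀ x, f x ≤ 1)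
    (φ : C(X, ℝ)) : |∫ x, f x * φ (b x) ∂σ| ≤ ‖φ‖ := by
  rw [← Real.norm_eq_abs]
  have h := norm_integral_le_of_norm_le_const (μ := σ) (f := fun x => f x * φ (b x)) (C := ‖φ‖)
    (Eventually.of_forall fun x => by
      rw [norm_mul, Real.norm_eq_abs, abs_of_nonneg (hf0 x)]
      calc f x * ‖φ (b x)‖ ≤ 1 * ‖φ‖ :=
            mul_le_mul (hf1 x) (φ.norm_coe_le_norm _) (norm_nonneg _) zero_le_one
        _ = ‖φ‖ := one_mul _)
  simpa using h

/-- The measure of a positive functional on `C(X)`. -/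
theorem exists_measure (L : C(X, ℝ) → ℝ) (hadd : ∀ φ ψ, L (φ + ψ) = L φ + L ψ)
    (hsmul : ∀ (c : ℝ) φ, L (c • φ) = c * L φ) (hpos : ∀ φ : C(X, ℝ), 0 ≤ φ → 0 ≤ L φ) :
    ∃ ν : Measure X, IsFiniteMeasure ν ∧ ∀ φ : C(X, ℝ), ∫ x, φ x ∂ν = L φ := by
  let Λ₀ : C_c(X, ℝ) →ₗ[ℝ] ℝ :=
    { toFun := fun g => L (g : C(X, ℝ))
      map_add' := fun g g' => hadd _ _
      map_smul' := fun c g => hsmul _ _ }
  let Λ : C_c(X, ℝ) →ₚ[ℝ] ℝ := PositiveLinearMap.mk₀ Λ₀ (fun g hg => hpos _ hg)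
  refine ⟨RealRMK.rieszMeasure Λ, inferInstance, fun φ => ?_⟩
  exact RealRMK.integral_rieszMeasure Λ ⟨φ, HasCompactSupport.of_compactSpace _⟩

/-- The limit density. -/
theorem dens (μX : Measure X) [IsProbabilityMeasure μX] (σ : Measure S) [IsProbabilityMeasure σ]
    (U : Ultrafilter ℕ) (b : ℕ → S → X) (hb : ∀ n, Measurable (b n))
    (hbt : ∀ φ : C(X, ℝ), Tendsto (fun n => ∫ x, φ (b n x) ∂σ) U (𝓝 (∫ x, φ x ∂μX)))
    (f : ℕ → S → ℝ) (hf : ∀ n, Measurable (f n)) (hf0 : ∀ n x, 0 ≤ f n x)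
    (hf1 : ∀ n x, f n x ≤ 1) :
    ∃ F : X → ℝ, Measurable F ∧ (∀ x, 0 ≤ F x) ∧ (∀ x, F x ≤ 1) ∧
      ∀ φ : C(X, ℝ), Tendsto (fun n => ∫ x, f n x * φ (b n x) ∂σ) U (𝓝 (∫ x, F x * φ x ∂μX)) := by
  classical
  let _ : MetricSpace X := TopologicalSpace.metrizableSpaceMetric X
  have hint : ∀ n (φ : C(X, ℝ)), Integrable (fun x => f n x * φ (b n x)) σ := fun n φ =>
    integrable_dens σ (b n) (hb n) (f n) (hf n) (hf0 n) (hf1 n) φ
  have hint1 : ∀ n (φ : C(X, ℝ)), Integrable (fun x => φ (b n x)) σ := by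
    intro n φ
    have h := integrable_dens σ (b n) (hb n) (fun _ => (1 : ℝ)) measurable_const
      (fun _ => zero_le_one) (fun _ => le_rfl) φ
    simpa using h
  have hex : ∀ φ : C(X, ℝ), ∃ l : ℝ, Tendsto (fun n => ∫ x, f n x * φ (b n x) ∂σ) U (𝓝 l) :=
    fun φ => exists_ulim U _ ‖φ‖ fun n => abs_int_dens_le σ (b n) (f n) (hf0 n) (hf1 n) φ
  choose L hL using hex
  have hLadd : ∀ φ ψ, L (φ + ψ) = L φ + L ψ := by
    intro φ ψ
    refine tendsto_nhds_unique (hL (φ + ψ)) ?_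
    have h := (hL φ).add (hL ψ)
    refine h.congr fun n => ?_
    rw [← integral_add (hint n φ) (hint n ψ)]
    refine integral_congr_ae (Eventually.of_forall fun x => ?_)
    show f n x * φ (b n x) + f n x * ψ (b n x) = f n x * (φ (b n x) + ψ (b n x))
    ring
  have hLsmul : ∀ (c : ℝ) φ, L (c • φ) = c * L φ := by
    intro c φ
    refine tendsto_nhds_unique (hL (c • φ)) ?_
    have h := (hL φ).const_mul c
    refine h.congr fun n => ?_
    rw [← integral_const_mul]
    refine integral_congr_ae (Eventually.of_forall fun x => ?_)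
    show c * (f n x * φ (b n x)) = f n x * (c * φ (b n x))
    ring
  have hLpos : ∀ φ : C(X, ℝ), 0 ≤ φ → 0 ≤ L φ := by
    intro φ hφ
    refine ge_of_tendsto' (hL φ) fun n => ?_
    refine integral_nonneg fun x => ?_
    exact mul_nonneg (hf0 n x) (hφ _)
  have hLle : ∀ φ : C(X, ℝ), 0 ≤ φ → L φ ≤ ∫ x, φ x ∂μX := by
    intro φ hφ
    refine le_of_tendsto_of_tendsto' (hL φ) (hbt φ) fun n => ?_
    refine integral_mono (hint n φ) (hint1 n φ) fun x => ?_
    exact mul_le_of_le_one_left (hφ _) (hf1 n x)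
  obtain ⟨ν, hνf, hν⟩ := exists_measure L hLadd hLsmul hLpos
  have hφi : ∀ φ : C(X, ℝ), Integrable (fun x => φ x) μX := by
    intro φ
    exact Integrable.of_bound φ.continuous.measurable.aestronglyMeasurable ‖φ‖
      (Eventually.of_forall fun x => φ.norm_coe_le_norm x)
  obtain ⟨ν', hνf', hν'⟩ := exists_measure (X := X) (fun φ => ∫ x, φ x ∂μX - L φ)
    (by
      intro φ ψ
      have : ∫ x, (φ + ψ) x ∂μX = ∫ x, φ x ∂μX + ∫ x, ψ x ∂μX := integral_add (hφi φ) (hφi ψ)
      rw [this, hLadd]; ring)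
    (by
      intro c φ
      have : ∫ x, (c • φ) x ∂μX = c * ∫ x, φ x ∂μX := integral_const_mul c _
      rw [this, hLsmul]; ring)
    (by
      intro φ hφ
      have := hLle φ hφ
      linarith)
  have hsum : ν + ν' = μX := by
    refine Measure.ext_of_integral_eq_on_compactlySupported fun φ => ?_
    have h1 : Integrable (fun x => φ x) ν :=
      Integrable.of_bound φ.continuous.measurable.aestronglyMeasurable ‖(φ : C(X, ℝ))‖
        (Eventually.of_forall fun x => (φ : C(X, ℝ)).norm_coe_le_norm x)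
    have h2 : Integrable (fun x => φ x) ν' :=
      Integrable.of_bound φ.continuous.measurable.aestronglyMeasurable ‖(φ : C(X, ℝ))‖
        (Eventually.of_forall fun x => (φ : C(X, ℝ)).norm_coe_le_norm x)
    rw [integral_add_measure h1 h2]
    have h3 := hν (φ : C(X, ℝ))
    have h4 := hν' (φ : C(X, ℝ))
    have h5 : ∫ x, φ x ∂ν = L (φ : C(X, ℝ)) := h3
    have h6 : ∫ x, φ x ∂ν' = ∫ x, φ x ∂μX - L (φ : C(X, ℝ)) := h4
    rw [h5, h6]; ring
  have hle : ν ≤ μX := by
    rw [← hsum]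
    exact Measure.le_add_right le_rfl
  have hac : ν ≪ μX := Measure.absolutelyContinuous_of_le hle
  have hone : ν.rnDeriv μX ≤ᵐ[μX] 1 := Measure.rnDeriv_le_one_of_le hle
  refine ⟨fun x => min 1 (ν.rnDeriv μX x).toReal, ?_, ?_, ?_, ?_⟩
  · exact measurable_const.min (Measure.measurable_rnDeriv ν μX).ennreal_toReal
  · intro x
    exact le_min zero_le_one ENNReal.toReal_nonneg
  · intro x
    exact min_le_left _ _
  · intro φ
    have e : ∫ x, min 1 (ν.rnDeriv μX x).toReal * φ x ∂μX = L φ := by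
      rw [← hν φ, ← integral_rnDeriv_smul hac]
      refine integral_congr_ae ?_
      filter_upwards [hone] with x hx
      have h1 : (ν.rnDeriv μX x).toReal ≤ 1 := by
        have := ENNReal.toReal_mono ENNReal.one_ne_top hx
        simpa using this
      rw [min_eq_right h1, smul_eq_mul]
    rw [e]
    exact hL φ

end

end SPH
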