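import Pool.Agent.SPH.Lat

/-! Project SPH (MP_f7e9f1_co), helper40: the circle. -/

open MeasureTheory Set Metric
open scoped ENNReal NNReal Topology

noncomputable section
namespace SPH

theorem sq_add_sq_sph1 (x : Sph 1) : (x : E 1) 0 ^ 2 + (x : E 1) 1 ^ 2 = 1 := by
  have h : ‖(x : E 1)‖ = 1 := by simp
  have h2 := EuclideanSpace.real_norm_sq_eq (x : E 1)
  rw [h] at h2
  rw [Fin.sum_univ_two] at h2
  linarith

/-- matrices a -b; b a -/
def rotMk (a b : ℝ) (h : a ^ 2 + b ^ 2 = 1) : OG 1 :=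
  ⟨!![a, -b; b, a], by
    rw [Matrix.mem_orthogonalGroup_iff]
    ext i j
    fin_cases i <;> fin_cases j <;>
      simp [Matrix.mul_apply, Fin.sum_univ_two] <;> nlinarith [h]⟩

/-- the rotation of the circle taking x to y -/
def rotTo (x y : Sph 1) : OG 1 :=
  rotMk ((x : E 1) 0 * (y : E 1) 0 + (x : E 1) 1 * (y : E 1) 1)
    ((x : E 1) 0 * (y : E 1) 1 - (x : E 1) 1 * (y : E 1) 0) (by
    have h1 := sq_add_sq_sph1 x
    have h2 := sq_add_sq_sph1 y
    have : ((x : E 1) 0 * (y : E 1) 0 + (x : E 1) 1 * (y : E 1) 1) ^ 2 +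
      ((x : E 1) 0 * (y : E 1) 1 - (x : E 1) 1 * (y : E 1) 0) ^ 2 =
      ((x : E 1) 0 ^ 2 + (x : E 1) 1 ^ 2) * ((y : E 1) 0 ^ 2 + (y : E 1) 1 ^ 2) := by ring
    rw [this, h1, h2, mul_one])

/-- the reflection of the circle fixing x -/
def refl1 (x : Sph 1) : OG 1 :=
  ⟨!![(x : E 1) 0 ^ 2 - (x : E 1) 1 ^ 2, 2 * (x : E 1) 0 * (x : E 1) 1;
      2 * (x : E 1) 0 * (x : E 1) 1, (x : E 1) 1 ^ 2 - (x : E 1) 0 ^ 2], by
    have h1 := sq_add_sq_sph1 x
    have h2 : ((x : E 1) 0 ^ 2 + (x : E 1) 1 ^ 2) ^ 2 = 1 := by rw [h1]; norm_num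
    rw [Matrix.mem_orthogonalGroup_iff]
    ext i j
    fin_cases i <;> fin_cases j <;>
      simp [Matrix.mul_apply, Fin.sum_univ_two] <;> nlinarith [h2]⟩

theorem act_apply1 (T : OG 1) (x : E 1) (i : Fin 2) :
    act T x i = (T : Matrix (Fin 2) (Fin 2) ℝ) i 0 * x 0 + (T : Matrix (Fin 2) (Fin 2) ℝ) i 1 * x 1 := by
  rw [act_apply, Fin.sum_univ_two]

theorem refl1_smul (x : Sph 1) : refl1 x • x = x := by
  have h1 := sq_add_sq_sph1 x
  apply Subtype.ext
  ext i
  rw [coe_smul_sph, act_apply1]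
  fin_cases i
  · show ((x : E 1) 0 ^ 2 - (x : E 1) 1 ^ 2) * (x : E 1) 0 + (2 * (x : E 1) 0 * (x : E 1) 1) * (x : E 1) 1 =
      (x : E 1) 0
    linear_combination (x : E 1) 0 * h1
  · show (2 * (x : E 1) 0 * (x : E 1) 1) * (x : E 1) 0 + ((x : E 1) 1 ^ 2 - (x : E 1) 0 ^ 2) * (x : E 1) 1 =
      (x : E 1) 1
    linear_combination (x : E 1) 1 * h1

theorem refl1_mul_self (x : Sph 1) : refl1 x * refl1 x = 1 := by
  have h1 := sq_add_sq_sph1 x
  have h2 : ((x : E 1) 0 ^ 2 + (x : E 1) 1 ^ 2) ^ 2 = 1 := by rw [h1]; norm_num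
  apply Subtype.ext
  rw [Submonoid.coe_mul]
  show !![(x : E 1) 0 ^ 2 - (x : E 1) 1 ^ 2, 2 * (x : E 1) 0 * (x : E 1) 1;
      2 * (x : E 1) 0 * (x : E 1) 1, (x : E 1) 1 ^ 2 - (x : E 1) 0 ^ 2] *
      !![(x : E 1) 0 ^ 2 - (x : E 1) 1 ^ 2, 2 * (x : E 1) 0 * (x : E 1) 1;
      2 * (x : E 1) 0 * (x : E 1) 1, (x : E 1) 1 ^ 2 - (x : E 1) 0 ^ 2] = (1 : Matrix (Fin 2) (Fin 2) ℝ)
  ext i j
  fin_cases i <;> fin_cases j <;>
    simp [Matrix.mul_apply, Fin.sum_univ_two] <;> nlinarith [h2]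

/-- the determinant -/
def det1 (T : OG 1) : ℝ := (T : Matrix (Fin 2) (Fin 2) ℝ).det

theorem det1_mul (S T : OG 1) : det1 (S * T) = det1 S * det1 T := by
  unfold det1
  rw [Submonoid.coe_mul]
  exact Matrix.det_mul _ _

theorem det1_refl (x : Sph 1) : det1 (refl1 x) = -1 := by
  have h1 := sq_add_sq_sph1 x
  have h2 : ((x : E 1) 0 ^ 2 + (x : E 1) 1 ^ 2) ^ 2 = 1 := by rw [h1]; norm_num
  unfold det1
  show (!![(x : E 1) 0 ^ 2 - (x : E 1) 1 ^ 2, 2 * (x : E 1) 0 * (x : E 1) 1;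
      2 * (x : E 1) 0 * (x : E 1) 1, (x : E 1) 1 ^ 2 - (x : E 1) 0 ^ 2] : Matrix (Fin 2) (Fin 2) ℝ).det = -1
  rw [Matrix.det_fin_two_of]
  linear_combination -h2

theorem det1_cases (T : OG 1) : det1 T = 1 ∨ det1 T = -1 := by
  have h : (T : Matrix (Fin 2) (Fin 2) ℝ) * (T : Matrix (Fin 2) (Fin 2) ℝ).transpose = 1 :=
    (Matrix.mem_orthogonalGroup_iff (Fin 2) ℝ).mp T.2
  have h2 := congrArg Matrix.det h
  rw [Matrix.det_mul, Matrix.det_transpose, Matrix.det_one] at h2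
  have h3 : (det1 T - 1) * (det1 T + 1) = 0 := by
    unfold det1
    linear_combination h2
  rcases mul_eq_zero.mp h3 with h4 | h4
  · left; linarith
  · right; linarith

theorem eq_rotTo (x : Sph 1) (T : OG 1) (hT : det1 T = 1) : rotTo x (T • x) = T := by
  have h : (T : Matrix (Fin 2) (Fin 2) ℝ).transpose * (T : Matrix (Fin 2) (Fin 2) ℝ) = 1 :=
    (Matrix.mem_orthogonalGroup_iff' (Fin 2) ℝ).mp T.2
  set M : Matrix (Fin 2) (Fin 2) ℝ := (T : Matrix (Fin 2) (Fin 2) ℝ) with hM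
  have h00 : M 0 0 * M 0 0 + M 1 0 * M 1 0 = 1 :=
    (Fin.sum_univ_two (fun j => M j 0 * M j 0)).symm.trans (congrFun (congrFun h 0) 0)
  have h11 : M 0 1 * M 0 1 + M 1 1 * M 1 1 = 1 :=
    (Fin.sum_univ_two (fun j => M j 1 * M j 1)).symm.trans (congrFun (congrFun h 1) 1)
  have hd : M 0 0 * M 1 1 - M 0 1 * M 1 0 = 1 := by
    rw [← Matrix.det_fin_two]; exact hT
  have hz : (M 1 1 - M 0 0) ^ 2 + (M 0 1 + M 1 0) ^ 2 = 0 := by
    linear_combination h00 + h11 - 2 * hd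
  have ha : M 1 1 = M 0 0 := by
    have : (M 1 1 - M 0 0) ^ 2 = 0 := by
      nlinarith [sq_nonneg (M 1 1 - M 0 0), sq_nonneg (M 0 1 + M 1 0)]
    have := pow_eq_zero_iff (two_ne_zero) |>.mp this
    linarith
  have hb : M 0 1 = -M 1 0 := by
    have : (M 0 1 + M 1 0) ^ 2 = 0 := by
      nlinarith [sq_nonneg (M 1 1 - M 0 0), sq_nonneg (M 0 1 + M 1 0)]
    have := pow_eq_zero_iff (two_ne_zero) |>.mp this
    linarith
  have h1 := sq_add_sq_sph1 x
  have e0 : ((T • x : Sph 1) : E 1) 0 = M 0 0 * (x : E 1) 0 + M 0 1 * (x : E 1) 1 := by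
    rw [coe_smul_sph, act_apply1]
  have e1 : ((T • x : Sph 1) : E 1) 1 = M 1 0 * (x : E 1) 0 + M 1 1 * (x : E 1) 1 := by
    rw [coe_smul_sph, act_apply1]
  have k1 : (x : E 1) 0 * ((T • x : Sph 1) : E 1) 0 + (x : E 1) 1 * ((T • x : Sph 1) : E 1) 1 = M 0 0 := by
    rw [e0, e1, ha, hb]
    linear_combination M 0 0 * h1
  have k2 : (x : E 1) 0 * ((T • x : Sph 1) : E 1) 1 - (x : E 1) 1 * ((T • x : Sph 1) : E 1) 0 = M 1 0 := by
    rw [e0, e1, ha, hb]
    linear_combination M 1 0 * h1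
  apply Subtype.ext
  show !![(x : E 1) 0 * ((T • x : Sph 1) : E 1) 0 + (x : E 1) 1 * ((T • x : Sph 1) : E 1) 1,
      -((x : E 1) 0 * ((T • x : Sph 1) : E 1) 1 - (x : E 1) 1 * ((T • x : Sph 1) : E 1) 0);
      (x : E 1) 0 * ((T • x : Sph 1) : E 1) 1 - (x : E 1) 1 * ((T • x : Sph 1) : E 1) 0,
      (x : E 1) 0 * ((T • x : Sph 1) : E 1) 0 + (x : E 1) 1 * ((T • x : Sph 1) : E 1) 1] = M
  rw [k1, k2]
  ext i j
  fin_cases i <;> fin_cases j
  · rfl
  · show -M 1 0 = M 0 1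
    rw [hb]
  · rfl
  · show M 0 0 = M 1 1
    rw [ha]

theorem rotTo_smul (x y : Sph 1) : rotTo x y • x = y := by
  have h1 := sq_add_sq_sph1 x
  apply Subtype.ext
  ext i
  rw [coe_smul_sph, act_apply1]
  fin_cases i
  · show ((x : E 1) 0 * (y : E 1) 0 + (x : E 1) 1 * (y : E 1) 1) * (x : E 1) 0 +
      -((x : E 1) 0 * (y : E 1) 1 - (x : E 1) 1 * (y : E 1) 0) * (x : E 1) 1 = (y : E 1) 0
    linear_combination (y : E 1) 0 * h1
  · show ((x : E 1) 0 * (y : E 1) 1 - (x : E 1) 1 * (y : E 1) 0) * (x : E 1) 0 +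
      ((x : E 1) 0 * (y : E 1) 0 + (x : E 1) 1 * (y : E 1) 1) * (x : E 1) 1 = (y : E 1) 1
    linear_combination (y : E 1) 1 * h1

theorem continuous_coord1 (i : Fin 2) : Continuous fun y : Sph 1 => (y : E 1) i :=
  (EuclideanSpace.proj (𝕜 := ℝ) (ι := Fin 2) i).continuous.comp continuous_subtype_val

theorem continuous_rotTo (x : Sph 1) : Continuous (rotTo x) := by
  have h0 := continuous_coord1 0
  have h1 := continuous_coord1 1
  refine Continuous.subtype_mk ?_ _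
  refine continuous_pi fun i => continuous_pi fun j => ?_
  fin_cases i <;> fin_cases j
  · show Continuous fun y : Sph 1 => (x : E 1) 0 * (y : E 1) 0 + (x : E 1) 1 * (y : E 1) 1
    fun_prop
  · show Continuous fun y : Sph 1 => -((x : E 1) 0 * (y : E 1) 1 - (x : E 1) 1 * (y : E 1) 0)
    fun_prop
  · show Continuous fun y : Sph 1 => (x : E 1) 0 * (y : E 1) 1 - (x : E 1) 1 * (y : E 1) 0
    fun_prop
  · show Continuous fun y : Sph 1 => (x : E 1) 0 * (y : E 1) 0 + (x : E 1) 1 * (y : E 1) 1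
    fun_prop

theorem continuous_det1 : Continuous det1 := by
  unfold det1
  have h : Continuous fun T : OG 1 => (T : Matrix (Fin 2) (Fin 2) ℝ) := continuous_subtype_val
  exact h.matrix_det

/-- quantitative removal on the circle -/
theorem dim_one_raw (P : Finset (Sph 1)) (hP : P.Nonempty) (A : Set (Sph 1)) (hA : MeasurableSet A) :
    ∃ D : Set (Sph 1), D ⊆ A ∧ MeasurableSet D ∧
      sig 1 D ≤ 2 * mu 1 {T : OG 1 | ∀ v ∈ P, T • v ∈ A} ∧
      ∀ T : OG 1, ¬ ∀ v ∈ P, T • v ∈ A \ D := by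
  obtain ⟨x, hx⟩ := hP
  set G : Set (OG 1) := {T : OG 1 | ∀ v ∈ P, T • v ∈ A} with hG
  have hsm : ∀ y : Sph 1, Measurable fun T : OG 1 => T • y := fun y =>
    (continuous_id.smul continuous_const).measurable
  have hGm : MeasurableSet G := by
    have : G = ⋂ v ∈ P, (fun T : OG 1 => T • v) ⁻¹' A := by
      ext T
      simp [hG]
    rw [this]
    exact Finset.measurableSet_biInter P fun v _ => hsm v hA
  set s : OG 1 := refl1 x with hs
  have hss : s * s = 1 := refl1_mul_self x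
  have hsx : s • x = x := refl1_smul x
  have hds : det1 s = -1 := det1_refl x
  have hRm : Measurable (rotTo x) := (continuous_rotTo x).measurable
  have hRm2 : Measurable fun y => rotTo x y * s := ((continuous_rotTo x).mul continuous_const).measurable
  set Ep : Set (Sph 1) := rotTo x ⁻¹' G with hEp
  set Em : Set (Sph 1) := (fun y => rotTo x y * s) ⁻¹' G with hEm
  have hdm : MeasurableSet {T : OG 1 | det1 T = 1} :=
    measurableSet_eq_fun continuous_det1.measurable measurable_const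
  have hdm' : MeasurableSet {T : OG 1 | det1 T = -1} :=
    measurableSet_eq_fun continuous_det1.measurable measurable_const
  have hmul : MeasurePreserving (fun T : OG 1 => T * s) (mu 1) (mu 1) :=
    measurePreserving_mul_right (mu 1) s
  have hdet2 : ∀ T : OG 1, det1 T = -1 → det1 (T * s) = 1 := by
    intro T hT
    rw [det1_mul, hT, hds]; norm_num
  have hfix : ∀ T : OG 1, (T * s) • x = T • x := by
    intro T
    rw [mul_smul, hsx]
  have hrot2 : ∀ T : OG 1, det1 T = -1 → rotTo x (T • x) = T * s := by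
    intro T hT
    rw [← hfix T]
    exact eq_rotTo x _ (hdet2 T hT)
  -- first set
  have m1 : sig 1 Ep ≤ mu 1 (G ∩ {T | det1 T = 1}) + mu 1 (G ∩ {T | det1 T = 1}) := by
    rw [← map_smul_mu x, Measure.map_apply (hsm x) (hRm hGm)]
    have hsub : (fun T : OG 1 => T • x) ⁻¹' Ep ⊆ (G ∩ {T | det1 T = 1}) ∪
        (fun T : OG 1 => T * s) ⁻¹' (G ∩ {T | det1 T = 1}) := by
      intro T hT
      have hT' : rotTo x (T • x) ∈ G := hT
      rcases det1_cases T with h | h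
      · left
        rw [eq_rotTo x T h] at hT'
        exact ⟨hT', h⟩
      · right
        rw [hrot2 T h] at hT'
        exact ⟨hT', hdet2 T h⟩
    refine (measure_mono hsub).trans ((measure_union_le _ _).trans ?_)
    rw [hmul.measure_preimage (hGm.inter hdm).nullMeasurableSet]
  have m2 : sig 1 Em ≤ mu 1 (G ∩ {T | det1 T = -1}) + mu 1 (G ∩ {T | det1 T = -1}) := by
    rw [← map_smul_mu x, Measure.map_apply (hsm x) (hRm2 hGm)]
    have hsub : (fun T : OG 1 => T • x) ⁻¹' Em ⊆ (G ∩ {T | det1 T = -1}) ∪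
        (fun T : OG 1 => T * s) ⁻¹' (G ∩ {T | det1 T = -1}) := by
      intro T hT
      have hT' : rotTo x (T • x) * s ∈ G := hT
      rcases det1_cases T with h | h
      · right
        rw [eq_rotTo x T h] at hT'
        refine ⟨hT', ?_⟩
        show det1 (T * s) = -1
        rw [det1_mul, h, hds]; norm_num
      · left
        rw [hrot2 T h, mul_assoc, hss, mul_one] at hT'
        exact ⟨hT', h⟩
    refine (measure_mono hsub).trans ((measure_union_le _ _).trans ?_)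
    rw [hmul.measure_preimage (hGm.inter hdm').nullMeasurableSet]
  have m3 : mu 1 (G ∩ {T | det1 T = 1}) + mu 1 (G ∩ {T | det1 T = -1}) ≤ mu 1 G := by
    rw [← measure_union _ (hGm.inter hdm')]
    · exact measure_mono (by intro T hT; rcases hT with h | h <;> exact h.1)
    · rw [Set.disjoint_left]
      intro T h1 h2
      have e1 : det1 T = 1 := h1.2
      have e2 : det1 T = -1 := h2.2
      rw [e1] at e2
      norm_num at e2
  refine ⟨Ep ∪ Em, ?_, (hRm hGm).union (hRm2 hGm), ?_, ?_⟩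
  · intro y hy
    rcases hy with hy | hy
    · have h : rotTo x y • x ∈ A := hy x hx
      rwa [rotTo_smul] at h
    · have h : (rotTo x y * s) • x ∈ A := hy x hx
      rwa [hfix, rotTo_smul] at h
  · calc sig 1 (Ep ∪ Em) ≤ sig 1 Ep + sig 1 Em := measure_union_le _ _
      _ ≤ (mu 1 (G ∩ {T | det1 T = 1}) + mu 1 (G ∩ {T | det1 T = 1})) +
          (mu 1 (G ∩ {T | det1 T = -1}) + mu 1 (G ∩ {T | det1 T = -1})) := add_le_add m1 m2
      _ = 2 * (mu 1 (G ∩ {T | det1 T = 1}) + mu 1 (G ∩ {T | det1 T = -1})) := by ring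
      _ ≤ 2 * mu 1 G := by gcongr
  · intro T hT
    have hTG : T ∈ G := fun v hv => (hT v hv).1
    have hTx := (hT x hx).2
    apply hTx
    rcases det1_cases T with h | h
    · left
      show rotTo x (T • x) ∈ G
      rw [eq_rotTo x T h]
      exact hTG
    · right
      show rotTo x (T • x) * s ∈ G
      rw [hrot2 T h, mul_assoc, hss, mul_one]
      exact hTG

end SPH
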