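import Pool.Agent.SPH.GhDefs

/-! Project SPH (MP_f7e9f1_co): density of copies, avoiding sets, the removal property. -/

open MeasureTheory Set Metric Filter
open scoped ENNReal NNReal Topology

noncomputable section
namespace SPH

/-- the density of copies of P in A -/
def density {d : ℕ} (P : Finset (Sph d)) (A : Set (Sph d)) : ℝ :=
  ∫ T : OG d, ∏ v ∈ P, A.indicator (fun _ => (1 : ℝ)) (T • v) ∂(mu d)

/-- A avoids P: no copy T P, T in O(d+1), is contained in A -/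
def Avoids {d : ℕ} (P : Finset (Sph d)) (A : Set (Sph d)) : Prop :=
  ∀ T : OG d, ¬ ∀ v ∈ P, T • v ∈ A

/-- the removal property -/
def HasRemoval {d : ℕ} (P : Finset (Sph d)) : Prop :=
  ∃ f : ℝ → ℝ, (∀ ε, 0 < ε → 0 ≤ f ε) ∧ Tendsto f (𝓝[>] 0) (𝓝 0) ∧
    ∀ ε, 0 < ε → ∀ A : Set (Sph d), MeasurableSet A → density P A ≤ ε →
      ∃ D : Set (Sph d), D ⊆ A ∧ MeasurableSet D ∧ sig d D ≤ ENNReal.ofReal (f ε) ∧ Avoids P (A \ D)

theorem density_eq {d : ℕ} (P : Finset (Sph d)) {A : Set (Sph d)} (hA : MeasurableSet A) :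
    density P A = (mu d).real {T | ∀ v ∈ P, T • v ∈ A} := by
  have hset : MeasurableSet {T : OG d | ∀ v ∈ P, T • v ∈ A} := by
    have : {T : OG d | ∀ v ∈ P, T • v ∈ A} = ⋂ v ∈ P, (fun T : OG d => T • v) ⁻¹' A := by
      ext T
      simp
    rw [this]
    refine Finset.measurableSet_biInter _ fun v _ => ?_
    have hc : Continuous fun T : OG d => T • v := continuous_id.smul continuous_const
    exact hc.measurable hA
  have h1 : ∀ T : OG d, ∏ v ∈ P, A.indicator (fun _ => (1 : ℝ)) (T • v) =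
      ({T : OG d | ∀ v ∈ P, T • v ∈ A}).indicator (fun _ => (1 : ℝ)) T := by
    intro T
    by_cases h : ∀ v ∈ P, T • v ∈ A
    · rw [Set.indicator_of_mem (show T ∈ {T : OG d | ∀ v ∈ P, T • v ∈ A} from h)]
      exact Finset.prod_eq_one fun v hv => Set.indicator_of_mem (h v hv) _
    · rw [Set.indicator_of_notMem (show T ∉ {T : OG d | ∀ v ∈ P, T • v ∈ A} from h)]
      push Not at h
      obtain ⟨v, hv, hvA⟩ := h
      exact Finset.prod_eq_zero hv (Set.indicator_of_notMem hvA _)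
  unfold density
  simp_rw [h1]
  rw [integral_indicator hset]
  simp

/-- From the epsilon-eta form to the function form. -/
theorem hasRemoval_of_eps {d : ℕ} (P : Finset (Sph d)) (hP : P.Nonempty)
    (h : ∀ η : ℝ, 0 < η → ∃ ε : ℝ, 0 < ε ∧ ∀ A : Set (Sph d), MeasurableSet A → density P A ≤ ε →
      ∃ D : Set (Sph d), D ⊆ A ∧ MeasurableSet D ∧ sig d D ≤ ENNReal.ofReal η ∧ Avoids P (A \ D)) :
    HasRemoval P := by
  classical
  -- the admissible eta for a given epsilon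
  let G : ℝ → Set ℝ := fun ε => {η | 0 ≤ η ∧ ∀ A : Set (Sph d), MeasurableSet A → density P A ≤ ε →
      ∃ D : Set (Sph d), D ⊆ A ∧ MeasurableSet D ∧ sig d D ≤ ENNReal.ofReal η ∧ Avoids P (A \ D)}
  have hne : ∀ ε, (1 : ℝ) ∈ G ε := by
    intro ε
    refine ⟨zero_le_one, fun A hA _ => ⟨A, subset_rfl, hA, ?_, ?_⟩⟩
    · rw [ENNReal.ofReal_one]
      exact prob_le_one
    · intro T hT
      obtain ⟨v, hv⟩ := hP
      have := hT v hv
      exact this.2 this.1
  have hbdd : ∀ ε, BddBelow (G ε) := fun ε => ⟨0, fun η hη => hη.1⟩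
  have hanti : ∀ ε ε' : ℝ, ε ≤ ε' → G ε' ⊆ G ε := by
    intro ε ε' hle η hη
    exact ⟨hη.1, fun A hA hd => hη.2 A hA (hd.trans hle)⟩
  refine ⟨fun ε => sInf (G ε) + ε, ?_, ?_, ?_⟩
  · intro ε hε
    have : 0 ≤ sInf (G ε) := Real.sInf_nonneg fun η hη => hη.1
    show 0 ≤ sInf (G ε) + ε
    linarith
  · rw [Metric.tendsto_nhdsWithin_nhds]
    intro δ hδ
    obtain ⟨ε0, hε0, h0⟩ := h (δ / 4) (by positivity)
    refine ⟨min ε0 (δ / 4), by positivity, fun {ε} hε hd => ?_⟩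
    have hε' : 0 < ε := hε
    rw [Real.dist_eq, sub_zero, abs_of_pos hε'] at hd
    have h1 : δ / 4 ∈ G ε := by
      refine hanti ε ε0 (hd.le.trans (min_le_left _ _)) ⟨by positivity, h0⟩
    have h2 : sInf (G ε) ≤ δ / 4 := csInf_le (hbdd ε) h1
    have h3 : 0 ≤ sInf (G ε) := Real.sInf_nonneg fun η hη => hη.1
    have h4 : ε < δ / 4 := hd.trans_le (min_le_right _ _)
    rw [Real.dist_eq, sub_zero, abs_of_nonneg (by linarith)]
    linarith
  · intro ε hε A hA hd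
    obtain ⟨η, hη, hlt⟩ := exists_lt_of_csInf_lt ⟨1, hne ε⟩ (show sInf (G ε) < sInf (G ε) + ε by linarith)
    obtain ⟨D, h1, h2, h3, h4⟩ := hη.2 A hA hd
    exact ⟨D, h1, h2, h3.trans (ENNReal.ofReal_le_ofReal hlt.le), h4⟩

end SPH
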