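import Pool.Agent.SPH.Dim1
import Pool.Agent.SPH.FinDefs

/-! Project SPH (MP_f7e9f1_co), helper40: the removal property on the circle. -/

open MeasureTheory Set Metric Filter
open scoped ENNReal NNReal Topology

noncomputable section
namespace SPH

theorem dim_one (P : Finset (Sph 1)) (hP : P.Nonempty) : HasRemoval P := by
  refine ⟨fun ε => 2 * ε, fun ε hε => by positivity, ?_, ?_⟩
  · have h : Tendsto (fun ε : ℝ => 2 * ε) (𝓝 0) (𝓝 (2 * 0)) :=
      (continuous_const.mul continuous_id).tendsto 0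
    rw [mul_zero] at h
    exact h.mono_left nhdsWithin_le_nhds
  · intro ε hε A hA hd
    obtain ⟨D, h1, h2, h3, h4⟩ := dim_one_raw P hP A hA
    refine ⟨D, h1, h2, h3.trans ?_, h4⟩
    rw [density_eq P hA] at hd
    rw [ENNReal.ofReal_mul (by norm_num : (0 : ℝ) ≤ 2)]
    have h5 : mu 1 {T : OG 1 | ∀ v ∈ P, T • v ∈ A} ≤ ENNReal.ofReal ε :=
      (ENNReal.le_ofReal_iff_toReal_le (measure_ne_top _ _) hε.le).2 hd
    have h6 : ENNReal.ofReal 2 = 2 := by norm_num
    rw [h6]
    gcongr

end SPH
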