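import Pool.Agent.SPH.Defs

/-! Project SPH (MP_f7e9f1_co), helper97: elementary facts on `ee` and `FT`. -/

open MeasureTheory Set Metric
open scoped ENNReal NNReal Topology

noncomputable section
namespace SPH

@[simp] theorem ee_zero : ee 0 = 1 := by simp [ee]

theorem ee_add (s t : ℝ) : ee (s + t) = ee s * ee t := by
  unfold ee
  rw [← Complex.exp_add]
  congr 1
  push_cast
  ring

@[simp] theorem norm_ee (t : ℝ) : ‖ee t‖ = 1 := by
  unfold ee
  exact Complex.norm_exp_ofReal_mul_I _

theorem conj_ee (t : ℝ) : (starRingEnd ℂ) (ee t) = ee (-t) := by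
  unfold ee
  rw [← Complex.exp_conj, map_mul, Complex.conj_ofReal, Complex.conj_I]
  congr 1
  push_cast
  ring

theorem ee_ne_zero (t : ℝ) : ee t ≠ 0 := by
  unfold ee
  exact Complex.exp_ne_zero _

theorem ee_neg (t : ℝ) : ee (-t) = (ee t)⁻¹ := by
  have h : ee t * ee (-t) = 1 := by rw [← ee_add]; simp
  exact eq_inv_of_mul_eq_one_right h

theorem continuous_ee : Continuous ee := by
  unfold ee
  fun_prop

theorem measurable_ee : Measurable ee := continuous_ee.measurable

theorem measurable_sph {d : ℕ} {g : E d → ℂ} (hg : Measurable g) :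
    Measurable fun x : Sph d => g x := hg.comp measurable_subtype_coe

theorem integrable_sph_of_le {d : ℕ} {g : E d → ℂ} (hg : Measurable g) (h1 : ∀ x, ‖g x‖ ≤ 1) :
    Integrable (fun x : Sph d => g x) (sig d) :=
  Integrable.of_bound (measurable_sph hg).aestronglyMeasurable 1
    (Filter.Eventually.of_forall fun x => h1 x)

theorem integrable_FT {d : ℕ} {g : E d → ℂ} (hg : Measurable g) (h1 : ∀ x, ‖g x‖ ≤ 1) (ξ : E d) :
    Integrable (fun x : Sph d => g x * ee (-(inner ℝ ξ (x : E d)))) (sig d) := by
  refine Integrable.of_bound (C := 1) ?_ (Filter.Eventually.of_forall fun x => ?_)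
  · refine ((measurable_sph hg).mul (measurable_ee.comp ?_)).aestronglyMeasurable
    have : Continuous fun x : Sph d => -(inner ℝ ξ (x : E d)) := by fun_prop
    exact this.measurable
  · rw [norm_mul, norm_ee, mul_one]
    exact h1 x

theorem norm_FT_le {d : ℕ} {g : E d → ℂ} (h1 : ∀ x, ‖g x‖ ≤ 1) (ξ : E d) : ‖FT g ξ‖ ≤ 1 := by
  unfold FT
  have h := norm_integral_le_of_norm_le_const (μ := sig d) (C := 1)
    (f := fun x : Sph d => g x * ee (-(inner ℝ ξ (x : E d))))
    (Filter.Eventually.of_forall fun x => by rw [norm_mul, norm_ee, mul_one]; exact h1 x)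
  simpa using h

theorem continuous_FT {d : ℕ} {g : E d → ℂ} (hg : Measurable g) (h1 : ∀ x, ‖g x‖ ≤ 1) :
    Continuous (FT g) := by
  refine continuous_of_dominated (bound := fun _ => (1 : ℝ)) ?_ ?_ (integrable_const _) ?_
  · intro ξ
    exact (integrable_FT hg h1 ξ).aestronglyMeasurable
  · intro ξ
    exact Filter.Eventually.of_forall fun x => by rw [norm_mul, norm_ee, mul_one]; exact h1 x
  · refine Filter.Eventually.of_forall fun x => ?_
    refine continuous_const.mul (continuous_ee.comp ?_)
    fun_prop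

end SPH
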