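import Pool.Agent.SPH.Zero
import Pool.Agent.SPH.Dens

/-!
The end of the removal argument (section 2.5), abstract form.
-/

set_option autoImplicit false

open MeasureTheory Topology Filter Set
open scoped ENNReal

namespace SPH

variable {Y X S G I : Type*} [Group Y] [TopologicalSpace Y] [IsTopologicalGroup Y] [CompactSpace Y]
  [SecondCountableTopology Y] [MeasurableSpace Y] [BorelSpace Y]
  [TopologicalSpace X] [CompactSpace X] [T2Space X] [SecondCountableTopology X]
  [MeasurableSpace X] [BorelSpace X] [MeasurableSpace S] [Fintype I]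

/-- Removal, given equidistribution of `b n` and the counting statement for limit densities. -/
theorem removal_end (M : Measure Y) [IsProbabilityMeasure M] [M.IsMulRightInvariant]
    [M.IsOpenPosMeasure] (μX : Measure X) [IsProbabilityMeasure μX]
    (a : I → Y → X → X) (ha : ∀ i, Continuous fun z : Y × X => a i z.1 z.2)
    (ha1 : ∀ i x, a i 1 x = x) (hmp : ∀ i g, MeasurePreserving (a i g) μX μX)
    (p : I → Y → X) (hp : ∀ i, Continuous (p i)) (hpa : ∀ i g y, p i (g * y) = a i g (p i y))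
    (σ : Measure S) [IsProbabilityMeasure σ]
    (U : Ultrafilter ℕ) (b : ℕ → S → X) (hb : ∀ n, Measurable (b n))
    (hbt : ∀ φ : C(X, ℝ), Tendsto (fun n => ∫ x, φ (b n x) ∂σ) U (𝓝 (∫ x, φ x ∂μX)))
    (ev : I → G → S) (η : ℕ → G → Y) (hη : ∀ n i T, p i (η n T) = b n (ev i T))
    (A : ℕ → I → Set S) (hA : ∀ n i, MeasurableSet (A n i))
    (hcnt : ∀ F : I → X → ℝ, (∀ i, Measurable (F i)) → (∀ i x, 0 ≤ F i x) → (∀ i x, F i x ≤ 1) →
      (∀ i, ∀ φ : C(X, ℝ), Tendsto (fun n => ∫ x, (A n i).indicator (fun _ => (1 : ℝ)) x *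
        φ (b n x) ∂σ) U (𝓝 (∫ x, F i x * φ x ∂μX))) → ∫ y, ∏ i, F i (p i y) ∂M = 0)
    (ε : ℝ) (hε : 0 < ε) :
    ∀ᶠ n in (U : Filter ℕ), ∃ E : I → Set S, (∀ i, MeasurableSet (E i)) ∧ (∀ i, E i ⊆ A n i) ∧
      (∀ i, σ (E i) ≤ ENNReal.ofReal ε) ∧ ∀ T : G, ∃ i, ev i T ∉ A n i \ E i := by
  classical
  have h1 : ∀ i, ∃ F : X → ℝ, Measurable F ∧ (∀ x, 0 ≤ F x) ∧ (∀ x, F x ≤ 1) ∧
      ∀ φ : C(X, ℝ), Tendsto (fun n => ∫ x, (A n i).indicator (fun _ => (1 : ℝ)) x *
        φ (b n x) ∂σ) U (𝓝 (∫ x, F x * φ x ∂μX)) := by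
    intro i
    refine dens μX σ U b hb hbt (fun n => (A n i).indicator fun _ => (1 : ℝ))
      (fun n => measurable_const.indicator (hA n i)) ?_ ?_
    · intro n x
      exact Set.indicator_nonneg (fun _ _ => zero_le_one) x
    · intro n x
      exact Set.indicator_le_self' (fun _ _ => zero_le_one) x
  choose F hFm hF0 hF1 hFt using h1
  have hint := hcnt F hFm hF0 hF1 hFt
  obtain ⟨ψ, hψ1, hψ2, hψ3⟩ := zero_removal M μX a ha ha1 hmp p hp hpa F hFm hF0 hF1 hint
    (ε / 2) (by positivity)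
  have hev : ∀ i, ∀ᶠ n in (U : Filter ℕ), ∫ x, (A n i).indicator (fun _ => (1 : ℝ)) x *
      ψ i (b n x) ∂σ < ε := by
    intro i
    have h2 := hFt i (ψ i)
    refine h2.eventually_lt_const ?_
    have := hψ2 i
    linarith
  have hev' := eventually_all.2 hev
  filter_upwards [hev'] with n hn
  have hm : ∀ i, Measurable fun x => ψ i (b n x) := fun i =>
    (ψ i).continuous.measurable.comp (hb n)
  refine ⟨fun i => A n i ∩ {x | ψ i (b n x) = 1}, ?_, ?_, ?_, ?_⟩
  · intro i
    exact (hA n i).inter (measurableSet_eq_fun (hm i) measurable_const)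
  · intro i
    exact Set.inter_subset_left
  · intro i
    have hmE : MeasurableSet (A n i ∩ {x | ψ i (b n x) = 1}) :=
      (hA n i).inter (measurableSet_eq_fun (hm i) measurable_const)
    have h3 : (σ (A n i ∩ {x | ψ i (b n x) = 1})).toReal ≤
        ∫ x, (A n i).indicator (fun _ => (1 : ℝ)) x * ψ i (b n x) ∂σ := by
      have e1 : (σ (A n i ∩ {x | ψ i (b n x) = 1})).toReal =
          ∫ x, (A n i ∩ {x | ψ i (b n x) = 1}).indicator (fun _ => (1 : ℝ)) x ∂σ := by
        rw [integral_indicator hmE, integral_const, smul_eq_mul, mul_one]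
        simp [Measure.real]
      rw [e1]
      refine integral_mono ((integrable_const (1 : ℝ)).indicator hmE)
        (integrable_dens σ (b n) (hb n) _ (measurable_const.indicator (hA n i))
          (fun x => Set.indicator_nonneg (fun _ _ => zero_le_one) x)
          (fun x => Set.indicator_le_self' (fun _ _ => zero_le_one) x) (ψ i)) ?_
      intro x
      by_cases hx : x ∈ A n i ∩ {x | ψ i (b n x) = 1}
      · have hx2 : ψ i (b n x) = 1 := hx.2
        show (A n i ∩ {x | ψ i (b n x) = 1}).indicator (fun _ => (1 : ℝ)) x ≤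
          (A n i).indicator (fun _ => (1 : ℝ)) x * ψ i (b n x)
        rw [Set.indicator_of_mem hx, Set.indicator_of_mem hx.1, hx2, mul_one]
      · show (A n i ∩ {x | ψ i (b n x) = 1}).indicator (fun _ => (1 : ℝ)) x ≤
          (A n i).indicator (fun _ => (1 : ℝ)) x * ψ i (b n x)
        rw [Set.indicator_of_notMem hx]
        exact mul_nonneg (Set.indicator_nonneg (fun _ _ => zero_le_one) x) (hψ1 i _).1
    have h4 := h3.trans (hn i).le
    rw [← ENNReal.ofReal_toReal (measure_ne_top σ (A n i ∩ {x | ψ i (b n x) = 1}))]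
    exact ENNReal.ofReal_le_ofReal h4
  · intro T
    obtain ⟨i, hi⟩ := hψ3 (η n T)
    refine ⟨i, ?_⟩
    rintro ⟨hA1, hA2⟩
    apply hA2
    refine ⟨hA1, ?_⟩
    show ψ i (b n (ev i T)) = 1
    rw [← hη]
    exact hi

end SPH
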