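import Pool.Agent.SPH.Cong

/-! Project SPH (MP_f7e9f1_co), helper64: invariance of the surface measure, orbit law, polar
coordinates, latitude law, pair law. -/

open MeasureTheory Set Metric
open scoped ENNReal NNReal Topology Pointwise

noncomputable section
namespace SPH

/-! ### T as a linear isometry -/

/-- the linear isometry x mapsto T x -/
def actL {d : ℕ} (T : OG d) : E d ≃ₗᵢ[ℝ] E d where
  toFun x := act T x
  invFun x := act T⁻¹ x
  map_add' := act_add T
  map_smul' := act_smul T
  left_inv x := by
    show act T⁻¹ (act T x) = x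
    rw [← act_mul, inv_mul_cancel, act_one]
  right_inv x := by
    show act T (act T⁻¹ x) = x
    rw [← act_mul, mul_inv_cancel, act_one]
  norm_map' := norm_act T

@[simp] theorem actL_apply {d : ℕ} (T : OG d) (x : E d) : actL T x = act T x := rfl

theorem act_measurePreserving {d : ℕ} (T : OG d) :
    MeasurePreserving (act T) (volume : Measure (E d)) volume :=
  (actL T).measurePreserving

theorem continuous_act_left {d : ℕ} (T : OG d) : Continuous (act T) := (actL T).continuous

theorem continuous_act_right {d : ℕ} (x : E d) : Continuous fun T : OG d => act T x :=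
  (continuous_act d).comp (continuous_id.prodMk continuous_const)

/-- invariance of the surface measure -/
theorem toSphere_inv {d : ℕ} (T : OG d) :
    Measure.map (fun x : Sph d => T • x) (volume : Measure (E d)).toSphere =
      (volume : Measure (E d)).toSphere := by
  have hm : Measurable fun x : Sph d => T • x := (continuous_const_smul T).measurable
  ext s hs
  rw [Measure.map_apply hm hs, Measure.toSphere_apply' _ (hm hs), Measure.toSphere_apply' _ hs]
  congr 1
  have hset : Ioo (0 : ℝ) 1 • ((↑) '' ((fun x : Sph d => T • x) ⁻¹' s) : Set (E d)) =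
      act T ⁻¹' (Ioo (0 : ℝ) 1 • ((↑) '' s : Set (E d))) := by
    ext x
    simp only [Set.mem_smul, Set.mem_image, Set.mem_preimage]
    constructor
    · rintro ⟨r, hr, _, ⟨y, hy, rfl⟩, rfl⟩
      exact ⟨r, hr, _, ⟨T • y, hy, rfl⟩, by rw [act_smul]; rfl⟩
    · rintro ⟨r, hr, _, ⟨y, hy, rfl⟩, h⟩
      refine ⟨r, hr, _, ⟨T⁻¹ • y, ?_, rfl⟩, ?_⟩
      · simpa using hy
      · have h2 := congrArg (act T⁻¹) h
        rw [← act_mul, inv_mul_cancel, act_one, act_smul] at h2
        exact h2
  rw [hset]
  exact MeasurePreserving.measure_preimage_equiv (f := (actL T).toMeasurableEquiv)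
    (act_measurePreserving T) _

/-- invariance of the normalised surface measure -/
theorem sig_inv {d : ℕ} (T : OG d) :
    Measure.map (fun x : Sph d => T • x) (sig d) = sig d := by
  rw [sig, Measure.map_smul, toSphere_inv]

theorem measurePreserving_sig {d : ℕ} (T : OG d) :
    MeasurePreserving (fun x : Sph d => T • x) (sig d) (sig d) :=
  ⟨(continuous_const_smul T).measurable, sig_inv T⟩

/-- transitivity on the sphere -/
theorem exists_smul_eq_sph {d : ℕ} (x y : Sph d) : ∃ T : OG d, T • x = y := by
  obtain ⟨T, hT⟩ := exists_act_of_gram (ι := Unit) (fun _ => (x : E d)) (fun _ => (y : E d))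
    (fun _ _ => by simp)
  exact ⟨T, Subtype.ext (hT ())⟩

/-- orbit law: the surface measure is the law of T x -/
theorem map_smul_mu {d : ℕ} (x : Sph d) :
    Measure.map (fun T : OG d => T • x) (mu d) = sig d := by
  have hmx : ∀ y : Sph d, Measurable fun T : OG d => T • y := fun y =>
    (continuous_id.smul continuous_const).measurable
  ext s hs
  -- independence of the base point
  have hind : ∀ y : Sph d, mu d ((fun T : OG d => T • y) ⁻¹' s) =
      mu d ((fun T : OG d => T • x) ⁻¹' s) := by
    intro y
    obtain ⟨T₀, hT₀⟩ := exists_smul_eq_sph x y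
    have h1 : (fun T : OG d => T • y) ⁻¹' s = (fun T => T * T₀) ⁻¹' ((fun T : OG d => T • x) ⁻¹' s) := by
      ext T
      simp [mul_smul, hT₀]
    rw [h1, measure_preimage_mul_right]
  rw [Measure.map_apply (hmx x) hs]
  have hF : Measurable fun p : OG d × Sph d => p.1 • p.2 :=
    (continuous_fst.smul continuous_snd).measurable
  have hs2 : MeasurableSet ((fun p : OG d × Sph d => p.1 • p.2) ⁻¹' s) := hF hs
  have h2 : ((mu d).prod (sig d)) ((fun p : OG d × Sph d => p.1 • p.2) ⁻¹' s) = sig d s := by
    rw [Measure.prod_apply hs2]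
    have : ∀ T : OG d, sig d (Prod.mk T ⁻¹' ((fun p : OG d × Sph d => p.1 • p.2) ⁻¹' s)) = sig d s := by
      intro T
      exact (measurePreserving_sig T).measure_preimage hs.nullMeasurableSet
    simp only [this]
    simp
  rw [← h2, Measure.prod_apply_symm hs2]
  have : ∀ y : Sph d, mu d ((fun T : OG d => (T, y)) ⁻¹' ((fun p : OG d × Sph d => p.1 • p.2) ⁻¹' s)) =
      mu d ((fun T : OG d => T • x) ⁻¹' s) := hind
  simp only [this]
  simp

/-- ROW SIG (a). The surface measure is invariant. -/
theorem map_smul_sig {d : ℕ} (T : OG d) : Measure.map (fun x : Sph d => T • x) (sig d) = sig d :=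
  sig_inv T

/-- ROW SIG (b). The orbit map pushes Haar to the surface measure. -/
theorem map_orbit {d : ℕ} (x : Sph d) : Measure.map (fun T : OG d => T • x) (mu d) = sig d :=
  map_smul_mu x

theorem measurable_orbit {d : ℕ} (x : Sph d) : Measurable fun T : OG d => T • x :=
  (continuous_id.smul continuous_const).measurable

theorem measurePreserving_orbit {d : ℕ} (x : Sph d) :
    MeasurePreserving (fun T : OG d => T • x) (mu d) (sig d) :=
  ⟨measurable_orbit x, map_smul_mu x⟩

/-- ROW SIG (c). Same for functions. -/
theorem integral_orbit {d : ℕ} {F : Type*} [NormedAddCommGroup F] [NormedSpace ℝ F]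
    (f : Sph d → F) (hf : AEStronglyMeasurable f (sig d)) (x : Sph d) :
    ∫ T : OG d, f (T • x) ∂(mu d) = ∫ y, f y ∂(sig d) := by
  rw [← map_smul_mu x] at hf ⊢
  exact (integral_map (measurable_orbit x).aemeasurable hf).symm

/-- the same with the lower integral -/
theorem lintegral_orbit {d : ℕ} (f : Sph d → ℝ≥0∞) (hf : Measurable f) (x : Sph d) :
    ∫⁻ T : OG d, f (T • x) ∂(mu d) = ∫⁻ y, f y ∂(sig d) :=
  (measurePreserving_orbit x).lintegral_comp hf

end SPH
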