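import Pool.Agent.SPH.GhDefs
import Pool.Agent.SPH.Lat

/-! Project SPH (MP_f7e9f1_co), row GH (helper3): facts about Gh A, Lmap, muY, aY, bmap. -/

open MeasureTheory Set Metric Filter
open scoped ENNReal NNReal Topology

noncomputable section
namespace SPH

theorem continuous_chv {A : Type*} [AddCommGroup A] (a : A) :
    Continuous fun t : Gh A => chv t a :=
  continuous_subtype_val.comp ((continuous_apply a).comp continuous_subtype_val)

theorem chv_mul {A : Type*} [AddCommGroup A] (s t : Gh A) (a : A) :
    chv (s * t) a = chv s a * chv t a := by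
  simp [chv]

/-- ROW GH (a). Haar kills non trivial characters. -/
theorem integral_chv {A : Type*} [AddCommGroup A] [Countable A] (a : A) (h : ∃ χ : Gh A, χ.1 a ≠ 1) :
    ∫ t : Gh A, chv t a ∂(hgh A) = 0 := by
  obtain ⟨χ, hχ⟩ := h
  have h1 : ∫ t : Gh A, chv (χ * t) a ∂(hgh A) = ∫ t : Gh A, chv t a ∂(hgh A) :=
    integral_mul_left_eq_self (μ := hgh A) (fun t => chv t a) χ
  have h2 : ∫ t : Gh A, chv (χ * t) a ∂(hgh A) = chv χ a * ∫ t : Gh A, chv t a ∂(hgh A) := by
    simp only [chv_mul]
    rw [integral_const_mul]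
  have h3 : chv χ a ≠ 1 := by
    intro h4
    apply hχ
    apply Subtype.ext
    exact h4
  rw [h1] at h2
  have h4 : (chv χ a - 1) * ∫ t : Gh A, chv t a ∂(hgh A) = 0 := by
    rw [sub_mul, one_mul, ← h2, sub_self]
  rcases mul_eq_zero.mp h4 with h5 | h5
  · exact absurd (sub_eq_zero.mp h5) h3
  · exact h5

/-- ROW GH (b). Characters separate points of an additive subgroup of a real vector space. -/
theorem exists_char_ne_one {V : Type*} [AddCommGroup V] [Module ℝ V] (A : AddSubgroup V) (a : A)
    (ha : a ≠ 0) : ∃ χ : Gh A, χ.1 a ≠ 1 := by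
  have hV : ∃ φ : Module.Dual ℝ V, φ (a : V) ≠ 0 := by
    by_contra hcon
    push Not at hcon
    exact ha (Subtype.ext ((Module.forall_dual_apply_eq_zero_iff ℝ (a : V)).mp hcon))
  obtain ⟨φ, hφ⟩ := hV
  refine ⟨⟨fun b => Circle.exp (Real.pi / φ (a : V) * φ (b : V)), ?_⟩, ?_⟩
  · intro b c
    show Circle.exp (Real.pi / φ (a : V) * φ ((b + c : A) : V)) = _
    rw [AddSubgroup.coe_add, map_add, mul_add, Circle.exp_add]
  · show Circle.exp (Real.pi / φ (a : V) * φ (a : V)) ≠ 1
    rw [div_mul_cancel₀ _ hφ]
    intro h
    have h2 := congrArg (fun z : Circle => (z : ℂ)) h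
    simp only [Circle.coe_exp, Circle.coe_one, Complex.exp_pi_mul_I] at h2
    norm_num at h2

/-- ROW GH (c). -/
theorem continuous_Lmap {A J : Type*} [AddCommGroup A] [Fintype J] (m : J → A →+ A) :
    Continuous (Lmap m : (J → Gh A) → Gh A) := by
  refine Continuous.subtype_mk (continuous_pi fun a => ?_) _
  refine continuous_finset_prod _ fun j _ => ?_
  exact (continuous_apply (m j a)).comp (continuous_subtype_val.comp (continuous_apply j))

instance instIsMulRightInvariant_hgh (A : Type*) [AddCommGroup A] [Countable A] :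
    (hgh A).IsMulRightInvariant := by
  constructor
  intro g
  have h : (fun x : Gh A => x * g) = fun x => g * x := by
    funext x
    exact mul_comm _ _
  rw [h]
  exact map_mul_left_eq_self _ _

/-- ROW GH (d). invariance of M on both sides, invariance of muX, continuity of b_n -/
theorem muY_left {d : ℕ} {A : Type*} [AddCommGroup A] [Countable A] {J : Type*} [Fintype J] :
    (muY d A J).IsMulLeftInvariant := by
  unfold muY
  infer_instance

theorem muY_right {d : ℕ} {A : Type*} [AddCommGroup A] [Countable A] {J : Type*} [Fintype J] :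
    (muY d A J).IsMulRightInvariant := by
  unfold muY
  infer_instance

theorem map_aY {d : ℕ} {A : Type*} [AddCommGroup A] [Countable A] {J : Type*} [Fintype J]
    (m : J → A →+ A) (g : YY d A J) : Measure.map (aY (d := d) m g) (muX d A) = muX d A := by
  have h1 : Measurable fun x : Sph d => g.1 • x :=
    (continuous_const_smul g.1).measurable
  have h2 : Measurable fun t : Gh A => Lmap m g.2 * t := measurable_const_mul _
  have e : aY (d := d) m g = Prod.map (fun x : Sph d => g.1 • x) (fun t : Gh A => Lmap m g.2 * t) := rfl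
  rw [e]
  unfold muX
  rw [← Measure.map_prod_map _ _ h1 h2, map_smul_sig, map_mul_left_eq_self]

theorem continuous_bmap {d : ℕ} {A : Type*} [AddCommGroup A] (w : A →+ E d) :
    Continuous (bmap w : E d → Gh A) := by
  refine Continuous.subtype_mk (continuous_pi fun a => ?_) _
  exact Circle.exp.continuous.comp (by fun_prop)

end SPH
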