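import Pool.Agent.SPH.GhDefs

/-! Project SPH, row PIY: compatibility of the maps piY with the embeddings, and their push forward. -/

open MeasureTheory Set Metric Filter
open scoped ENNReal NNReal Topology

noncomputable section
namespace SPH

theorem act_sum {d : ℕ} {J : Type*} [Fintype J] (T : OG d) (l : J → ℝ) (v : J → E d) :
    act T (∑ j, l j • v j) = ∑ j, l j • act T (v j) := by
  simp [act, map_sum]

/-- ROW PIY (a). exact compatibility -/
theorem piY_eta {d : ℕ} {A J : Type*} [AddCommGroup A] [Fintype J] (w : A →+ E d) (v : J → Sph d)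
    (x : Sph d) (l : J → ℝ) (hx : (x : E d) = ∑ j, l j • (v j : E d)) (m : J → A →+ A)
    (hm : ∀ j a, w (m j a) = l j • w a) (T : OG d) :
    piY x m (eta w v T) = beta w (T • x) := by
  refine Prod.ext rfl ?_
  apply Subtype.ext
  funext a
  show ∏ j, Circle.exp (2 * Real.pi * inner ℝ (w (m j a)) (act T (v j : E d))) =
    Circle.exp (2 * Real.pi * inner ℝ (w a) (act T (x : E d)))
  have h1 : ∀ s : Finset J, ∀ f : J → ℝ, ∏ j ∈ s, Circle.exp (f j) = Circle.exp (∑ j ∈ s, f j) := by
    classical
    intro s f
    induction s using Finset.induction_on with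
    | empty => simp
    | insert a s ha ih => rw [Finset.prod_insert ha, Finset.sum_insert ha, Circle.exp_add, ih]
  rw [h1]
  congr 1
  rw [hx, act_sum, inner_sum, Finset.mul_sum]
  refine Finset.sum_congr rfl fun j _ => ?_
  rw [hm, inner_smul_left, inner_smul_right]
  simp

theorem continuous_piY {d : ℕ} {A J : Type*} [AddCommGroup A] [Fintype J] (x : Sph d)
    (m : J → A →+ A) : Continuous (piY (d := d) x m) := by
  have hL : Continuous (Lmap m : (J → Gh A) → Gh A) := by
    refine Continuous.subtype_mk (continuous_pi fun a => ?_) _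
    refine continuous_finsetProd _ fun j _ => ?_
    exact (continuous_apply (m j a)).comp (continuous_subtype_val.comp (continuous_apply j))
  refine Continuous.prodMk ?_ (hL.comp continuous_snd)
  exact continuous_fst.smul continuous_const

instance instBorelSpaceXX {d : ℕ} {A : Type*} [AddCommGroup A] [Countable A] : BorelSpace (XX d A) :=
  Prod.borelSpace

/-- ROW PIY (b), core: M pushes to muX, from the two equidistribution statements -/
theorem map_piY_core {d : ℕ} {A : Type*} [AddCommGroup A] [Countable A]
    (w : ℕ → A →+ E d) (U : Ultrafilter ℕ) {J : Type*} [Fintype J] (v : J → Sph d)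
    (hX : ∀ φ : C(XX d A, ℂ), Tendsto (fun n => ∫ x : Sph d, φ (beta (w n) x) ∂(sig d)) U
      (𝓝 (∫ p, φ p ∂(muX d A))))
    (hY : ∀ φ : C(YY d A J, ℂ), Tendsto (fun n => ∫ T : OG d, φ (eta (w n) v T) ∂(mu d)) U
      (𝓝 (∫ y, φ y ∂(muY d A J))))
    (horb : ∀ x : Sph d, ∀ f : Sph d → ℂ, Continuous f →
      ∫ T : OG d, f (T • x) ∂(mu d) = ∫ y, f y ∂(sig d))
    (hb : ∀ n, Continuous (bmap (w n) : E d → Gh A))
    (x : Sph d) (l : J → ℝ)
    (hx : (x : E d) = ∑ j, l j • (v j : E d)) (m : J → A →+ A)
    (hm : ∀ n j a, w n (m j a) = l j • w n a) :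
    Measure.map (piY (d := d) x m) (muY d A J) = muX d A := by
  have hc : Continuous (piY (d := d) x m) := continuous_piY x m
  have hms : Measurable (piY (d := d) x m) := hc.measurable
  have : IsProbabilityMeasure (muY d A J) := by unfold muY; infer_instance
  have : IsProbabilityMeasure (muX d A) := by unfold muX; infer_instance
  have : IsProbabilityMeasure (Measure.map (piY (d := d) x m) (muY d A J)) :=
    Measure.isProbabilityMeasure_map hms.aemeasurable
  have hT : TopologicalSpace.MetrizableSpace (XX d A) :=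
    TopologicalSpace.metrizableSpace_of_t3_secondCountable _
  let _ : MetricSpace (XX d A) := TopologicalSpace.metrizableSpaceMetric _
  refine ext_of_forall_integral_eq_of_IsFiniteMeasure fun f => ?_
  have hkey : ∫ p, ((f p : ℝ) : ℂ) ∂(Measure.map (piY (d := d) x m) (muY d A J)) =
      ∫ p, ((f p : ℝ) : ℂ) ∂(muX d A) := by
    have hfc : Continuous fun p : XX d A => ((f p : ℝ) : ℂ) :=
      Complex.continuous_ofReal.comp f.continuous
    rw [integral_map hms.aemeasurable hfc.aestronglyMeasurable]
    have h1 := hY ⟨fun y => ((f (piY x m y) : ℝ) : ℂ), hfc.comp hc⟩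
    have h2 := hX ⟨fun p => ((f p : ℝ) : ℂ), hfc⟩
    refine tendsto_nhds_unique h1 (h2.congr fun n => ?_)
    show ∫ y : Sph d, ((f (beta (w n) y) : ℝ) : ℂ) ∂(sig d) =
      ∫ T : OG d, ((f (piY x m (eta (w n) v T)) : ℝ) : ℂ) ∂(mu d)
    have hbc : Continuous fun y : Sph d => ((f (beta (w n) y) : ℝ) : ℂ) := by
      refine hfc.comp (Continuous.prodMk continuous_id ?_)
      exact (hb n).comp continuous_subtype_val
    rw [← horb x _ hbc]
    refine integral_congr_ae (Eventually.of_forall fun T => ?_)
    simp only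
    rw [piY_eta (w n) v x l hx m (hm n) T]
  rw [integral_complex_ofReal, integral_complex_ofReal] at hkey
  exact_mod_cast hkey

end SPH
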