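import Pool.Agent.SPH.RLG

/-! Project SPH (MP_f7e9f1_co), row RLG2: Riemann-Lebesgue on the group for every linearly independent
family (no direction orthogonal to the family is needed). The proof rotates two basis vectors at a time. -/

open MeasureTheory Set Metric Filter
open scoped ENNReal NNReal Topology

noncomputable section
namespace SPH

namespace RLG

/-- two orthonormal vectors and a third direction -/
theorem pair_small {d : ℕ} (hd : 3 ≤ d) (a b e0 : Sph d)
    (hab : inner ℝ (a : E d) (b : E d) = 0) (hea : inner ℝ (e0 : E d) (a : E d) = 0)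
    (heb : inner ℝ (e0 : E d) (b : E d) = 0) (δ : ℝ) (hδ : 0 < δ) :
    ∃ R : ℝ, 0 ≤ R ∧ ∀ w1 w2 : E d, (R ≤ ‖w1‖ ∨ R ≤ ‖w2‖) →
      ‖∫ T : OG d, ee (inner ℝ w1 (act T a) + inner ℝ w2 (act T b)) ∂(mu d)‖ ≤ δ := by
  let v : Fin 2 → Sph d := ![a, b]
  have hon : Orthonormal ℝ (fun j => (v j : E d)) := by
    refine ⟨fun j => norm_coe_sph _, ?_⟩
    intro i j hij
    have hba : inner ℝ (b : E d) (a : E d) = 0 := by rw [real_inner_comm]; exact hab
    fin_cases i <;> fin_cases j <;> simp_all [v]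
  have hev : ∀ j, inner ℝ (e0 : E d) (v j : E d) = 0 := by
    intro j
    fin_cases j
    · exact hea
    · exact heb
  obtain ⟨R, hR⟩ := ker_small hd v hon.linearIndependent e0 (norm_coe_sph _) hev δ hδ
  refine ⟨max R 0, le_max_right _ _, fun w1 w2 hw => ?_⟩
  have h1 := hR ![w1, w2] (by
    rcases hw with hw | hw
    · exact (le_max_left _ _).trans (hw.trans (norm_le_pi_norm ![w1, w2] 0))
    · exact (le_max_left _ _).trans (hw.trans (norm_le_pi_norm ![w1, w2] 1)))
  have h2 : ker v ![w1, w2] =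
      ∫ T : OG d, ee (inner ℝ w1 (act T a) + inner ℝ w2 (act T b)) ∂(mu d) := by
    unfold ker
    congr 1
    funext T
    rw [Fin.sum_univ_two]
    rfl
  rw [← h2]
  exact h1

/-- the standard basis vectors as points of the sphere -/
def sb (d : ℕ) (k : Fin (d + 1)) : Sph d := ⟨EuclideanSpace.single k (1 : ℝ), by simp⟩

theorem inner_sb {d : ℕ} (k l : Fin (d + 1)) (h : k ≠ l) :
    inner ℝ (sb d k : E d) (sb d l : E d) = 0 := by
  show inner ℝ (EuclideanSpace.single k (1 : ℝ)) (EuclideanSpace.single l (1 : ℝ)) = 0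
  rw [EuclideanSpace.inner_single_left]
  simp [h]

theorem ker_sb_one {d : ℕ} (hd : 3 ≤ d) (k0 : Fin (d + 1)) (δ : ℝ) (hδ : 0 < δ) :
    ∃ R : ℝ, ∀ w : Fin (d + 1) → E d, R ≤ ‖w k0‖ → ‖ker (sb d) w‖ ≤ δ := by
  classical
  obtain ⟨l0, hl0⟩ : ∃ l : Fin (d + 1), l ≠ k0 := by
    by_contra hcon
    push Not at hcon
    have h1 := hcon ⟨0, by omega⟩
    have h2 := hcon ⟨1, by omega⟩
    rw [← h2] at h1
    simp at h1
  obtain ⟨m0, hm0, hm1⟩ : ∃ l : Fin (d + 1), l ≠ k0 ∧ l ≠ l0 := by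
    by_contra hcon
    push Not at hcon
    have hsub : (Finset.univ : Finset (Fin (d + 1))) ⊆ {k0, l0} := by
      intro l _
      by_cases hl : l = k0
      · simp [hl]
      · simp [hcon l hl]
    have := Finset.card_le_card hsub
    rw [Finset.card_univ, Fintype.card_fin] at this
    have h3 := Finset.card_le_two (a := k0) (b := l0)
    omega
  set a : Sph d := sb d k0 with ha
  set b : Sph d := sb d l0 with hb
  have hab : inner ℝ (a : E d) (b : E d) = 0 := inner_sb k0 l0 (Ne.symm hl0)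
  obtain ⟨Rt, -, -, hRt⟩ := exists_rot (a : E d) (b : E d) (norm_coe_sph _) (norm_coe_sph _) hab
  have haa : inner ℝ (a : E d) (a : E d) = 1 := by
    rw [real_inner_self_eq_norm_sq, norm_coe_sph]; norm_num
  have hbb : inner ℝ (b : E d) (b : E d) = 1 := by
    rw [real_inner_self_eq_norm_sq, norm_coe_sph]; norm_num
  have hba : inner ℝ (b : E d) (a : E d) = 0 := by rw [real_inner_comm]; exact hab
  have hRa : ∀ θ, act (Rt θ) (a : E d) = Real.cos θ • (a : E d) + Real.sin θ • (b : E d) := by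
    intro θ
    rw [hRt, haa, hab]
    module
  have hRb : ∀ θ, act (Rt θ) (b : E d) = -(Real.sin θ • (a : E d)) + Real.cos θ • (b : E d) := by
    intro θ
    rw [hRt, hba, hbb]
    module
  have hfix : ∀ θ j, j ≠ k0 → j ≠ l0 → act (Rt θ) (sb d j : E d) = sb d j := by
    intro θ j hj hj'
    rw [hRt, ha, hb, inner_sb j k0 hj, inner_sb j l0 hj']
    simp
  obtain ⟨m, hm0', hm⟩ := exists_card_le (δ ^ 2 / 2) (by positivity)
  let θ : Fin m → ℝ := fun k => 1 / ((k : ℝ) + 1)
  let γ : Fin m → Fin m → ℝ := fun k l =>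
    (Real.cos (θ k) - Real.cos (θ l)) ^ 2 + (Real.sin (θ k) - Real.sin (θ l)) ^ 2
  have hγ : ∀ k l, k ≠ l → 0 < γ k l := by
    intro k l hkl
    have hne : Real.cos (θ k) - Real.cos (θ l) ≠ 0 := by
      intro h
      have h2 : Real.cos (θ k) = Real.cos (θ l) := by linarith
      have hmem : ∀ k : Fin m, θ k ∈ Icc 0 Real.pi := by
        intro k
        have hk : (0 : ℝ) ≤ (k : ℝ) := Nat.cast_nonneg _
        refine ⟨by positivity, ?_⟩
        have : θ k ≤ 1 := by
          show 1 / ((k : ℝ) + 1) ≤ 1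
          rw [div_le_one (by positivity)]
          linarith
        linarith [Real.pi_gt_three]
      have h3 : θ k = θ l := Real.injOn_cos (hmem k) (hmem l) h2
      apply hkl
      have h4 : (k : ℝ) + 1 = (l : ℝ) + 1 := by
        have h5 : 1 / ((k : ℝ) + 1) = 1 / ((l : ℝ) + 1) := h3
        have hk : (0 : ℝ) ≤ (k : ℝ) := Nat.cast_nonneg _
        have hl : (0 : ℝ) ≤ (l : ℝ) := Nat.cast_nonneg _
        field_simp at h5
        linarith
      have h6 : (k : ℝ) = (l : ℝ) := by linarith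
      exact Fin.ext (by exact_mod_cast h6)
    have h1 : 0 < (Real.cos (θ k) - Real.cos (θ l)) ^ 2 := by positivity
    have h2 : 0 ≤ (Real.sin (θ k) - Real.sin (θ l)) ^ 2 := sq_nonneg _
    exact add_pos_of_pos_of_nonneg h1 h2
  obtain ⟨R2, hR20, hR2⟩ := pair_small hd a b (sb d m0) hab (inner_sb m0 k0 hm0)
    (inner_sb m0 l0 hm1) (δ ^ 2 / 2) (by positivity)
  -- the radius
  let Rr : Fin m → Fin m → ℝ := fun k l => 2 * R2 / Real.sqrt (γ k l) + 1
  have hRr0 : ∀ k l, 0 ≤ Rr k l := by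
    intro k l
    show 0 ≤ 2 * R2 / Real.sqrt (γ k l) + 1
    have := Real.sqrt_nonneg (γ k l)
    positivity
  refine ⟨∑ k, ∑ l, Rr k l, fun w hw => ?_⟩
  have hRle : ∀ k l, Rr k l ≤ ‖w k0‖ := by
    intro k l
    refine le_trans ?_ hw
    calc Rr k l ≤ ∑ l, Rr k l := Finset.single_le_sum (f := fun l => Rr k l)
          (fun _ _ => hRr0 _ _) (Finset.mem_univ l)
      _ ≤ ∑ k, ∑ l, Rr k l := Finset.single_le_sum (f := fun k => ∑ l, Rr k l)
          (fun _ _ => Finset.sum_nonneg fun _ _ => hRr0 _ _) (Finset.mem_univ k)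
  let rest : Finset (Fin (d + 1)) := (Finset.univ.erase k0).erase l0
  have hl0mem : l0 ∈ Finset.univ.erase k0 := Finset.mem_erase.2 ⟨hl0, Finset.mem_univ _⟩
  let f : OG d → ℂ := fun T => ee (∑ j ∈ rest, inner ℝ (w j) (act T (sb d j)))
  let X : Fin m → OG d → ℂ := fun k T =>
    ee (inner ℝ (w k0) (act T (act (Rt (θ k)) (a : E d))) +
      inner ℝ (w l0) (act T (act (Rt (θ k)) (b : E d))))
  have hXc : ∀ k, Continuous (X k) := fun k =>
    continuous_ee.comp ((continuous_const.inner (continuous_act_right _)).add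
      (continuous_const.inner (continuous_act_right _)))
  have hcor : ∀ k, ∫ T, f T * X k T ∂(mu d) = ker (sb d) w := by
    intro k
    have e1 : ∀ T : OG d, f T * X k T =
        (fun S : OG d => ee (∑ j, inner ℝ (w j) (act S (sb d j)))) (T * Rt (θ k)) := by
      intro T
      show ee _ * ee _ = ee _
      rw [← ee_add]
      congr 1
      rw [← Finset.sum_erase_add Finset.univ
        (fun j => inner ℝ (w j) (act (T * Rt (θ k)) (sb d j))) (Finset.mem_univ k0),
        ← Finset.sum_erase_add (Finset.univ.erase k0)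
        (fun j => inner ℝ (w j) (act (T * Rt (θ k)) (sb d j))) hl0mem]
      have e2 : ∑ j ∈ rest, inner ℝ (w j) (act (T * Rt (θ k)) (sb d j : E d)) =
          ∑ j ∈ rest, inner ℝ (w j) (act T (sb d j : E d)) := by
        refine Finset.sum_congr rfl fun j hj => ?_
        rw [act_mul, hfix _ _ (Finset.ne_of_mem_erase (Finset.mem_of_mem_erase hj))
          (Finset.ne_of_mem_erase hj)]
      show _ = ∑ j ∈ rest, inner ℝ (w j) (act (T * Rt (θ k)) (sb d j : E d)) + _ + _
      rw [e2, act_mul, act_mul]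
      ring
    exact (integral_congr_ae (Eventually.of_forall e1)).trans
      (integral_mul_right_eq_self (μ := mu d)
        (fun S : OG d => ee (∑ j, inner ℝ (w j) (act S (sb d j)))) (Rt (θ k)))
  have horth : ∀ k l, k ≠ l → ‖∫ T, X k T * (starRingEnd ℂ) (X l T) ∂(mu d)‖ ≤ δ ^ 2 / 2 := by
    intro k l hkl
    set α : ℝ := Real.cos (θ k) - Real.cos (θ l) with hα
    set β : ℝ := Real.sin (θ k) - Real.sin (θ l) with hβ
    set u1 : E d := α • w k0 - β • w l0 with hu1
    set u2 : E d := β • w k0 + α • w l0 with hu2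
    have e1 : ∀ T : OG d, X k T * (starRingEnd ℂ) (X l T) =
        ee (inner ℝ u1 (act T a) + inner ℝ u2 (act T b)) := by
      intro T
      show ee _ * (starRingEnd ℂ) (ee _) = _
      rw [conj_ee, ← ee_add]
      congr 1
      rw [hRa, hRb, hRa, hRb]
      simp only [act_add, act_smul, act_neg, inner_add_right, inner_smul_right, inner_neg_right,
        hu1, hu2, inner_sub_left, inner_add_left, inner_smul_left, conj_trivial, hα, hβ]
      ring
    simp_rw [e1]
    apply hR2 u1 u2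
    by_contra hcon
    push Not at hcon
    obtain ⟨c1, c2⟩ := hcon
    have e3 : ‖u1‖ ^ 2 + ‖u2‖ ^ 2 = γ k l * (‖w k0‖ ^ 2 + ‖w l0‖ ^ 2) := by
      have e4 : ‖u1‖ ^ 2 = α ^ 2 * ‖w k0‖ ^ 2 - 2 * (α * β * inner ℝ (w k0) (w l0)) +
          β ^ 2 * ‖w l0‖ ^ 2 := by
        rw [hu1, norm_sub_sq_real, norm_smul, norm_smul, inner_smul_left, inner_smul_right,
          mul_pow, mul_pow, Real.norm_eq_abs, Real.norm_eq_abs, sq_abs, sq_abs, conj_trivial]
        ring
      have e5 : ‖u2‖ ^ 2 = β ^ 2 * ‖w k0‖ ^ 2 + 2 * (α * β * inner ℝ (w k0) (w l0)) +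
          α ^ 2 * ‖w l0‖ ^ 2 := by
        rw [hu2, norm_add_sq_real, norm_smul, norm_smul, inner_smul_left, inner_smul_right,
          mul_pow, mul_pow, Real.norm_eq_abs, Real.norm_eq_abs, sq_abs, sq_abs, conj_trivial]
        ring
      rw [e4, e5]
      show _ = (α ^ 2 + β ^ 2) * _
      ring
    have hg := hγ k l hkl
    have hsg : 0 < Real.sqrt (γ k l) := Real.sqrt_pos.2 hg
    have h6 : 2 * R2 / Real.sqrt (γ k l) + 1 ≤ ‖w k0‖ := hRle k l
    have h7 : 2 * R2 < Real.sqrt (γ k l) * ‖w k0‖ := by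
      have h8 : 2 * R2 / Real.sqrt (γ k l) < ‖w k0‖ := by linarith
      rw [div_lt_iff₀ hsg] at h8
      linarith
    have h9 : (2 * R2) ^ 2 < γ k l * ‖w k0‖ ^ 2 := by
      have h10 : (2 * R2) ^ 2 < (Real.sqrt (γ k l) * ‖w k0‖) ^ 2 :=
        pow_lt_pow_left₀ h7 (by positivity) (by norm_num)
      rw [mul_pow (Real.sqrt (γ k l)), Real.sq_sqrt hg.le] at h10
      exact h10
    have h11 : ‖u1‖ ^ 2 < R2 ^ 2 := pow_lt_pow_left₀ c1 (norm_nonneg _) (by norm_num)
    have h12 : ‖u2‖ ^ 2 < R2 ^ 2 := pow_lt_pow_left₀ c2 (norm_nonneg _) (by norm_num)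
    have h13 : 0 ≤ γ k l * ‖w l0‖ ^ 2 := by positivity
    nlinarith [sq_nonneg R2]
  have hb' := bessel (mu d) f X (continuous_phase rest (fun j => (sb d j : E d)) w).measurable
    (fun T => (norm_ee _).le)
    (fun k => (hXc k).measurable) (fun k T => (norm_ee _).le) (δ ^ 2 / 2) ‖ker (sb d) w‖
    (by positivity) (norm_nonneg _) horth (fun k => by rw [hcor k])
  rw [Fintype.card_fin] at hb'
  have hm0'' : (0 : ℝ) < m := by exact_mod_cast hm0'
  have h1 : ‖ker (sb d) w‖ ^ 2 ≤ δ ^ 2 := by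
    have h2 : ‖ker (sb d) w‖ ^ 2 ≤ 1 / m + δ ^ 2 / 2 := by
      have h3 : (m : ℝ) ^ 2 * ‖ker (sb d) w‖ ^ 2 ≤ (m : ℝ) ^ 2 * (1 / m + δ ^ 2 / 2) := by
        calc (m : ℝ) ^ 2 * ‖ker (sb d) w‖ ^ 2 = (m * ‖ker (sb d) w‖) ^ 2 := by ring
          _ ≤ m + (m : ℝ) ^ 2 * (δ ^ 2 / 2) := hb'
          _ = (m : ℝ) ^ 2 * (1 / m + δ ^ 2 / 2) := by field_simp
      exact le_of_mul_le_mul_left h3 (by positivity)
    linarith
  exact (pow_le_pow_iff_left₀ (norm_nonneg _) hδ.le (by norm_num)).1 h1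

theorem ker_sb {d : ℕ} (hd : 3 ≤ d) (δ : ℝ) (hδ : 0 < δ) :
    ∃ R : ℝ, ∀ w : Fin (d + 1) → E d, R ≤ ‖w‖ → ‖ker (sb d) w‖ ≤ δ := by
  choose R hR using fun j0 => ker_sb_one hd j0 δ hδ
  refine ⟨1 + ∑ j, |R j|, fun w hw => ?_⟩
  have h0 : (0 : ℝ) < 1 + ∑ j, |R j| :=
    add_pos_of_pos_of_nonneg one_pos (Finset.sum_nonneg fun _ _ => abs_nonneg _)
  have h1 : ¬ ∀ j, ‖w j‖ < 1 + ∑ j, |R j| := by
    intro h
    exact absurd ((pi_norm_lt_iff h0).2 h) (not_lt.2 hw)
  push Not at h1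
  obtain ⟨j, hj⟩ := h1
  refine hR j w (le_trans ?_ hj)
  have : |R j| ≤ ∑ j, |R j| := Finset.single_le_sum (f := fun j => |R j|)
    (fun _ _ => abs_nonneg _) (Finset.mem_univ j)
  linarith [le_abs_self (R j)]

/-- passing to the standard basis -/
def toBas {d : ℕ} {J : Type*} [Fintype J] (v : J → Sph d) :
    (J → E d) →ₗ[ℝ] (Fin (d + 1) → E d) :=
  LinearMap.pi fun k => ∑ j, ((v j : E d) k) • LinearMap.proj j

theorem toBas_apply {d : ℕ} {J : Type*} [Fintype J] (v : J → Sph d) (w : J → E d)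
    (k : Fin (d + 1)) : toBas v w k = ∑ j, ((v j : E d) k) • w j := by
  simp [toBas]

theorem ker_toBas {d : ℕ} {J : Type*} [Fintype J] (v : J → Sph d) (w : J → E d) :
    ker (sb d) (toBas v w) = ker v w := by
  unfold ker
  congr 1
  funext T
  congr 1
  have h1 : ∀ x : E d, act T x = ∑ k, x k • act T (sb d k) := by
    intro x
    ext i
    have h2 : ∀ k, act T (sb d k : E d) i = (T : Matrix (Fin (d + 1)) (Fin (d + 1)) ℝ) i k := by
      intro k
      rw [act_apply, Finset.sum_eq_single k]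
      · simp [sb]
      · intro l _ hl
        simp [sb, hl]
      · intro h
        exact absurd (Finset.mem_univ k) h
    rw [act_apply, WithLp.ofLp_sum, Finset.sum_apply]
    refine Finset.sum_congr rfl fun k _ => ?_
    show _ = x k * act T (sb d k : E d) i
    rw [h2, mul_comm]
  calc ∑ k, inner ℝ (toBas v w k) (act T (sb d k))
      = ∑ k, ∑ j, (v j : E d) k * inner ℝ (w j) (act T (sb d k)) := by
        refine Finset.sum_congr rfl fun k _ => ?_
        rw [toBas_apply, sum_inner]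
        refine Finset.sum_congr rfl fun j _ => ?_
        rw [inner_smul_left, conj_trivial]
    _ = ∑ j, ∑ k, (v j : E d) k * inner ℝ (w j) (act T (sb d k)) := Finset.sum_comm
    _ = ∑ j, inner ℝ (w j) (act T (v j)) := by
        refine Finset.sum_congr rfl fun j _ => ?_
        rw [h1 (v j : E d), inner_sum]
        refine Finset.sum_congr rfl fun k _ => ?_
        rw [inner_smul_right]

theorem toBas_inj {d : ℕ} {J : Type*} [Fintype J] (v : J → Sph d)
    (hv : LinearIndependent ℝ (fun j => (v j : E d))) : LinearMap.ker (toBas v) = ⊥ := by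
  rw [LinearMap.ker_eq_bot']
  intro w hw
  have h1 : ∀ k, ∑ j, ((v j : E d) k) • w j = 0 := by
    intro k
    rw [← toBas_apply, hw]
    rfl
  funext j
  ext i
  have h2 : ∑ j, (w j i) • (v j : E d) = 0 := by
    ext k
    have h3 := congrArg (fun x : E d => x i) (h1 k)
    rw [WithLp.ofLp_sum, Finset.sum_apply]
    simp only [WithLp.ofLp_sum, Finset.sum_apply] at h3
    rw [show ((0 : E d) : E d) k = 0 from rfl]
    rw [show ((0 : E d) : E d) i = 0 from rfl] at h3
    rw [← h3]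
    refine Finset.sum_congr rfl fun j _ => ?_
    show w j i * (v j : E d) k = (v j : E d) k * w j i
    ring
  exact (Fintype.linearIndependent_iff.1 hv) (fun j => w j i) h2 j

/-- decay of the kernel for every linearly independent family -/
theorem ker_small_li {d : ℕ} (hd : 3 ≤ d) {J : Type*} [Fintype J] (v : J → Sph d)
    (hv : LinearIndependent ℝ (fun j => (v j : E d))) (δ : ℝ) (hδ : 0 < δ) :
    ∃ R : ℝ, ∀ w : J → E d, R ≤ ‖w‖ → ‖ker v w‖ ≤ δ := by
  obtain ⟨R, hR⟩ := ker_sb hd δ hδ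
  obtain ⟨K, hK0, hK⟩ := (toBas v).exists_antilipschitzWith (toBas_inj v hv)
  refine ⟨(K : ℝ) * |R|, fun w hw => ?_⟩
  rw [← ker_toBas]
  apply hR
  have h1 := hK.le_mul_dist w 0
  rw [map_zero, dist_zero_right, dist_zero_right] at h1
  have h2 : (K : ℝ) * |R| ≤ K * ‖toBas v w‖ := hw.trans h1
  have hK0' : (0 : ℝ) < K := by exact_mod_cast hK0
  exact (le_abs_self R).trans (le_of_mul_le_mul_left h2 hK0')

end RLG

open RLG in
/-- Riemann-Lebesgue on the group from the decay of the kernel. -/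
theorem rl_group_of_ker {d : ℕ} {J : Type*} [Fintype J] (v : J → Sph d)
    (hker : ∀ δ : ℝ, 0 < δ → ∃ R : ℝ, ∀ w : J → E d, R ≤ ‖w‖ → ‖ker v w‖ ≤ δ) (u : C(OG d, ℂ)) :
    Tendsto (fun w : J → E d => ∫ T : OG d, u T * ee (∑ j, inner ℝ (w j) (act T (v j))) ∂(mu d))
      (cocompact (J → E d)) (𝓝 0) := by
  classical
  set I : (J → E d) → ℂ := fun w =>
    ∫ T : OG d, u T * ee (∑ j, inner ℝ (w j) (act T (v j))) ∂(mu d) with hI
  have hCpos : (0 : ℝ) < ‖u‖ + 1 := by positivity
  set C : ℝ := ‖u‖ + 1 with hC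
  have hu : ∀ T, ‖u T‖ ≤ C := fun T => (u.norm_coe_le_norm T).trans (by rw [hC]; linarith)
  rw [Metric.tendsto_nhds]
  intro ε hε
  by_contra hcon
  have hfr : ∃ᶠ w in cocompact (J → E d), ε ≤ ‖I w‖ := by
    refine (Filter.not_eventually.1 hcon).mono fun w hw => ?_
    rw [dist_zero_right, not_lt] at hw
    exact hw
  set δ : ℝ := (ε / C) ^ 2 / 4 with hδ
  have hδ0 : 0 < δ := by positivity
  obtain ⟨R, hR⟩ := hker δ hδ0
  have hfam : ∀ m : ℕ, ∃ W : Fin m → (J → E d), (∀ k, ε ≤ ‖I (W k)‖) ∧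
      ∀ k l, k ≠ l → ‖ker v (W k - W l)‖ ≤ δ := by
    intro m
    induction m with
    | zero => exact ⟨fun k => k.elim0, fun k => k.elim0, fun k => k.elim0⟩
    | succ m ih =>
      obtain ⟨W, hW1, hW2⟩ := ih
      have hev2 : ∀ᶠ w in cocompact (J → E d), R + ∑ k, ‖W k‖ ≤ ‖w‖ :=
        (tendsto_norm_cocompact_atTop).eventually_ge_atTop _
      obtain ⟨w, hw1, hw2⟩ := (hfr.and_eventually hev2).exists
      have hfar : ∀ k, R ≤ ‖w - W k‖ := by
        intro k
        have h1 : ‖W k‖ ≤ ∑ k, ‖W k‖ := Finset.single_le_sum (f := fun k => ‖W k‖)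
          (fun _ _ => norm_nonneg _) (Finset.mem_univ k)
        have h2 := norm_sub_norm_le w (W k)
        linarith
      refine ⟨Fin.cons w W, fun k => ?_, fun k l hkl => ?_⟩
      · refine Fin.cases ?_ (fun k => ?_) k
        · simpa using hw1
        · simpa using hW1 k
      · revert hkl
        refine Fin.cases ?_ (fun k => ?_) k
        · refine Fin.cases ?_ (fun l => ?_) l
          · intro h; exact absurd rfl h
          · intro _
            simpa using hR (w - W l) (hfar l)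
        · refine Fin.cases ?_ (fun l => ?_) l
          · intro _
            have := hR (W k - w) (by rw [norm_sub_rev]; exact hfar k)
            simpa using this
          · intro h
            have hkl : k ≠ l := fun h' => h (by rw [h'])
            simpa using hW2 k l hkl
  obtain ⟨m, hm0, hm⟩ := exists_card_le δ hδ0
  obtain ⟨W, hW1, hW2⟩ := hfam m
  have hm0' : (0 : ℝ) < m := by exact_mod_cast hm0
  let f : OG d → ℂ := fun T => ((C⁻¹ : ℝ) : ℂ) * u T
  let X : Fin m → OG d → ℂ := fun k T => ee (∑ j, inner ℝ (W k j) (act T (v j)))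
  have hXc : ∀ k, Continuous (X k) := fun k => continuous_phase _ _ _
  have hf1 : ∀ T, ‖f T‖ ≤ 1 := by
    intro T
    show ‖((C⁻¹ : ℝ) : ℂ) * u T‖ ≤ 1
    rw [norm_mul, Complex.norm_real, Real.norm_eq_abs, abs_of_pos (inv_pos.2 hCpos),
      inv_mul_le_iff₀ hCpos, mul_one]
    exact hu T
  have horth : ∀ k l, k ≠ l → ‖∫ T, X k T * (starRingEnd ℂ) (X l T) ∂(mu d)‖ ≤ δ := by
    intro k l hkl
    have e1 : ∀ T : OG d, X k T * (starRingEnd ℂ) (X l T) =
        ee (∑ j, inner ℝ ((W k - W l) j) (act T (v j))) := by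
      intro T
      show ee _ * (starRingEnd ℂ) (ee _) = _
      rw [conj_ee, ← ee_add]
      congr 1
      rw [← sub_eq_add_neg, ← Finset.sum_sub_distrib]
      refine Finset.sum_congr rfl fun j _ => ?_
      rw [Pi.sub_apply, inner_sub_left]
    simp_rw [e1]
    exact hW2 k l hkl
  have hcor : ∀ k, ε / C ≤ ‖∫ T, f T * X k T ∂(mu d)‖ := by
    intro k
    have e1 : ∫ T, f T * X k T ∂(mu d) = ((C⁻¹ : ℝ) : ℂ) * I (W k) := by
      rw [hI, ← integral_const_mul]
      congr 1
      funext T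
      show ((C⁻¹ : ℝ) : ℂ) * u T * ee _ = ((C⁻¹ : ℝ) : ℂ) * (u T * ee _)
      ring
    rw [e1, norm_mul, Complex.norm_real, Real.norm_eq_abs, abs_of_pos (inv_pos.2 hCpos),
      div_eq_inv_mul]
    exact mul_le_mul_of_nonneg_left (hW1 k) (inv_pos.2 hCpos).le
  have hb := bessel (mu d) f X
    ((continuous_const.mul u.continuous).measurable) hf1
    (fun k => (hXc k).measurable) (fun k T => (norm_ee _).le) δ (ε / C)
    hδ0.le (by positivity) horth hcor
  rw [Fintype.card_fin] at hb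
  have h2 : (ε / C) ^ 2 ≤ 1 / m + δ := by
    have h3 : (m : ℝ) ^ 2 * (ε / C) ^ 2 ≤ (m : ℝ) ^ 2 * (1 / m + δ) := by
      calc (m : ℝ) ^ 2 * (ε / C) ^ 2 = (m * (ε / C)) ^ 2 := by ring
        _ ≤ m + (m : ℝ) ^ 2 * δ := hb
        _ = (m : ℝ) ^ 2 * (1 / m + δ) := by field_simp
    exact le_of_mul_le_mul_left h3 (by positivity)
  have h4 : 0 < (ε / C) ^ 2 := by positivity
  linarith [hm, hδ]

/-- ROW RLG2. Riemann-Lebesgue on the group, no direction orthogonal to the family is needed. -/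
theorem rl_group_li {d : ℕ} (hd : 3 ≤ d) {J : Type*} [Fintype J] (v : J → Sph d)
    (hv : LinearIndependent ℝ (fun j => (v j : E d))) (u : C(OG d, ℂ)) :
    Tendsto (fun w : J → E d => ∫ T : OG d, u T * ee (∑ j, inner ℝ (w j) (act T (v j))) ∂(mu d))
      (cocompact (J → E d)) (𝓝 0) :=
  rl_group_of_ker v (RLG.ker_small_li hd v hv) u

end SPH
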