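import Pool.Agent.SPH.GhDefs

/-! Project SPH: Stone-Weierstrass as an induction principle on a product, and the instances for
the limit objects XX and YY. -/

open MeasureTheory Set Metric Filter
open scoped ENNReal NNReal Topology

noncomputable section
namespace SPH

section general
variable {S K I : Type*} [TopologicalSpace S] [CompactSpace S] [TopologicalSpace K] [CompactSpace K]

/-- the product function (s,t) ↦ u s * χ t -/
def tens (u : C(S, ℂ)) (χ : C(K, ℂ)) : C(S × K, ℂ) :=
  ⟨fun p => u p.1 * χ p.2, by fun_prop⟩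

@[simp] theorem tens_apply (u : C(S, ℂ)) (χ : C(K, ℂ)) (p : S × K) : tens u χ p = u p.1 * χ p.2 := rfl

/-- Stone-Weierstrass as an induction principle. -/
theorem sw_induction [T2Space S] [T2Space K] (χ : I → C(K, ℂ))
    (hone : ∃ i, ∀ t, χ i t = 1)
    (hmul : ∀ i j, ∃ k, ∀ t, χ i t * χ j t = χ k t)
    (hconj : ∀ i, ∃ k, ∀ t, (starRingEnd ℂ) (χ i t) = χ k t)
    (hsep : ∀ s t : K, s ≠ t → ∃ i, χ i s ≠ χ i t)
    (P : C(S × K, ℂ) → Prop)
    (hadd : ∀ f g, P f → P g → P (f + g))
    (hbase : ∀ (u : C(S, ℂ)) (i : I), P (tens u (χ i)))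
    (hlim : ∀ f : C(S × K, ℂ), (∀ ε : ℝ, 0 < ε → ∃ g : C(S × K, ℂ), P g ∧ ∀ p, ‖f p - g p‖ ≤ ε) → P f)
    (f : C(S × K, ℂ)) : P f := by
  classical
  set B : Set C(S × K, ℂ) := Set.range fun p : C(S, ℂ) × I => tens p.1 (χ p.2) with hB
  set M : Submodule ℂ C(S × K, ℂ) := Submodule.span ℂ B with hM
  have hbaseM : ∀ (u : C(S, ℂ)) (i : I), tens u (χ i) ∈ M := fun u i =>
    Submodule.subset_span ⟨(u, i), rfl⟩
  -- products
  have hmulM : ∀ f ∈ M, ∀ g ∈ M, f * g ∈ M := by
    intro f hf g hg
    induction hf using Submodule.span_induction with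
    | mem f hf =>
      obtain ⟨⟨u, i⟩, rfl⟩ := hf
      induction hg using Submodule.span_induction with
      | mem g hg =>
        obtain ⟨⟨v, j⟩, rfl⟩ := hg
        obtain ⟨k, hk⟩ := hmul i j
        have e : tens u (χ i) * tens v (χ j) = tens (u * v) (χ k) := by
          ext p
          simp only [ContinuousMap.mul_apply, tens_apply, ← hk]
          ring
        show tens u (χ i) * tens v (χ j) ∈ M
        rw [e]
        exact hbaseM _ _
      | zero => rw [mul_zero]; exact M.zero_mem
      | add g₁ g₂ _ _ h₁ h₂ => rw [mul_add]; exact M.add_mem h₁ h₂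
      | smul c g _ h => rw [mul_smul_comm]; exact M.smul_mem c h
    | zero => rw [zero_mul]; exact M.zero_mem
    | add f₁ f₂ _ _ h₁ h₂ => rw [add_mul]; exact M.add_mem h₁ h₂
    | smul c f _ h => rw [smul_mul_assoc]; exact M.smul_mem c h
  have hstarM : ∀ f ∈ M, star f ∈ M := by
    intro f hf
    induction hf using Submodule.span_induction with
    | mem f hf =>
      obtain ⟨⟨u, i⟩, rfl⟩ := hf
      obtain ⟨k, hk⟩ := hconj i
      have e : star (tens u (χ i)) = tens (star u) (χ k) := by
        ext p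
        simp only [ContinuousMap.star_apply, tens_apply, ← hk, star_mul']
        rfl
      show star (tens u (χ i)) ∈ M
      rw [e]
      exact hbaseM _ _
    | zero => rw [star_zero]; exact M.zero_mem
    | add f₁ f₂ _ _ h₁ h₂ => rw [star_add]; exact M.add_mem h₁ h₂
    | smul c f _ h => rw [star_smul]; exact M.smul_mem _ h
  obtain ⟨i1, hi1⟩ := hone
  have honeM : (1 : C(S × K, ℂ)) ∈ M := by
    have e : (1 : C(S × K, ℂ)) = tens 1 (χ i1) := by
      ext p
      simp [hi1]
    rw [e]
    exact hbaseM _ _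
  let A : StarSubalgebra ℂ C(S × K, ℂ) :=
    { carrier := M
      mul_mem' := fun {a b} ha hb => hmulM a ha b hb
      add_mem' := fun {a b} ha hb => M.add_mem ha hb
      algebraMap_mem' := fun r => by
        rw [Algebra.algebraMap_eq_smul_one]
        exact M.smul_mem r honeM
      star_mem' := fun {a} ha => hstarM a ha }
  have hAsep : A.SeparatesPoints := by
    intro p q hpq
    by_cases h1 : p.1 = q.1
    · have h2 : p.2 ≠ q.2 := fun h => hpq (Prod.ext h1 h)
      obtain ⟨i, hi⟩ := hsep _ _ h2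
      refine ⟨_, ⟨tens 1 (χ i), hbaseM _ _, rfl⟩, ?_⟩
      simpa using hi
    · obtain ⟨u, hu⟩ : ∃ u : C(S, ℝ), u p.1 ≠ u q.1 := by
        obtain ⟨u, hu0, hu1, -⟩ := exists_continuous_zero_one_of_isClosed (X := S)
          (isClosed_singleton (x := p.1)) (isClosed_singleton (x := q.1))
          (by rw [Set.disjoint_singleton]; exact h1)
        refine ⟨u, ?_⟩
        rw [hu0 rfl, hu1 rfl]
        simp
      refine ⟨_, ⟨tens ⟨fun s => ((u s : ℝ) : ℂ), by fun_prop⟩ (χ i1), hbaseM _ _, rfl⟩, ?_⟩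
      simp only [tens_apply, hi1, mul_one, ContinuousMap.coe_mk]
      exact_mod_cast hu
  have hAtop := ContinuousMap.starSubalgebra_topologicalClosure_eq_top_of_separatesPoints A hAsep
  -- elements of M satisfy P
  have hPM : ∀ f ∈ M, ∀ c : ℂ, P (c • f) := by
    intro f hf
    induction hf using Submodule.span_induction with
    | mem f hf =>
      obtain ⟨⟨u, i⟩, rfl⟩ := hf
      intro c
      have e : c • tens u (χ i) = tens (c • u) (χ i) := by
        ext p
        simp [mul_assoc]
      show P (c • tens u (χ i))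
      rw [e]
      exact hbase _ _
    | zero =>
      intro c
      have e : c • (0 : C(S × K, ℂ)) = tens 0 (χ i1) := by
        ext p
        simp
      rw [e]
      exact hbase _ _
    | add f₁ f₂ _ _ h₁ h₂ => intro c; rw [smul_add]; exact hadd _ _ (h₁ c) (h₂ c)
    | smul a f _ h => intro c; rw [smul_smul]; exact h _
  refine hlim f fun ε hε => ?_
  have hf : f ∈ A.topologicalClosure := by rw [hAtop]; trivial
  have hf2 : f ∈ closure (A : Set C(S × K, ℂ)) := hf
  obtain ⟨g, hg, hfg⟩ := Metric.mem_closure_iff.mp hf2 ε hε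
  refine ⟨g, by simpa using hPM g hg 1, fun p => ?_⟩
  rw [← dist_eq_norm]
  exact (ContinuousMap.dist_apply_le_dist p).trans hfg.le

end general

section inst
variable {d : ℕ} {A : Type*} [AddCommGroup A]

/-- the evaluation at a as a continuous function on Gh A -/
def chC (a : A) : C(Gh A, ℂ) :=
  ⟨fun t => chv t a, by
    show Continuous fun t : Gh A => ((t.1 a : Circle) : ℂ)
    exact continuous_subtype_val.comp ((continuous_apply a).comp continuous_subtype_val)⟩

@[simp] theorem chC_apply (a : A) (t : Gh A) : chC a t = chv t a := rfl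

theorem chv_add (t : Gh A) (a b : A) : chv t (a + b) = chv t a * chv t b := by
  show (((t.1 (a + b) : Circle)) : ℂ) = _
  rw [t.2 a b]
  simp [chv]

theorem chv_zero (t : Gh A) : chv t 0 = 1 := by
  have h := chv_add t 0 0
  rw [add_zero] at h
  have h0 : chv t 0 ≠ 0 := by
    simp [chv]
  have h1 : chv t 0 * (chv t 0 - 1) = 0 := by
    linear_combination -h
  rcases mul_eq_zero.mp h1 with h2 | h2
  · exact absurd h2 h0
  · linear_combination h2

theorem norm_chv (t : Gh A) (a : A) : ‖chv t a‖ = 1 := by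
  simp [chv]

theorem chv_neg (t : Gh A) (a : A) : chv t (-a) = (starRingEnd ℂ) (chv t a) := by
  have h := chv_add t a (-a)
  rw [add_neg_cancel, chv_zero] at h
  have h2 : chv t a * (starRingEnd ℂ) (chv t a) = 1 := by
    rw [Complex.mul_conj, Complex.normSq_eq_norm_sq, norm_chv]
    simp
  have h0 : chv t a ≠ 0 := by
    simp [chv]
  exact mul_left_cancel₀ h0 (by rw [← h, h2])

theorem chv_ext {s t : Gh A} (h : ∀ a, chv s a = chv t a) : s = t := by
  apply Subtype.ext
  funext a
  have h1 : ((s.1 a : Circle) : ℂ) = ((t.1 a : Circle) : ℂ) := h a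
  exact_mod_cast h1

/-- Stone-Weierstrass induction on S x Gh A for any compact S. -/
theorem sw_Gh {S : Type*} [TopologicalSpace S] [CompactSpace S] [T2Space S]
    (P : C(S × Gh A, ℂ) → Prop)
    (hadd : ∀ f g, P f → P g → P (f + g))
    (hbase : ∀ (u : C(S, ℂ)) (a : A), P ⟨fun p => u p.1 * chv p.2 a,
      (u.continuous.comp continuous_fst).mul ((chC a).continuous.comp continuous_snd)⟩)
    (hlim : ∀ f : C(S × Gh A, ℂ),
      (∀ ε : ℝ, 0 < ε → ∃ g : C(S × Gh A, ℂ), P g ∧ ∀ p, ‖f p - g p‖ ≤ ε) → P f)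
    (f : C(S × Gh A, ℂ)) : P f := by
  refine sw_induction (S := S) (K := Gh A) (I := A) chC ⟨0, fun t => chv_zero t⟩
    (fun a b => ⟨a + b, fun t => (chv_add t a b).symm⟩)
    (fun a => ⟨-a, fun t => (chv_neg t a).symm⟩) ?_ P hadd hbase hlim f
  intro s t hst
  by_contra h
  push Not at h
  exact hst (chv_ext h)

/-- Stone-Weierstrass induction on XX. -/
theorem sw_XX (P : C(XX d A, ℂ) → Prop)
    (hadd : ∀ f g, P f → P g → P (f + g))
    (hbase : ∀ (u : C(Sph d, ℂ)) (a : A), P ⟨fun p => u p.1 * chv p.2 a,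
      (u.continuous.comp continuous_fst).mul ((chC a).continuous.comp continuous_snd)⟩)
    (hlim : ∀ f : C(XX d A, ℂ),
      (∀ ε : ℝ, 0 < ε → ∃ g : C(XX d A, ℂ), P g ∧ ∀ p, ‖f p - g p‖ ≤ ε) → P f)
    (f : C(XX d A, ℂ)) : P f := sw_Gh P hadd hbase hlim f

theorem continuous_prod_chv {J : Type*} [Fintype J] (w : J → A) :
    Continuous fun t : J → Gh A => ∏ j, chv (t j) (w j) :=
  continuous_finsetProd _ fun j _ => (chC (w j)).continuous.comp (continuous_apply j)

/-- Stone-Weierstrass induction on YY. -/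
theorem sw_YY {J : Type*} [Fintype J] (P : C(YY d A J, ℂ) → Prop)
    (hadd : ∀ f g, P f → P g → P (f + g))
    (hbase : ∀ (u : C(OG d, ℂ)) (w : J → A), P ⟨fun p => u p.1 * ∏ j, chv (p.2 j) (w j),
      (u.continuous.comp continuous_fst).mul ((continuous_prod_chv w).comp continuous_snd)⟩)
    (hlim : ∀ f : C(YY d A J, ℂ),
      (∀ ε : ℝ, 0 < ε → ∃ g : C(YY d A J, ℂ), P g ∧ ∀ p, ‖f p - g p‖ ≤ ε) → P f)
    (f : C(YY d A J, ℂ)) : P f := by
  classical
  refine sw_induction (S := OG d) (K := J → Gh A) (I := J → A)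
    (fun w => ⟨fun t => ∏ j, chv (t j) (w j), continuous_prod_chv w⟩)
    ⟨fun _ => 0, fun t => by simp [chv_zero]⟩
    (fun a b => ⟨fun j => a j + b j, fun t => by simp [chv_add, Finset.prod_mul_distrib]⟩)
    (fun a => ⟨fun j => -a j, fun t => by simp [chv_neg]⟩) ?_ P hadd hbase hlim f
  intro s t hst
  by_contra h
  push Not at h
  apply hst
  funext j
  apply chv_ext
  intro a
  have h1 := h (Pi.single j a)
  simp only [ContinuousMap.coe_mk] at h1
  have e : ∀ r : J → Gh A, ∏ k, chv (r k) ((Pi.single j a : J → A) k) = chv (r j) a := by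
    intro r
    rw [Finset.prod_eq_single j]
    · simp
    · intro k _ hk
      rw [Pi.single_eq_of_ne hk, chv_zero]
    · intro h
      exact absurd (Finset.mem_univ j) h
  rw [e, e] at h1
  exact h1

end inst

end SPH
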