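import Pool.Agent.SPH.SW

/-! Project SPH: row SMALL. If φ is L1-close to the limit density F then f - φ(beta) has small
Fourier norm, eventually along the ultrafilter. -/

open MeasureTheory Set Metric Filter
open scoped ENNReal NNReal Topology

noncomputable section
namespace SPH

namespace Sm

theorem ee_add (s t : ℝ) : ee (s + t) = ee s * ee t := by
  unfold ee
  rw [← Complex.exp_add]
  congr 1
  push_cast
  ring

theorem norm_ee (t : ℝ) : ‖ee t‖ = 1 := by
  unfold ee
  exact Complex.norm_exp_ofReal_mul_I _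

theorem continuous_ee : Continuous ee := by
  unfold ee
  fun_prop

theorem norm_ee_sub_le (s t : ℝ) : ‖ee s - ee t‖ ≤ 2 * Real.pi * |s - t| := by
  have e : ee s - ee t = ee t * (ee (s - t) - 1) := by
    have h : ee s = ee t * ee (s - t) := by
      rw [← ee_add]
      congr 1
      ring
    rw [h]
    ring
  rw [e, norm_mul, norm_ee, one_mul]
  have h := Real.norm_exp_I_mul_ofReal_sub_one_le (x := 2 * Real.pi * (s - t))
  have e2 : ee (s - t) = Complex.exp (Complex.I * ((2 * Real.pi * (s - t) : ℝ) : ℂ)) := by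
    unfold ee
    rw [mul_comm]
  rw [e2]
  refine h.trans ?_
  rw [Real.norm_eq_abs, abs_mul, abs_of_pos (by positivity : (0 : ℝ) < 2 * Real.pi)]

theorem continuous_beta {d : ℕ} {A : Type*} [AddCommGroup A] (w : A →+ E d) :
    Continuous (beta w : Sph d → XX d A) := by
  refine continuous_id.prodMk ?_
  refine Continuous.subtype_mk (continuous_pi fun a => ?_) _
  exact Circle.exp.continuous.comp (by fun_prop)

/-- the character e(-xi . x) on the sphere, as a continuous function -/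
def eC {d : ℕ} (ξ : E d) : C(Sph d, ℂ) :=
  ⟨fun x => ee (-(inner ℝ ξ (x : E d))), by
    exact continuous_ee.comp (by fun_prop)⟩

@[simp] theorem eC_apply {d : ℕ} (ξ : E d) (x : Sph d) : eC ξ x = ee (-(inner ℝ ξ (x : E d))) := rfl

theorem continuous_ee_inner {d : ℕ} (ξ : E d) :
    Continuous fun x : Sph d => ee (-(inner ℝ ξ (x : E d))) := (eC ξ).continuous

/-- bounded measurable functions are integrable on the sphere -/
theorem integrable_bdd {d : ℕ} {h : Sph d → ℂ} (hm : Measurable h) (C : ℝ) (hb : ∀ x, ‖h x‖ ≤ C) :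
    Integrable h (sig d) :=
  Integrable.of_bound hm.aestronglyMeasurable C (Eventually.of_forall hb)

theorem norm_integral_le_bdd {d : ℕ} {h : Sph d → ℂ} (C : ℝ) (hb : ∀ x, ‖h x‖ ≤ C) :
    ‖∫ x, h x ∂(sig d)‖ ≤ C := by
  have := norm_integral_le_of_norm_le_const (μ := sig d) (f := h) (C := C) (Eventually.of_forall hb)
  simpa using this

/-- weak convergence for complex test functions -/
theorem tendsto_cplx {d : ℕ} (U : Ultrafilter ℕ) (f : ℕ → Sph d → ℝ)
    (hf : ∀ n, Measurable (f n)) (hf0 : ∀ n x, 0 ≤ f n x) (hf1 : ∀ n x, f n x ≤ 1)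
    {A : Type*} [AddCommGroup A] [Countable A] (wf : ℕ → A →+ E d)
    (F : XX d A → ℝ) (hF : Measurable F) (hF0 : ∀ p, 0 ≤ F p) (hF1 : ∀ p, F p ≤ 1)
    (hFf : ∀ φ : C(XX d A, ℝ), Tendsto (fun n => ∫ x, f n x * φ (beta (wf n) x) ∂(sig d)) U
      (𝓝 (∫ p, F p * φ p ∂(muX d A))))
    (Θ : C(XX d A, ℂ)) :
    Tendsto (fun n => ∫ x, (f n x : ℂ) * Θ (beta (wf n) x) ∂(sig d)) U
      (𝓝 (∫ p, (F p : ℂ) * Θ p ∂(muX d A))) := by
  set Θr : C(XX d A, ℝ) := ⟨fun p => (Θ p).re, by fun_prop⟩ with hr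
  set Θi : C(XX d A, ℝ) := ⟨fun p => (Θ p).im, by fun_prop⟩ with hi
  have hbΘ : ∀ p, ‖Θ p‖ ≤ ‖Θ‖ := fun p => Θ.norm_coe_le_norm p
  have e1 : ∀ n, ∫ x, (f n x : ℂ) * Θ (beta (wf n) x) ∂(sig d) =
      ((∫ x, f n x * Θr (beta (wf n) x) ∂(sig d) : ℝ) : ℂ) +
      ((∫ x, f n x * Θi (beta (wf n) x) ∂(sig d) : ℝ) : ℂ) * Complex.I := by
    intro n
    have hint : Integrable (fun x => (f n x : ℂ) * Θ (beta (wf n) x)) (sig d) := by
      refine integrable_bdd ?_ ‖Θ‖ fun x => ?_
      · exact (Complex.measurable_ofReal.comp (hf n)).mul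
          (Θ.continuous.comp (continuous_beta (wf n))).measurable
      · rw [norm_mul, Complex.norm_real, Real.norm_eq_abs, abs_of_nonneg (hf0 n x)]
        calc f n x * ‖Θ (beta (wf n) x)‖ ≤ 1 * ‖Θ‖ :=
              mul_le_mul (hf1 n x) (hbΘ _) (norm_nonneg _) zero_le_one
          _ = ‖Θ‖ := one_mul _
    have h := integral_re_add_im (𝕜 := ℂ) hint
    rw [← h]
    have e2 : ∀ x, RCLike.re ((f n x : ℂ) * Θ (beta (wf n) x)) = f n x * Θr (beta (wf n) x) := by
      intro x
      simp [hr]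
    have e3 : ∀ x, RCLike.im ((f n x : ℂ) * Θ (beta (wf n) x)) = f n x * Θi (beta (wf n) x) := by
      intro x
      simp [hi]
    simp only [e2, e3]
    rfl
  have e4 : ∫ p, (F p : ℂ) * Θ p ∂(muX d A) =
      ((∫ p, F p * Θr p ∂(muX d A) : ℝ) : ℂ) + ((∫ p, F p * Θi p ∂(muX d A) : ℝ) : ℂ) * Complex.I := by
    have hint : Integrable (fun p => (F p : ℂ) * Θ p) (muX d A) := by
      have : IsProbabilityMeasure (muX d A) := by unfold muX; infer_instance
      refine Integrable.of_bound ?_ ‖Θ‖ (Eventually.of_forall fun p => ?_)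
      · exact ((Complex.measurable_ofReal.comp hF).mul Θ.continuous.measurable).aestronglyMeasurable
      · rw [norm_mul, Complex.norm_real, Real.norm_eq_abs, abs_of_nonneg (hF0 p)]
        calc F p * ‖Θ p‖ ≤ 1 * ‖Θ‖ :=
              mul_le_mul (hF1 p) (hbΘ _) (norm_nonneg _) zero_le_one
          _ = ‖Θ‖ := one_mul _
    have h := integral_re_add_im (𝕜 := ℂ) hint
    rw [← h]
    have e2 : ∀ p, RCLike.re ((F p : ℂ) * Θ p) = F p * Θr p := by
      intro x
      simp [hr]
    have e3 : ∀ p, RCLike.im ((F p : ℂ) * Θ p) = F p * Θi p := by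
      intro x
      simp [hi]
    simp only [e2, e3]
    rfl
  simp only [e1]
  rw [e4]
  have h1 := (Complex.continuous_ofReal.tendsto _).comp (hFf Θr)
  have h2 := (Complex.continuous_ofReal.tendsto _).comp (hFf Θi)
  exact h1.add (h2.mul_const Complex.I)

/-- correlation of a fixed continuous function on the limit object with a new frequency -/
theorem tendsto_new {d : ℕ} (hrl : ∀ V : Sph d → ℂ, Integrable V (sig d) →
      Tendsto (fun ξ : E d => ∫ x : Sph d, V x * ee (inner ℝ ξ (x : E d)) ∂(sig d)) (cocompact (E d)) (𝓝 0))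
    (U : Ultrafilter ℕ) (A : AddSubgroup (ℕ → E d)) [Countable A]
    (wf : ℕ → A →+ E d) (hwf : ∀ n (a : A), wf n a = (a : ℕ → E d) n) (w' : ℕ → E d)
    (hw' : ∀ a ∈ A, Tendsto (fun n => ‖(a - w') n‖) U atTop) (Θ : C(XX d A, ℂ)) :
    Tendsto (fun n => ∫ x : Sph d, Θ (beta (wf n) x) * ee (-(inner ℝ (w' n) (x : E d))) ∂(sig d)) U
      (𝓝 0) := by
  have hmeas : ∀ (Φ : C(XX d A, ℂ)) (n : ℕ), Measurable fun x : Sph d =>
      Φ (beta (wf n) x) * ee (-(inner ℝ (w' n) (x : E d))) := fun Φ n =>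
    ((Φ.continuous.comp (continuous_beta (wf n))).mul (continuous_ee_inner (w' n))).measurable
  have hbd : ∀ (Φ : C(XX d A, ℂ)) (n : ℕ) (x : Sph d),
      ‖Φ (beta (wf n) x) * ee (-(inner ℝ (w' n) (x : E d)))‖ ≤ ‖Φ‖ := by
    intro Φ n x
    rw [norm_mul, norm_ee, mul_one]
    exact Φ.norm_coe_le_norm _
  have hint : ∀ (Φ : C(XX d A, ℂ)) (n : ℕ), Integrable (fun x : Sph d =>
      Φ (beta (wf n) x) * ee (-(inner ℝ (w' n) (x : E d)))) (sig d) := fun Φ n =>
    integrable_bdd (hmeas Φ n) _ (hbd Φ n)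
  refine sw_XX (fun Θ : C(XX d A, ℂ) => Tendsto (fun n => ∫ x : Sph d, Θ (beta (wf n) x) *
    ee (-(inner ℝ (w' n) (x : E d))) ∂(sig d)) U (𝓝 0)) ?_ ?_ ?_ Θ
  · intro f g hf hg
    have h := hf.add hg
    rw [add_zero] at h
    refine h.congr fun n => ?_
    rw [← integral_add (hint f n) (hint g n)]
    refine integral_congr_ae (Eventually.of_forall fun x => ?_)
    simp only [ContinuousMap.add_apply]
    ring
  · intro u a
    have hV : Integrable (fun x : Sph d => u x) (sig d) :=
      integrable_bdd u.continuous.measurable ‖u‖ fun x => u.norm_coe_le_norm x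
    have h := hrl (fun x => u x) hV
    have h2 : Tendsto (fun n => ((a : ℕ → E d) - w') n) U (cocompact (E d)) := by
      rw [← Metric.cobounded_eq_cocompact, ← tendsto_norm_atTop_iff_cobounded]
      exact hw' a a.2
    refine (h.comp h2).congr fun n => ?_
    refine integral_congr_ae (Eventually.of_forall fun x => ?_)
    show u x * ee (inner ℝ (((a : ℕ → E d) - w') n) (x : E d)) =
      u x * chv (bmap (wf n) (x : E d)) a * ee (-(inner ℝ (w' n) (x : E d)))
    rw [chv_bmap, mul_assoc, ← ee_add, hwf]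
    congr 2
    rw [Pi.sub_apply, inner_sub_left, sub_eq_add_neg]
  · intro f hf
    rw [Metric.tendsto_nhds]
    intro ε hε
    obtain ⟨g, hg, hfg⟩ := hf (ε / 2) (half_pos hε)
    rw [Metric.tendsto_nhds] at hg
    filter_upwards [hg (ε / 2) (half_pos hε)] with n hn
    rw [dist_zero_right] at hn ⊢
    have e : ∫ x : Sph d, f (beta (wf n) x) * ee (-(inner ℝ (w' n) (x : E d))) ∂(sig d) =
        ∫ x : Sph d, g (beta (wf n) x) * ee (-(inner ℝ (w' n) (x : E d))) ∂(sig d) +
        ∫ x : Sph d, (f (beta (wf n) x) - g (beta (wf n) x)) * ee (-(inner ℝ (w' n) (x : E d))) ∂(sig d) := by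
      rw [← integral_add (hint g n)]
      · refine integral_congr_ae (Eventually.of_forall fun x => ?_)
        show _ = g (beta (wf n) x) * ee (-(inner ℝ (w' n) (x : E d))) + _
        ring
      · have := (hint f n).sub (hint g n)
        refine this.congr (Eventually.of_forall fun x => ?_)
        show f (beta (wf n) x) * ee (-(inner ℝ (w' n) (x : E d))) -
          g (beta (wf n) x) * ee (-(inner ℝ (w' n) (x : E d))) = _
        ring
    rw [e]
    have h3 : ‖∫ x : Sph d, (f (beta (wf n) x) - g (beta (wf n) x)) *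
        ee (-(inner ℝ (w' n) (x : E d))) ∂(sig d)‖ ≤ ε / 2 := by
      refine norm_integral_le_bdd _ fun x => ?_
      rw [norm_mul, norm_ee, mul_one]
      exact hfg _
    calc _ ≤ _ := norm_add_le _ _
      _ < ε / 2 + ε / 2 := add_lt_add_of_lt_of_le hn h3
      _ = ε := add_halves ε

end Sm

open Sm in
/-- ROW SMALL, with Riemann-Lebesgue on the sphere and the equidistribution on XX as hypotheses. -/
theorem eventually_small_of {d : ℕ} (U : Ultrafilter ℕ) (f : ℕ → Sph d → ℝ)
    (hf : ∀ n, Measurable (f n)) (hf0 : ∀ n x, 0 ≤ f n x) (hf1 : ∀ n x, f n x ≤ 1)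
    (A : AddSubgroup (ℕ → E d)) [Countable A]
    (hrl : ∀ V : Sph d → ℂ, Integrable V (sig d) →
      Tendsto (fun ξ : E d => ∫ x : Sph d, V x * ee (inner ℝ ξ (x : E d)) ∂(sig d)) (cocompact (E d)) (𝓝 0))
    (hA : ∀ w : ℕ → E d, ∃ w' wb : ℕ → E d, w = w' + wb ∧
        (∃ C : ℝ, ∀ᶠ n in (U : Filter ℕ), ‖wb n‖ ≤ C) ∧
        (w' ∈ A ∨ ((∀ a ∈ A, Tendsto (fun n => ‖(a - w') n‖) U atTop) ∧
          ∀ u : C(Sph d, ℂ), Tendsto (fun n => ∫ x : Sph d, (f n x : ℂ) * u x *
            ee (-(inner ℝ (w' n) (x : E d))) ∂(sig d)) U (𝓝 0))))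
    (wf : ℕ → A →+ E d) (hwf : ∀ n (a : A), wf n a = (a : ℕ → E d) n)
    (heq : ∀ Θ : C(XX d A, ℂ), Tendsto (fun n => ∫ x : Sph d, Θ (beta (wf n) x) ∂(sig d)) U
      (𝓝 (∫ p, Θ p ∂(muX d A))))
    (F : XX d A → ℝ) (hF : Measurable F) (hF0 : ∀ p, 0 ≤ F p) (hF1 : ∀ p, F p ≤ 1)
    (hFf : ∀ φ : C(XX d A, ℝ), Tendsto (fun n => ∫ x, f n x * φ (beta (wf n) x) ∂(sig d)) U
      (𝓝 (∫ p, F p * φ p ∂(muX d A))))
    (φ : C(XX d A, ℝ)) (ε : ℝ) (hφ : ∫ p, |F p - φ p| ∂(muX d A) < ε) :
    ∀ᶠ n in (U : Filter ℕ), ∀ ξ : E d,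
      ‖∫ x : Sph d, ((f n x - φ (beta (wf n) x) : ℝ) : ℂ) * ee (-(inner ℝ ξ (x : E d))) ∂(sig d)‖ ≤ ε := by
  classical
  have : IsProbabilityMeasure (muX d A) := by unfold muX; infer_instance
  by_contra hcon
  rw [← Ultrafilter.eventually_not] at hcon
  -- bad frequencies
  have hex : ∀ᶠ n in (U : Filter ℕ), ∃ ξ : E d,
      ε < ‖∫ x : Sph d, ((f n x - φ (beta (wf n) x) : ℝ) : ℂ) * ee (-(inner ℝ ξ (x : E d))) ∂(sig d)‖ := by
    filter_upwards [hcon] with n hn
    push Not at hn
    exact hn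
  set I : ℕ → E d → ℂ := fun n ξ =>
    ∫ x : Sph d, ((f n x - φ (beta (wf n) x) : ℝ) : ℂ) * ee (-(inner ℝ ξ (x : E d))) ∂(sig d) with hI
  set w : ℕ → E d := fun n => if h : ∃ ξ : E d, ε < ‖I n ξ‖ then h.choose else 0 with hw
  have hwI : ∀ᶠ n in (U : Filter ℕ), ε < ‖I n (w n)‖ := by
    filter_upwards [hex] with n hn
    have e : w n = hn.choose := by
      rw [hw]
      exact dif_pos hn
    rw [e]
    exact hn.choose_spec
  obtain ⟨w', wb, hww, ⟨C, hC⟩, hcase⟩ := hA w
  -- the bounded part converges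
  obtain ⟨ξ, -, hξ⟩ := (isCompact_closedBall (0 : E d) C).ultrafilter_le_nhds (U.map wb) (by
    rw [Ultrafilter.coe_map, le_principal_iff, mem_map]
    filter_upwards [hC] with n hn
    rw [Set.mem_preimage, mem_closedBall_zero_iff]
    exact hn)
  have hwb : Tendsto wb U (𝓝 ξ) := hξ
  -- continuous functions
  set Φ : C(XX d A, ℂ) := ⟨fun p => ((φ p : ℝ) : ℂ), by fun_prop⟩ with hΦ
  have hφb : ∀ p, |φ p| ≤ ‖φ‖ := fun p => φ.norm_coe_le_norm p
  have hGb : ∀ n x, ‖((f n x - φ (beta (wf n) x) : ℝ) : ℂ)‖ ≤ 1 + ‖φ‖ := by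
    intro n x
    rw [Complex.norm_real, Real.norm_eq_abs]
    calc |f n x - φ (beta (wf n) x)| ≤ |f n x| + |φ (beta (wf n) x)| := abs_sub _ _
      _ ≤ 1 + ‖φ‖ := add_le_add (by rw [abs_of_nonneg (hf0 n x)]; exact hf1 n x) (hφb _)
  have hGm : ∀ n, Measurable fun x => ((f n x - φ (beta (wf n) x) : ℝ) : ℂ) := fun n =>
    Complex.measurable_ofReal.comp
      ((hf n).sub (φ.continuous.comp (continuous_beta (wf n))).measurable)
  -- replace wb by its limit
  set K : ℕ → ℂ := fun n => ∫ x : Sph d, ((f n x - φ (beta (wf n) x) : ℝ) : ℂ) *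
    (ee (-(inner ℝ (w' n) (x : E d))) * ee (-(inner ℝ ξ (x : E d)))) ∂(sig d) with hK
  have hdiff : Tendsto (fun n => I n (w n) - K n) U (𝓝 0) := by
    have hb : ∀ n, ‖I n (w n) - K n‖ ≤ (1 + ‖φ‖) * (2 * Real.pi * ‖wb n - ξ‖) := by
      intro n
      have i1 : Integrable (fun x : Sph d => ((f n x - φ (beta (wf n) x) : ℝ) : ℂ) *
          ee (-(inner ℝ (w n) (x : E d)))) (sig d) := by
        refine integrable_bdd ((hGm n).mul (continuous_ee_inner _).measurable) (1 + ‖φ‖) fun x => ?_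
        rw [norm_mul, norm_ee, mul_one]
        exact hGb n x
      have i2 : Integrable (fun x : Sph d => ((f n x - φ (beta (wf n) x) : ℝ) : ℂ) *
          (ee (-(inner ℝ (w' n) (x : E d))) * ee (-(inner ℝ ξ (x : E d))))) (sig d) := by
        refine integrable_bdd ((hGm n).mul ((continuous_ee_inner _).mul
          (continuous_ee_inner _)).measurable) (1 + ‖φ‖) fun x => ?_
        rw [norm_mul, norm_mul, norm_ee, norm_ee, mul_one, mul_one]
        exact hGb n x
      have e : I n (w n) - K n = ∫ x : Sph d, ((f n x - φ (beta (wf n) x) : ℝ) : ℂ) *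
          (ee (-(inner ℝ (w n) (x : E d))) -
            ee (-(inner ℝ (w' n) (x : E d))) * ee (-(inner ℝ ξ (x : E d)))) ∂(sig d) := by
        show (∫ x : Sph d, _ ∂(sig d)) - (∫ x : Sph d, _ ∂(sig d)) = _
        rw [← integral_sub i1 i2]
        refine integral_congr_ae (Eventually.of_forall fun x => ?_)
        show _ - _ = _
        ring
      rw [e]
      refine norm_integral_le_bdd _ fun x => ?_
      rw [norm_mul]
      refine mul_le_mul (hGb n x) ?_ (norm_nonneg _) (by positivity)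
      rw [← ee_add]
      refine (norm_ee_sub_le _ _).trans ?_
      refine mul_le_mul_of_nonneg_left ?_ (by positivity)
      have e3 : -(inner ℝ (w n) (x : E d)) - (-(inner ℝ (w' n) (x : E d)) + -(inner ℝ ξ (x : E d))) =
          -(inner ℝ (wb n - ξ) (x : E d)) := by
        have : w n = w' n + wb n := by rw [hww]; rfl
        rw [this, inner_add_left, inner_sub_left]
        ring
      rw [e3, abs_neg]
      have h4 := abs_real_inner_le_norm (wb n - ξ) (x : E d)
      rw [norm_coe_sph, mul_one] at h4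
      exact h4
    have ht : Tendsto (fun n => (1 + ‖φ‖) * (2 * Real.pi * ‖wb n - ξ‖)) U (𝓝 0) := by
      have h1 : Tendsto (fun n => ‖wb n - ξ‖) U (𝓝 0) := by
        have := (hwb.sub_const ξ).norm
        simpa using this
      have h2 := (h1.const_mul (2 * Real.pi)).const_mul (1 + ‖φ‖)
      simpa using h2
    exact squeeze_zero_norm hb ht
  -- the limit of K
  have hlimK : ∃ L : ℂ, ‖L‖ < ε ∧ Tendsto K U (𝓝 L) := by
    have hsplit : ∀ n, K n = ∫ x : Sph d, (f n x : ℂ) * (ee (-(inner ℝ ξ (x : E d))) *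
          ee (-(inner ℝ (w' n) (x : E d)))) ∂(sig d) -
        ∫ x : Sph d, Φ (beta (wf n) x) * (ee (-(inner ℝ ξ (x : E d))) *
          ee (-(inner ℝ (w' n) (x : E d)))) ∂(sig d) := by
      intro n
      have i1 : Integrable (fun x : Sph d => (f n x : ℂ) * (ee (-(inner ℝ ξ (x : E d))) *
          ee (-(inner ℝ (w' n) (x : E d))))) (sig d) := by
        refine integrable_bdd ((Complex.measurable_ofReal.comp (hf n)).mul ((continuous_ee_inner _).mul
          (continuous_ee_inner _)).measurable) 1 fun x => ?_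
        rw [norm_mul, norm_mul, norm_ee, norm_ee, mul_one, mul_one, Complex.norm_real,
          Real.norm_eq_abs, abs_of_nonneg (hf0 n x)]
        exact hf1 n x
      have i2 : Integrable (fun x : Sph d => Φ (beta (wf n) x) * (ee (-(inner ℝ ξ (x : E d))) *
          ee (-(inner ℝ (w' n) (x : E d))))) (sig d) := by
        refine integrable_bdd ((Φ.continuous.comp (continuous_beta (wf n))).measurable.mul
          ((continuous_ee_inner _).mul (continuous_ee_inner _)).measurable) ‖Φ‖ fun x => ?_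
        rw [norm_mul, norm_mul, norm_ee, norm_ee, mul_one, mul_one]
        exact Φ.norm_coe_le_norm _
      rw [← integral_sub i1 i2]
      show (∫ x : Sph d, _ ∂(sig d)) = _
      refine integral_congr_ae (Eventually.of_forall fun x => ?_)
      show ((f n x - φ (beta (wf n) x) : ℝ) : ℂ) * _ = (f n x : ℂ) * _ - ((φ (beta (wf n) x) : ℝ) : ℂ) * _
      push_cast
      ring
    rcases hcase with hmem | ⟨hnew, hzero⟩
    · -- the frequency belongs to A
      set a : A := ⟨w', hmem⟩ with ha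
      have hchv : ∀ n (x : Sph d), chv (bmap (wf n) (x : E d)) (-a) =
          ee (-(inner ℝ (w' n) (x : E d))) := by
        intro n x
        rw [chv_bmap, map_neg, hwf, inner_neg_left]
      set Ψ : C(XX d A, ℂ) := ⟨fun p => eC ξ p.1 * chC (-a) p.2, by fun_prop⟩ with hΨ
      have hΨv : ∀ n (x : Sph d), Ψ (beta (wf n) x) = ee (-(inner ℝ ξ (x : E d))) *
          ee (-(inner ℝ (w' n) (x : E d))) := by
        intro n x
        show ee (-(inner ℝ ξ (x : E d))) * chv (bmap (wf n) (x : E d)) (-a) = _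
        rw [hchv]
      have hΨn : ∀ p, ‖Ψ p‖ = 1 := by
        intro p
        show ‖ee (-(inner ℝ ξ (p.1 : E d))) * chv p.2 (-a)‖ = 1
        rw [norm_mul, norm_ee, norm_chv, mul_one]
      have t1 := tendsto_cplx U f hf hf0 hf1 wf F hF hF0 hF1 hFf Ψ
      have t2 := heq (Φ * Ψ)
      refine ⟨(∫ p, (F p : ℂ) * Ψ p ∂(muX d A)) - ∫ p, (Φ * Ψ) p ∂(muX d A), ?_, ?_⟩
      · have i1 : Integrable (fun p => (F p : ℂ) * Ψ p) (muX d A) := by
          refine Integrable.of_bound ((Complex.measurable_ofReal.comp hF).mul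
            Ψ.continuous.measurable).aestronglyMeasurable 1 (Eventually.of_forall fun p => ?_)
          rw [norm_mul, hΨn, mul_one, Complex.norm_real, Real.norm_eq_abs, abs_of_nonneg (hF0 p)]
          exact hF1 p
        have i2 : Integrable (fun p => (Φ * Ψ) p) (muX d A) :=
          Integrable.of_bound (Φ * Ψ).continuous.measurable.aestronglyMeasurable ‖Φ * Ψ‖
            (Eventually.of_forall fun p => (Φ * Ψ).norm_coe_le_norm p)
        rw [← integral_sub i1 i2]
        refine lt_of_le_of_lt (norm_integral_le_integral_norm _) (lt_of_le_of_lt (le_of_eq ?_) hφ)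
        refine integral_congr_ae (Eventually.of_forall fun p => ?_)
        show ‖(F p : ℂ) * Ψ p - ((φ p : ℝ) : ℂ) * Ψ p‖ = |F p - φ p|
        rw [← sub_mul, norm_mul, hΨn, mul_one, ← Complex.ofReal_sub, Complex.norm_real,
          Real.norm_eq_abs]
      · refine (t1.sub t2).congr fun n => ?_
        rw [hsplit n]
        congr 1
        · refine integral_congr_ae (Eventually.of_forall fun x => ?_)
          show (f n x : ℂ) * Ψ (beta (wf n) x) = _
          rw [hΨv]
        · refine integral_congr_ae (Eventually.of_forall fun x => ?_)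
          show Φ (beta (wf n) x) * Ψ (beta (wf n) x) = _
          rw [hΨv]
    · -- a new frequency
      have hεpos : 0 < ε := lt_of_le_of_lt (integral_nonneg fun p => abs_nonneg _) hφ
      refine ⟨0, by simpa using hεpos, ?_⟩
      have t1 := hzero (eC ξ)
      set Θ : C(XX d A, ℂ) := ⟨fun p => Φ p * eC ξ p.1, by fun_prop⟩ with hΘ
      have t2 := tendsto_new hrl U A wf hwf w' hnew Θ
      have t3 := t1.sub t2
      rw [sub_zero] at t3
      refine t3.congr fun n => ?_
      rw [hsplit n]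
      congr 1
      · refine integral_congr_ae (Eventually.of_forall fun x => ?_)
        show (f n x : ℂ) * ee (-(inner ℝ ξ (x : E d))) * _ = _
        ring
      · refine integral_congr_ae (Eventually.of_forall fun x => ?_)
        show Φ (beta (wf n) x) * ee (-(inner ℝ ξ (x : E d))) * _ = _
        ring
  obtain ⟨L, hL, hKL⟩ := hlimK
  have hfin : Tendsto (fun n => ‖I n (w n)‖) U (𝓝 ‖L‖) := by
    have h := (hdiff.add hKL).norm
    rw [zero_add] at h
    refine h.congr fun n => ?_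
    rw [sub_add_cancel]
  have hev := hfin.eventually (gt_mem_nhds hL)
  obtain ⟨n, h1, h2⟩ := (hwI.and hev).exists
  exact absurd h2 (not_lt.mpr h1.le)

end SPH
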