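import Pool.Agent.SPH.RL
import Pool.Agent.SPH.RLG2
import Pool.Agent.SPH.SW
import Pool.Agent.SPH.Gh
import Pool.Agent.SPH.PiY
import Pool.Agent.SPH.Small

/-! Project SPH (MP_f7e9f1_co): equidistribution on X and Y; linearly independent families,
of any rank. -/

open MeasureTheory Set Metric Filter
open scoped ENNReal NNReal Topology

noncomputable section
namespace SPH
namespace H31

section
variable {Z W : Type*} [MeasurableSpace Z] [TopologicalSpace W] [CompactSpace W]
  [MeasurableSpace W] [BorelSpace W]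

theorem int_comp (ν : Measure Z) [IsProbabilityMeasure ν] {b : Z → W} (hb : Measurable b)
    (f : C(W, ℂ)) : Integrable (fun x => f (b x)) ν :=
  Integrable.of_bound (f.continuous.measurable.comp hb).aestronglyMeasurable ‖f‖
    (Eventually.of_forall fun _ => f.norm_coe_le_norm _)

theorem int_self (M : Measure W) [IsProbabilityMeasure M] (f : C(W, ℂ)) :
    Integrable (fun y => f y) M := int_comp M measurable_id f

/-- the set of test functions is closed under sums -/
theorem eq_add (ν : Measure Z) [IsProbabilityMeasure ν] (M : Measure W) [IsProbabilityMeasure M]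
    (U : Filter ℕ) (b : ℕ → Z → W) (hb : ∀ n, Measurable (b n)) (f g : C(W, ℂ))
    (hf : Tendsto (fun n => ∫ x, f (b n x) ∂ν) U (𝓝 (∫ y, f y ∂M)))
    (hg : Tendsto (fun n => ∫ x, g (b n x) ∂ν) U (𝓝 (∫ y, g y ∂M))) :
    Tendsto (fun n => ∫ x, (f + g) (b n x) ∂ν) U (𝓝 (∫ y, (f + g) y ∂M)) := by
  have e : ∫ y, (f + g) y ∂M = ∫ y, f y ∂M + ∫ y, g y ∂M :=
    integral_add (int_self M f) (int_self M g)
  rw [e]
  refine (hf.add hg).congr fun n => ?_
  exact (integral_add (int_comp ν (hb n) f) (int_comp ν (hb n) g)).symm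

/-- the set of test functions is closed under uniform limits -/
theorem eq_lim (ν : Measure Z) [IsProbabilityMeasure ν] (M : Measure W) [IsProbabilityMeasure M]
    (U : Filter ℕ) (b : ℕ → Z → W) (hb : ∀ n, Measurable (b n)) (f : C(W, ℂ))
    (hf : ∀ ε : ℝ, 0 < ε → ∃ g : C(W, ℂ),
      Tendsto (fun n => ∫ x, g (b n x) ∂ν) U (𝓝 (∫ y, g y ∂M)) ∧ ∀ p, ‖f p - g p‖ ≤ ε) :
    Tendsto (fun n => ∫ x, f (b n x) ∂ν) U (𝓝 (∫ y, f y ∂M)) := by
  rw [Metric.tendsto_nhds]
  intro ε hε
  obtain ⟨g, hg, hfg⟩ := hf (ε / 4) (by positivity)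
  filter_upwards [Metric.tendsto_nhds.mp hg (ε / 4) (by positivity)] with n hn
  rw [dist_eq_norm] at hn ⊢
  have h1 : ‖∫ x, f (b n x) ∂ν - ∫ x, g (b n x) ∂ν‖ ≤ ε / 4 := by
    rw [← integral_sub (int_comp ν (hb n) f) (int_comp ν (hb n) g)]
    have := norm_integral_le_of_norm_le_const (μ := ν)
      (Eventually.of_forall fun x => hfg (b n x))
    simpa using this
  have h2 : ‖∫ y, g y ∂M - ∫ y, f y ∂M‖ ≤ ε / 4 := by
    rw [← integral_sub (int_self M g) (int_self M f)]
    have := norm_integral_le_of_norm_le_const (μ := M) (f := fun y => g y - f y) (C := ε / 4)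
      (Eventually.of_forall fun x => by rw [norm_sub_rev]; exact hfg x)
    simpa using this
  have e : ∫ x, f (b n x) ∂ν - ∫ y, f y ∂M = (∫ x, f (b n x) ∂ν - ∫ x, g (b n x) ∂ν) +
      (∫ x, g (b n x) ∂ν - ∫ y, g y ∂M) + (∫ y, g y ∂M - ∫ y, f y ∂M) := by ring
  rw [e]
  have h3 := norm_add_le ((∫ x, f (b n x) ∂ν - ∫ x, g (b n x) ∂ν) +
      (∫ x, g (b n x) ∂ν - ∫ y, g y ∂M)) (∫ y, g y ∂M - ∫ y, f y ∂M)
  have h4 := norm_add_le (∫ x, f (b n x) ∂ν - ∫ x, g (b n x) ∂ν)
      (∫ x, g (b n x) ∂ν - ∫ y, g y ∂M)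
  linarith

end

theorem ee_sum' {J : Type*} (s : Finset J) (f : J → ℝ) :
    ∏ j ∈ s, ee (f j) = ee (∑ j ∈ s, f j) := by
  classical
  induction s using Finset.induction_on with
  | empty => simp [ee]
  | insert a s ha ih => rw [Finset.prod_insert ha, Finset.sum_insert ha, ee_add, ih]

theorem tendsto_cocompact_of_norm {F : Type*} [NormedAddCommGroup F] [ProperSpace F]
    {U : Filter ℕ} {w : ℕ → F} (h : Tendsto (fun n => ‖w n‖) U atTop) :
    Tendsto w U (cocompact F) := by
  rw [← Metric.cobounded_eq_cocompact]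
  exact tendsto_norm_atTop_iff_cobounded.mp h

theorem measurable_bmap {d : ℕ} {A : Type*} [AddCommGroup A] (w : A →+ E d) :
    Measurable (bmap w) := (continuous_bmap w).measurable

/-- equidistribution on X -/
theorem equidist_X {d : ℕ} (hd : 3 ≤ d) {A : Type*} [AddCommGroup A] [Countable A]
    (w : ℕ → A →+ E d) (U : Ultrafilter ℕ)
    (hinf : ∀ a : A, a ≠ 0 → Tendsto (fun n => ‖w n a‖) U atTop)
    (hsep : ∀ a : A, a ≠ 0 → ∃ χ : Gh A, χ.1 a ≠ 1) (φ : C(XX d A, ℂ)) :
    Tendsto (fun n => ∫ x : Sph d, φ (beta (w n) x) ∂(sig d)) U (𝓝 (∫ p, φ p ∂(muX d A))) := by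
  have i1 : IsProbabilityMeasure (muX d A) := by unfold muX; infer_instance
  have hbm : ∀ n, Measurable (beta (d := d) (w n)) := fun n =>
    measurable_id.prodMk ((measurable_bmap (w n)).comp measurable_subtype_coe)
  refine sw_XX (A := A) (d := d) (fun φ => Tendsto (fun n => ∫ x : Sph d, φ (beta (w n) x) ∂(sig d)) U
    (𝓝 (∫ p, φ p ∂(muX d A)))) ?_ ?_ ?_ φ
  · exact fun f g hf hg => eq_add (sig d) (muX d A) U (fun n => beta (w n)) hbm f g hf hg
  · intro u a
    show Tendsto (fun n => ∫ x : Sph d, u x * chv (bmap (w n) (x : E d)) a ∂(sig d)) U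
      (𝓝 (∫ p : XX d A, u p.1 * chv p.2 a ∂((sig d).prod (hgh A))))
    rw [integral_prod_mul (fun x => u x) (fun t => chv t a)]
    by_cases ha : a = 0
    · subst ha
      have h1 : ∀ n, ∫ x : Sph d, u x * chv (bmap (w n) (x : E d)) 0 ∂(sig d) =
          ∫ x : Sph d, u x ∂(sig d) := by
        intro n
        simp only [chv_zero, mul_one]
      simp only [chv_zero, integral_const, probReal_univ, one_smul, mul_one]
      exact tendsto_const_nhds
    · rw [integral_chv a (hsep a ha), mul_zero]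
      have h1 := (rl_sphere d hd (fun x => u x) (int_self (sig d) u)).comp
        (tendsto_cocompact_of_norm (hinf a ha))
      refine h1.congr fun n => ?_
      show ∫ x : Sph d, u x * ee (inner ℝ (w n a) (x : E d)) ∂(sig d) = _
      simp only [chv_bmap]
  · exact fun f hf => eq_lim (sig d) (muX d A) U (fun n => beta (w n)) hbm f hf

/-- equidistribution on Y for linearly independent families -/
theorem equidist_Y_li {d : ℕ} (hd : 3 ≤ d) {A : Type*} [AddCommGroup A] [Countable A]
    (w : ℕ → A →+ E d) (U : Ultrafilter ℕ)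
    (hinf : ∀ a : A, a ≠ 0 → Tendsto (fun n => ‖w n a‖) U atTop)
    (hsep : ∀ a : A, a ≠ 0 → ∃ χ : Gh A, χ.1 a ≠ 1) {J : Type*} [Fintype J] (v : J → Sph d)
    (hv : LinearIndependent ℝ (fun j => (v j : E d))) (φ : C(YY d A J, ℂ)) :
    Tendsto (fun n => ∫ T : OG d, φ (eta (w n) v T) ∂(mu d)) U (𝓝 (∫ y, φ y ∂(muY d A J))) := by
  have i1 : IsProbabilityMeasure (muY d A J) := by unfold muY; infer_instance
  have i2 : BorelSpace (YY d A J) := Prod.borelSpace
  have hbm : ∀ n, Measurable (eta (d := d) (w n) v) := by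
    intro n
    refine measurable_id.prodMk (measurable_pi_lambda _ fun j => ?_)
    have hc : Continuous fun T : OG d => act T (v j : E d) :=
      (continuous_act d).comp (continuous_id.prodMk continuous_const)
    exact (measurable_bmap (w n)).comp hc.measurable
  refine sw_YY (A := A) (d := d) (J := J) (fun φ => Tendsto (fun n => ∫ T : OG d, φ (eta (w n) v T) ∂(mu d)) U
    (𝓝 (∫ y, φ y ∂(muY d A J)))) ?_ ?_ ?_ φ
  · exact fun f g hf hg => eq_add (mu d) (muY d A J) U (fun n => eta (w n) v) hbm f g hf hg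
  · intro u a
    show Tendsto (fun n => ∫ T : OG d, u T * ∏ j, chv (bmap (w n) (act T (v j : E d))) (a j) ∂(mu d)) U
      (𝓝 (∫ p : YY d A J, u p.1 * ∏ j, chv (p.2 j) (a j) ∂((mu d).prod (Measure.pi fun _ : J => hgh A))))
    rw [integral_prod_mul (fun T => u T) (fun t : J → Gh A => ∏ j, chv (t j) (a j)),
      integral_fintype_prod_eq_prod (fun j t => chv t (a j))]
    by_cases ha : ∀ j, a j = 0
    · have h1 : ∀ n, ∫ T : OG d, u T * ∏ j, chv (bmap (w n) (act T (v j : E d))) (a j) ∂(mu d) =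
          ∫ T : OG d, u T ∂(mu d) := by
        intro n
        simp only [ha, chv_zero, Finset.prod_const_one, mul_one]
      simp only [ha, chv_zero, integral_const, probReal_univ, one_smul, Finset.prod_const_one,
        mul_one]
      exact tendsto_const_nhds
    · push Not at ha
      obtain ⟨j0, hj0⟩ := ha
      rw [Finset.prod_eq_zero (Finset.mem_univ j0) (integral_chv (a j0) (hsep _ hj0)), mul_zero]
      have hn : Tendsto (fun n => ‖fun j => w n (a j)‖) U atTop := by
        refine tendsto_atTop_mono (fun n => ?_) (hinf (a j0) hj0)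
        exact norm_le_pi_norm (fun j => w n (a j)) j0
      have h1 := (rl_group_li hd v hv u).comp (tendsto_cocompact_of_norm hn)
      refine h1.congr fun n => ?_
      show ∫ T : OG d, u T * ee (∑ j, inner ℝ (w n (a j)) (act T (v j))) ∂(mu d) = _
      refine integral_congr_ae (Eventually.of_forall fun T => ?_)
      simp only [chv_bmap]
      rw [ee_sum']
  · exact fun f hf => eq_lim (mu d) (muY d A J) U (fun n => eta (w n) v) hbm f hf

end H31
end SPH
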