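import Pool.Agent.SPH.GhDefs

/-!
Small facts used in the assembly of the removal statement.
-/

open MeasureTheory Set Metric Filter
open scoped ENNReal NNReal Topology

universe u

noncomputable section
namespace SPH

/-- every vector has a splitting of the others -/
def Split {d : ℕ} {ι : Type*} (v : ι → Sph d) : Prop :=
  ∀ i0 : ι, ∃ A : Finset ι, i0 ∉ A ∧
    (v i0 : E d) ∉ Submodule.span ℝ ((fun i => (v i : E d)) '' (A : Set ι)) ∧
    (v i0 : E d) ∉ Submodule.span ℝ ((fun i => (v i : E d)) '' {i | i ∉ A ∧ i ≠ i0}) ∧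
    Module.finrank ℝ (Submodule.span ℝ ((fun i => (v i : E d)) '' (A : Set ι))) + 2 ≤ d

namespace H31

/-- a basis chosen among the vectors -/
theorem exists_basis_among {d : ℕ} {ι : Type u} [Fintype ι] (v : ι → Sph d) :
    ∃ (J : Type u) (_ : Fintype J) (vJ : J → Sph d) (l : ι → J → ℝ),
      LinearIndependent ℝ (fun j => (vJ j : E d)) ∧ (∀ j, ∃ i, vJ j = v i) ∧
      ∀ i, (v i : E d) = ∑ j, l i j • (vJ j : E d) := by
  classical
  obtain ⟨κ, a, ha, hspan, hli⟩ := exists_linearIndependent' ℝ (fun i => (v i : E d))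
  have : Finite κ := Finite.of_injective a ha
  have : Fintype κ := Fintype.ofFinite κ
  have h : ∀ i, ∃ c : κ → ℝ, ∑ j, c j • ((v (a j) : Sph d) : E d) = (v i : E d) := by
    intro i
    have h1 : (v i : E d) ∈ Submodule.span ℝ (range ((fun i => (v i : E d)) ∘ a)) := by
      rw [hspan]
      exact Submodule.subset_span ⟨i, rfl⟩
    exact (Submodule.mem_span_range_iff_exists_fun ℝ).1 h1
  choose c hc using h
  exact ⟨κ, inferInstance, fun j => v (a j), c, hli, fun j => ⟨a j, rfl⟩, fun i => (hc i).symm⟩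

theorem piY_mul {d : ℕ} {A J : Type*} [AddCommGroup A] [Fintype J] (x : Sph d) (m : J → A →+ A)
    (g y : YY d A J) : piY x m (g * y) = aY m g (piY x m y) := by
  show ((g.1 * y.1) • x, Lmap m (g.2 * y.2)) = (g.1 • (y.1 • x), Lmap m g.2 * Lmap m y.2)
  rw [mul_smul, map_mul]

theorem aY_one {d : ℕ} {A J : Type*} [AddCommGroup A] [Fintype J] (m : J → A →+ A)
    (p : XX d A) : aY (J := J) m 1 p = p := by
  show ((1 : OG d) • p.1, Lmap m 1 * p.2) = p
  rw [one_smul, map_one, one_mul]

/-- complex equidistribution implies real equidistribution -/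
theorem tendsto_real_of_complex {Z W : Type*} [TopologicalSpace W] [MeasurableSpace Z]
    [MeasurableSpace W] (ν : Measure Z) (M : Measure W) (U : Filter ℕ) (b : ℕ → Z → W)
    (h : ∀ φ : C(W, ℂ), Tendsto (fun n => ∫ x, φ (b n x) ∂ν) U (𝓝 (∫ y, φ y ∂M)))
    (φ : C(W, ℝ)) : Tendsto (fun n => ∫ x, φ (b n x) ∂ν) U (𝓝 (∫ y, φ y ∂M)) := by
  let ψ : C(W, ℂ) := ⟨fun y => (φ y : ℂ), Complex.continuous_ofReal.comp φ.continuous⟩
  have h1 := h ψ
  have e1 : ∀ n, ∫ x, ψ (b n x) ∂ν = ((∫ x, φ (b n x) ∂ν : ℝ) : ℂ) := fun n => integral_ofReal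
  have e2 : ∫ y, ψ y ∂M = ((∫ y, φ y ∂M : ℝ) : ℂ) := integral_ofReal
  simp only [e1] at h1
  rw [e2] at h1
  have h2 := (Complex.continuous_re.tendsto _).comp h1
  simpa [Function.comp_def] using h2

/-- the density of a family of sets -/
theorem integral_prod_indicator {d : ℕ} {ι : Type*} [Fintype ι] (v : ι → Sph d)
    (S : ι → Set (Sph d)) (hS : ∀ i, MeasurableSet (S i)) :
    ∫ T : OG d, ∏ i, (S i).indicator (fun _ => (1 : ℝ)) (T • v i) ∂(mu d) =
      (mu d {T | ∀ i, T • v i ∈ S i}).toReal := by
  classical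
  have hm : MeasurableSet {T : OG d | ∀ i, T • v i ∈ S i} := by
    have : {T : OG d | ∀ i, T • v i ∈ S i} = ⋂ i, (fun T : OG d => T • v i) ⁻¹' (S i) := by
      ext T; simp
    rw [this]
    refine MeasurableSet.iInter fun i => ?_
    have hc : Continuous fun T : OG d => T • v i := continuous_id.smul continuous_const
    exact (hS i).preimage hc.measurable
  have e : (fun T : OG d => ∏ i, (S i).indicator (fun _ => (1 : ℝ)) (T • v i)) =
      {T : OG d | ∀ i, T • v i ∈ S i}.indicator (fun _ => (1 : ℝ)) := by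
    funext T
    by_cases hT : ∀ i, T • v i ∈ S i
    · rw [Set.indicator_of_mem (show T ∈ {T : OG d | ∀ i, T • v i ∈ S i} from hT)]
      refine Finset.prod_eq_one fun i _ => ?_
      exact Set.indicator_of_mem (hT i) _
    · rw [Set.indicator_of_notMem (show T ∉ {T : OG d | ∀ i, T • v i ∈ S i} from hT)]
      push Not at hT
      obtain ⟨i, hi⟩ := hT
      refine Finset.prod_eq_zero (Finset.mem_univ i) ?_
      exact Set.indicator_of_notMem hi _
  rw [e, integral_indicator hm, integral_const, smul_eq_mul, mul_one]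
  simp [Measure.real]

theorem continuous_Lmap_aux {A J : Type*} [AddCommGroup A] [Fintype J] (m : J → A →+ A) :
    Continuous (Lmap m : (J → Gh A) → Gh A) := by
  refine Continuous.subtype_mk (continuous_pi fun a => ?_) _
  refine continuous_finset_prod _ fun j _ => ?_
  exact (continuous_apply (m j a)).comp (continuous_subtype_val.comp (continuous_apply j))

theorem continuous_aY {d : ℕ} {A J : Type*} [AddCommGroup A] [Fintype J] (m : J → A →+ A) :
    Continuous fun z : YY d A J × XX d A => aY m z.1 z.2 := by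
  have h1 : Continuous fun z : YY d A J × XX d A => z.1.1 • z.2.1 :=
    (continuous_fst.comp continuous_fst).smul (continuous_fst.comp continuous_snd)
  have h2 : Continuous fun z : YY d A J × XX d A => Lmap m z.1.2 * z.2.2 :=
    ((continuous_Lmap_aux m).comp (continuous_snd.comp continuous_fst)).mul
      (continuous_snd.comp continuous_snd)
  exact h1.prodMk h2

theorem continuous_piY {d : ℕ} {A J : Type*} [AddCommGroup A] [Fintype J] (x : Sph d)
    (m : J → A →+ A) : Continuous (piY (d := d) (A := A) (J := J) x m) := by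
  have h1 : Continuous fun y : YY d A J => y.1 • x := continuous_fst.smul continuous_const
  have h2 : Continuous fun y : YY d A J => Lmap m y.2 :=
    (continuous_Lmap_aux m).comp continuous_snd
  exact h1.prodMk h2

end H31

end SPH
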