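import Pool.Agent.SPH.Rot

/-! Project SPH (MP_f7e9f1_co), helper40: the law of one matrix entry of the stabiliser. -/

open MeasureTheory Set Metric
open scoped ENNReal NNReal Topology

noncomputable section
namespace SPH

private theorem inner_bas_kl {d : ℕ} (i j : ℕ) (hi : i ≤ d) (hj : j ≤ d) :
    inner ℝ (bas d i) (bas d j) = if i = j then (1 : ℝ) else 0 := by
  unfold bas
  rw [EuclideanSpace.inner_single_left]
  simp only [map_one, one_mul]
  by_cases h : i = j
  · subst h
    simp
  · have hne : (Fin.ofNat (d + 1) i) ≠ (Fin.ofNat (d + 1) j) := by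
      intro e
      have e2 := congrArg Fin.val e
      simp only [Fin.val_ofNat] at e2
      rw [Nat.mod_eq_of_lt (by omega), Nat.mod_eq_of_lt (by omega)] at e2
      exact h e2
    rw [if_neg h, PiLp.single_apply, if_neg hne]

private theorem norm_bas_kl {d : ℕ} (i : ℕ) : ‖bas d i‖ = 1 := by
  simp [bas]

private theorem continuous_kact_kl {d : ℕ} (x : E d) : Continuous fun k : Kst d => kact k x := by
  have : Continuous fun k : Kst d => ((k : OG d), x) :=
    continuous_subtype_val.prodMk continuous_const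
  exact (continuous_act d).comp this

/-- ROW KLAW. Lebesgue measure is absolutely continuous w.r.t. the law of <e2, k e2>. -/
theorem klaw (d : ℕ) (hd : 3 ≤ d) (N : Set ℝ) (hN : MeasurableSet N)
    (h : kap d {k | inner ℝ (bas d 1) (kact k (bas d 1)) ∈ N} = 0) : volume (N ∩ Ioo (-1) 1) = 0 := by
  have i01 : inner ℝ (bas d 0) (bas d 1) = 0 := by rw [inner_bas_kl 0 1 (by omega) (by omega)]; simp
  have i02 : inner ℝ (bas d 0) (bas d 2) = 0 := by rw [inner_bas_kl 0 2 (by omega) (by omega)]; simp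
  have i12 : inner ℝ (bas d 1) (bas d 2) = 0 := by rw [inner_bas_kl 1 2 (by omega) (by omega)]; simp
  have i11 : inner ℝ (bas d 1) (bas d 1) = 1 := by rw [inner_bas_kl 1 1 (by omega) (by omega)]; simp
  obtain ⟨R, hRc, hRg, hR⟩ := exists_rot (bas d 1) (bas d 2) (norm_bas_kl 1) (norm_bas_kl 2) i12
  have hRK : ∀ θ, R θ ∈ Kst d := by
    intro θ
    show act (R θ) (bas d 0) = bas d 0
    rw [hR, i01, i02]
    simp
  set x : Kst d → ℝ := fun k => inner ℝ (bas d 1) (kact k (bas d 1)) with hx
  set y : Kst d → ℝ := fun k => inner ℝ (bas d 2) (kact k (bas d 1)) with hy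
  have hxc : Continuous x := continuous_const.inner (continuous_kact_kl _)
  have hyc : Continuous y := continuous_const.inner (continuous_kact_kl _)
  have hrot : ∀ (θ : ℝ) (k : Kst d), x ((⟨R θ, hRK θ⟩ : Kst d) * k) = Real.cos θ * x k - Real.sin θ * y k := by
    intro θ k
    have e1 : kact ((⟨R θ, hRK θ⟩ : Kst d) * k) (bas d 1) = act (R θ) (kact k (bas d 1)) := by
      show act (((⟨R θ, hRK θ⟩ : Kst d) * k : Kst d) : OG d) (bas d 1) = _
      rw [Subgroup.coe_mul, act_mul]
      rfl
    show inner ℝ (bas d 1) (kact ((⟨R θ, hRK θ⟩ : Kst d) * k) (bas d 1)) = _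
    rw [e1, hR]
    rw [inner_add_right, inner_add_right, inner_smul_right, inner_smul_right, i11, i12]
    rw [real_inner_comm (bas d 1) (kact k (bas d 1)), real_inner_comm (bas d 2) (kact k (bas d 1))]
    show x k + ((Real.cos θ - 1) * x k - Real.sin θ * y k) * 1 + _ * 0 = _
    ring
  -- the null set in the product
  have hFm : Measurable fun p : ℝ × Kst d => Real.cos p.1 * x p.2 - Real.sin p.1 * y p.2 := by
    have : Continuous fun p : ℝ × Kst d => Real.cos p.1 * x p.2 - Real.sin p.1 * y p.2 := by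
      fun_prop
    exact this.measurable
  have hW : MeasurableSet ((fun p : ℝ × Kst d => Real.cos p.1 * x p.2 - Real.sin p.1 * y p.2) ⁻¹' N) :=
    hFm hN
  have h1 : ((volume : Measure ℝ).prod (kap d))
      ((fun p : ℝ × Kst d => Real.cos p.1 * x p.2 - Real.sin p.1 * y p.2) ⁻¹' N) = 0 := by
    rw [Measure.measure_prod_null hW]
    refine Filter.Eventually.of_forall fun θ => ?_
    show kap d (Prod.mk θ ⁻¹' _) = 0
    have e : (Prod.mk θ ⁻¹' ((fun p : ℝ × Kst d => Real.cos p.1 * x p.2 - Real.sin p.1 * y p.2) ⁻¹' N)) =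
        (fun k : Kst d => (⟨R θ, hRK θ⟩ : Kst d) * k) ⁻¹' {k | x k ∈ N} := by
      ext k
      simp only [mem_preimage, mem_ofPred_eq]
      rw [hrot]
    rw [e, measure_preimage_mul]
    exact h
  have h2 : ∀ᵐ k ∂(kap d), volume {θ : ℝ | Real.cos θ * x k - Real.sin θ * y k ∈ N} = 0 := by
    have h3 : ((kap d).prod (volume : Measure ℝ))
        (Prod.swap ⁻¹' ((fun p : ℝ × Kst d => Real.cos p.1 * x p.2 - Real.sin p.1 * y p.2) ⁻¹' N)) = 0 := by
      rw [← Measure.map_apply measurable_swap hW, Measure.prod_swap]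
      exact h1
    rw [Measure.measure_prod_null (measurable_swap hW)] at h3
    exact h3
  -- every radius below one
  have h4 : ∀ τ : ℝ, 0 < τ → τ < 1 → volume (N ∩ Ioo (-τ) τ) = 0 := by
    intro τ hτ0 hτ1
    have hO : IsOpen {k : Kst d | τ ^ 2 < x k ^ 2 + y k ^ 2} :=
      isOpen_lt continuous_const (by fun_prop)
    have h1O : (1 : Kst d) ∈ {k : Kst d | τ ^ 2 < x k ^ 2 + y k ^ 2} := by
      have e1 : kact (1 : Kst d) (bas d 1) = bas d 1 := by
        show act ((1 : Kst d) : OG d) (bas d 1) = _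
        rw [Subgroup.coe_one, act_one]
      show τ ^ 2 < (inner ℝ (bas d 1) (kact (1 : Kst d) (bas d 1))) ^ 2 +
        (inner ℝ (bas d 2) (kact (1 : Kst d) (bas d 1))) ^ 2
      rw [e1, i11, real_inner_comm, i12]
      nlinarith
    have hpos : kap d {k : Kst d | τ ^ 2 < x k ^ 2 + y k ^ 2} ≠ 0 := (hO.measure_pos _ ⟨1, h1O⟩).ne'
    obtain ⟨k, hk1, hk2⟩ : ∃ k : Kst d, τ ^ 2 < x k ^ 2 + y k ^ 2 ∧
        volume {θ : ℝ | Real.cos θ * x k - Real.sin θ * y k ∈ N} = 0 := by
      by_contra hcon
      push Not at hcon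
      apply hpos
      refine measure_mono_null ?_ (ae_iff.mp h2)
      intro k hk
      exact hcon k hk
    have hdiff : DifferentiableOn ℝ (fun θ : ℝ => Real.cos θ * x k - Real.sin θ * y k)
        {θ : ℝ | Real.cos θ * x k - Real.sin θ * y k ∈ N} := by
      apply Differentiable.differentiableOn
      fun_prop
    have him := addHaar_image_eq_zero_of_differentiableOn_of_addHaar_eq_zero volume hdiff hk2
    refine measure_mono_null ?_ him
    rintro t ⟨htN, ht1, ht2⟩
    set z : ℂ := ⟨x k, y k⟩ with hz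
    have hzn : τ < ‖z‖ := by
      have : τ ^ 2 < ‖z‖ ^ 2 := by
        rw [← Complex.normSq_eq_norm_sq, Complex.normSq_apply]
        have : z.re * z.re + z.im * z.im = x k ^ 2 + y k ^ 2 := by
          rw [hz]; ring
        rw [this]; exact hk1
      exact lt_of_pow_lt_pow_left₀ 2 (norm_nonneg z) this
    have hz0 : 0 < ‖z‖ := hτ0.trans hzn
    have hre : x k = ‖z‖ * Real.cos (Complex.arg z) := by
      rw [Complex.norm_mul_cos_arg]
    have him2 : y k = ‖z‖ * Real.sin (Complex.arg z) := by
      rw [Complex.norm_mul_sin_arg]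
    have hq1 : -1 ≤ t / ‖z‖ := by
      rw [le_div_iff₀ hz0]; linarith
    have hq2 : t / ‖z‖ ≤ 1 := by
      rw [div_le_iff₀ hz0]; linarith
    refine ⟨Real.arccos (t / ‖z‖) - Complex.arg z, ?_, ?_⟩
    · show Real.cos (Real.arccos (t / ‖z‖) - Complex.arg z) * x k -
        Real.sin (Real.arccos (t / ‖z‖) - Complex.arg z) * y k ∈ N
      have e : Real.cos (Real.arccos (t / ‖z‖) - Complex.arg z) * x k -
        Real.sin (Real.arccos (t / ‖z‖) - Complex.arg z) * y k = t := by
        have e1 : Real.cos (Real.arccos (t / ‖z‖) - Complex.arg z) * x k -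
          Real.sin (Real.arccos (t / ‖z‖) - Complex.arg z) * y k =
          ‖z‖ * Real.cos ((Real.arccos (t / ‖z‖) - Complex.arg z) + Complex.arg z) := by
          rw [Real.cos_add]
          rw [hre, him2]
          ring
        rw [e1, sub_add_cancel, Real.cos_arccos hq1 hq2]
        field_simp
      rw [e]; exact htN
    · show Real.cos (Real.arccos (t / ‖z‖) - Complex.arg z) * x k -
        Real.sin (Real.arccos (t / ‖z‖) - Complex.arg z) * y k = t
      have e1 : Real.cos (Real.arccos (t / ‖z‖) - Complex.arg z) * x k -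
          Real.sin (Real.arccos (t / ‖z‖) - Complex.arg z) * y k =
          ‖z‖ * Real.cos ((Real.arccos (t / ‖z‖) - Complex.arg z) + Complex.arg z) := by
          rw [Real.cos_add]
          rw [hre, him2]
          ring
      rw [e1, sub_add_cancel, Real.cos_arccos hq1 hq2]
      field_simp
  have h5 : N ∩ Ioo (-1) 1 ⊆ ⋃ n : ℕ, N ∩ Ioo (-(1 - 1 / ((n : ℝ) + 2))) (1 - 1 / ((n : ℝ) + 2)) := by
    rintro t ⟨htN, ht1, ht2⟩
    have habs : 0 < 1 - |t| := by
      have : |t| < 1 := abs_lt.mpr ⟨ht1, ht2⟩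
      linarith
    obtain ⟨n, hn⟩ := exists_nat_one_div_lt habs
    refine mem_iUnion.mpr ⟨n, htN, ?_⟩
    have h6 : 1 / ((n : ℝ) + 2) ≤ 1 / ((n : ℝ) + 1) := by
      apply one_div_le_one_div_of_le
      · positivity
      · linarith
    have h7 : |t| < 1 - 1 / ((n : ℝ) + 2) := by linarith
    exact abs_lt.mp h7
  refine measure_mono_null h5 (measure_iUnion_null fun n => h4 _ ?_ ?_)
  · have : 1 / ((n : ℝ) + 2) < 1 := by
      rw [div_lt_one (by positivity)]
      have : (0 : ℝ) ≤ n := Nat.cast_nonneg n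
      linarith
    linarith
  · have : 0 < 1 / ((n : ℝ) + 2) := by positivity
    linarith

end SPH
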