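import Pool.Agent.SPH.Lat2

/-! Project SPH (MP_f7e9f1_co), helper64, row PAIR: the law of a pair of independent uniform points. -/

open MeasureTheory Set Metric
open scoped ENNReal NNReal Topology

noncomputable section
namespace SPH

theorem inner_bas_one {d : ℕ} (hd : 1 ≤ d) : inner ℝ (bas d 0) (bas d 1) = 0 := by
  rw [inner_bas_zero, bas]
  have h : (Fin.ofNat (d + 1) 1 : Fin (d + 1)) ≠ 0 := by
    intro h
    have h2 := congrArg Fin.val h
    simp [Fin.ofNat] at h2
    omega
  rw [PiLp.single_apply, if_neg (fun h' => h h'.symm)]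

theorem inner_va_va {d : ℕ} (hd : 1 ≤ d) (ψ : ℝ) : inner ℝ (va d ψ) (va d ψ) = 1 := by
  have h0 : inner ℝ (bas d 0) (bas d 0) = 1 := by rw [real_inner_self_eq_norm_sq, norm_bas]; norm_num
  have h1 : inner ℝ (bas d 1) (bas d 1) = 1 := by rw [real_inner_self_eq_norm_sq, norm_bas]; norm_num
  have h2 := inner_bas_one hd
  have h3 : inner ℝ (bas d 1) (bas d 0) = 0 := by rw [real_inner_comm]; exact h2
  simp only [va, inner_add_left, inner_add_right, real_inner_smul_left, real_inner_smul_right, h0, h1,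
    h2, h3]
  nlinarith [Real.sin_sq_add_cos_sq ψ]

theorem inner_vb_vb {d : ℕ} (hd : 1 ≤ d) (ψ : ℝ) : inner ℝ (vb d ψ) (vb d ψ) = 1 := by
  have h0 : inner ℝ (bas d 0) (bas d 0) = 1 := by rw [real_inner_self_eq_norm_sq, norm_bas]; norm_num
  have h1 : inner ℝ (bas d 1) (bas d 1) = 1 := by rw [real_inner_self_eq_norm_sq, norm_bas]; norm_num
  have h2 := inner_bas_one hd
  have h3 : inner ℝ (bas d 1) (bas d 0) = 0 := by rw [real_inner_comm]; exact h2
  simp only [vb, inner_sub_left, inner_sub_right, real_inner_smul_left, real_inner_smul_right, h0, h1,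
    h2, h3]
  nlinarith [Real.sin_sq_add_cos_sq ψ]

theorem inner_va_vb {d : ℕ} (hd : 1 ≤ d) (ψ : ℝ) : inner ℝ (va d ψ) (vb d ψ) = Real.cos (2 * ψ) := by
  have h0 : inner ℝ (bas d 0) (bas d 0) = 1 := by rw [real_inner_self_eq_norm_sq, norm_bas]; norm_num
  have h1 : inner ℝ (bas d 1) (bas d 1) = 1 := by rw [real_inner_self_eq_norm_sq, norm_bas]; norm_num
  have h2 := inner_bas_one hd
  have h3 : inner ℝ (bas d 1) (bas d 0) = 0 := by rw [real_inner_comm]; exact h2
  simp only [va, vb, inner_add_left, inner_sub_right, real_inner_smul_left, real_inner_smul_right, h0,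
    h1, h2, h3]
  rw [Real.cos_two_mul]
  nlinarith [Real.sin_sq_add_cos_sq ψ]

theorem continuous_va (d : ℕ) : Continuous (va d) := by
  unfold va
  fun_prop

theorem continuous_vb (d : ℕ) : Continuous (vb d) := by
  unfold vb
  fun_prop

theorem measurable_act (d : ℕ) : Measurable fun p : OG d × E d => act p.1 p.2 :=
  (continuous_act d).measurable

theorem meas_act {d : ℕ} {α : Type*} [MeasurableSpace α] {f : α → OG d} {g : α → E d}
    (hf : Measurable f) (hg : Measurable g) : Measurable fun a => act (f a) (g a) := by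
  have h1 : Measurable fun a => (f a, g a) := hf.prodMk hg
  have h2 := (measurable_act d).comp h1
  exact h2

theorem meas_two {d : ℕ} {α : Type*} [MeasurableSpace α] {Φ : E d → E d → ℝ≥0∞}
    (hΦ : Measurable (fun p : E d × E d => Φ p.1 p.2)) {f g : α → E d}
    (hf : Measurable f) (hg : Measurable g) : Measurable fun a => Φ (f a) (g a) := by
  have h1 : Measurable fun a => (f a, g a) := hf.prodMk hg
  have h2 := hΦ.comp h1
  exact h2

/-- ROW PAIR. Law of a pair of independent uniform points. -/
theorem pair_law (d : ℕ) (hd : 1 ≤ d) : ∃ c : ℝ, 0 < c ∧ ∀ Φ : E d → E d → ℝ≥0∞,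
    Measurable (fun p : E d × E d => Φ p.1 p.2) →
    ∫⁻ x : Sph d, ∫⁻ y : Sph d, Φ x y ∂(sig d) ∂(sig d) =
      ∫⁻ ψ in Ioo 0 (Real.pi / 2), ENNReal.ofReal (c * Real.sin (2 * ψ) ^ (d - 1)) *
        ∫⁻ T : OG d, Φ (act T (va d ψ)) (act T (vb d ψ)) ∂(mu d) := by
  obtain ⟨c, hc, hlat⟩ := latitude d hd
  refine ⟨2 * c, by positivity, fun Φ hΦ => ?_⟩
  obtain ⟨H, hH⟩ : ∃ H : E d → E d → ℝ≥0∞, ∀ x y,
      H x y = ∫⁻ T : OG d, Φ (act T x) (act T y) ∂(mu d) := ⟨_, fun _ _ => rfl⟩
  -- joint measurability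
  have hΦ3 : Measurable fun p : (E d × E d) × OG d => Φ (act p.2 p.1.1) (act p.2 p.1.2) := by
    refine meas_two hΦ ?_ ?_
    · exact meas_act measurable_snd (measurable_fst.comp measurable_fst)
    · exact meas_act measurable_snd (measurable_snd.comp measurable_fst)
  have hHm : Measurable fun p : E d × E d => H p.1 p.2 := by
    simp only [hH]
    exact hΦ3.lintegral_prod_right'
  -- invariance of H
  have hHinv : ∀ (S : OG d) (x y : E d), H (act S x) (act S y) = H x y := by
    intro S x y
    rw [hH, hH]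
    simp only [← act_mul]
    exact lintegral_mul_right_eq_self (μ := mu d) (fun T => Φ (act T x) (act T y)) S
  have hHeq : ∀ (x y x' y' : E d), inner ℝ x x = inner ℝ x' x' → inner ℝ y y = inner ℝ y' y' →
      inner ℝ x y = inner ℝ x' y' → H x y = H x' y' := by
    intro x y x' y' h1 h2 h3
    obtain ⟨S, hS⟩ := exists_act_of_gram (ι := Fin 2) ![x, y] ![x', y'] (by
      intro i j
      fin_cases i <;> fin_cases j
      · simpa using h1
      · simpa using h3
      · have h4 : inner ℝ y x = inner ℝ y' x' := by rw [real_inner_comm, h3, real_inner_comm]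
        simpa using h4
      · simpa using h2)
    have hS0 : act S x = x' := hS 0
    have hS1 : act S y = y' := hS 1
    rw [← hS0, ← hS1, hHinv]
  -- step 1: averaging
  have hstep1 : ∫⁻ x : Sph d, ∫⁻ y : Sph d, Φ x y ∂(sig d) ∂(sig d) =
      ∫⁻ x : Sph d, ∫⁻ y : Sph d, H x y ∂(sig d) ∂(sig d) := by
    have hmS : ∀ T : OG d, ∫⁻ x : Sph d, ∫⁻ y : Sph d, Φ (act T x) (act T y) ∂(sig d) ∂(sig d) =
        ∫⁻ x : Sph d, ∫⁻ y : Sph d, Φ x y ∂(sig d) ∂(sig d) := by
      intro T
      have hm1 : Measurable fun p : Sph d × Sph d => Φ (p.1 : E d) (p.2 : E d) :=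
        hΦ.comp ((measurable_subtype_coe.comp measurable_fst).prodMk
          (measurable_subtype_coe.comp measurable_snd))
      have hm2 : Measurable fun x : Sph d => ∫⁻ y : Sph d, Φ (x : E d) (y : E d) ∂(sig d) :=
        hm1.lintegral_prod_right'
      have e1 : ∀ x : Sph d, ∫⁻ y : Sph d, Φ (act T x) (act T y) ∂(sig d) =
          ∫⁻ y : Sph d, Φ (act T x) (y : E d) ∂(sig d) := by
        intro x
        exact (measurePreserving_sig T).lintegral_comp
          (f := fun y : Sph d => Φ (act T x) (y : E d))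
          (hm1.comp (measurable_prodMk_left (x := T • x)))
      simp only [e1]
      exact (measurePreserving_sig T).lintegral_comp
        (f := fun x : Sph d => ∫⁻ y : Sph d, Φ (x : E d) (y : E d) ∂(sig d)) hm2
    simp only [hH]
    have h1 : ∫⁻ x : Sph d, ∫⁻ y : Sph d, Φ x y ∂(sig d) ∂(sig d) =
        ∫⁻ T : OG d, ∫⁻ x : Sph d, ∫⁻ y : Sph d, Φ (act T x) (act T y) ∂(sig d) ∂(sig d) ∂(mu d) := by
      simp only [hmS]
      simp
    rw [h1]
    have hm4 : Measurable fun p : (OG d × Sph d) × Sph d =>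
        Φ (act p.1.1 (p.1.2 : E d)) (act p.1.1 (p.2 : E d)) := by
      refine meas_two hΦ ?_ ?_
      · exact meas_act (measurable_fst.comp measurable_fst)
          (measurable_subtype_coe.comp (measurable_snd.comp measurable_fst))
      · exact meas_act (measurable_fst.comp measurable_fst)
          (measurable_subtype_coe.comp measurable_snd)
    rw [lintegral_lintegral_swap (f := fun (T : OG d) (x : Sph d) =>
      ∫⁻ y : Sph d, Φ (act T x) (act T y) ∂(sig d)) hm4.lintegral_prod_right'.aemeasurable]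
    refine lintegral_congr fun x => ?_
    have hm5 : Measurable fun p : OG d × Sph d => Φ (act p.1 (x : E d)) (act p.1 (p.2 : E d)) := by
      refine meas_two hΦ ?_ ?_
      · exact meas_act measurable_fst measurable_const
      · exact meas_act measurable_fst (measurable_subtype_coe.comp measurable_snd)
    exact lintegral_lintegral_swap (f := fun (T : OG d) (y : Sph d) =>
      Φ (act T x) (act T y)) hm5.aemeasurable
  -- step 2: the function of the inner product
  set h : ℝ → ℝ≥0∞ := fun s => H (va d (Real.arccos s / 2)) (vb d (Real.arccos s / 2)) with hh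
  have hhm : Measurable h := by
    have h1 : Measurable fun s : ℝ => (va d (Real.arccos s / 2), vb d (Real.arccos s / 2)) := by
      refine Measurable.prodMk ?_ ?_
      · exact (continuous_va d).measurable.comp (Real.continuous_arccos.measurable.div_const 2)
      · exact (continuous_vb d).measurable.comp (Real.continuous_arccos.measurable.div_const 2)
    exact hHm.comp h1
  have hstep2 : ∀ x y : Sph d, H x y = h (inner ℝ (x : E d) (y : E d)) := by
    intro x y
    have hx : inner ℝ (x : E d) (x : E d) = 1 := by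
      rw [real_inner_self_eq_norm_sq, norm_coe_sph]; norm_num
    have hy : inner ℝ (y : E d) (y : E d) = 1 := by
      rw [real_inner_self_eq_norm_sq, norm_coe_sph]; norm_num
    have hb : |inner ℝ (x : E d) (y : E d)| ≤ 1 := by
      have := abs_real_inner_le_norm (x : E d) (y : E d)
      rwa [norm_coe_sph, norm_coe_sph, mul_one] at this
    apply hHeq
    · rw [hx, inner_va_va hd]
    · rw [hy, inner_vb_vb hd]
    · rw [inner_va_vb hd, mul_div_cancel₀ _ (two_ne_zero), Real.cos_arccos (abs_le.mp hb).1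
        (abs_le.mp hb).2]
  rw [hstep1]
  simp only [hstep2]
  have hstep3 : ∀ x : Sph d, ∫⁻ y : Sph d, h (inner ℝ (x : E d) (y : E d)) ∂(sig d) =
      ∫⁻ ω in Ioo 0 Real.pi, h (Real.cos ω) * ENNReal.ofReal (c * Real.sin ω ^ (d - 1)) := by
    intro x
    exact hlat x h hhm
  simp only [hstep3]
  rw [lintegral_const, measure_univ, mul_one]
  -- step 4: substitution
  have himg : (fun ψ : ℝ => 2 * ψ) '' Ioo 0 (Real.pi / 2) = Ioo 0 Real.pi := by
    ext w
    simp only [mem_image, mem_Ioo]
    constructor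
    · rintro ⟨ψ, h, rfl⟩
      constructor <;> linarith [h.1, h.2]
    · intro h
      exact ⟨w / 2, by constructor <;> linarith [h.1, h.2], by ring⟩
  rw [← himg, lintegral_image_eq_lintegral_abs_deriv_mul measurableSet_Ioo (f' := fun _ => 2)
    (fun x _ => by simpa using ((hasDerivAt_id x).const_mul 2).hasDerivWithinAt)
    (fun x _ y _ hxy => by simpa using hxy)]
  refine setLIntegral_congr_fun measurableSet_Ioo fun ψ hψ => ?_
  have h1 : h (Real.cos (2 * ψ)) = H (va d ψ) (vb d ψ) := by
    simp only [hh]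
    rw [Real.arccos_cos (by linarith [hψ.1]) (by linarith [hψ.2]), mul_div_cancel_left₀ _ two_ne_zero]
  show ENNReal.ofReal |2| * (h (Real.cos (2 * ψ)) * ENNReal.ofReal (c * Real.sin (2 * ψ) ^ (d - 1))) = _
  have h2 : ENNReal.ofReal (2 * c * Real.sin (2 * ψ) ^ (d - 1)) =
      ENNReal.ofReal |2| * ENNReal.ofReal (c * Real.sin (2 * ψ) ^ (d - 1)) := by
    rw [← ENNReal.ofReal_mul (abs_nonneg _), abs_of_pos (by norm_num : (0 : ℝ) < 2), mul_assoc]
  rw [h1, h2]
  rw [← hH]
  ring

end SPH
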