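import Pool.Agent.SPH.Rec1e
import Pool.Agent.SPH.Pair

/-! Project SPH (MP_f7e9f1_co), helper27, row REC1: the rectangle form is controlled by the L4 norms of
the Fourier transforms. -/

open MeasureTheory Set Metric Filter
open scoped ENNReal NNReal Topology
noncomputable section
namespace SPH.R1

section fin
variable {d : ℕ} {c c' : ℝ} (hmeas : (volume : Measure (E d)).restrict (ann d) =
      Measure.map (fun p : ℝ × OG d => (2 * Real.cos p.1) • act p.2 (bas d 0))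
        (wprod (wpol d c) (mu d)))
  (hpmeas : Measure.map (fun p : Sph d × Sph d => ((p.1 : E d), (p.2 : E d)))
        ((sig d).prod (sig d)) =
      Measure.map (fun p : ℝ × OG d => (act p.2 (va d p.1), act p.2 (vb d p.1)))
        (wprod (wpair d c') (mu d)))
  (hd : 2 ≤ d) (hc : 0 < c) (hc' : 0 < c')
include hmeas hpmeas hd hc hc'

theorem lintegral_hf_sq {g g' : E d → ℂ} (hg : Measurable g) (hg' : Measurable g')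
    (hb : ∀ x, ‖g x‖ ≤ 1) (hb' : ∀ x, ‖g' x‖ ≤ 1) :
    (∫⁻ x, ‖hf (fun p => g p.1 * g' p.2) x‖ₑ ^ 2) ^ 2 ≤
      ENNReal.ofReal (4 * c / c') ^ 4 * ((∫⁻ ξ : E d, ‖FT g ξ‖ₑ ^ 4) *
        ∫⁻ ξ : E d, ‖FT g' ξ‖ₑ ^ 4) := by
  have hfm : Measurable fun p : E d × E d => g p.1 * g' p.2 :=
    (hg.comp measurable_fst).mul (hg'.comp measurable_snd)
  have hfb : ∀ p : E d × E d, ‖g p.1 * g' p.2‖ ≤ 1 := fun p => by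
    rw [norm_mul]
    exact mul_le_one₀ (hb _) (norm_nonneg _) (hb' _)
  rw [← plancherel _ (integrable_hf hmeas hd hc hfm hfb) (memLp_hf hmeas hd hc hfm hfb)]
  simp_rw [FT_hf hmeas hpmeas hd hc hc' hg hg' hb hb']
  have hk : ‖((4 * c / c' : ℝ) : ℂ)‖ₑ = ENNReal.ofReal (4 * c / c') := by
    rw [← ofReal_norm, Complex.norm_real, Real.norm_of_nonneg (by positivity)]
  simp_rw [enorm_mul, hk, mul_pow]
  have hmm : Measurable fun ξ : E d => ‖FT g ξ‖ₑ ^ 2 * ‖FT g' ξ‖ₑ ^ 2 :=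
    ((measurable_FT hg).enorm.pow_const 2).mul ((measurable_FT hg').enorm.pow_const 2)
  rw [lintegral_const_mul _ hmm, mul_pow, ← pow_mul]
  have h := cs_lintegral (volume : Measure (E d)) ((measurable_FT hg).enorm.pow_const 2)
    ((measurable_FT hg').enorm.pow_const 2)
  simp_rw [← pow_mul] at h
  gcongr

theorem rect_L4_aux {g0 g1 g2 g3 : E d → ℂ} (m0 : Measurable g0) (m1 : Measurable g1)
    (m2 : Measurable g2) (m3 : Measurable g3) (b0 : ∀ x, ‖g0 x‖ ≤ 1) (b1 : ∀ x, ‖g1 x‖ ≤ 1)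
    (b2 : ∀ x, ‖g2 x‖ ≤ 1) (b3 : ∀ x, ‖g3 x‖ ≤ 1) :
    ‖∫ ψ in Ioo 0 (Real.pi / 2), (wt d ψ : ℂ) * ∫ k : Kst d,
        J4 g0 g1 g2 g3 (va d ψ) (kact k (va d ψ)) (kact k (vb d ψ)) (vb d ψ) ∂(kap d)‖ₑ ^ 4 ≤
      ENNReal.ofReal ((4 * c / c') ^ 8 / (c * 2 ^ (d + 1)) ^ 4) * (∫⁻ ξ : E d, ‖FT g0 ξ‖ₑ ^ 4) *
        (∫⁻ ξ : E d, ‖FT g1 ξ‖ₑ ^ 4) *
        (∫⁻ ξ : E d, ‖FT g2 ξ‖ₑ ^ 4) * (∫⁻ ξ : E d, ‖FT g3 ξ‖ₑ ^ 4) := by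
  have hfm : Measurable fun p : E d × E d => g0 p.1 * g3 p.2 :=
    (m0.comp measurable_fst).mul (m3.comp measurable_snd)
  have hfm' : Measurable fun p : E d × E d => g1 p.1 * g2 p.2 :=
    (m1.comp measurable_fst).mul (m2.comp measurable_snd)
  set N : ℂ := ∫ ψ in Ioo 0 (Real.pi / 2), (wt d ψ : ℂ) * ∫ k : Kst d,
        J4 g0 g1 g2 g3 (va d ψ) (kact k (va d ψ)) (kact k (vb d ψ)) (vb d ψ) ∂(kap d) with hN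
  have h1 := inner_hf hmeas hd hc m0 m1 m2 m3 b0 b1 b2 b3
  rw [← hN] at h1
  have hb : 0 < c * 2 ^ (d + 1) := by positivity
  have hk : ‖((c * 2 ^ (d + 1) : ℝ) : ℂ)‖ₑ = ENNReal.ofReal (c * 2 ^ (d + 1)) := by
    rw [← ofReal_norm, Complex.norm_real, Real.norm_of_nonneg hb.le]
  have h2 : ENNReal.ofReal (c * 2 ^ (d + 1)) * ‖N‖ₑ ≤
      ∫⁻ x, ‖hf (fun p => g0 p.1 * g3 p.2) x‖ₑ * ‖hf (fun p => g1 p.1 * g2 p.2) x‖ₑ := by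
    rw [← hk, ← enorm_mul, ← h1]
    refine (enorm_integral_le_lintegral_enorm _).trans (le_of_eq ?_)
    refine lintegral_congr fun x => ?_
    rw [enorm_mul, RCLike.enorm_conj]
  have h3 := cs_lintegral (volume : Measure (E d)) (measurable_hf hfm).enorm
    (measurable_hf hfm').enorm
  have h4 := lintegral_hf_sq hmeas hpmeas hd hc hc' m0 m3 b0 b3
  have h5 := lintegral_hf_sq hmeas hpmeas hd hc hc' m1 m2 b1 b2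
  set A0 := ∫⁻ ξ : E d, ‖FT g0 ξ‖ₑ ^ 4
  set A1 := ∫⁻ ξ : E d, ‖FT g1 ξ‖ₑ ^ 4
  set A2 := ∫⁻ ξ : E d, ‖FT g2 ξ‖ₑ ^ 4
  set A3 := ∫⁻ ξ : E d, ‖FT g3 ξ‖ₑ ^ 4
  set K := ENNReal.ofReal (4 * c / c') with hK
  set b := ENNReal.ofReal (c * 2 ^ (d + 1)) with hb'
  have h6 : (b * ‖N‖ₑ) ^ 4 ≤ (K ^ 4 * (A0 * A3)) * (K ^ 4 * (A1 * A2)) := by
    calc (b * ‖N‖ₑ) ^ 4 ≤ (∫⁻ x, ‖hf (fun p => g0 p.1 * g3 p.2) x‖ₑ *
          ‖hf (fun p => g1 p.1 * g2 p.2) x‖ₑ) ^ 4 := by gcongr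
      _ = ((∫⁻ x, ‖hf (fun p => g0 p.1 * g3 p.2) x‖ₑ *
          ‖hf (fun p => g1 p.1 * g2 p.2) x‖ₑ) ^ 2) ^ 2 := by ring
      _ ≤ ((∫⁻ x, ‖hf (fun p => g0 p.1 * g3 p.2) x‖ₑ ^ 2) *
          ∫⁻ x, ‖hf (fun p => g1 p.1 * g2 p.2) x‖ₑ ^ 2) ^ 2 := by gcongr
      _ = (∫⁻ x, ‖hf (fun p => g0 p.1 * g3 p.2) x‖ₑ ^ 2) ^ 2 *
          (∫⁻ x, ‖hf (fun p => g1 p.1 * g2 p.2) x‖ₑ ^ 2) ^ 2 := by ring
      _ ≤ _ := by gcongr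
  have hb0 : b ≠ 0 := by
    rw [hb']
    exact (ENNReal.ofReal_pos.mpr hb).ne'
  have hbt : b ≠ ⊤ := ENNReal.ofReal_ne_top
  have h7 : ENNReal.ofReal ((4 * c / c') ^ 8 / (c * 2 ^ (d + 1)) ^ 4) = (b ^ 4)⁻¹ * K ^ 8 := by
    rw [ENNReal.ofReal_div_of_pos (by positivity), ENNReal.ofReal_pow (by positivity),
      ENNReal.ofReal_pow hb.le, div_eq_mul_inv, mul_comm]
  calc ‖N‖ₑ ^ 4 = (b ^ 4)⁻¹ * (b * ‖N‖ₑ) ^ 4 := by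
        rw [mul_pow, ← mul_assoc, ENNReal.inv_mul_cancel (pow_ne_zero _ hb0)
          (ENNReal.pow_ne_top hbt), one_mul]
    _ ≤ (b ^ 4)⁻¹ * ((K ^ 4 * (A0 * A3)) * (K ^ 4 * (A1 * A2))) := by gcongr
    _ = _ := by
      rw [h7]
      ring

end fin

end SPH.R1

namespace SPH

/-- ROW REC1. -/
theorem rect_L4 (d : ℕ) (hd : 3 ≤ d) : ∃ C : ℝ, 0 < C ∧ ∀ g0 g1 g2 g3 : E d → ℂ,
    Measurable g0 → Measurable g1 → Measurable g2 → Measurable g3 →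
    (∀ x, ‖g0 x‖ ≤ 1) → (∀ x, ‖g1 x‖ ≤ 1) → (∀ x, ‖g2 x‖ ≤ 1) → (∀ x, ‖g3 x‖ ≤ 1) →
    ‖∫ ψ in Ioo 0 (Real.pi / 2), (wt d ψ : ℂ) * ∫ k : Kst d,
        J4 g0 g1 g2 g3 (va d ψ) (kact k (va d ψ)) (kact k (vb d ψ)) (vb d ψ) ∂(kap d)‖ₑ ^ 4 ≤
      ENNReal.ofReal C * (∫⁻ ξ : E d, ‖FT g0 ξ‖ₑ ^ 4) * (∫⁻ ξ : E d, ‖FT g1 ξ‖ₑ ^ 4) *
        (∫⁻ ξ : E d, ‖FT g2 ξ‖ₑ ^ 4) * (∫⁻ ξ : E d, ‖FT g3 ξ‖ₑ ^ 4) := by
  obtain ⟨c, hc, hpol⟩ := polar_haar d (by omega)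
  obtain ⟨c', hc', hpair⟩ := pair_law d (by omega)
  refine ⟨(4 * c / c') ^ 8 / (c * 2 ^ (d + 1)) ^ 4, by positivity, ?_⟩
  intro g0 g1 g2 g3 m0 m1 m2 m3 b0 b1 b2 b3
  exact R1.rect_L4_aux (R1.polar_meas d hpol) (R1.pair_meas d hpair) (by omega) hc hc' m0 m1 m2 m3
    b0 b1 b2 b3

end SPH
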