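import Pool.Agent.SPH.Defs
import Pool.Agent.Helper77.TA.Planch

/-! Project SPH, row PLA: Plancherel for integrable square integrable functions. -/

open MeasureTheory Set Metric Filter FourierTransform
open scoped ENNReal NNReal Topology InnerProductSpace

noncomputable section
namespace SPH

theorem plancherel_inv {V : Type*} [NormedAddCommGroup V] [InnerProductSpace ℝ V]
    [FiniteDimensional ℝ V] [MeasurableSpace V] [BorelSpace V] {g : V → ℂ} (h1 : Integrable g)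
    (h2 : MemLp g 2) : ∫⁻ x, ‖𝓕⁻ g x‖ₑ ^ 2 = ∫⁻ ξ, ‖g ξ‖ₑ ^ 2 := by
  have e1 : eLpNorm (𝓕⁻ g) 2 volume = eLpNorm g 2 volume := by
    rw [← eLpNorm_congr_ae (Helper77.TA.fourierInv_toLp_ae h1 h2)]
    have h3 : ‖(𝓕⁻ (h2.toLp g) : Lp (α := V) ℂ 2 volume)‖ = ‖h2.toLp g‖ :=
      (Lp.fourierTransformₗᵢ V ℂ).symm.norm_map _
    rw [Lp.norm_def, Lp.norm_def, ENNReal.toReal_eq_toReal_iff' (Lp.eLpNorm_ne_top _)
      (Lp.eLpNorm_ne_top _)] at h3
    rw [h3]
    exact eLpNorm_congr_ae h2.coeFn_toLp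
  have e2 := eLpNorm_nnreal_pow_eq_lintegral (f := 𝓕⁻ g) (p := 2) (μ := (volume : Measure V))
    two_ne_zero
  have e3 := eLpNorm_nnreal_pow_eq_lintegral (f := g) (p := 2) (μ := (volume : Measure V))
    two_ne_zero
  norm_num at e2 e3
  rw [← e2, ← e3, e1]

/-- ROW PLA. Plancherel for integrable square integrable functions. -/
theorem plancherel {d : ℕ} (h : E d → ℂ) (h1 : Integrable h) (h2 : MemLp h 2) :
    ∫⁻ ξ : E d, ‖∫ x : E d, h x * ee (-(inner ℝ ξ x))‖ₑ ^ 2 = ∫⁻ x : E d, ‖h x‖ₑ ^ 2 := by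
  have e : ∀ ξ : E d, ∫ x : E d, h x * ee (-(inner ℝ ξ x)) = 𝓕⁻ h (-ξ) := by
    intro ξ
    rw [Real.fourierInv_eq']
    refine integral_congr_ae (Eventually.of_forall fun x => ?_)
    simp only [ee, smul_eq_mul, inner_neg_right, real_inner_comm]
    rw [mul_comm]
  simp_rw [e]
  rw [lintegral_neg_eq_self (μ := (volume : Measure (E d))) (fun ξ : E d => ‖𝓕⁻ h ξ‖ₑ ^ 2)]
  exact plancherel_inv h1 h2

end SPH
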