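import Pool.Agent.SPH.TSGauss
import Pool.Agent.SPH.Planch

/-! Project SPH (MP_f7e9f1_co), helper97: the Tomas-Stein level set estimate and the L4 bound. -/

open MeasureTheory Set Metric
open scoped ENNReal NNReal Topology

noncomputable section
namespace SPH

/-- Plancherel inequality -/
theorem plan_le {d : ℕ} {G : E d → ℂ} (hG : Integrable G) (hG2 : Integrable fun ξ => ‖G ξ‖ ^ 2) :
    ∫⁻ y : E d, ENNReal.ofReal (‖GH G y‖ ^ 2) ≤ ENNReal.ofReal (∫ ξ, ‖G ξ‖ ^ 2) := by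
  have h2 : MemLp G 2 := by
    rw [memLp_two_iff_integrable_sq_norm hG.aestronglyMeasurable]
    exact hG2
  have h := plancherel G hG h2
  have e1 : ∀ y : E d, ENNReal.ofReal (‖GH G y‖ ^ 2) =
      ‖∫ x : E d, G x * ee (-(inner ℝ y x))‖ₑ ^ 2 := by
    intro y
    have e3 : GH G y = ∫ x : E d, G x * ee (-(inner ℝ y x)) := by
      unfold GH
      refine integral_congr_ae (Filter.Eventually.of_forall fun x => ?_)
      show G x * ee (-(inner ℝ x y)) = G x * ee (-(inner ℝ y x))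
      rw [real_inner_comm]
    rw [← e3, ENNReal.ofReal_pow (norm_nonneg _), ofReal_norm]
  have e2 : ENNReal.ofReal (∫ ξ, ‖G ξ‖ ^ 2) = ∫⁻ x : E d, ‖G x‖ₑ ^ 2 := by
    rw [ofReal_integral_eq_lintegral_ofReal hG2 (Filter.Eventually.of_forall fun _ => by positivity)]
    refine lintegral_congr fun ξ => ?_
    rw [ENNReal.ofReal_pow (norm_nonneg _), ofReal_norm]
  rw [e2, ← h]
  simp only [e1]
  exact le_rfl

/-- the Gaussian part: at most C R int |G|^2 -/
theorem gauss_part {d : ℕ} {C R : ℝ} (hC : 0 < C) (hR : 0 < R)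
    (hB : ∀ u : E d, ∫ x : Sph d, R ^ (d + 1) *
      Real.exp (-(Real.pi * R ^ 2 * ‖u - x‖ ^ 2)) ∂(sig d) ≤ C * R)
    {G : E d → ℂ} (hG : Integrable G) (hG2 : Integrable fun ξ => ‖G ξ‖ ^ 2) :
    ∫ x : Sph d, (∫ y : E d, gR R y * ‖GH G ((x : E d) + y)‖ ^ 2) ∂(sig d) ≤
      C * R * ∫ ξ, ‖G ξ‖ ^ 2 := by
  have hcG := continuous_GH hG
  have hcg := continuous_gR (d := d) R
  have hn : 0 ≤ ∫ ξ, ‖G ξ‖ ^ 2 := integral_nonneg fun ξ => by positivity
  -- step 1 : real to lintegral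
  have h1 : ∀ x : Sph d, ENNReal.ofReal (∫ y : E d, gR R y * ‖GH G ((x : E d) + y)‖ ^ 2) ≤
      ∫⁻ u : E d, ENNReal.ofReal (gR R (u - (x : E d)) * ‖GH G u‖ ^ 2) := by
    intro x
    have e1 : ∫ y : E d, gR R y * ‖GH G ((x : E d) + y)‖ ^ 2 =
        ∫ u : E d, gR R (u - (x : E d)) * ‖GH G u‖ ^ 2 := by
      rw [← integral_sub_right_eq_self (fun y : E d => gR R y * ‖GH G ((x : E d) + y)‖ ^ 2) (x : E d)]
      refine integral_congr_ae (Filter.Eventually.of_forall fun u => ?_)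
      show gR R (u - (x : E d)) * ‖GH G ((x : E d) + (u - (x : E d)))‖ ^ 2 = gR R (u - (x : E d)) * ‖GH G u‖ ^ 2
      rw [add_sub_cancel]
    rw [e1, integral_eq_lintegral_of_nonneg_ae]
    · exact ENNReal.ofReal_toReal_le
    · exact Filter.Eventually.of_forall fun u => mul_nonneg (gR_nonneg hR _) (by positivity)
    · have : Continuous fun u : E d => gR R (u - (x : E d)) * ‖GH G u‖ ^ 2 := by fun_prop
      exact this.aestronglyMeasurable
  have h2 : ENNReal.ofReal (∫ x : Sph d, (∫ y : E d, gR R y * ‖GH G ((x : E d) + y)‖ ^ 2) ∂(sig d)) ≤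
      ∫⁻ x : Sph d, (∫⁻ u : E d, ENNReal.ofReal (gR R (u - (x : E d)) * ‖GH G u‖ ^ 2)) ∂(sig d) := by
    have h0 : 0 ≤ᵐ[sig d] fun x : Sph d => ∫ y : E d, gR R y * ‖GH G ((x : E d) + y)‖ ^ 2 :=
      Filter.Eventually.of_forall fun x => integral_nonneg fun y =>
        mul_nonneg (gR_nonneg hR _) (by positivity)
    by_cases hi : Integrable (fun x : Sph d => ∫ y : E d, gR R y * ‖GH G ((x : E d) + y)‖ ^ 2) (sig d)
    · rw [ofReal_integral_eq_lintegral_ofReal hi h0]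
      exact lintegral_mono h1
    · rw [integral_undef hi]
      simp
  have h3 : ∫⁻ x : Sph d, (∫⁻ u : E d, ENNReal.ofReal (gR R (u - (x : E d)) * ‖GH G u‖ ^ 2)) ∂(sig d) =
      ∫⁻ u : E d, ∫⁻ x : Sph d, ENNReal.ofReal (gR R (u - (x : E d)) * ‖GH G u‖ ^ 2) ∂(sig d) := by
    refine lintegral_lintegral_swap ?_
    have : Continuous (Function.uncurry fun (x : Sph d) (u : E d) =>
        gR R (u - (x : E d)) * ‖GH G u‖ ^ 2) := by
      show Continuous fun q : Sph d × E d => gR R (q.2 - (q.1 : E d)) * ‖GH G q.2‖ ^ 2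
      fun_prop
    exact (ENNReal.measurable_ofReal.comp this.measurable).aemeasurable
  have h4 : ∀ u : E d, ∫⁻ x : Sph d, ENNReal.ofReal (gR R (u - (x : E d)) * ‖GH G u‖ ^ 2) ∂(sig d) ≤
      ENNReal.ofReal (C * R) * ENNReal.ofReal (‖GH G u‖ ^ 2) := by
    intro u
    have hc : Continuous fun x : Sph d => gR R (u - (x : E d)) * ‖GH G u‖ ^ 2 := by fun_prop
    rw [← ofReal_integral_eq_lintegral_ofReal (integrable_sph hc)
      (Filter.Eventually.of_forall fun u => mul_nonneg (gR_nonneg hR _) (by positivity)),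
      integral_mul_const, ENNReal.ofReal_mul' (by positivity)]
    gcongr
    exact hB u
  have h5 : ENNReal.ofReal (∫ x : Sph d, (∫ y : E d, gR R y * ‖GH G ((x : E d) + y)‖ ^ 2) ∂(sig d)) ≤
      ENNReal.ofReal (C * R * ∫ ξ, ‖G ξ‖ ^ 2) := by
    refine h2.trans ?_
    rw [h3]
    refine (lintegral_mono h4).trans ?_
    rw [lintegral_const_mul _ (by fun_prop),
      ENNReal.ofReal_mul (p := C * R) (by positivity : 0 ≤ C * R)]
    exact mul_le_mul' le_rfl (plan_le hG hG2)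
  exact (ENNReal.ofReal_le_ofReal_iff (by positivity)).mp h5

/-- the pointwise bound for the remaining part -/
theorem rest_bound {d : ℕ} {C : ℝ} (hC : 1 ≤ C) (h : ∀ ξ : E d, ‖ξ‖ ^ 3 * ‖sg d ξ‖ ^ 2 ≤ C)
    {S : ℝ} (hS : 0 < S) (z : E d) :
    (1 - wR (S ^ 2) z) * ‖sg d z‖ ≤ Real.pi * C / S ^ 3 := by
  have hw1 := wR_le_one (S ^ 2) z
  have hw0 := wR_nonneg (S ^ 2) z
  have hpi := Real.pi_gt_three
  rw [le_div_iff₀ (by positivity)]
  have hkey : ((1 - wR (S ^ 2) z) * ‖sg d z‖ * S ^ 3) ^ 2 ≤ (Real.pi * C) ^ 2 := by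
    rcases le_or_gt (S ^ 2) ‖z‖ with hz | hz
    · have h1 : (1 - wR (S ^ 2) z) ^ 2 ≤ 1 := pow_le_one₀ (by linarith) (by linarith)
      have h2 : (S ^ 2) ^ 3 ≤ ‖z‖ ^ 3 := pow_le_pow_left₀ (by positivity) hz 3
      calc ((1 - wR (S ^ 2) z) * ‖sg d z‖ * S ^ 3) ^ 2
          = (1 - wR (S ^ 2) z) ^ 2 * ((S ^ 2) ^ 3 * ‖sg d z‖ ^ 2) := by ring
        _ ≤ 1 * (‖z‖ ^ 3 * ‖sg d z‖ ^ 2) := by gcongr
        _ ≤ C := by rw [one_mul]; exact h z
        _ ≤ (Real.pi * C) ^ 2 := by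
            have h3 : C ≤ Real.pi * C := by nlinarith
            nlinarith
    · have h1 : 1 - wR (S ^ 2) z ≤ Real.pi / (S ^ 2) ^ 2 * ‖z‖ ^ 2 := by
        unfold wR
        have := Real.one_sub_le_exp_neg (Real.pi / (S ^ 2) ^ 2 * ‖z‖ ^ 2)
        linarith
      have h2 : (1 - wR (S ^ 2) z) ^ 2 ≤ (Real.pi / (S ^ 2) ^ 2 * ‖z‖ ^ 2) ^ 2 :=
        pow_le_pow_left₀ (by linarith) h1 2
      calc ((1 - wR (S ^ 2) z) * ‖sg d z‖ * S ^ 3) ^ 2
          = (1 - wR (S ^ 2) z) ^ 2 * (‖sg d z‖ ^ 2 * (S ^ 3) ^ 2) := by ring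
        _ ≤ (Real.pi / (S ^ 2) ^ 2 * ‖z‖ ^ 2) ^ 2 * (‖sg d z‖ ^ 2 * (S ^ 3) ^ 2) := by gcongr
        _ = Real.pi ^ 2 * (‖z‖ ^ 3 * ‖sg d z‖ ^ 2) * (‖z‖ / S ^ 2) := by
            field_simp
        _ ≤ Real.pi ^ 2 * C * 1 := by
            gcongr
            · exact h z
            · exact (div_le_one (by positivity)).mpr hz.le
        _ ≤ (Real.pi * C) ^ 2 := by
            have : C ≤ C ^ 2 := by nlinarith
            nlinarith [sq_nonneg Real.pi]
  exact (le_abs_self _).trans (abs_le_of_sq_le_sq hkey (by positivity))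

/-- int over the sphere of |G^|^2 -/
theorem sphere_L2 {d : ℕ} (hd : 3 ≤ d) : ∃ C1 C2 : ℝ, 0 < C1 ∧ 0 < C2 ∧
    ∀ G : E d → ℂ, Integrable G → Integrable (fun ξ => ‖G ξ‖ ^ 2) → ∀ S : ℝ, 0 < S →
      ∫ x : Sph d, ‖GH G x‖ ^ 2 ∂(sig d) ≤
        C1 * S ^ 2 * (∫ ξ, ‖G ξ‖ ^ 2) + C2 / S ^ 3 * (∫ ξ, ‖G ξ‖) ^ 2 := by
  obtain ⟨C1, hC1, hB⟩ := gauss_sphere d
  obtain ⟨C, hC, hdec⟩ := sg_decay hd
  refine ⟨C1, Real.pi * C, hC1, by positivity, fun G hG hG2 S hS => ?_⟩
  have hS2 : 0 < S ^ 2 := by positivity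
  -- the complex identity
  have e1 : ((∫ x : Sph d, ‖GH G x‖ ^ 2 ∂(sig d) : ℝ) : ℂ) =
      ∫ p, PP G p * (((1 : ℝ) : ℝ) : ℂ) * sg d (p.1 - p.2) ∂(volume.prod volume) := by
    rw [← sphere_identity hG (fun _ => (1 : ℝ)) measurable_const (by intro z; simp),
      ← integral_complex_ofReal]
    refine integral_congr_ae (Filter.Eventually.of_forall fun x => ?_)
    show ((‖GH G x‖ ^ 2 : ℝ) : ℂ) = _
    rw [GH_sq]
    simp
  have e2 : ((∫ x : Sph d, (∫ y : E d, gR (S ^ 2) y * ‖GH G ((x : E d) + y)‖ ^ 2) ∂(sig d) : ℝ) : ℂ) =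
      ∫ p, PP G p * ((wR (S ^ 2) (p.1 - p.2) : ℝ) : ℂ) * sg d (p.1 - p.2) ∂(volume.prod volume) := by
    rw [← sphere_identity hG (wR (S ^ 2)) (continuous_wR _).measurable (by
      intro z
      rw [abs_of_nonneg (wR_nonneg _ _)]
      exact wR_le_one _ _), ← integral_complex_ofReal]
    refine integral_congr_ae (Filter.Eventually.of_forall fun x => ?_)
    exact gauss_identity hG hS2 x
  have hsgm : Measurable fun p : E d × E d => sg d (p.1 - p.2) := by
    have : Continuous (sg d) := continuous_FT measurable_const (by intro x; simp)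
    exact (this.measurable).comp (measurable_fst.sub measurable_snd)
  have hi : ∀ w : E d → ℝ, Measurable w → (∀ z, |w z| ≤ 1) →
      Integrable (fun p => PP G p * ((w (p.1 - p.2) : ℝ) : ℂ) * sg d (p.1 - p.2))
        (volume.prod volume) := by
    intro w hw hw1
    have hm1 : Measurable fun p : E d × E d => ((w (p.1 - p.2) : ℝ) : ℂ) :=
      Complex.measurable_ofReal.comp (hw.comp (measurable_fst.sub measurable_snd))
    refine (integrable_PP hG).norm.mono'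
      (((integrable_PP hG).aestronglyMeasurable.mul hm1.aestronglyMeasurable).mul
        hsgm.aestronglyMeasurable) (Filter.Eventually.of_forall fun p => ?_)
    rw [norm_mul, norm_mul, Complex.norm_real, Real.norm_eq_abs]
    calc _ ≤ ‖PP G p‖ * 1 * 1 := by
          gcongr
          · exact hw1 _
          · exact norm_sg_le _ _
      _ = _ := by ring
  have e3 : ((∫ x : Sph d, ‖GH G x‖ ^ 2 ∂(sig d) -
      ∫ x : Sph d, (∫ y : E d, gR (S ^ 2) y * ‖GH G ((x : E d) + y)‖ ^ 2) ∂(sig d) : ℝ) : ℂ) =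
      ∫ p, (PP G p * (((1 : ℝ) : ℝ) : ℂ) * sg d (p.1 - p.2) -
        PP G p * ((wR (S ^ 2) (p.1 - p.2) : ℝ) : ℂ) * sg d (p.1 - p.2)) ∂(volume.prod volume) := by
    rw [Complex.ofReal_sub, e1, e2, ← integral_sub]
    · exact hi (fun _ => 1) measurable_const (by intro z; simp)
    · exact hi (wR (S ^ 2)) (continuous_wR _).measurable (by
        intro z
        rw [abs_of_nonneg (wR_nonneg _ _)]
        exact wR_le_one _ _)
  have e4 : ∫ x : Sph d, ‖GH G x‖ ^ 2 ∂(sig d) -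
      ∫ x : Sph d, (∫ y : E d, gR (S ^ 2) y * ‖GH G ((x : E d) + y)‖ ^ 2) ∂(sig d) ≤
      Real.pi * C / S ^ 3 * (∫ ξ, ‖G ξ‖) ^ 2 := by
    have h1 := congrArg (fun z : ℂ => ‖z‖) e3
    simp only [Complex.norm_real, Real.norm_eq_abs] at h1
    refine (le_abs_self _).trans ?_
    rw [h1, ← norm_PP_integral G, ← integral_const_mul]
    refine (norm_integral_le_integral_norm _).trans ?_
    refine integral_mono_of_nonneg (Filter.Eventually.of_forall fun p => norm_nonneg _)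
      ((integrable_PP hG).norm.const_mul _) (Filter.Eventually.of_forall fun p => ?_)
    show ‖PP G p * (((1 : ℝ) : ℝ) : ℂ) * sg d (p.1 - p.2) -
        PP G p * ((wR (S ^ 2) (p.1 - p.2) : ℝ) : ℂ) * sg d (p.1 - p.2)‖ ≤
      Real.pi * C / S ^ 3 * ‖PP G p‖
    have h2 : PP G p * (((1 : ℝ) : ℝ) : ℂ) * sg d (p.1 - p.2) -
        PP G p * ((wR (S ^ 2) (p.1 - p.2) : ℝ) : ℂ) * sg d (p.1 - p.2) =
        PP G p * (((1 - wR (S ^ 2) (p.1 - p.2) : ℝ) : ℂ) * sg d (p.1 - p.2)) := by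
      push_cast
      ring
    rw [h2, norm_mul, norm_mul, Complex.norm_real, Real.norm_eq_abs,
      abs_of_nonneg (by linarith [wR_le_one (S ^ 2) (p.1 - p.2)]), mul_comm]
    gcongr
    exact rest_bound hC hdec hS _
  have e5 := gauss_part hC1 hS2 (hB (S ^ 2) hS2) hG hG2
  linarith

/-- duality -/
theorem duality {d : ℕ} {g : E d → ℂ} (hg : Measurable g) (hg1 : ∀ x, ‖g x‖ ≤ 1) {G : E d → ℂ}
    (hG : Integrable G) :
    ‖∫ ξ, FT g ξ * G ξ‖ ^ 2 ≤ ∫ x : Sph d, ‖GH G x‖ ^ 2 ∂(sig d) := by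
  have hcG := continuous_GH hG
  have e1 : ∫ ξ, FT g ξ * G ξ = ∫ x : Sph d, g x * GH G x ∂(sig d) := by
    have h1 : ∀ ξ, FT g ξ * G ξ = ∫ x : Sph d, g x * ee (-(inner ℝ ξ (x : E d))) * G ξ ∂(sig d) := by
      intro ξ
      unfold FT
      rw [integral_mul_const]
    simp only [h1]
    have hint : Integrable (Function.uncurry fun (ξ : E d) (x : Sph d) =>
        g x * ee (-(inner ℝ ξ (x : E d))) * G ξ) (volume.prod (sig d)) := by
      have h2 : Integrable (fun q : E d × Sph d => G q.1 * g q.2) (volume.prod (sig d)) :=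
        hG.mul_prod (integrable_sph_of_le hg hg1)
      have h3 : Continuous fun q : E d × Sph d => ee (-(inner ℝ q.1 (q.2 : E d))) := by
        refine continuous_ee.comp ?_
        fun_prop
      refine h2.norm.mono' ?_ (Filter.Eventually.of_forall fun q => ?_)
      · have h4 := h2.aestronglyMeasurable.mul h3.aestronglyMeasurable
        refine h4.congr (Filter.Eventually.of_forall fun q => ?_)
        show G q.1 * g q.2 * ee (-(inner ℝ q.1 (q.2 : E d))) =
          g q.2 * ee (-(inner ℝ q.1 (q.2 : E d))) * G q.1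
        ring
      · show ‖g q.2 * ee (-(inner ℝ q.1 (q.2 : E d))) * G q.1‖ ≤ ‖G q.1 * g q.2‖
        rw [norm_mul, norm_mul, norm_mul, norm_ee, mul_one, mul_comm]
    rw [integral_integral_swap hint]
    refine integral_congr_ae (Filter.Eventually.of_forall fun x => ?_)
    show ∫ ξ : E d, g x * ee (-(inner ℝ ξ (x : E d))) * G ξ = g x * GH G x
    unfold GH
    rw [← integral_const_mul]
    refine integral_congr_ae (Filter.Eventually.of_forall fun ξ => ?_)
    show g x * ee (-(inner ℝ ξ (x : E d))) * G ξ = g x * (G ξ * ee (-(inner ℝ ξ (x : E d))))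
    ring
  rw [e1]
  have hc1 : Continuous fun x : Sph d => ‖GH G x‖ := by fun_prop
  have e2 : ‖∫ x : Sph d, g x * GH G x ∂(sig d)‖ ≤ ∫ x : Sph d, ‖GH G x‖ ∂(sig d) := by
    refine (norm_integral_le_integral_norm _).trans ?_
    refine integral_mono_of_nonneg (Filter.Eventually.of_forall fun p => norm_nonneg _)
      (integrable_sph hc1) (Filter.Eventually.of_forall fun x => ?_)
    show ‖g x * GH G x‖ ≤ ‖GH G x‖
    rw [norm_mul]
    calc _ ≤ 1 * ‖GH G x‖ := mul_le_mul_of_nonneg_right (hg1 _) (norm_nonneg _)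
      _ = _ := one_mul _
  set a : ℝ := ∫ x : Sph d, ‖GH G x‖ ∂(sig d) with ha
  have e3 : 0 ≤ ∫ x : Sph d, (‖GH G x‖ - a) ^ 2 ∂(sig d) := integral_nonneg fun x => sq_nonneg _
  have e4 : ∫ x : Sph d, (‖GH G x‖ - a) ^ 2 ∂(sig d) =
      ∫ x : Sph d, ‖GH G x‖ ^ 2 ∂(sig d) - a ^ 2 := by
    have h5 : ∀ x : Sph d, (‖GH G x‖ - a) ^ 2 = ‖GH G x‖ ^ 2 - 2 * a * ‖GH G x‖ + a ^ 2 := by
      intro x; ring
    simp only [h5]
    rw [integral_add, integral_sub, integral_const_mul, ← ha, integral_const]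
    · simp
      ring
    · exact integrable_sph (by fun_prop)
    · exact integrable_sph (by fun_prop)
    · exact integrable_sph (by fun_prop)
    · exact integrable_const _
  have e5 : ‖∫ x : Sph d, g x * GH G x ∂(sig d)‖ ^ 2 ≤ a ^ 2 :=
    pow_le_pow_left₀ (norm_nonneg _) e2 2
  linarith

/-- the level set estimate on bounded pieces -/
theorem level_bounded {d : ℕ} (hd : 3 ≤ d) : ∃ C : ℝ, 0 < C ∧ ∀ g : E d → ℂ, Measurable g →
    (∀ x, ‖g x‖ ≤ 1) → ∀ l : ℝ, 0 < l → ∀ W : Set (E d), MeasurableSet W → volume W ≠ ⊤ →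
    (∀ ξ ∈ W, l ≤ ‖FT g ξ‖) → (volume W).toReal ≤ C * l ^ (-(10 : ℝ) / 3) := by
  obtain ⟨C1, C2, hC1, hC2, hmain⟩ := sphere_L2 (d := d) hd
  refine ⟨2 * C1 * (2 * C2) ^ ((2 : ℝ) / 3), by positivity,
    fun g hg hg1 l hl W hW hWfin hWl => ?_⟩
  set V : ℝ := (volume W).toReal with hV
  have hV0 : 0 ≤ V := ENNReal.toReal_nonneg
  have hcF := continuous_FT hg hg1
  -- the dual function
  set G : E d → ℂ := W.indicator fun ξ => (starRingEnd ℂ) (FT g ξ) * ((‖FT g ξ‖⁻¹ : ℝ) : ℂ) with hG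
  have hGm : Measurable G := by
    refine Measurable.indicator ?_ hW
    refine (Complex.continuous_conj.measurable.comp hcF.measurable).mul ?_
    exact Complex.measurable_ofReal.comp (hcF.norm.measurable.inv)
  have hFpos : ∀ ξ ∈ W, 0 < ‖FT g ξ‖ := fun ξ hξ => hl.trans_le (hWl ξ hξ)
  have hGn : ∀ ξ, ‖G ξ‖ = W.indicator (fun _ => (1 : ℝ)) ξ := by
    intro ξ
    rw [hG]
    by_cases hξ : ξ ∈ W
    · rw [indicator_of_mem hξ, indicator_of_mem hξ, norm_mul, Complex.norm_conj, Complex.norm_real,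
        Real.norm_eq_abs, abs_of_nonneg (by positivity), mul_inv_cancel₀ (hFpos ξ hξ).ne']
    · rw [indicator_of_notMem hξ, indicator_of_notMem hξ, norm_zero]
  have hi1 : Integrable (W.indicator fun _ => (1 : ℝ)) (volume : Measure (E d)) :=
    (integrable_indicator_iff hW).mpr (integrableOn_const hWfin)
  have hGi : Integrable G := by
    refine hi1.mono' hGm.aestronglyMeasurable (Filter.Eventually.of_forall fun ξ => ?_)
    rw [hGn]
  have hGn2 : ∀ ξ, ‖G ξ‖ ^ 2 = W.indicator (fun _ => (1 : ℝ)) ξ := by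
    intro ξ
    rw [hGn]
    by_cases hξ : ξ ∈ W
    · rw [indicator_of_mem hξ, one_pow]
    · rw [indicator_of_notMem hξ]; norm_num
  have hIW : ∫ ξ : E d, W.indicator (fun _ => (1 : ℝ)) ξ = V := by
    rw [integral_indicator hW, integral_const, smul_eq_mul, mul_one, Measure.real,
      Measure.restrict_apply_univ]
  have hGi2 : Integrable fun ξ => ‖G ξ‖ ^ 2 := by
    simp only [hGn2]
    exact hi1
  -- lower bound for the pairing
  have h1 : l * V ≤ ‖∫ ξ, FT g ξ * G ξ‖ := by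
    have e1 : ∀ ξ, FT g ξ * G ξ = ((W.indicator (fun ξ => ‖FT g ξ‖) ξ : ℝ) : ℂ) := by
      intro ξ
      rw [hG]
      by_cases hξ : ξ ∈ W
      · rw [indicator_of_mem hξ, indicator_of_mem hξ, ← mul_assoc, Complex.mul_conj']
        have h0 : ((‖FT g ξ‖ : ℝ) : ℂ) ≠ 0 := by exact_mod_cast (hFpos ξ hξ).ne'
        push_cast
        field_simp
      · rw [indicator_of_notMem hξ, indicator_of_notMem hξ, mul_zero, Complex.ofReal_zero]
    simp only [e1]
    rw [integral_complex_ofReal, Complex.norm_real, Real.norm_eq_abs]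
    refine le_trans ?_ (le_abs_self _)
    rw [← hIW, ← integral_const_mul]
    refine integral_mono (hi1.const_mul _) ?_ fun ξ => ?_
    · refine hi1.mono' ?_ (Filter.Eventually.of_forall fun ξ => ?_)
      · exact (hcF.norm.measurable.indicator hW).aestronglyMeasurable
      · by_cases hξ : ξ ∈ W
        · rw [indicator_of_mem hξ, indicator_of_mem hξ, norm_norm]
          exact norm_FT_le hg1 ξ
        · rw [indicator_of_notMem hξ, indicator_of_notMem hξ, norm_zero]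
    · show l * W.indicator (fun _ => (1 : ℝ)) ξ ≤ W.indicator (fun ξ => ‖FT g ξ‖) ξ
      by_cases hξ : ξ ∈ W
      · rw [indicator_of_mem hξ, indicator_of_mem hξ, mul_one]
        exact hWl ξ hξ
      · rw [indicator_of_notMem hξ, indicator_of_notMem hξ, mul_zero]
  have h2 : (l * V) ^ 2 ≤ ‖∫ ξ, FT g ξ * G ξ‖ ^ 2 := pow_le_pow_left₀ (by positivity) h1 2
  have h3 := duality hg hg1 hGi
  set S : ℝ := (2 * C2 / l ^ 2) ^ ((1 : ℝ) / 3) with hS
  have hS0 : 0 < S := by rw [hS]; positivity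
  have h4 := hmain G hGi hGi2 S hS0
  have e5 : ∫ ξ, ‖G ξ‖ ^ 2 = V := by simp only [hGn2]; exact hIW
  have e6 : ∫ ξ, ‖G ξ‖ = V := by simp only [hGn]; exact hIW
  rw [e5, e6] at h4
  have hS3 : S ^ 3 = 2 * C2 / l ^ 2 := by
    rw [hS, ← Real.rpow_natCast, ← Real.rpow_mul (by positivity)]
    norm_num
  have hS2 : S ^ 2 = (2 * C2) ^ ((2 : ℝ) / 3) * l ^ (-(4 : ℝ) / 3) := by
    rw [hS, ← Real.rpow_natCast, ← Real.rpow_mul (by positivity),
      Real.div_rpow (by positivity) (by positivity), ← Real.rpow_natCast l 2,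
      ← Real.rpow_mul hl.le, div_eq_mul_inv, ← Real.rpow_neg hl.le]
    norm_num
  have e7 : C2 / S ^ 3 = l ^ 2 / 2 := by
    rw [hS3]
    field_simp
  rw [e7] at h4
  -- (l V)^2 <= C1 S^2 V + l^2/2 V^2
  have h5 : l ^ 2 / 2 * V ^ 2 ≤ C1 * S ^ 2 * V := by nlinarith
  rcases eq_or_lt_of_le hV0 with h0 | h0
  · rw [← h0]; positivity
  have h6 : l ^ 2 / 2 * V ≤ C1 * S ^ 2 := by
    have : l ^ 2 / 2 * V * V ≤ C1 * S ^ 2 * V := by nlinarith
    exact le_of_mul_le_mul_right this h0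
  have h7 : V ≤ 2 * C1 * S ^ 2 / l ^ 2 := by
    rw [le_div_iff₀ (by positivity)]
    nlinarith
  refine h7.trans (le_of_eq ?_)
  rw [hS2]
  have h8 : l ^ (-(10 : ℝ) / 3) = l ^ (-(4 : ℝ) / 3) / l ^ 2 := by
    rw [← Real.rpow_natCast l 2, ← Real.rpow_sub hl]
    norm_num
  rw [h8]
  ring

/-- the level set estimate -/
theorem level_set {d : ℕ} (hd : 3 ≤ d) : ∃ C : ℝ, 0 < C ∧ ∀ g : E d → ℂ, Measurable g →
    (∀ x, ‖g x‖ ≤ 1) → ∀ l : ℝ, 0 < l →
    volume {ξ : E d | l < ‖FT g ξ‖} ≤ ENNReal.ofReal (C * l ^ (-(10 : ℝ) / 3)) := by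
  obtain ⟨C, hC, hmain⟩ := level_bounded (d := d) hd
  refine ⟨C, hC, fun g hg hg1 l hl => ?_⟩
  have hcF := continuous_FT hg hg1
  have hWm : MeasurableSet {ξ : E d | l < ‖FT g ξ‖} :=
    measurableSet_lt measurable_const hcF.norm.measurable
  have hun : {ξ : E d | l < ‖FT g ξ‖} = ⋃ n : ℕ, {ξ : E d | l < ‖FT g ξ‖} ∩ ball 0 n := by
    rw [← inter_iUnion]
    have : (⋃ n : ℕ, ball (0 : E d) (n : ℝ)) = univ := by
      rw [eq_univ_iff_forall]
      intro x
      obtain ⟨n, hn⟩ := exists_nat_gt ‖x‖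
      exact mem_iUnion.mpr ⟨n, by simpa using hn⟩
    rw [this, inter_univ]
  have hmono : Monotone fun n : ℕ => {ξ : E d | l < ‖FT g ξ‖} ∩ ball 0 (n : ℝ) := by
    intro m n hmn
    refine inter_subset_inter_right _ (ball_subset_ball ?_)
    exact_mod_cast hmn
  rw [hun, hmono.measure_iUnion]
  refine iSup_le fun n => ?_
  have hfin : volume ({ξ : E d | l < ‖FT g ξ‖} ∩ ball 0 (n : ℝ)) ≠ ⊤ :=
    ((measure_mono inter_subset_right).trans_lt measure_ball_lt_top).ne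
  have h := hmain g hg hg1 l hl _ (hWm.inter measurableSet_ball) hfin
    (fun ξ hξ => le_of_lt hξ.1)
  exact ENNReal.le_ofReal_iff_toReal_le hfin (by positivity) |>.mpr h

/-- ROW TS. The level set estimate of Tomas and Stein, and the L4 bound. -/
theorem L4_bound (d : ℕ) (hd : 3 ≤ d) : ∃ C : ℝ, 0 < C ∧ ∀ g : E d → ℂ, Measurable g →
    (∀ x, ‖g x‖ ≤ 1) → ∀ M : ℝ, 0 ≤ M → (∀ ξ, ‖FT g ξ‖ ≤ M) →
    ∫⁻ ξ : E d, ‖FT g ξ‖ₑ ^ 4 ≤ ENNReal.ofReal (C * M ^ ((2 : ℝ) / 3)) := by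
  obtain ⟨C, hC, hmain⟩ := level_set (d := d) hd
  refine ⟨6 * C, by positivity, fun g hg hg1 M hM hgM => ?_⟩
  have hcF := continuous_FT hg hg1
  have e1 : ∫⁻ ξ : E d, ‖FT g ξ‖ₑ ^ 4 = ∫⁻ ξ : E d, ENNReal.ofReal (‖FT g ξ‖ ^ (4 : ℝ)) := by
    refine lintegral_congr fun ξ => ?_
    rw [← ofReal_norm, ← ENNReal.ofReal_pow (norm_nonneg _)]
    congr 1
    norm_cast
  rw [e1, lintegral_rpow_eq_lintegral_meas_lt_mul (f := fun ξ => ‖FT g ξ‖) volume
    (Filter.Eventually.of_forall fun ξ => norm_nonneg _) hcF.norm.aemeasurable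
    (by norm_num : (0 : ℝ) < 4)]
  have h1 : ∫⁻ t in Ioi (0 : ℝ), volume {a : E d | t < ‖FT g a‖} *
      ENNReal.ofReal (t ^ ((4 : ℝ) - 1)) ≤
      ∫⁻ t in Ioi (0 : ℝ), (Ioc (0 : ℝ) M).indicator
        (fun t => ENNReal.ofReal (C * t ^ (-(1 : ℝ) / 3))) t := by
    refine setLIntegral_mono' measurableSet_Ioi fun t ht => ?_
    have ht0 : 0 < t := ht
    by_cases htM : t ≤ M
    · have hmem : t ∈ Ioc (0 : ℝ) M := ⟨ht0, htM⟩
      rw [indicator_of_mem hmem]
      calc _ ≤ ENNReal.ofReal (C * t ^ (-(10 : ℝ) / 3)) * ENNReal.ofReal (t ^ ((4 : ℝ) - 1)) := by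
            gcongr
            exact hmain g hg hg1 t ht0
        _ = _ := by
            rw [← ENNReal.ofReal_mul (by positivity), mul_assoc, ← Real.rpow_add ht0]
            norm_num
    · have hemp : {a : E d | t < ‖FT g a‖} = ∅ := by
        rw [eq_empty_iff_forall_notMem]
        intro a ha
        have ha' : t < ‖FT g a‖ := ha
        exact absurd (ha'.le.trans (hgM a)) htM
      rw [hemp, measure_empty, zero_mul]
      exact zero_le
  have h2 : ∫⁻ t in Ioi (0 : ℝ), (Ioc (0 : ℝ) M).indicator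
        (fun t => ENNReal.ofReal (C * t ^ (-(1 : ℝ) / 3))) t =
      ENNReal.ofReal (C * (3 / 2 * M ^ ((2 : ℝ) / 3))) := by
    have hsub : Ioc (0 : ℝ) M ⊆ Ioi 0 := fun t ht => ht.1
    rw [lintegral_indicator measurableSet_Ioc, Measure.restrict_restrict measurableSet_Ioc,
      inter_eq_left.mpr hsub]
    have hii : IntervalIntegrable (fun t : ℝ => C * t ^ (-(1 : ℝ) / 3)) volume 0 M :=
      (intervalIntegral.intervalIntegrable_rpow' (by norm_num)).const_mul _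
    rw [← ofReal_integral_eq_lintegral_ofReal]
    · rw [← intervalIntegral.integral_of_le hM, intervalIntegral.integral_const_mul,
        integral_rpow (Or.inl (by norm_num))]
      congr 1
      norm_num
      left
      ring
    · exact (intervalIntegrable_iff_integrableOn_Ioc_of_le hM).mp hii
    · refine (ae_restrict_iff' measurableSet_Ioc).mpr (Filter.Eventually.of_forall fun t ht => ?_)
      have : 0 < t := ht.1
      positivity
  calc ENNReal.ofReal 4 * ∫⁻ t in Ioi (0 : ℝ), volume {a : E d | t < ‖FT g a‖} *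
      ENNReal.ofReal (t ^ ((4 : ℝ) - 1))
      ≤ ENNReal.ofReal 4 * ENNReal.ofReal (C * (3 / 2 * M ^ ((2 : ℝ) / 3))) := by
        gcongr
        exact h1.trans h2.le
    _ = _ := by
        rw [← ENNReal.ofReal_mul (by norm_num)]
        congr 1
        ring

end SPH
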