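import Pool.Agent.SPH.UThmOf
import Pool.Agent.SPH.CSOf
import Pool.Agent.SPH.Rec1
import Pool.Agent.SPH.Rec3
import Pool.Agent.SPH.TSL4
import Pool.Agent.SPH.Klaw

/-! Project SPH (MP_f7e9f1_co), row UTHM: Theorem U. -/

open MeasureTheory Set Metric Filter
open scoped ENNReal NNReal Topology

noncomputable section
namespace SPH

/-- the average over the rectangles is small when the Fourier transform is small -/
theorem rectSmall (d : ℕ) (hd : 3 ≤ d) : RectSmall d := by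
  intro q δ hq hδm hδ1 hδ2 η hη
  exact rect_small hd
    (fun g y0 y1 y2 y3 h0 h1 h2 h3 hy hst => J4_eq_jg hd g y0 y1 y2 y3 h0 h1 h2 h3 hy hst)
    (fun g hg => measurable_jg g hg) (fun g hg s t => norm_jg_le g hg s t)
    (fun N hN h => klaw d hd N hN h) (L4_bound d hd)
    (fun α β => rect_mono_of d hd (rect_L4 d hd) (L4_bound d hd) α β) q δ hq hδm hδ1 hδ2 η hη

/-- ROW UTHM. Theorem U. -/
theorem theoremU {d : ℕ} (hd : 3 ≤ d) {ι : Type*} [Fintype ι] [DecidableEq ι] (v : ι → Sph d) (i0 : ι)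
    (A : Finset ι) (hA : i0 ∉ A) (e0 : E d) (he0 : ‖e0‖ = 1) (hev : ∀ i, inner ℝ e0 (v i : E d) = 0)
    (h1 : (v i0 : E d) ∉ Submodule.span ℝ ((fun i => (v i : E d)) '' (A : Set ι)))
    (h2 : (v i0 : E d) ∉ Submodule.span ℝ ((fun i => (v i : E d)) '' {i | i ∉ A ∧ i ≠ i0}))
    (h3 : Module.finrank ℝ (Submodule.span ℝ ((fun i => (v i : E d)) '' (A : Set ι))) + 2 ≤ d)
    (κ : ℝ) (hκ : 0 < κ) :
    ∃ ε : ℝ, 0 < ε ∧ ∀ (g : E d → ℂ) (f : ι → E d → ℂ), Measurable g → (∀ x, ‖g x‖ ≤ 1) →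
        (∀ i, Measurable (f i)) → (∀ i x, ‖f i x‖ ≤ 1) → (∀ ξ, ‖FT g ξ‖ ≤ ε) →
        ‖∫ T : OG d, g (act T (v i0)) * ∏ i ∈ Finset.univ.erase i0, f i (act T (v i)) ∂(mu d)‖ ≤ κ := by
  refine theoremU_of v i0 ?_ (rectSmall d hd) κ hκ
  obtain ⟨q, δ, hq, _, hδm, _, hδ1, hδ2, hmain⟩ := two_cs_of
    (fun g y0 y1 y2 y3 h0 h1 h2 h3 hy hs ht =>
      J4_eq_jg hd g y0 y1 y2 y3 h0 h1 h2 h3 hy (by linarith))
    (fun g hg => measurable_jg g hg) (fun g hg s t => norm_jg_le g hg s t)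
    v i0 A hA e0 he0 hev h1 h2 h3
  exact ⟨q, δ, hq, hδm, hδ1, hδ2, hmain⟩

/-- ROW U2. Theorem U for real functions on the sphere. -/
theorem theoremU_sph {d : ℕ} (hd : 3 ≤ d) {ι : Type*} [Fintype ι] [DecidableEq ι] (v : ι → Sph d) (i0 : ι)
    (A : Finset ι) (hA : i0 ∉ A) (e0 : E d) (he0 : ‖e0‖ = 1) (hev : ∀ i, inner ℝ e0 (v i : E d) = 0)
    (h1 : (v i0 : E d) ∉ Submodule.span ℝ ((fun i => (v i : E d)) '' (A : Set ι)))
    (h2 : (v i0 : E d) ∉ Submodule.span ℝ ((fun i => (v i : E d)) '' {i | i ∉ A ∧ i ≠ i0}))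
    (h3 : Module.finrank ℝ (Submodule.span ℝ ((fun i => (v i : E d)) '' (A : Set ι))) + 2 ≤ d)
    (κ : ℝ) (hκ : 0 < κ) :
    ∃ ε : ℝ, 0 < ε ∧ ∀ (g : Sph d → ℝ) (f : ι → Sph d → ℝ), Measurable g → (∀ x, |g x| ≤ 1) →
        (∀ i, Measurable (f i)) → (∀ i x, |f i x| ≤ 1) →
        (∀ ξ : E d, ‖∫ x : Sph d, ((g x : ℝ) : ℂ) * ee (-(inner ℝ ξ (x : E d))) ∂(sig d)‖ ≤ ε) →
        |∫ T : OG d, g (T • v i0) * ∏ i ∈ Finset.univ.erase i0, f i (T • v i) ∂(mu d)| ≤ κ :=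
  theoremU_sph_of v i0 κ (theoremU hd v i0 A hA e0 he0 hev h1 h2 h3 κ hκ)

end SPH
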