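import Pool.Agent.SPH.RemLi
import Pool.Agent.SPH.RemA
import Pool.Agent.SPH.UThm

/-! Project SPH (MP_f7e9f1_co): Theorem T. -/

open MeasureTheory Set Metric Filter
open scoped ENNReal NNReal Topology

noncomputable section
namespace SPH

/-- split families in a great sphere are controlled by the Fourier norm -/
theorem controlled_of_split {d : ℕ} (hd : 3 ≤ d) {ι : Type*} [Fintype ι] [DecidableEq ι]
    (v : ι → Sph d) (e0 : E d) (he0 : ‖e0‖ = 1) (hev : ∀ i, inner ℝ e0 (v i : E d) = 0)
    (hs : Split v) : Controlled v := by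
  intro i0 κ hκ
  obtain ⟨B, hB0, hB1, hB2, hB3⟩ := hs i0
  exact theoremU_sph hd v i0 B hB0 e0 he0 hev hB1 hB2 hB3 κ hκ

/-- Theorem T: every configuration contained, up to signs, in a split system of vectors of a great
sphere has the removal property. -/
theorem theoremT {d : ℕ} (hd : 3 ≤ d) {ι : Type*} [Fintype ι] [DecidableEq ι] (v : ι → Sph d)
    (e0 : E d) (he0 : ‖e0‖ = 1) (hev : ∀ i, inner ℝ e0 (v i : E d) = 0) (hs : Split v)
    (P : Finset (Sph d)) (hP : P.Nonempty) (hPv : ∀ p ∈ P, ∃ i, p = v i ∨ p = -(v i)) :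
    HasRemoval P :=
  hasRemoval_of_controlled hd v (controlled_of_split hd v e0 he0 hev hs) P hP hPv

end SPH
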