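import Pool.Agent.SPH.Defs

/-! Project SPH: the compact group Gh A = Hom(A, Circle) of a countable abelian group A, and the
limit objects. -/

open MeasureTheory Set Metric Filter
open scoped ENNReal NNReal Topology

noncomputable section
namespace SPH

/-- the group of characters of A, as a subgroup of the product -/
def Gh (A : Type*) [AddCommGroup A] : Subgroup (A → Circle) where
  carrier := {t | ∀ a b, t (a + b) = t a * t b}
  one_mem' := by
    intro a b
    simp
  mul_mem' := by
    intro s t hs ht a b
    simp only [Pi.mul_apply]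
    rw [hs a b, ht a b]
    exact mul_mul_mul_comm _ _ _ _
  inv_mem' := by
    intro s hs a b
    simp only [Pi.inv_apply]
    rw [hs a b, mul_inv]

theorem isClosed_Gh (A : Type*) [AddCommGroup A] : IsClosed (Gh A : Set (A → Circle)) := by
  have h : (Gh A : Set (A → Circle)) = ⋂ a, ⋂ b, {t : A → Circle | t (a + b) = t a * t b} := by
    ext t
    simp only [Set.mem_iInter]
    rfl
  rw [h]
  exact isClosed_iInter fun a => isClosed_iInter fun b =>
    isClosed_eq (continuous_apply _) (by fun_prop)

section
variable (A : Type*) [AddCommGroup A]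

instance instCompactSpaceGh : CompactSpace (Gh A) :=
  isCompact_iff_compactSpace.mp (isClosed_Gh A).isCompact

instance instMeasurableSpaceGh : MeasurableSpace (Gh A) := borel _
instance instBorelSpaceGh : BorelSpace (Gh A) := ⟨rfl⟩

variable [Countable A]

instance instSecondCountableGh : SecondCountableTopology (Gh A) :=
  TopologicalSpace.Subtype.secondCountableTopology _

/-- Haar probability on Gh A -/
def hgh : Measure (Gh A) := Measure.haarMeasure ⊤

instance instIsHaarMeasure_hgh : (hgh A).IsHaarMeasure := by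
  unfold hgh; infer_instance

instance instIsProbabilityMeasure_hgh : IsProbabilityMeasure (hgh A) := by
  constructor
  have h := Measure.haarMeasure_self (G := Gh A) (K₀ := ⊤)
  simpa [hgh] using h

end

/-- the evaluation as a complex number -/
def chv {A : Type*} [AddCommGroup A] (t : Gh A) (a : A) : ℂ := ((t.1 a : Circle) : ℂ)

/-- the dual of a family of endomorphisms m j : A -> A, t ↦ (a ↦ ∏ j, t j (m j a)) -/
def Lmap {A J : Type*} [AddCommGroup A] [Fintype J] (m : J → A →+ A) : (J → Gh A) →* Gh A where
  toFun t := ⟨fun a => ∏ j, (t j).1 (m j a), by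
    intro a b
    show ∏ j, (t j).1 (m j (a + b)) = (∏ j, (t j).1 (m j a)) * ∏ j, (t j).1 (m j b)
    rw [← Finset.prod_mul_distrib]
    refine Finset.prod_congr rfl fun j _ => ?_
    rw [map_add]
    exact (t j).2 _ _⟩
  map_one' := by
    apply Subtype.ext
    funext a
    simp
  map_mul' s t := by
    apply Subtype.ext
    funext a
    simp [Finset.prod_mul_distrib]

/-- b_n(x): the character a ↦ e(w_n(a) . x) -/
def bmap {d : ℕ} {A : Type*} [AddCommGroup A] (w : A →+ E d) (x : E d) : Gh A :=
  ⟨fun a => Circle.exp (2 * Real.pi * inner ℝ (w a) x), by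
    intro a b
    show Circle.exp (2 * Real.pi * inner ℝ (w (a + b)) x) = _
    rw [map_add, inner_add_left, mul_add, Circle.exp_add]⟩

theorem chv_bmap {d : ℕ} {A : Type*} [AddCommGroup A] (w : A →+ E d) (x : E d) (a : A) :
    chv (bmap w x) a = ee (inner ℝ (w a) x) := by
  simp [chv, bmap, ee, Circle.coe_exp]

/-- the space X = S^d x Gh A -/
abbrev XX (d : ℕ) (A : Type*) [AddCommGroup A] := Sph d × Gh A

/-- the compact group Y = O(d+1) x (Gh A)^J -/
abbrev YY (d : ℕ) (A : Type*) [AddCommGroup A] (J : Type*) := OG d × (J → Gh A)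

/-- muX = sigma x Haar -/
def muX (d : ℕ) (A : Type*) [AddCommGroup A] [Countable A] : Measure (XX d A) :=
  (sig d).prod (hgh A)

/-- M = mu x Haar^J -/
def muY (d : ℕ) (A : Type*) [AddCommGroup A] [Countable A] (J : Type*) [Fintype J] :
    Measure (YY d A J) :=
  (mu d).prod (Measure.pi fun _ : J => hgh A)

/-- pi_i (T,t) = (T v, L t) -/
def piY {d : ℕ} {A J : Type*} [AddCommGroup A] [Fintype J] (v : Sph d) (m : J → A →+ A)
    (y : YY d A J) : XX d A := (y.1 • v, Lmap m y.2)

/-- the action of Y on X attached to m: ((R,h),(x,t)) ↦ (R x, L h t) -/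
def aY {d : ℕ} {A J : Type*} [AddCommGroup A] [Fintype J] (m : J → A →+ A)
    (g : YY d A J) (p : XX d A) : XX d A := (g.1 • p.1, Lmap m g.2 * p.2)

/-- beta_n (x) = (x, b_n x) -/
def beta {d : ℕ} {A : Type*} [AddCommGroup A] (w : A →+ E d) (x : Sph d) : XX d A :=
  (x, bmap w (x : E d))

/-- eta_n (T) = (T, (b_n (T v_j))_j) -/
def eta {d : ℕ} {A J : Type*} [AddCommGroup A] (w : A →+ E d) (vJ : J → Sph d) (T : OG d) :
    YY d A J := (T, fun j => bmap w (act T (vJ j : E d)))

end SPH
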