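import Pool.Agent.SPH.Bessel
import Pool.Agent.SPH.GhDefs

/-! Project SPH (MP_f7e9f1_co), helper28: the countable group of frequencies. -/

open MeasureTheory Set Metric Filter
open scoped ENNReal NNReal Topology

noncomputable section
namespace SPH

/-- the subring generated by a finite set of reals is countable -/
theorem countable_adjoin_int (L : Finset ℝ) : Countable (Algebra.adjoin ℤ (L : Set ℝ)) := by
  rw [← Cardinal.mk_le_aleph0_iff]
  have h := Algebra.lift_cardinalMk_adjoin_le ℤ (L : Set ℝ)
  simp only [Cardinal.lift_uzero] at h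
  refine h.trans (max_le (max_le ?_ ?_) le_rfl)
  · exact Cardinal.mk_le_aleph0
  · exact Cardinal.mk_le_aleph0

/-- ROW FREQ. The countable group of frequencies. -/
theorem exists_freq {d : ℕ} (hd : 3 ≤ d) {ι : Type*} [Fintype ι] (U : Ultrafilter ℕ)
    (f : ι → ℕ → Sph d → ℝ) (hf : ∀ i n, Measurable (f i n)) (hf1 : ∀ i n x, ‖f i n x‖ ≤ 1)
    (L : Finset ℝ) :
    ∃ A : AddSubgroup (ℕ → E d), Countable A ∧
      (∀ a ∈ A, a ≠ 0 → Tendsto (fun n => ‖a n‖) U atTop) ∧
      (∀ l ∈ L, ∀ a ∈ A, l • a ∈ A) ∧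
      (∀ w : ℕ → E d, ∃ w' wb : ℕ → E d, w = w' + wb ∧ (∃ C : ℝ, ∀ᶠ n in (U : Filter ℕ), ‖wb n‖ ≤ C) ∧
        (w' ∈ A ∨ ((∀ a ∈ A, Tendsto (fun n => ‖(a - w') n‖) U atTop) ∧
          ∀ i, ∀ u : C(Sph d, ℂ), Tendsto (fun n => ∫ x : Sph d, (f i n x : ℂ) * u x *
            ee (-(inner ℝ (w' n) (x : E d))) ∂(sig d)) U (𝓝 0)))) := by
  classical
  let Wb : Submodule ℝ (ℕ → E d) :=
    { carrier := {w | ∃ C : ℝ, ∀ᶠ n in (U : Filter ℕ), ‖w n‖ ≤ C}
      add_mem' := by
        rintro v w ⟨C, hC⟩ ⟨D, hD⟩
        refine ⟨C + D, ?_⟩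
        filter_upwards [hC, hD] with n h1 h2
        exact (norm_add_le _ _).trans (add_le_add h1 h2)
      zero_mem' := ⟨0, Eventually.of_forall fun n => by simp⟩
      smul_mem' := by
        rintro c w ⟨C, hC⟩
        refine ⟨|c| * C, ?_⟩
        filter_upwards [hC] with n h1
        rw [Pi.smul_apply, norm_smul, Real.norm_eq_abs]
        exact mul_le_mul_of_nonneg_left h1 (abs_nonneg _) }
  obtain ⟨W', hW'⟩ := Submodule.exists_isCompl Wb
  have hinf : ∀ w ∈ W', w ≠ 0 → Tendsto (fun n => ‖w n‖) U atTop := by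
    intro w hw hw0
    have hnb : w ∉ Wb := fun hb => hw0 ((Submodule.disjoint_def.mp hW'.disjoint) w hb hw)
    rw [Filter.tendsto_atTop]
    intro C
    by_contra hcon
    apply hnb
    refine ⟨C, ?_⟩
    have h1 := Ultrafilter.eventually_not.mpr hcon
    filter_upwards [h1] with n hn
    exact (not_le.mp hn).le
  obtain ⟨s, hs1, hs2⟩ := TopologicalSpace.exists_countable_dense C(Sph d, ℂ)
  -- the seen frequencies
  set S : Set (ℕ → E d) := ⋃ i : ι, ⋃ u ∈ s, {w ∈ (W' : Set (ℕ → E d)) | ¬ Tendsto
    (fun n => ∫ x : Sph d, (f i n x : ℂ) * u x * ee (-(inner ℝ (w n) (x : E d))) ∂(sig d))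
      U (𝓝 0)} with hS
  have hScount : S.Countable := by
    refine countable_iUnion fun i => hs1.biUnion fun u _ => ?_
    refine freq_countable hd U (f i) (hf i) (hf1 i) W' ?_ u
    intro v hv w hw hvw
    exact hinf (v - w) (W'.sub_mem hv hw) (sub_ne_zero.mpr hvw)
  have hSW : S ⊆ W' := by
    refine iUnion_subset fun i => iUnion₂_subset fun u _ => ?_
    rintro w ⟨hw, -⟩
    exact hw
  have hK : Countable (Algebra.adjoin ℤ (L : Set ℝ)) := countable_adjoin_int L
  have hSc : Countable S := hScount.to_subtype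
  have hAc : Countable (Submodule.span (Algebra.adjoin ℤ (L : Set ℝ)) S) := by
    have h : Countable (Submodule.span (Algebra.adjoin ℤ (L : Set ℝ))
      (Set.range (Subtype.val : S → (ℕ → E d)))) := inferInstance
    rwa [Subtype.range_coe] at h
  have hAW : ∀ a ∈ Submodule.span (Algebra.adjoin ℤ (L : Set ℝ)) S, a ∈ W' := by
    intro a ha
    induction ha using Submodule.span_induction with
    | mem x hx => exact hSW hx
    | zero => exact W'.zero_mem
    | add x y _ _ hx hy => exact W'.add_mem hx hy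
    | smul c x _ hx => exact W'.smul_mem (c : ℝ) hx
  refine ⟨(Submodule.span (Algebra.adjoin ℤ (L : Set ℝ)) S).toAddSubgroup, hAc, ?_, ?_, ?_⟩
  · intro a ha h0
    exact hinf a (hAW a ha) h0
  · intro l hl a ha
    exact Submodule.smul_mem (Submodule.span (Algebra.adjoin ℤ (L : Set ℝ)) S)
      (⟨l, Algebra.subset_adjoin hl⟩ : Algebra.adjoin ℤ (L : Set ℝ)) ha
  · intro w
    have htop : w ∈ Wb ⊔ W' := by
      rw [hW'.codisjoint.eq_top]
      exact Submodule.mem_top
    obtain ⟨wb, hwb, w', hw', rfl⟩ := Submodule.mem_sup.mp htop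
    refine ⟨w', wb, add_comm _ _, hwb, ?_⟩
    by_cases hA : w' ∈ (Submodule.span (Algebra.adjoin ℤ (L : Set ℝ)) S).toAddSubgroup
    · exact Or.inl hA
    · right
      refine ⟨?_, ?_⟩
      · intro a ha
        refine hinf (a - w') (W'.sub_mem (hAW a ha) hw') ?_
        intro h0
        apply hA
        rw [← sub_eq_zero.mp h0]
        exact ha
      · intro i u
        have hnS : w' ∉ S := fun h => hA (Submodule.subset_span h)
        have hdense : ∀ u0 ∈ s, Tendsto (fun n => ∫ x : Sph d, (f i n x : ℂ) * u0 x *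
            ee (-(inner ℝ (w' n) (x : E d))) ∂(sig d)) U (𝓝 0) := by
          intro u0 hu0
          by_contra hcon
          exact hnS (mem_iUnion.mpr ⟨i, mem_iUnion₂.mpr ⟨u0, hu0, hw', hcon⟩⟩)
        rw [Metric.tendsto_nhds]
        intro ε hε
        obtain ⟨u0, hu0, hd0⟩ := Metric.mem_closure_iff.mp (hs2 u) (ε / 2) (by positivity)
        rw [dist_eq_norm] at hd0
        filter_upwards [Metric.tendsto_nhds.mp (hdense u0 hu0) (ε / 2) (by positivity)] with n hn
        rw [dist_zero_right] at hn ⊢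
        have hI : ∀ v : C(Sph d, ℂ), Integrable (fun x : Sph d => (f i n x : ℂ) * v x *
            ee (-(inner ℝ (w' n) (x : E d)))) (sig d) := by
          intro v
          have hc : Continuous fun x : Sph d => v x * ee (-(inner ℝ (w' n) (x : E d))) := by
            have h1 : Continuous fun x : Sph d => ee (inner ℝ (-(w' n)) (x : E d)) :=
              (chS (-(w' n))).continuous
            simp only [inner_neg_left] at h1
            exact v.continuous.mul h1
          have h2 : Integrable (fun x : Sph d => (f i n x : ℂ) *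
              (v x * ee (-(inner ℝ (w' n) (x : E d))))) (sig d) :=
            (integrable_sph hc).bdd_mul (c := 1)
              (Complex.measurable_ofReal.comp (hf i n)).aestronglyMeasurable
              (Eventually.of_forall fun x => by rw [Complex.norm_real]; exact hf1 i n x)
          refine h2.congr (Eventually.of_forall fun x => ?_)
          show (f i n x : ℂ) * (v x * _) = (f i n x : ℂ) * v x * _
          rw [mul_assoc]
        have e : ∫ x : Sph d, (f i n x : ℂ) * u x * ee (-(inner ℝ (w' n) (x : E d))) ∂(sig d) =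
            ∫ x : Sph d, (f i n x : ℂ) * (u - u0) x * ee (-(inner ℝ (w' n) (x : E d))) ∂(sig d) +
            ∫ x : Sph d, (f i n x : ℂ) * u0 x * ee (-(inner ℝ (w' n) (x : E d))) ∂(sig d) := by
          rw [← integral_add (hI _) (hI _)]
          refine integral_congr_ae (Eventually.of_forall fun x => ?_)
          show (f i n x : ℂ) * u x * _ = (f i n x : ℂ) * (u - u0) x * _ + (f i n x : ℂ) * u0 x * _
          rw [ContinuousMap.sub_apply]
          ring
        rw [e]
        have h2 : ‖∫ x : Sph d, (f i n x : ℂ) * (u - u0) x *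
            ee (-(inner ℝ (w' n) (x : E d))) ∂(sig d)‖ ≤ ‖u - u0‖ := by
          refine (norm_integral_le_of_norm_le_const (C := ‖u - u0‖)
            (Eventually.of_forall fun x => ?_)).trans ?_
          · rw [norm_mul, norm_mul, rl_norm_ee, mul_one, Complex.norm_real]
            calc ‖f i n x‖ * ‖(u - u0) x‖ ≤ 1 * ‖u - u0‖ :=
                  mul_le_mul (hf1 i n x) ((u - u0).norm_coe_le_norm x) (norm_nonneg _) zero_le_one
              _ = ‖u - u0‖ := one_mul _
          · simp
        calc _ ≤ _ := norm_add_le _ _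
          _ < ε / 2 + ε / 2 := add_lt_add_of_le_of_lt (h2.trans hd0.le) hn
          _ = ε := by ring

end SPH
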