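import Mathlib

/-! Project SPH (MP_f7e9f1_co), helper28: Stone Weierstrass for a multiplicative family, and
convergence of uniformly bounded functionals tested on such a family. -/

open Filter Set
open scoped Topology

noncomputable section
namespace SPH

/-- Stone Weierstrass for a multiplicative self-adjoint separating family. -/
theorem sw_span {X : Type*} [TopologicalSpace X] [CompactSpace X] (S : Set C(X, ℂ))
    (h1 : (1 : C(X, ℂ)) ∈ S) (hmul : ∀ f ∈ S, ∀ g ∈ S, f * g ∈ S) (hstar : ∀ f ∈ S, star f ∈ S)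
    (hsep : ∀ x y : X, x ≠ y → ∃ f ∈ S, f x ≠ f y) :
    (Submodule.span ℂ S).topologicalClosure = ⊤ := by
  let A : StarSubalgebra ℂ C(X, ℂ) :=
    { toSubalgebra := Algebra.adjoin ℂ S
      star_mem' := by
        change Algebra.adjoin ℂ S ≤ star (Algebra.adjoin ℂ S)
        refine Algebra.adjoin_le ?_
        intro f hf
        exact Algebra.subset_adjoin (hstar f hf) }
  have hA : A.SeparatesPoints := by
    intro x y hxy
    obtain ⟨f, hf, hne⟩ := hsep x y hxy
    exact ⟨_, ⟨f, Algebra.subset_adjoin hf, rfl⟩, hne⟩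
  have h2 : Subalgebra.toSubmodule A.toSubalgebra = Submodule.span ℂ S := by
    apply Algebra.adjoin_eq_span_of_subset
    refine Subset.trans ?_ Submodule.subset_span
    intro f hf
    exact Submonoid.closure_induction (fun _ h => h) h1 (fun f g _ _ hf hg => hmul f hf g hg) hf
  rw [← h2]
  exact congr_arg (Subalgebra.toSubmodule <| StarSubalgebra.toSubalgebra ·)
    (ContinuousMap.starSubalgebra_topologicalClosure_eq_top_of_separatesPoints A hA)

/-- Functionals that are uniformly bounded and tend to 0 on the family tend to 0 everywhere. -/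
theorem sw_zero {X α : Type*} [TopologicalSpace X] [CompactSpace X] (l : Filter α) (S : Set C(X, ℂ))
    (h1 : (1 : C(X, ℂ)) ∈ S) (hmul : ∀ f ∈ S, ∀ g ∈ S, f * g ∈ S) (hstar : ∀ f ∈ S, star f ∈ S)
    (hsep : ∀ x y : X, x ≠ y → ∃ f ∈ S, f x ≠ f y)
    (Φ : α → C(X, ℂ) → ℂ) (C : ℝ)
    (hadd : ∀ a f g, Φ a (f + g) = Φ a f + Φ a g) (hsmul : ∀ a (c : ℂ) f, Φ a (c • f) = c * Φ a f)
    (hb : ∀ a f, ‖Φ a f‖ ≤ C * ‖f‖)
    (hS : ∀ f ∈ S, Tendsto (fun a => Φ a f) l (𝓝 0)) (f : C(X, ℂ)) :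
    Tendsto (fun a => Φ a f) l (𝓝 0) := by
  let W : Submodule ℂ C(X, ℂ) :=
    { carrier := {f | Tendsto (fun a => Φ a f) l (𝓝 0)}
      add_mem' := by
        intro f g hf hg
        have h : Tendsto (fun a => Φ a f + Φ a g) l (𝓝 (0 + 0)) := Tendsto.add hf hg
        rw [add_zero] at h
        exact h.congr fun a => (hadd a f g).symm
      zero_mem' := by
        have h0 : ∀ a, Φ a 0 = 0 := by
          intro a
          have h := hsmul a 0 0
          rwa [zero_smul, zero_mul] at h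
        exact tendsto_const_nhds.congr fun a => (h0 a).symm
      smul_mem' := by
        intro c f hf
        have h : Tendsto (fun a => c * Φ a f) l (𝓝 (c * 0)) := Tendsto.const_mul c hf
        rw [mul_zero] at h
        exact h.congr fun a => (hsmul a c f).symm }
  have hW : IsClosed (W : Set C(X, ℂ)) := by
    rw [← closure_subset_iff_isClosed]
    intro f hf
    show Tendsto (fun a => Φ a f) l (𝓝 0)
    rw [Metric.tendsto_nhds]
    intro ε hε
    have hC : 0 < |C| + 1 := by positivity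
    obtain ⟨g, hg, hfg⟩ := Metric.mem_closure_iff.mp hf (ε / (2 * (|C| + 1))) (by positivity)
    have hg' : Tendsto (fun a => Φ a g) l (𝓝 0) := hg
    filter_upwards [Metric.tendsto_nhds.mp hg' (ε / 2) (by positivity)] with a ha
    rw [dist_zero_right] at ha ⊢
    have e : Φ a f = Φ a (f - g) + Φ a g := by rw [← hadd, sub_add_cancel]
    have h2 : ‖Φ a (f - g)‖ ≤ (|C| + 1) * ‖f - g‖ :=
      (hb a _).trans (mul_le_mul_of_nonneg_right ((le_abs_self C).trans (by linarith)) (norm_nonneg _))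
    rw [dist_eq_norm] at hfg
    have h3 : (|C| + 1) * ‖f - g‖ < ε / 2 := by
      calc (|C| + 1) * ‖f - g‖ < (|C| + 1) * (ε / (2 * (|C| + 1))) :=
            mul_lt_mul_of_pos_left hfg hC
        _ = ε / 2 := by field_simp
    calc ‖Φ a f‖ ≤ ‖Φ a (f - g)‖ + ‖Φ a g‖ := by rw [e]; exact norm_add_le _ _
      _ < ε := by linarith
  have hle : (Submodule.span ℂ S).topologicalClosure ≤ W :=
    Submodule.topologicalClosure_minimal _ (Submodule.span_le.mpr hS) hW
  rw [sw_span S h1 hmul hstar hsep] at hle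
  exact hle (Submodule.mem_top : f ∈ (⊤ : Submodule ℂ C(X, ℂ)))

/-- The same with a limit functional. -/
theorem sw_tendsto {X α : Type*} [TopologicalSpace X] [CompactSpace X] (l : Filter α)
    (S : Set C(X, ℂ))
    (h1 : (1 : C(X, ℂ)) ∈ S) (hmul : ∀ f ∈ S, ∀ g ∈ S, f * g ∈ S) (hstar : ∀ f ∈ S, star f ∈ S)
    (hsep : ∀ x y : X, x ≠ y → ∃ f ∈ S, f x ≠ f y)
    (Φ : α → C(X, ℂ) → ℂ) (Λ : C(X, ℂ) → ℂ) (C : ℝ)
    (hadd : ∀ a f g, Φ a (f + g) = Φ a f + Φ a g) (hsmul : ∀ a (c : ℂ) f, Φ a (c • f) = c * Φ a f)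
    (hb : ∀ a f, ‖Φ a f‖ ≤ C * ‖f‖)
    (hadd' : ∀ f g, Λ (f + g) = Λ f + Λ g) (hsmul' : ∀ (c : ℂ) f, Λ (c • f) = c * Λ f)
    (hb' : ∀ f, ‖Λ f‖ ≤ C * ‖f‖)
    (hS : ∀ f ∈ S, Tendsto (fun a => Φ a f) l (𝓝 (Λ f))) (f : C(X, ℂ)) :
    Tendsto (fun a => Φ a f) l (𝓝 (Λ f)) := by
  have h := sw_zero l S h1 hmul hstar hsep (fun a f => Φ a f - Λ f) (C + C)
    (by intro a f g; simp only [hadd, hadd']; ring)
    (by intro a c f; simp only [hsmul, hsmul']; ring)
    (by
      intro a f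
      calc ‖Φ a f - Λ f‖ ≤ ‖Φ a f‖ + ‖Λ f‖ := norm_sub_le _ _
        _ ≤ C * ‖f‖ + C * ‖f‖ := add_le_add (hb a f) (hb' f)
        _ = (C + C) * ‖f‖ := by ring)
    (by
      intro f hf
      have h := (hS f hf).sub_const (Λ f)
      rwa [sub_self] at h) f
  have h2 := h.add_const (Λ f)
  rw [zero_add] at h2
  refine h2.congr fun a => ?_
  ring

end SPH
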