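import Pool.Agent.SPH.TSDecay
import Pool.Agent.SPH.SWs

/-! Project SPH (MP_f7e9f1_co), helper28: the Riemann Lebesgue lemma on the sphere. -/

open MeasureTheory Set Metric Filter
open scoped ENNReal NNReal Topology

noncomputable section
namespace SPH

theorem rl_ee_add (s t : ℝ) : ee (s + t) = ee s * ee t := by
  unfold ee
  rw [← Complex.exp_add]
  congr 1
  push_cast
  ring

theorem rl_ee_zero : ee 0 = 1 := by simp [ee]

theorem rl_ee_half : ee (1 / 2) = -1 := by
  unfold ee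
  have h : (2 * Real.pi * (1 / 2) : ℝ) = Real.pi := by ring
  rw [h]
  exact Complex.exp_pi_mul_I

theorem rl_norm_ee (t : ℝ) : ‖ee t‖ = 1 := Complex.norm_exp_ofReal_mul_I _

theorem rl_ee_ne_zero (t : ℝ) : ee t ≠ 0 := by
  intro h
  have h1 := rl_norm_ee t
  rw [h, norm_zero] at h1
  exact zero_ne_one h1

theorem rl_ee_conj (t : ℝ) : (starRingEnd ℂ) (ee t) = ee (-t) := by
  unfold ee
  rw [← Complex.exp_conj, map_mul, Complex.conj_I, Complex.conj_ofReal]
  congr 1
  push_cast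
  ring

theorem rl_continuous_ee : Continuous ee := by
  unfold ee
  fun_prop

/-- the Fourier transform of the surface measure vanishes at infinity -/
theorem tendsto_FT_one (d : ℕ) (hd : 3 ≤ d) :
    Tendsto (fun ξ : E d => FT (fun _ => (1 : ℂ)) ξ) (cocompact (E d)) (𝓝 0) := by
  obtain ⟨C, hC, h⟩ := decay_sig d hd
  rw [tendsto_zero_iff_norm_tendsto_zero]
  have h1 : Tendsto (fun ξ : E d => C * (‖ξ‖ ^ ((3 : ℝ) / 2))⁻¹) (cocompact (E d)) (𝓝 (C * 0)) :=
    (((tendsto_rpow_atTop (by norm_num)).comp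
      (tendsto_norm_cocompact_atTop (E := E d))).inv_tendsto_atTop).const_mul C
  rw [mul_zero] at h1
  refine squeeze_zero' (Eventually.of_forall fun _ => norm_nonneg _) ?_ h1
  filter_upwards [(tendsto_norm_cocompact_atTop (E := E d)).eventually (eventually_gt_atTop 0)]
    with ξ hξ
  rw [← div_eq_mul_inv, le_div_iff₀ (by positivity)]
  exact h ξ

/-- the exponential with frequency a on the sphere -/
def chS {d : ℕ} (a : E d) : C(Sph d, ℂ) :=
  ⟨fun x => ee (inner ℝ a (x : E d)),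
    rl_continuous_ee.comp (continuous_const.inner continuous_subtype_val)⟩

theorem chS_apply {d : ℕ} (a : E d) (x : Sph d) : chS a x = ee (inner ℝ a (x : E d)) := rfl

theorem chS_sep {d : ℕ} (x y : Sph d) (h : x ≠ y) : ∃ a : E d, chS a x ≠ chS a y := by
  have h0 : (x : E d) - (y : E d) ≠ 0 := sub_ne_zero.mpr fun e => h (Subtype.ext e)
  have h1 : 0 < ‖(x : E d) - (y : E d)‖ := norm_pos_iff.mpr h0
  refine ⟨(1 / (2 * ‖(x : E d) - (y : E d)‖ ^ 2)) • ((x : E d) - (y : E d)), ?_⟩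
  rw [chS_apply, chS_apply]
  have e : inner ℝ ((1 / (2 * ‖(x : E d) - (y : E d)‖ ^ 2)) • ((x : E d) - (y : E d))) (x : E d) =
      1 / 2 + inner ℝ ((1 / (2 * ‖(x : E d) - (y : E d)‖ ^ 2)) • ((x : E d) - (y : E d)))
        (y : E d) := by
    have e1 : inner ℝ ((1 / (2 * ‖(x : E d) - (y : E d)‖ ^ 2)) • ((x : E d) - (y : E d)))
        ((x : E d) - (y : E d)) = 1 / 2 := by
      rw [real_inner_smul_left, real_inner_self_eq_norm_sq]
      field_simp
    rw [inner_sub_right] at e1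
    linarith
  rw [e, rl_ee_add, rl_ee_half]
  intro h2
  set z := ee (inner ℝ ((1 / (2 * ‖(x : E d) - (y : E d)‖ ^ 2)) • ((x : E d) - (y : E d)))
        (y : E d)) with hz
  have h3 : z = 0 := by
    have : 2 * z = 0 := by linear_combination -h2
    simpa using this
  exact rl_ee_ne_zero _ h3

/-- Riemann Lebesgue for continuous functions -/
theorem rl_sphere_cont (d : ℕ) (hd : 3 ≤ d) (V : C(Sph d, ℂ)) :
    Tendsto (fun ξ : E d => ∫ x : Sph d, V x * ee (inner ℝ ξ (x : E d)) ∂(sig d))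
      (cocompact (E d)) (𝓝 0) := by
  have hint : ∀ (ξ : E d) (f : C(Sph d, ℂ)),
      Integrable (fun x : Sph d => f x * ee (inner ℝ ξ (x : E d))) (sig d) := fun ξ f =>
    integrable_sph (f.continuous.mul (chS ξ).continuous)
  refine sw_zero (cocompact (E d)) (Set.range (chS (d := d))) ⟨0, ?_⟩ ?_ ?_ ?_
    (fun ξ f => ∫ x : Sph d, f x * ee (inner ℝ ξ (x : E d)) ∂(sig d)) 1 ?_ ?_ ?_ ?_ V
  · ext x
    rw [chS_apply, inner_zero_left, rl_ee_zero]
    rfl
  · rintro _ ⟨a, rfl⟩ _ ⟨b, rfl⟩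
    refine ⟨a + b, ?_⟩
    ext x
    rw [ContinuousMap.mul_apply, chS_apply, chS_apply, chS_apply, inner_add_left, rl_ee_add]
  · rintro _ ⟨a, rfl⟩
    refine ⟨-a, ?_⟩
    ext x
    rw [ContinuousMap.star_apply, chS_apply, chS_apply, inner_neg_left, ← rl_ee_conj]
    rfl
  · intro x y hxy
    obtain ⟨a, ha⟩ := chS_sep x y hxy
    exact ⟨_, ⟨a, rfl⟩, ha⟩
  · intro ξ f g
    simp only [ContinuousMap.add_apply, add_mul]
    exact integral_add (hint ξ f) (hint ξ g)
  · intro ξ c f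
    simp only [ContinuousMap.smul_apply, smul_eq_mul, mul_assoc]
    exact integral_const_mul _ _
  · intro ξ f
    rw [one_mul]
    refine (norm_integral_le_of_norm_le_const (C := ‖f‖) (Eventually.of_forall fun x => ?_)).trans ?_
    · rw [norm_mul, rl_norm_ee, mul_one]
      exact f.norm_coe_le_norm x
    · simp
  · rintro _ ⟨a, rfl⟩
    have h1 : Tendsto (fun ξ : E d => -(a + ξ)) (cocompact (E d)) (cocompact (E d)) :=
      ((Homeomorph.addLeft a).trans (Homeomorph.neg (E d))).isClosedEmbedding.tendsto_cocompact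
    refine ((tendsto_FT_one d hd).comp h1).congr fun ξ => ?_
    show FT (fun _ => (1 : ℂ)) (-(a + ξ)) = _
    unfold FT
    refine integral_congr_ae (Eventually.of_forall fun x => ?_)
    show (1 : ℂ) * ee (-(inner ℝ (-(a + ξ)) (x : E d))) = chS a x * ee (inner ℝ ξ (x : E d))
    rw [chS_apply, one_mul, inner_neg_left, neg_neg, inner_add_left, rl_ee_add]

/-- ROW RLS. Riemann-Lebesgue on the sphere. -/
theorem rl_sphere (d : ℕ) (hd : 3 ≤ d) (V : Sph d → ℂ) (hV : Integrable V (sig d)) :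
    Tendsto (fun ξ : E d => ∫ x : Sph d, V x * ee (inner ℝ ξ (x : E d)) ∂(sig d))
      (cocompact (E d)) (𝓝 0) := by
  rw [Metric.tendsto_nhds]
  intro ε hε
  obtain ⟨g, -, hg1, hg2, hg3⟩ :=
    hV.exists_hasCompactSupport_integral_sub_le (ε := ε / 2) (by positivity)
  have h1 := rl_sphere_cont d hd ⟨g, hg2⟩
  filter_upwards [Metric.tendsto_nhds.mp h1 (ε / 2) (by positivity)] with ξ hξ
  rw [dist_zero_right] at hξ ⊢
  have hc : Continuous fun x : Sph d => ee (inner ℝ ξ (x : E d)) := (chS ξ).continuous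
  have hI : ∀ f : Sph d → ℂ, Integrable f (sig d) →
      Integrable (fun x : Sph d => f x * ee (inner ℝ ξ (x : E d))) (sig d) := fun f hf =>
    hf.mul_bdd (c := 1) hc.aestronglyMeasurable
      (Eventually.of_forall fun x => (rl_norm_ee _).le)
  have e : ∫ x : Sph d, V x * ee (inner ℝ ξ (x : E d)) ∂(sig d) =
      ∫ x : Sph d, (V x - g x) * ee (inner ℝ ξ (x : E d)) ∂(sig d) +
      ∫ x : Sph d, g x * ee (inner ℝ ξ (x : E d)) ∂(sig d) := by
    rw [← integral_add (hI (fun x => V x - g x) (hV.sub hg3)) (hI _ hg3)]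
    refine integral_congr_ae (Eventually.of_forall fun x => ?_)
    show V x * _ = (V x - g x) * _ + g x * _
    ring
  rw [e]
  have h2 : ‖∫ x : Sph d, (V x - g x) * ee (inner ℝ ξ (x : E d)) ∂(sig d)‖ ≤ ε / 2 := by
    refine (norm_integral_le_integral_norm _).trans (le_trans (le_of_eq ?_) hg1)
    refine integral_congr_ae (Eventually.of_forall fun x => ?_)
    show ‖(V x - g x) * ee (inner ℝ ξ (x : E d))‖ = ‖V x - g x‖
    rw [norm_mul, rl_norm_ee, mul_one]
  calc _ ≤ _ := norm_add_le _ _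
    _ < ε / 2 + ε / 2 := add_lt_add_of_le_of_lt h2 hξ
    _ = ε := by ring

end SPH
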