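import Pool.Agent.SPH.End
import Pool.Agent.SPH.RemA
import Pool.Agent.SPH.Cnt
import Pool.Agent.SPH.Gh
import Pool.Agent.SPH.PiY
import Pool.Agent.SPH.RL
import Pool.Agent.SPH.Small
import Pool.Agent.SPH.Freq

/-!
Multi-set removal (assembly of section 2), from the two equidistribution statements and the
control by the Fourier norm.
-/

open MeasureTheory Set Metric Filter
open scoped ENNReal NNReal Topology

universe u

noncomputable section
namespace SPH


theorem H31.continuous_beta {d : ℕ} {A : Type*} [AddCommGroup A] (w : A →+ E d) :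
    Continuous (beta (d := d) w) :=
  continuous_id.prodMk ((continuous_bmap w).comp continuous_subtype_val)

/-- multi-set removal property of a finite family of points -/
def MultiRemoval {d : ℕ} {ι : Type u} (v : ι → Sph d) : Prop :=
  ∀ η : ℝ, 0 < η → ∃ ε : ℝ, 0 < ε ∧ ∀ S : ι → Set (Sph d), (∀ i, MeasurableSet (S i)) →
      mu d {T | ∀ i, T • v i ∈ S i} ≤ ENNReal.ofReal ε →
      ∃ D : ι → Set (Sph d), (∀ i, MeasurableSet (D i)) ∧ (∀ i, D i ⊆ S i) ∧
        (∀ i, sig d (D i) ≤ ENNReal.ofReal η) ∧ ∀ T : OG d, ¬ ∀ i, T • v i ∈ S i \ D i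

/-- control of the multilinear form by the Fourier norm, at every vertex -/
def Controlled {d : ℕ} {ι : Type u} [Fintype ι] [DecidableEq ι] (v : ι → Sph d) : Prop :=
  ∀ i0 : ι, ∀ κ : ℝ, 0 < κ → ∃ ε : ℝ, 0 < ε ∧ ∀ (g : Sph d → ℝ) (f : ι → Sph d → ℝ),
      Measurable g → (∀ x, |g x| ≤ 1) → (∀ i, Measurable (f i)) → (∀ i x, |f i x| ≤ 1) →
      (∀ ξ : E d, ‖∫ x : Sph d, ((g x : ℝ) : ℂ) * ee (-(inner ℝ ξ (x : E d))) ∂(sig d)‖ ≤ ε) →
      |∫ T : OG d, g (T • v i0) * ∏ i ∈ Finset.univ.erase i0, f i (T • v i) ∂(mu d)| ≤ κ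

/-- Multi-set removal from equidistribution and the control by the Fourier norm. -/
theorem removal_multi_of {d : ℕ} (hd : 3 ≤ d) {ι : Type u} [Fintype ι] [DecidableEq ι] [Nonempty ι]
    (v : ι → Sph d) (hU : Controlled v)
    (hEqX : ∀ (A : AddSubgroup (ℕ → E d)) [Countable A] (w : ℕ → A →+ E d) (U : Ultrafilter ℕ),
      (∀ a : A, a ≠ 0 → Tendsto (fun n => ‖w n a‖) U atTop) →
      (∀ a : A, a ≠ 0 → ∃ χ : Gh A, χ.1 a ≠ 1) → ∀ φ : C(XX d A, ℂ),
      Tendsto (fun n => ∫ x : Sph d, φ (beta (w n) x) ∂(sig d)) U (𝓝 (∫ p, φ p ∂(muX d A))))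
    (hEqY : ∀ (A : AddSubgroup (ℕ → E d)) [Countable A] (w : ℕ → A →+ E d) (U : Ultrafilter ℕ),
      (∀ a : A, a ≠ 0 → Tendsto (fun n => ‖w n a‖) U atTop) →
      (∀ a : A, a ≠ 0 → ∃ χ : Gh A, χ.1 a ≠ 1) → ∀ (J : Type u) [Fintype J] (vJ : J → Sph d),
      LinearIndependent ℝ (fun j => (vJ j : E d)) → (∀ j, ∃ i, vJ j = v i) →
      ∀ φ : C(YY d A J, ℂ),
      Tendsto (fun n => ∫ T : OG d, φ (eta (w n) vJ T) ∂(mu d)) U (𝓝 (∫ y, φ y ∂(muY d A J)))) :
    MultiRemoval v := by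
  intro η hη
  by_contra hcon
  push Not at hcon
  have hcon' : ∀ n : ℕ, ∃ S : ι → Set (Sph d), (∀ i, MeasurableSet (S i)) ∧
      mu d {T | ∀ i, T • v i ∈ S i} ≤ ENNReal.ofReal (1 / ((n : ℝ) + 1)) ∧
      ∀ D : ι → Set (Sph d), (∀ i, MeasurableSet (D i)) → (∀ i, D i ⊆ S i) →
        (∀ i, sig d (D i) ≤ ENNReal.ofReal η) → ∃ T : OG d, ∀ i, T • v i ∈ S i \ D i := by
    intro n
    obtain ⟨S, h1, h2, h3⟩ := hcon (1 / ((n : ℝ) + 1)) (by positivity)
    exact ⟨S, h1, h2, h3⟩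
  choose S hSm hSmu hSbad using hcon'
  let U : Ultrafilter ℕ := hyperfilter ℕ
  have hUle : (U : Filter ℕ) ≤ atTop := Nat.hyperfilter_le_atTop
  obtain ⟨J, hJ, vJ, l, hli, hvJ, hvl⟩ := H31.exists_basis_among v
  let f : ι → ℕ → Sph d → ℝ := fun i n => (S n i).indicator (fun _ => (1 : ℝ))
  have hfm : ∀ i n, Measurable (f i n) := fun i n => measurable_const.indicator (hSm n i)
  have hf0 : ∀ i n x, 0 ≤ f i n x := fun i n x => Set.indicator_nonneg (fun _ _ => zero_le_one) x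
  have hf1 : ∀ i n x, f i n x ≤ 1 := fun i n x =>
    Set.indicator_le_self' (fun _ _ => zero_le_one) x
  have hfn : ∀ i n x, ‖f i n x‖ ≤ 1 := by
    intro i n x
    rw [Real.norm_eq_abs, abs_of_nonneg (hf0 i n x)]
    exact hf1 i n x
  obtain ⟨A, hAc, hAinf, hAl, hAw⟩ := exists_freq hd U f hfm hfn
    (Finset.univ.image fun p : ι × J => l p.1 p.2)
  have : Countable A := hAc
  -- the maps `m i j : A → A`
  let m : ι → J → A →+ A := fun i j =>
    { toFun := fun a => ⟨l i j • (a : ℕ → E d), hAl (l i j)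
        (Finset.mem_image_of_mem (fun p : ι × J => l p.1 p.2) (Finset.mem_univ (i, j))) a a.2⟩
      map_zero' := by
        apply Subtype.ext
        show l i j • ((0 : A) : ℕ → E d) = 0
        simp
      map_add' := by
        intro a b
        apply Subtype.ext
        show l i j • (((a + b : A)) : ℕ → E d) = l i j • (a : ℕ → E d) + l i j • (b : ℕ → E d)
        rw [AddSubgroup.coe_add, smul_add] }
  let w : ℕ → A →+ E d := fun n =>
    { toFun := fun a => (a : ℕ → E d) n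
      map_zero' := rfl
      map_add' := fun a b => rfl }
  have hw : ∀ n (a : A), w n a = (a : ℕ → E d) n := fun n a => rfl
  have hm : ∀ i n j a, w n (m i j a) = l i j • w n a := fun i n j a => rfl
  have hinf : ∀ a : A, a ≠ 0 → Tendsto (fun n => ‖w n a‖) U atTop := by
    intro a ha
    exact hAinf a a.2 (fun h => ha (Subtype.ext h))
  have hsep : ∀ a : A, a ≠ 0 → ∃ χ : Gh A, χ.1 a ≠ 1 := fun a ha => exists_char_ne_one A a ha
  have hX := hEqX A w U hinf hsep
  have hXr : ∀ φ : C(XX d A, ℝ), Tendsto (fun n => ∫ x : Sph d, φ (beta (w n) x) ∂(sig d)) U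
      (𝓝 (∫ p, φ p ∂(muX d A))) :=
    H31.tendsto_real_of_complex (sig d) (muX d A) U (fun n => beta (w n)) hX
  have hY := hEqY A w U hinf hsep J vJ hli hvJ
  have hYr : ∀ φ : C(YY d A J, ℝ), Tendsto (fun n => ∫ T : OG d, φ (eta (w n) vJ T) ∂(mu d)) U
      (𝓝 (∫ y, φ y ∂(muY d A J))) :=
    H31.tendsto_real_of_complex (mu d) (muY d A J) U (fun n => eta (w n) vJ) hY
  have hpi : ∀ i n T, piY (v i) (m i) (eta (w n) vJ T) = beta (w n) (T • v i) := fun i n T =>
    piY_eta (w n) vJ (v i) (l i) (hvl i) (m i) (fun j a => hm i n j a) T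
  have hpm : ∀ i, Measure.map (piY (d := d) (v i) (m i)) (muY d A J) = muX d A := fun i =>
    map_piY_core w U vJ hX hY
      (fun x f hf => integral_orbit f hf.aestronglyMeasurable x)
      (fun n => continuous_bmap (w n)) (v i) (l i) (hvl i) (m i) (fun n j a => hm i n j a)
  -- the counting statement
  have hcnt : ∀ F : ι → XX d A → ℝ, (∀ i, Measurable (F i)) → (∀ i x, 0 ≤ F i x) →
      (∀ i x, F i x ≤ 1) →
      (∀ i, ∀ φ : C(XX d A, ℝ), Tendsto (fun n => ∫ x, (S n i).indicator (fun _ => (1 : ℝ)) x *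
        φ (beta (w n) x) ∂(sig d)) U (𝓝 (∫ x, F i x * φ x ∂(muX d A)))) →
      ∫ y, ∏ i, F i (piY (v i) (m i) y) ∂(muY d A J) = 0 := by
    intro F hF hF0 hF1 hFt
    have h1 := counting v hU w U vJ m hYr hpi hpm f hfm hf0 hf1 F hF hF0 hF1 (by
      intro i φ ε hφ
      refine eventually_small_of U (f i) (hfm i) (hf0 i) (hf1 i) A
        (fun V hV => rl_sphere d hd V hV) ?_ w hw hX (F i) (hF i) (hF0 i) (hF1 i) (hFt i) φ ε hφ
      intro w0
      obtain ⟨w', wb, e1, e2, e3⟩ := hAw w0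
      refine ⟨w', wb, e1, e2, ?_⟩
      rcases e3 with e3 | ⟨e3, e4⟩
      · exact Or.inl e3
      · exact Or.inr ⟨e3, e4 i⟩)
    have h2 : Tendsto (fun n => ∫ T : OG d, ∏ i, f i n (T • v i) ∂(mu d)) U (𝓝 0) := by
      have h3 : Tendsto (fun n : ℕ => 1 / ((n : ℝ) + 1)) U (𝓝 0) :=
        tendsto_one_div_add_atTop_nhds_zero_nat.mono_left hUle
      refine squeeze_zero ?_ ?_ h3
      · intro n
        exact integral_nonneg fun T => Finset.prod_nonneg fun i _ => hf0 i n _
      · intro n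
        have h4 : ∫ T : OG d, ∏ i, f i n (T • v i) ∂(mu d) =
            (mu d {T | ∀ i, T • v i ∈ S n i}).toReal := H31.integral_prod_indicator v (S n) (hSm n)
        rw [h4]
        have h5 := ENNReal.toReal_mono ENNReal.ofReal_ne_top (hSmu n)
        rwa [ENNReal.toReal_ofReal (by positivity)] at h5
    exact tendsto_nhds_unique h1 h2
  have i1 : (muY d A J).IsMulRightInvariant := muY_right
  have i2 : IsProbabilityMeasure (muY d A J) := by unfold muY; infer_instance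
  have i3 : (muY d A J).IsOpenPosMeasure := by unfold muY; infer_instance
  have i4 : IsProbabilityMeasure (muX d A) := by unfold muX; infer_instance
  have hev2 : ∀ᶠ n in (U : Filter ℕ), ∃ D : ι → Set (Sph d), (∀ i, MeasurableSet (D i)) ∧
      (∀ i, D i ⊆ S n i) ∧ (∀ i, sig d (D i) ≤ ENNReal.ofReal η) ∧
      ∀ T : OG d, ∃ i, T • v i ∉ S n i \ D i :=
    removal_end (muY d A J) (muX d A) (fun i => aY (m i)) (fun i => H31.continuous_aY (m i))
      (fun i x => H31.aY_one (m i) x)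
      (fun i g => ⟨((H31.continuous_aY (m i)).comp (Continuous.prodMk_right g)).measurable,
        map_aY (m i) g⟩)
      (fun i => piY (v i) (m i)) (fun i => H31.continuous_piY (v i) (m i))
      (fun i g y => H31.piY_mul (v i) (m i) g y)
      (sig d) U (fun n => beta (w n)) (fun n => (H31.continuous_beta (w n)).measurable) hXr
      (fun i T => T • v i) (fun n => eta (w n) vJ) (fun n i T => hpi i n T) S hSm hcnt η hη
  obtain ⟨n, D, hD1, hD2, hD3, hD4⟩ := hev2.exists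
  obtain ⟨T, hT⟩ := hSbad n D hD1 hD2 hD3
  obtain ⟨i, hi⟩ := hD4 T
  exact hi (hT i)

end SPH
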