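import Pool.Agent.SPH.FinDefs
import Pool.Agent.SPH.Lat
import Pool.Agent.SPH.RemGen

/-! Project SPH (MP_f7e9f1_co): from the multi-set removal statement to the removal property of
configurations contained, up to signs, in the family. -/

open MeasureTheory Set Metric Filter
open scoped ENNReal NNReal Topology

universe u

noncomputable section
namespace SPH

theorem split_comp {d : ℕ} {ι κ : Type*} [Fintype κ] (v : ι → Sph d) (hs : Split v) (a : κ → ι)
    (ha : Function.Injective a) : Split (fun k => v (a k)) := by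
  classical
  intro k0
  obtain ⟨A, h0, h1, h2, h3⟩ := hs (a k0)
  have hsub1 : (fun k => ((v (a k) : Sph d) : E d)) '' ((Finset.univ.filter fun k => a k ∈ A : Finset κ) : Set κ) ⊆
      (fun i => (v i : E d)) '' (A : Set ι) := by
    rintro x ⟨k, hk, rfl⟩
    have hk' : a k ∈ A := by simpa using hk
    exact ⟨a k, hk', rfl⟩
  have hsub2 : (fun k => ((v (a k) : Sph d) : E d)) '' {k | k ∉ (Finset.univ.filter fun k => a k ∈ A : Finset κ) ∧ k ≠ k0} ⊆
      (fun i => (v i : E d)) '' {i | i ∉ A ∧ i ≠ a k0} := by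
    rintro x ⟨k, hk, rfl⟩
    refine ⟨a k, ⟨?_, fun h => hk.2 (ha h)⟩, rfl⟩
    intro hA
    exact hk.1 (by simpa using hA)
  refine ⟨Finset.univ.filter fun k => a k ∈ A, by simpa using h0, ?_, ?_, ?_⟩
  · intro h
    exact h1 (Submodule.span_mono hsub1 h)
  · intro h
    exact h2 (Submodule.span_mono hsub2 h)
  · exact (Nat.add_le_add_right (Submodule.finrank_mono (Submodule.span_mono (R := ℝ) hsub1)) 2).trans h3

/-- From the multi-set removal property of all subfamilies to the removal property of the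
configurations contained in the family up to signs. -/
theorem hasRemoval_of_multi {d : ℕ} {ι : Type u} (v : ι → Sph d)
    (hrem : ∀ (κ : Type u) [Fintype κ] [Nonempty κ] (a : κ → ι), Function.Injective a →
      MultiRemoval (fun k => v (a k)))
    (P : Finset (Sph d)) (hP : P.Nonempty) (hPv : ∀ p ∈ P, ∃ i, p = v i ∨ p = -(v i)) :
    HasRemoval P := by
  classical
  refine hasRemoval_of_eps P hP fun η hη => ?_
  obtain ⟨p0, hp0⟩ := hP
  have hne : Nonempty ι := ⟨(hPv p0 hp0).choose⟩
  obtain ⟨N, hN⟩ := exists_act_eq (LinearIsometryEquiv.neg ℝ : E d ≃ₗᵢ[ℝ] E d).toLinearIsometry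
  have hN' : ∀ x : Sph d, N • x = -x := by
    intro x
    apply Subtype.ext
    rw [coe_smul_sph, hN]
    rfl
  have hg : ∀ p ∈ P, ∃ i : ι, ∃ g : OG d, ∀ T : OG d, T • p = g • (T • v i) := by
    intro p hp
    obtain ⟨i, hi | hi⟩ := hPv p hp
    · exact ⟨i, 1, fun T => by rw [one_smul, hi]⟩
    · exact ⟨i, N, fun T => by rw [hN', hi, smul_neg_sph]⟩
  choose! c g hcg using hg
  let κ : Type _ := {i : ι // i ∈ P.image c}
  let v' : κ → Sph d := fun k => v k.1
  have hκ : Nonempty κ := ⟨⟨c p0, Finset.mem_image_of_mem c hp0⟩⟩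
  have hcard : (0 : ℝ) < P.card := by
    exact_mod_cast Finset.card_pos.mpr ⟨p0, hp0⟩
  obtain ⟨ε, hε, hrem⟩ := hrem κ (fun k : κ => k.1) Subtype.val_injective (η / P.card)
    (div_pos hη hcard)
  refine ⟨ε, hε, fun A hA hdens => ?_⟩
  let S : κ → Set (Sph d) := fun k => {x | ∀ p ∈ P, c p = k.1 → g p • x ∈ A}
  have hSm : ∀ k, MeasurableSet (S k) := by
    intro k
    have e1 : S k = ⋂ p ∈ P, ⋂ _ : c p = k.1, (fun x : Sph d => g p • x) ⁻¹' A := by
      ext x
      simp [S]
    rw [e1]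
    refine Finset.measurableSet_biInter _ fun p _ => MeasurableSet.iInter fun _ => ?_
    have hc : Continuous fun x : Sph d => g p • x := continuous_const_smul (g p)
    exact hc.measurable hA
  have hset : {T : OG d | ∀ k, T • v' k ∈ S k} = {T : OG d | ∀ p ∈ P, T • p ∈ A} := by
    ext T
    constructor
    · intro h p hp
      have h1 := h ⟨c p, Finset.mem_image_of_mem c hp⟩ p hp rfl
      rw [hcg p hp T]
      exact h1
    · intro h k p hp hpk
      have h1 := h p hp
      rw [hcg p hp T, hpk] at h1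
      exact h1
  have hmu : mu d {T | ∀ k, T • v' k ∈ S k} ≤ ENNReal.ofReal ε := by
    rw [hset]
    rw [density_eq P hA] at hdens
    rw [← ENNReal.ofReal_toReal (measure_ne_top (mu d) {T : OG d | ∀ p ∈ P, T • p ∈ A})]
    exact ENNReal.ofReal_le_ofReal hdens
  obtain ⟨D, hDm, hDS, hDs, hDav⟩ := hrem S hSm hmu
  let D2 : ι → Set (Sph d) := fun i => if h : i ∈ P.image c then D ⟨i, h⟩ else ∅
  have hD2 : ∀ k : κ, D2 k.1 = D k := by
    intro k
    show (if h : k.1 ∈ P.image c then D ⟨k.1, h⟩ else ∅) = D k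
    rw [dif_pos k.2]
  have hD2m : ∀ i, MeasurableSet (D2 i) := by
    intro i
    by_cases h : i ∈ P.image c
    · have := hD2 ⟨i, h⟩
      rw [this]
      exact hDm _
    · show MeasurableSet (if h : i ∈ P.image c then D ⟨i, h⟩ else ∅)
      rw [dif_neg h]
      exact MeasurableSet.empty
  have hD2s : ∀ p ∈ P, sig d (D2 (c p)) ≤ ENNReal.ofReal (η / P.card) := by
    intro p hp
    rw [hD2 ⟨c p, Finset.mem_image_of_mem c hp⟩]
    exact hDs _
  have hcont : ∀ h : OG d, Continuous fun x : Sph d => h • x := fun h =>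
    continuous_const_smul h
  have hpre : ∀ p, MeasurableSet ((fun x : Sph d => (g p)⁻¹ • x) ⁻¹' D2 (c p)) := fun p =>
    (hcont _).measurable (hD2m _)
  refine ⟨A ∩ ⋃ p ∈ P, (fun x : Sph d => (g p)⁻¹ • x) ⁻¹' D2 (c p), inter_subset_left,
    hA.inter (Finset.measurableSet_biUnion _ fun p _ => hpre p), ?_, ?_⟩
  · calc sig d (A ∩ ⋃ p ∈ P, (fun x : Sph d => (g p)⁻¹ • x) ⁻¹' D2 (c p))
        ≤ sig d (⋃ p ∈ P, (fun x : Sph d => (g p)⁻¹ • x) ⁻¹' D2 (c p)) :=
          measure_mono inter_subset_right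
      _ ≤ ∑ p ∈ P, sig d ((fun x : Sph d => (g p)⁻¹ • x) ⁻¹' D2 (c p)) :=
          measure_biUnion_finset_le _ _
      _ = ∑ p ∈ P, sig d (D2 (c p)) := by
          refine Finset.sum_congr rfl fun p _ => ?_
          exact (measurePreserving_sig ((g p)⁻¹)).measure_preimage (hD2m _).nullMeasurableSet
      _ ≤ ∑ p ∈ P, ENNReal.ofReal (η / P.card) := Finset.sum_le_sum fun p hp => hD2s p hp
      _ = ENNReal.ofReal η := by
          rw [Finset.sum_const, nsmul_eq_mul, ← ENNReal.ofReal_natCast,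
            ← ENNReal.ofReal_mul (Nat.cast_nonneg _), mul_div_cancel₀ _ hcard.ne']
  · intro T hT
    refine hDav T fun k => ?_
    obtain ⟨p, hp, hpk⟩ := Finset.mem_image.mp k.2
    refine ⟨fun q hq hqk => ?_, fun hD => ?_⟩
    · have h1 := (hT q hq).1
      rw [hcg q hq T, hqk] at h1
      exact h1
    · have h1 := hT p hp
      refine h1.2 ⟨h1.1, ?_⟩
      refine mem_biUnion (x := p) hp ?_
      show (g p)⁻¹ • (T • p) ∈ D2 (c p)
      rw [hcg p hp T, inv_smul_smul, hpk, hD2 k]
      exact hD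

end SPH
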