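import Pool.Agent.SPH.Basic

/-! Project SPH (MP_f7e9f1_co): null sets for generic position of random points of the sphere. -/

open MeasureTheory Set Metric Filter
open scoped ENNReal NNReal Topology Pointwise

noncomputable section
namespace SPH

/-- a proper subspace has measure zero in the sphere -/
theorem sig_subspace {d : ℕ} (W : Submodule ℝ (E d)) (hW : W ≠ ⊤) :
    sig d {x : Sph d | (x : E d) ∈ W} = 0 := by
  have hcl : IsClosed (W : Set (E d)) := W.closed_of_finiteDimensional
  have hm : MeasurableSet {x : Sph d | (x : E d) ∈ W} :=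
    (hcl.preimage continuous_subtype_val).measurableSet
  rw [sig, Measure.smul_apply, Measure.toSphere_apply' _ hm, smul_eq_mul]
  have h0 : (volume : Measure (E d)) (Ioo (0 : ℝ) 1 • ((fun x : Sph d => (x : E d)) ''
      {x : Sph d | (x : E d) ∈ W})) = 0 := by
    refine measure_mono_null ?_ (Measure.addHaar_submodule volume W hW)
    rintro y ⟨r, _, z, ⟨x, hx, rfl⟩, rfl⟩
    exact W.smul_mem r hx
  rw [h0]
  simp

/-- projection of a closed set along a Euclidean factor -/
theorem meas_exists {X : Type*} [TopologicalSpace X] [MeasurableSpace X] [BorelSpace X]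
    {ι : Type*} [Fintype ι] (C : Set (X × (ι → ℝ))) (hC : IsClosed C) :
    MeasurableSet {x : X | ∃ c, (x, c) ∈ C} := by
  have h : {x : X | ∃ c, (x, c) ∈ C} =
      ⋃ n : ℕ, Prod.fst '' {p : X × (closedBall (0 : ι → ℝ) n) | (p.1, (p.2 : ι → ℝ)) ∈ C} := by
    ext x
    simp only [Set.mem_ofPred_eq, mem_iUnion, mem_image, Prod.exists, exists_and_right,
      exists_eq_right]
    constructor
    · rintro ⟨c, hc⟩
      obtain ⟨n, hn⟩ := exists_nat_ge ‖c‖
      exact ⟨n, ⟨c, by simpa using hn⟩, hc⟩
    · rintro ⟨n, c, hc⟩
      exact ⟨c, hc⟩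
  rw [h]
  refine MeasurableSet.iUnion fun n => ?_
  have : CompactSpace (closedBall (0 : ι → ℝ) n) :=
    isCompact_iff_compactSpace.mp (isCompact_closedBall _ _)
  refine (isClosedMap_fst_of_compactSpace _ ?_).measurableSet
  exact hC.preimage (continuous_fst.prodMk (continuous_subtype_val.comp continuous_snd))

/-- a measurable set whose sections in one coordinate are null is null -/
theorem pi_null_of_sections {ι : Type*} [Fintype ι] [DecidableEq ι] {X : Type*}
    [MeasurableSpace X] (μ : Measure X) [IsProbabilityMeasure μ] (i0 : ι) (N : Set (ι → X))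
    (hN : MeasurableSet N) (h : ∀ x, μ {v | Function.update x i0 v ∈ N} = 0) :
    Measure.pi (fun _ : ι => μ) N = 0 := by
  have hne : Nonempty X := nonempty_of_isProbabilityMeasure μ
  obtain ⟨x0⟩ := hne
  have hf : Measurable (N.indicator (1 : (ι → X) → ℝ≥0∞)) := measurable_one.indicator hN
  have e1 := lintegral_eq_lmarginal_univ (μ := fun _ : ι => μ)
    (f := N.indicator (1 : (ι → X) → ℝ≥0∞)) (fun _ => x0)
  rw [lintegral_indicator_one hN, lmarginal_erase' _ hf (Finset.mem_univ i0)] at e1
  have e2 : (fun x : ι → X => ∫⁻ v, (N.indicator (1 : (ι → X) → ℝ≥0∞))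
      (Function.update x i0 v) ∂μ) = fun _ => 0 := by
    funext x
    have hs : MeasurableSet {v : X | Function.update x i0 v ∈ N} :=
      (measurable_update x (a := i0)) hN
    have e3 : (fun v => (N.indicator (1 : (ι → X) → ℝ≥0∞)) (Function.update x i0 v)) =
        {v : X | Function.update x i0 v ∈ N}.indicator (1 : X → ℝ≥0∞) := rfl
    rw [e3, lintegral_indicator_one hs, h x]
  rw [e2] at e1
  rw [e1]
  simp [lmarginal]

variable {d : ℕ} {ι : Type*} [Fintype ι] [DecidableEq ι]

omit [Fintype ι] [DecidableEq ι] in
theorem isClosed_comb (i0 : ι) (A : Finset ι) :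
    Continuous fun p : (ι → Sph d) × (ι → ℝ) =>
      ∑ i ∈ A, p.2 i • (p.1 i : E d) - (p.1 i0 : E d) := by
  have h1 : ∀ i, Continuous fun p : (ι → Sph d) × (ι → ℝ) => p.2 i := fun i =>
    (continuous_apply i).comp continuous_snd
  have h2 : ∀ i, Continuous fun p : (ι → Sph d) × (ι → ℝ) => (p.1 i : E d) := fun i =>
    continuous_subtype_val.comp ((continuous_apply i).comp continuous_fst)
  exact (continuous_finsetSum _ fun i _ => (h1 i).smul (h2 i)).sub (h2 i0)

/-- a random point avoids the span of at most d other points -/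
theorem ae_notMem_span (i0 : ι) (C : Finset ι) (hi : i0 ∉ C) (hC : C.card ≤ d) :
    ∀ᵐ x ∂(Measure.pi fun _ : ι => sig d),
      (x i0 : E d) ∉ Submodule.span ℝ ((fun i => (x i : E d)) '' (C : Set ι)) := by
  rw [ae_iff]
  have hset : {x : ι → Sph d | ¬ (x i0 : E d) ∉
      Submodule.span ℝ ((fun i => (x i : E d)) '' (C : Set ι))} =
      {x | ∃ c, (x, c) ∈ {p : (ι → Sph d) × (ι → ℝ) |
        ∑ i ∈ C, p.2 i • (p.1 i : E d) - (p.1 i0 : E d) = 0}} := by
    ext x
    simp only [not_not, Set.mem_ofPred_eq, sub_eq_zero]
    exact Submodule.mem_span_image_finset_iff_exists_fun' ℝ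
  have hmeas : MeasurableSet {x : ι → Sph d | ¬ (x i0 : E d) ∉
      Submodule.span ℝ ((fun i => (x i : E d)) '' (C : Set ι))} := by
    rw [hset]
    exact meas_exists _ (isClosed_eq (isClosed_comb i0 C) continuous_const)
  refine pi_null_of_sections (sig d) i0 _ hmeas fun x => ?_
  have hcard : Module.finrank ℝ (Submodule.span ℝ ((fun i => (x i : E d)) '' (C : Set ι))) ≤ d := by
    rw [← Finset.coe_image]
    exact (finrank_span_finset_le_card _).trans (Finset.card_image_le.trans hC)
  have hne : Submodule.span ℝ ((fun i => (x i : E d)) '' (C : Set ι)) ≠ ⊤ := by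
    intro h
    rw [h, finrank_top] at hcard
    simp [E] at hcard
  refine measure_mono_null (fun v hv => ?_) (sig_subspace _ hne)
  simp only [not_not, Set.mem_ofPred_eq, Function.update_self] at hv
  have him : (fun i => ((Function.update x i0 v) i : E d)) '' (C : Set ι) =
      (fun i => (x i : E d)) '' (C : Set ι) := by
    refine image_congr fun i hic => ?_
    rw [Function.update_of_ne]
    rintro rfl
    exact hi hic
  rw [him] at hv
  exact hv

/-- general position: no point lies in the span of at most d others -/
def GP (x : ι → Sph d) : Prop :=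
  ∀ (i0 : ι) (C : Finset ι), i0 ∉ C → C.card ≤ d →
    (x i0 : E d) ∉ Submodule.span ℝ ((fun i => (x i : E d)) '' (C : Set ι))

theorem ae_gp : ∀ᵐ x ∂(Measure.pi fun _ : ι => sig d), GP x := by
  unfold GP
  rw [ae_all_iff]
  intro i0
  rw [ae_all_iff]
  intro C
  by_cases hi : i0 ∉ C
  · by_cases hC : C.card ≤ d
    · filter_upwards [ae_notMem_span i0 C hi hC] with x hx _ _
      exact hx
    · exact Eventually.of_forall fun x _ h => absurd h hC
  · exact Eventually.of_forall fun x h => absurd h hi

omit [Fintype ι] in
theorem GP.linearIndepOn {x : ι → Sph d} (h : GP x) (B : Finset ι) (hB : B.card ≤ d + 1) :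
    LinearIndepOn ℝ (fun i => (x i : E d)) (B : Set ι) := by
  induction B using Finset.induction_on with
  | empty => simp
  | insert a s ha ih =>
    rw [Finset.card_insert_of_notMem ha] at hB
    rw [Finset.coe_insert, linearIndepOn_insert (by simpa using ha)]
    exact ⟨ih (by omega), h a s ha (by omega)⟩

omit [Fintype ι] [DecidableEq ι] in
theorem finrank_span_of_indep {x : ι → Sph d} {B : Finset ι}
    (h : LinearIndepOn ℝ (fun i => (x i : E d)) (B : Set ι)) :
    Module.finrank ℝ (Submodule.span ℝ ((fun i => (x i : E d)) '' (B : Set ι))) = B.card := by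
  have h1 := finrank_span_eq_card h.linearIndependent
  rw [image_eq_range]
  rw [h1]
  simp

/-- a random point is not congruent, modulo the span of the points of A, to a vector orthogonal to
the points of B, when A has fewer points than B -/
theorem ae_comb (i0 : ι) (A B : Finset ι) (hiA : i0 ∉ A) (hiB : i0 ∉ B) (hAB : A.card < B.card) :
    ∀ᵐ x ∂(Measure.pi fun _ : ι => sig d),
      LinearIndepOn ℝ (fun i => (x i : E d)) (B : Set ι) →
      ∀ w ∈ Submodule.span ℝ ((fun i => (x i : E d)) '' (A : Set ι)),
        ∃ j ∈ B, inner ℝ (w - (x i0 : E d)) (x j : E d) ≠ 0 := by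
  set N : Set (ι → Sph d) := {x | LinearIndepOn ℝ (fun i => (x i : E d)) (B : Set ι)} ∩
      {x | ∃ c, (x, c) ∈ {p : (ι → Sph d) × (ι → ℝ) | ∀ j ∈ B,
        inner ℝ (∑ i ∈ A, p.2 i • (p.1 i : E d) - (p.1 i0 : E d)) (p.1 j : E d) = 0}} with hN
  have hmeas : MeasurableSet N := by
    refine MeasurableSet.inter ?_ ?_
    · have hc : Continuous fun x : ι → Sph d => fun j : (B : Set ι) => (x j : E d) :=
        continuous_pi fun j => continuous_subtype_val.comp (continuous_apply _)
      have ho : IsOpen ((fun x : ι → Sph d => fun j : (B : Set ι) => (x j : E d)) ⁻¹'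
          {f : ↥(B : Set ι) → E d | LinearIndependent ℝ f}) :=
        IsOpen.preimage hc isOpen_setOfPred_linearIndependent
      exact ho.measurableSet
    · refine meas_exists _ ?_
      have : {p : (ι → Sph d) × (ι → ℝ) | ∀ j ∈ B,
        inner ℝ (∑ i ∈ A, p.2 i • (p.1 i : E d) - (p.1 i0 : E d)) (p.1 j : E d) = 0} =
          ⋂ j ∈ B, {p : (ι → Sph d) × (ι → ℝ) |
            inner ℝ (∑ i ∈ A, p.2 i • (p.1 i : E d) - (p.1 i0 : E d)) (p.1 j : E d) = 0} := by
        ext p
        simp
      rw [this]
      refine isClosed_biInter fun j _ => isClosed_eq (Continuous.inner (isClosed_comb i0 A) ?_)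
        continuous_const
      exact continuous_subtype_val.comp ((continuous_apply j).comp continuous_fst)
  have hnull : Measure.pi (fun _ : ι => sig d) N = 0 := by
    refine pi_null_of_sections (sig d) i0 _ hmeas fun x => ?_
    have himB : ∀ v : Sph d, ∀ i ∈ B, Function.update x i0 v i = x i := by
      intro v i hi
      rw [Function.update_of_ne]
      rintro rfl
      exact hiB hi
    have himA : ∀ v : Sph d, ∀ i ∈ A, Function.update x i0 v i = x i := by
      intro v i hi
      rw [Function.update_of_ne]
      rintro rfl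
      exact hiA hi
    by_cases hB : LinearIndepOn ℝ (fun i => (x i : E d)) (B : Set ι)
    · set W : Submodule ℝ (E d) := Submodule.span ℝ ((fun i => (x i : E d)) '' (A : Set ι)) ⊔
        (Submodule.span ℝ ((fun i => (x i : E d)) '' (B : Set ι)))ᗮ with hW
      have hne : W ≠ ⊤ := by
        intro h
        have h1 : Module.finrank ℝ W = d + 1 := by
          rw [h, finrank_top]; simp [E]
        have h2 : Module.finrank ℝ W ≤ _ := Submodule.finrank_add_le_finrank_add_finrank
          (Submodule.span ℝ ((fun i => (x i : E d)) '' (A : Set ι)))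
          (Submodule.span ℝ ((fun i => (x i : E d)) '' (B : Set ι)))ᗮ
        have h3 := Submodule.finrank_add_finrank_orthogonal
          (Submodule.span ℝ ((fun i => (x i : E d)) '' (B : Set ι)))
        rw [finrank_span_of_indep hB] at h3
        have h4 : Module.finrank ℝ (E d) = d + 1 := by simp [E]
        have h5 : Module.finrank ℝ
            (Submodule.span ℝ ((fun i => (x i : E d)) '' (A : Set ι))) ≤ A.card := by
          rw [← Finset.coe_image]
          exact (finrank_span_finset_le_card _).trans Finset.card_image_le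
        omega
      refine measure_mono_null (fun v hv => ?_) (sig_subspace _ hne)
      obtain ⟨_, c, hc⟩ := hv
      simp only [Set.mem_ofPred_eq, Function.update_self] at hc
      set w : E d := ∑ i ∈ A, c i • (x i : E d) with hw
      have hwA : w ∈ Submodule.span ℝ ((fun i => (x i : E d)) '' (A : Set ι)) :=
        Submodule.sum_mem _ fun i hi => Submodule.smul_mem _ _
          (Submodule.subset_span ⟨i, hi, rfl⟩)
      have hsum : ∑ i ∈ A, c i • ((Function.update x i0 v) i : E d) = w := by
        refine Finset.sum_congr rfl fun i hi => ?_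
        rw [himA v i hi]
      have horth : w - (v : E d) ∈ (Submodule.span ℝ ((fun i => (x i : E d)) '' (B : Set ι)))ᗮ := by
        rw [Submodule.mem_orthogonal]
        intro u hu
        induction hu using Submodule.span_induction with
        | mem u hu =>
          obtain ⟨j, hj, rfl⟩ := hu
          have := hc j hj
          rw [hsum, himB v j hj] at this
          rw [real_inner_comm]
          exact this
        | zero => simp
        | add a b _ _ ha hb => rw [inner_add_left, ha, hb, add_zero]
        | smul r a _ ha => rw [real_inner_smul_left, ha, mul_zero]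
      have e : (v : E d) = w - (w - (v : E d)) := by abel
      show (v : E d) ∈ W
      rw [e]
      exact W.sub_mem (Submodule.mem_sup_left hwA) (Submodule.mem_sup_right horth)
    · refine measure_mono_null (fun v hv => ?_) (measure_empty (μ := sig d))
      refine hB ?_
      have h1 := hv.1
      simp only [Set.mem_ofPred_eq] at h1
      exact (linearIndepOn_congr fun i hi => by simp only [himB v i hi]).mp h1
  have hae : ∀ᵐ x ∂(Measure.pi fun _ : ι => sig d), x ∉ N := measure_eq_zero_iff_ae_notMem.mp hnull
  filter_upwards [hae] with x hx hB w hw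
  by_contra hcon
  push Not at hcon
  obtain ⟨c, hc⟩ := (Submodule.mem_span_image_finset_iff_exists_fun' ℝ).mp hw
  refine hx ⟨hB, c, fun j hj => ?_⟩
  show inner ℝ (∑ i ∈ A, c i • (x i : E d) - (x i0 : E d)) (x j : E d) = 0
  rw [hc]
  exact hcon j hj

end SPH
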