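import Pool.Agent.SPH.GenNull

/-! Project SPH (MP_f7e9f1_co): null sets for generic position, part 2 (the double step). -/

open MeasureTheory Set Metric Filter
open scoped ENNReal NNReal Topology Pointwise

noncomputable section
namespace SPH

/-- if no member of a family lies in the span of the others plus `K`, then the span of the family
meets `K` in zero only -/
theorem disj_of_notMem {d : ℕ} {ι : Type*} [DecidableEq ι] (K : Submodule ℝ (E d)) (x : ι → E d)
    (C : Finset ι)
    (h : ∀ c ∈ C, x c ∉ Submodule.span ℝ (x '' ((C.erase c : Finset ι) : Set ι)) ⊔ K) :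
    ∀ w ∈ Submodule.span ℝ (x '' (C : Set ι)), w ∈ K → w = 0 := by
  intro w hw hwK
  obtain ⟨f, hf⟩ := (Submodule.mem_span_image_finset_iff_exists_fun' ℝ).mp hw
  have hz : ∀ c ∈ C, f c = 0 := by
    intro c hc
    by_contra hne
    refine h c hc ?_
    have hsum : f c • x c + ∑ i ∈ C.erase c, f i • x i = w := by
      rw [← hf]
      exact Finset.add_sum_erase C (fun i => f i • x i) hc
    have hx : x c = -((f c)⁻¹ • (∑ i ∈ C.erase c, f i • x i)) + (f c)⁻¹ • w := by
      rw [← hsum, smul_add, smul_smul, inv_mul_cancel₀ hne, one_smul]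
      abel
    rw [hx]
    refine Submodule.add_mem _ (Submodule.mem_sup_left ?_) (Submodule.mem_sup_right ?_)
    · refine Submodule.neg_mem _ (Submodule.smul_mem _ _ (Submodule.sum_mem _ fun i hi =>
        Submodule.smul_mem _ _ (Submodule.subset_span ⟨i, ?_, rfl⟩)))
      exact_mod_cast hi
    · exact Submodule.smul_mem _ _ hwK
  rw [← hf]
  exact Finset.sum_eq_zero fun i hi => by rw [hz i hi, zero_smul]

/-- a measurable set almost all of whose sections in one coordinate are null is null -/
theorem pi_null_of_ae_sections {ι : Type*} [Fintype ι] [DecidableEq ι] {X : Type*}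
    [MeasurableSpace X] (μ : Measure X) [IsProbabilityMeasure μ] (i0 : ι) (N : Set (ι → X))
    (hN : MeasurableSet N)
    (h : ∀ᵐ x ∂(Measure.pi fun _ : ι => μ), μ {v | Function.update x i0 v ∈ N} = 0) :
    Measure.pi (fun _ : ι => μ) N = 0 := by
  have hne : Nonempty X := nonempty_of_isProbabilityMeasure μ
  obtain ⟨x0⟩ := hne
  set f : (ι → X) → ℝ≥0∞ := N.indicator (1 : (ι → X) → ℝ≥0∞) with hfdef
  have hf : Measurable f := measurable_one.indicator hN
  set g : (ι → X) → ℝ≥0∞ := fun x => ∫⁻ v, f (Function.update x i0 v) ∂μ with hgdef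
  have hg : Measurable g := by
    have := hf.lmarginal (fun _ : ι => μ) (s := {i0})
    rw [lmarginal_singleton] at this
    exact this
  have hgu : ∀ x v, g (Function.update x i0 v) = g x := by
    intro x v
    simp only [hgdef, Function.update_idem]
  have e1 := lintegral_eq_lmarginal_univ (μ := fun _ : ι => μ) (f := f) (fun _ => x0)
  rw [lmarginal_erase' _ hf (Finset.mem_univ i0)] at e1
  have e2 := lintegral_eq_lmarginal_univ (μ := fun _ : ι => μ) (f := g) (fun _ => x0)
  rw [lmarginal_erase' _ hg (Finset.mem_univ i0)] at e2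
  have e3 : (fun x : ι → X => ∫⁻ v, g (Function.update x i0 v) ∂μ) = g := by
    funext x
    simp only [hgu, lintegral_const, measure_univ, mul_one]
  rw [e3] at e2
  have e4 : ∫⁻ x, f x ∂(Measure.pi fun _ : ι => μ) = ∫⁻ x, g x ∂(Measure.pi fun _ : ι => μ) := by
    rw [e1, e2]
  rw [hfdef, lintegral_indicator_one hN] at e4
  rw [e4]
  have e5 : g =ᵐ[Measure.pi fun _ : ι => μ] 0 := by
    filter_upwards [h] with x hx
    have hs : MeasurableSet {v : X | Function.update x i0 v ∈ N} :=
      (measurable_update x (a := i0)) hN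
    have e6 : (fun v => f (Function.update x i0 v)) =
        {v : X | Function.update x i0 v ∈ N}.indicator (1 : X → ℝ≥0∞) := rfl
    show ∫⁻ v, f (Function.update x i0 v) ∂μ = 0
    rw [e6, lintegral_indicator_one hs, hx]
  rw [lintegral_congr_ae e5]
  simp

variable {d : ℕ} {ι : Type*} [Fintype ι] [DecidableEq ι]

/-- a random point avoids the span of `C`, plus the orthogonal complement of the span of `B`, plus
the part of the span of `B` which is orthogonal to `A`, when `C` has fewer points than `A` -/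
theorem ae_notMem_two (c : ι) (C A B : Finset ι) (hcC : c ∉ C) (hcA : c ∉ A) (hcB : c ∉ B)
    (hAB : Disjoint A B) (hCA : C.card < A.card) (hAB' : A.card ≤ B.card)
    (hB : B.card ≤ d + 1) :
    ∀ᵐ x ∂(Measure.pi fun _ : ι => sig d),
      (x c : E d) ∉ Submodule.span ℝ ((fun i => (x i : E d)) '' (C : Set ι)) ⊔
        (Submodule.span ℝ ((fun i => (x i : E d)) '' (B : Set ι)))ᗮ ⊔
        ((Submodule.span ℝ ((fun i => (x i : E d)) '' (A : Set ι)))ᗮ ⊓
          Submodule.span ℝ ((fun i => (x i : E d)) '' (B : Set ι))) := by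
  set N : Set (ι → Sph d) := {x | ∃ a, (x, a) ∈ {p : (ι → Sph d) × (ι ⊕ ι → ℝ) |
      (∀ j ∈ B, inner ℝ (∑ i ∈ C, p.2 (Sum.inl i) • (p.1 i : E d) +
        ∑ i ∈ B, p.2 (Sum.inr i) • (p.1 i : E d) - (p.1 c : E d)) (p.1 j : E d) = 0) ∧
      (∀ i ∈ A, inner ℝ (∑ j ∈ B, p.2 (Sum.inr j) • (p.1 j : E d)) (p.1 i : E d) = 0)}} with hN
  have hx : ∀ i, Continuous fun p : (ι → Sph d) × (ι ⊕ ι → ℝ) => (p.1 i : E d) := fun i =>
    continuous_subtype_val.comp ((continuous_apply i).comp continuous_fst)
  have ha : ∀ i, Continuous fun p : (ι → Sph d) × (ι ⊕ ι → ℝ) => p.2 i := fun i =>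
    (continuous_apply i).comp continuous_snd
  have hmeas : MeasurableSet N := by
    refine meas_exists _ ?_
    have : {p : (ι → Sph d) × (ι ⊕ ι → ℝ) |
      (∀ j ∈ B, inner ℝ (∑ i ∈ C, p.2 (Sum.inl i) • (p.1 i : E d) +
        ∑ i ∈ B, p.2 (Sum.inr i) • (p.1 i : E d) - (p.1 c : E d)) (p.1 j : E d) = 0) ∧
      (∀ i ∈ A, inner ℝ (∑ j ∈ B, p.2 (Sum.inr j) • (p.1 j : E d)) (p.1 i : E d) = 0)} =
        (⋂ j ∈ B, {p : (ι → Sph d) × (ι ⊕ ι → ℝ) |
          inner ℝ (∑ i ∈ C, p.2 (Sum.inl i) • (p.1 i : E d) +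
            ∑ i ∈ B, p.2 (Sum.inr i) • (p.1 i : E d) - (p.1 c : E d)) (p.1 j : E d) = 0}) ∩
        ⋂ i ∈ A, {p : (ι → Sph d) × (ι ⊕ ι → ℝ) |
          inner ℝ (∑ j ∈ B, p.2 (Sum.inr j) • (p.1 j : E d)) (p.1 i : E d) = 0} := by
      ext p
      simp
    rw [this]
    refine IsClosed.inter (isClosed_biInter fun j _ => isClosed_eq (Continuous.inner ?_ (hx j))
      continuous_const) (isClosed_biInter fun i _ => isClosed_eq (Continuous.inner ?_ (hx i))
      continuous_const)
    · exact ((continuous_finsetSum _ fun i _ => (ha _).smul (hx i)).add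
        (continuous_finsetSum _ fun i _ => (ha _).smul (hx i))).sub (hx c)
    · exact continuous_finsetSum _ fun i _ => (ha _).smul (hx i)
  -- the generic facts about `A` and `B`
  have hcomb : ∀ᵐ x ∂(Measure.pi fun _ : ι => sig d), ∀ i ∈ A,
      LinearIndepOn ℝ (fun i => (x i : E d)) (B : Set ι) →
      ∀ w ∈ Submodule.span ℝ ((fun i => (x i : E d)) '' ((A.erase i : Finset ι) : Set ι)),
        ∃ j ∈ B, inner ℝ (w - (x i : E d)) (x j : E d) ≠ 0 := by
    rw [ae_all_iff]
    intro i
    by_cases hi : i ∈ A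
    · have h1 : i ∉ B := fun h2 => (Finset.disjoint_left.mp hAB hi) h2
      have h2 : (A.erase i).card < B.card := by
        rw [Finset.card_erase_of_mem hi]
        have : 0 < A.card := Finset.card_pos.mpr ⟨i, hi⟩
        omega
      filter_upwards [ae_comb i (A.erase i) B (Finset.notMem_erase i A) h1 h2] with x hx _
      exact hx
    · exact Eventually.of_forall fun x h => absurd h hi
  have hnull : Measure.pi (fun _ : ι => sig d) N = 0 := by
    refine pi_null_of_ae_sections (sig d) c N hmeas ?_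
    filter_upwards [ae_gp (d := d) (ι := ι), hcomb] with x hgp hco
    have hup : ∀ (S : Finset ι), c ∉ S → ∀ v : Sph d, ∀ i ∈ S,
        Function.update x c v i = x i := by
      intro S hS v i hi
      rw [Function.update_of_ne]
      rintro rfl
      exact hS hi
    have hiB : LinearIndepOn ℝ (fun i => (x i : E d)) (B : Set ι) := hgp.linearIndepOn B hB
    have hiA : LinearIndepOn ℝ (fun i => (x i : E d)) (A : Set ι) :=
      hgp.linearIndepOn A (by omega)
    set SA := Submodule.span ℝ ((fun i => (x i : E d)) '' (A : Set ι)) with hSA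
    set SB := Submodule.span ℝ ((fun i => (x i : E d)) '' (B : Set ι)) with hSB
    set SC := Submodule.span ℝ ((fun i => (x i : E d)) '' (C : Set ι)) with hSC
    have horthB : ∀ u : E d, (∀ j ∈ B, inner ℝ u (x j : E d) = 0) → u ∈ SBᗮ := by
      intro u hu
      rw [Submodule.mem_orthogonal]
      intro w hw
      induction hw using Submodule.span_induction with
      | mem w hw =>
        obtain ⟨j, hj, rfl⟩ := hw
        rw [real_inner_comm]
        exact hu j hj
      | zero => simp
      | add a b _ _ ha hb => rw [inner_add_left, ha, hb, add_zero]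
      | smul r a _ ha => rw [real_inner_smul_left, ha, mul_zero]
    have hdisj : ∀ w ∈ SA, w ∈ SBᗮ → w = 0 := by
      refine disj_of_notMem SBᗮ (fun i => (x i : E d)) A fun i hi hmem => ?_
      obtain ⟨w, hw, u, hu, hwu⟩ := Submodule.mem_sup.mp hmem
      obtain ⟨j, hj, hne⟩ := hco i hi hiB w hw
      refine hne ?_
      have e : w - (x i : E d) = -u := by
        rw [← hwu]
        abel
      rw [e, inner_neg_left, real_inner_comm,
        (Submodule.mem_orthogonal _ _).mp hu (x j : E d) (Submodule.subset_span ⟨j, hj, rfl⟩),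
        neg_zero]
    have hD : Module.finrank ℝ (E d) = d + 1 := by simp [E]
    have hfA : Module.finrank ℝ SA = A.card := finrank_span_of_indep hiA
    have hfB : Module.finrank ℝ SB = B.card := finrank_span_of_indep hiB
    have hfC : Module.finrank ℝ SC ≤ C.card := by
      rw [hSC, ← Finset.coe_image]
      exact (finrank_span_finset_le_card _).trans Finset.card_image_le
    have hfBo := Submodule.finrank_add_finrank_orthogonal SB
    have hsup : Module.finrank ℝ (SA ⊔ SBᗮ : Submodule ℝ (E d)) +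
        Module.finrank ℝ (SA ⊓ SBᗮ : Submodule ℝ (E d)) =
        Module.finrank ℝ SA + Module.finrank ℝ SBᗮ :=
      Submodule.finrank_sup_add_finrank_inf_eq SA SBᗮ
    have hinf : SA ⊓ SBᗮ = ⊥ := by
      rw [eq_bot_iff]
      intro w hw
      exact hdisj w hw.1 hw.2
    have hinfr : Module.finrank ℝ (SA ⊓ SBᗮ : Submodule ℝ (E d)) = 0 := by
      rw [hinf, finrank_bot]
    have hort : SAᗮ ⊓ SB = (SA ⊔ SBᗮ)ᗮ := by
      rw [← Submodule.inf_orthogonal, Submodule.orthogonal_orthogonal]
    have hfo := Submodule.finrank_add_finrank_orthogonal (SA ⊔ SBᗮ)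
    rw [← hort] at hfo
    have hne : SC ⊔ SBᗮ ⊔ (SAᗮ ⊓ SB) ≠ ⊤ := by
      intro htop
      have h1 : Module.finrank ℝ (SC ⊔ SBᗮ ⊔ (SAᗮ ⊓ SB) : Submodule ℝ (E d)) = d + 1 := by
        rw [htop, finrank_top, hD]
      have h2 : Module.finrank ℝ (SC ⊔ SBᗮ ⊔ (SAᗮ ⊓ SB) : Submodule ℝ (E d)) ≤ _ :=
        Submodule.finrank_add_le_finrank_add_finrank (SC ⊔ SBᗮ) (SAᗮ ⊓ SB)
      have h3 : Module.finrank ℝ (SC ⊔ SBᗮ : Submodule ℝ (E d)) ≤ _ :=
        Submodule.finrank_add_le_finrank_add_finrank SC SBᗮ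
      omega
    refine measure_mono_null (fun v hv => ?_) (sig_subspace _ hne)
    obtain ⟨a, ha1, ha2⟩ := hv
    simp only [Function.update_self] at ha1 ha2
    have hsC : ∑ i ∈ C, a (Sum.inl i) • ((Function.update x c v) i : E d) =
        ∑ i ∈ C, a (Sum.inl i) • (x i : E d) :=
      Finset.sum_congr rfl fun i hi => by rw [hup C hcC v i hi]
    have hsB : ∑ i ∈ B, a (Sum.inr i) • ((Function.update x c v) i : E d) =
        ∑ i ∈ B, a (Sum.inr i) • (x i : E d) :=
      Finset.sum_congr rfl fun i hi => by rw [hup B hcB v i hi]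
    rw [hsC, hsB] at ha1
    rw [hsB] at ha2
    set wC : E d := ∑ i ∈ C, a (Sum.inl i) • (x i : E d) with hwC
    set wB : E d := ∑ i ∈ B, a (Sum.inr i) • (x i : E d) with hwB
    have h1 : wC ∈ SC := Submodule.sum_mem _ fun i hi => Submodule.smul_mem _ _
      (Submodule.subset_span ⟨i, hi, rfl⟩)
    have h2 : wB ∈ SB := Submodule.sum_mem _ fun i hi => Submodule.smul_mem _ _
      (Submodule.subset_span ⟨i, hi, rfl⟩)
    have h3 : wB ∈ SAᗮ := by
      rw [Submodule.mem_orthogonal]
      intro w hw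
      induction hw using Submodule.span_induction with
      | mem w hw =>
        obtain ⟨i, hi, rfl⟩ := hw
        rw [real_inner_comm]
        have := ha2 i hi
        rwa [hup A hcA v i hi] at this
      | zero => simp
      | add a b _ _ ha hb => rw [inner_add_left, ha, hb, add_zero]
      | smul r a _ ha => rw [real_inner_smul_left, ha, mul_zero]
    have h4 : wC + wB - (v : E d) ∈ SBᗮ := horthB _ fun j hj => by
      have := ha1 j hj
      rwa [hup B hcB v j hj] at this
    have e : (v : E d) = wC - (wC + wB - (v : E d)) + wB := by abel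
    show (v : E d) ∈ SC ⊔ SBᗮ ⊔ (SAᗮ ⊓ SB)
    rw [e]
    exact Submodule.add_mem _ (Submodule.mem_sup_left (Submodule.sub_mem _
      (Submodule.mem_sup_left h1) (Submodule.mem_sup_right h4)))
      (Submodule.mem_sup_right ⟨h3, h2⟩)
  have hae : ∀ᵐ x ∂(Measure.pi fun _ : ι => sig d), x ∉ N := measure_eq_zero_iff_ae_notMem.mp hnull
  filter_upwards [hae] with x hx hcon
  refine hx ?_
  obtain ⟨y, hy, z, hz, hyz⟩ := Submodule.mem_sup.mp hcon
  obtain ⟨w, hw, u, hu, hwu⟩ := Submodule.mem_sup.mp hy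
  obtain ⟨f, hf⟩ := (Submodule.mem_span_image_finset_iff_exists_fun' ℝ).mp hw
  obtain ⟨g, hg⟩ := (Submodule.mem_span_image_finset_iff_exists_fun' ℝ).mp hz.2
  refine ⟨Sum.elim f g, fun j hj => ?_, fun i hi => ?_⟩
  · simp only [Sum.elim_inl, Sum.elim_inr]
    rw [hf, hg]
    have e : w + z - (x c : E d) = -u := by
      rw [← hyz, ← hwu]
      abel
    rw [e, inner_neg_left, real_inner_comm,
      (Submodule.mem_orthogonal _ _).mp hu (x j : E d) (Submodule.subset_span ⟨j, hj, rfl⟩),
      neg_zero]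
  · simp only [Sum.elim_inr]
    rw [hg, real_inner_comm]
    exact (Submodule.mem_orthogonal _ _).mp hz.1 (x i : E d) (Submodule.subset_span ⟨i, hi, rfl⟩)

end SPH
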