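import Pool.Agent.SPH.FinGen
import Pool.Agent.SPH.EqLi

/-! Project SPH (MP_f7e9f1_co): removal for every family controlled by the Fourier norm, of any
rank. -/

open MeasureTheory Set Metric Filter
open scoped ENNReal NNReal Topology

universe u

noncomputable section
namespace SPH

/-- A family whose multilinear forms are controlled by the Fourier norm has the multi-set removal
property. -/
theorem multiRemoval_of_controlled {d : ℕ} (hd : 3 ≤ d) {ι : Type u} [Fintype ι] [DecidableEq ι]
    [Nonempty ι] (v : ι → Sph d) (hU : Controlled v) : MultiRemoval v :=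
  removal_multi_of hd v hU (fun _ _ w U hinf hsep φ => H31.equidist_X hd w U hinf hsep φ)
    (fun _ _ w U hinf hsep _ _ vJ hli _ φ => H31.equidist_Y_li hd w U hinf hsep vJ hli φ)

/-- control passes to subfamilies -/
theorem Controlled.comp {d : ℕ} {ι κ : Type u} [Fintype ι] [DecidableEq ι] [Fintype κ]
    [DecidableEq κ] {v : ι → Sph d} (hU : Controlled v) (a : κ → ι) (ha : Function.Injective a) :
    Controlled (fun k => v (a k)) := by
  classical
  intro k0 c hc
  obtain ⟨ε, hε, h⟩ := hU (a k0) c hc
  refine ⟨ε, hε, fun g f hg hg1 hf hf1 hF => ?_⟩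
  let f' : ι → Sph d → ℝ := fun i => if h : ∃ k, a k = i then f h.choose else fun _ => 1
  have hf'a : ∀ k, f' (a k) = f k := by
    intro k
    have hex : ∃ k', a k' = a k := ⟨k, rfl⟩
    show (if h : ∃ k', a k' = a k then f h.choose else fun _ => 1) = f k
    rw [dif_pos hex, ha hex.choose_spec]
  have hf'n : ∀ i, (¬ ∃ k, a k = i) → f' i = fun _ => 1 := by
    intro i hi
    show (if h : ∃ k', a k' = i then f h.choose else fun _ => 1) = fun _ => 1
    rw [dif_neg hi]
  have hf'm : ∀ i, Measurable (f' i) := by
    intro i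
    by_cases hi : ∃ k, a k = i
    · obtain ⟨k, rfl⟩ := hi
      rw [hf'a]
      exact hf k
    · rw [hf'n i hi]
      exact measurable_const
  have hf'1 : ∀ i x, |f' i x| ≤ 1 := by
    intro i x
    by_cases hi : ∃ k, a k = i
    · obtain ⟨k, rfl⟩ := hi
      rw [hf'a]
      exact hf1 k x
    · rw [hf'n i hi]
      simp
  have h1 := h g f' hg hg1 hf'm hf'1 hF
  have h2 : ∀ T : OG d, ∏ i ∈ Finset.univ.erase (a k0), f' i (T • v i) =
      ∏ k ∈ Finset.univ.erase k0, f k (T • v (a k)) := by
    intro T
    have e1 : (Finset.univ.erase k0).image a ⊆ Finset.univ.erase (a k0) := by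
      intro i hi
      obtain ⟨k, hk, rfl⟩ := Finset.mem_image.mp hi
      refine Finset.mem_erase.mpr ⟨fun h3 => ?_, Finset.mem_univ _⟩
      exact (Finset.mem_erase.mp hk).1 (ha h3)
    rw [← Finset.prod_subset e1, Finset.prod_image fun x _ y _ hxy => ha hxy]
    · exact Finset.prod_congr rfl fun k _ => by rw [hf'a]
    · intro i hi hni
      rw [hf'n i]
      rintro ⟨k, rfl⟩
      refine hni (Finset.mem_image_of_mem a (Finset.mem_erase.mpr ⟨fun h3 => ?_, Finset.mem_univ _⟩))
      exact (Finset.mem_erase.mp hi).1 (by rw [h3])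
  simp only [h2] at h1
  exact h1

/-- Every configuration contained, up to signs, in a controlled family has the removal property. -/
theorem hasRemoval_of_controlled {d : ℕ} (hd : 3 ≤ d) {ι : Type u} [Fintype ι] [DecidableEq ι]
    (v : ι → Sph d) (hU : Controlled v)
    (P : Finset (Sph d)) (hP : P.Nonempty) (hPv : ∀ p ∈ P, ∃ i, p = v i ∨ p = -(v i)) :
    HasRemoval P := by
  classical
  refine hasRemoval_of_multi v (fun κ _ _ a ha => ?_) P hP hPv
  exact multiRemoval_of_controlled hd (fun k => v (a k)) (hU.comp a ha)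

end SPH
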