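import Pool.Agent.SPH.Plus2
import Pool.Agent.SPH.UThm
import Pool.Agent.SPH.RemLi

/-! Project SPH (MP_f7e9f1_co): the removal property for every configuration that satisfies, up
to signs, the base condition or the plane condition at each of its points. -/

open MeasureTheory Set Metric Filter
open scoped ENNReal NNReal Topology

universe u

noncomputable section
namespace SPH

/-- Theorem U as control at a vertex -/
theorem ctrlAt_of_base {d : ℕ} (hd : 3 ≤ d) {ι : Type*} [Fintype ι] [DecidableEq ι]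
    (v : ι → Sph d) (i0 : ι) (h : BaseCond v i0) : CtrlAt v i0 := by
  obtain ⟨A, e0, h0, he0, hev, h1, h2, h3⟩ := h
  exact ctrlAt_of_U v i0 fun κ hκ => theoremU_sph hd v i0 A h0 e0 he0 hev h1 h2 h3 κ hκ

/-- the plane condition gives control -/
theorem ctrlAt_of_planeCond {d : ℕ} (hd : 3 ≤ d) {ι : Type u} [Fintype ι] [DecidableEq ι]
    (v : ι → Sph d) (i0 : ι) (h : PlaneCond v i0) : CtrlAt v i0 :=
  ctrlAt_of_plane hd (fun _ _ _ w k0 hw => ctrlAt_of_base hd w k0 hw) v i0 h

/-- The removal property for the configurations contained, up to signs, in a family that is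
controlled at each vertex. -/
theorem hasRemoval_of_ctrlAt {d : ℕ} (hd : 3 ≤ d) {ι : Type u} [Fintype ι] [DecidableEq ι]
    (v : ι → Sph d) (hv : ∀ i0, CtrlAt v i0)
    (P : Finset (Sph d)) (hP : P.Nonempty) (hPv : ∀ p ∈ P, ∃ i, p = v i ∨ p = -(v i)) :
    HasRemoval P :=
  hasRemoval_of_controlled hd v (controlled_of_ctrlAt v hv) P hP hPv

/-- THEOREM T+. -/
theorem theoremTplus {d : ℕ} (hd : 3 ≤ d) {ι : Type u} [Fintype ι] [DecidableEq ι]
    (v : ι → Sph d) (hv : ∀ i0, BaseCond v i0 ∨ PlaneCond v i0)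
    (P : Finset (Sph d)) (hP : P.Nonempty) (hPv : ∀ p ∈ P, ∃ i, p = v i ∨ p = -(v i)) :
    HasRemoval P :=
  hasRemoval_of_ctrlAt hd v (fun i0 => (hv i0).elim (ctrlAt_of_base hd v i0)
    (ctrlAt_of_planeCond hd v i0)) P hP hPv

end SPH
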