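import Pool.Agent.SPH.GenNull
import Pool.Agent.SPH.Tplus
import Pool.Agent.SPH.Cor

/-! Project SPH (MP_f7e9f1_co): configurations in general position. -/

open MeasureTheory Set Metric Filter
open scoped ENNReal NNReal Topology

universe u

noncomputable section
namespace SPH

/-- The plane condition from general position: the point is not in the span of the points of B and
is not congruent modulo the span of the points of A to a vector orthogonal to the points of B. -/
theorem planeCond_of_genpos {d : ℕ} {ι : Type*} (v : ι → Sph d) (i0 : ι) (A B : Finset ι)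
    (hAB : ∀ i, i ∈ A ∨ i ∈ B ∨ i = i0) (hA : i0 ∉ A)
    (hB : (v i0 : E d) ∉ Submodule.span ℝ ((fun i => (v i : E d)) '' (B : Set ι)))
    (hcomb : ∀ w ∈ Submodule.span ℝ ((fun i => (v i : E d)) '' (A : Set ι)),
      ∃ j ∈ B, inner ℝ (w - (v i0 : E d)) (v j : E d) ≠ 0)
    (hBd : Module.finrank ℝ (Submodule.span ℝ ((fun i => (v i : E d)) '' (B : Set ι))) + 1 ≤ d)
    (hAd : Module.finrank ℝ (Submodule.span ℝ ((fun i => (v i : E d)) '' (A : Set ι))) + 3 ≤ d) :
    PlaneCond v i0 := by
  classical
  set SA : Submodule ℝ (E d) := Submodule.span ℝ ((fun i => (v i : E d)) '' (A : Set ι)) with hSA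
  set SB : Submodule ℝ (E d) := Submodule.span ℝ ((fun i => (v i : E d)) '' (B : Set ι)) with hSB
  set p : E d := (v i0 : E d) - SB.starProjection (v i0 : E d) with hp
  have hpo : p ∈ SBᗮ := SB.sub_starProjection_mem_orthogonal _
  have hp0 : p ≠ 0 := by
    intro h
    apply hB
    have h1 : (v i0 : E d) = SB.starProjection (v i0 : E d) := sub_eq_zero.mp h
    rw [h1]
    exact Submodule.starProjection_apply_mem _ _
  have hpn : ‖p‖ ≠ 0 := norm_ne_zero_iff.mpr hp0
  set a : E d := (‖p‖)⁻¹ • p with ha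
  have hna : ‖a‖ = 1 := by
    rw [ha, norm_smul, norm_inv, norm_norm, inv_mul_cancel₀ hpn]
  have hao : a ∈ SBᗮ := Submodule.smul_mem _ _ hpo
  have hpv : inner ℝ p (v i0 : E d) = ‖p‖ ^ 2 := by
    have h1 : (v i0 : E d) = p + SB.starProjection (v i0 : E d) := by rw [hp]; abel
    have h2 : inner ℝ p (SB.starProjection (v i0 : E d)) = 0 :=
      Submodule.inner_left_of_mem_orthogonal (Submodule.starProjection_apply_mem _ _) hpo
    calc inner ℝ p (v i0 : E d) = inner ℝ p (p + SB.starProjection (v i0 : E d)) := by rw [← h1]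
      _ = ‖p‖ ^ 2 := by rw [inner_add_right, h2, add_zero, real_inner_self_eq_norm_sq]
  have hav : inner ℝ a (v i0 : E d) ≠ 0 := by
    rw [ha, real_inner_smul_left, hpv]
    exact mul_ne_zero (inv_ne_zero hpn) (pow_ne_zero 2 hpn)
  obtain ⟨b, hnb, hbW⟩ := exists_unit_orth (SB ⊔ Submodule.span ℝ {a}) (by
    have h1 := Submodule.finrank_add_le_finrank_add_finrank SB (Submodule.span ℝ {a})
    have h2 : Module.finrank ℝ (Submodule.span ℝ {a}) ≤ 1 := by
      refine (finrank_span_le_card ({a} : Set (E d))).trans ?_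
      simp
    omega)
  have hbB : ∀ u ∈ SB, inner ℝ b u = 0 := fun u hu => hbW u (Submodule.mem_sup_left hu)
  have hba : inner ℝ b a = 0 := hbW a (Submodule.mem_sup_right (Submodule.mem_span_singleton_self a))
  have haB : ∀ u ∈ SB, inner ℝ a u = 0 := fun u hu => Submodule.inner_left_of_mem_orthogonal hu hao
  have hvB : ∀ i ∈ B, (v i : E d) ∈ SB := fun i hi => Submodule.subset_span ⟨i, hi, rfl⟩
  refine ⟨A, a, b, hA, hna, hnb, by rw [real_inner_comm]; exact hba, ?_, Or.inl hav, ?_, Or.inl ?_⟩
  · intro i hiA hi0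
    have hi : i ∈ B := by
      rcases hAB i with h | h | h
      · exact absurd h hiA
      · exact h
      · exact absurd h hi0
    exact ⟨haB _ (hvB i hi), hbB _ (hvB i hi)⟩
  · have h0 : Submodule.span ℝ (insert (v i0 : E d) ((fun i => (v i : E d)) '' (A : Set ι)) ∪ {a, b})
        ≤ SA ⊔ Submodule.span ℝ {(v i0 : E d), a, b} := by
      rw [Submodule.span_le]
      rintro y ((rfl | hy) | hy)
      · exact Submodule.mem_sup_right (Submodule.subset_span (by simp))
      · exact Submodule.mem_sup_left (Submodule.subset_span hy)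
      · refine Submodule.mem_sup_right (Submodule.subset_span ?_)
        rcases hy with rfl | hy
        · simp
        · rw [mem_singleton_iff] at hy
          subst hy
          simp
    have h1 := Submodule.finrank_mono h0
    have h2 := Submodule.finrank_add_le_finrank_add_finrank SA
      (Submodule.span ℝ {(v i0 : E d), a, b})
    have h3 : Module.finrank ℝ (Submodule.span ℝ ({(v i0 : E d), a, b} : Set (E d))) ≤ 3 := by
      have h4 := finrank_span_finset_le_card (R := ℝ) ({(v i0 : E d), a, b} : Finset (E d))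
      have h5 : ({(v i0 : E d), a, b} : Finset (E d)).card ≤ 3 := Finset.card_le_three
      have h6 : ((({(v i0 : E d), a, b} : Finset (E d))) : Set (E d)) = {(v i0 : E d), a, b} := by
        simp
      rw [h6] at h4
      exact h4.trans h5
    omega
  · intro hmem
    rw [Submodule.span_union, Submodule.mem_sup] at hmem
    obtain ⟨w, hw, y, hy, hwy⟩ := hmem
    obtain ⟨j, hj, hne⟩ := hcomb w hw
    apply hne
    have e : w - (v i0 : E d) = -y := by rw [← hwy]; abel
    rw [e, inner_neg_left, neg_eq_zero]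
    obtain ⟨α, β, rfl⟩ := Submodule.mem_span_pair.mp hy
    rw [inner_add_left, real_inner_smul_left a _ α, real_inner_smul_left b _ β, haB _ (hvB j hj),
      hbB _ (hvB j hj)]
    simp

/-- Removal for configurations in general position, deterministic form. -/
theorem hasRemoval_of_genpos {d : ℕ} (hd : 3 ≤ d) {ι : Type u} [Fintype ι] [DecidableEq ι]
    (v : ι → Sph d)
    (h : ∀ i0, ∃ A B : Finset ι, (∀ i, i ∈ A ∨ i ∈ B ∨ i = i0) ∧ i0 ∉ A ∧
      (v i0 : E d) ∉ Submodule.span ℝ ((fun i => (v i : E d)) '' (B : Set ι)) ∧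
      (∀ w ∈ Submodule.span ℝ ((fun i => (v i : E d)) '' (A : Set ι)),
        ∃ j ∈ B, inner ℝ (w - (v i0 : E d)) (v j : E d) ≠ 0) ∧
      Module.finrank ℝ (Submodule.span ℝ ((fun i => (v i : E d)) '' (B : Set ι))) + 1 ≤ d ∧
      Module.finrank ℝ (Submodule.span ℝ ((fun i => (v i : E d)) '' (A : Set ι))) + 3 ≤ d)
    (P : Finset (Sph d)) (hP : P.Nonempty) (hPv : ∀ p ∈ P, ∃ i, p = v i ∨ p = -(v i)) :
    HasRemoval P :=
  theoremTplus hd v (fun i0 => by
    obtain ⟨A, B, h1, h2, h3, h4, h5, h6⟩ := h i0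
    exact Or.inr (planeCond_of_genpos v i0 A B h1 h2 h3 h4 h5 h6)) P hP hPv

/-- For almost every choice of at most 2 d - 3 points, the configuration has the removal property. -/
theorem ae_hasRemoval {d k : ℕ} (hd : 3 ≤ d) (hk1 : 1 ≤ k) (hk : k + 3 ≤ 2 * d) :
    ∀ᵐ x ∂(Measure.pi fun _ : Fin k => sig d), HasRemoval (Finset.univ.image x) := by
  classical
  have hne : ∀ x : Fin k → Sph d, (Finset.univ.image x).Nonempty := fun x =>
    Finset.image_nonempty.mpr ⟨⟨0, hk1⟩, Finset.mem_univ _⟩
  rcases Nat.lt_or_ge 3 k with hk3 | hk3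
  · have hB : ∀ i0 : Fin k, ∃ B : Finset (Fin k), B ⊆ Finset.univ.erase i0 ∧
        B.card = min (k - 1) (d - 1) := by
      intro i0
      refine Finset.exists_subset_card_eq ?_
      rw [Finset.card_erase_of_mem (Finset.mem_univ _), Finset.card_univ, Fintype.card_fin]
      exact min_le_left _ _
    choose B hB1 hB2 using hB
    set A : Fin k → Finset (Fin k) := fun i0 => (Finset.univ.erase i0) \ B i0 with hA
    have hAcard : ∀ i0, (A i0).card = k - 1 - min (k - 1) (d - 1) := by
      intro i0
      rw [hA]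
      simp only
      rw [Finset.card_sdiff_of_subset (hB1 i0), hB2, Finset.card_erase_of_mem (Finset.mem_univ _),
        Finset.card_univ, Fintype.card_fin]
    have hi0A : ∀ i0, i0 ∉ A i0 := by
      intro i0 h
      have := (Finset.mem_sdiff.mp h).1
      simp at this
    have hi0B : ∀ i0, i0 ∉ B i0 := by
      intro i0 h
      have := hB1 i0 h
      simp at this
    have h1 : ∀ᵐ x ∂(Measure.pi fun _ : Fin k => sig d), ∀ i0 : Fin k,
        LinearIndepOn ℝ (fun i => (x i : E d)) (B i0 : Set (Fin k)) →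
        ∀ w ∈ Submodule.span ℝ ((fun i => (x i : E d)) '' (A i0 : Set (Fin k))),
          ∃ j ∈ B i0, inner ℝ (w - (x i0 : E d)) (x j : E d) ≠ 0 := by
      rw [ae_all_iff]
      intro i0
      refine ae_comb i0 (A i0) (B i0) (hi0A i0) (hi0B i0) ?_
      rw [hAcard, hB2]
      omega
    filter_upwards [h1, ae_gp (ι := Fin k) (d := d)] with x hx1 hgp
    refine hasRemoval_of_genpos hd x (fun i0 => ⟨A i0, B i0, ?_, hi0A i0, ?_, ?_, ?_, ?_⟩) _ (hne x) ?_
    · intro i
      by_cases hi : i = i0
      · exact Or.inr (Or.inr hi)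
      · by_cases hiB : i ∈ B i0
        · exact Or.inr (Or.inl hiB)
        · refine Or.inl (Finset.mem_sdiff.mpr ⟨?_, hiB⟩)
          simp [hi]
    · refine hgp i0 (B i0) (hi0B i0) ?_
      rw [hB2]
      omega
    · refine hx1 i0 (hgp.linearIndepOn (B i0) ?_)
      rw [hB2]
      omega
    · rw [finrank_span_of_indep (hgp.linearIndepOn (B i0) (by rw [hB2]; omega)), hB2]
      omega
    · rw [finrank_span_of_indep (hgp.linearIndepOn (A i0) (by rw [hAcard]; omega)), hAcard]
      omega
    · intro p hp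
      obtain ⟨i, _, hi⟩ := Finset.mem_image.mp hp
      exact ⟨i, Or.inl hi.symm⟩
  · refine Eventually.of_forall fun x => card_le_three hd _ (hne x) ?_
    refine Finset.card_image_le.trans ?_
    rw [Finset.card_univ, Fintype.card_fin]
    exact hk3

end SPH
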