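import Pool.Agent.SPH.Tplus
import Pool.Agent.SPH.CorA

/-! Project SPH (MP_f7e9f1_co): linearly independent configurations, and configurations of at most
four points. -/

open MeasureTheory Set Metric Filter
open scoped ENNReal NNReal Topology

universe u

noncomputable section
namespace SPH

/-- the orthogonal complement of dimension two as a span of an orthonormal pair -/
theorem exists_plane {d : ℕ} (W : Submodule ℝ (E d)) (h : Module.finrank ℝ Wᗮ = 2) :
    ∃ a b : E d, ‖a‖ = 1 ∧ ‖b‖ = 1 ∧ inner ℝ a b = 0 ∧ a ∈ Wᗮ ∧ b ∈ Wᗮ ∧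
      ∀ x ∈ Wᗮ, x ∈ Submodule.span ℝ ({a, b} : Set (E d)) := by
  let bs : OrthonormalBasis (Fin 2) ℝ Wᗮ := (stdOrthonormalBasis ℝ Wᗮ).reindex (finCongr h)
  have h0 : ‖((bs 0 : Wᗮ) : E d)‖ = 1 := by
    have := bs.orthonormal.1 0
    rwa [← Submodule.coe_norm]
  have h1 : ‖((bs 1 : Wᗮ) : E d)‖ = 1 := by
    have := bs.orthonormal.1 1
    rwa [← Submodule.coe_norm]
  have h01 : inner ℝ ((bs 0 : Wᗮ) : E d) ((bs 1 : Wᗮ) : E d) = 0 := by
    have := bs.orthonormal.2 (show (0 : Fin 2) ≠ 1 by decide)
    exact this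
  refine ⟨(bs 0 : Wᗮ), (bs 1 : Wᗮ), h0, h1, h01, (bs 0).2, (bs 1).2, fun x hx => ?_⟩
  have e := bs.sum_repr' ⟨x, hx⟩
  rw [Fin.sum_univ_two] at e
  have e2 := congrArg (fun y : Wᗮ => (y : E d)) e
  simp only [Submodule.coe_add, Submodule.coe_smul] at e2
  rw [← e2]
  exact Submodule.add_mem _ (Submodule.smul_mem _ _ (Submodule.subset_span (by simp)))
    (Submodule.smul_mem _ _ (Submodule.subset_span (by simp)))

/-- Linearly independent families satisfy one of the two conditions at each vertex, unless they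
are orthonormal bases. -/
theorem cond_of_li {d : ℕ} (hd : 4 ≤ d) {ι : Type u} [Fintype ι] [DecidableEq ι] (v : ι → Sph d)
    (hli : LinearIndependent ℝ (fun i => (v i : E d)))
    (hno : Fintype.card ι = d + 1 → ∃ i j, i ≠ j ∧ inner ℝ (v i : E d) (v j : E d) ≠ 0) (i0 : ι) :
    BaseCond v i0 ∨ PlaneCond v i0 := by
  classical
  have hcard : Fintype.card ι ≤ d + 1 := by
    have := hli.fintype_card_le_finrank
    rwa [finrank_euclideanSpace_fin] at this
  by_cases hc : Fintype.card ι ≤ d
  · left
    obtain ⟨e0, he0, he0W⟩ := exists_unit_orth (Submodule.span ℝ (range fun i => (v i : E d)))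
      ((finrank_range_le_card _).trans hc)
    refine ⟨∅, e0, by simp, he0, fun i => he0W _ (Submodule.subset_span ⟨i, rfl⟩), ?_, ?_, ?_⟩
    · exact hli.notMem_span_image (by simp)
    · exact hli.notMem_span_image (by simp)
    · have : Module.finrank ℝ (Submodule.span ℝ ((fun i => (v i : E d)) '' ((∅ : Finset ι) : Set ι))) = 0 := by
        simp
      omega
  · right
    have hcd : Fintype.card ι = d + 1 := by omega
    obtain ⟨i, j, hij, hin⟩ := hno hcd
    -- the choice of the point a0
    obtain ⟨a0, b0, ha0, hb0, hab0, hin0⟩ : ∃ a0 b0 : ι, a0 ≠ i0 ∧ b0 ≠ i0 ∧ b0 ≠ a0 ∧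
        (inner ℝ (v b0 : E d) (v a0 : E d) ≠ 0 ∨ inner ℝ (v b0 : E d) (v i0 : E d) ≠ 0) := by
      by_cases h1 : i = i0
      · subst h1
        obtain ⟨a0, ha0⟩ : ∃ a0 : ι, a0 ∉ ({i, j} : Finset ι) := by
          by_contra hcon
          push Not at hcon
          have h2 : (Finset.univ : Finset ι) ⊆ {i, j} := fun x _ => hcon x
          have h3 := Finset.card_le_card h2
          rw [Finset.card_univ, hcd] at h3
          have h4 : ({i, j} : Finset ι).card ≤ 2 := Finset.card_le_two
          omega
        simp only [Finset.mem_insert, Finset.mem_singleton, not_or] at ha0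
        refine ⟨a0, j, ha0.1, hij.symm, fun e => ha0.2 e.symm, Or.inr ?_⟩
        rwa [real_inner_comm]
      · by_cases h2 : j = i0
        · subst h2
          obtain ⟨a0, ha0⟩ : ∃ a0 : ι, a0 ∉ ({i, j} : Finset ι) := by
            by_contra hcon
            push Not at hcon
            have h2 : (Finset.univ : Finset ι) ⊆ {i, j} := fun x _ => hcon x
            have h3 := Finset.card_le_card h2
            rw [Finset.card_univ, hcd] at h3
            have h4 : ({i, j} : Finset ι).card ≤ 2 := Finset.card_le_two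
            omega
          simp only [Finset.mem_insert, Finset.mem_singleton, not_or] at ha0
          exact ⟨a0, i, ha0.2, hij, fun e => ha0.1 e.symm, Or.inr hin⟩
        · exact ⟨i, j, h1, h2, hij.symm, Or.inl (by rwa [real_inner_comm])⟩
    set V : ι → E d := fun i => (v i : E d) with hV
    set Bs : Set ι := {i | i ∉ ({a0} : Finset ι) ∧ i ≠ i0} with hBs
    set W : Submodule ℝ (E d) := Submodule.span ℝ (V '' Bs) with hW
    have hWr : Module.finrank ℝ W = d - 1 := by
      have h1 : LinearIndependent ℝ (fun i : Bs => V i) := hli.comp _ Subtype.val_injective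
      have h2 := finrank_span_eq_card h1
      have h3 : range (fun i : Bs => V i) = V '' Bs := by
        rw [image_eq_range]
      rw [h3] at h2
      rw [hW, h2]
      have h4 : Fintype.card Bs = ((Finset.univ.erase a0).erase i0).card := by
        rw [← Set.toFinset_card]
        congr 1
        ext x
        simp [hBs, and_comm]
      rw [h4, Finset.card_erase_of_mem (by simp [ha0.symm]), Finset.card_erase_of_mem (by simp),
        Finset.card_univ, hcd]
      rfl
    have hWp : Module.finrank ℝ Wᗮ = 2 := by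
      have h1 := Submodule.finrank_add_finrank_orthogonal W
      rw [finrank_euclideanSpace_fin, hWr] at h1
      omega
    obtain ⟨a, b, ha, hb, hab, haW, hbW, hspan⟩ := exists_plane W hWp
    have hvW : ∀ i ∈ Bs, V i ∈ W := fun i hi => Submodule.subset_span ⟨i, hi, rfl⟩
    have hb0s : b0 ∈ Bs := ⟨by simpa using hab0, hb0⟩
    have hv0W : V i0 ∉ W := hli.notMem_span_image (fun h => h.2 rfl)
    refine ⟨{a0}, a, b, by simpa using ha0.symm, ha, hb, hab, ?_, ?_, ?_, Or.inr ⟨?_, ?_⟩⟩
    · intro i hi hi'
      have hi2 : V i ∈ W := hvW i ⟨hi, hi'⟩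
      exact ⟨by rw [real_inner_comm]; exact (Submodule.mem_orthogonal W a).mp haW _ hi2,
        by rw [real_inner_comm]; exact (Submodule.mem_orthogonal W b).mp hbW _ hi2⟩
    · by_contra hcon
      push Not at hcon
      apply hv0W
      rw [← Submodule.orthogonal_orthogonal W]
      rw [Submodule.mem_orthogonal]
      intro x hx
      obtain ⟨s, t, rfl⟩ := Submodule.mem_span_pair.mp (hspan x hx)
      rw [inner_add_left, real_inner_smul_left, real_inner_smul_left, hcon.1, hcon.2]
      simp
    · have e : insert (v i0 : E d) ((fun i => (v i : E d)) '' (({a0} : Finset ι) : Set ι)) ∪ {a, b} =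
          (({(v i0 : E d), (v a0 : E d), a, b} : Finset (E d)) : Set (E d)) := by
        ext x
        simp
        tauto
      rw [e]
      refine (finrank_span_finset_le_card _).trans (le_trans ?_ hd)
      refine (Finset.card_insert_le _ _).trans ?_
      have := Finset.card_insert_le (v a0 : E d) ({a, b} : Finset (E d))
      have h2 : ({a, b} : Finset (E d)).card ≤ 2 := Finset.card_le_two
      omega
    · exact hli.notMem_span_image (by simpa using ha0.symm)
    · rintro ⟨h1, h2⟩
      set U : Submodule ℝ (E d) := Submodule.span ℝ (insert (v i0 : E d)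
        ((fun i => (v i : E d)) '' (({a0} : Finset ι) : Set ι))) with hU
      have hle : Wᗮ ≤ U := by
        intro x hx
        obtain ⟨s, t, rfl⟩ := Submodule.mem_span_pair.mp (hspan x hx)
        exact U.add_mem (U.smul_mem _ h1) (U.smul_mem _ h2)
      have hUr : Module.finrank ℝ U ≤ 2 := by
        have e : insert (v i0 : E d) ((fun i => (v i : E d)) '' (({a0} : Finset ι) : Set ι)) =
            (({(v i0 : E d), (v a0 : E d)} : Finset (E d)) : Set (E d)) := by
          ext x
          simp
        rw [hU, e]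
        exact (finrank_span_finset_le_card _).trans Finset.card_le_two
      have heq : Wᗮ = U := Submodule.eq_of_le_of_finrank_le hle (by omega)
      have hi0 : (v i0 : E d) ∈ Wᗮ := by
        rw [heq]; exact Submodule.subset_span (Or.inl rfl)
      have ha00 : (v a0 : E d) ∈ Wᗮ := by
        rw [heq]; exact Submodule.subset_span (Or.inr ⟨a0, by simp, rfl⟩)
      rcases hin0 with h | h
      · exact h ((Submodule.mem_orthogonal W _).mp ha00 _ (hvW b0 hb0s))
      · exact h ((Submodule.mem_orthogonal W _).mp hi0 _ (hvW b0 hb0s))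

/-- Every linearly independent configuration that is not an orthonormal basis has the removal
property (d at least 4). -/
theorem hasRemoval_of_li {d : ℕ} (hd : 4 ≤ d) (P : Finset (Sph d)) (hP : P.Nonempty)
    (hli : LinearIndependent ℝ (fun p : P => ((p : Sph d) : E d)))
    (hno : P.card = d + 1 → ∃ p ∈ P, ∃ q ∈ P, p ≠ q ∧ inner ℝ (p : E d) (q : E d) ≠ 0) :
    HasRemoval P := by
  classical
  refine theoremTplus (by omega) (fun p : P => (p : Sph d)) ?_ P hP ?_
  · refine cond_of_li hd (fun p : P => (p : Sph d)) hli ?_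
    intro hc
    rw [Fintype.card_coe] at hc
    obtain ⟨p, hp, q, hq, hpq, h⟩ := hno hc
    exact ⟨⟨p, hp⟩, ⟨q, hq⟩, fun e => hpq (congrArg Subtype.val e), h⟩
  · exact fun p hp => ⟨⟨p, hp⟩, Or.inl rfl⟩

/-- a unit vector in the span of one other is plus or minus it -/
theorem eq_or_neg_of_smul {d : ℕ} (x y : Sph d) (c : ℝ) (h : c • (y : E d) = (x : E d)) :
    x = y ∨ x = -y := by
  have h1 : ‖(x : E d)‖ = 1 := norm_coe_sph _
  have h2 : ‖(y : E d)‖ = 1 := norm_coe_sph _
  have h3 : |c| = 1 := by
    rw [← h, norm_smul, h2, mul_one, Real.norm_eq_abs] at h1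
    exact h1
  rcases (abs_eq zero_le_one).mp h3 with e | e
  · left
    rw [e, one_smul] at h
    exact Subtype.ext h.symm
  · right
    rw [e, neg_one_smul] at h
    exact Subtype.ext h.symm

/-- four pairwise non-antipodal points that are not on one great circle -/
theorem base_of_four {d : ℕ} (hd : 4 ≤ d) {ι : Type*} [Fintype ι] [DecidableEq ι] (v : ι → Sph d)
    (hc : Fintype.card ι = 4) (hv : ∀ i j, i ≠ j → v i ≠ v j ∧ v i ≠ -(v j))
    (hr : ¬ ∃ x y : E d, ∀ i, (v i : E d) ∈ Submodule.span ℝ ({x, y} : Set (E d))) (i0 : ι) :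
    BaseCond v i0 := by
  classical
  obtain ⟨e0, he0, he0W⟩ := exists_unit_orth (Submodule.span ℝ (range fun i => (v i : E d)))
    ((finrank_range_le_card _).trans (by omega))
  have hcard3 : (Finset.univ.erase i0).card = 3 := by
    rw [Finset.card_erase_of_mem (Finset.mem_univ _), Finset.card_univ, hc]
  obtain ⟨a, b, c, hab, hac, hbc, habc⟩ := Finset.card_eq_three.mp hcard3
  have hmem : ∀ i, i ≠ i0 ↔ (i = a ∨ i = b ∨ i = c) := by
    intro i
    have h1 : i ∈ Finset.univ.erase i0 ↔ i ∈ ({a, b, c} : Finset ι) := by rw [habc]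
    simpa using h1
  have ha0 : a ≠ i0 := (hmem a).mpr (Or.inl rfl)
  have hb0 : b ≠ i0 := (hmem b).mpr (Or.inr (Or.inl rfl))
  have hc0 : c ≠ i0 := (hmem c).mpr (Or.inr (Or.inr rfl))
  have hpar : ∀ j, j ≠ i0 → ∀ t : ℝ, t • (v j : E d) ≠ (v i0 : E d) := by
    intro j hj t ht
    rcases eq_or_neg_of_smul (v i0) (v j) t ht with h | h
    · exact (hv i0 j hj.symm).1 h
    · exact (hv i0 j hj.symm).2 h
  -- one of the pairs does not contain the vertex in its span
  obtain ⟨x, hx, hxs⟩ : ∃ x, x ≠ i0 ∧ (v i0 : E d) ∉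
      Submodule.span ℝ ((fun i => (v i : E d)) '' {i | i ≠ x ∧ i ≠ i0}) := by
    by_contra hcon
    push Not at hcon
    have key : ∀ x y z : ι, x ≠ i0 → y ≠ i0 → z ≠ i0 → (∀ i, i ≠ i0 → (i = x ∨ i = y ∨ i = z)) →
        ∃ s t : ℝ, (v i0 : E d) = s • (v y : E d) + t • (v z : E d) ∧ s ≠ 0 ∧ t ≠ 0 := by
      intro x y z hx hy hz hall
      have h1 := hcon x hx
      have h2 : (v i0 : E d) ∈ Submodule.span ℝ ({(v y : E d), (v z : E d)} : Set (E d)) := by
        refine (Submodule.span_mono ?_) h1
        rintro w ⟨i, ⟨hi1, hi2⟩, rfl⟩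
        rcases hall i hi2 with h | h | h
        · exact absurd h hi1
        · left; rw [h]
        · right; rw [h]; rfl
      obtain ⟨s, t, hst⟩ := Submodule.mem_span_pair.mp h2
      refine ⟨s, t, hst.symm, ?_, ?_⟩
      · rintro rfl
        rw [zero_smul, zero_add] at hst
        exact hpar z hz t hst
      · rintro rfl
        rw [zero_smul, add_zero] at hst
        exact hpar y hy s hst
    obtain ⟨s, t, h1, hs, ht⟩ := key a b c ha0 hb0 hc0 fun i hi => (hmem i).mp hi
    obtain ⟨s', t', h1', hs', ht'⟩ := key b a c hb0 ha0 hc0 fun i hi => by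
      rcases (hmem i).mp hi with h | h | h
      · exact Or.inr (Or.inl h)
      · exact Or.inl h
      · exact Or.inr (Or.inr h)
    apply hr
    refine ⟨(v i0 : E d), (v c : E d), fun i => ?_⟩
    have m0 : (v i0 : E d) ∈ Submodule.span ℝ ({(v i0 : E d), (v c : E d)} : Set (E d)) :=
      Submodule.subset_span (by simp)
    have mc : (v c : E d) ∈ Submodule.span ℝ ({(v i0 : E d), (v c : E d)} : Set (E d)) :=
      Submodule.subset_span (by simp)
    by_cases hi : i = i0
    · rw [hi]; exact m0
    · rcases (hmem i).mp hi with h | h | h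
      · have e : (v a : E d) = s'⁻¹ • ((v i0 : E d) - t' • (v c : E d)) := by
          rw [h1', add_sub_cancel_right, smul_smul, inv_mul_cancel₀ hs', one_smul]
        rw [h, e]
        exact Submodule.smul_mem _ _ (Submodule.sub_mem _ m0 (Submodule.smul_mem _ _ mc))
      · have e : (v b : E d) = s⁻¹ • ((v i0 : E d) - t • (v c : E d)) := by
          rw [h1, add_sub_cancel_right, smul_smul, inv_mul_cancel₀ hs, one_smul]
        rw [h, e]
        exact Submodule.smul_mem _ _ (Submodule.sub_mem _ m0 (Submodule.smul_mem _ _ mc))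
      · rw [h]; exact mc
  refine ⟨{x}, e0, by simpa using hx.symm, he0,
    fun i => he0W _ (Submodule.subset_span ⟨i, rfl⟩), ?_, ?_, ?_⟩
  · intro h
    have e : (fun i => (v i : E d)) '' (({x} : Finset ι) : Set ι) = {(v x : E d)} := by simp
    rw [e] at h
    obtain ⟨t, ht⟩ := Submodule.mem_span_singleton.mp h
    exact hpar x hx t ht
  · have e : {i | i ∉ ({x} : Finset ι) ∧ i ≠ i0} = {i | i ≠ x ∧ i ≠ i0} := by
      ext i
      simp
    rw [e]
    exact hxs
  · have e : (fun i => (v i : E d)) '' (({x} : Finset ι) : Set ι) =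
        (({(v x : E d)} : Finset (E d)) : Set (E d)) := by simp
    rw [e]
    have h1 : Module.finrank ℝ (Submodule.span ℝ ((({(v x : E d)} : Finset (E d)) : Set (E d)))) ≤ 1 :=
      (finrank_span_finset_le_card (R := ℝ) ({(v x : E d)} : Finset (E d))).trans (by simp)
    omega

/-- Every configuration of at most four points has the removal property (d at least 4), unless it
consists of four pairwise non-antipodal points of one great circle. -/
theorem card_le_four {d : ℕ} (hd : 4 ≤ d) (P : Finset (Sph d)) (hP : P.Nonempty) (hc : P.card ≤ 4)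
    (hr : P.card = 4 → (∀ p ∈ P, -p ∉ P) →
      ¬ ∃ x y : E d, ∀ p ∈ P, (p : E d) ∈ Submodule.span ℝ ({x, y} : Set (E d))) :
    HasRemoval P := by
  classical
  obtain ⟨Q, h1, h2, h3⟩ := exists_line_reps P
  by_cases hQ : Q.card ≤ 3
  · obtain ⟨Q', e0, he0, hev, hs, hPv⟩ := cor_data (by omega) Q hQ
    refine theoremTplus (by omega) (fun q : Q' => (q : Sph d))
      (fun i0 => Or.inl (baseCond_of_split _ e0 he0 hev hs i0)) P hP ?_
    intro p hp
    obtain ⟨q, hq, hpq⟩ := h2 p hp
    obtain ⟨q', hq'⟩ := hPv q hq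
    refine ⟨q', ?_⟩
    rcases hpq with rfl | rfl
    · exact hq'
    · rcases hq' with h | h
      · right; rw [h]
      · left; rw [h, neg_neg]
  · have hQc : Q.card = 4 := by
      have := Finset.card_le_card h1
      omega
    have hPQ : Q = P := Finset.eq_of_subset_of_card_le h1 (by omega)
    subst hPQ
    refine theoremTplus (by omega) (fun q : Q => (q : Sph d)) (fun i0 => Or.inl ?_) Q hP ?_
    · refine base_of_four hd (fun q : Q => (q : Sph d)) (by rw [Fintype.card_coe, hQc]) ?_ ?_ i0
      · intro i j hij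
        have hne : (i : Sph d) ≠ (j : Sph d) := fun e => hij (Subtype.ext e)
        exact ⟨hne, h3 i i.2 j j.2 hne⟩
      · rintro ⟨x, y, hxy⟩
        refine hr hQc (fun p hp hn => ?_) ⟨x, y, fun p hp => hxy ⟨p, hp⟩⟩
        refine h3 p hp (-p) hn (fun e => ?_) (by rw [neg_neg])
        have e1 : (p : E d) = -(p : E d) := congrArg Subtype.val e
        have e3 := norm_coe_sph p
        have e4 : (inner ℝ (p : E d) (p : E d) : ℝ) = 1 := by
          rw [real_inner_self_eq_norm_sq, e3]; norm_num
        have e5 : (inner ℝ (p : E d) (p : E d) : ℝ) = -1 := by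
          nth_rewrite 1 [e1]
          rw [inner_neg_left, e4]
        rw [e4] at e5
        norm_num at e5
    · exact fun p hp => ⟨⟨p, hp⟩, Or.inl rfl⟩

end SPH
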