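import Pool.Agent.SPH.TameDouble
import Pool.Agent.SPH.GenNull2
import Pool.Agent.SPH.Generic
import Pool.Agent.SPH.PlusCor

/-! Project SPH (MP_f7e9f1_co): almost every configuration of at most 2 d - 1 points (d at least 7),
at most 2 d - 2 points (d at least 6), by the double step. -/

open MeasureTheory Set Metric Filter
open scoped ENNReal NNReal Topology

noncomputable section
namespace SPH

/-- the second kind of general position: no point is congruent modulo the span of the points of A to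
a vector orthogonal to the points of B -/
def GP2 {d : ℕ} {ι : Type*} (x : ι → Sph d) : Prop :=
  ∀ (i0 : ι) (A B : Finset ι), i0 ∉ A → i0 ∉ B → A.card < B.card →
      LinearIndepOn ℝ (fun i => (x i : E d)) (B : Set ι) →
      ∀ w ∈ Submodule.span ℝ ((fun i => (x i : E d)) '' (A : Set ι)),
        ∃ j ∈ B, inner ℝ (w - (x i0 : E d)) (x j : E d) ≠ 0

/-- the third kind of general position -/
def GP3 {d : ℕ} {ι : Type*} (x : ι → Sph d) : Prop :=
  ∀ (c : ι) (C A B : Finset ι), c ∉ C → c ∉ A → c ∉ B → Disjoint A B → C.card < A.card →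
    A.card ≤ B.card → B.card ≤ d + 1 →
    (x c : E d) ∉ Submodule.span ℝ ((fun i => (x i : E d)) '' (C : Set ι)) ⊔
      (Submodule.span ℝ ((fun i => (x i : E d)) '' (B : Set ι)))ᗮ ⊔
      ((Submodule.span ℝ ((fun i => (x i : E d)) '' (A : Set ι)))ᗮ ⊓
        Submodule.span ℝ ((fun i => (x i : E d)) '' (B : Set ι)))

theorem ae_gp2 {d : ℕ} {ι : Type*} [Fintype ι] [DecidableEq ι] :
    ∀ᵐ x ∂(Measure.pi fun _ : ι => sig d), GP2 x := by
  unfold GP2
  rw [ae_all_iff]; intro i0
  rw [ae_all_iff]; intro A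
  rw [ae_all_iff]; intro B
  by_cases h1 : i0 ∉ A
  · by_cases h2 : i0 ∉ B
    · by_cases h3 : A.card < B.card
      · filter_upwards [ae_comb i0 A B h1 h2 h3] with x hx _ _ _
        exact hx
      · exact Eventually.of_forall fun x _ _ h => absurd h h3
    · exact Eventually.of_forall fun x _ h => absurd h h2
  · exact Eventually.of_forall fun x h => absurd h h1

theorem ae_gp3 {d : ℕ} {ι : Type*} [Fintype ι] [DecidableEq ι] :
    ∀ᵐ x ∂(Measure.pi fun _ : ι => sig d), GP3 x := by
  unfold GP3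
  rw [ae_all_iff]; intro c
  rw [ae_all_iff]; intro C
  rw [ae_all_iff]; intro A
  rw [ae_all_iff]; intro B
  by_cases h : c ∉ C ∧ c ∉ A ∧ c ∉ B ∧ Disjoint A B ∧ C.card < A.card ∧ A.card ≤ B.card ∧
      B.card ≤ d + 1
  · obtain ⟨h1, h2, h3, h4, h5, h6, h7⟩ := h
    filter_upwards [ae_notMem_two c C A B h1 h2 h3 h4 h5 h6 h7] with x hx _ _ _ _ _ _ _
    exact hx
  · refine Eventually.of_forall fun x h1 h2 h3 h4 h5 h6 h7 => ?_
    exact absurd ⟨h1, h2, h3, h4, h5, h6, h7⟩ h

/-- general position gives a tame vertex -/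
theorem tame_of_gp {d : ℕ} {ι : Type} [Fintype ι] [DecidableEq ι] (x : ι → Sph d)
    (g1 : GP x) (g2 : GP2 x) (g3 : GP3 x) (i0 : ι)
    (A B L M : Finset ι) (hcov : ∀ i, i ∈ A ∨ i ∈ B ∨ i ∈ L ∨ i ∈ M ∨ i = i0)
    (h0A : i0 ∉ A) (h0B : i0 ∉ B) (h0L : i0 ∉ L) (h0M : i0 ∉ M)
    (hAB : Disjoint A B) (hLM : Disjoint L M) (hLA : Disjoint L A) (hLB : Disjoint L B)
    (hMA : Disjoint M A) (hMB : Disjoint M B)
    (hBc : B.card + 1 = d) (hAc : A.card + 3 = d) (hLc : L.card ≤ 1) (hMc : M.card ≤ 1)
    (hd1 : L.card + M.card + 5 ≤ d) (hd2 : 2 * L.card + M.card + 3 ≤ d) :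
    Tame ι x i0 := by
  classical
  set X : ι → E d := fun i => (x i : E d) with hX
  have hDE : Module.finrank ℝ (E d) = d + 1 := by simp [E]
  set SA : Submodule ℝ (E d) := Submodule.span ℝ (X '' (A : Set ι)) with hSA
  set SB : Submodule ℝ (E d) := Submodule.span ℝ (X '' (B : Set ι)) with hSB
  set SL : Submodule ℝ (E d) := Submodule.span ℝ (X '' (L : Set ι)) with hSL
  set SM : Submodule ℝ (E d) := Submodule.span ℝ (X '' (M : Set ι)) with hSM
  have iA := g1.linearIndepOn A (by omega)
  have iB := g1.linearIndepOn B (by omega)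
  have rA : Module.finrank ℝ SA = A.card := finrank_span_of_indep iA
  have rB : Module.finrank ℝ SB = B.card := finrank_span_of_indep iB
  have rB2 : Module.finrank ℝ SBᗮ = 2 := by
    have := Submodule.finrank_add_finrank_orthogonal SB
    omega
  obtain ⟨a, b, hna, hnb, hab, haB, hbB, hspan⟩ := exists_plane SB rB2
  have xB : ∀ j ∈ B, X j ∈ SB := fun j hj => Submodule.subset_span ⟨j, hj, rfl⟩
  have xA : ∀ j ∈ A, X j ∈ SA := fun j hj => Submodule.subset_span ⟨j, hj, rfl⟩
  -- A is independent modulo the orthogonal complement of B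
  have hdisj : ∀ w ∈ SA, w ∈ SBᗮ → w = 0 := by
    refine disj_of_notMem SBᗮ X A fun c hc hmem => ?_
    obtain ⟨w, hw, y, hy, hwy⟩ := Submodule.mem_sup.mp hmem
    obtain ⟨j, hj, hne⟩ := g2 c (A.erase c) B (Finset.notMem_erase _ _)
      (fun h => Finset.disjoint_left.mp hAB hc h)
      (by rw [Finset.card_erase_of_mem hc]; omega) iB w hw
    apply hne
    have e : w - (x c : E d) = -y := by
      show w - X c = -y
      rw [← hwy]; abel
    rw [e, inner_neg_left, neg_eq_zero]
    exact Submodule.inner_left_of_mem_orthogonal (xB j hj) hy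
  have rS2 : Module.finrank ℝ (SA ⊔ SBᗮ : Submodule ℝ (E d)) = A.card + 2 := by
    have h1 := Submodule.finrank_sup_add_finrank_inf_eq SA SBᗮ
    have h2 : SA ⊓ SBᗮ = ⊥ := by
      rw [eq_bot_iff]
      intro w hw
      exact (Submodule.mem_bot ℝ).mpr (hdisj w hw.1 hw.2)
    rw [h2, finrank_bot, rA, rB2] at h1
    omega
  have rS3 : Module.finrank ℝ (SA ⊔ SBᗮ)ᗮ = 2 := by
    have := Submodule.finrank_add_finrank_orthogonal (SA ⊔ SBᗮ)
    omega
  obtain ⟨a', b', hna', hnb', hab', haS, hbS, hspan'⟩ := exists_plane (SA ⊔ SBᗮ) rS3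
  have oS : (SA ⊔ SBᗮ)ᗮ = SAᗮ ⊓ SB := by
    rw [← Submodule.inf_orthogonal, Submodule.orthogonal_orthogonal]
  have haS' : a' ∈ SAᗮ ⊓ SB := by rw [← oS]; exact haS
  have hbS' : b' ∈ SAᗮ ⊓ SB := by rw [← oS]; exact hbS
  have hP1 : Submodule.span ℝ ({a, b} : Set (E d)) ≤ SBᗮ := by
    rw [Submodule.span_le]
    rintro y (rfl | hy)
    · exact haB
    · rw [mem_singleton_iff] at hy
      subst hy
      exact hbB
  have hP2 : Submodule.span ℝ ({a', b'} : Set (E d)) ≤ SAᗮ ⊓ SB := by
    rw [Submodule.span_le]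
    rintro y (rfl | hy)
    · exact haS'
    · rw [mem_singleton_iff] at hy
      subst hy
      exact hbS'
  -- vectors orthogonal to a, b are in SB
  have perp1 : ∀ y : E d, inner ℝ y a = 0 → inner ℝ y b = 0 → y ∈ SB := by
    intro y h1 h2
    rw [← Submodule.orthogonal_orthogonal SB, Submodule.mem_orthogonal]
    intro u hu
    obtain ⟨s, t, rfl⟩ := Submodule.mem_span_pair.mp (hspan u hu)
    rw [real_inner_comm, inner_add_right, real_inner_smul_right, real_inner_smul_right, h1, h2]
    simp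
  have perp2 : ∀ y : E d, inner ℝ y a' = 0 → inner ℝ y b' = 0 → y ∈ SA ⊔ SBᗮ := by
    intro y h1 h2
    rw [← Submodule.orthogonal_orthogonal (SA ⊔ SBᗮ), Submodule.mem_orthogonal]
    intro u hu
    obtain ⟨s, t, rfl⟩ := Submodule.mem_span_pair.mp (hspan' u hu)
    rw [real_inner_comm, inner_add_right, real_inner_smul_right, real_inner_smul_right, h1, h2]
    simp
  -- spans of unions
  have un : ∀ C1 C2 : Finset ι, Submodule.span ℝ (X '' (C1 : Set ι)) ⊔
      Submodule.span ℝ (X '' (C2 : Set ι)) = Submodule.span ℝ (X '' ((C1 ∪ C2 : Finset ι) : Set ι)) := by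
    intro C1 C2
    rw [Finset.coe_union, image_union, Submodule.span_union]
  refine tame_double x i0 A B L M hcov h0A h0B h0L h0M a b a' b' hna hnb hab hna' hnb' hab'
    ?_ ?_ ?_ ?_ ?_ ?_ ?_ ?_ ?_ ?_ hd1 hd2
  · exact Submodule.inner_left_of_mem_orthogonal haS'.2 haB
  · exact Submodule.inner_left_of_mem_orthogonal hbS'.2 haB
  · exact Submodule.inner_left_of_mem_orthogonal haS'.2 hbB
  · exact Submodule.inner_left_of_mem_orthogonal hbS'.2 hbB
  · intro i hi
    exact ⟨Submodule.inner_right_of_mem_orthogonal (xB i hi) haB,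
      Submodule.inner_right_of_mem_orthogonal (xB i hi) hbB⟩
  · intro i hi
    exact ⟨Submodule.inner_right_of_mem_orthogonal (xA i hi) haS'.1,
      Submodule.inner_right_of_mem_orthogonal (xA i hi) hbS'.1⟩
  · -- independence
    intro l hl m hm c hc
    have c0 : c = 0 := by
      by_contra hne
      refine g1 i0 (L ∪ M) (by simp [h0L, h0M]) ?_ ?_
      · exact (Finset.card_union_le _ _).trans (by omega)
      · have h5 : (x i0 : E d) = (-c⁻¹) • (l + m) := by
          have h6 : c • (x i0 : E d) = -(l + m) := by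
            rw [add_assoc] at hc
            exact eq_neg_of_add_eq_zero_left hc
          have h7 : (x i0 : E d) = c⁻¹ • (c • (x i0 : E d)) := by
            rw [smul_smul, inv_mul_cancel₀ hne, one_smul]
          rw [h7, h6, smul_neg, neg_smul]
        rw [h5]
        refine Submodule.smul_mem _ _ ?_
        show l + m ∈ Submodule.span ℝ (X '' ((L ∪ M : Finset ι) : Set ι))
        rw [← un]
        exact Submodule.add_mem _ (Submodule.mem_sup_left hl) (Submodule.mem_sup_right hm)
    rw [c0, zero_smul, zero_add] at hc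
    have hlm : l = -m := eq_neg_of_add_eq_zero_left hc
    have l0 : l = 0 := by
      refine disj_of_notMem SM X L (fun c hcL hmem => ?_) l hl (by rw [hlm]; exact SM.neg_mem hm)
      rw [hSM, un] at hmem
      refine g1 c ((L.erase c) ∪ M) ?_ ?_ hmem
      · rw [Finset.mem_union, not_or]
        exact ⟨Finset.notMem_erase _ _, fun h => Finset.disjoint_left.mp hLM hcL h⟩
      · refine (Finset.card_union_le _ _).trans ?_
        have := Finset.card_erase_le (s := L) (a := c)
        omega
    refine ⟨c0, l0, ?_⟩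
    rw [l0, zero_add] at hc
    exact hc
  · -- independence modulo the two planes
    intro l hl m hm c hmem
    refine disj_of_notMem (Submodule.span ℝ ({a, b} : Set (E d)) ⊔
      Submodule.span ℝ ({a', b'} : Set (E d))) X (insert i0 (L ∪ M)) (fun k hk hkm => ?_) _ ?_ hmem
    · have hkB : k ∉ B := by
        intro h
        rcases Finset.mem_insert.mp hk with h' | h'
        · exact h0B (h' ▸ h)
        · rcases Finset.mem_union.mp h' with h'' | h''
          · exact Finset.disjoint_left.mp hLB h'' h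
          · exact Finset.disjoint_left.mp hMB h'' h
      have hkA : k ∉ A := by
        intro h
        rcases Finset.mem_insert.mp hk with h' | h'
        · exact h0A (h' ▸ h)
        · rcases Finset.mem_union.mp h' with h'' | h''
          · exact Finset.disjoint_left.mp hLA h'' h
          · exact Finset.disjoint_left.mp hMA h'' h
      refine g3 k ((insert i0 (L ∪ M)).erase k) A B (Finset.notMem_erase _ _) hkA hkB hAB ?_
        (by omega) (by omega) ?_
      · rw [Finset.card_erase_of_mem hk]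
        have h1 := Finset.card_insert_le i0 (L ∪ M)
        have h2 := Finset.card_union_le L M
        omega
      · have hle : Submodule.span ℝ (X '' (((insert i0 (L ∪ M)).erase k : Finset ι) : Set ι)) ⊔
            (Submodule.span ℝ ({a, b} : Set (E d)) ⊔ Submodule.span ℝ ({a', b'} : Set (E d))) ≤
            Submodule.span ℝ (X '' (((insert i0 (L ∪ M)).erase k : Finset ι) : Set ι)) ⊔ SBᗮ ⊔
              (SAᗮ ⊓ SB) := by
          rw [← sup_assoc]
          exact sup_le_sup (sup_le_sup le_rfl hP1) hP2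
        exact hle hkm
    · have hle1 : ({i0} : Finset ι) ⊆ insert i0 (L ∪ M) := by
        intro i hi
        rw [Finset.mem_singleton] at hi
        subst hi
        exact Finset.mem_insert_self _ _
      have mono : ∀ C1 C2 : Finset ι, C1 ⊆ C2 → Submodule.span ℝ (X '' (C1 : Set ι)) ≤
          Submodule.span ℝ (X '' (C2 : Set ι)) := fun C1 C2 h =>
        Submodule.span_mono (image_mono (by exact_mod_cast h))
      refine Submodule.add_mem _ (Submodule.add_mem _ (Submodule.smul_mem _ _ ?_) ?_) ?_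
      · exact Submodule.subset_span ⟨i0, by simp, rfl⟩
      · exact mono L _ (fun i hi => Finset.mem_insert_of_mem (Finset.mem_union_left _ hi)) hl
      · exact mono M _ (fun i hi => Finset.mem_insert_of_mem (Finset.mem_union_right _ hi)) hm
  · rintro w hw ⟨h1, h2⟩
    have h3 := perp1 _ h1 h2
    refine g1 i0 (L ∪ B) (by simp [h0L, h0B]) ?_ ?_
    · exact (Finset.card_union_le _ _).trans (by omega)
    · have e : (x i0 : E d) = (-w) + ((x i0 : E d) + w) := by abel
      rw [e]
      show _ ∈ Submodule.span ℝ (X '' ((L ∪ B : Finset ι) : Set ι))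
      rw [← un]
      exact Submodule.add_mem _ (Submodule.mem_sup_left (SL.neg_mem hw)) (Submodule.mem_sup_right h3)
  · rintro w hw ⟨h1, h2⟩
    obtain ⟨w', hw', y, hy, hwy⟩ := Submodule.mem_sup.mp (perp2 _ h1 h2)
    have hwm : w' - w ∈ Submodule.span ℝ (X '' ((A ∪ M : Finset ι) : Set ι)) := by
      rw [← un]
      exact Submodule.sub_mem _ (Submodule.mem_sup_left hw') (Submodule.mem_sup_right hw)
    obtain ⟨j, hj, hne⟩ := g2 i0 (A ∪ M) B (by simp [h0A, h0M]) h0B
      (lt_of_le_of_lt (Finset.card_union_le _ _) (by omega)) iB (w' - w) hwm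
    apply hne
    have e : w' - w - (x i0 : E d) = -y := by
      have : (x i0 : E d) = w' + y - w := by rw [hwy]; abel
      rw [this]; abel
    rw [e, inner_neg_left, neg_eq_zero]
    exact Submodule.inner_left_of_mem_orthogonal (xB j hj) hy

/-- the partition of the indices -/
theorem exists_parts {k : ℕ} (i0 : Fin k) (p q r : ℕ) (h : 1 + p + q + r ≤ k) :
    ∃ A B M L : Finset (Fin k), (∀ i, i ∈ A ∨ i ∈ B ∨ i ∈ L ∨ i ∈ M ∨ i = i0) ∧
      i0 ∉ A ∧ i0 ∉ B ∧ i0 ∉ L ∧ i0 ∉ M ∧ Disjoint A B ∧ Disjoint L M ∧ Disjoint L A ∧ Disjoint L B ∧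
      Disjoint M A ∧ Disjoint M B ∧ B.card = p ∧ A.card = q ∧ M.card = r ∧
      L.card = k - 1 - p - q - r := by
  classical
  set U : Finset (Fin k) := Finset.univ.erase i0 with hU
  have hUc : U.card = k - 1 := by
    rw [hU, Finset.card_erase_of_mem (Finset.mem_univ _), Finset.card_univ, Fintype.card_fin]
  obtain ⟨B, hB, hBc⟩ := Finset.exists_subset_card_eq (s := U) (n := p) (by omega)
  obtain ⟨A, hA, hAc⟩ := Finset.exists_subset_card_eq (s := U \ B) (n := q) (by
    rw [Finset.card_sdiff_of_subset hB]; omega)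
  obtain ⟨M, hM, hMc⟩ := Finset.exists_subset_card_eq (s := (U \ B) \ A) (n := r) (by
    rw [Finset.card_sdiff_of_subset hA, Finset.card_sdiff_of_subset hB]; omega)
  have h0 : ∀ C : Finset (Fin k), C ⊆ U → i0 ∉ C := by
    intro C hC h
    have := hC h
    simp [hU] at this
  have sA : A ⊆ U := hA.trans Finset.sdiff_subset
  have sM : M ⊆ U := (hM.trans Finset.sdiff_subset).trans Finset.sdiff_subset
  refine ⟨A, B, M, ((U \ B) \ A) \ M, ?_, h0 A sA, h0 B hB, h0 _ ?_, h0 M sM, ?_, ?_, ?_, ?_, ?_, ?_,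
    hBc, hAc, hMc, ?_⟩
  · intro i
    by_cases h1 : i ∈ A
    · exact Or.inl h1
    by_cases h2 : i ∈ B
    · exact Or.inr (Or.inl h2)
    by_cases h3 : i ∈ M
    · exact Or.inr (Or.inr (Or.inr (Or.inl h3)))
    by_cases h4 : i = i0
    · exact Or.inr (Or.inr (Or.inr (Or.inr h4)))
    · refine Or.inr (Or.inr (Or.inl ?_))
      simp [hU, h1, h2, h3, h4]
  · exact ((Finset.sdiff_subset).trans Finset.sdiff_subset).trans Finset.sdiff_subset
  · rw [Finset.disjoint_left]
    intro i h1 h2
    exact (Finset.mem_sdiff.mp (hA h1)).2 h2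
  · rw [Finset.disjoint_left]
    intro i h1 h2
    exact (Finset.mem_sdiff.mp h1).2 h2
  · rw [Finset.disjoint_left]
    intro i h1 h2
    exact (Finset.mem_sdiff.mp (Finset.mem_sdiff.mp h1).1).2 h2
  · rw [Finset.disjoint_left]
    intro i h1 h2
    exact (Finset.mem_sdiff.mp (Finset.mem_sdiff.mp (Finset.mem_sdiff.mp h1).1).1).2 h2
  · rw [Finset.disjoint_left]
    intro i h1 h2
    exact (Finset.mem_sdiff.mp (hM h1)).2 h2
  · rw [Finset.disjoint_left]
    intro i h1 h2
    exact (Finset.mem_sdiff.mp (Finset.mem_sdiff.mp (hM h1)).1).2 h2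
  · rw [Finset.card_sdiff_of_subset hM, Finset.card_sdiff_of_subset hA,
      Finset.card_sdiff_of_subset hB]
    omega

/-- the double step for almost every configuration -/
theorem ae_hasRemoval_core {d k l : ℕ} (hl : l ≤ 1) (hd : 6 + l ≤ d) (hk : k + 2 = 2 * d + l) :
    ∀ᵐ x ∂(Measure.pi fun _ : Fin k => sig d), HasRemoval (Finset.univ.image x) := by
  classical
  have hk1 : 1 ≤ k := by omega
  filter_upwards [ae_gp (ι := Fin k) (d := d), ae_gp2 (ι := Fin k) (d := d),
    ae_gp3 (ι := Fin k) (d := d)] with x g1 g2 g3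
  refine hasRemoval_of_tame (by omega) x (fun i0 => ?_) _
    (Finset.image_nonempty.mpr ⟨⟨0, hk1⟩, Finset.mem_univ _⟩) ?_
  · obtain ⟨A, B, M, L, h1, h2, h3, h4, h5, h6, h7, h8, h9, h10, h11, h12, h13, h14, h15⟩ :=
      exists_parts i0 (d - 1) (d - 3) 1 (by omega)
    exact tame_of_gp x g1 g2 g3 i0 A B L M h1 h2 h3 h4 h5 h6 h7 h8 h9 h10 h11 (by omega) (by omega)
      (by omega) (by omega) (by omega) (by omega)
  · intro p hp
    obtain ⟨i, _, hi⟩ := Finset.mem_image.mp hp
    exact ⟨i, Or.inl hi.symm⟩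

/-- For d at least 6 and almost every choice of at most 2 d - 2 points, the configuration has the
removal property. -/
theorem ae_hasRemoval_six {d k : ℕ} (hd : 6 ≤ d) (hk1 : 1 ≤ k) (hk : k + 2 ≤ 2 * d) :
    ∀ᵐ x ∂(Measure.pi fun _ : Fin k => sig d), HasRemoval (Finset.univ.image x) := by
  rcases Nat.lt_or_ge (2 * d) (k + 3) with h | h
  · exact ae_hasRemoval_core (l := 0) (by omega) (by omega) (by omega)
  · exact ae_hasRemoval (by omega) hk1 h

/-- For d at least 7 and almost every choice of at most 2 d - 1 points, the configuration has the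
removal property. -/
theorem ae_hasRemoval2 {d k : ℕ} (hd : 7 ≤ d) (hk1 : 1 ≤ k) (hk : k + 1 ≤ 2 * d) :
    ∀ᵐ x ∂(Measure.pi fun _ : Fin k => sig d), HasRemoval (Finset.univ.image x) := by
  rcases Nat.lt_or_ge (2 * d) (k + 2) with h | h
  · exact ae_hasRemoval_core (l := 1) (by omega) (by omega) (by omega)
  · exact ae_hasRemoval_six (by omega) hk1 h

end SPH
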