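import Pool.Agent.SPH.Lat

/-! Project SPH (MP_f7e9f1_co), helper64: polar coordinates, latitude law, pair law. -/

open MeasureTheory Set Metric
open scoped ENNReal NNReal Topology Pointwise

noncomputable section
namespace SPH

/-- the surface measure without normalisation -/
abbrev sph0 (d : ℕ) : Measure (Sph d) := (volume : Measure (E d)).toSphere

theorem finrank_E (d : ℕ) : Module.finrank ℝ (E d) = d + 1 := by simp

/-- polar coordinates -/
theorem lintegral_polar {d : ℕ} (F : E d → ℝ≥0∞) (hF : Measurable F) :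
    ∫⁻ x, F x = ∫⁻ θ : Sph d, (∫⁻ r in Ioi (0 : ℝ), ENNReal.ofReal (r ^ d) * F (r • (θ : E d)))
      ∂(sph0 d) := by
  have h1 := (volume : Measure (E d)).measurePreserving_homeomorphUnitSphereProd
  have hd : Module.finrank ℝ (E d) - 1 = d := by rw [finrank_E]; rfl
  rw [hd] at h1
  have h2 : ∫⁻ x, F x = ∫⁻ x : ({0}ᶜ : Set (E d)), F x ∂((volume : Measure (E d)).comap (↑)) := by
    rw [lintegral_subtype_comap (measurableSet_singleton _).compl, restrict_compl_singleton]
  have h3 : ∫⁻ x : ({0}ᶜ : Set (E d)), F x ∂((volume : Measure (E d)).comap (↑)) =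
      ∫⁻ p : Sph d × Ioi (0 : ℝ), F ((p.2 : ℝ) • (p.1 : E d))
        ∂((sph0 d).prod (Measure.volumeIoiPow d)) := by
    have hG : Measurable fun p : Sph d × Ioi (0 : ℝ) => F ((p.2 : ℝ) • (p.1 : E d)) := by
      refine hF.comp ?_
      have : Continuous fun p : Sph d × Ioi (0 : ℝ) => (p.2 : ℝ) • (p.1 : E d) := by fun_prop
      exact this.measurable
    rw [← h1.lintegral_comp hG]
    refine lintegral_congr fun x => ?_
    have h4 : (homeomorphUnitSphereProd (E d)).symm (homeomorphUnitSphereProd (E d) x) = x :=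
      (homeomorphUnitSphereProd (E d)).symm_apply_apply x
    have h5 := congrArg (fun z : ({0}ᶜ : Set (E d)) => (z : E d)) h4
    rw [← h5]
    have hx : ‖(x : E d)‖ ≠ 0 := norm_ne_zero_iff.mpr x.2
    simp [smul_inv_smul₀ hx]
  rw [h2, h3]
  have hG : Measurable fun p : Sph d × Ioi (0 : ℝ) => F ((p.2 : ℝ) • (p.1 : E d)) := by
    refine hF.comp ?_
    have : Continuous fun p : Sph d × Ioi (0 : ℝ) => (p.2 : ℝ) • (p.1 : E d) := by fun_prop
    exact this.measurable
  rw [lintegral_prod _ hG.aemeasurable]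
  refine lintegral_congr fun θ => ?_
  rw [Measure.volumeIoiPow]
  have hf : Measurable fun r : Ioi (0 : ℝ) => ENNReal.ofReal (r.1 ^ d) := by fun_prop
  have hg : Measurable fun r : Ioi (0 : ℝ) => F ((r : ℝ) • (θ : E d)) := by
    refine hF.comp ?_
    have : Continuous fun r : Ioi (0 : ℝ) => (r : ℝ) • (θ : E d) := by fun_prop
    exact this.measurable
  rw [lintegral_withDensity_eq_lintegral_mul _ hf hg]
  rw [← lintegral_subtype_comap measurableSet_Ioi
    (fun r : ℝ => ENNReal.ofReal (r ^ d) * F (r • (θ : E d)))]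
  rfl

/-- adding a first coordinate -/
def consE (n : ℕ) (p : ℝ × E n) : E (n + 1) := WithLp.toLp 2 (Fin.cons p.1 p.2.ofLp)

theorem consE_zero (n : ℕ) (p : ℝ × E n) : consE n p 0 = p.1 := rfl

theorem norm_consE_sq (n : ℕ) (p : ℝ × E n) : ‖consE n p‖ ^ 2 = p.1 ^ 2 + ‖p.2‖ ^ 2 := by
  rw [EuclideanSpace.norm_sq_eq, EuclideanSpace.norm_sq_eq, Fin.sum_univ_succ]
  simp [consE]

theorem consE_measurePreserving (n : ℕ) :
    MeasurePreserving (consE n) (volume : Measure (ℝ × E n)) volume := by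
  have h1 := (volume_preserving_piFinSuccAbove (fun _ : Fin (n + 2) => ℝ) 0).symm
  have h2 := (PiLp.volume_preserving_toLp (Fin (n + 2)))
  have h3 : MeasurePreserving (Prod.map (id : ℝ → ℝ) (@WithLp.ofLp 2 (Fin (n + 1) → ℝ)))
      ((volume : Measure ℝ).prod (volume : Measure (E n)))
      ((volume : Measure ℝ).prod (volume : Measure (Fin (n + 1) → ℝ))) :=
    (MeasurePreserving.id _).prod (PiLp.volume_preserving_ofLp (Fin (n + 1)))
  have h4 := h2.comp (h1.comp h3)
  have h5 : (consE n) = (@WithLp.toLp 2 (Fin (n + 2) → ℝ)) ∘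
      ((MeasurableEquiv.piFinSuccAbove (fun _ : Fin (n + 2) => ℝ) 0).symm ∘
        Prod.map (id : ℝ → ℝ) (@WithLp.ofLp 2 (Fin (n + 1) → ℝ))) := by
    funext p
    show consE n p = WithLp.toLp 2 (Fin.insertNth 0 p.1 p.2.ofLp)
    rw [consE]
    congr 1
    funext i
    rw [Fin.insertNth_zero]
    rfl
  rw [h5]
  exact h4

/-- the radial constant -/
def KK (n : ℕ) : ℝ≥0∞ := ∫⁻ r in Ioi (0 : ℝ), ENNReal.ofReal (r ^ n) * (Iio (1 : ℝ)).indicator 1 r

theorem KK_eq (n : ℕ) : KK n = ENNReal.ofReal (1 / ((n : ℝ) + 1)) := by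
  have h := Measure.volumeIoiPow_apply_Iio n ⟨1, mem_Ioi.2 one_pos⟩
  simp only [one_pow] at h
  rw [← h, Measure.volumeIoiPow, withDensity_apply _ measurableSet_Iio,
    setLIntegral_subtype measurableSet_Ioi _ fun a : ℝ ↦ ENNReal.ofReal (a ^ n),
    image_subtype_val_Ioi_Iio, KK]
  have : ∀ r : ℝ, ENNReal.ofReal (r ^ n) * (Iio (1 : ℝ)).indicator 1 r =
      (Iio (1 : ℝ)).indicator (fun r => ENNReal.ofReal (r ^ n)) r := by
    intro r
    by_cases hr : r ∈ Iio (1 : ℝ)
    · simp [hr]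
    · simp [hr]
  simp only [this]
  rw [lintegral_indicator measurableSet_Iio, Measure.restrict_restrict measurableSet_Iio]
  congr 2
  ext x
  simp [and_comm]

theorem KK_ne_zero (n : ℕ) : KK n ≠ 0 := by
  rw [KK_eq]
  have : (0 : ℝ) < 1 / ((n : ℝ) + 1) := by positivity
  simpa using this

theorem KK_ne_top (n : ℕ) : KK n ≠ ⊤ := by
  rw [KK_eq]
  exact ENNReal.ofReal_ne_top

/-- latitude law for the first coordinate, without normalisation -/
theorem lat0 (n : ℕ) (φ : ℝ → ℝ≥0∞) (hφ : Measurable φ) :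
    ∫⁻ θ : Sph (n + 1), φ ((θ : E (n + 1)) 0) ∂(sph0 (n + 1)) =
      sph0 n univ * ∫⁻ w in Ioo (0 : ℝ) Real.pi, ENNReal.ofReal (Real.sin w ^ n) * φ (Real.cos w) := by
  set F : E (n + 1) → ℝ≥0∞ := fun x => φ (x 0 / ‖x‖) * (Iio (1 : ℝ)).indicator 1 ‖x‖ with hFdef
  have hind : Measurable ((Iio (1 : ℝ)).indicator (1 : ℝ → ℝ≥0∞)) :=
    measurable_one.indicator measurableSet_Iio
  have hF : Measurable F := by
    have h0 : Measurable fun x : E (n + 1) => x 0 :=
      (EuclideanSpace.proj (𝕜 := ℝ) (0 : Fin (n + 2))).continuous.measurable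
    exact (hφ.comp (h0.div measurable_norm)).mul (hind.comp measurable_norm)
  -- left side
  have hL : ∫⁻ x, F x = (∫⁻ θ : Sph (n + 1), φ ((θ : E (n + 1)) 0) ∂(sph0 (n + 1))) * KK (n + 1) := by
    rw [lintegral_polar F hF, ← lintegral_mul_const']
    · refine lintegral_congr fun θ => ?_
      rw [KK, ← lintegral_const_mul _ (by fun_prop)]
      refine setLIntegral_congr_fun measurableSet_Ioi fun r hr => ?_
      have hr0 : 0 < r := hr
      have e1 : ‖r • (θ : E (n + 1))‖ = r := by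
        rw [norm_smul, norm_coe_sph, mul_one, Real.norm_eq_abs, abs_of_pos hr0]
      have e2 : (r • (θ : E (n + 1))) 0 / r = (θ : E (n + 1)) 0 := by
        simp only [PiLp.smul_apply, smul_eq_mul]
        field_simp
      simp only [hFdef, e1, e2]
      ring
    · exact KK_ne_top _
  -- right side
  set G : ℝ → ℝ → ℝ≥0∞ := fun t s => φ (t / Real.sqrt (t ^ 2 + s ^ 2)) *
    (Iio (1 : ℝ)).indicator 1 (Real.sqrt (t ^ 2 + s ^ 2)) with hGdef
  have hGm : Measurable fun p : ℝ × ℝ => G p.1 p.2 := by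
    have h1 : Measurable fun p : ℝ × ℝ => Real.sqrt (p.1 ^ 2 + p.2 ^ 2) := by fun_prop
    exact (hφ.comp (measurable_fst.div h1)).mul (hind.comp h1)
  have hFc : ∀ p : ℝ × E n, F (consE n p) = G p.1 ‖p.2‖ := by
    intro p
    have : ‖consE n p‖ = Real.sqrt (p.1 ^ 2 + ‖p.2‖ ^ 2) := by
      rw [← norm_consE_sq, Real.sqrt_sq (norm_nonneg _)]
    simp only [hFdef, hGdef, this, consE_zero]
  have hR : ∫⁻ x, F x = sph0 n univ * ∫⁻ p : ℝ × ℝ, (Ioi (0 : ℝ)).indicator
      (fun s => ENNReal.ofReal (s ^ n) * G p.1 s) p.2 := by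
    rw [← (consE_measurePreserving n).lintegral_comp hF]
    simp only [hFc]
    have hm1 : Measurable fun p : ℝ × E n => G p.1 ‖p.2‖ :=
      hGm.comp (measurable_fst.prodMk (measurable_norm.comp measurable_snd))
    have hm2 : Measurable fun p : ℝ × ℝ => (Ioi (0 : ℝ)).indicator
        (fun s => ENNReal.ofReal (s ^ n) * G p.1 s) p.2 := by
      have : (fun p : ℝ × ℝ => (Ioi (0 : ℝ)).indicator
          (fun s => ENNReal.ofReal (s ^ n) * G p.1 s) p.2) =
          ({p : ℝ × ℝ | 0 < p.2}).indicator (fun p => ENNReal.ofReal (p.2 ^ n) * G p.1 p.2) := by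
        funext p
        by_cases hp : 0 < p.2
        · simp [indicator, hp]
        · simp [indicator, hp]
      rw [this]
      refine Measurable.indicator ?_ (measurableSet_lt measurable_const measurable_snd)
      exact (by fun_prop : Measurable fun p : ℝ × ℝ => ENNReal.ofReal (p.2 ^ n)).mul hGm
    rw [Measure.volume_eq_prod, lintegral_prod _ hm1.aemeasurable, Measure.volume_eq_prod,
      lintegral_prod _ hm2.aemeasurable, ← lintegral_const_mul _ hm2.lintegral_prod_right']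
    refine lintegral_congr fun t => ?_
    have hm3 : Measurable fun y : E n => G t ‖y‖ := by
      have : Measurable fun s : ℝ => G t s := hGm.comp measurable_prodMk_left
      exact this.comp measurable_norm
    rw [lintegral_polar _ hm3]
    show _ = _ * ∫⁻ y, (Ioi (0 : ℝ)).indicator (fun s => ENNReal.ofReal (s ^ n) * G t s) y
    rw [lintegral_indicator measurableSet_Ioi]
    have : ∀ θ : Sph n, ∫⁻ r in Ioi (0 : ℝ), ENNReal.ofReal (r ^ n) * G t ‖r • (θ : E n)‖ =
        ∫⁻ r in Ioi (0 : ℝ), ENNReal.ofReal (r ^ n) * G t r := by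
      intro θ
      refine setLIntegral_congr_fun measurableSet_Ioi fun r hr => ?_
      have hr0 : 0 < r := hr
      have e1 : ‖r • (θ : E n)‖ = r := by
        rw [norm_smul, norm_coe_sph, mul_one, Real.norm_eq_abs, abs_of_pos hr0]
      simp only [e1]
    simp only [this]
    rw [lintegral_const, mul_comm]
  have hR2 : ∫⁻ p : ℝ × ℝ, (Ioi (0 : ℝ)).indicator
      (fun s => ENNReal.ofReal (s ^ n) * G p.1 s) p.2 =
      (∫⁻ w in Ioo (0 : ℝ) Real.pi, ENNReal.ofReal (Real.sin w ^ n) * φ (Real.cos w)) *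
        KK (n + 1) := by
    rw [← lintegral_comp_polarCoord_symm]
    have hcong : ∀ p ∈ polarCoord.target, ENNReal.ofReal p.1 • (Ioi (0 : ℝ)).indicator
        (fun s => ENNReal.ofReal (s ^ n) * G (polarCoord.symm p).1 s) (polarCoord.symm p).2 =
        (ENNReal.ofReal (p.1 ^ (n + 1)) * (Iio (1 : ℝ)).indicator 1 p.1) *
        ((Ioo (0 : ℝ) Real.pi).indicator
          (fun w => ENNReal.ofReal (Real.sin w ^ n) * φ (Real.cos w)) p.2) := by
      rintro ⟨r, w⟩ ⟨hr, hw⟩
      have hr0 : 0 < r := hr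
      have hw1 : -Real.pi < w := hw.1
      have hw2 : w < Real.pi := hw.2
      show ENNReal.ofReal r • (Ioi (0 : ℝ)).indicator
        (fun s => ENNReal.ofReal (s ^ n) * G (r * Real.cos w) s) (r * Real.sin w) = _
      by_cases hw0 : 0 < w
      · have hs : 0 < Real.sin w := Real.sin_pos_of_pos_of_lt_pi hw0 hw2
        have h1 : r * Real.sin w ∈ Ioi (0 : ℝ) := mul_pos hr0 hs
        have h2 : w ∈ Ioo (0 : ℝ) Real.pi := ⟨hw0, hw2⟩
        rw [indicator_of_mem h1, indicator_of_mem h2]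
        have h3 : Real.sqrt ((r * Real.cos w) ^ 2 + (r * Real.sin w) ^ 2) = r := by
          rw [mul_pow, mul_pow, ← mul_add, Real.cos_sq_add_sin_sq, mul_one, Real.sqrt_sq hr0.le]
        have h4 : r * Real.cos w / r = Real.cos w := by field_simp
        simp only [hGdef, h3, h4, smul_eq_mul]
        rw [mul_pow, ENNReal.ofReal_mul (by positivity), pow_succ, ENNReal.ofReal_mul (by positivity)]
        ring
      · have hs : Real.sin w ≤ 0 := Real.sin_nonpos_of_nonpos_of_neg_pi_le (not_lt.mp hw0) hw1.le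
        have h1 : r * Real.sin w ∉ Ioi (0 : ℝ) := by
          intro h
          have : r * Real.sin w ≤ 0 := mul_nonpos_of_nonneg_of_nonpos hr0.le hs
          exact absurd (show 0 < r * Real.sin w from h) (not_lt.mpr this)
        have h2 : w ∉ Ioo (0 : ℝ) Real.pi := fun h => hw0 h.1
        rw [indicator_of_notMem h1, indicator_of_notMem h2]
        simp
    rw [setLIntegral_congr_fun polarCoord.open_target.measurableSet hcong, polarCoord_target,
      Measure.volume_eq_prod, ← Measure.prod_restrict,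
      lintegral_prod_mul (f := fun r => ENNReal.ofReal (r ^ (n + 1)) * (Iio (1 : ℝ)).indicator 1 r)
        (g := (Ioo (0 : ℝ) Real.pi).indicator
          (fun w => ENNReal.ofReal (Real.sin w ^ n) * φ (Real.cos w))), mul_comm]
    · congr 1
      rw [lintegral_indicator measurableSet_Ioo, Measure.restrict_restrict measurableSet_Ioo]
      congr 2
      ext w
      simp only [mem_inter_iff, mem_Ioo]
      constructor
      · intro h
        exact h.1
      · intro h
        exact ⟨h, by linarith [h.1, Real.pi_pos], h.2⟩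
    · exact (by fun_prop : Measurable fun r : ℝ => ENNReal.ofReal (r ^ (n + 1))).aemeasurable.mul
        hind.aemeasurable
    · refine Measurable.aemeasurable (Measurable.indicator ?_ measurableSet_Ioo)
      exact (by fun_prop : Measurable fun w : ℝ => ENNReal.ofReal (Real.sin w ^ n)).mul
        (hφ.comp Real.measurable_cos)
  rw [hR, hR2, ← mul_assoc] at hL
  exact (ENNReal.mul_left_inj (KK_ne_zero _) (KK_ne_top _)).mp hL.symm

theorem norm_bas (d k : ℕ) : ‖bas d k‖ = 1 := by simp [bas]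

/-- the base point -/
def bpt (d : ℕ) : Sph d := ⟨bas d 0, by simp [norm_bas]⟩

theorem inner_bas_zero {d : ℕ} (x : E d) : inner ℝ (bas d 0) x = x 0 := by
  rw [bas, EuclideanSpace.inner_single_left]
  simp

theorem sph0_ne_zero (d : ℕ) : sph0 d univ ≠ 0 := by
  intro h
  exact (Measure.toSphere_ne_zero (volume : Measure (E d))) (Measure.measure_univ_eq_zero.mp h)

theorem sph0_ne_top (d : ℕ) : sph0 d univ ≠ ⊤ := measure_ne_top _ _

theorem sph0_eq (d : ℕ) : sph0 d = sph0 d univ • sig d := by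
  rw [sig, smul_smul, ENNReal.mul_inv_cancel (sph0_ne_zero d) (sph0_ne_top d), one_smul]

/-- ROW LAT. Law of one coordinate. -/
theorem latitude (d : ℕ) (hd : 1 ≤ d) : ∃ c : ℝ, 0 < c ∧ ∀ e : Sph d, ∀ φ : ℝ → ℝ≥0∞, Measurable φ →
    ∫⁻ x : Sph d, φ (inner ℝ (e : E d) (x : E d)) ∂(sig d) =
      ∫⁻ ω in Ioo 0 Real.pi, φ (Real.cos ω) * ENNReal.ofReal (c * Real.sin ω ^ (d - 1)) := by
  obtain ⟨n, rfl⟩ : ∃ n, d = n + 1 := ⟨d - 1, by omega⟩
  set a := sph0 n univ with ha
  set b := sph0 (n + 1) univ with hb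
  have ha0 : a ≠ 0 := sph0_ne_zero n
  have ha1 : a ≠ ⊤ := sph0_ne_top n
  have hb0 : b ≠ 0 := sph0_ne_zero (n + 1)
  have hb1 : b ≠ ⊤ := sph0_ne_top (n + 1)
  have hq0 : b⁻¹ * a ≠ 0 := mul_ne_zero (ENNReal.inv_ne_zero.mpr hb1) ha0
  have hq1 : b⁻¹ * a ≠ ⊤ := ENNReal.mul_ne_top (ENNReal.inv_ne_top.mpr hb0) ha1
  refine ⟨(b⁻¹ * a).toReal, ENNReal.toReal_pos hq0 hq1, fun e φ hφ => ?_⟩
  -- the case of the base point
  have hbase : ∫⁻ x : Sph (n + 1), φ (inner ℝ (bpt (n + 1) : E (n + 1)) (x : E (n + 1))) ∂(sig (n + 1)) =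
      ∫⁻ ω in Ioo 0 Real.pi, φ (Real.cos ω) *
        ENNReal.ofReal ((b⁻¹ * a).toReal * Real.sin ω ^ (n + 1 - 1)) := by
    have h1 : ∀ x : Sph (n + 1), inner ℝ (bpt (n + 1) : E (n + 1)) (x : E (n + 1)) =
        (x : E (n + 1)) 0 := fun x => inner_bas_zero _
    simp only [h1]
    rw [sig, lintegral_smul_measure, lat0 n φ hφ, smul_eq_mul,
      ← lintegral_const_mul _ (by fun_prop), ← lintegral_const_mul _ (by fun_prop)]
    refine setLIntegral_congr_fun measurableSet_Ioo fun w hw => ?_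
    have h2 : ENNReal.ofReal ((b⁻¹ * a).toReal * Real.sin w ^ (n + 1 - 1)) =
        b⁻¹ * a * ENNReal.ofReal (Real.sin w ^ n) := by
      rw [ENNReal.ofReal_mul ENNReal.toReal_nonneg, ENNReal.ofReal_toReal hq1, Nat.add_sub_cancel]
    show b⁻¹ * (a * (ENNReal.ofReal (Real.sin w ^ n) * φ (Real.cos w))) = φ (Real.cos w) *
      ENNReal.ofReal ((b⁻¹ * a).toReal * Real.sin w ^ (n + 1 - 1))
    rw [h2]
    ring
  rw [← hbase]
  obtain ⟨T, hT⟩ := exists_smul_eq_sph e (bpt (n + 1))
  have hm : Measurable fun x : Sph (n + 1) => φ (inner ℝ (bpt (n + 1) : E (n + 1)) (x : E (n + 1))) := by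
    refine hφ.comp (Continuous.measurable ?_)
    fun_prop
  rw [← (measurePreserving_sig T).lintegral_comp hm]
  refine lintegral_congr fun x => ?_
  rw [← hT, coe_smul_sph, coe_smul_sph, inner_act_act]

/-- ROW POL. Polar coordinates with Haar measure. -/
theorem polar_haar (d : ℕ) (hd : 1 ≤ d) : ∃ c : ℝ, 0 < c ∧ ∀ e : Sph d, ∀ Φ : E d → ℝ≥0∞, Measurable Φ →
    ∫⁻ x : E d, Φ x =
      ∫⁻ r in Ioi (0 : ℝ), ENNReal.ofReal (c * r ^ d) * ∫⁻ T : OG d, Φ (r • act T (e : E d)) ∂(mu d) := by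
  refine ⟨(sph0 d univ).toReal, ENNReal.toReal_pos (sph0_ne_zero d) (sph0_ne_top d), fun e Φ hΦ => ?_⟩
  have hm : Measurable fun p : Sph d × ℝ => Φ (p.2 • (p.1 : E d)) := by
    refine hΦ.comp (Continuous.measurable ?_)
    fun_prop
  have hm2 : Measurable fun p : Sph d × ℝ => ENNReal.ofReal (p.2 ^ d) * Φ (p.2 • (p.1 : E d)) :=
    (by fun_prop : Measurable fun p : Sph d × ℝ => ENNReal.ofReal (p.2 ^ d)).mul hm
  rw [lintegral_polar Φ hΦ, lintegral_lintegral_swap hm2.aemeasurable]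
  refine setLIntegral_congr_fun measurableSet_Ioi fun r hr => ?_
  have hm3 : Measurable fun x : Sph d => Φ (r • (x : E d)) := hm.comp measurable_prodMk_right
  have h1 : ∫⁻ T : OG d, Φ (r • act T (e : E d)) ∂(mu d) = ∫⁻ x : Sph d, Φ (r • (x : E d)) ∂(sig d) :=
    lintegral_orbit (fun x : Sph d => Φ (r • (x : E d))) hm3 e
  have h2 : ENNReal.ofReal ((sph0 d univ).toReal * r ^ d) = sph0 d univ * ENNReal.ofReal (r ^ d) := by
    rw [ENNReal.ofReal_mul ENNReal.toReal_nonneg, ENNReal.ofReal_toReal (sph0_ne_top d)]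
  show ∫⁻ x : Sph d, ENNReal.ofReal (r ^ d) * Φ (r • (x : E d)) ∂(sph0 d) = _
  rw [lintegral_const_mul _ hm3, h1, h2, sph0_eq, lintegral_smul_measure, smul_eq_mul,
    ← sph0_eq]
  ring

end SPH
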