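import Pool.Agent.SPH.Defs

/-! Project SPH (MP_f7e9f1_co), row LEBM: Lebesgue measure on the open region is absolutely continuous
with respect to the law m of (s,t) coming from the pairs of rectangles. -/

open MeasureTheory Set Metric Filter
open scoped ENNReal NNReal Topology

noncomputable section
namespace SPH

/-- the measure m on pairs (s,t) -/
def mm (d : ℕ) : Measure (ℝ × ℝ) :=
  Measure.map (fun p : ℝ × Kst d => (inner ℝ (va d p.1) (kact p.2 (va d p.1)),
      inner ℝ (va d p.1) (kact p.2 (vb d p.1))))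
    (((volume.restrict (Ioo 0 (Real.pi / 2))).withDensity fun ψ => ENNReal.ofReal (wt d ψ)).prod (kap d))

theorem lm_continuous_kact_left {d : ℕ} (x : E d) : Continuous fun k : Kst d => kact k x :=
  (continuous_act d).comp (continuous_subtype_val.prodMk continuous_const)

theorem lm_norm_bas (d k : ℕ) : ‖bas d k‖ = 1 := by simp [bas]

theorem lm_inner_bas_self (d k : ℕ) : inner ℝ (bas d k) (bas d k) = 1 := by
  rw [real_inner_self_eq_norm_sq, lm_norm_bas]; norm_num

theorem lm_inner_bas_zero_one {d : ℕ} (hd : 1 ≤ d) : inner ℝ (bas d 0) (bas d 1) = 0 := by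
  have h : (Fin.ofNat (d + 1) 0) ≠ (Fin.ofNat (d + 1) 1) := by
    intro h
    have := congrArg Fin.val h
    simp only [Fin.ofNat, Nat.zero_mod] at this
    rw [Nat.mod_eq_of_lt (by omega)] at this
    omega
  unfold bas
  rw [EuclideanSpace.inner_single_left]
  simp only [PiLp.single_apply, if_neg h, mul_zero]

theorem lm_kact_bas_zero {d : ℕ} (k : Kst d) : kact k (bas d 0) = bas d 0 := k.2

theorem lm_inner_bas_zero_kact {d : ℕ} (hd : 1 ≤ d) (k : Kst d) :
    inner ℝ (bas d 0) (kact k (bas d 1)) = 0 := by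
  have h : inner ℝ (kact k (bas d 0)) (kact k (bas d 1)) = inner ℝ (bas d 0) (bas d 1) :=
    inner_act_act _ _ _
  rw [lm_kact_bas_zero, lm_inner_bas_zero_one hd] at h
  exact h

/-- the parameters (s,t) of the pair (psi, k) -/
theorem lm_inner_va_kact {d : ℕ} (hd : 1 ≤ d) (ψ : ℝ) (k : Kst d) :
    inner ℝ (va d ψ) (kact k (va d ψ)) =
      Real.cos ψ ^ 2 + Real.sin ψ ^ 2 * inner ℝ (bas d 1) (kact k (bas d 1)) ∧
    inner ℝ (va d ψ) (kact k (vb d ψ)) =
      Real.cos ψ ^ 2 - Real.sin ψ ^ 2 * inner ℝ (bas d 1) (kact k (bas d 1)) := by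
  have e1 : kact k (va d ψ) = Real.cos ψ • bas d 0 + Real.sin ψ • kact k (bas d 1) := by
    simp only [kact, va, act_add, act_smul]
    rw [show act (k : OG d) (bas d 0) = bas d 0 from lm_kact_bas_zero k]
  have e2 : kact k (vb d ψ) = Real.cos ψ • bas d 0 - Real.sin ψ • kact k (bas d 1) := by
    simp only [kact, vb, act_sub, act_smul]
    rw [show act (k : OG d) (bas d 0) = bas d 0 from lm_kact_bas_zero k]
  have h0 := lm_inner_bas_zero_kact hd k
  have h1 : inner ℝ (bas d 1) (bas d 0) = 0 := by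
    rw [real_inner_comm]; exact lm_inner_bas_zero_one hd
  have h2 := lm_inner_bas_self d 0
  rw [e1, e2, va]
  simp only [inner_add_left, inner_add_right, inner_sub_right, inner_smul_left, inner_smul_right,
    h0, h1, h2, conj_trivial, mul_zero, add_zero, zero_add, mul_one]
  constructor <;> ring

theorem lm_measurable_st (d : ℕ) (hd : 1 ≤ d) :
    Measurable (fun p : ℝ × Kst d => ((inner ℝ (va d p.1) (kact p.2 (va d p.1)),
      inner ℝ (va d p.1) (kact p.2 (vb d p.1))) : ℝ × ℝ)) := by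
  have h : (fun p : ℝ × Kst d => ((inner ℝ (va d p.1) (kact p.2 (va d p.1)),
      inner ℝ (va d p.1) (kact p.2 (vb d p.1))) : ℝ × ℝ)) =
      fun p : ℝ × Kst d =>
        (Real.cos p.1 ^ 2 + Real.sin p.1 ^ 2 * inner ℝ (bas d 1) (kact p.2 (bas d 1)),
         Real.cos p.1 ^ 2 - Real.sin p.1 ^ 2 * inner ℝ (bas d 1) (kact p.2 (bas d 1))) := by
    funext p
    rw [(lm_inner_va_kact hd p.1 p.2).1, (lm_inner_va_kact hd p.1 p.2).2]
  rw [h]
  have hc : Measurable fun p : ℝ × Kst d => inner ℝ (bas d 1) (kact p.2 (bas d 1)) :=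
    ((continuous_const.inner (lm_continuous_kact_left (bas d 1))).measurable).comp measurable_snd
  have h1 : Measurable fun p : ℝ × Kst d => Real.cos p.1 ^ 2 :=
    (Real.measurable_cos.comp measurable_fst).pow_const 2
  have h2 : Measurable fun p : ℝ × Kst d => Real.sin p.1 ^ 2 :=
    (Real.measurable_sin.comp measurable_fst).pow_const 2
  exact (h1.add (h2.mul hc)).prodMk (h1.sub (h2.mul hc))

theorem lm_wt_pos {d : ℕ} {ψ : ℝ} (h : ψ ∈ Ioo 0 (Real.pi / 2)) : 0 < wt d ψ := by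
  have h1 : 0 < Real.sin ψ := Real.sin_pos_of_pos_of_lt_pi h.1 (by linarith [h.2, Real.pi_pos])
  have h2 : 0 < Real.cos ψ := Real.cos_pos_of_mem_Ioo ⟨by linarith [h.1, Real.pi_pos], h.2⟩
  exact mul_pos (pow_pos h1 _) (pow_pos h2 _)

theorem lm_measurable_wt (d : ℕ) : Measurable (wt d) := by
  unfold wt
  fun_prop

/-- ROW LEBM, with the law of <e2, k e2> as a hypothesis. -/
theorem leb_ac_mm_of (d : ℕ) (hd : 3 ≤ d)
    (hk : ∀ N : Set ℝ, MeasurableSet N → kap d {k | inner ℝ (bas d 1) (kact k (bas d 1)) ∈ N} = 0 →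
      volume (N ∩ Ioo (-1) 1) = 0)
    (N : Set (ℝ × ℝ)) (hN : MeasurableSet N) (h : mm d N = 0) :
    volume (N ∩ {p : ℝ × ℝ | p.1 < 1 ∧ p.2 < 1 ∧ 0 < p.1 + p.2}) = 0 := by
  have hd1 : 1 ≤ d := by omega
  have hst := lm_measurable_st d hd1
  rw [mm, Measure.map_apply hst hN, Measure.measure_prod_null (hst hN)] at h
  -- from the weighted measure to Lebesgue
  have h1 : ∀ᵐ ψ ∂(volume.restrict (Ioo 0 (Real.pi / 2))),
      kap d {k | inner ℝ (bas d 1) (kact k (bas d 1)) ∈
        {c : ℝ | (Real.cos ψ ^ 2 + Real.sin ψ ^ 2 * c, Real.cos ψ ^ 2 - Real.sin ψ ^ 2 * c) ∈ N}} = 0 := by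
    have h2 := (ae_withDensity_iff ((lm_measurable_wt d).ennreal_ofReal)).mp h
    filter_upwards [h2, ae_restrict_mem measurableSet_Ioo] with ψ hψ hψI
    have h3 := hψ (by
      have := lm_wt_pos (d := d) hψI
      simpa using this)
    refine le_antisymm ((measure_mono ?_).trans_eq h3) bot_le
    intro k hk
    show ((inner ℝ (va d ψ) (kact k (va d ψ)), inner ℝ (va d ψ) (kact k (vb d ψ))) : ℝ × ℝ) ∈ N
    rw [(lm_inner_va_kact hd1 ψ k).1, (lm_inner_va_kact hd1 ψ k).2]
    exact hk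
  set Θ : ℝ × ℝ → ℝ × ℝ := fun p => (Real.cos p.1 ^ 2 + Real.sin p.1 ^ 2 * p.2,
    Real.cos p.1 ^ 2 - Real.sin p.1 ^ 2 * p.2) with hΘ
  have hΘm : Measurable Θ := by fun_prop
  have hΘd : Differentiable ℝ Θ := by
    have a1 : Differentiable ℝ fun p : ℝ × ℝ => Real.cos p.1 := Real.differentiable_cos.comp differentiable_fst
    have a2 : Differentiable ℝ fun p : ℝ × ℝ => Real.sin p.1 := Real.differentiable_sin.comp differentiable_fst
    have a3 : Differentiable ℝ fun p : ℝ × ℝ => p.2 := differentiable_snd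
    exact ((a1.pow 2).add ((a2.pow 2).mul a3)).prodMk ((a1.pow 2).sub ((a2.pow 2).mul a3))
  set S : Set (ℝ × ℝ) := (Θ ⁻¹' N) ∩ (Ioo 0 (Real.pi / 2) ×ˢ Ioo (-1) 1) with hS
  have hSm : MeasurableSet S := (hΘm hN).inter (measurableSet_Ioo.prod measurableSet_Ioo)
  have hS0 : volume S = 0 := by
    rw [Measure.volume_eq_prod, Measure.measure_prod_null hSm]
    have h4 : ∀ᵐ ψ : ℝ, ψ ∈ Ioo 0 (Real.pi / 2) →
        kap d {k | inner ℝ (bas d 1) (kact k (bas d 1)) ∈
        {c : ℝ | (Real.cos ψ ^ 2 + Real.sin ψ ^ 2 * c, Real.cos ψ ^ 2 - Real.sin ψ ^ 2 * c) ∈ N}} = 0 :=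
      (ae_restrict_iff' measurableSet_Ioo).mp h1
    filter_upwards [h4] with ψ hψ
    show volume (Prod.mk ψ ⁻¹' S) = 0
    by_cases hI : ψ ∈ Ioo 0 (Real.pi / 2)
    · have h5 := hk {c : ℝ | (Real.cos ψ ^ 2 + Real.sin ψ ^ 2 * c,
        Real.cos ψ ^ 2 - Real.sin ψ ^ 2 * c) ∈ N} (by
          have hm : Measurable fun c : ℝ => ((Real.cos ψ ^ 2 + Real.sin ψ ^ 2 * c,
            Real.cos ψ ^ 2 - Real.sin ψ ^ 2 * c) : ℝ × ℝ) := by fun_prop
          exact hm hN) (hψ hI)
      refine measure_mono_null ?_ h5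
      rintro c ⟨hc1, hc2⟩
      exact ⟨hc1, hc2.2⟩
    · have : Prod.mk ψ ⁻¹' S = ∅ := by
        ext c
        simp only [mem_preimage, mem_empty_iff_false, iff_false]
        rintro ⟨_, hc⟩
        exact hI hc.1
      rw [this, measure_empty]
  have himg : N ∩ {p : ℝ × ℝ | p.1 < 1 ∧ p.2 < 1 ∧ 0 < p.1 + p.2} ⊆ Θ '' S := by
    rintro ⟨s, t⟩ ⟨hp, hs, ht, hst0⟩
    simp only at hs ht hst0
    have hu0 : 0 < (s + t) / 2 := by linarith
    have hu1 : (s + t) / 2 < 1 := by linarith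
    set u := Real.sqrt ((s + t) / 2) with hu
    have hupos : 0 < u := Real.sqrt_pos.mpr hu0
    have hult : u < 1 := by
      rw [hu, Real.sqrt_lt' one_pos]
      simpa using hu1
    have husq : u ^ 2 = (s + t) / 2 := Real.sq_sqrt hu0.le
    have hc2 : Real.cos (Real.arccos u) ^ 2 = (s + t) / 2 := by
      rw [Real.cos_arccos (by linarith) hult.le, husq]
    have hs2 : Real.sin (Real.arccos u) ^ 2 = (2 - s - t) / 2 := by
      have := Real.sin_sq_add_cos_sq (Real.arccos u)
      rw [hc2] at this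
      linarith
    have hden : 0 < 2 - s - t := by linarith
    have hval : Θ (Real.arccos u, (s - t) / (2 - s - t)) = (s, t) := by
      simp only [hΘ, hc2, hs2]
      refine Prod.ext ?_ ?_
      · show (s + t) / 2 + (2 - s - t) / 2 * ((s - t) / (2 - s - t)) = s
        field_simp
        ring
      · show (s + t) / 2 - (2 - s - t) / 2 * ((s - t) / (2 - s - t)) = t
        field_simp
        ring
    refine ⟨(Real.arccos u, (s - t) / (2 - s - t)), ⟨?_, ?_, ?_⟩, hval⟩
    · show Θ _ ∈ N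
      rw [hval]
      exact hp
    · exact ⟨Real.arccos_pos.mpr hult, Real.arccos_lt_pi_div_two.mpr hupos⟩
    · constructor
      · show -1 < (s - t) / (2 - s - t)
        rw [lt_div_iff₀ hden]
        linarith
      · show (s - t) / (2 - s - t) < 1
        rw [div_lt_iff₀ hden]
        linarith
  refine measure_mono_null himg ?_
  exact addHaar_image_eq_zero_of_differentiableOn_of_addHaar_eq_zero volume hΘd.differentiableOn hS0

end SPH
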