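import Pool.Agent.SPH.Defs

/-! Project SPH (MP_f7e9f1_co), row NULEB: the law of (s,t) coming from the two Cauchy-Schwarz steps is
absolutely continuous with respect to Lebesgue measure on the open region. -/

open MeasureTheory Set Metric Filter
open scoped ENNReal NNReal Topology

noncomputable section
namespace SPH

/-- the measure nu -/
def nuu (q : ℝ) (δ : ℝ → ℝ) : Measure (ℝ × ℝ) :=
  Measure.map (fun p : ℝ × ℝ => (1 - q * (1 - Real.cos p.1), 1 - δ p.1 * (1 - Real.cos p.2)))
    ((volume.restrict (Ioo 0 Real.pi)).prod (volume.restrict (Ioo 0 Real.pi)))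

/-- One dimensional change of variables: the preimage of a null set is null. -/
theorem null_preimage_cos (b : ℝ) (hb : 0 < b) (N : Set ℝ) (hN : MeasurableSet N)
    (h : volume N = 0) :
    volume ({x : ℝ | 1 - b * (1 - Real.cos x) ∈ N} ∩ Ioo 0 Real.pi) = 0 := by
  set f : ℝ → ℝ := fun x => 1 - b * (1 - Real.cos x) with hf
  have hfm : Measurable f := by fun_prop
  set s : Set ℝ := {x : ℝ | 1 - b * (1 - Real.cos x) ∈ N} ∩ Ioo 0 Real.pi with hs
  have hsm : MeasurableSet s := (hfm hN).inter measurableSet_Ioo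
  have hd : ∀ x ∈ s, HasDerivWithinAt f (-(b * Real.sin x)) s x := by
    intro x _
    have h1 : HasDerivAt f (0 - b * (0 - -Real.sin x)) x :=
      (hasDerivAt_const x (1 : ℝ)).sub (((hasDerivAt_const x (1 : ℝ)).sub
        (Real.hasDerivAt_cos x)).const_mul b)
    have h2 : (0 - b * (0 - -Real.sin x)) = -(b * Real.sin x) := by ring
    rw [h2] at h1
    exact h1.hasDerivWithinAt
  have hinj : InjOn f s := by
    intro x hx y hy hxy
    have h1 : Real.cos x = Real.cos y := by
      have : b * (1 - Real.cos x) = b * (1 - Real.cos y) := by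
        simp only [hf] at hxy
        linarith
      have := mul_left_cancel₀ hb.ne' this
      linarith
    exact Real.injOn_cos ⟨hx.2.1.le, hx.2.2.le⟩ ⟨hy.2.1.le, hy.2.2.le⟩ h1
  have hI := lintegral_image_eq_lintegral_abs_deriv_mul hsm hd hinj (fun _ => (1 : ℝ≥0∞))
  have himg : f '' s ⊆ N := by
    rintro _ ⟨x, hx, rfl⟩
    exact hx.1
  have h0 : ∫⁻ x in f '' s, (1 : ℝ≥0∞) = 0 := by
    rw [setLIntegral_one]
    exact measure_mono_null himg h
  rw [h0] at hI
  have h3 := (lintegral_eq_zero_iff (by fun_prop)).mp hI.symm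
  have h4 : ∀ᵐ x ∂(volume.restrict s), False := by
    filter_upwards [h3, ae_restrict_mem hsm] with x hx hxs
    have hsin : 0 < Real.sin x := Real.sin_pos_of_mem_Ioo hxs.2
    have hpos : 0 < |-(b * Real.sin x)| := by
      rw [abs_neg, abs_of_pos (mul_pos hb hsin)]
      exact mul_pos hb hsin
    simp only [mul_one, Pi.zero_apply, ENNReal.ofReal_eq_zero] at hx
    linarith
  have h5 : volume.restrict s = 0 := by
    have : ∀ᵐ _x ∂(volume.restrict s), False := h4
    exact ae_eq_bot.mp (by simpa [Filter.eventually_false_iff_eq_bot] using this)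
  exact Measure.restrict_eq_zero.mp h5

/-- ROW NULEB. nu is absolutely continuous w.r.t. Lebesgue restricted to the open region. -/
theorem nuu_ac (q : ℝ) (δ : ℝ → ℝ) (hq : 0 < q) (hδm : Measurable δ)
    (hδ1 : ∀ θ ∈ Ioo 0 Real.pi, 0 < δ θ ∧ δ θ ≤ 1)
    (hδ2 : ∀ θ ∈ Ioo 0 Real.pi, ∀ φ ∈ Ioo 0 Real.pi,
        0 ≤ (1 - q * (1 - Real.cos θ)) + (1 - δ θ * (1 - Real.cos φ)))
    (N : Set (ℝ × ℝ)) (hN : MeasurableSet N)
    (h : volume (N ∩ {p : ℝ × ℝ | p.1 < 1 ∧ p.2 < 1 ∧ 0 < p.1 + p.2}) = 0) :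
    nuu q δ N = 0 := by
  have hΦ : Measurable (fun p : ℝ × ℝ =>
      ((1 - q * (1 - Real.cos p.1), 1 - δ p.1 * (1 - Real.cos p.2)) : ℝ × ℝ)) := by fun_prop
  rw [nuu, Measure.map_apply hΦ hN]
  set R : Set (ℝ × ℝ) := {p : ℝ × ℝ | p.1 < 1 ∧ p.2 < 1 ∧ 0 < p.1 + p.2} with hR
  have hRm : MeasurableSet R :=
    (measurableSet_lt measurable_fst measurable_const).inter
      ((measurableSet_lt measurable_snd measurable_const).inter
        (measurableSet_lt measurable_const (measurable_fst.add measurable_snd)))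
  -- the diagonal line
  set Z : Set (ℝ × ℝ) := {p : ℝ × ℝ | p.1 + p.2 = 0} with hZ
  have hZm : MeasurableSet Z := measurableSet_eq_fun (by fun_prop) measurable_const
  have hZ0 : volume Z = 0 := by
    rw [Measure.volume_eq_prod, Measure.measure_prod_null hZm]
    refine Filter.Eventually.of_forall fun s => ?_
    have : Prod.mk s ⁻¹' Z = {-s} := by
      ext t
      simp only [hZ, mem_preimage, mem_ofPred_eq, mem_singleton_iff]
      constructor
      · intro h; linarith
      · intro h; rw [h]; ring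
    show volume (Prod.mk s ⁻¹' Z) = 0
    rw [this]
    simp
  set M : Set (ℝ × ℝ) := (N ∩ R) ∪ Z with hM
  have hMm : MeasurableSet M := (hN.inter hRm).union hZm
  have hM0 : volume M = 0 := measure_union_null h hZ0
  have hsec : ∀ᵐ s : ℝ, volume (Prod.mk s ⁻¹' M) = 0 := by
    rw [Measure.volume_eq_prod, Measure.measure_prod_null hMm] at hM0
    filter_upwards [hM0] with s hs
    exact hs
  -- reduce to M
  rw [Measure.measure_prod_null (hΦ hN)]
  -- exceptional set
  have hB : volume {s : ℝ | volume (Prod.mk s ⁻¹' M) ≠ 0} = 0 := by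
    have := ae_iff.mp hsec
    simpa using this
  set B : Set ℝ := toMeasurable volume {s : ℝ | volume (Prod.mk s ⁻¹' M) ≠ 0} with hBdef
  have hBm : MeasurableSet B := measurableSet_toMeasurable _ _
  have hB0 : volume B = 0 := by rw [hBdef, measure_toMeasurable, hB]
  have h1 := null_preimage_cos q hq B hBm hB0
  have h2 : ∀ᵐ θ ∂(volume.restrict (Ioo 0 Real.pi)), 1 - q * (1 - Real.cos θ) ∉ B := by
    rw [ae_restrict_iff' measurableSet_Ioo]
    have : ∀ᵐ θ : ℝ, θ ∉ ({x : ℝ | 1 - q * (1 - Real.cos x) ∈ B} ∩ Ioo 0 Real.pi) :=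
      measure_eq_zero_iff_ae_notMem.mp h1
    filter_upwards [this] with θ hθ hθI hmem
    exact hθ ⟨hmem, hθI⟩
  filter_upwards [h2, ae_restrict_mem measurableSet_Ioo] with θ hθ hθI
  have hs0 : volume (Prod.mk (1 - q * (1 - Real.cos θ)) ⁻¹' M) = 0 := by
    by_contra hne
    exact hθ (subset_toMeasurable _ _ hne)
  have h3 := null_preimage_cos (δ θ) (hδ1 θ hθI).1 _ (measurable_prodMk_left hMm) hs0
  show (volume.restrict (Ioo 0 Real.pi)) _ = 0
  rw [Measure.restrict_apply (measurable_prodMk_left (hΦ hN))]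
  refine measure_mono_null ?_ h3
  rintro φ ⟨hφ, hφI⟩
  refine ⟨?_, hφI⟩
  simp only [mem_preimage, mem_ofPred_eq] at hφ ⊢
  have hcφ : Real.cos φ < 1 := by
    have := Real.cos_lt_cos_of_nonneg_of_le_pi le_rfl hφI.2.le hφI.1
    simpa using this
  have hcθ : Real.cos θ < 1 := by
    have := Real.cos_lt_cos_of_nonneg_of_le_pi le_rfl hθI.2.le hθI.1
    simpa using this
  rcases (hδ2 θ hθI φ hφI).lt_or_eq with h4 | h4
  · left
    refine ⟨hφ, ?_, ?_, h4⟩
    · show 1 - q * (1 - Real.cos θ) < 1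
      have := mul_pos hq (sub_pos.mpr hcθ)
      linarith
    · show 1 - δ θ * (1 - Real.cos φ) < 1
      have := mul_pos (hδ1 θ hθI).1 (sub_pos.mpr hcφ)
      linarith
  · right
    exact h4.symm

end SPH
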