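import Pool.Agent.SPH.Step
import Pool.Agent.SPH.Rot
import Pool.Agent.SPH.CSOf

/-! Project SPH: criteria for the control of the multilinear form at a vertex, from the doubling
step and the base case (families in a great sphere with a splitting). -/

open MeasureTheory Set Metric Filter
open scoped ENNReal NNReal Topology

universe u

noncomputable section
namespace SPH

/-- base condition at a vertex: the family lies in a great sphere and the other points split into two
classes, neither of which spans the vertex -/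
def BaseCond {d : ℕ} {ι : Type*} (v : ι → Sph d) (i0 : ι) : Prop :=
  ∃ (A : Finset ι) (e0 : E d), i0 ∉ A ∧ ‖e0‖ = 1 ∧ (∀ i, inner ℝ e0 (v i : E d) = 0) ∧
    (v i0 : E d) ∉ Submodule.span ℝ ((fun i => (v i : E d)) '' (A : Set ι)) ∧
    (v i0 : E d) ∉ Submodule.span ℝ ((fun i => (v i : E d)) '' {i | i ∉ A ∧ i ≠ i0}) ∧
    Module.finrank ℝ (Submodule.span ℝ ((fun i => (v i : E d)) '' (A : Set ι))) + 2 ≤ d

/-- plane condition at a vertex -/
def PlaneCond {d : ℕ} {ι : Type*} (v : ι → Sph d) (i0 : ι) : Prop :=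
  ∃ (A : Finset ι) (a b : E d), i0 ∉ A ∧ ‖a‖ = 1 ∧ ‖b‖ = 1 ∧ inner ℝ a b = 0 ∧
    (∀ i, i ∉ A → i ≠ i0 → inner ℝ a (v i : E d) = 0 ∧ inner ℝ b (v i : E d) = 0) ∧
    (inner ℝ a (v i0 : E d) ≠ 0 ∨ inner ℝ b (v i0 : E d) ≠ 0) ∧
    Module.finrank ℝ (Submodule.span ℝ (insert (v i0 : E d)
      ((fun i => (v i : E d)) '' (A : Set ι)) ∪ {a, b})) ≤ d ∧
    ((v i0 : E d) ∉ Submodule.span ℝ ((fun i => (v i : E d)) '' (A : Set ι) ∪ {a, b}) ∨
      ((v i0 : E d) ∉ Submodule.span ℝ ((fun i => (v i : E d)) '' (A : Set ι)) ∧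
        ¬ (a ∈ Submodule.span ℝ (insert (v i0 : E d) ((fun i => (v i : E d)) '' (A : Set ι))) ∧
          b ∈ Submodule.span ℝ (insert (v i0 : E d) ((fun i => (v i : E d)) '' (A : Set ι))))))

/-- rotations with their period -/
theorem exists_rot_per {d : ℕ} (a b : E d) (ha : ‖a‖ = 1) (hb : ‖b‖ = 1) (hab : inner ℝ a b = 0) :
    ∃ R : ℝ → OG d, Continuous R ∧ (∀ s t, R (s + t) = R s * R t) ∧ R (2 * Real.pi) = 1 ∧
      (∀ θ x, act (R θ) x = x +
        ((Real.cos θ - 1) * inner ℝ x a - Real.sin θ * inner ℝ x b) • a +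
        (Real.sin θ * inner ℝ x a + (Real.cos θ - 1) * inner ℝ x b) • b) := by
  obtain ⟨R, h1, h2, h3⟩ := exists_rot a b ha hb hab
  refine ⟨R, h1, h2, ?_, h3⟩
  apply og_ext
  intro x
  rw [h3, act_one, Real.cos_two_pi, Real.sin_two_pi]
  simp

theorem Pls.ne_zero_of_Ioo {τ : ℝ} (h : τ ∈ Ioo 0 (2 * Real.pi)) : Real.sin (τ / 2) ≠ 0 :=
  (Real.sin_pos_of_pos_of_lt_pi (by linarith [h.1]) (by linarith [h.2])).ne'

/-- a linear functional which kills the chord for two different angles kills the plane -/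
theorem Pls.chord_unique {p q α β τ₁ τ₂ : ℝ} (h1 : τ₁ ∈ Ioo 0 (2 * Real.pi))
    (h2 : τ₂ ∈ Ioo 0 (2 * Real.pi)) (hpq : p ≠ 0 ∨ q ≠ 0) (hαβ : α ≠ 0 ∨ β ≠ 0)
    (e1 : ((Real.cos τ₁ - 1) * p + Real.sin τ₁ * q) * α +
      (-(Real.sin τ₁) * p + (Real.cos τ₁ - 1) * q) * β = 0)
    (e2 : ((Real.cos τ₂ - 1) * p + Real.sin τ₂ * q) * α +
      (-(Real.sin τ₂) * p + (Real.cos τ₂ - 1) * q) * β = 0) : τ₁ = τ₂ := by
  have hs1 := Pls.ne_zero_of_Ioo h1
  have hs2 := Pls.ne_zero_of_Ioo h2
  set x := τ₁ / 2 with hx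
  set y := τ₂ / 2 with hy
  have ex : τ₁ = 2 * x := by rw [hx]; ring
  have ey : τ₂ = 2 * y := by rw [hy]; ring
  rw [ex, Real.cos_two_mul, Real.sin_two_mul] at e1
  rw [ey, Real.cos_two_mul, Real.sin_two_mul] at e2
  have cx := Real.sin_sq_add_cos_sq x
  have cy := Real.sin_sq_add_cos_sq y
  have k1 : Real.sin x * (-(Real.sin x) * (α * p + β * q) + Real.cos x * (α * q - β * p)) = 0 := by
    have : 2 * (Real.sin x * (-(Real.sin x) * (α * p + β * q) + Real.cos x * (α * q - β * p))) = 0 := by
      linear_combination e1 - 2 * (α * p + β * q) * cx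
    linarith
  have k2 : Real.sin y * (-(Real.sin y) * (α * p + β * q) + Real.cos y * (α * q - β * p)) = 0 := by
    have : 2 * (Real.sin y * (-(Real.sin y) * (α * p + β * q) + Real.cos y * (α * q - β * p))) = 0 := by
      linear_combination e2 - 2 * (α * p + β * q) * cy
    linarith
  have m1 : -(Real.sin x) * (α * p + β * q) + Real.cos x * (α * q - β * p) = 0 :=
    (mul_eq_zero.mp k1).resolve_left hs1
  have m2 : -(Real.sin y) * (α * p + β * q) + Real.cos y * (α * q - β * p) = 0 :=
    (mul_eq_zero.mp k2).resolve_left hs2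
  have n1 : Real.sin (x - y) * (α * p + β * q) = 0 := by
    rw [Real.sin_sub]
    linear_combination -(Real.cos y) * m1 + Real.cos x * m2
  have n2 : Real.sin (x - y) * (α * q - β * p) = 0 := by
    rw [Real.sin_sub]
    linear_combination -(Real.sin y) * m1 + Real.sin x * m2
  have hnorm : (α * p + β * q) ^ 2 + (α * q - β * p) ^ 2 = (α ^ 2 + β ^ 2) * (p ^ 2 + q ^ 2) := by ring
  have hpos : 0 < (α ^ 2 + β ^ 2) * (p ^ 2 + q ^ 2) := by
    refine mul_pos ?_ ?_
    · rcases hαβ with h | h
      · have := sq_nonneg β; have := pow_pos (abs_pos.mpr h) 2; rw [sq_abs] at this; linarith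
      · have := sq_nonneg α; have := pow_pos (abs_pos.mpr h) 2; rw [sq_abs] at this; linarith
    · rcases hpq with h | h
      · have := sq_nonneg q; have := pow_pos (abs_pos.mpr h) 2; rw [sq_abs] at this; linarith
      · have := sq_nonneg p; have := pow_pos (abs_pos.mpr h) 2; rw [sq_abs] at this; linarith
  have hsin : Real.sin (x - y) = 0 := by
    by_contra hne
    have z1 := (mul_eq_zero.mp n1).resolve_left hne
    have z2 := (mul_eq_zero.mp n2).resolve_left hne
    rw [z1, z2] at hnorm
    rw [← hnorm] at hpos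
    simp at hpos
  have hlt : |x - y| < Real.pi := by
    rw [abs_lt]
    constructor
    · rw [hx, hy]; linarith [h1.1, h2.2]
    · rw [hx, hy]; linarith [h1.2, h2.1]
  rw [abs_lt] at hlt
  have hxy : x - y = 0 := (Real.sin_eq_zero_iff_of_lt_of_lt hlt.1 hlt.2).mp hsin
  rw [ex, ey]
  linarith

/-- PLANE CRITERION, from the base case as a hypothesis. -/
theorem ctrlAt_of_plane {d : ℕ} (hd : 3 ≤ d)
    (hbase : ∀ (κ : Type u) [Fintype κ] [DecidableEq κ] (w : κ → Sph d) (k0 : κ),
      BaseCond w k0 → CtrlAt w k0)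
    {ι : Type u} [Fintype ι] [DecidableEq ι] (v : ι → Sph d) (i0 : ι) (h : PlaneCond v i0) :
    CtrlAt v i0 := by
  classical
  obtain ⟨A, a, b, hA, ha, hb, hab, hB, hne, hdim, hcase⟩ := h
  obtain ⟨R, hRc, hadd, hper, hR⟩ := exists_rot_per a b ha hb hab
  set B : Finset ι := Finset.univ.filter fun i => i ∉ A ∧ i ≠ i0 with hBdef
  have hi0B : i0 ∉ B := by simp [hBdef]
  have hmemB : ∀ i, i ∉ B ↔ (i ∈ A ∨ i = i0) := by
    intro i
    simp only [hBdef, Finset.mem_filter, Finset.mem_univ, true_and, not_and_or, not_not]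
  have hRB : ∀ θ, ∀ i ∈ B, R θ • v i = v i := by
    intro θ i hi
    have hi' : i ∉ A ∧ i ≠ i0 := by simpa [hBdef] using hi
    obtain ⟨h1, h2⟩ := hB i hi'.1 hi'.2
    apply Subtype.ext
    rw [coe_smul_sph, hR, real_inner_comm, h1, real_inner_comm, h2]
    simp
  set V : ι → E d := fun i => (v i : E d) with hV
  set W : Submodule ℝ (E d) := Submodule.span ℝ (insert (v i0 : E d) (V '' (A : Set ι)) ∪ {a, b}) with hW
  have haW : a ∈ W := Submodule.subset_span (Or.inr (by simp))
  have hbW : b ∈ W := Submodule.subset_span (Or.inr (by simp))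
  have hvW : ∀ i, i ∉ B → (v i : E d) ∈ W := by
    intro i hi
    rcases (hmemB i).mp hi with h | h
    · exact Submodule.subset_span (Or.inl (Or.inr ⟨i, h, rfl⟩))
    · rw [h]; exact Submodule.subset_span (Or.inl (Or.inl rfl))
  obtain ⟨e0, he0, he0W⟩ := exists_unit_orth W hdim
  have hperp : ∀ τ (i : {i // i ∉ B} ⊕ {i // i ∉ B}), inner ℝ e0 (dbl v B (R τ) i : E d) = 0 := by
    intro τ i
    rcases i with i | i
    · exact he0W _ (hvW i i.2)
    · show inner ℝ e0 ((R τ • v i : Sph d) : E d) = 0
      rw [coe_smul_sph, hR]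
      exact he0W _ (W.add_mem (W.add_mem (hvW i i.2) (W.smul_mem _ haW)) (W.smul_mem _ hbW))
  -- coordinates of the vertex
  set p : ℝ := inner ℝ (v i0 : E d) a with hp
  set q : ℝ := inner ℝ (v i0 : E d) b with hq
  have hpq : p ≠ 0 ∨ q ≠ 0 := by
    rcases hne with h | h
    · left; rw [hp, real_inner_comm]; exact h
    · right; rw [hq, real_inner_comm]; exact h
  have hinv : ∀ τ, act (R (-τ)) (v i0 : E d) = (v i0 : E d) +
      ((Real.cos τ - 1) * p + Real.sin τ * q) • a + (-(Real.sin τ) * p + (Real.cos τ - 1) * q) • b := by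
    intro τ
    rw [hR, Real.cos_neg, Real.sin_neg]
    congr 3
    ring
  have hRneg : ∀ τ x, act (R (-τ)) (act (R τ) x) = x := by
    intro τ x
    rw [← act_mul, ← hadd, neg_add_cancel]
    have h0 : R 0 = 1 := by
      have := hadd 0 0
      rw [add_zero] at this
      exact (mul_eq_left.mp this.symm)
    rw [h0, act_one]
  rcases hcase with hc | ⟨hc1, hc2⟩
  · -- first alternative: the classes {R v} and A, R A
    refine ctrl_step v i0 B hi0B R hRc hadd hper hRB ?_
    have hae : ∀ᵐ τ ∂(volume.restrict (Ioc 0 (2 * Real.pi))), τ ∈ Ioo 0 (2 * Real.pi) := by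
      have h1 : ∀ᵐ τ ∂(volume.restrict (Ioc 0 (2 * Real.pi))), τ ∈ Ioc 0 (2 * Real.pi) :=
        ae_restrict_mem measurableSet_Ioc
      have h2 : ∀ᵐ τ ∂(volume.restrict (Ioc 0 (2 * Real.pi))), τ ≠ 2 * Real.pi :=
        ae_restrict_of_ae (Measure.ae_ne volume _)
      filter_upwards [h1, h2] with τ h1 h2
      exact ⟨h1.1, lt_of_le_of_ne h1.2 h2⟩
    filter_upwards [hae] with τ hτ
    refine hbase _ _ _ ⟨{Sum.inr ⟨i0, hi0B⟩}, e0, by simp, he0, hperp τ, ?_, ?_, ?_⟩
    · -- v is not a multiple of R v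
      intro hmem
      have e : (fun i => (dbl v B (R τ) i : E d)) ''
          (({Sum.inr ⟨i0, hi0B⟩} : Finset ({i // i ∉ B} ⊕ {i // i ∉ B})) : Set _) = {act (R τ) (v i0)} := by
        simp [dbl]
      rw [e, Submodule.mem_span_singleton] at hmem
      obtain ⟨c, hc0⟩ := hmem
      have hc0' : c • act (R τ) (v i0 : E d) = (v i0 : E d) := hc0
      have hn : |c| = 1 := by
        have := congrArg norm hc0'
        rw [norm_smul, norm_act, norm_coe_sph, mul_one, Real.norm_eq_abs] at this
        exact this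
      have hcc : c = 1 ∨ c = -1 := by
        rcases abs_eq (zero_le_one) |>.mp hn with h | h
        · exact Or.inl h
        · exact Or.inr h
      have hR0 := hR τ (v i0 : E d)
      rcases hcc with h1 | h1
      · -- c = 1: the chord vanishes
        rw [h1, one_smul] at hc0'
        rw [hc0'] at hR0
        set s1 : ℝ := (Real.cos τ - 1) * p - Real.sin τ * q with hs1
        set s2 : ℝ := Real.sin τ * p + (Real.cos τ - 1) * q with hs2
        have hz : s1 • a + s2 • b = 0 := by
          have h5 : (v i0 : E d) = (v i0 : E d) + (s1 • a + s2 • b) := by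
            rw [← add_assoc]; exact hR0
          exact (left_eq_add.mp h5)
        have hza := congrArg (fun x => inner ℝ x a) hz
        have hzb := congrArg (fun x => inner ℝ x b) hz
        simp only [inner_add_left, real_inner_smul_left, inner_zero_left] at hza hzb
        rw [real_inner_self_eq_norm_sq, ha, real_inner_comm, hab] at hza
        rw [real_inner_self_eq_norm_sq, hb, hab] at hzb
        have z1 : s1 = 0 := by linarith
        have z2 : s2 = 0 := by linarith
        have hs := Pls.ne_zero_of_Ioo hτ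
        have cs := Real.sin_sq_add_cos_sq τ
        have hsum : s1 ^ 2 + s2 ^ 2 = 2 * (1 - Real.cos τ) * (p ^ 2 + q ^ 2) := by
          rw [hs1, hs2]
          linear_combination (p ^ 2 + q ^ 2) * cs
        have hcos : 1 - Real.cos τ = 2 * Real.sin (τ / 2) ^ 2 := by
          have : τ = 2 * (τ / 2) := by ring
          rw [this, Real.cos_two_mul]
          have := Real.sin_sq_add_cos_sq (2 * (τ / 2) / 2)
          have e3 : 2 * (τ / 2) / 2 = τ / 2 := by ring
          rw [e3] at this ⊢
          linear_combination (-2) * this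
        rw [z1, z2, hcos] at hsum
        have hp2 : 0 < p ^ 2 + q ^ 2 := by
          rcases hpq with h | h
          · have := sq_nonneg q; have := pow_pos (abs_pos.mpr h) 2; rw [sq_abs] at this; linarith
          · have := sq_nonneg p; have := pow_pos (abs_pos.mpr h) 2; rw [sq_abs] at this; linarith
        have hs2' : 0 < Real.sin (τ / 2) ^ 2 := by positivity
        have : 0 < 2 * (2 * Real.sin (τ / 2) ^ 2) * (p ^ 2 + q ^ 2) := by positivity
        rw [← hsum] at this
        simp at this
      · -- c = -1: the vertex lies in the plane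
        rw [h1, neg_smul, one_smul] at hc0'
        have h6 : act (R τ) (v i0 : E d) = -(v i0 : E d) := by
          rw [← hc0', neg_neg]
          rw [hc0']
        rw [h6] at hR0
        apply hc
        set s1 : ℝ := (Real.cos τ - 1) * inner ℝ (v i0 : E d) a - Real.sin τ * inner ℝ (v i0 : E d) b
        set s2 : ℝ := Real.sin τ * inner ℝ (v i0 : E d) a + (Real.cos τ - 1) * inner ℝ (v i0 : E d) b
        have h7 : (v i0 : E d) = (-(1 / 2) * s1) • a + (-(1 / 2) * s2) • b := by
          have h8 : (2 : ℝ) • (v i0 : E d) = -(s1 • a + s2 • b) := by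
            have : s1 • a + s2 • b = -(v i0 : E d) - (v i0 : E d) := by
              rw [hR0]; abel
            rw [this, two_smul]; abel
          have h9 : (v i0 : E d) = (1 / 2 : ℝ) • ((2 : ℝ) • (v i0 : E d)) := by
            rw [smul_smul]; norm_num
          rw [h9, h8, smul_neg, smul_add, smul_smul, smul_smul, neg_add, ← neg_smul, ← neg_smul]
          congr 2 <;> ring
        rw [h7]
        exact Submodule.add_mem _ (Submodule.smul_mem _ _ (Submodule.subset_span (Or.inr (by simp))))
          (Submodule.smul_mem _ _ (Submodule.subset_span (Or.inr (by simp))))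
    · -- v is not in the span of A and R A
      intro hmem
      apply hc
      refine (Submodule.span_le.mpr ?_) hmem
      rintro x ⟨i, ⟨hi1, hi2⟩, rfl⟩
      rcases i with i | i
      · have hiA : (i : ι) ∈ A := by
          rcases (hmemB i).mp i.2 with h | h
          · exact h
          · exfalso
            apply hi2
            congr 1
            exact Subtype.ext h
        exact Submodule.subset_span (Or.inl ⟨i, hiA, rfl⟩)
      · have hiA : (i : ι) ∈ A := by
          rcases (hmemB i).mp i.2 with h | h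
          · exact h
          · exfalso
            apply hi1
            have : i = ⟨i0, hi0B⟩ := Subtype.ext h
            rw [this]
            simp
        show ((R τ • v i : Sph d) : E d) ∈ _
        rw [coe_smul_sph, hR]
        exact Submodule.add_mem _ (Submodule.add_mem _
          (Submodule.subset_span (Or.inl ⟨i, hiA, rfl⟩))
          (Submodule.smul_mem _ _ (Submodule.subset_span (Or.inr (by simp)))))
          (Submodule.smul_mem _ _ (Submodule.subset_span (Or.inr (by simp))))
    · have e : (fun i => (dbl v B (R τ) i : E d)) ''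
          (({Sum.inr ⟨i0, hi0B⟩} : Finset ({i // i ∉ B} ⊕ {i // i ∉ B})) : Set _) = {act (R τ) (v i0)} := by
        simp [dbl]
      rw [e]
      have h1 := finrank_span_le_card (R := ℝ) ({act (R τ) (v i0)} : Set (E d))
      rw [Set.toFinset_singleton, Finset.card_singleton] at h1
      omega
  · -- second alternative: the classes A and R (A, v)
    refine ctrl_step v i0 B hi0B R hRc hadd hper hRB ?_
    set U : Submodule ℝ (E d) := Submodule.span ℝ (insert (v i0 : E d) (V '' (A : Set ι))) with hU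
    have hlt : ∃ f : E d →ₗ[ℝ] ℝ, (f a ≠ 0 ∨ f b ≠ 0) ∧ ∀ x ∈ U, f x = 0 := by
      by_cases haU : a ∈ U
      · have hbU : b ∉ U := fun h => hc2 ⟨haU, h⟩
        obtain ⟨f, hf1, hf2⟩ := Submodule.exists_le_ker_of_notMem hbU
        exact ⟨f, Or.inr hf1, fun x hx => by simpa using hf2 hx⟩
      · obtain ⟨f, hf1, hf2⟩ := Submodule.exists_le_ker_of_notMem haU
        exact ⟨f, Or.inl hf1, fun x hx => by simpa using hf2 hx⟩
    obtain ⟨f, hf1, hf2⟩ := hlt
    have hvU : (v i0 : E d) ∈ U := Submodule.subset_span (Or.inl rfl)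
    set bad : Set ℝ := {τ | τ ∈ Ioo 0 (2 * Real.pi) ∧ act (R (-τ)) (v i0 : E d) ∈ U} with hbad
    have hsub : bad.Subsingleton := by
      rintro τ₁ ⟨h1, h1'⟩ τ₂ ⟨h2, h2'⟩
      have k : ∀ τ, act (R (-τ)) (v i0 : E d) ∈ U →
          ((Real.cos τ - 1) * p + Real.sin τ * q) * f a + (-(Real.sin τ) * p + (Real.cos τ - 1) * q) * f b = 0 := by
        intro τ hτ
        have := hf2 _ hτ
        rw [hinv, map_add, map_add, hf2 _ hvU, map_smul, map_smul, smul_eq_mul, smul_eq_mul, zero_add] at this
        exact this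
      exact Pls.chord_unique h1 h2 hpq hf1 (k τ₁ h1') (k τ₂ h2')
    have hnull : ∀ᵐ τ ∂(volume.restrict (Ioc 0 (2 * Real.pi))), τ ∉ bad := by
      refine ae_restrict_of_ae ?_
      rw [ae_iff]
      simpa using hsub.measure_zero volume
    have hae : ∀ᵐ τ ∂(volume.restrict (Ioc 0 (2 * Real.pi))), τ ∈ Ioo 0 (2 * Real.pi) := by
      have h1 : ∀ᵐ τ ∂(volume.restrict (Ioc 0 (2 * Real.pi))), τ ∈ Ioc 0 (2 * Real.pi) :=
        ae_restrict_mem measurableSet_Ioc
      have h2 : ∀ᵐ τ ∂(volume.restrict (Ioc 0 (2 * Real.pi))), τ ≠ 2 * Real.pi :=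
        ae_restrict_of_ae (Measure.ae_ne volume _)
      filter_upwards [h1, h2] with τ h1 h2
      exact ⟨h1.1, lt_of_le_of_ne h1.2 h2⟩
    filter_upwards [hae, hnull] with τ hτ hτb
    have himgA : (fun i => (dbl v B (R τ) i : E d)) ''
        ((Finset.univ.filter fun j : {i // i ∉ B} ⊕ {i // i ∉ B} =>
          ∃ i : {i // i ∉ B}, j = Sum.inl i ∧ (i : ι) ∈ A : Finset _) : Set _) ⊆ V '' (A : Set ι) := by
      rintro x ⟨j, hj, rfl⟩
      have hj' : ∃ i : {i // i ∉ B}, j = Sum.inl i ∧ (i : ι) ∈ A := by simpa using hj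
      obtain ⟨i, rfl, hi⟩ := hj'
      exact ⟨i, hi, rfl⟩
    refine hbase _ _ _ ⟨Finset.univ.filter fun j => ∃ i : {i // i ∉ B}, j = Sum.inl i ∧ (i : ι) ∈ A,
      e0, ?_, he0, hperp τ, ?_, ?_, ?_⟩
    · intro hmem
      simp only [Finset.mem_filter, Finset.mem_univ, true_and] at hmem
      obtain ⟨i, hi1, hi2⟩ := hmem
      have h9 : (⟨i0, hi0B⟩ : {i // i ∉ B}) = i := Sum.inl_injective hi1
      rw [← h9] at hi2
      exact hA hi2
    · intro hmem
      exact hc1 (Submodule.span_mono himgA hmem)
    · intro hmem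
      apply hτb
      refine ⟨hτ, ?_⟩
      -- v in the span of R (A, v)
      have hmap : (v i0 : E d) ∈ Submodule.map ((Matrix.toEuclideanLin ((R τ : OG d) : Matrix (Fin (d + 1)) (Fin (d + 1)) ℝ))) U := by
        refine (Submodule.span_le.mpr ?_) hmem
        rintro x ⟨j, ⟨hj1, hj2⟩, rfl⟩
        rcases j with i | i
        · exfalso
          rcases (hmemB i).mp i.2 with h | h
          · apply hj1
            simp only [Finset.mem_filter, Finset.mem_univ, true_and]
            exact ⟨i, rfl, h⟩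
          · apply hj2
            congr 1
            exact Subtype.ext h
        · refine ⟨(v i : E d), ?_, rfl⟩
          rcases (hmemB i).mp i.2 with h | h
          · exact Submodule.subset_span (Or.inr ⟨i, h, rfl⟩)
          · rw [h]; exact hvU
      obtain ⟨x, hx, hxv⟩ := hmap
      have hxv' : act (R τ) x = (v i0 : E d) := hxv
      rw [← hxv', hRneg]
      exact hx
    · -- dimension of the span of A
      have hle : Module.finrank ℝ (Submodule.span ℝ ((fun i => (dbl v B (R τ) i : E d)) ''
        ((Finset.univ.filter fun j : {i // i ∉ B} ⊕ {i // i ∉ B} =>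
          ∃ i : {i // i ∉ B}, j = Sum.inl i ∧ (i : ι) ∈ A : Finset _) : Set _))) ≤
          Module.finrank ℝ (Submodule.span ℝ (V '' (A : Set ι))) :=
        Submodule.finrank_mono (Submodule.span_mono himgA)
      have hlt1 : Submodule.span ℝ (V '' (A : Set ι)) < U := by
        refine lt_of_le_of_ne (Submodule.span_mono (Set.subset_insert _ _)) fun h => hc1 ?_
        rw [h]; exact hvU
      have hlt2 : U < W := by
        refine lt_of_le_of_ne (Submodule.span_mono Set.subset_union_left) fun h => hc2 ⟨?_, ?_⟩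
        · rw [h]; exact haW
        · rw [h]; exact hbW
      have f1 := Submodule.finrank_lt_finrank_of_lt hlt1
      have f2 := Submodule.finrank_lt_finrank_of_lt hlt2
      have f3 : Module.finrank ℝ W ≤ d := hdim
      omega

end SPH
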