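import Pool.Agent.SPH.Plus
import Pool.Agent.SPH.RemGen

/-! Project SPH: subfamilies, and the passage between the two forms of control. -/

open MeasureTheory Set Metric Filter
open scoped ENNReal NNReal Topology

universe u

noncomputable section
namespace SPH

/-- control passes to subfamilies -/
theorem ctrlAt_comp {d : ℕ} {ι κ : Type*} [Fintype ι] [Fintype κ] (v : ι → Sph d) (a : κ → ι)
    (ha : Function.Injective a) (k0 : κ) (h : CtrlAt v (a k0)) : CtrlAt (fun k => v (a k)) k0 := by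
  classical
  intro c hc
  obtain ⟨ε, hε, H⟩ := h c hc
  refine ⟨ε, hε, fun φ hφ hφ1 hs => ?_⟩
  set Φ : ι → Sph d → ℝ := Function.extend a φ (fun _ _ => 1) with hΦ
  have hΦa : ∀ k, Φ (a k) = φ k := fun k => ha.extend_apply φ _ k
  have hΦn : ∀ i, i ∉ range a → Φ i = fun _ => 1 := by
    intro i hi
    rw [hΦ, Function.extend_apply' _ _ _ (fun ⟨k, hk⟩ => hi ⟨k, hk⟩)]
  have e : form v Φ = form (fun k => v (a k)) φ := by
    unfold form
    refine integral_congr_ae (Eventually.of_forall fun T => ?_)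
    refine (Fintype.prod_of_injective a ha (fun k => φ k (T • v (a k))) (fun i => Φ i (T • v i))
      (fun i hi => ?_) (fun k => ?_)).symm
    · show Φ i (T • v i) = 1
      rw [hΦn i hi]
    · show φ k (T • v (a k)) = Φ (a k) (T • v (a k))
      rw [hΦa]
  rw [← e]
  refine H Φ (fun i => ?_) (fun i x => ?_) ?_
  · by_cases hi : i ∈ range a
    · obtain ⟨k, rfl⟩ := hi
      rw [hΦa]; exact hφ k
    · rw [hΦn i hi]; exact measurable_const
  · by_cases hi : i ∈ range a
    · obtain ⟨k, rfl⟩ := hi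
      rw [hΦa]; exact hφ1 k x
    · rw [hΦn i hi]; simp
  · rw [hΦa]; exact hs

theorem form_update {d : ℕ} {ι : Type*} [Fintype ι] [DecidableEq ι] (v : ι → Sph d) (i0 : ι)
    (g : Sph d → ℝ) (f : ι → Sph d → ℝ) :
    form v (Function.update f i0 g) =
      ∫ T : OG d, g (T • v i0) * ∏ i ∈ Finset.univ.erase i0, f i (T • v i) ∂(mu d) := by
  unfold form
  refine integral_congr_ae (Eventually.of_forall fun T => ?_)
  show ∏ i, Function.update f i0 g i (T • v i) = _
  rw [← Finset.mul_prod_erase Finset.univ _ (Finset.mem_univ i0), Function.update_self]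
  congr 1
  refine Finset.prod_congr rfl fun i hi => ?_
  rw [Function.update_of_ne (Finset.ne_of_mem_erase hi)]

/-- control at all vertices in the form used by the removal argument -/
theorem controlled_of_ctrlAt {d : ℕ} {ι : Type u} [Fintype ι] [DecidableEq ι] (v : ι → Sph d)
    (h : ∀ i0, CtrlAt v i0) : Controlled v := by
  intro i0 κ hκ
  obtain ⟨ε, hε, H⟩ := h i0 κ hκ
  refine ⟨ε, hε, fun g f hg hg1 hf hf1 hs => ?_⟩
  rw [← form_update]
  refine H (Function.update f i0 g) (fun i => ?_) (fun i x => ?_) ?_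
  · by_cases hi : i = i0
    · subst hi; rw [Function.update_self]; exact hg
    · rw [Function.update_of_ne hi]; exact hf i
  · by_cases hi : i = i0
    · subst hi; rw [Function.update_self]; exact hg1 x
    · rw [Function.update_of_ne hi]; exact hf1 i x
  · rw [Function.update_self]; exact hs

/-- the conclusion of Theorem U at a vertex gives the control at that vertex -/
theorem ctrlAt_of_U {d : ℕ} {ι : Type*} [Fintype ι] [DecidableEq ι] (v : ι → Sph d) (i0 : ι)
    (h : ∀ κ : ℝ, 0 < κ → ∃ ε : ℝ, 0 < ε ∧ ∀ (g : Sph d → ℝ) (f : ι → Sph d → ℝ),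
      Measurable g → (∀ x, |g x| ≤ 1) → (∀ i, Measurable (f i)) → (∀ i x, |f i x| ≤ 1) →
      (∀ ξ : E d, ‖∫ x : Sph d, ((g x : ℝ) : ℂ) * ee (-(inner ℝ ξ (x : E d))) ∂(sig d)‖ ≤ ε) →
      |∫ T : OG d, g (T • v i0) * ∏ i ∈ Finset.univ.erase i0, f i (T • v i) ∂(mu d)| ≤ κ) :
    CtrlAt v i0 := by
  intro κ hκ
  obtain ⟨ε, hε, H⟩ := h κ hκ
  refine ⟨ε, hε, fun φ hφ hφ1 hs => ?_⟩
  have h1 := H (φ i0) φ (hφ i0) (hφ1 i0) hφ hφ1 hs
  rw [← form_update, Function.update_eq_self] at h1
  exact h1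

/-- splitting plus a great sphere gives the base condition -/
theorem baseCond_of_split {d : ℕ} {ι : Type*} (v : ι → Sph d) (e0 : E d) (he0 : ‖e0‖ = 1)
    (hev : ∀ i, inner ℝ e0 (v i : E d) = 0) (hs : Split v) (i0 : ι) : BaseCond v i0 := by
  obtain ⟨A, h0, h1, h2, h3⟩ := hs i0
  exact ⟨A, e0, h0, he0, hev, h1, h2, h3⟩

end SPH
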