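import Mathlib

/-! Project SPH (MP_f7e9f1_co), part of row UTHM: from monomial weights to arbitrary integrable weights
(Stone-Weierstrass and density of continuous functions). -/

open MeasureTheory Set Metric Filter
open scoped ENNReal NNReal Topology

noncomputable section
namespace SPH

/-- the square -/
def sqK : Set (ℝ × ℝ) := Icc (-1 : ℝ) 1 ×ˢ Icc (-1 : ℝ) 1

theorem isCompact_sqK : IsCompact sqK := isCompact_Icc.prod isCompact_Icc

theorem measurableSet_sqK : MeasurableSet sqK := isCompact_sqK.isClosed.measurableSet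

instance instCompactSpaceSqK : CompactSpace sqK := isCompact_iff_compactSpace.mp isCompact_sqK

/-- weights for which the average is small -/
def SmallW {G : Type*} (μ : Measure (ℝ × ℝ)) (J : G → ℝ × ℝ → ℂ) (P : ℝ → G → Prop)
    (h : ℝ × ℝ → ℝ) : Prop :=
  ∀ η : ℝ, 0 < η → ∃ ε : ℝ, 0 < ε ∧ ∀ g : G, P ε g → ‖∫ p, (h p : ℂ) * J g p ∂μ‖ ≤ η

theorem SmallW.add {G : Type*} {μ : Measure (ℝ × ℝ)} {J : G → ℝ × ℝ → ℂ} {P : ℝ → G → Prop}
    (hP : ∀ ε ε' g, ε ≤ ε' → P ε g → P ε' g)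
    (hJm : ∀ g, Measurable (J g)) (hJ1 : ∀ g p, ‖J g p‖ ≤ 1)
    {h1 h2 : ℝ × ℝ → ℝ} (i1 : Integrable h1 μ) (i2 : Integrable h2 μ)
    (s1 : SmallW μ J P h1) (s2 : SmallW μ J P h2) : SmallW μ J P (fun p => h1 p + h2 p) := by
  intro η hη
  obtain ⟨ε1, he1, H1⟩ := s1 (η / 2) (by linarith)
  obtain ⟨ε2, he2, H2⟩ := s2 (η / 2) (by linarith)
  refine ⟨min ε1 ε2, lt_min he1 he2, fun g hg => ?_⟩
  have a1 := H1 g (hP _ _ _ (min_le_left _ _) hg)
  have a2 := H2 g (hP _ _ _ (min_le_right _ _) hg)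
  have j : ∀ h : ℝ × ℝ → ℝ, Integrable h μ → Integrable (fun p => (h p : ℂ) * J g p) μ := by
    intro h hh
    refine Integrable.mul_bdd (c := 1) hh.ofReal (hJm g).aestronglyMeasurable
      (Filter.Eventually.of_forall fun p => hJ1 g p)
  have e : ∫ p, ((h1 p + h2 p : ℝ) : ℂ) * J g p ∂μ =
      ∫ p, (h1 p : ℂ) * J g p ∂μ + ∫ p, (h2 p : ℂ) * J g p ∂μ := by
    rw [← integral_add (j h1 i1) (j h2 i2)]
    refine integral_congr_ae (Filter.Eventually.of_forall fun p => ?_)
    push_cast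
    ring
  rw [e]
  calc ‖_ + _‖ ≤ ‖∫ p, (h1 p : ℂ) * J g p ∂μ‖ + ‖∫ p, (h2 p : ℂ) * J g p ∂μ‖ := norm_add_le _ _
    _ ≤ η := by linarith

theorem SmallW.const_mul {G : Type*} {μ : Measure (ℝ × ℝ)} {J : G → ℝ × ℝ → ℂ} {P : ℝ → G → Prop}
    {h : ℝ × ℝ → ℝ} (c : ℝ) (s : SmallW μ J P h) : SmallW μ J P (fun p => c * h p) := by
  intro η hη
  have hc : 0 < |c| + 1 := by positivity
  obtain ⟨ε, he, H⟩ := s (η / (|c| + 1)) (by positivity)
  refine ⟨ε, he, fun g hg => ?_⟩
  have e : ∫ p, ((c * h p : ℝ) : ℂ) * J g p ∂μ = (c : ℂ) * ∫ p, (h p : ℂ) * J g p ∂μ := by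
    rw [← integral_const_mul]
    refine integral_congr_ae (Filter.Eventually.of_forall fun p => ?_)
    push_cast
    ring
  rw [e, norm_mul, Complex.norm_real, Real.norm_eq_abs]
  calc |c| * ‖∫ p, (h p : ℂ) * J g p ∂μ‖ ≤ (|c| + 1) * (η / (|c| + 1)) :=
        mul_le_mul (by linarith) (H g hg) (norm_nonneg _) hc.le
    _ = η := by field_simp

theorem SmallW.of_approx {G : Type*} {μ : Measure (ℝ × ℝ)} {J : G → ℝ × ℝ → ℂ} {P : ℝ → G → Prop}
    (hJm : ∀ g, Measurable (J g)) (hJ1 : ∀ g p, ‖J g p‖ ≤ 1)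
    {h : ℝ × ℝ → ℝ} (ih : Integrable h μ)
    (H : ∀ η : ℝ, 0 < η → ∃ h' : ℝ × ℝ → ℝ, Integrable h' μ ∧ SmallW μ J P h' ∧
      ∫ p, |h p - h' p| ∂μ ≤ η) : SmallW μ J P h := by
  intro η hη
  obtain ⟨h', ih', hs, hle⟩ := H (η / 2) (by linarith)
  obtain ⟨ε, he, H'⟩ := hs (η / 2) (by linarith)
  refine ⟨ε, he, fun g hg => ?_⟩
  have j : ∀ h : ℝ × ℝ → ℝ, Integrable h μ → Integrable (fun p => (h p : ℂ) * J g p) μ := by
    intro h hh
    refine Integrable.mul_bdd (c := 1) hh.ofReal (hJm g).aestronglyMeasurable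
      (Filter.Eventually.of_forall fun p => hJ1 g p)
  have e : ∫ p, (h p : ℂ) * J g p ∂μ =
      ∫ p, ((h p - h' p : ℝ) : ℂ) * J g p ∂μ + ∫ p, (h' p : ℂ) * J g p ∂μ := by
    rw [← integral_add (j (fun p => h p - h' p) (ih.sub ih')) (j h' ih')]
    refine integral_congr_ae (Filter.Eventually.of_forall fun p => ?_)
    push_cast
    ring
  have b : ‖∫ p, ((h p - h' p : ℝ) : ℂ) * J g p ∂μ‖ ≤ ∫ p, |h p - h' p| ∂μ := by
    refine (norm_integral_le_integral_norm _).trans ?_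
    refine integral_mono_of_nonneg (Filter.Eventually.of_forall fun p => norm_nonneg _)
      (ih.sub ih').abs (Filter.Eventually.of_forall fun p => ?_)
    show ‖((h p - h' p : ℝ) : ℂ) * J g p‖ ≤ |h p - h' p|
    rw [norm_mul, Complex.norm_real, Real.norm_eq_abs]
    calc |h p - h' p| * ‖J g p‖ ≤ |h p - h' p| * 1 :=
          mul_le_mul_of_nonneg_left (hJ1 g p) (abs_nonneg _)
      _ = _ := mul_one _
  rw [e]
  calc ‖_ + _‖ ≤ ‖∫ p, ((h p - h' p : ℝ) : ℂ) * J g p ∂μ‖ + ‖∫ p, (h' p : ℂ) * J g p ∂μ‖ :=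
        norm_add_le _ _
    _ ≤ η := by have := H' g hg; linarith

/-- extension by zero of a continuous function on the square -/
def extK (u : C(sqK, ℝ)) (p : ℝ × ℝ) : ℝ :=
  open Classical in if hp : p ∈ sqK then u ⟨p, hp⟩ else 0

theorem measurable_extK (u : C(sqK, ℝ)) : Measurable (extK u) := by
  classical
  have : Measurable fun p : ℝ × ℝ => if hp : p ∈ sqK then (fun x : sqK => u x) ⟨p, hp⟩ else
      (fun _ : (sqKᶜ : Set (ℝ × ℝ)) => (0 : ℝ)) ⟨p, hp⟩ :=
    Measurable.dite u.continuous.measurable measurable_const measurableSet_sqK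
  exact this

theorem abs_extK_le (u : C(sqK, ℝ)) (p : ℝ × ℝ) : |extK u p| ≤ ‖u‖ := by
  classical
  unfold extK
  split_ifs with hp
  · exact u.norm_coe_le_norm _
  · simp

theorem integrable_extK (μ : Measure (ℝ × ℝ)) [IsFiniteMeasure μ] (u : C(sqK, ℝ)) :
    Integrable (extK u) μ :=
  Integrable.of_bound (measurable_extK u).aestronglyMeasurable ‖u‖
    (Filter.Eventually.of_forall fun p => by rw [Real.norm_eq_abs]; exact abs_extK_le u p)

/-- first coordinate -/
def fstK : C(sqK, ℝ) := ⟨fun p => (p : ℝ × ℝ).1, by fun_prop⟩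

/-- second coordinate -/
def sndK : C(sqK, ℝ) := ⟨fun p => (p : ℝ × ℝ).2, by fun_prop⟩

theorem smallW_of_monomials {G : Type*} (μ : Measure (ℝ × ℝ)) [IsFiniteMeasure μ]
    (hK : μ sqKᶜ = 0) (J : G → ℝ × ℝ → ℂ) (P : ℝ → G → Prop)
    (hP : ∀ ε ε' g, ε ≤ ε' → P ε g → P ε' g)
    (hJm : ∀ g, Measurable (J g)) (hJ1 : ∀ g p, ‖J g p‖ ≤ 1)
    (hmono : ∀ α β : ℕ, SmallW μ J P (fun p => p.1 ^ α * p.2 ^ β))
    (h : ℝ × ℝ → ℝ) (ih : Integrable h μ) : SmallW μ J P h := by
  classical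
  have hKae : ∀ᵐ p ∂μ, p ∈ sqK := by
    rw [ae_iff]
    exact hK
  -- polynomials on the square
  have hadj : ∀ u ∈ Algebra.adjoin ℝ ({fstK, sndK} : Set C(sqK, ℝ)), SmallW μ J P (extK u) := by
    intro u hu
    have hu' : u ∈ Submodule.span ℝ
        (Submonoid.closure ({fstK, sndK} : Set C(sqK, ℝ)) : Set C(sqK, ℝ)) := by
      rw [← Algebra.adjoin_eq_span]
      exact hu
    induction hu' using Submodule.span_induction with
    | mem x hx =>
      obtain ⟨α, β, rfl⟩ := (Submonoid.mem_closure_pair fstK sndK x).mp hx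
      intro η hη
      obtain ⟨ε, he, H⟩ := hmono α β η hη
      refine ⟨ε, he, fun g hg => ?_⟩
      have e : ∫ p, ((extK (fstK ^ α * sndK ^ β) p : ℝ) : ℂ) * J g p ∂μ =
          ∫ p, ((p.1 ^ α * p.2 ^ β : ℝ) : ℂ) * J g p ∂μ := by
        refine integral_congr_ae ?_
        filter_upwards [hKae] with p hp
        congr 2
        unfold extK
        rw [dif_pos hp]
        rfl
      rw [e]
      exact H g hg
    | zero =>
      intro η hη
      refine ⟨1, one_pos, fun g _ => ?_⟩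
      have e : ∀ p, extK (0 : C(sqK, ℝ)) p = 0 := by
        intro p
        unfold extK
        split_ifs <;> rfl
      simp only [e, Complex.ofReal_zero, zero_mul, integral_zero, norm_zero]
      exact hη.le
    | add x y hx hy sx sy =>
      have e : extK (x + y) = fun p => extK x p + extK y p := by
        funext p
        unfold extK
        split_ifs
        · rfl
        · simp
      rw [e]
      exact SmallW.add hP hJm hJ1 (integrable_extK μ x) (integrable_extK μ y)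
        (sx (by
          have : x ∈ (Subalgebra.toSubmodule (Algebra.adjoin ℝ ({fstK, sndK} : Set C(sqK, ℝ)))) := by
            rw [Algebra.adjoin_eq_span]; exact hx
          exact this))
        (sy (by
          have : y ∈ (Subalgebra.toSubmodule (Algebra.adjoin ℝ ({fstK, sndK} : Set C(sqK, ℝ)))) := by
            rw [Algebra.adjoin_eq_span]; exact hy
          exact this))
    | smul c x hx sx =>
      have e : extK (c • x) = fun p => c * extK x p := by
        funext p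
        unfold extK
        split_ifs
        · rfl
        · simp
      rw [e]
      exact SmallW.const_mul c (sx (by
          have : x ∈ (Subalgebra.toSubmodule (Algebra.adjoin ℝ ({fstK, sndK} : Set C(sqK, ℝ)))) := by
            rw [Algebra.adjoin_eq_span]; exact hx
          exact this))
  -- separation of points
  have hsep : (Algebra.adjoin ℝ ({fstK, sndK} : Set C(sqK, ℝ))).SeparatesPoints := by
    intro x y hxy
    have hne : (x : ℝ × ℝ) ≠ y := fun h => hxy (Subtype.ext h)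
    by_cases h1 : (x : ℝ × ℝ).1 = (y : ℝ × ℝ).1
    · have h2 : (x : ℝ × ℝ).2 ≠ (y : ℝ × ℝ).2 := fun h2 => hne (Prod.ext h1 h2)
      exact ⟨sndK, ⟨sndK, Algebra.subset_adjoin (by simp), rfl⟩, h2⟩
    · exact ⟨fstK, ⟨fstK, Algebra.subset_adjoin (by simp), rfl⟩, h1⟩
  refine SmallW.of_approx hJm hJ1 ih fun η hη => ?_
  obtain ⟨φ, -, hφle, hφc, hφi⟩ := ih.exists_hasCompactSupport_integral_sub_le (ε := η / 2) (by linarith)
  set u : C(sqK, ℝ) := ⟨fun p => φ p, hφc.comp continuous_subtype_val⟩ with hu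
  have hμ : 0 < (μ univ).toReal + 1 := by positivity
  obtain ⟨w, hw⟩ := ContinuousMap.exists_mem_subalgebra_near_continuousMap_of_separatesPoints _ hsep u
    (η / (2 * ((μ univ).toReal + 1))) (by positivity)
  refine ⟨extK w, integrable_extK μ _, hadj _ w.2, ?_⟩
  have b1 : ∀ᵐ p ∂μ, |h p - extK w p| ≤ |h p - φ p| + η / (2 * ((μ univ).toReal + 1)) := by
    filter_upwards [hKae] with p hp
    have e1 : extK w p = (w : C(sqK, ℝ)) ⟨p, hp⟩ := by
      unfold extK
      rw [dif_pos hp]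
    have e2 : |(w : C(sqK, ℝ)) ⟨p, hp⟩ - φ p| ≤ η / (2 * ((μ univ).toReal + 1)) := by
      have := ((w : C(sqK, ℝ)) - u).norm_coe_le_norm ⟨p, hp⟩
      rw [Real.norm_eq_abs] at this
      exact this.trans hw.le
    rw [e1]
    calc |h p - (w : C(sqK, ℝ)) ⟨p, hp⟩| = |(h p - φ p) - ((w : C(sqK, ℝ)) ⟨p, hp⟩ - φ p)| := by
          congr 1; ring
      _ ≤ |h p - φ p| + |(w : C(sqK, ℝ)) ⟨p, hp⟩ - φ p| := abs_sub _ _
      _ ≤ _ := by linarith
  calc ∫ p, |h p - extK w p| ∂μ ≤ ∫ p, (|h p - φ p| + η / (2 * ((μ univ).toReal + 1))) ∂μ :=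
        integral_mono_ae (ih.sub (integrable_extK μ _)).abs
          ((ih.sub hφi).abs.add (integrable_const _)) b1
    _ = ∫ p, |h p - φ p| ∂μ + ∫ _p, (η / (2 * ((μ univ).toReal + 1))) ∂μ :=
        integral_add (ih.sub hφi).abs (integrable_const _)
    _ ≤ η / 2 + η / 2 := by
        refine add_le_add ?_ ?_
        · simpa [Real.norm_eq_abs] using hφle
        · rw [integral_const, smul_eq_mul, Measure.real]
          have h0 : 0 ≤ (μ univ).toReal := ENNReal.toReal_nonneg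
          rw [← mul_div_assoc, div_le_div_iff₀ (by positivity) (by positivity)]
          nlinarith
    _ = η := by ring

end SPH
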