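import Pool.Agent.SPH.TSInv
import Pool.Agent.SPH.Defs

/-! Project SPH (MP_f7e9f1_co), helper97: decay of the Fourier transform of the sphere measure,
by the ODE method (only the rotation invariance of `sig` is used). -/

open MeasureTheory Set Metric
open scoped ENNReal NNReal Topology Pointwise

noncomputable section
namespace SPH

theorem hasDerivAt_integral_sph {d : ℕ} (F F' : ℝ → Sph d → ℝ)
    (hF : ∀ r, Continuous (F r)) (hF' : Continuous fun p : ℝ × Sph d => F' p.1 p.2)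
    (h : ∀ r x, HasDerivAt (fun r => F r x) (F' r x) r) (r : ℝ) :
    HasDerivAt (fun r => ∫ x, F r x ∂(sig d)) (∫ x, F' r x ∂(sig d)) r := by
  have hK : IsCompact (Icc (r - 1) (r + 1) ×ˢ (univ : Set (Sph d))) :=
    isCompact_Icc.prod isCompact_univ
  obtain ⟨C, hC⟩ := hK.exists_bound_of_continuousOn (f := fun p : ℝ × Sph d => F' p.1 p.2)
    hF'.continuousOn
  refine (hasDerivAt_integral_of_dominated_loc_of_deriv_le (μ := sig d) (F := F) (F' := F')
    (bound := fun _ => C) (s := Icc (r - 1) (r + 1)) (Icc_mem_nhds (by linarith) (by linarith))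
    ?_ ?_ ?_ ?_ ?_ ?_).2
  · exact Filter.Eventually.of_forall fun r => (hF r).aestronglyMeasurable
  · exact (hF r).integrable_of_hasCompactSupport (HasCompactSupport.of_compactSpace _)
  · have h1 : Continuous (F' r) := hF'.comp (Continuous.prodMk_right r)
    exact h1.aestronglyMeasurable
  · refine Filter.Eventually.of_forall fun x s hs => ?_
    exact hC (s, x) ⟨hs, mem_univ _⟩
  · exact integrable_const _
  · exact Filter.Eventually.of_forall fun x s _ => h s x

theorem cont_coord {d : ℕ} (i : Fin (d + 1)) : Continuous fun x : Sph d => (x : E d) i :=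
  (EuclideanSpace.proj (𝕜 := ℝ) i).continuous.comp continuous_subtype_val

theorem abs_coord_le {d : ℕ} (x : Sph d) (i : Fin (d + 1)) : |(x : E d) i| ≤ 1 := by
  have h := PiLp.norm_apply_le (x : E d) i
  rwa [Real.norm_eq_abs, norm_coe_sph] at h

theorem sum_coord_sq {d : ℕ} (x : Sph d) : ∑ i, (x : E d) i ^ 2 = 1 := by
  have h := EuclideanSpace.norm_sq_eq (x : E d)
  rw [norm_coe_sph] at h
  simp only [Real.norm_eq_abs, sq_abs] at h
  linarith

theorem integrable_sph {d : ℕ} {F : Type*} [NormedAddCommGroup F] {f : Sph d → F}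
    (hf : Continuous f) : Integrable f (sig d) :=
  hf.integrable_of_hasCompactSupport (HasCompactSupport.of_compactSpace _)

/-- int cos (2 pi r x0) -/
def m0 (d : ℕ) (r : ℝ) : ℝ := ∫ x : Sph d, Real.cos (2 * Real.pi * r * (x : E d) 0) ∂(sig d)

/-- int x0 sin (2 pi r x0) -/
def m1 (d : ℕ) (r : ℝ) : ℝ :=
  ∫ x : Sph d, (x : E d) 0 * Real.sin (2 * Real.pi * r * (x : E d) 0) ∂(sig d)

/-- int x0^2 cos (2 pi r x0) -/
def m2 (d : ℕ) (r : ℝ) : ℝ :=
  ∫ x : Sph d, (x : E d) 0 ^ 2 * Real.cos (2 * Real.pi * r * (x : E d) 0) ∂(sig d)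

theorem hasDerivAt_m0 (d : ℕ) (r : ℝ) : HasDerivAt (m0 d) (-(2 * Real.pi * m1 d r)) r := by
  have h := hasDerivAt_integral_sph (d := d)
    (fun r x => Real.cos (2 * Real.pi * r * (x : E d) 0))
    (fun r x => -(2 * Real.pi * ((x : E d) 0 * Real.sin (2 * Real.pi * r * (x : E d) 0))))
    (fun r => Real.continuous_cos.comp (continuous_const.mul (cont_coord 0))) ?_ ?_ r
  · rw [integral_neg, integral_const_mul] at h
    exact h
  · have h0 : Continuous fun p : ℝ × Sph d => (p.2 : E d) 0 := (cont_coord 0).comp continuous_snd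
    fun_prop
  · intro r x
    have h1 : HasDerivAt (fun r : ℝ => 2 * Real.pi * r * (x : E d) 0) (2 * Real.pi * (x : E d) 0) r := by
      have := ((hasDerivAt_id r).const_mul (2 * Real.pi)).mul_const ((x : E d) 0)
      simpa using this
    have h2 := h1.cos
    refine h2.congr_deriv ?_
    ring

theorem hasDerivAt_m1 (d : ℕ) (r : ℝ) : HasDerivAt (m1 d) (2 * Real.pi * m2 d r) r := by
  have h := hasDerivAt_integral_sph (d := d)
    (fun r x => (x : E d) 0 * Real.sin (2 * Real.pi * r * (x : E d) 0))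
    (fun r x => 2 * Real.pi * ((x : E d) 0 ^ 2 * Real.cos (2 * Real.pi * r * (x : E d) 0)))
    (fun r => (cont_coord 0).mul
      (Real.continuous_sin.comp (continuous_const.mul (cont_coord 0)))) ?_ ?_ r
  · rw [integral_const_mul] at h
    exact h
  · have h0 : Continuous fun p : ℝ × Sph d => (p.2 : E d) 0 := (cont_coord 0).comp continuous_snd
    fun_prop
  · intro r x
    have h1 : HasDerivAt (fun r : ℝ => 2 * Real.pi * r * (x : E d) 0) (2 * Real.pi * (x : E d) 0) r := by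
      have := ((hasDerivAt_id r).const_mul (2 * Real.pi)).mul_const ((x : E d) 0)
      simpa using this
    have h2 := (h1.sin).const_mul ((x : E d) 0)
    refine h2.congr_deriv ?_
    ring

/-- the rotation identity -/
theorem rot_identity {d : ℕ} (r : ℝ) (j : Fin (d + 1)) (hj : j ≠ 0) :
    2 * Real.pi * r * ∫ x : Sph d, (x : E d) j ^ 2 * Real.cos (2 * Real.pi * r * (x : E d) 0) ∂(sig d)
      = m1 d r := by
  -- rotations in the plane (0, j)
  have hrot : ∀ θ : ℝ, ∃ T : OG d, (∀ x : E d, (act T x) 0 = Real.cos θ * x 0 - Real.sin θ * x j) ∧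
      (∀ x : E d, (act T x) j = Real.sin θ * x 0 + Real.cos θ * x j) := by
    intro θ
    have h0 : ‖(EuclideanSpace.single (0 : Fin (d + 1)) (1 : ℝ) : E d)‖ = 1 := by simp
    have h1 : ‖(EuclideanSpace.single j (1 : ℝ) : E d)‖ = 1 := by simp
    have h2 : inner ℝ (EuclideanSpace.single (0 : Fin (d + 1)) (1 : ℝ) : E d)
        (EuclideanSpace.single j (1 : ℝ) : E d) = 0 := by
      rw [EuclideanSpace.inner_single_left]
      simp [hj.symm]
    obtain ⟨T, hT⟩ := exists_rot_cs (d := d) h0 h1 h2 (Real.cos θ) (Real.sin θ)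
      (Real.cos_sq_add_sin_sq θ)
    have e1 : ∀ x : E d, inner ℝ (EuclideanSpace.single (0 : Fin (d + 1)) (1 : ℝ) : E d) x = x 0 := by
      intro x
      rw [EuclideanSpace.inner_single_left]
      simp
    have e2 : ∀ x : E d, inner ℝ (EuclideanSpace.single j (1 : ℝ) : E d) x = x j := by
      intro x
      rw [EuclideanSpace.inner_single_left]
      simp
    refine ⟨T, fun x => ?_, fun x => ?_⟩
    · rw [hT, e1, e2]
      simp [hj.symm]
      ring
    · rw [hT, e1, e2]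
      simp [hj]
      ring
  -- the function of the angle
  have hconst : ∀ θ : ℝ, ∫ x : Sph d, (Real.sin θ * (x : E d) 0 + Real.cos θ * (x : E d) j) *
      Real.sin (2 * Real.pi * r * (Real.cos θ * (x : E d) 0 - Real.sin θ * (x : E d) j)) ∂(sig d) =
      ∫ x : Sph d, (x : E d) j * Real.sin (2 * Real.pi * r * (x : E d) 0) ∂(sig d) := by
    intro θ
    obtain ⟨T, hT0, hTj⟩ := hrot θ
    rw [← integral_act_sph T (fun y : E d => y j * Real.sin (2 * Real.pi * r * y 0))]
    simp only [hT0, hTj]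
  have hd := hasDerivAt_integral_sph (d := d)
    (fun θ x => (Real.sin θ * (x : E d) 0 + Real.cos θ * (x : E d) j) *
      Real.sin (2 * Real.pi * r * (Real.cos θ * (x : E d) 0 - Real.sin θ * (x : E d) j)))
    (fun θ x => (Real.cos θ * (x : E d) 0 - Real.sin θ * (x : E d) j) *
        Real.sin (2 * Real.pi * r * (Real.cos θ * (x : E d) 0 - Real.sin θ * (x : E d) j)) +
      (Real.sin θ * (x : E d) 0 + Real.cos θ * (x : E d) j) *
        (Real.cos (2 * Real.pi * r * (Real.cos θ * (x : E d) 0 - Real.sin θ * (x : E d) j)) *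
          (2 * Real.pi * r * (-Real.sin θ * (x : E d) 0 - Real.cos θ * (x : E d) j))))
    ?_ ?_ ?_ 0
  · have hd2 : HasDerivAt (fun θ : ℝ => ∫ x : Sph d,
        (Real.sin θ * (x : E d) 0 + Real.cos θ * (x : E d) j) *
        Real.sin (2 * Real.pi * r * (Real.cos θ * (x : E d) 0 - Real.sin θ * (x : E d) j)) ∂(sig d))
        0 0 := by
      have : (fun θ : ℝ => ∫ x : Sph d,
        (Real.sin θ * (x : E d) 0 + Real.cos θ * (x : E d) j) *
        Real.sin (2 * Real.pi * r * (Real.cos θ * (x : E d) 0 - Real.sin θ * (x : E d) j)) ∂(sig d)) =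
        fun _ => ∫ x : Sph d, (x : E d) j * Real.sin (2 * Real.pi * r * (x : E d) 0) ∂(sig d) := by
        funext θ
        exact hconst θ
      rw [this]
      exact hasDerivAt_const _ _
    have h3 := hd.unique hd2
    simp only [Real.sin_zero, Real.cos_zero, one_mul, zero_mul, sub_zero, zero_add, neg_zero,
      zero_sub] at h3
    have hc0 : Continuous fun x : Sph d => (x : E d) 0 := cont_coord 0
    have hcj : Continuous fun x : Sph d => (x : E d) j := cont_coord j
    have h4 : ∫ x : Sph d, ((x : E d) 0 * Real.sin (2 * Real.pi * r * (x : E d) 0) +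
        (x : E d) j * (Real.cos (2 * Real.pi * r * (x : E d) 0) *
          (2 * Real.pi * r * (-(x : E d) j)))) ∂(sig d) =
        m1 d r - 2 * Real.pi * r *
        ∫ x : Sph d, (x : E d) j ^ 2 * Real.cos (2 * Real.pi * r * (x : E d) 0) ∂(sig d) := by
      unfold m1
      rw [← integral_const_mul, ← integral_sub]
      · refine integral_congr_ae (Filter.Eventually.of_forall fun x => ?_)
        show _ = _
        ring
      · exact integrable_sph (by fun_prop)
      · exact integrable_sph (by fun_prop)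
    rw [h4] at h3
    linarith
  · intro θ
    have hc0 : Continuous fun x : Sph d => (x : E d) 0 := cont_coord 0
    have hcj : Continuous fun x : Sph d => (x : E d) j := cont_coord j
    fun_prop
  · have h0 : Continuous fun p : ℝ × Sph d => (p.2 : E d) 0 := (cont_coord 0).comp continuous_snd
    have hj : Continuous fun p : ℝ × Sph d => (p.2 : E d) j := (cont_coord j).comp continuous_snd
    fun_prop
  · intro θ x
    have hs : HasDerivAt Real.sin (Real.cos θ) θ := Real.hasDerivAt_sin θ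
    have hc : HasDerivAt Real.cos (-Real.sin θ) θ := Real.hasDerivAt_cos θ
    have h1 : HasDerivAt (fun θ => Real.sin θ * (x : E d) 0 + Real.cos θ * (x : E d) j)
        (Real.cos θ * (x : E d) 0 + (-Real.sin θ) * (x : E d) j) θ :=
      (hs.mul_const _).add (hc.mul_const _)
    have h2 : HasDerivAt (fun θ => 2 * Real.pi * r *
        (Real.cos θ * (x : E d) 0 - Real.sin θ * (x : E d) j))
        (2 * Real.pi * r * ((-Real.sin θ) * (x : E d) 0 - Real.cos θ * (x : E d) j)) θ :=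
      ((hc.mul_const _).sub (hs.mul_const _)).const_mul _
    refine (h1.mul h2.sin).congr_deriv ?_
    ring

/-- the ODE -/
theorem m_ode {d : ℕ} (r : ℝ) : 2 * Real.pi * r * (m0 d r - m2 d r) = d * m1 d r := by
  have hc : ∀ j : Fin (d + 1), Continuous fun x : Sph d => (x : E d) j := fun j => cont_coord j
  have hc0 := hc 0
  have h1 : m0 d r - m2 d r = ∑ j ∈ Finset.univ.erase (0 : Fin (d + 1)),
      ∫ x : Sph d, (x : E d) j ^ 2 * Real.cos (2 * Real.pi * r * (x : E d) 0) ∂(sig d) := by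
    unfold m0 m2
    rw [← integral_sub, ← integral_finsetSum]
    · refine integral_congr_ae (Filter.Eventually.of_forall fun x => ?_)
      show Real.cos (2 * Real.pi * r * (x : E d) 0) -
        (x : E d) 0 ^ 2 * Real.cos (2 * Real.pi * r * (x : E d) 0) =
        ∑ i ∈ Finset.univ.erase (0 : Fin (d + 1)),
          (x : E d) i ^ 2 * Real.cos (2 * Real.pi * r * (x : E d) 0)
      rw [← Finset.sum_mul]
      have h := sum_coord_sq x
      rw [← Finset.add_sum_erase _ _ (Finset.mem_univ (0 : Fin (d + 1)))] at h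
      have h' : ∑ j ∈ Finset.univ.erase (0 : Fin (d + 1)), (x : E d) j ^ 2 = 1 - (x : E d) 0 ^ 2 := by
        linarith
      rw [h']
      ring
    · intro j _
      have := hc j
      exact integrable_sph (by fun_prop)
    · exact integrable_sph (by fun_prop)
    · exact integrable_sph (by fun_prop)
  rw [h1, Finset.mul_sum, Finset.sum_congr rfl (fun j hj => rot_identity r j (Finset.ne_of_mem_erase hj))]
  rw [Finset.sum_const, Finset.card_erase_of_mem (Finset.mem_univ _)]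
  simp

theorem hasDerivAt_m1' (d : ℕ) {r : ℝ} (hr : r ≠ 0) :
    HasDerivAt (m1 d) (2 * Real.pi * m0 d r - d / r * m1 d r) r := by
  refine (hasDerivAt_m1 d r).congr_deriv ?_
  have h := m_ode (d := d) r
  have h2 : (d : ℝ) / r * m1 d r = (d * m1 d r) / r := by ring
  rw [h2, ← h]
  field_simp
  ring

theorem abs_m0_le (d : ℕ) (r : ℝ) : |m0 d r| ≤ 1 := by
  unfold m0
  have h := norm_integral_le_of_norm_le_const (μ := sig d) (C := 1)
    (f := fun x : Sph d => Real.cos (2 * Real.pi * r * (x : E d) 0))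
    (Filter.Eventually.of_forall fun x => by
      rw [Real.norm_eq_abs]; exact Real.abs_cos_le_one _)
  simpa using h

theorem abs_m1_le (d : ℕ) (r : ℝ) : |m1 d r| ≤ 1 := by
  unfold m1
  have h := norm_integral_le_of_norm_le_const (μ := sig d) (C := 1)
    (f := fun x : Sph d => (x : E d) 0 * Real.sin (2 * Real.pi * r * (x : E d) 0))
    (Filter.Eventually.of_forall fun x => by
      rw [Real.norm_eq_abs, abs_mul]
      have h1 := abs_coord_le x 0
      have h2 := Real.abs_sin_le_one (2 * Real.pi * r * (x : E d) 0)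
      calc _ ≤ (1 : ℝ) * 1 := mul_le_mul h1 h2 (abs_nonneg _) (by norm_num)
        _ = 1 := by norm_num)
  simpa using h

/-- the corrected energy -/
def HH (n : ℕ) (r : ℝ) : ℝ :=
  r ^ (n + 2) * (m0 (n + 2) r ^ 2 + m1 (n + 2) r ^ 2) -
    ((n : ℝ) + 2) / (2 * Real.pi) * (r ^ (n + 1) * (m0 (n + 2) r * m1 (n + 2) r))

theorem hasDerivAt_HH (n : ℕ) {r : ℝ} (hr : 0 < r) :
    HasDerivAt (HH n) (((n : ℝ) + 2) / (2 * Real.pi) * (r ^ n * (m0 (n + 2) r * m1 (n + 2) r))) r := by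
  have hA := hasDerivAt_m0 (n + 2) r
  have hB := hasDerivAt_m1' (n + 2) hr.ne'
  have h1 : HasDerivAt (fun r : ℝ => r ^ (n + 2)) (((n : ℝ) + 2) * r ^ (n + 1)) r := by
    have := hasDerivAt_pow (n + 2) r
    refine this.congr_deriv ?_
    push_cast
    simp
  have h2 : HasDerivAt (fun r : ℝ => r ^ (n + 1)) (((n : ℝ) + 1) * r ^ n) r := by
    have := hasDerivAt_pow (n + 1) r
    refine this.congr_deriv ?_
    push_cast
    simp
  have h3 := (h1.mul ((hA.pow 2).add (hB.pow 2))).sub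
    ((h2.mul (hA.mul hB)).const_mul (((n : ℝ) + 2) / (2 * Real.pi)))
  have hpi : Real.pi ≠ 0 := Real.pi_ne_zero
  refine h3.congr_deriv ?_
  push_cast
  simp only [Pi.add_apply, Pi.pow_apply, Pi.mul_apply]
  field_simp
  ring

theorem HH_ge (n : ℕ) {r : ℝ} (hr : (n : ℝ) + 2 ≤ r) :
    r ^ (n + 2) * (m0 (n + 2) r ^ 2 + m1 (n + 2) r ^ 2) / 2 ≤ HH n r := by
  unfold HH
  have hn : (0 : ℝ) ≤ n := Nat.cast_nonneg n
  have hr0 : 0 < r := by linarith
  have h1 : m0 (n + 2) r * m1 (n + 2) r ≤ (m0 (n + 2) r ^ 2 + m1 (n + 2) r ^ 2) / 2 := by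
    nlinarith [sq_nonneg (m0 (n + 2) r - m1 (n + 2) r)]
  have h2 : ((n : ℝ) + 2) / (2 * Real.pi) ≤ r := by
    rw [div_le_iff₀ (by positivity)]
    nlinarith [Real.pi_gt_three]
  have h3 : ((n : ℝ) + 2) / (2 * Real.pi) * (r ^ (n + 1) * (m0 (n + 2) r * m1 (n + 2) r)) ≤
      r * (r ^ (n + 1) * ((m0 (n + 2) r ^ 2 + m1 (n + 2) r ^ 2) / 2)) := by
    have h4 : (0 : ℝ) ≤ r ^ (n + 1) * ((m0 (n + 2) r ^ 2 + m1 (n + 2) r ^ 2) / 2) := by positivity
    calc _ ≤ ((n : ℝ) + 2) / (2 * Real.pi) *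
          (r ^ (n + 1) * ((m0 (n + 2) r ^ 2 + m1 (n + 2) r ^ 2) / 2)) := by
          refine mul_le_mul_of_nonneg_left (mul_le_mul_of_nonneg_left h1 (by positivity))
            (by positivity)
      _ ≤ _ := mul_le_mul_of_nonneg_right h2 h4
  have h5 : r * (r ^ (n + 1) * ((m0 (n + 2) r ^ 2 + m1 (n + 2) r ^ 2) / 2)) =
      r ^ (n + 2) * (m0 (n + 2) r ^ 2 + m1 (n + 2) r ^ 2) / 2 := by ring
  linarith

theorem m0_decay (n : ℕ) : ∃ C : ℝ, 0 < C ∧ ∀ r : ℝ, 0 < r → r ^ (n + 2) * m0 (n + 2) r ^ 2 ≤ C := by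
  set a : ℝ := (n : ℝ) + 2 with ha
  have hn : (0 : ℝ) ≤ n := Nat.cast_nonneg n
  have ha0 : 0 < a := by rw [ha]; linarith
  set c : ℝ := a / (2 * Real.pi) with hc
  have hc0 : 0 < c := by rw [hc]; positivity
  set K : ℝ → ℝ := fun r => HH n r * Real.exp (c * r⁻¹) with hK
  have hder : ∀ r : ℝ, 0 < r → HasDerivAt K (c * (r ^ n * (m0 (n + 2) r * m1 (n + 2) r)) *
      Real.exp (c * r⁻¹) + HH n r * (Real.exp (c * r⁻¹) * (c * -(r ^ 2)⁻¹))) r := by
    intro r hr
    have h1 := hasDerivAt_HH n hr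
    have h2 := ((hasDerivAt_inv hr.ne').const_mul c).exp
    exact h1.mul h2
  have hanti : AntitoneOn K (Ici a) := by
    refine antitoneOn_of_deriv_nonpos (convex_Ici a) ?_ ?_ ?_
    · intro r hr
      exact (hder r (ha0.trans_le hr)).continuousAt.continuousWithinAt
    · intro r hr
      rw [interior_Ici] at hr
      exact (hder r (ha0.trans hr)).differentiableAt.differentiableWithinAt
    · intro r hr
      rw [interior_Ici] at hr
      have hr' : a < r := hr
      have hr0 : 0 < r := ha0.trans hr'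
      rw [(hder r hr0).deriv]
      have h1 := HH_ge n (r := r) (by rw [← ha]; exact hr'.le)
      have h2 : m0 (n + 2) r * m1 (n + 2) r ≤ (m0 (n + 2) r ^ 2 + m1 (n + 2) r ^ 2) / 2 := by
        nlinarith [sq_nonneg (m0 (n + 2) r - m1 (n + 2) r)]
      have h3 : r ^ n * (m0 (n + 2) r * m1 (n + 2) r) ≤ HH n r * (r ^ 2)⁻¹ := by
        calc r ^ n * (m0 (n + 2) r * m1 (n + 2) r)
            ≤ r ^ n * ((m0 (n + 2) r ^ 2 + m1 (n + 2) r ^ 2) / 2) :=
              mul_le_mul_of_nonneg_left h2 (by positivity)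
          _ = (r ^ (n + 2) * (m0 (n + 2) r ^ 2 + m1 (n + 2) r ^ 2) / 2) * (r ^ 2)⁻¹ := by
              field_simp
              ring
          _ ≤ _ := mul_le_mul_of_nonneg_right h1 (by positivity)
      have h4 : c * (r ^ n * (m0 (n + 2) r * m1 (n + 2) r)) * Real.exp (c * r⁻¹) +
          HH n r * (Real.exp (c * r⁻¹) * (c * -(r ^ 2)⁻¹)) =
          c * Real.exp (c * r⁻¹) * (r ^ n * (m0 (n + 2) r * m1 (n + 2) r) - HH n r * (r ^ 2)⁻¹) := by
        ring
      rw [h4]
      exact mul_nonpos_of_nonneg_of_nonpos (by positivity) (by linarith)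
  refine ⟨max (a ^ (n + 2)) (2 * K a) + 1, by positivity, fun r hr => ?_⟩
  rcases le_or_gt a r with har | har
  · have h1 : K r ≤ K a := hanti (mem_Ici.mpr le_rfl) (mem_Ici.mpr har) har
    have h2 := HH_ge n (r := r) (by rw [← ha]; exact har)
    have h3 : HH n r ≤ K r := by
      have h4 : 0 ≤ HH n r := le_trans (by positivity) h2
      have h5 : 1 ≤ Real.exp (c * r⁻¹) := Real.one_le_exp (by positivity)
      calc HH n r = HH n r * 1 := (mul_one _).symm
        _ ≤ K r := mul_le_mul_of_nonneg_left h5 h4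
    have h6 : r ^ (n + 2) * m0 (n + 2) r ^ 2 ≤
        r ^ (n + 2) * (m0 (n + 2) r ^ 2 + m1 (n + 2) r ^ 2) :=
      mul_le_mul_of_nonneg_left (by nlinarith [sq_nonneg (m1 (n + 2) r)]) (by positivity)
    have h7 := le_max_right (a ^ (n + 2)) (2 * K a)
    linarith
  · have h1 : r ^ (n + 2) ≤ a ^ (n + 2) := pow_le_pow_left₀ hr.le har.le _
    have h2 : m0 (n + 2) r ^ 2 ≤ 1 := by
      have := abs_m0_le (n + 2) r
      rw [← sq_abs]
      exact pow_le_one₀ (abs_nonneg _) this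
    have h3 : r ^ (n + 2) * m0 (n + 2) r ^ 2 ≤ a ^ (n + 2) * 1 :=
      mul_le_mul h1 h2 (sq_nonneg _) (by positivity)
    have h4 := le_max_left (a ^ (n + 2)) (2 * K a)
    linarith

/-- the Fourier transform of the constant function -/
def sg (d : ℕ) (ξ : E d) : ℂ := FT (fun _ => (1 : ℂ)) ξ

theorem sg_eq (d : ℕ) (ξ : E d) : sg d ξ = ((m0 d ‖ξ‖ : ℝ) : ℂ) := by
  obtain ⟨T, hT⟩ := exists_act_of_norm_eq (d := d) (u := EuclideanSpace.single (0 : Fin (d + 1)) ‖ξ‖)
    (v := ξ) (by simp)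
  have h1 : ∀ x : E d, inner ℝ ξ (act T x) = ‖ξ‖ * x 0 := by
    intro x
    have e : inner ℝ ξ (act T x) = inner ℝ (EuclideanSpace.single (0 : Fin (d + 1)) ‖ξ‖ : E d) x := by
      conv_lhs => rw [← hT]
      rw [inner_act_act]
    rw [e, EuclideanSpace.inner_single_left]
    simp
  have hc0 : Continuous fun x : Sph d => (x : E d) 0 := cont_coord 0
  have h2 : sg d ξ = ∫ x : Sph d, ee (-(‖ξ‖ * (x : E d) 0)) ∂(sig d) := by
    unfold sg FT
    rw [← integral_act_sph T (fun y : E d => (1 : ℂ) * ee (-(inner ℝ ξ y)))]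
    simp only [h1, one_mul]
  have h3 : ∀ x : Sph d, ee (-(‖ξ‖ * (x : E d) 0)) =
      ((Real.cos (2 * Real.pi * ‖ξ‖ * (x : E d) 0) : ℝ) : ℂ) -
      ((Real.sin (2 * Real.pi * ‖ξ‖ * (x : E d) 0) : ℝ) : ℂ) * Complex.I := by
    intro x
    unfold ee
    rw [Complex.exp_mul_I, ← Complex.ofReal_cos, ← Complex.ofReal_sin]
    have : 2 * Real.pi * -(‖ξ‖ * (x : E d) 0) = -(2 * Real.pi * ‖ξ‖ * (x : E d) 0) := by ring
    rw [this, Real.cos_neg, Real.sin_neg]
    push_cast
    ring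
  have h4 : ∫ x : Sph d, Real.sin (2 * Real.pi * ‖ξ‖ * (x : E d) 0) ∂(sig d) = 0 := by
    obtain ⟨N, hN⟩ := exists_act_eq (d := d) (LinearIsometryEquiv.neg ℝ).toLinearIsometry
    have h5 := integral_act_sph N (fun y : E d => Real.sin (2 * Real.pi * ‖ξ‖ * y 0))
    have h6 : ∀ x : E d, (act N x) 0 = -(x 0) := by
      intro x
      rw [hN]
      rfl
    simp only [h6, mul_neg, Real.sin_neg, integral_neg] at h5
    linarith
  rw [h2]
  simp only [h3]
  rw [integral_sub, integral_mul_const, integral_complex_ofReal, integral_complex_ofReal, h4]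
  · simp [m0]
  · exact integrable_sph (Complex.continuous_ofReal.comp (by fun_prop))
  · exact integrable_sph ((Complex.continuous_ofReal.comp (by fun_prop)).mul continuous_const)

theorem norm_sg_le (d : ℕ) (ξ : E d) : ‖sg d ξ‖ ≤ 1 := by
  rw [sg_eq, Complex.norm_real, Real.norm_eq_abs]
  exact abs_m0_le d _

/-- decay with exponent 3/2 for d >= 3 -/
theorem sg_decay {d : ℕ} (hd : 3 ≤ d) :
    ∃ C : ℝ, 1 ≤ C ∧ ∀ ξ : E d, ‖ξ‖ ^ 3 * ‖sg d ξ‖ ^ 2 ≤ C := by
  obtain ⟨n, rfl⟩ : ∃ n, d = n + 2 := ⟨d - 2, by omega⟩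
  obtain ⟨C, hC, h⟩ := m0_decay n
  refine ⟨max C 1, le_max_right _ _, fun ξ => ?_⟩
  rcases eq_or_lt_of_le (norm_nonneg ξ) with h0 | h0
  · rw [← h0]
    have : (0 : ℝ) ^ 3 * ‖sg (n + 2) ξ‖ ^ 2 = 0 := by ring
    rw [this]
    exact le_max_of_le_right zero_le_one
  rcases le_or_gt 1 ‖ξ‖ with h1 | h1
  · have h2 := h ‖ξ‖ h0
    have h3 : ‖ξ‖ ^ 3 ≤ ‖ξ‖ ^ (n + 2) := pow_le_pow_right₀ h1 (by omega)
    have h4 : ‖sg (n + 2) ξ‖ ^ 2 = m0 (n + 2) ‖ξ‖ ^ 2 := by
      rw [sg_eq, Complex.norm_real, Real.norm_eq_abs, sq_abs]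
    rw [h4]
    calc _ ≤ ‖ξ‖ ^ (n + 2) * m0 (n + 2) ‖ξ‖ ^ 2 := mul_le_mul_of_nonneg_right h3 (sq_nonneg _)
      _ ≤ C := h2
      _ ≤ _ := le_max_left _ _
  · have h2 : ‖ξ‖ ^ 3 ≤ 1 := pow_le_one₀ (norm_nonneg _) h1.le
    have h3 : ‖sg (n + 2) ξ‖ ^ 2 ≤ 1 := pow_le_one₀ (norm_nonneg _) (norm_sg_le _ _)
    calc _ ≤ (1 : ℝ) * 1 := mul_le_mul h2 h3 (sq_nonneg _) zero_le_one
      _ ≤ _ := by rw [one_mul]; exact le_max_right _ _

/-- ROW DEC. Decay of the Fourier transform of the surface measure. -/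
theorem decay_sig (d : ℕ) (hd : 3 ≤ d) : ∃ C : ℝ, 0 < C ∧ ∀ ξ : E d,
    ‖FT (fun _ => (1 : ℂ)) ξ‖ * ‖ξ‖ ^ ((3 : ℝ) / 2) ≤ C := by
  obtain ⟨C, hC, h⟩ := sg_decay hd
  refine ⟨C, by linarith, fun ξ => ?_⟩
  have h1 : (‖ξ‖ ^ ((3 : ℝ) / 2)) ^ 2 = ‖ξ‖ ^ 3 := by
    rw [← Real.rpow_natCast, ← Real.rpow_mul (norm_nonneg _), ← Real.rpow_natCast]
    norm_num
  have h2 : (‖FT (fun _ => (1 : ℂ)) ξ‖ * ‖ξ‖ ^ ((3 : ℝ) / 2)) ^ 2 ≤ C ^ 2 := by
    rw [mul_pow, h1]
    calc _ = ‖ξ‖ ^ 3 * ‖sg d ξ‖ ^ 2 := mul_comm _ _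
      _ ≤ C := h ξ
      _ ≤ C ^ 2 := by nlinarith
  exact (sq_le_sq₀ (by positivity) (by linarith)).mp h2

end SPH
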