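import Pool.Agent.SPH.EE
import Pool.Agent.SPH.Rot
import Pool.Agent.SPH.Lat
import Pool.Agent.SPH.TSDecay

/-! Project SPH (MP_f7e9f1_co), row RLG: Riemann-Lebesgue on the group. The proof uses an almost
orthogonality (Bessel) argument twice: first for constant u (rotating one vector), then for all u. -/

open MeasureTheory Set Metric Filter
open scoped ENNReal NNReal Topology

noncomputable section
namespace SPH

namespace RLG

/-- the square of the mean is at most the mean of the square -/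
theorem sq_integral_le {Ω : Type*} [MeasurableSpace Ω] (μ : Measure Ω) [IsProbabilityMeasure μ]
    (g : Ω → ℝ) (hg : Integrable g μ) (hg2 : Integrable (fun x => g x ^ 2) μ) :
    (∫ x, g x ∂μ) ^ 2 ≤ ∫ x, g x ^ 2 ∂μ := by
  set M := ∫ x, g x ∂μ with hM
  have h : 0 ≤ ∫ x, (g x - M) ^ 2 ∂μ := integral_nonneg fun x => sq_nonneg _
  have e : ∫ x, (g x - M) ^ 2 ∂μ = ∫ x, g x ^ 2 ∂μ - M ^ 2 := by
    have e1 : ∀ x, (g x - M) ^ 2 = g x ^ 2 - (2 * M) * g x + M ^ 2 := fun x => by ring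
    simp_rw [e1]
    have hi : Integrable (fun x => g x ^ 2 - (2 * M) * g x) μ := hg2.sub (hg.const_mul _)
    rw [integral_add hi (integrable_const _),
      integral_sub hg2 (hg.const_mul _), integral_const_mul, ← hM]
    simp
    ring
  linarith

theorem exists_phase (a : ℂ) : ∃ s : ℂ, ‖s‖ = 1 ∧ s * a = (‖a‖ : ℂ) := by
  by_cases h : a = 0
  · exact ⟨1, by simp, by simp [h]⟩
  · refine ⟨(‖a‖ : ℂ) / a, ?_, ?_⟩
    · rw [norm_div, Complex.norm_real, norm_norm, div_self (norm_ne_zero_iff.2 h)]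
    · field_simp

/-- almost orthogonality -/
theorem bessel {Ω : Type*} [MeasurableSpace Ω] (μ : Measure Ω) [IsProbabilityMeasure μ]
    {κ : Type*} [Fintype κ] (f : Ω → ℂ) (X : κ → Ω → ℂ) (hf : Measurable f) (hf1 : ∀ x, ‖f x‖ ≤ 1)
    (hX : ∀ k, Measurable (X k)) (hX1 : ∀ k x, ‖X k x‖ ≤ 1) (δ c : ℝ) (hδ : 0 ≤ δ) (hc : 0 ≤ c)
    (horth : ∀ k l, k ≠ l → ‖∫ x, X k x * (starRingEnd ℂ) (X l x) ∂μ‖ ≤ δ)
    (hcor : ∀ k, c ≤ ‖∫ x, f x * X k x ∂μ‖) :
    (Fintype.card κ * c) ^ 2 ≤ Fintype.card κ + (Fintype.card κ : ℝ) ^ 2 * δ := by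
  classical
  choose s hs1 hs2 using fun k => exists_phase (∫ x, f x * X k x ∂μ)
  have hfX : ∀ k, Integrable (fun x => f x * X k x) μ := fun k =>
    Integrable.of_bound (hf.mul (hX k)).aestronglyMeasurable 1 (Eventually.of_forall fun x => by
      rw [norm_mul]; exact mul_le_one₀ (hf1 x) (norm_nonneg _) (hX1 k x))
  have hXX : ∀ k l, Integrable (fun x => X k x * (starRingEnd ℂ) (X l x)) μ := fun k l =>
    Integrable.of_bound ((hX k).mul ((continuous_star.measurable).comp (hX l))).aestronglyMeasurable 1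
      (Eventually.of_forall fun x => by
      rw [norm_mul, RCLike.norm_conj]; exact mul_le_one₀ (hX1 k x) (norm_nonneg _) (hX1 l x))
  let Y : Ω → ℂ := fun x => ∑ k, s k * X k x
  have hYm : Measurable Y := Finset.measurable_sum _ fun k _ => (hX k).const_mul _
  have hYb : ∀ x, ‖Y x‖ ≤ Fintype.card κ := by
    intro x
    calc ‖Y x‖ ≤ ∑ k, ‖s k * X k x‖ := norm_sum_le _ _
      _ ≤ ∑ _k : κ, (1 : ℝ) := Finset.sum_le_sum fun k _ => by
          rw [norm_mul, hs1, one_mul]; exact hX1 k x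
      _ = Fintype.card κ := by simp
  have hYi : Integrable (fun x => ‖Y x‖) μ :=
    Integrable.of_bound hYm.norm.aestronglyMeasurable (Fintype.card κ)
      (Eventually.of_forall fun x => by rw [norm_norm]; exact hYb x)
  have hYi2 : Integrable (fun x => ‖Y x‖ ^ 2) μ :=
    Integrable.of_bound (hYm.norm.pow_const 2).aestronglyMeasurable ((Fintype.card κ : ℝ) ^ 2)
      (Eventually.of_forall fun x => by
        rw [norm_pow, norm_norm]; exact pow_le_pow_left₀ (norm_nonneg _) (hYb x) 2)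
  -- lower bound
  have h1 : (Fintype.card κ : ℝ) * c ≤ ∫ x, ‖Y x‖ ∂μ := by
    have e1 : ∫ x, f x * Y x ∂μ = ((∑ k, ‖∫ x, f x * X k x ∂μ‖ : ℝ) : ℂ) := by
      have e2 : ∀ x, f x * Y x = ∑ k, s k * (f x * X k x) := by
        intro x
        show f x * ∑ k, s k * X k x = _
        rw [Finset.mul_sum]
        exact Finset.sum_congr rfl fun k _ => by ring
      simp_rw [e2]
      rw [integral_finsetSum _ fun k _ => (hfX k).const_mul _]
      push_cast
      refine Finset.sum_congr rfl fun k _ => ?_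
      rw [integral_const_mul, hs2]
    calc (Fintype.card κ : ℝ) * c = ∑ _k : κ, c := by simp
      _ ≤ ∑ k, ‖∫ x, f x * X k x ∂μ‖ := Finset.sum_le_sum fun k _ => hcor k
      _ = ‖∫ x, f x * Y x ∂μ‖ := by
          rw [e1, Complex.norm_real, Real.norm_eq_abs, abs_of_nonneg
            (Finset.sum_nonneg fun k _ => norm_nonneg _)]
      _ ≤ ∫ x, ‖f x * Y x‖ ∂μ := norm_integral_le_integral_norm _
      _ ≤ ∫ x, ‖Y x‖ ∂μ := by
          refine integral_mono_of_nonneg (Eventually.of_forall fun x => norm_nonneg _) hYi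
            (Eventually.of_forall fun x => ?_)
          show ‖f x * Y x‖ ≤ ‖Y x‖
          rw [norm_mul]
          exact mul_le_of_le_one_left (norm_nonneg _) (hf1 x)
  -- upper bound
  have h2 : ∫ x, ‖Y x‖ ^ 2 ∂μ ≤ Fintype.card κ + (Fintype.card κ : ℝ) ^ 2 * δ := by
    have e1 : ((∫ x, ‖Y x‖ ^ 2 ∂μ : ℝ) : ℂ) =
        ∑ k, ∑ l, (s k * (starRingEnd ℂ) (s l)) * ∫ x, X k x * (starRingEnd ℂ) (X l x) ∂μ := by
      rw [show ((∫ x, ‖Y x‖ ^ 2 ∂μ : ℝ) : ℂ) = ∫ x, ((‖Y x‖ ^ 2 : ℝ) : ℂ) ∂μ from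
        (integral_ofReal (𝕜 := ℂ)).symm]
      have e2 : ∀ x, ((‖Y x‖ ^ 2 : ℝ) : ℂ) =
          ∑ k, ∑ l, (s k * (starRingEnd ℂ) (s l)) * (X k x * (starRingEnd ℂ) (X l x)) := by
        intro x
        have e3 : ((‖Y x‖ ^ 2 : ℝ) : ℂ) = Y x * (starRingEnd ℂ) (Y x) := by
          rw [Complex.mul_conj, Complex.normSq_eq_norm_sq]
        rw [e3]
        show (∑ k, s k * X k x) * (starRingEnd ℂ) (∑ l, s l * X l x) = _
        rw [map_sum, Finset.sum_mul_sum]
        refine Finset.sum_congr rfl fun k _ => Finset.sum_congr rfl fun l _ => ?_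
        rw [map_mul]; ring
      simp_rw [e2]
      rw [integral_finsetSum _ fun k _ => integrable_finsetSum _ fun l _ => (hXX k l).const_mul _]
      refine Finset.sum_congr rfl fun k _ => ?_
      rw [integral_finsetSum _ fun l _ => (hXX k l).const_mul _]
      refine Finset.sum_congr rfl fun l _ => ?_
      rw [integral_const_mul]
    have e4 : ∀ k l, ‖(s k * (starRingEnd ℂ) (s l)) * ∫ x, X k x * (starRingEnd ℂ) (X l x) ∂μ‖ ≤
        (if k = l then 1 else 0) + δ := by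
      intro k l
      rw [norm_mul, norm_mul, RCLike.norm_conj, hs1, hs1, one_mul, one_mul]
      by_cases hkl : k = l
      · rw [if_pos hkl]
        have : ‖∫ x, X k x * (starRingEnd ℂ) (X l x) ∂μ‖ ≤ 1 := by
          have := norm_integral_le_of_norm_le_const (μ := μ) (C := 1)
            (f := fun x => X k x * (starRingEnd ℂ) (X l x)) (Eventually.of_forall fun x => by
              rw [norm_mul, RCLike.norm_conj]
              exact mul_le_one₀ (hX1 k x) (norm_nonneg _) (hX1 l x))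
          simpa using this
        linarith
      · rw [if_neg hkl, zero_add]
        exact horth k l hkl
    have e5 : ∫ x, ‖Y x‖ ^ 2 ∂μ = ‖((∫ x, ‖Y x‖ ^ 2 ∂μ : ℝ) : ℂ)‖ := by
      rw [Complex.norm_real, Real.norm_eq_abs, abs_of_nonneg (integral_nonneg fun x => sq_nonneg _)]
    rw [e5, e1]
    calc _ ≤ ∑ k, ∑ l, ((if k = l then (1 : ℝ) else 0) + δ) :=
          (norm_sum_le _ _).trans (Finset.sum_le_sum fun k _ => (norm_sum_le _ _).trans
            (Finset.sum_le_sum fun l _ => e4 k l))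
      _ = _ := by
          simp [Finset.sum_add_distrib]
          ring
  calc ((Fintype.card κ : ℝ) * c) ^ 2 ≤ (∫ x, ‖Y x‖ ∂μ) ^ 2 :=
        pow_le_pow_left₀ (by positivity) h1 2
    _ ≤ ∫ x, ‖Y x‖ ^ 2 ∂μ := sq_integral_le μ _ hYi hYi2
    _ ≤ _ := h2

/-- decay for one vector -/
theorem decay_one {d : ℕ} (hd : 3 ≤ d) (z : E d) (hz : z ≠ 0) (δ : ℝ) (hδ : 0 < δ) :
    ∃ R : ℝ, ∀ w : E d, R ≤ ‖w‖ → ‖∫ T : OG d, ee (inner ℝ w (act T z)) ∂(mu d)‖ ≤ δ := by
  obtain ⟨C, hC, h⟩ := decay_sig d hd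
  have hz0 : 0 < ‖z‖ := norm_pos_iff.2 hz
  set zh : Sph d := ⟨‖z‖⁻¹ • z, by simp [norm_smul, hz0.ne']⟩ with hzh
  have hzz : ∀ T : OG d, act T z = ‖z‖ • ((T • zh : Sph d) : E d) := by
    intro T
    show act T z = ‖z‖ • act T (‖z‖⁻¹ • z)
    rw [act_smul, smul_smul, mul_inv_cancel₀ hz0.ne', one_smul]
  have e : ∀ w : E d, ∫ T : OG d, ee (inner ℝ w (act T z)) ∂(mu d) =
      FT (fun _ => (1 : ℂ)) (-(‖z‖ • w)) := by
    intro w
    have h1 := integral_orbit (d := d) (fun x : Sph d => ee (‖z‖ * inner ℝ w (x : E d)))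
      ((continuous_ee.comp (by fun_prop)).aestronglyMeasurable) zh
    unfold FT
    simp only [inner_neg_left, neg_neg, inner_smul_left, one_mul]
    rw [← show ∫ T : OG d, ee (‖z‖ * inner ℝ w ((T • zh : Sph d) : E d)) ∂(mu d) =
      ∫ x : Sph d, ee ((starRingEnd ℝ) ‖z‖ * inner ℝ w (x : E d)) ∂(sig d) from h1]
    congr 1
    funext T
    rw [hzz T, inner_smul_right]
  have hlim : Tendsto (fun r : ℝ => C * (‖z‖ * r) ^ (-((3 : ℝ) / 2))) atTop (𝓝 (C * 0)) := by
    refine Tendsto.const_mul C ?_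
    exact (tendsto_rpow_neg_atTop (by norm_num)).comp (tendsto_id.const_mul_atTop hz0)
  rw [mul_zero] at hlim
  have hev := (hlim.eventually (gt_mem_nhds hδ)).and (eventually_gt_atTop 0)
  obtain ⟨R, hR⟩ := hev.exists_forall_of_atTop
  refine ⟨R, fun w hw => ?_⟩
  obtain ⟨h1, h2⟩ := hR ‖w‖ hw
  rw [e w]
  have h3 := h (-(‖z‖ • w))
  rw [norm_neg, norm_smul, norm_norm] at h3
  have h4 : 0 < ‖z‖ * ‖w‖ := mul_pos hz0 h2
  have h5 : 0 < (‖z‖ * ‖w‖) ^ ((3 : ℝ) / 2) := Real.rpow_pos_of_pos h4 _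
  refine le_trans ?_ h1.le
  rw [Real.rpow_neg h4.le]
  rw [← div_eq_mul_inv, le_div_iff₀ h5]
  exact h3

/-- a direction orthogonal to all but one vector -/
theorem exists_dir {d : ℕ} {J : Type*} (v : J → Sph d)
    (hv : LinearIndependent ℝ (fun j => (v j : E d))) (e0 : E d)
    (hev : ∀ j, inner ℝ e0 (v j : E d) = 0) (j0 : J) :
    ∃ a : E d, ‖a‖ = 1 ∧ inner ℝ a e0 = 0 ∧ (∀ j, j ≠ j0 → inner ℝ (v j : E d) a = 0) ∧
      0 < inner ℝ (v j0 : E d) a := by
  set B : Submodule ℝ (E d) := Submodule.span ℝ ((fun j => (v j : E d)) '' (univ \ {j0})) with hB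
  have hnot : (v j0 : E d) ∉ B := (linearIndependent_iff_notMem_span.1 hv) j0
  set P : E d := B.starProjection (v j0 : E d) with hP
  have hPB : P ∈ B := B.starProjection_apply_mem _
  set n : E d := (v j0 : E d) - P with hn
  have hnB : n ∈ Bᗮ := B.sub_starProjection_mem_orthogonal _
  have hn0 : n ≠ 0 := by
    intro h
    apply hnot
    rw [sub_eq_zero.1 h]
    exact hPB
  have hnn : 0 < ‖n‖ := norm_pos_iff.2 hn0
  have he0B : ∀ x ∈ B, inner ℝ e0 x = 0 := by
    intro x hx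
    refine Submodule.span_induction (p := fun x _ => inner ℝ e0 x = 0) ?_ ?_ ?_ ?_ hx
    · rintro _ ⟨j, -, rfl⟩
      exact hev j
    · simp
    · intro x y _ _ hx hy
      rw [inner_add_right, hx, hy, add_zero]
    · intro c x _ hx
      rw [inner_smul_right, hx, mul_zero]
  refine ⟨‖n‖⁻¹ • n, ?_, ?_, ?_, ?_⟩
  · rw [norm_smul, norm_inv, norm_norm, inv_mul_cancel₀ hnn.ne']
  · rw [inner_smul_left, real_inner_comm, hn, inner_sub_right, hev j0, he0B P hPB]
    simp
  · intro j hj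
    have hjB : (v j : E d) ∈ B := Submodule.subset_span ⟨j, by simp [hj], rfl⟩
    rw [inner_smul_right, (Submodule.mem_orthogonal B n).1 hnB _ hjB, mul_zero]
  · have h1 : inner ℝ (v j0 : E d) n = ‖n‖ ^ 2 := by
      have h2 : (v j0 : E d) = n + P := by rw [hn]; abel
      rw [h2, inner_add_left, (Submodule.mem_orthogonal B n).1 hnB _ hPB, add_zero,
        real_inner_self_eq_norm_sq]
    rw [inner_smul_right, h1]
    positivity

/-- the kernel -/
def ker {d : ℕ} {J : Type*} [Fintype J] (v : J → Sph d) (w : J → E d) : ℂ :=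
  ∫ T : OG d, ee (∑ j, inner ℝ (w j) (act T (v j))) ∂(mu d)

theorem continuous_phase {d : ℕ} {J : Type*} (s : Finset J) (v : J → E d) (w : J → E d) :
    Continuous fun T : OG d => ee (∑ j ∈ s, inner ℝ (w j) (act T (v j))) := by
  refine continuous_ee.comp (continuous_finsetSum _ fun j _ => ?_)
  exact continuous_const.inner (continuous_act_right (v j))

theorem exists_card_le (δ : ℝ) (hδ : 0 < δ) : ∃ m : ℕ, 0 < m ∧ (1 : ℝ) / m ≤ δ := by
  obtain ⟨n, hn⟩ := exists_nat_one_div_lt hδ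
  exact ⟨n + 1, Nat.succ_pos n, by exact_mod_cast hn.le⟩

theorem ker_small_one {d : ℕ} (hd : 3 ≤ d) {J : Type*} [Fintype J] (v : J → Sph d)
    (hv : LinearIndependent ℝ (fun j => (v j : E d))) (e0 : E d) (he0 : ‖e0‖ = 1)
    (hev : ∀ j, inner ℝ e0 (v j : E d) = 0) (j0 : J) (δ : ℝ) (hδ : 0 < δ) :
    ∃ R : ℝ, ∀ w : J → E d, R ≤ ‖w j0‖ → ‖ker v w‖ ≤ δ := by
  classical
  obtain ⟨a, ha1, hae, hav, hac⟩ := exists_dir v hv e0 hev j0
  obtain ⟨Rt, -, -, hRt⟩ := exists_rot a e0 ha1 he0 hae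
  set c : ℝ := inner ℝ (v j0 : E d) a with hc
  have hve : ∀ j, inner ℝ (v j : E d) e0 = 0 := fun j => by rw [real_inner_comm]; exact hev j
  have hfix : ∀ θ j, j ≠ j0 → act (Rt θ) (v j : E d) = v j := by
    intro θ j hj
    rw [hRt, hav j hj, hve j]
    simp
  have hmov : ∀ θ, act (Rt θ) (v j0 : E d) = v j0 + ((Real.cos θ - 1) * c) • a +
      (Real.sin θ * c) • e0 := by
    intro θ
    rw [hRt, hve j0]
    simp [hc]
  obtain ⟨m, hm0, hm⟩ := exists_card_le (δ ^ 2 / 2) (by positivity)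
  let θ : Fin m → ℝ := fun k => 1 / ((k : ℝ) + 1)
  let z : Fin m → Fin m → E d := fun k l =>
    act (Rt (θ k)) (v j0 : E d) - act (Rt (θ l)) (v j0 : E d)
  have hz : ∀ k l, k ≠ l → z k l ≠ 0 := by
    intro k l hkl h0
    have h1 : inner ℝ a (z k l) = (Real.cos (θ k) - Real.cos (θ l)) * c := by
      show inner ℝ a (act (Rt (θ k)) (v j0 : E d) - act (Rt (θ l)) (v j0 : E d)) = _
      rw [hmov, hmov, inner_sub_right, inner_add_right, inner_add_right, inner_add_right,
        inner_add_right, inner_smul_right, inner_smul_right, inner_smul_right, inner_smul_right,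
        hae, real_inner_self_eq_norm_sq, ha1]
      ring
    rw [h0, inner_zero_right] at h1
    have h2 : Real.cos (θ k) = Real.cos (θ l) := by
      rcases mul_eq_zero.1 h1.symm with h | h
      · linarith
      · exact absurd h hac.ne'
    have hmem : ∀ k : Fin m, θ k ∈ Icc 0 Real.pi := by
      intro k
      have hk : (0 : ℝ) ≤ (k : ℝ) := Nat.cast_nonneg _
      refine ⟨by positivity, ?_⟩
      have : θ k ≤ 1 := by
        show 1 / ((k : ℝ) + 1) ≤ 1
        rw [div_le_one (by positivity)]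
        linarith
      linarith [Real.pi_gt_three]
    have h3 : θ k = θ l := Real.injOn_cos (hmem k) (hmem l) h2
    apply hkl
    have h4 : (k : ℝ) + 1 = (l : ℝ) + 1 := by
      have h5 : 1 / ((k : ℝ) + 1) = 1 / ((l : ℝ) + 1) := h3
      have hk : (0 : ℝ) ≤ (k : ℝ) := Nat.cast_nonneg _
      have hl : (0 : ℝ) ≤ (l : ℝ) := Nat.cast_nonneg _
      field_simp at h5
      linarith
    have h6 : (k : ℝ) = (l : ℝ) := by linarith
    exact Fin.ext (by exact_mod_cast h6)
  have hR : ∀ k l, ∃ R : ℝ, k ≠ l → ∀ w : E d, R ≤ ‖w‖ →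
      ‖∫ T : OG d, ee (inner ℝ w (act T (z k l))) ∂(mu d)‖ ≤ δ ^ 2 / 2 := by
    intro k l
    by_cases hkl : k = l
    · exact ⟨0, fun h => absurd hkl h⟩
    · obtain ⟨R, hR⟩ := decay_one hd (z k l) (hz k l hkl) (δ ^ 2 / 2) (by positivity)
      exact ⟨R, fun _ => hR⟩
  choose R hR using hR
  refine ⟨∑ k, ∑ l, |R k l|, fun w hw => ?_⟩
  have hRle : ∀ k l, R k l ≤ ‖w j0‖ := by
    intro k l
    refine le_trans (le_trans (le_abs_self _) ?_) hw
    calc |R k l| ≤ ∑ l, |R k l| := Finset.single_le_sum (f := fun l => |R k l|)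
          (fun _ _ => abs_nonneg _) (Finset.mem_univ l)
      _ ≤ ∑ k, ∑ l, |R k l| := Finset.single_le_sum (f := fun k => ∑ l, |R k l|)
          (fun _ _ => Finset.sum_nonneg fun _ _ => abs_nonneg _) (Finset.mem_univ k)
  let f : OG d → ℂ := fun T => ee (∑ j ∈ Finset.univ.erase j0, inner ℝ (w j) (act T (v j)))
  let X : Fin m → OG d → ℂ := fun k T => ee (inner ℝ (w j0) (act T (act (Rt (θ k)) (v j0 : E d))))
  have hXc : ∀ k, Continuous (X k) := fun k =>
    continuous_ee.comp (continuous_const.inner (continuous_act_right _))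
  have hcor : ∀ k, ∫ T, f T * X k T ∂(mu d) = ker v w := by
    intro k
    have e1 : ∀ T : OG d, f T * X k T =
        (fun S : OG d => ee (∑ j, inner ℝ (w j) (act S (v j)))) (T * Rt (θ k)) := by
      intro T
      show ee _ * ee _ = ee _
      rw [← ee_add]
      congr 1
      rw [← Finset.sum_erase_add Finset.univ
        (fun j => inner ℝ (w j) (act (T * Rt (θ k)) (v j))) (Finset.mem_univ j0)]
      congr 1
      · refine Finset.sum_congr rfl fun j hj => ?_
        rw [act_mul, hfix _ _ (Finset.ne_of_mem_erase hj)]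
      · rw [act_mul]
    exact (integral_congr_ae (Eventually.of_forall e1)).trans
      (integral_mul_right_eq_self (μ := mu d)
        (fun S : OG d => ee (∑ j, inner ℝ (w j) (act S (v j)))) (Rt (θ k)))
  have horth : ∀ k l, k ≠ l → ‖∫ T, X k T * (starRingEnd ℂ) (X l T) ∂(mu d)‖ ≤ δ ^ 2 / 2 := by
    intro k l hkl
    have e1 : ∀ T : OG d, X k T * (starRingEnd ℂ) (X l T) = ee (inner ℝ (w j0) (act T (z k l))) := by
      intro T
      show ee _ * (starRingEnd ℂ) (ee _) = _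
      rw [conj_ee, ← ee_add]
      congr 1
      show _ = inner ℝ (w j0) (act T (act (Rt (θ k)) (v j0 : E d) - act (Rt (θ l)) (v j0 : E d)))
      rw [act_sub, inner_sub_right]
      ring
    simp_rw [e1]
    exact hR k l hkl (w j0) (hRle k l)
  have hb := bessel (mu d) f X (continuous_phase _ _ _).measurable (fun T => (norm_ee _).le)
    (fun k => (hXc k).measurable) (fun k T => (norm_ee _).le) (δ ^ 2 / 2) ‖ker v w‖
    (by positivity) (norm_nonneg _) horth (fun k => by rw [hcor k])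
  rw [Fintype.card_fin] at hb
  have hm0' : (0 : ℝ) < m := by exact_mod_cast hm0
  have h1 : ‖ker v w‖ ^ 2 ≤ δ ^ 2 := by
    have h2 : ‖ker v w‖ ^ 2 ≤ 1 / m + δ ^ 2 / 2 := by
      have h3 : (m : ℝ) ^ 2 * ‖ker v w‖ ^ 2 ≤ (m : ℝ) ^ 2 * (1 / m + δ ^ 2 / 2) := by
        calc (m : ℝ) ^ 2 * ‖ker v w‖ ^ 2 = (m * ‖ker v w‖) ^ 2 := by ring
          _ ≤ m + (m : ℝ) ^ 2 * (δ ^ 2 / 2) := hb
          _ = (m : ℝ) ^ 2 * (1 / m + δ ^ 2 / 2) := by field_simp
      exact le_of_mul_le_mul_left h3 (by positivity)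
    linarith
  exact (pow_le_pow_iff_left₀ (norm_nonneg _) hδ.le (by norm_num)).1 h1

theorem ker_small {d : ℕ} (hd : 3 ≤ d) {J : Type*} [Fintype J] (v : J → Sph d)
    (hv : LinearIndependent ℝ (fun j => (v j : E d))) (e0 : E d) (he0 : ‖e0‖ = 1)
    (hev : ∀ j, inner ℝ e0 (v j : E d) = 0) (δ : ℝ) (hδ : 0 < δ) :
    ∃ R : ℝ, ∀ w : J → E d, R ≤ ‖w‖ → ‖ker v w‖ ≤ δ := by
  choose R hR using fun j0 => ker_small_one hd v hv e0 he0 hev j0 δ hδ
  refine ⟨1 + ∑ j, |R j|, fun w hw => ?_⟩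
  have h0 : (0 : ℝ) < 1 + ∑ j, |R j| :=
    add_pos_of_pos_of_nonneg one_pos (Finset.sum_nonneg fun _ _ => abs_nonneg _)
  have h1 : ¬ ∀ j, ‖w j‖ < 1 + ∑ j, |R j| := by
    intro h
    exact absurd ((pi_norm_lt_iff h0).2 h) (not_lt.2 hw)
  push Not at h1
  obtain ⟨j, hj⟩ := h1
  refine hR j w (le_trans ?_ hj)
  have : |R j| ≤ ∑ j, |R j| := Finset.single_le_sum (f := fun j => |R j|)
    (fun _ _ => abs_nonneg _) (Finset.mem_univ j)
  linarith [le_abs_self (R j)]

end RLG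

open RLG in
/-- ROW RLG. Riemann-Lebesgue on the group. -/
theorem rl_group {d : ℕ} (hd : 3 ≤ d) {J : Type*} [Fintype J] (v : J → Sph d)
    (hv : LinearIndependent ℝ (fun j => (v j : E d))) (e0 : E d) (he0 : ‖e0‖ = 1)
    (hev : ∀ j, inner ℝ e0 (v j : E d) = 0) (u : C(OG d, ℂ)) :
    Tendsto (fun w : J → E d => ∫ T : OG d, u T * ee (∑ j, inner ℝ (w j) (act T (v j))) ∂(mu d))
      (cocompact (J → E d)) (𝓝 0) := by
  classical
  set I : (J → E d) → ℂ := fun w =>
    ∫ T : OG d, u T * ee (∑ j, inner ℝ (w j) (act T (v j))) ∂(mu d) with hI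
  have hCpos : (0 : ℝ) < ‖u‖ + 1 := by positivity
  set C : ℝ := ‖u‖ + 1 with hC
  have hu : ∀ T, ‖u T‖ ≤ C := fun T => (u.norm_coe_le_norm T).trans (by rw [hC]; linarith)
  rw [Metric.tendsto_nhds]
  intro ε hε
  by_contra hcon
  have hfr : ∃ᶠ w in cocompact (J → E d), ε ≤ ‖I w‖ := by
    refine (Filter.not_eventually.1 hcon).mono fun w hw => ?_
    rw [dist_zero_right, not_lt] at hw
    exact hw
  set δ : ℝ := (ε / C) ^ 2 / 4 with hδ
  have hδ0 : 0 < δ := by positivity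
  obtain ⟨R, hR⟩ := ker_small hd v hv e0 he0 hev δ hδ0
  have hfam : ∀ m : ℕ, ∃ W : Fin m → (J → E d), (∀ k, ε ≤ ‖I (W k)‖) ∧
      ∀ k l, k ≠ l → ‖ker v (W k - W l)‖ ≤ δ := by
    intro m
    induction m with
    | zero => exact ⟨fun k => k.elim0, fun k => k.elim0, fun k => k.elim0⟩
    | succ m ih =>
      obtain ⟨W, hW1, hW2⟩ := ih
      have hev2 : ∀ᶠ w in cocompact (J → E d), R + ∑ k, ‖W k‖ ≤ ‖w‖ :=
        (tendsto_norm_cocompact_atTop).eventually_ge_atTop _
      obtain ⟨w, hw1, hw2⟩ := (hfr.and_eventually hev2).exists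
      have hfar : ∀ k, R ≤ ‖w - W k‖ := by
        intro k
        have h1 : ‖W k‖ ≤ ∑ k, ‖W k‖ := Finset.single_le_sum (f := fun k => ‖W k‖)
          (fun _ _ => norm_nonneg _) (Finset.mem_univ k)
        have h2 := norm_sub_norm_le w (W k)
        linarith
      refine ⟨Fin.cons w W, fun k => ?_, fun k l hkl => ?_⟩
      · refine Fin.cases ?_ (fun k => ?_) k
        · simpa using hw1
        · simpa using hW1 k
      · revert hkl
        refine Fin.cases ?_ (fun k => ?_) k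
        · refine Fin.cases ?_ (fun l => ?_) l
          · intro h; exact absurd rfl h
          · intro _
            simpa using hR (w - W l) (hfar l)
        · refine Fin.cases ?_ (fun l => ?_) l
          · intro _
            have := hR (W k - w) (by rw [norm_sub_rev]; exact hfar k)
            simpa using this
          · intro h
            have hkl : k ≠ l := fun h' => h (by rw [h'])
            simpa using hW2 k l hkl
  obtain ⟨m, hm0, hm⟩ := exists_card_le δ hδ0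
  obtain ⟨W, hW1, hW2⟩ := hfam m
  have hm0' : (0 : ℝ) < m := by exact_mod_cast hm0
  let f : OG d → ℂ := fun T => ((C⁻¹ : ℝ) : ℂ) * u T
  let X : Fin m → OG d → ℂ := fun k T => ee (∑ j, inner ℝ (W k j) (act T (v j)))
  have hXc : ∀ k, Continuous (X k) := fun k => continuous_phase _ _ _
  have hf1 : ∀ T, ‖f T‖ ≤ 1 := by
    intro T
    show ‖((C⁻¹ : ℝ) : ℂ) * u T‖ ≤ 1
    rw [norm_mul, Complex.norm_real, Real.norm_eq_abs, abs_of_pos (inv_pos.2 hCpos),
      inv_mul_le_iff₀ hCpos, mul_one]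
    exact hu T
  have horth : ∀ k l, k ≠ l → ‖∫ T, X k T * (starRingEnd ℂ) (X l T) ∂(mu d)‖ ≤ δ := by
    intro k l hkl
    have e1 : ∀ T : OG d, X k T * (starRingEnd ℂ) (X l T) =
        ee (∑ j, inner ℝ ((W k - W l) j) (act T (v j))) := by
      intro T
      show ee _ * (starRingEnd ℂ) (ee _) = _
      rw [conj_ee, ← ee_add]
      congr 1
      rw [← sub_eq_add_neg, ← Finset.sum_sub_distrib]
      refine Finset.sum_congr rfl fun j _ => ?_
      rw [Pi.sub_apply, inner_sub_left]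
    simp_rw [e1]
    exact hW2 k l hkl
  have hcor : ∀ k, ε / C ≤ ‖∫ T, f T * X k T ∂(mu d)‖ := by
    intro k
    have e1 : ∫ T, f T * X k T ∂(mu d) = ((C⁻¹ : ℝ) : ℂ) * I (W k) := by
      rw [hI, ← integral_const_mul]
      congr 1
      funext T
      show ((C⁻¹ : ℝ) : ℂ) * u T * ee _ = ((C⁻¹ : ℝ) : ℂ) * (u T * ee _)
      ring
    rw [e1, norm_mul, Complex.norm_real, Real.norm_eq_abs, abs_of_pos (inv_pos.2 hCpos),
      div_eq_inv_mul]
    exact mul_le_mul_of_nonneg_left (hW1 k) (inv_pos.2 hCpos).le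
  have hb := bessel (mu d) f X
    ((continuous_const.mul u.continuous).measurable) hf1
    (fun k => (hXc k).measurable) (fun k T => (norm_ee _).le) δ (ε / C)
    hδ0.le (by positivity) horth hcor
  rw [Fintype.card_fin] at hb
  have h2 : (ε / C) ^ 2 ≤ 1 / m + δ := by
    have h3 : (m : ℝ) ^ 2 * (ε / C) ^ 2 ≤ (m : ℝ) ^ 2 * (1 / m + δ) := by
      calc (m : ℝ) ^ 2 * (ε / C) ^ 2 = (m * (ε / C)) ^ 2 := by ring
        _ ≤ m + (m : ℝ) ^ 2 * δ := hb
        _ = (m : ℝ) ^ 2 * (1 / m + δ) := by field_simp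
    exact le_of_mul_le_mul_left h3 (by positivity)
  have h4 : 0 < (ε / C) ^ 2 := by positivity
  linarith [hm, hδ]

end SPH
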