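import Pool.Agent.SPH.Planch

/-! Project SPH, row REC1, part a: Householder section, averages over the stabiliser, the two
parametrisations as measure identities. -/

open MeasureTheory Set Metric Filter
open scoped ENNReal NNReal Topology

noncomputable section
namespace SPH.R1

theorem norm_bas (d k : ℕ) : ‖bas d k‖ = 1 := by simp [bas]

theorem va_add_vb (d : ℕ) (ψ : ℝ) : va d ψ + vb d ψ = (2 * Real.cos ψ) • bas d 0 := by
  rw [va, vb, two_mul, add_smul]
  abel

theorem continuous_va (d : ℕ) : Continuous (va d) := by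
  unfold va
  fun_prop

theorem continuous_vb (d : ℕ) : Continuous (vb d) := by
  unfold vb
  fun_prop

theorem kact_bas {d : ℕ} (k : Kst d) : kact k (bas d 0) = bas d 0 := k.2

theorem continuous_kact (d : ℕ) : Continuous fun p : Kst d × E d => kact p.1 p.2 :=
  (continuous_act d).comp ((continuous_subtype_val.comp continuous_fst).prodMk continuous_snd)

theorem continuous_ee : Continuous ee := by
  unfold ee
  fun_prop

theorem norm_ee (t : ℝ) : ‖ee t‖ = 1 := by
  rw [ee, Complex.norm_exp_ofReal_mul_I]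

theorem ee_add (s t : ℝ) : ee (s + t) = ee s * ee t := by
  rw [ee, ee, ee, ← Complex.exp_add]
  congr 1
  push_cast
  ring

/-- Householder reflection taking e1 to u -/
def hh {d : ℕ} (u y : E d) : E d :=
  y - (2 * inner ℝ (u - bas d 0) y / ‖u - bas d 0‖ ^ 2) • (u - bas d 0)

theorem exists_hh {d : ℕ} (u : E d) (hu : ‖u‖ = 1) :
    ∃ S : OG d, (∀ y, act S y = hh u y) ∧ act S (bas d 0) = u := by
  set v : E d := u - bas d 0 with hv
  have hinner : ∀ y z : E d, inner ℝ (hh u y) (hh u z) = inner ℝ y z := by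
    intro y z
    by_cases h0 : v = 0
    · simp [hh, ← hv, h0]
    have hn : ‖v‖ ^ 2 ≠ 0 := by positivity
    simp only [hh, ← hv, inner_sub_left, inner_sub_right, inner_smul_left, inner_smul_right,
      real_inner_self_eq_norm_sq, real_inner_comm v, conj_trivial]
    rw [real_inner_comm y v, real_inner_comm z v]
    field_simp
    ring
  let L0 : E d →ₗ[ℝ] E d :=
    { toFun := hh u
      map_add' := by
        intro y z
        simp only [hh, inner_add_right]
        rw [mul_add, add_div, add_smul]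
        abel
      map_smul' := by
        intro c y
        have e : 2 * inner ℝ v (c • y) / ‖v‖ ^ 2 = c * (2 * inner ℝ v y / ‖v‖ ^ 2) := by
          rw [inner_smul_right]
          ring
        simp only [hh, ← hv, RingHom.id_apply]
        rw [e, smul_sub c y, smul_smul] }
  let L : E d →ₗᵢ[ℝ] E d := L0.isometryOfInner hinner
  obtain ⟨S, hS⟩ := exists_act_eq L
  refine ⟨S, fun y => by rw [hS]; rfl, ?_⟩
  rw [hS]
  show hh u (bas d 0) = u
  by_cases h0 : v = 0
  · have : u = bas d 0 := sub_eq_zero.mp h0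
    simp [hh, this]
  · have hn : ‖v‖ ^ 2 ≠ 0 := by positivity
    have e1 : ‖v‖ ^ 2 = 2 - 2 * inner ℝ u (bas d 0) := by
      rw [hv, norm_sub_sq_real, hu, norm_bas]
      ring
    have e2 : 2 * inner ℝ v (bas d 0) = -‖v‖ ^ 2 := by
      rw [e1, hv, inner_sub_left, real_inner_self_eq_norm_sq, norm_bas]
      ring
    rw [hh, ← hv, e2, neg_div, div_self hn, neg_smul, one_smul, sub_neg_eq_add, hv]
    abel

theorem measurable_hh (d : ℕ) : Measurable fun p : E d × E d => hh p.1 p.2 := by
  unfold hh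
  fun_prop

/-- average over the stabiliser -/
def Av {d : ℕ} (f : E d × E d → ℂ) (ψ : ℝ) (T : OG d) : ℂ :=
  ∫ k : Kst d, f (act T (kact k (va d ψ)), act T (kact k (vb d ψ))) ∂(kap d)

theorem Av_mul {d : ℕ} (f : E d × E d → ℂ) (ψ : ℝ) (T : OG d) (k0 : Kst d) :
    Av f ψ (T * k0) = Av f ψ T := by
  rw [Av, Av]
  rw [← integral_mul_left_eq_self (μ := kap d)
    (fun k : Kst d => f (act T (kact k (va d ψ)), act T (kact k (vb d ψ)))) k0]
  refine integral_congr_ae (Eventually.of_forall fun k => ?_)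
  simp only [kact, act_mul, Subgroup.coe_mul]

theorem Av_eq_of_act_eq {d : ℕ} (f : E d × E d → ℂ) (ψ : ℝ) (S T : OG d)
    (h : act S (bas d 0) = act T (bas d 0)) : Av f ψ S = Av f ψ T := by
  have hk : T⁻¹ * S ∈ Kst d := by
    show act (T⁻¹ * S) (bas d 0) = bas d 0
    rw [act_mul, h, ← act_mul, inv_mul_cancel, act_one]
  have := Av_mul f ψ T ⟨T⁻¹ * S, hk⟩
  rw [← this]
  simp

/-- averaging over the stabiliser does not change the Haar integral -/
theorem integral_average {d : ℕ} (F : OG d → ℂ) (hF : Measurable F) (hb : ∀ T, ‖F T‖ ≤ 1) :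
    ∫ T : OG d, ∫ k : Kst d, F (T * k) ∂(kap d) ∂(mu d) = ∫ T : OG d, F T ∂(mu d) := by
  have hm : Measurable fun p : OG d × Kst d => F (p.1 * (p.2 : OG d)) := by
    refine hF.comp ?_
    exact (continuous_fst.mul (continuous_subtype_val.comp continuous_snd)).measurable
  rw [integral_integral_swap]
  · have : ∀ k : Kst d, ∫ T : OG d, F (T * k) ∂(mu d) = ∫ T : OG d, F T ∂(mu d) := fun k =>
      integral_mul_right_eq_self F (k : OG d)
    simp_rw [this]
    simp
  · exact Integrable.of_bound hm.aestronglyMeasurable 1 (Eventually.of_forall fun p => hb _)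

/-! ### measure identities -/

/-- the product measure with density w on (0, pi/2) times X -/
def wprod {X : Type*} [MeasurableSpace X] (w : ℝ → ℝ) (ν : Measure X) : Measure (ℝ × X) :=
  ((volume.restrict (Ioo 0 (Real.pi / 2))).withDensity fun ψ => ENNReal.ofReal (w ψ)).prod ν

theorem lintegral_wprod {X : Type*} [MeasurableSpace X] (w : ℝ → ℝ) (hw : Measurable w)
    (ν : Measure X) [SFinite ν] (F : ℝ × X → ℝ≥0∞) (hF : Measurable F) :
    ∫⁻ p, F p ∂(wprod w ν) =
      ∫⁻ ψ in Ioo 0 (Real.pi / 2), ENNReal.ofReal (w ψ) * ∫⁻ x, F (ψ, x) ∂ν := by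
  rw [wprod, lintegral_prod _ hF.aemeasurable,
    lintegral_withDensity_eq_lintegral_mul _ hw.ennreal_ofReal hF.lintegral_prod_right']
  rfl

theorem integral_wprod {X : Type*} [MeasurableSpace X] (w : ℝ → ℝ) (hw : Measurable w)
    (hw0 : ∀ ψ ∈ Ioo 0 (Real.pi / 2), 0 ≤ w ψ)
    (ν : Measure X) [SFinite ν] (F : ℝ × X → ℂ) (hF : Integrable F (wprod w ν)) :
    ∫ p, F p ∂(wprod w ν) =
      ∫ ψ in Ioo 0 (Real.pi / 2), (w ψ : ℂ) * ∫ x, F (ψ, x) ∂ν := by
  rw [wprod, integral_prod _ hF,
    integral_withDensity_eq_integral_toReal_smul hw.ennreal_ofReal (Eventually.of_forall fun _ =>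
      ENNReal.ofReal_lt_top)]
  refine setIntegral_congr_fun measurableSet_Ioo fun ψ hψ => ?_
  rw [ENNReal.toReal_ofReal (hw0 ψ hψ)]
  simp

end SPH.R1
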