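import Pool.Agent.SPH.Rec1a

/-! Project SPH, row REC1, part b: the two parametrisations as measure identities. -/

open MeasureTheory Set Metric Filter
open scoped ENNReal NNReal Topology

noncomputable section
namespace SPH.R1

/-- the polar density in the half angle -/
def wpol (d : ℕ) (c : ℝ) (ψ : ℝ) : ℝ := c * (2 * Real.cos ψ) ^ d * (2 * Real.sin ψ)

/-- the pair density in the half angle -/
def wpair (d : ℕ) (c : ℝ) (ψ : ℝ) : ℝ := c * Real.sin (2 * ψ) ^ (d - 1)

theorem sin_pos_half {ψ : ℝ} (h : ψ ∈ Ioo 0 (Real.pi / 2)) : 0 < Real.sin ψ :=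
  Real.sin_pos_of_pos_of_lt_pi h.1 (by have := h.2; have := Real.pi_pos; linarith)

theorem cos_pos_half {ψ : ℝ} (h : ψ ∈ Ioo 0 (Real.pi / 2)) : 0 < Real.cos ψ :=
  Real.cos_pos_of_mem_Ioo ⟨by have := h.1; have := Real.pi_pos; linarith, h.2⟩

theorem wpol_nonneg (d : ℕ) {c : ℝ} (hc : 0 < c) : ∀ ψ ∈ Ioo 0 (Real.pi / 2), 0 ≤ wpol d c ψ := by
  intro ψ h
  have h1 := sin_pos_half h
  have h2 := cos_pos_half h
  unfold wpol
  positivity

theorem wpair_nonneg (d : ℕ) {c : ℝ} (hc : 0 < c) : ∀ ψ ∈ Ioo 0 (Real.pi / 2), 0 ≤ wpair d c ψ := by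
  intro ψ h
  have h1 : 0 ≤ Real.sin (2 * ψ) :=
    (Real.sin_pos_of_pos_of_lt_pi (by linarith [h.1]) (by linarith [h.2])).le
  unfold wpair
  positivity

theorem measurable_wpol (d : ℕ) (c : ℝ) : Measurable (wpol d c) := by
  unfold wpol
  fun_prop

theorem measurable_wpair (d : ℕ) (c : ℝ) : Measurable (wpair d c) := by
  unfold wpair
  fun_prop

theorem image_two_cos : (fun ψ : ℝ => 2 * Real.cos ψ) '' Ioo 0 (Real.pi / 2) = Ioo 0 2 := by
  ext r
  constructor
  · rintro ⟨ψ, hψ, rfl⟩
    have h2 := cos_pos_half hψ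
    have h1 : Real.cos ψ < 1 := by
      have := Real.cos_lt_cos_of_nonneg_of_le_pi_div_two (le_refl 0) hψ.2.le hψ.1
      rwa [Real.cos_zero] at this
    constructor <;> simp only <;> linarith
  · intro hr
    refine ⟨Real.arccos (r / 2), ⟨Real.arccos_pos.mpr (by linarith [hr.2]),
      Real.arccos_lt_pi_div_two.mpr (by linarith [hr.1])⟩, ?_⟩
    simp only
    rw [Real.cos_arccos (by linarith [hr.1]) (by linarith [hr.2])]
    ring

/-- the punctured ball of radius 2 -/
def ann (d : ℕ) : Set (E d) := {x | 0 < ‖x‖ ∧ ‖x‖ < 2}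

theorem measurableSet_ann (d : ℕ) : MeasurableSet (ann d) :=
  (measurableSet_lt measurable_const measurable_norm).inter
    (measurableSet_lt measurable_norm measurable_const)

theorem measurable_polmap (d : ℕ) :
    Measurable fun p : ℝ × OG d => (2 * Real.cos p.1) • act p.2 (bas d 0) := by
  have h : Continuous fun p : ℝ × OG d => act p.2 (bas d 0) :=
    (continuous_act d).comp (continuous_snd.prodMk continuous_const)
  exact (((by fun_prop : Continuous fun p : ℝ × OG d => 2 * Real.cos p.1)).smul h).measurable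

theorem measurable_pairmap (d : ℕ) :
    Measurable fun p : ℝ × OG d => (act p.2 (va d p.1), act p.2 (vb d p.1)) := by
  have h1 : Continuous fun p : ℝ × OG d => act p.2 (va d p.1) :=
    (continuous_act d).comp (continuous_snd.prodMk ((continuous_va d).comp continuous_fst))
  have h2 : Continuous fun p : ℝ × OG d => act p.2 (vb d p.1) :=
    (continuous_act d).comp (continuous_snd.prodMk ((continuous_vb d).comp continuous_fst))
  exact (h1.prodMk h2).measurable

theorem norm_smul_act_bas {d : ℕ} {r : ℝ} (hr : 0 < r) (T : OG d) : ‖r • act T (bas d 0)‖ = r := by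
  rw [norm_smul, norm_act, norm_bas, Real.norm_of_nonneg hr.le, mul_one]

theorem polar_meas (d : ℕ) {c : ℝ}
    (hpol : ∀ e : Sph d, ∀ Φ : E d → ℝ≥0∞, Measurable Φ →
      ∫⁻ x : E d, Φ x =
        ∫⁻ r in Ioi (0 : ℝ), ENNReal.ofReal (c * r ^ d) *
          ∫⁻ T : OG d, Φ (r • act T (e : E d)) ∂(mu d)) :
    (volume : Measure (E d)).restrict (ann d) =
      Measure.map (fun p : ℝ × OG d => (2 * Real.cos p.1) • act p.2 (bas d 0))
        (wprod (wpol d c) (mu d)) := by
  ext S hS
  have he : ‖bas d 0‖ = 1 := norm_bas d 0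
  have hp := hpol ⟨bas d 0, by simp [he]⟩ ((S ∩ ann d).indicator 1)
    (measurable_one.indicator (hS.inter (measurableSet_ann d)))
  rw [lintegral_indicator_one (hS.inter (measurableSet_ann d))] at hp
  rw [Measure.restrict_apply hS, hp, Measure.map_apply (measurable_polmap d) hS,
    ← lintegral_indicator_one ((measurable_polmap d) hS),
    lintegral_wprod _ (measurable_wpol d c) _ _ (measurable_one.indicator ((measurable_polmap d) hS))]
  have e1 : ∫⁻ r in Ioi (0 : ℝ), ENNReal.ofReal (c * r ^ d) *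
        ∫⁻ T : OG d, (S ∩ ann d).indicator (1 : E d → ℝ≥0∞) (r • act T (bas d 0)) ∂(mu d) =
      ∫⁻ r in Ioo (0 : ℝ) 2, ENNReal.ofReal (c * r ^ d) *
        ∫⁻ T : OG d, S.indicator (1 : E d → ℝ≥0∞) (r • act T (bas d 0)) ∂(mu d) := by
    rw [← lintegral_indicator measurableSet_Ioi, ← lintegral_indicator measurableSet_Ioo]
    refine lintegral_congr fun r => ?_
    by_cases hr : r ∈ Ioo (0 : ℝ) 2
    · rw [indicator_of_mem (show r ∈ Ioi (0 : ℝ) from hr.1), indicator_of_mem hr]
      congr 1
      refine lintegral_congr fun T => ?_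
      have hm : r • act T (bas d 0) ∈ ann d := by
        show 0 < ‖_‖ ∧ ‖_‖ < 2
        rw [norm_smul_act_bas hr.1]
        exact hr
      by_cases hs : r • act T (bas d 0) ∈ S
      · rw [indicator_of_mem hs, indicator_of_mem (mem_inter hs hm)]
      · rw [indicator_of_notMem hs, indicator_of_notMem fun h => hs h.1]
    · rw [indicator_of_notMem hr]
      by_cases hr0 : r ∈ Ioi (0 : ℝ)
      · rw [indicator_of_mem hr0]
        have : ∀ T : OG d, (S ∩ ann d).indicator (1 : E d → ℝ≥0∞) (r • act T (bas d 0)) = 0 := by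
          intro T
          refine indicator_of_notMem (fun h => hr ?_) _
          have h2 := h.2
          change 0 < ‖_‖ ∧ ‖_‖ < 2 at h2
          rw [norm_smul_act_bas hr0] at h2
          exact h2
        simp [this]
      · rw [indicator_of_notMem hr0]
  refine (Eq.trans ?_ e1).trans ?_
  · rfl
  rw [← image_two_cos, lintegral_image_eq_lintegral_abs_deriv_mul measurableSet_Ioo
    (f' := fun ψ => 2 * (-Real.sin ψ))]
  · refine setLIntegral_congr_fun measurableSet_Ioo fun ψ hψ => ?_
    have h1 := sin_pos_half hψ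
    have h2 := cos_pos_half hψ
    rw [← mul_assoc, ← ENNReal.ofReal_mul (abs_nonneg _)]
    congr 2
    rw [wpol, abs_mul, abs_neg, abs_of_pos h1, abs_of_pos (by norm_num : (0:ℝ) < 2)]
    ring
  · intro ψ _
    exact ((Real.hasDerivAt_cos ψ).const_mul 2).hasDerivWithinAt
  · intro x hx y hy hxy
    refine Real.injOn_cos ⟨hx.1.le, ?_⟩ ⟨hy.1.le, ?_⟩ ?_
    · have := hx.2; have := Real.pi_pos; linarith
    · have := hy.2; have := Real.pi_pos; linarith
    · simp only at hxy
      linarith

theorem pair_meas (d : ℕ) {c : ℝ}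
    (hpair : ∀ Φ : E d → E d → ℝ≥0∞, Measurable (fun p : E d × E d => Φ p.1 p.2) →
      ∫⁻ x : Sph d, ∫⁻ y : Sph d, Φ x y ∂(sig d) ∂(sig d) =
        ∫⁻ ψ in Ioo 0 (Real.pi / 2), ENNReal.ofReal (c * Real.sin (2 * ψ) ^ (d - 1)) *
          ∫⁻ T : OG d, Φ (act T (va d ψ)) (act T (vb d ψ)) ∂(mu d)) :
    Measure.map (fun p : Sph d × Sph d => ((p.1 : E d), (p.2 : E d))) ((sig d).prod (sig d)) =
      Measure.map (fun p : ℝ × OG d => (act p.2 (va d p.1), act p.2 (vb d p.1)))
        (wprod (wpair d c) (mu d)) := by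
  have hm : Measurable fun p : Sph d × Sph d => ((p.1 : E d), (p.2 : E d)) := by fun_prop
  ext S hS
  have h := hpair (fun x y => S.indicator 1 (x, y)) (measurable_one.indicator hS)
  rw [Measure.map_apply hm hS, Measure.map_apply (measurable_pairmap d) hS,
    ← lintegral_indicator_one (hm hS), ← lintegral_indicator_one ((measurable_pairmap d) hS),
    lintegral_wprod _ (measurable_wpair d c) _ _
      (measurable_one.indicator ((measurable_pairmap d) hS)),
    lintegral_prod _ (measurable_one.indicator (hm hS)).aemeasurable]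
  exact h

end SPH.R1
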