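import Pool.Agent.SPH.Rec1b

/-! Project SPH, row REC1, part c: the function h on the ball of radius 2. -/

open MeasureTheory Set Metric Filter
open scoped ENNReal NNReal Topology

noncomputable section
namespace SPH.R1

/-- half angle of a pair with sum x -/
def psi {d : ℕ} (x : E d) : ℝ := Real.arccos (‖x‖ / 2)

/-- the density of the sum, up to a constant -/
def rho (d : ℕ) (ψ : ℝ) : ℝ := Real.sin ψ ^ (d - 2) / Real.cos ψ

/-- the integrand of hf -/
def hfc {d : ℕ} (f : E d × E d → ℂ) (x : E d) : ℂ :=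
  (rho d (psi x) : ℂ) * ∫ k : Kst d, f (hh (‖x‖⁻¹ • x) (kact k (va d (psi x))),
    hh (‖x‖⁻¹ • x) (kact k (vb d (psi x)))) ∂(kap d)

/-- the density of the image of f sigma sigma under addition -/
def hf {d : ℕ} (f : E d × E d → ℂ) : E d → ℂ := (ann d).indicator (hfc f)

theorem continuous_psi (d : ℕ) : Continuous (psi : E d → ℝ) := by
  unfold psi
  exact Real.continuous_arccos.comp (by fun_prop)

theorem measurable_rho (d : ℕ) : Measurable (rho d) := by
  unfold rho
  fun_prop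

theorem measurable_hf {d : ℕ} {f : E d × E d → ℂ} (hm : Measurable f) : Measurable (hf f) := by
  refine Measurable.indicator ?_ (measurableSet_ann d)
  have hu : Measurable fun p : E d × Kst d => (‖p.1‖⁻¹ • p.1 : E d) := by fun_prop
  have ha : Measurable fun p : E d × Kst d => kact p.2 (va d (psi p.1)) :=
    ((continuous_kact d).comp (continuous_snd.prodMk
      ((continuous_va d).comp ((continuous_psi d).comp continuous_fst)))).measurable
  have hb : Measurable fun p : E d × Kst d => kact p.2 (vb d (psi p.1)) :=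
    ((continuous_kact d).comp (continuous_snd.prodMk
      ((continuous_vb d).comp ((continuous_psi d).comp continuous_fst)))).measurable
  have h1 : Measurable fun p : E d × Kst d => hh (‖p.1‖⁻¹ • p.1) (kact p.2 (va d (psi p.1))) :=
    (measurable_hh d).comp (hu.prodMk ha)
  have h2 : Measurable fun p : E d × Kst d => hh (‖p.1‖⁻¹ • p.1) (kact p.2 (vb d (psi p.1))) :=
    (measurable_hh d).comp (hu.prodMk hb)
  have h3 := (hm.comp (h1.prodMk h2)).stronglyMeasurable.integral_prod_right' (ν := kap d)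
  exact (Complex.measurable_ofReal.comp ((measurable_rho d).comp (continuous_psi d).measurable)).mul
    h3.measurable

theorem polar_mem_ann {d : ℕ} {ψ : ℝ} (h : ψ ∈ Ioo 0 (Real.pi / 2)) (T : OG d) :
    (2 * Real.cos ψ) • act T (bas d 0) ∈ ann d := by
  have h2 := cos_pos_half h
  have h1 : Real.cos ψ < 1 := by
    have := Real.cos_lt_cos_of_nonneg_of_le_pi_div_two (le_refl 0) h.2.le h.1
    rwa [Real.cos_zero] at this
  show 0 < ‖_‖ ∧ ‖_‖ < 2
  rw [norm_smul_act_bas (by positivity)]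
  constructor <;> linarith

theorem hf_param {d : ℕ} (f : E d × E d → ℂ) {ψ : ℝ} (h : ψ ∈ Ioo 0 (Real.pi / 2)) (T : OG d) :
    hf f ((2 * Real.cos ψ) • act T (bas d 0)) = (rho d ψ : ℂ) * Av f ψ T := by
  have h2 := cos_pos_half h
  have hn : ‖(2 * Real.cos ψ) • act T (bas d 0)‖ = 2 * Real.cos ψ :=
    norm_smul_act_bas (by positivity) T
  rw [hf, indicator_of_mem (polar_mem_ann h T), hfc]
  have e1 : psi ((2 * Real.cos ψ) • act T (bas d 0)) = ψ := by
    rw [psi, hn, mul_div_cancel_left₀ _ (two_ne_zero), Real.arccos_cos h.1.le]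
    have := h.2
    have := Real.pi_pos
    linarith
  have e2 : ‖(2 * Real.cos ψ) • act T (bas d 0)‖⁻¹ • ((2 * Real.cos ψ) • act T (bas d 0)) =
      act T (bas d 0) := by
    rw [hn, smul_smul, inv_mul_cancel₀ (by positivity), one_smul]
  rw [e1, e2]
  obtain ⟨S, hS, hS0⟩ := exists_hh (act T (bas d 0)) (by rw [norm_act, norm_bas])
  congr 1
  rw [← Av_eq_of_act_eq f ψ S T hS0, Av]
  simp_rw [hS]

theorem norm_Av_le {d : ℕ} {f : E d × E d → ℂ} (hb : ∀ p, ‖f p‖ ≤ 1) (ψ : ℝ) (T : OG d) :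
    ‖Av f ψ T‖ ≤ 1 := by
  rw [Av]
  refine (norm_integral_le_of_norm_le_const (Eventually.of_forall fun k => hb _)).trans ?_
  simp

theorem measurable_Av {d : ℕ} {f : E d × E d → ℂ} (hm : Measurable f) :
    Measurable fun p : ℝ × OG d => Av f p.1 p.2 := by
  have ha : Continuous fun p : (ℝ × OG d) × Kst d => act p.1.2 (kact p.2 (va d p.1.1)) :=
    (continuous_act d).comp ((continuous_snd.comp continuous_fst).prodMk
      ((continuous_kact d).comp (continuous_snd.prodMk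
        ((continuous_va d).comp (continuous_fst.comp continuous_fst)))))
  have hb : Continuous fun p : (ℝ × OG d) × Kst d => act p.1.2 (kact p.2 (vb d p.1.1)) :=
    (continuous_act d).comp ((continuous_snd.comp continuous_fst).prodMk
      ((continuous_kact d).comp (continuous_snd.prodMk
        ((continuous_vb d).comp (continuous_fst.comp continuous_fst)))))
  exact ((hm.comp (ha.measurable.prodMk hb.measurable)).stronglyMeasurable.integral_prod_right'
    (ν := kap d)).measurable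

theorem rho_nonneg {d : ℕ} {ψ : ℝ} (h : ψ ∈ Ioo 0 (Real.pi / 2)) : 0 ≤ rho d ψ := by
  have h1 := sin_pos_half h
  have h2 := cos_pos_half h
  unfold rho
  positivity

theorem wpol_mul_rho {d : ℕ} (hd : 2 ≤ d) (c : ℝ) {ψ : ℝ} (h : ψ ∈ Ioo 0 (Real.pi / 2)) :
    wpol d c ψ * rho d ψ = 4 * c * Real.sin (2 * ψ) ^ (d - 1) := by
  obtain ⟨e, rfl⟩ := Nat.exists_eq_add_of_le hd
  have h2 := cos_pos_half h
  rw [wpol, rho, Real.sin_two_mul, show 2 + e - 2 = e by omega, show 2 + e - 1 = e + 1 by omega]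
  field_simp
  ring

theorem wpol_mul_rho_sq {d : ℕ} (hd : 2 ≤ d) (c : ℝ) {ψ : ℝ} (h : ψ ∈ Ioo 0 (Real.pi / 2)) :
    wpol d c ψ * rho d ψ ^ 2 = c * 2 ^ (d + 1) * wt d ψ := by
  obtain ⟨e, rfl⟩ := Nat.exists_eq_add_of_le hd
  have h2 := cos_pos_half h
  rw [wpol, rho, wt, show 2 + e - 2 = e by omega, show 2 * (2 + e) - 3 = 2 * e + 1 by omega]
  field_simp
  ring

section pol
variable {d : ℕ} {c : ℝ} (hmeas : (volume : Measure (E d)).restrict (ann d) =
      Measure.map (fun p : ℝ × OG d => (2 * Real.cos p.1) • act p.2 (bas d 0))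
        (wprod (wpol d c) (mu d)))
include hmeas

theorem lintegral_ann (Φ : E d → ℝ≥0∞) (hΦ : Measurable Φ) :
    ∫⁻ x in ann d, Φ x = ∫⁻ ψ in Ioo 0 (Real.pi / 2), ENNReal.ofReal (wpol d c ψ) *
      ∫⁻ T : OG d, Φ ((2 * Real.cos ψ) • act T (bas d 0)) ∂(mu d) := by
  rw [hmeas, lintegral_map hΦ (measurable_polmap d)]
  exact lintegral_wprod _ (measurable_wpol d c) _ _ (hΦ.comp (measurable_polmap d))

theorem integral_ann (hc : 0 < c) (F : E d → ℂ) (hF : Integrable F) (h0 : ∀ x, x ∉ ann d → F x = 0) :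
    ∫ x, F x = ∫ ψ in Ioo 0 (Real.pi / 2), (wpol d c ψ : ℂ) *
      ∫ T : OG d, F ((2 * Real.cos ψ) • act T (bas d 0)) ∂(mu d) := by
  rw [← setIntegral_eq_integral_of_forall_compl_eq_zero (s := ann d) (μ := volume) h0]
  have h1 : Integrable F (Measure.map (fun p : ℝ × OG d => (2 * Real.cos p.1) • act p.2 (bas d 0))
        (wprod (wpol d c) (mu d))) := by
    rw [← hmeas]
    exact hF.integrableOn
  rw [hmeas, integral_map (measurable_polmap d).aemeasurable h1.aestronglyMeasurable]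
  exact integral_wprod _ (measurable_wpol d c) (wpol_nonneg d hc) _ _
      (h1.comp_measurable (measurable_polmap d))

theorem lintegral_hf_le {f : E d × E d → ℂ} (hm : Measurable f) (hb : ∀ p, ‖f p‖ ≤ 1) (n : ℕ)
    (hn : n ≠ 0) :
    ∫⁻ x, ‖hf f x‖ₑ ^ n ≤ ∫⁻ ψ in Ioo 0 (Real.pi / 2), ENNReal.ofReal (wpol d c ψ * rho d ψ ^ n) := by
  have e : ∀ x, ‖hf f x‖ₑ ^ n = (ann d).indicator (fun x => ‖hf f x‖ₑ ^ n) x := by
    intro x
    by_cases hx : x ∈ ann d
    · rw [indicator_of_mem hx]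
    · rw [indicator_of_notMem hx, hf, indicator_of_notMem hx]
      simp [hn]
  rw [lintegral_congr e, lintegral_indicator (measurableSet_ann d),
    lintegral_ann hmeas _ ((measurable_hf hm).enorm.pow_const n)]
  refine setLIntegral_mono' measurableSet_Ioo fun ψ hψ => ?_
  rw [ENNReal.ofReal_mul' (pow_nonneg (rho_nonneg hψ) n)]
  gcongr
  refine (lintegral_mono (g := fun _ => ENNReal.ofReal (rho d ψ ^ n)) fun T => ?_).trans ?_
  · simp only
    rw [hf_param f hψ, enorm_mul, mul_pow, ENNReal.ofReal_pow (rho_nonneg hψ)]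
    have h1 : ‖(rho d ψ : ℂ)‖ₑ = ENNReal.ofReal (rho d ψ) := by
      rw [← ofReal_norm, Complex.norm_real, Real.norm_of_nonneg (rho_nonneg hψ)]
    have h2 : ‖Av f ψ T‖ₑ ≤ 1 := by
      rw [← ofReal_norm]
      exact ENNReal.ofReal_le_one.mpr (norm_Av_le hb ψ T)
    rw [h1]
    calc ENNReal.ofReal (rho d ψ) ^ n * ‖Av f ψ T‖ₑ ^ n ≤ ENNReal.ofReal (rho d ψ) ^ n * 1 ^ n := by
          gcongr
      _ = _ := by simp
  · simp

end pol

theorem lintegral_half_lt_top (w : ℝ → ℝ) (B : ℝ) (h : ∀ ψ ∈ Ioo 0 (Real.pi / 2), w ψ ≤ B) :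
    ∫⁻ ψ in Ioo 0 (Real.pi / 2), ENNReal.ofReal (w ψ) < ⊤ := by
  refine (setLIntegral_mono' measurableSet_Ioo fun ψ hψ =>
    ENNReal.ofReal_le_ofReal (h ψ hψ)).trans_lt ?_
  rw [lintegral_const, Measure.restrict_apply MeasurableSet.univ, univ_inter, Real.volume_Ioo]
  exact ENNReal.mul_lt_top ENNReal.ofReal_lt_top ENNReal.ofReal_lt_top

theorem wt_le_one {d : ℕ} {ψ : ℝ} (h : ψ ∈ Ioo 0 (Real.pi / 2)) : wt d ψ ≤ 1 := by
  have h1 := sin_pos_half h
  have h2 := cos_pos_half h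
  rw [wt]
  exact mul_le_one₀ (pow_le_one₀ h1.le (Real.sin_le_one _)) (by positivity)
    (pow_le_one₀ h2.le (Real.cos_le_one _))

theorem wt_nonneg {d : ℕ} {ψ : ℝ} (h : ψ ∈ Ioo 0 (Real.pi / 2)) : 0 ≤ wt d ψ := by
  have h1 := sin_pos_half h
  have h2 := cos_pos_half h
  rw [wt]
  positivity

section pol2
variable {d : ℕ} {c : ℝ} (hmeas : (volume : Measure (E d)).restrict (ann d) =
      Measure.map (fun p : ℝ × OG d => (2 * Real.cos p.1) • act p.2 (bas d 0))
        (wprod (wpol d c) (mu d))) (hd : 2 ≤ d) (hc : 0 < c)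
include hmeas hd hc

theorem integrable_hf {f : E d × E d → ℂ} (hm : Measurable f) (hb : ∀ p, ‖f p‖ ≤ 1) :
    Integrable (hf f) := by
  refine ⟨(measurable_hf hm).aestronglyMeasurable, ?_⟩
  have h := lintegral_hf_le hmeas hm hb 1 one_ne_zero
  simp only [pow_one] at h
  refine h.trans_lt ?_
  refine lintegral_half_lt_top _ (4 * c) fun ψ hψ => ?_
  rw [wpol_mul_rho hd c hψ]
  have h1 : 0 ≤ Real.sin (2 * ψ) :=
    (Real.sin_pos_of_pos_of_lt_pi (by linarith [hψ.1]) (by linarith [hψ.2])).le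
  have h2 := pow_le_one₀ (n := d - 1) h1 (Real.sin_le_one _)
  nlinarith

theorem memLp_hf {f : E d × E d → ℂ} (hm : Measurable f) (hb : ∀ p, ‖f p‖ ≤ 1) :
    MemLp (hf f) 2 := by
  refine ⟨(measurable_hf hm).aestronglyMeasurable, ?_⟩
  rw [eLpNorm_lt_top_iff_lintegral_rpow_enorm_lt_top (by norm_num) (by norm_num)]
  have h := lintegral_hf_le hmeas hm hb 2 two_ne_zero
  have e : ∀ x, ‖hf f x‖ₑ ^ (ENNReal.toReal 2) = ‖hf f x‖ₑ ^ 2 := by
    intro x
    rw [ENNReal.toReal_ofNat]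
    exact ENNReal.rpow_natCast _ 2
  rw [lintegral_congr e]
  refine h.trans_lt ?_
  refine lintegral_half_lt_top _ (c * 2 ^ (d + 1)) fun ψ hψ => ?_
  rw [wpol_mul_rho_sq hd c hψ]
  exact mul_le_of_le_one_right (by positivity) (wt_le_one hψ)

end pol2

end SPH.R1
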