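import Pool.Agent.SPH.Rec1c

/-! Project SPH, row REC1, part d: Fourier transform of h, inner products, the L4 bound. -/

open MeasureTheory Set Metric Filter
open scoped ENNReal NNReal Topology

noncomputable section
namespace SPH.R1

theorem integral_Av_mul {d : ℕ} {f : E d × E d → ℂ} (hm : Measurable f) (hb : ∀ p, ‖f p‖ ≤ 1)
    (ψ : ℝ) (G : OG d → ℂ) (hG : Measurable G) (hGb : ∀ T, ‖G T‖ ≤ 1)
    (hGk : ∀ T, ∀ k : Kst d, G (T * k) = G T) :
    ∫ T : OG d, Av f ψ T * G T ∂(mu d) =
      ∫ T : OG d, f (act T (va d ψ), act T (vb d ψ)) * G T ∂(mu d) := by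
  have h1 : Measurable fun T : OG d => (act T (va d ψ), act T (vb d ψ)) :=
    (measurable_pairmap d).comp (measurable_const.prodMk measurable_id)
  rw [← integral_average (fun T => f (act T (va d ψ), act T (vb d ψ)) * G T)
    ((hm.comp h1).mul hG)]
  · refine integral_congr_ae (Eventually.of_forall fun T => ?_)
    simp only [hGk, act_mul]
    rw [integral_mul_const]
    rfl
  · intro T
    rw [norm_mul]
    exact mul_le_one₀ (hb _) (norm_nonneg _) (hGb _)

theorem measurable_FT {d : ℕ} {g : E d → ℂ} (hg : Measurable g) : Measurable (FT g) := by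
  have hc : Continuous fun p : E d × Sph d => ee (-(inner ℝ p.1 (p.2 : E d))) :=
    continuous_ee.comp (by fun_prop)
  have hm : Measurable fun p : E d × Sph d => g p.2 * ee (-(inner ℝ p.1 (p.2 : E d))) :=
    (hg.comp (measurable_subtype_coe.comp measurable_snd)).mul hc.measurable
  exact (hm.stronglyMeasurable.integral_prod_right' (ν := sig d)).measurable

theorem cs_lintegral {α : Type*} [MeasurableSpace α] (ν : Measure α) {f g : α → ℝ≥0∞}
    (hf : Measurable f) (hg : Measurable g) :
    (∫⁻ a, f a * g a ∂ν) ^ 2 ≤ (∫⁻ a, f a ^ 2 ∂ν) * ∫⁻ a, g a ^ 2 ∂ν := by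
  have h := ENNReal.lintegral_mul_le_Lp_mul_Lq ν Real.HolderConjugate.two_two hf.aemeasurable
    hg.aemeasurable
  have e : ∀ x : ℝ≥0∞, x ^ (2 : ℝ) = x ^ 2 := fun x => ENNReal.rpow_natCast x 2
  simp only [e, Pi.mul_apply] at h
  calc (∫⁻ a, f a * g a ∂ν) ^ 2 ≤
      ((∫⁻ a, f a ^ 2 ∂ν) ^ (1 / 2 : ℝ) * (∫⁻ a, g a ^ 2 ∂ν) ^ (1 / 2 : ℝ)) ^ 2 := by gcongr
    _ = _ := by
      rw [mul_pow, ← ENNReal.rpow_natCast, ← ENNReal.rpow_natCast, ← ENNReal.rpow_mul,
        ← ENNReal.rpow_mul]
      norm_num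

section main
variable {d : ℕ} {c c' : ℝ} (hmeas : (volume : Measure (E d)).restrict (ann d) =
      Measure.map (fun p : ℝ × OG d => (2 * Real.cos p.1) • act p.2 (bas d 0))
        (wprod (wpol d c) (mu d)))
  (hpmeas : Measure.map (fun p : Sph d × Sph d => ((p.1 : E d), (p.2 : E d)))
        ((sig d).prod (sig d)) =
      Measure.map (fun p : ℝ × OG d => (act p.2 (va d p.1), act p.2 (vb d p.1)))
        (wprod (wpair d c') (mu d)))
  (hd : 2 ≤ d) (hc : 0 < c) (hc' : 0 < c')
include hmeas hd hc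

include hpmeas hc' in
theorem FT_hf {g g' : E d → ℂ} (hg : Measurable g) (hg' : Measurable g') (hb : ∀ x, ‖g x‖ ≤ 1)
    (hb' : ∀ x, ‖g' x‖ ≤ 1) (ξ : E d) :
    ∫ x, hf (fun p => g p.1 * g' p.2) x * ee (-(inner ℝ ξ x)) =
      ((4 * c / c' : ℝ) : ℂ) * (FT g ξ * FT g' ξ) := by
  set f : E d × E d → ℂ := fun p => g p.1 * g' p.2 with hf0
  have hfm : Measurable f := (hg.comp measurable_fst).mul (hg'.comp measurable_snd)
  have hfb : ∀ p, ‖f p‖ ≤ 1 := fun p => by
    rw [hf0, norm_mul]
    exact mul_le_one₀ (hb _) (norm_nonneg _) (hb' _)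
  have hec : Continuous fun x : E d => ee (-(inner ℝ ξ x)) := continuous_ee.comp (by fun_prop)
  have hint : Integrable fun x => hf f x * ee (-(inner ℝ ξ x)) :=
    (integrable_hf hmeas hd hc hfm hfb).mul_bdd hec.aestronglyMeasurable
      (Eventually.of_forall fun x => (norm_ee _).le)
  have hpmc : Measurable fun p : Sph d × Sph d => ((p.1 : E d), (p.2 : E d)) := by fun_prop
  have hPm : Measurable fun p : E d × E d =>
      (g p.1 * ee (-(inner ℝ ξ p.1))) * (g' p.2 * ee (-(inner ℝ ξ p.2))) :=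
    ((hg.comp measurable_fst).mul (hec.measurable.comp measurable_fst)).mul
      ((hg'.comp measurable_snd).mul (hec.measurable.comp measurable_snd))
  have hPb : ∀ p : E d × E d,
      ‖(g p.1 * ee (-(inner ℝ ξ p.1))) * (g' p.2 * ee (-(inner ℝ ξ p.2)))‖ ≤ 1 := by
    intro p
    rw [norm_mul, norm_mul, norm_mul, norm_ee, norm_ee, mul_one, mul_one]
    exact mul_le_one₀ (hb _) (norm_nonneg _) (hb' _)
  have hR : FT g ξ * FT g' ξ = ∫ ψ in Ioo 0 (Real.pi / 2), (wpair d c' ψ : ℂ) *
      ∫ T : OG d, (g (act T (va d ψ)) * ee (-(inner ℝ ξ (act T (va d ψ))))) *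
        (g' (act T (vb d ψ)) * ee (-(inner ℝ ξ (act T (vb d ψ))))) ∂(mu d) := by
    rw [FT, FT, ← integral_prod_mul (fun x : Sph d => g x * ee (-(inner ℝ ξ (x : E d))))
      (fun x : Sph d => g' x * ee (-(inner ℝ ξ (x : E d))))]
    have e1 := integral_map (μ := (sig d).prod (sig d)) hpmc.aemeasurable
      (f := fun p : E d × E d =>
      (g p.1 * ee (-(inner ℝ ξ p.1))) * (g' p.2 * ee (-(inner ℝ ξ p.2))))
      hPm.aestronglyMeasurable
    refine e1.symm.trans ?_
    rw [hpmeas, integral_map (measurable_pairmap d).aemeasurable hPm.aestronglyMeasurable]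
    refine integral_wprod _ (measurable_wpair d c') (wpair_nonneg d hc') _ _ ?_
    have : IsFiniteMeasure (Measure.map (fun p : ℝ × OG d => (act p.2 (va d p.1),
        act p.2 (vb d p.1))) (wprod (wpair d c') (mu d))) := by
      rw [← hpmeas]
      infer_instance
    have h1 : Integrable (fun p : E d × E d =>
        (g p.1 * ee (-(inner ℝ ξ p.1))) * (g' p.2 * ee (-(inner ℝ ξ p.2))))
        (Measure.map (fun p : ℝ × OG d => (act p.2 (va d p.1),
        act p.2 (vb d p.1))) (wprod (wpair d c') (mu d))) :=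
      Integrable.of_bound hPm.aestronglyMeasurable 1 (Eventually.of_forall hPb)
    exact h1.comp_measurable (measurable_pairmap d)
  rw [integral_ann hmeas hc _ hint (fun x hx => by rw [hf, indicator_of_notMem hx, zero_mul]), hR,
    ← integral_const_mul]
  refine setIntegral_congr_fun measurableSet_Ioo fun ψ hψ => ?_
  have hG : Continuous fun T : OG d => ee (-(inner ℝ ξ ((2 * Real.cos ψ) • act T (bas d 0)))) := by
    have h0 : Continuous fun T : OG d => act T (bas d 0) :=
      (continuous_act d).comp (continuous_id.prodMk continuous_const)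
    exact continuous_ee.comp (by fun_prop)
  have e2 := integral_Av_mul hfm hfb ψ
    (fun T : OG d => ee (-(inner ℝ ξ ((2 * Real.cos ψ) • act T (bas d 0))))) hG.measurable
    (fun T => (norm_ee _).le) (fun T k => by
      have : act (k : OG d) (bas d 0) = bas d 0 := kact_bas k
      rw [act_mul, this])
  have e3 : ∀ T : OG d, hf f ((2 * Real.cos ψ) • act T (bas d 0)) *
      ee (-(inner ℝ ξ ((2 * Real.cos ψ) • act T (bas d 0)))) = (rho d ψ : ℂ) * (Av f ψ T *
      ee (-(inner ℝ ξ ((2 * Real.cos ψ) • act T (bas d 0))))) := by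
    intro T
    rw [hf_param f hψ]
    ring
  have e4 : ∀ T : OG d, f (act T (va d ψ), act T (vb d ψ)) *
      ee (-(inner ℝ ξ ((2 * Real.cos ψ) • act T (bas d 0)))) =
      (g (act T (va d ψ)) * ee (-(inner ℝ ξ (act T (va d ψ))))) *
        (g' (act T (vb d ψ)) * ee (-(inner ℝ ξ (act T (vb d ψ))))) := by
    intro T
    rw [← act_smul, ← va_add_vb, act_add, inner_add_right, neg_add, ee_add]
    simp only [hf0]
    ring
  simp_rw [e3]
  rw [integral_const_mul, e2]
  simp_rw [e4]
  have e5 : (wpol d c ψ : ℂ) * (rho d ψ : ℂ) = ((4 * c / c' : ℝ) : ℂ) * (wpair d c' ψ : ℂ) := by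
    rw [← Complex.ofReal_mul, ← Complex.ofReal_mul, wpol_mul_rho hd c hψ, wpair]
    congr 1
    field_simp
  rw [← mul_assoc, e5, mul_assoc]

end main

theorem measurable_act1 {d : ℕ} (v : E d) : Measurable fun p : OG d × Kst d => act p.1 v :=
  ((continuous_act d).comp (continuous_fst.prodMk continuous_const)).measurable

theorem measurable_act2 {d : ℕ} (v : E d) : Measurable fun p : OG d × Kst d => act p.1 (kact p.2 v) :=
  ((continuous_act d).comp (continuous_fst.prodMk ((continuous_kact d).comp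
        (continuous_snd.prodMk continuous_const)))).measurable


end SPH.R1
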