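import Pool.Agent.SPH.Rec1d

/-! Project SPH, row REC1, part e: inner products. -/

open MeasureTheory Set Metric Filter
open scoped ENNReal NNReal Topology

noncomputable section
namespace SPH.R1

theorem conj_Av {d : ℕ} (g0 g1 g2 g3 : E d → ℂ) (ψ : ℝ) (T : OG d) :
    g0 (act T (va d ψ)) * g3 (act T (vb d ψ)) *
        (starRingEnd ℂ) (Av (fun p => g1 p.1 * g2 p.2) ψ T) =
      ∫ k : Kst d, g0 (act T (va d ψ)) * (starRingEnd ℂ) (g1 (act T (kact k (va d ψ)))) *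
        (starRingEnd ℂ) (g2 (act T (kact k (vb d ψ)))) * g3 (act T (vb d ψ)) ∂(kap d) := by
  rw [Av, ← integral_conj, ← integral_const_mul]
  refine integral_congr_ae (Eventually.of_forall fun k => ?_)
  simp only [map_mul]
  ring

theorem norm_four {d : ℕ} {g0 g1 g2 g3 : E d → ℂ} (b0 : ∀ x, ‖g0 x‖ ≤ 1) (b1 : ∀ x, ‖g1 x‖ ≤ 1)
    (b2 : ∀ x, ‖g2 x‖ ≤ 1) (b3 : ∀ x, ‖g3 x‖ ≤ 1) (x0 x1 x2 x3 : E d) :
    ‖g0 x0 * (starRingEnd ℂ) (g1 x1) * (starRingEnd ℂ) (g2 x2) * g3 x3‖ ≤ 1 := by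
  rw [norm_mul, norm_mul, norm_mul, RCLike.norm_conj, RCLike.norm_conj]
  exact mul_le_one₀ (mul_le_one₀ (mul_le_one₀ (b0 _) (norm_nonneg _) (b1 _)) (norm_nonneg _)
      (b2 _)) (norm_nonneg _) (b3 _)

theorem measurable_four {X : Type*} [MeasurableSpace X] {d : ℕ} {g0 g1 g2 g3 : E d → ℂ}
    (m0 : Measurable g0) (m1 : Measurable g1)
    (m2 : Measurable g2) (m3 : Measurable g3) {y0 y1 y2 y3 : X → E d} (h0 : Measurable y0)
    (h1 : Measurable y1) (h2 : Measurable y2) (h3 : Measurable y3) :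
    Measurable fun p => g0 (y0 p) * (starRingEnd ℂ) (g1 (y1 p)) * (starRingEnd ℂ) (g2 (y2 p)) *
      g3 (y3 p) :=
    (((m0.comp h0).mul
      (Complex.continuous_conj.measurable.comp (m1.comp h1))).mul
      (Complex.continuous_conj.measurable.comp (m2.comp h2))).mul
      (m3.comp h3)

theorem integrable_four {d : ℕ} {g0 g1 g2 g3 : E d → ℂ} (m0 : Measurable g0) (m1 : Measurable g1)
    (m2 : Measurable g2) (m3 : Measurable g3) (b0 : ∀ x, ‖g0 x‖ ≤ 1) (b1 : ∀ x, ‖g1 x‖ ≤ 1)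
    (b2 : ∀ x, ‖g2 x‖ ≤ 1) (b3 : ∀ x, ‖g3 x‖ ≤ 1) (ψ : ℝ) :
    Integrable (fun p : OG d × Kst d => g0 (act p.1 (va d ψ)) *
      (starRingEnd ℂ) (g1 (act p.1 (kact p.2 (va d ψ)))) *
        (starRingEnd ℂ) (g2 (act p.1 (kact p.2 (vb d ψ)))) * g3 (act p.1 (vb d ψ)))
        ((mu d).prod (kap d)) :=
  Integrable.of_bound (measurable_four m0 m1 m2 m3 (measurable_act1 _) (measurable_act2 _)
    (measurable_act2 _) (measurable_act1 _)).aestronglyMeasurable 1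
      (Eventually.of_forall fun _ => norm_four b0 b1 b2 b3 _ _ _ _)

theorem swap_four {d : ℕ} {g0 g1 g2 g3 : E d → ℂ} (m0 : Measurable g0) (m1 : Measurable g1)
    (m2 : Measurable g2) (m3 : Measurable g3) (b0 : ∀ x, ‖g0 x‖ ≤ 1) (b1 : ∀ x, ‖g1 x‖ ≤ 1)
    (b2 : ∀ x, ‖g2 x‖ ≤ 1) (b3 : ∀ x, ‖g3 x‖ ≤ 1) (ψ : ℝ) :
    ∫ T : OG d, ∫ k : Kst d, g0 (act T (va d ψ)) *
      (starRingEnd ℂ) (g1 (act T (kact k (va d ψ)))) *
        (starRingEnd ℂ) (g2 (act T (kact k (vb d ψ)))) * g3 (act T (vb d ψ)) ∂(kap d) ∂(mu d) =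
      ∫ k : Kst d,
        J4 g0 g1 g2 g3 (va d ψ) (kact k (va d ψ)) (kact k (vb d ψ)) (vb d ψ) ∂(kap d) := 
  integral_integral_swap (f := fun (T : OG d) (k : Kst d) => g0 (act T (va d ψ)) *
      (starRingEnd ℂ) (g1 (act T (kact k (va d ψ)))) *
        (starRingEnd ℂ) (g2 (act T (kact k (vb d ψ)))) * g3 (act T (vb d ψ)))
    (integrable_four m0 m1 m2 m3 b0 b1 b2 b3 ψ)

theorem measurable_conj_Av {d : ℕ} {f : E d × E d → ℂ} (hfm' : Measurable f) (ψ : ℝ) :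
    Measurable fun T : OG d => (starRingEnd ℂ) (Av f ψ T) := by
  have h := (measurable_Av hfm').comp (measurable_const.prodMk measurable_id : Measurable fun T : OG d => (ψ, T))
  exact Complex.continuous_conj.measurable.comp h

theorem integral_Av_conj {d : ℕ} {f f' : E d × E d → ℂ} (hfm : Measurable f) (hfb : ∀ p, ‖f p‖ ≤ 1) (hfm' : Measurable f') (hfb' : ∀ p, ‖f' p‖ ≤ 1) (ψ : ℝ) :
   ∫ T : OG d, Av f ψ T * (starRingEnd ℂ) (Av f' ψ T) ∂(mu d) =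
    ∫ T : OG d, f (act T (va d ψ), act T (vb d ψ)) * (starRingEnd ℂ) (Av f' ψ T) ∂(mu d) := 
   integral_Av_mul hfm hfb ψ
    (fun T : OG d => (starRingEnd ℂ) (Av f' ψ T)) (measurable_conj_Av hfm' ψ)
    (fun T => by rw [RCLike.norm_conj]; exact norm_Av_le hfb' ψ T) (fun T k => by rw [Av_mul])

theorem inner_psi {d : ℕ} {g0 g1 g2 g3 : E d → ℂ} (m0 : Measurable g0) (m1 : Measurable g1)
    (m2 : Measurable g2) (m3 : Measurable g3) (b0 : ∀ x, ‖g0 x‖ ≤ 1) (b1 : ∀ x, ‖g1 x‖ ≤ 1)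
    (b2 : ∀ x, ‖g2 x‖ ≤ 1) (b3 : ∀ x, ‖g3 x‖ ≤ 1) (ψ : ℝ) :
    ∫ T : OG d, Av (fun p => g0 p.1 * g3 p.2) ψ T *
        (starRingEnd ℂ) (Av (fun p => g1 p.1 * g2 p.2) ψ T) ∂(mu d) =
      ∫ k : Kst d,
        J4 g0 g1 g2 g3 (va d ψ) (kact k (va d ψ)) (kact k (vb d ψ)) (vb d ψ) ∂(kap d) := by
  have hfm : Measurable fun p : E d × E d => g0 p.1 * g3 p.2 :=
    (m0.comp measurable_fst).mul (m3.comp measurable_snd)
  have hfb : ∀ p : E d × E d, ‖g0 p.1 * g3 p.2‖ ≤ 1 := fun p => by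
    rw [norm_mul]
    exact mul_le_one₀ (b0 _) (norm_nonneg _) (b3 _)
  have hfm' : Measurable fun p : E d × E d => g1 p.1 * g2 p.2 :=
    (m1.comp measurable_fst).mul (m2.comp measurable_snd)
  have hfb' : ∀ p : E d × E d, ‖g1 p.1 * g2 p.2‖ ≤ 1 := fun p => by
    rw [norm_mul]
    exact mul_le_one₀ (b1 _) (norm_nonneg _) (b2 _)
  rw [integral_Av_conj hfm hfb hfm' hfb' ψ]
  simp_rw [conj_Av g0 g1 g2 g3 ψ]
  exact swap_four m0 m1 m2 m3 b0 b1 b2 b3 ψ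

section main2
variable {d : ℕ} {c : ℝ} (hmeas : (volume : Measure (E d)).restrict (ann d) =
      Measure.map (fun p : ℝ × OG d => (2 * Real.cos p.1) • act p.2 (bas d 0))
        (wprod (wpol d c) (mu d)))
  (hd : 2 ≤ d) (hc : 0 < c)
include hmeas hd hc

theorem inner_hf0 {f f' : E d × E d → ℂ} (hfm : Measurable f) (hfm' : Measurable f')
    (hfb : ∀ p, ‖f p‖ ≤ 1) (hfb' : ∀ p, ‖f' p‖ ≤ 1) :
    ∫ x, hf f x * (starRingEnd ℂ) (hf f' x) =
      ((c * 2 ^ (d + 1) : ℝ) : ℂ) * ∫ ψ in Ioo 0 (Real.pi / 2), (wt d ψ : ℂ) *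
        ∫ T : OG d, Av f ψ T * (starRingEnd ℂ) (Av f' ψ T) ∂(mu d) := by
  have hconj : Measurable fun x => (starRingEnd ℂ) (hf f' x) :=
    Complex.continuous_conj.measurable.comp (measurable_hf hfm')
  have hint : Integrable fun x => hf f x * (starRingEnd ℂ) (hf f' x) := by
    have h1 := memLp_hf hmeas hd hc hfm hfb
    have h2 : MemLp (fun x => (starRingEnd ℂ) (hf f' x)) 2 :=
      (memLp_hf hmeas hd hc hfm' hfb').of_le hconj.aestronglyMeasurable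
        (Eventually.of_forall fun x => by simp)
    exact h1.integrable_mul h2
  rw [integral_ann hmeas hc _ hint (fun x hx => by
    rw [hf, indicator_of_notMem hx, zero_mul]), ← integral_const_mul]
  refine setIntegral_congr_fun measurableSet_Ioo fun ψ hψ => ?_
  have e3 : ∀ T : OG d, hf f ((2 * Real.cos ψ) • act T (bas d 0)) *
      (starRingEnd ℂ) (hf f' ((2 * Real.cos ψ) • act T (bas d 0))) =
      ((rho d ψ ^ 2 : ℝ) : ℂ) * (Av f ψ T * (starRingEnd ℂ) (Av f' ψ T)) := by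
    intro T
    rw [hf_param f hψ, hf_param f' hψ, map_mul, Complex.conj_ofReal]
    push_cast
    ring
  simp_rw [e3]
  rw [integral_const_mul, ← mul_assoc, ← mul_assoc, ← Complex.ofReal_mul,
    ← Complex.ofReal_mul, wpol_mul_rho_sq hd c hψ]

theorem inner_hf {g0 g1 g2 g3 : E d → ℂ} (m0 : Measurable g0) (m1 : Measurable g1)
    (m2 : Measurable g2) (m3 : Measurable g3) (b0 : ∀ x, ‖g0 x‖ ≤ 1) (b1 : ∀ x, ‖g1 x‖ ≤ 1)
    (b2 : ∀ x, ‖g2 x‖ ≤ 1) (b3 : ∀ x, ‖g3 x‖ ≤ 1) :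
    ∫ x, hf (fun p => g0 p.1 * g3 p.2) x *
        (starRingEnd ℂ) (hf (fun p => g1 p.1 * g2 p.2) x) =
      ((c * 2 ^ (d + 1) : ℝ) : ℂ) * ∫ ψ in Ioo 0 (Real.pi / 2), (wt d ψ : ℂ) * ∫ k : Kst d,
        J4 g0 g1 g2 g3 (va d ψ) (kact k (va d ψ)) (kact k (vb d ψ)) (vb d ψ) ∂(kap d) := by
  have hfm : Measurable fun p : E d × E d => g0 p.1 * g3 p.2 :=
    (m0.comp measurable_fst).mul (m3.comp measurable_snd)
  have hfb : ∀ p : E d × E d, ‖g0 p.1 * g3 p.2‖ ≤ 1 := fun p => by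
    rw [norm_mul]
    exact mul_le_one₀ (b0 _) (norm_nonneg _) (b3 _)
  have hfm' : Measurable fun p : E d × E d => g1 p.1 * g2 p.2 :=
    (m1.comp measurable_fst).mul (m2.comp measurable_snd)
  have hfb' : ∀ p : E d × E d, ‖g1 p.1 * g2 p.2‖ ≤ 1 := fun p => by
    rw [norm_mul]
    exact mul_le_one₀ (b1 _) (norm_nonneg _) (b2 _)
  rw [inner_hf0 hmeas hd hc hfm hfm' hfb hfb']
  congr 1
  refine setIntegral_congr_fun measurableSet_Ioo fun ψ hψ => ?_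
  rw [inner_psi m0 m1 m2 m3 b0 b1 b2 b3 ψ]

end main2

end SPH.R1
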