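import Pool.Agent.SPH.EE
import Pool.Agent.SPH.Pair

/-! Project SPH (MP_f7e9f1_co), helper40, row REC2: monomial weights. -/

open MeasureTheory Set Metric
open scoped ENNReal NNReal Topology

noncomputable section
namespace SPH

/-- product of coordinates -/
def mono {d n : ℕ} (p : Fin n → Fin (d + 1)) (x : E d) : ℝ := ∏ a, x (p a)

theorem inner_pow_eq_mono {d : ℕ} (x y : E d) (n : ℕ) :
    inner ℝ x y ^ n = ∑ p : Fin n → Fin (d + 1), mono p x * mono p y := by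
  have h : inner ℝ x y = ∑ i, x i * y i := by
    rw [PiLp.inner_apply]
    refine Finset.sum_congr rfl fun i _ => ?_
    simp [mul_comm]
  rw [h, Fintype.sum_pow]
  refine Finset.sum_congr rfl fun p _ => ?_
  unfold mono
  rw [Finset.prod_mul_distrib]

theorem continuous_mono {d n : ℕ} (p : Fin n → Fin (d + 1)) : Continuous (mono p) := by
  unfold mono
  exact continuous_finsetProd _ fun a _ => (EuclideanSpace.proj (𝕜 := ℝ) (p a)).continuous

theorem abs_mono_le {d n : ℕ} (p : Fin n → Fin (d + 1)) (x : E d) (hx : ‖x‖ ≤ 1) : |mono p x| ≤ 1 := by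
  unfold mono
  rw [Finset.abs_prod]
  refine Finset.prod_le_one (fun a _ => abs_nonneg _) fun a _ => ?_
  have h := PiLp.norm_apply_le x (p a)
  rw [Real.norm_eq_abs] at h
  exact h.trans hx

/-- g times a function, cut off outside the unit ball -/
def cutg {d : ℕ} (g : E d → ℂ) (m : E d → ℝ) (x : E d) : ℂ :=
  (Metric.closedBall (0 : E d) 1).indicator (fun x => g x * ((m x : ℝ) : ℂ)) x

theorem measurable_cutg {d : ℕ} {g : E d → ℂ} (hg : Measurable g) {m : E d → ℝ} (hm : Continuous m) :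
    Measurable (cutg g m) := by
  have h : Measurable fun x => g x * ((m x : ℝ) : ℂ) :=
    hg.mul (Complex.measurable_ofReal.comp hm.measurable)
  exact h.indicator measurableSet_closedBall

theorem norm_cutg_le {d : ℕ} {g : E d → ℂ} (hg : ∀ x, ‖g x‖ ≤ 1) {m : E d → ℝ}
    (hm : ∀ x, ‖x‖ ≤ 1 → |m x| ≤ 1) (x : E d) : ‖cutg g m x‖ ≤ 1 := by
  unfold cutg
  by_cases hx : x ∈ Metric.closedBall (0 : E d) 1
  · rw [Set.indicator_of_mem hx, norm_mul, Complex.norm_real, Real.norm_eq_abs]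
    have hx' : ‖x‖ ≤ 1 := by simpa using hx
    calc ‖g x‖ * |m x| ≤ 1 * 1 := mul_le_mul (hg x) (hm x hx') (abs_nonneg _) zero_le_one
      _ = 1 := one_mul 1
  · rw [Set.indicator_of_notMem hx]
    simp

theorem cutg_of_norm {d : ℕ} (g : E d → ℂ) (m : E d → ℝ) {x : E d} (hx : ‖x‖ = 1) :
    cutg g m x = g x * ((m x : ℝ) : ℂ) := by
  unfold cutg
  rw [Set.indicator_of_mem]
  simp [hx]

theorem integrable_J4 {d : ℕ} {g0 g1 g2 g3 : E d → ℂ} (m0 : Measurable g0) (m1 : Measurable g1)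
    (m2 : Measurable g2) (m3 : Measurable g3) (h0 : ∀ x, ‖g0 x‖ ≤ 1) (h1 : ∀ x, ‖g1 x‖ ≤ 1)
    (h2 : ∀ x, ‖g2 x‖ ≤ 1) (h3 : ∀ x, ‖g3 x‖ ≤ 1) (y0 y1 y2 y3 : E d) :
    Integrable (fun T : OG d => g0 (act T y0) * (starRingEnd ℂ) (g1 (act T y1)) *
      (starRingEnd ℂ) (g2 (act T y2)) * g3 (act T y3)) (mu d) := by
  have ha : ∀ y : E d, Measurable fun T : OG d => act T y := fun y =>
    meas_act measurable_id measurable_const
  have hconj : Measurable (starRingEnd ℂ) := Complex.continuous_conj.measurable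
  refine Integrable.of_bound (C := 1) ?_ (Filter.Eventually.of_forall fun T => ?_)
  · exact ((((m0.comp (ha y0)).mul (hconj.comp (m1.comp (ha y1)))).mul
      (hconj.comp (m2.comp (ha y2)))).mul (m3.comp (ha y3))).aestronglyMeasurable
  · rw [norm_mul, norm_mul, norm_mul, RCLike.norm_conj, RCLike.norm_conj]
    have e1 : ‖g0 (act T y0)‖ * ‖g1 (act T y1)‖ ≤ 1 :=
      mul_le_one₀ (h0 _) (norm_nonneg _) (h1 _)
    have e2 : ‖g0 (act T y0)‖ * ‖g1 (act T y1)‖ * ‖g2 (act T y2)‖ ≤ 1 :=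
      mul_le_one₀ e1 (norm_nonneg _) (h2 _)
    exact mul_le_one₀ e2 (norm_nonneg _) (h3 _)

theorem norm_J4_le {d : ℕ} {g0 g1 g2 g3 : E d → ℂ} (h0 : ∀ x, ‖g0 x‖ ≤ 1) (h1 : ∀ x, ‖g1 x‖ ≤ 1)
    (h2 : ∀ x, ‖g2 x‖ ≤ 1) (h3 : ∀ x, ‖g3 x‖ ≤ 1) (y0 y1 y2 y3 : E d) :
    ‖J4 g0 g1 g2 g3 y0 y1 y2 y3‖ ≤ 1 := by
  unfold J4
  have h := norm_integral_le_of_norm_le_const (μ := mu d) (C := 1)
    (f := fun T : OG d => g0 (act T y0) * (starRingEnd ℂ) (g1 (act T y1)) *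
      (starRingEnd ℂ) (g2 (act T y2)) * g3 (act T y3))
    (Filter.Eventually.of_forall fun T => by
      rw [norm_mul, norm_mul, norm_mul, RCLike.norm_conj, RCLike.norm_conj]
      have e1 : ‖g0 (act T y0)‖ * ‖g1 (act T y1)‖ ≤ 1 :=
        mul_le_one₀ (h0 _) (norm_nonneg _) (h1 _)
      have e2 : ‖g0 (act T y0)‖ * ‖g1 (act T y1)‖ * ‖g2 (act T y2)‖ ≤ 1 :=
        mul_le_one₀ e1 (norm_nonneg _) (h2 _)
      exact mul_le_one₀ e2 (norm_nonneg _) (h3 _))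
  simpa using h

theorem stronglyMeasurable_J4 {d : ℕ} {α : Type*} [MeasurableSpace α] {g0 g1 g2 g3 : E d → ℂ}
    (m0 : Measurable g0) (m1 : Measurable g1)
    (m2 : Measurable g2) (m3 : Measurable g3) {y0 y1 y2 y3 : α → E d} (k0 : Measurable y0)
    (k1 : Measurable y1) (k2 : Measurable y2) (k3 : Measurable y3) :
    StronglyMeasurable fun a => J4 g0 g1 g2 g3 (y0 a) (y1 a) (y2 a) (y3 a) := by
  have hconj : Measurable (starRingEnd ℂ) := Complex.continuous_conj.measurable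
  have ha : ∀ {y : α → E d}, Measurable y → Measurable fun p : α × OG d => act p.2 (y p.1) :=
    fun {y} hy => meas_act measurable_snd (hy.comp measurable_fst)
  have hm : Measurable fun p : α × OG d => g0 (act p.2 (y0 p.1)) * (starRingEnd ℂ) (g1 (act p.2 (y1 p.1))) *
      (starRingEnd ℂ) (g2 (act p.2 (y2 p.1))) * g3 (act p.2 (y3 p.1)) :=
    (((m0.comp (ha k0)).mul (hconj.comp (m1.comp (ha k1)))).mul
      (hconj.comp (m2.comp (ha k2)))).mul (m3.comp (ha k3))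
  exact hm.stronglyMeasurable.integral_prod_right' (ν := mu d)

/-- expansion of the weighted rectangle average -/
theorem weighted_J4 {d : ℕ} {g : E d → ℂ} (hgm : Measurable g) (hg : ∀ x, ‖g x‖ ≤ 1) (α β : ℕ)
    {y0 y1 y2 y3 : E d} (n0 : ‖y0‖ = 1) (n1 : ‖y1‖ = 1) (n2 : ‖y2‖ = 1) :
    ((inner ℝ y0 y1 ^ α * inner ℝ y0 y2 ^ β : ℝ) : ℂ) * J4 g g g g y0 y1 y2 y3 =
      ∑ p : Fin α → Fin (d + 1), ∑ q : Fin β → Fin (d + 1),
        J4 (cutg g (fun x => mono p x * mono q x)) (cutg g (mono p)) (cutg g (mono q)) g y0 y1 y2 y3 := by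
  have key : ∀ T : OG d, ((inner ℝ y0 y1 ^ α * inner ℝ y0 y2 ^ β : ℝ) : ℂ) *
      (g (act T y0) * (starRingEnd ℂ) (g (act T y1)) * (starRingEnd ℂ) (g (act T y2)) * g (act T y3)) =
      ∑ p : Fin α → Fin (d + 1), ∑ q : Fin β → Fin (d + 1),
        (cutg g (fun x => mono p x * mono q x) (act T y0) * (starRingEnd ℂ) (cutg g (mono p) (act T y1)) *
          (starRingEnd ℂ) (cutg g (mono q) (act T y2)) * g (act T y3)) := by
    intro T
    have m0 : ‖act T y0‖ = 1 := by rw [norm_act, n0]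
    have m1 : ‖act T y1‖ = 1 := by rw [norm_act, n1]
    have m2 : ‖act T y2‖ = 1 := by rw [norm_act, n2]
    rw [← inner_act_act T y0 y1, ← inner_act_act T y0 y2, inner_pow_eq_mono, inner_pow_eq_mono,
      Finset.sum_mul_sum]
    push_cast
    rw [Finset.sum_mul]
    refine Finset.sum_congr rfl fun p _ => ?_
    rw [Finset.sum_mul]
    refine Finset.sum_congr rfl fun q _ => ?_
    rw [cutg_of_norm _ _ m0, cutg_of_norm _ _ m1, cutg_of_norm _ _ m2]
    simp only [map_mul, Complex.conj_ofReal]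
    push_cast
    ring
  have hb : ∀ (p : Fin α → Fin (d + 1)) (q : Fin β → Fin (d + 1)) (x : E d), ‖x‖ ≤ 1 →
      |mono p x * mono q x| ≤ 1 := by
    intro p q x hx
    rw [abs_mul]
    exact mul_le_one₀ (abs_mono_le p x hx) (abs_nonneg _) (abs_mono_le q x hx)
  have hint : ∀ (p : Fin α → Fin (d + 1)) (q : Fin β → Fin (d + 1)),
      Integrable (fun T : OG d => cutg g (fun x => mono p x * mono q x) (act T y0) *
        (starRingEnd ℂ) (cutg g (mono p) (act T y1)) *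
          (starRingEnd ℂ) (cutg g (mono q) (act T y2)) * g (act T y3)) (mu d) := by
    intro p q
    exact integrable_J4 (measurable_cutg hgm ((continuous_mono p).mul (continuous_mono q)))
      (measurable_cutg hgm (continuous_mono p)) (measurable_cutg hgm (continuous_mono q)) hgm
      (norm_cutg_le hg (hb p q)) (norm_cutg_le hg (abs_mono_le p)) (norm_cutg_le hg (abs_mono_le q)) hg
      y0 y1 y2 y3
  unfold J4
  rw [← integral_const_mul]
  simp_rw [key]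
  rw [integral_finsetSum _ fun p _ => integrable_finsetSum _ fun q _ => hint p q]
  refine Finset.sum_congr rfl fun p _ => ?_
  rw [integral_finsetSum _ fun q _ => hint p q]

theorem norm_va_eq {d : ℕ} (hd : 1 ≤ d) (ψ : ℝ) : ‖va d ψ‖ = 1 := by
  have h := inner_va_va hd ψ
  rw [real_inner_self_eq_norm_sq] at h
  nlinarith [norm_nonneg (va d ψ)]

theorem norm_vb_eq {d : ℕ} (hd : 1 ≤ d) (ψ : ℝ) : ‖vb d ψ‖ = 1 := by
  have h := inner_vb_vb hd ψ
  rw [real_inner_self_eq_norm_sq] at h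
  nlinarith [norm_nonneg (vb d ψ)]

theorem norm_kact {d : ℕ} (k : Kst d) (x : E d) : ‖kact k x‖ = ‖x‖ := norm_act _ _

theorem abs_wt_le (d : ℕ) (ψ : ℝ) : |wt d ψ| ≤ 1 := by
  unfold wt
  rw [abs_mul, abs_pow, abs_pow]
  exact mul_le_one₀ (pow_le_one₀ (abs_nonneg _) (Real.abs_sin_le_one ψ)) (pow_nonneg (abs_nonneg _) _)
    (pow_le_one₀ (abs_nonneg _) (Real.abs_cos_le_one ψ))

theorem meas_kact {d : ℕ} {α : Type*} [MeasurableSpace α] {f : α → Kst d} {g : α → E d}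
    (hf : Measurable f) (hg : Measurable g) : Measurable fun a => kact (f a) (g a) :=
  meas_act (measurable_subtype_coe.comp hf) hg

/-- ROW REC2, with rect_L4 and L4_bound as hypotheses. -/
theorem rect_mono_of (d : ℕ) (hd : 3 ≤ d)
    (hrect : ∃ C : ℝ, 0 < C ∧ ∀ g0 g1 g2 g3 : E d → ℂ,
      Measurable g0 → Measurable g1 → Measurable g2 → Measurable g3 →
      (∀ x, ‖g0 x‖ ≤ 1) → (∀ x, ‖g1 x‖ ≤ 1) → (∀ x, ‖g2 x‖ ≤ 1) → (∀ x, ‖g3 x‖ ≤ 1) →
      ‖∫ ψ in Ioo 0 (Real.pi / 2), (wt d ψ : ℂ) * ∫ k : Kst d,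
          J4 g0 g1 g2 g3 (va d ψ) (kact k (va d ψ)) (kact k (vb d ψ)) (vb d ψ) ∂(kap d)‖ₑ ^ 4 ≤
        ENNReal.ofReal C * (∫⁻ ξ : E d, ‖FT g0 ξ‖ₑ ^ 4) * (∫⁻ ξ : E d, ‖FT g1 ξ‖ₑ ^ 4) *
          (∫⁻ ξ : E d, ‖FT g2 ξ‖ₑ ^ 4) * (∫⁻ ξ : E d, ‖FT g3 ξ‖ₑ ^ 4))
    (hL4 : ∃ C : ℝ, 0 < C ∧ ∀ g : E d → ℂ, Measurable g →
      (∀ x, ‖g x‖ ≤ 1) → ∀ M : ℝ, 0 ≤ M → (∀ ξ, ‖FT g ξ‖ ≤ M) →
      ∫⁻ ξ : E d, ‖FT g ξ‖ₑ ^ 4 ≤ ENNReal.ofReal (C * M ^ ((2 : ℝ) / 3)))
    (α β : ℕ) : ∃ C : ℝ, 0 < C ∧ ∀ g : E d → ℂ, Measurable g →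
    (∀ x, ‖g x‖ ≤ 1) →
    ‖∫ ψ in Ioo 0 (Real.pi / 2), (wt d ψ : ℂ) * ∫ k : Kst d,
        ((inner ℝ (va d ψ) (kact k (va d ψ)) ^ α * inner ℝ (va d ψ) (kact k (vb d ψ)) ^ β : ℝ) : ℂ) *
        J4 g g g g (va d ψ) (kact k (va d ψ)) (kact k (vb d ψ)) (vb d ψ) ∂(kap d)‖ₑ ^ 4 ≤
      ENNReal.ofReal C * (∫⁻ ξ : E d, ‖FT g ξ‖ₑ ^ 4) := by
  obtain ⟨C0, hC0, hrect⟩ := hrect
  obtain ⟨C1, hC1, hL4⟩ := hL4
  set n : ℕ := Fintype.card ((Fin α → Fin (d + 1)) × (Fin β → Fin (d + 1))) with hn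
  refine ⟨((n : ℝ) + 1) ^ 4 * (C0 * C1 * C1 * C1), by positivity, ?_⟩
  intro g hgm hg
  have hb : ∀ (p : Fin α → Fin (d + 1)) (q : Fin β → Fin (d + 1)) (x : E d), ‖x‖ ≤ 1 →
      |mono p x * mono q x| ≤ 1 := by
    intro p q x hx
    rw [abs_mul]
    exact mul_le_one₀ (abs_mono_le p x hx) (abs_nonneg _) (abs_mono_le q x hx)
  set F : (Fin α → Fin (d + 1)) → (Fin β → Fin (d + 1)) → ℝ → Kst d → ℂ := fun p q ψ k =>
    J4 (cutg g (fun x => mono p x * mono q x)) (cutg g (mono p)) (cutg g (mono q)) g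
      (va d ψ) (kact k (va d ψ)) (kact k (vb d ψ)) (vb d ψ) with hF
  have hFn : ∀ p q ψ k, ‖F p q ψ k‖ ≤ 1 := fun p q ψ k =>
    norm_J4_le (norm_cutg_le hg (hb p q)) (norm_cutg_le hg (abs_mono_le p))
      (norm_cutg_le hg (abs_mono_le q)) hg _ _ _ _
  have hFm : ∀ p q, StronglyMeasurable fun a : ℝ × Kst d => F p q a.1 a.2 := by
    intro p q
    have hva : Measurable fun a : ℝ × Kst d => va d a.1 := (continuous_va d).measurable.comp measurable_fst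
    have hvb : Measurable fun a : ℝ × Kst d => vb d a.1 := (continuous_vb d).measurable.comp measurable_fst
    exact stronglyMeasurable_J4 (measurable_cutg hgm ((continuous_mono p).mul (continuous_mono q)))
      (measurable_cutg hgm (continuous_mono p)) (measurable_cutg hgm (continuous_mono q)) hgm
      hva (meas_kact measurable_snd hva) (meas_kact measurable_snd hvb) hvb
  have hFk : ∀ p q ψ, Integrable (fun k => F p q ψ k) (kap d) := by
    intro p q ψ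
    refine Integrable.of_bound (C := 1) ?_ (Filter.Eventually.of_forall fun k => hFn p q ψ k)
    exact ((hFm p q).comp_measurable measurable_prodMk_left).aestronglyMeasurable
  have hFψ : ∀ p q, Integrable (fun ψ => (wt d ψ : ℂ) * ∫ k, F p q ψ k ∂(kap d))
      (volume.restrict (Ioo 0 (Real.pi / 2))) := by
    intro p q
    have hfin : IsFiniteMeasure ((volume : Measure ℝ).restrict (Ioo 0 (Real.pi / 2))) :=
      isFiniteMeasure_restrict.mpr (by simp)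
    refine Integrable.of_bound (C := 1) ?_ (Filter.Eventually.of_forall fun ψ => ?_)
    · refine AEStronglyMeasurable.mul ?_ ?_
      · have : Measurable fun ψ : ℝ => ((wt d ψ : ℝ) : ℂ) := by
          refine Complex.measurable_ofReal.comp ?_
          unfold wt
          fun_prop
        exact this.aestronglyMeasurable
      · exact ((hFm p q).integral_prod_right' (ν := kap d)).aestronglyMeasurable
    · rw [norm_mul, Complex.norm_real, Real.norm_eq_abs]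
      refine mul_le_one₀ (abs_wt_le d ψ) (norm_nonneg _) ?_
      have h := norm_integral_le_of_norm_le_const (μ := kap d) (C := 1) (f := fun k => F p q ψ k)
        (Filter.Eventually.of_forall fun k => hFn p q ψ k)
      simpa using h
  have hd1 : 1 ≤ d := by omega
  have hsum : (∫ ψ in Ioo 0 (Real.pi / 2), (wt d ψ : ℂ) * ∫ k : Kst d,
        ((inner ℝ (va d ψ) (kact k (va d ψ)) ^ α * inner ℝ (va d ψ) (kact k (vb d ψ)) ^ β : ℝ) : ℂ) *
        J4 g g g g (va d ψ) (kact k (va d ψ)) (kact k (vb d ψ)) (vb d ψ) ∂(kap d)) =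
      ∑ r : (Fin α → Fin (d + 1)) × (Fin β → Fin (d + 1)),
        ∫ ψ in Ioo 0 (Real.pi / 2), (wt d ψ : ℂ) * ∫ k : Kst d, F r.1 r.2 ψ k ∂(kap d) := by
    rw [← integral_finsetSum _ fun r _ => hFψ r.1 r.2]
    refine integral_congr_ae (Filter.Eventually.of_forall fun ψ => ?_)
    show (wt d ψ : ℂ) * _ = ∑ r : (Fin α → Fin (d + 1)) × (Fin β → Fin (d + 1)),
      (wt d ψ : ℂ) * ∫ k : Kst d, F r.1 r.2 ψ k ∂(kap d)
    rw [← Finset.mul_sum, ← integral_finsetSum _ fun r _ => hFk r.1 r.2 ψ]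
    congr 1
    refine integral_congr_ae (Filter.Eventually.of_forall fun k => ?_)
    show _ = ∑ r : (Fin α → Fin (d + 1)) × (Fin β → Fin (d + 1)), F r.1 r.2 ψ k
    rw [Fintype.sum_prod_type]
    exact weighted_J4 hgm hg α β (norm_va_eq hd1 ψ) (by rw [norm_kact, norm_va_eq hd1])
      (by rw [norm_kact, norm_vb_eq hd1])
  rw [hsum]
  set L : ℝ≥0∞ := ∫⁻ ξ : E d, ‖FT g ξ‖ₑ ^ 4 with hL
  have hone : ∀ r : (Fin α → Fin (d + 1)) × (Fin β → Fin (d + 1)),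
      ‖∫ ψ in Ioo 0 (Real.pi / 2), (wt d ψ : ℂ) * ∫ k : Kst d, F r.1 r.2 ψ k ∂(kap d)‖ₑ ^ 4 ≤
        ENNReal.ofReal (C0 * C1 * C1 * C1) * L := by
    intro r
    obtain ⟨p, q⟩ := r
    have mA := measurable_cutg hgm ((continuous_mono p).mul (continuous_mono q))
    have mB := measurable_cutg hgm (continuous_mono p)
    have mC := measurable_cutg hgm (continuous_mono q)
    have nA := norm_cutg_le hg (hb p q)
    have nB := norm_cutg_le hg (abs_mono_le p)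
    have nC := norm_cutg_le hg (abs_mono_le q)
    have hh := hrect _ _ _ _ mA mB mC hgm nA nB nC hg
    have bA := hL4 _ mA nA 1 zero_le_one (norm_FT_le nA)
    have bB := hL4 _ mB nB 1 zero_le_one (norm_FT_le nB)
    have bC := hL4 _ mC nC 1 zero_le_one (norm_FT_le nC)
    rw [Real.one_rpow, mul_one] at bA bB bC
    refine hh.trans ?_
    rw [ENNReal.ofReal_mul (by positivity), ENNReal.ofReal_mul (by positivity),
      ENNReal.ofReal_mul hC0.le]
    gcongr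
  have hne : (Finset.univ : Finset ((Fin α → Fin (d + 1)) × (Fin β → Fin (d + 1)))).Nonempty :=
    Finset.univ_nonempty
  obtain ⟨r0, -, hr0⟩ := Finset.exists_max_image Finset.univ
    (fun r : (Fin α → Fin (d + 1)) × (Fin β → Fin (d + 1)) =>
      ‖∫ ψ in Ioo 0 (Real.pi / 2), (wt d ψ : ℂ) * ∫ k : Kst d, F r.1 r.2 ψ k ∂(kap d)‖ₑ) hne
  have hle : ‖∑ r : (Fin α → Fin (d + 1)) × (Fin β → Fin (d + 1)),
        ∫ ψ in Ioo 0 (Real.pi / 2), (wt d ψ : ℂ) * ∫ k : Kst d, F r.1 r.2 ψ k ∂(kap d)‖ₑ ≤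
      ((n : ℝ≥0∞)) * ‖∫ ψ in Ioo 0 (Real.pi / 2), (wt d ψ : ℂ) * ∫ k : Kst d,
        F r0.1 r0.2 ψ k ∂(kap d)‖ₑ := by
    refine (enorm_sum_le _ _).trans ?_
    refine (Finset.sum_le_card_nsmul _ _ _ fun r hr => hr0 r hr).trans ?_
    rw [nsmul_eq_mul, hn, Finset.card_univ]
  calc ‖∑ r : (Fin α → Fin (d + 1)) × (Fin β → Fin (d + 1)),
        ∫ ψ in Ioo 0 (Real.pi / 2), (wt d ψ : ℂ) * ∫ k : Kst d, F r.1 r.2 ψ k ∂(kap d)‖ₑ ^ 4
      ≤ (((n : ℝ≥0∞)) * ‖∫ ψ in Ioo 0 (Real.pi / 2), (wt d ψ : ℂ) * ∫ k : Kst d,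
        F r0.1 r0.2 ψ k ∂(kap d)‖ₑ) ^ 4 := by gcongr
    _ = ((n : ℝ≥0∞)) ^ 4 * ‖∫ ψ in Ioo 0 (Real.pi / 2), (wt d ψ : ℂ) * ∫ k : Kst d,
        F r0.1 r0.2 ψ k ∂(kap d)‖ₑ ^ 4 := by rw [mul_pow]
    _ ≤ ((n : ℝ≥0∞) + 1) ^ 4 * (ENNReal.ofReal (C0 * C1 * C1 * C1) * L) := by
        gcongr
        · exact le_self_add
        · exact hone r0
    _ = ENNReal.ofReal (((n : ℝ) + 1) ^ 4 * (C0 * C1 * C1 * C1)) * L := by
        have e1 : ENNReal.ofReal (((n : ℝ) + 1) ^ 4) = ((n : ℝ≥0∞) + 1) ^ 4 := by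
          rw [ENNReal.ofReal_pow (by positivity), ENNReal.ofReal_add (by positivity) zero_le_one,
            ENNReal.ofReal_natCast, ENNReal.ofReal_one]
        rw [ENNReal.ofReal_mul (p := ((n : ℝ) + 1) ^ 4) (by positivity), e1, ← mul_assoc]

end SPH
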