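import Pool.Agent.SPH.PolyL1
import Pool.Agent.SPH.Lebm
import Pool.Agent.SPH.Nuleb

/-! Project SPH (MP_f7e9f1_co), part of row UTHM: the average over rectangles is small when the Fourier
transform is small. The other rows enter as hypotheses. -/

open MeasureTheory Set Metric Filter
open scoped ENNReal NNReal Topology

noncomputable section
namespace SPH

theorem lm_norm_va {d : ℕ} (hd : 1 ≤ d) (ψ : ℝ) : ‖va d ψ‖ = 1 := by
  have h : ‖va d ψ‖ ^ 2 = 1 := by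
    rw [← real_inner_self_eq_norm_sq, va]
    have h0 := lm_inner_bas_zero_one hd
    have h1 : inner ℝ (bas d 1) (bas d 0) = 0 := by rw [real_inner_comm]; exact h0
    simp only [inner_add_left, inner_add_right, inner_smul_left, inner_smul_right, h0, h1,
      lm_inner_bas_self, conj_trivial]
    have := Real.sin_sq_add_cos_sq ψ
    nlinarith
  have h2 : (0 : ℝ) ≤ ‖va d ψ‖ := norm_nonneg _
  nlinarith

theorem lm_norm_vb {d : ℕ} (hd : 1 ≤ d) (ψ : ℝ) : ‖vb d ψ‖ = 1 := by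
  have h : ‖vb d ψ‖ ^ 2 = 1 := by
    rw [← real_inner_self_eq_norm_sq, vb]
    have h0 := lm_inner_bas_zero_one hd
    have h1 : inner ℝ (bas d 1) (bas d 0) = 0 := by rw [real_inner_comm]; exact h0
    simp only [inner_sub_left, inner_sub_right, inner_smul_left, inner_smul_right, h0, h1,
      lm_inner_bas_self, conj_trivial]
    have := Real.sin_sq_add_cos_sq ψ
    nlinarith
  have h2 : (0 : ℝ) ≤ ‖vb d ψ‖ := norm_nonneg _
  nlinarith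

theorem lm_norm_kact {d : ℕ} (k : Kst d) (x : E d) : ‖kact k x‖ = ‖x‖ := norm_act _ _

theorem lm_va_add_vb {d : ℕ} (ψ : ℝ) (k : Kst d) :
    va d ψ + vb d ψ = kact k (va d ψ) + kact k (vb d ψ) := by
  have h1 : kact k (va d ψ) + kact k (vb d ψ) = kact k (va d ψ + vb d ψ) := (act_add _ _ _).symm
  have h2 : va d ψ + vb d ψ = (2 * Real.cos ψ) • bas d 0 := by
    unfold va vb
    rw [mul_smul, two_smul]
    abel
  rw [h1, h2]
  show _ = act (k : OG d) ((2 * Real.cos ψ) • bas d 0)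
  rw [act_smul]
  rw [show act (k : OG d) (bas d 0) = bas d 0 from lm_kact_bas_zero k]

/-- the weighted measure in psi -/
def rhoM (d : ℕ) : Measure ℝ :=
  (volume.restrict (Ioo 0 (Real.pi / 2))).withDensity fun ψ => ENNReal.ofReal (wt d ψ)

instance instFiniteRhoM (d : ℕ) : IsFiniteMeasure (rhoM d) := by
  refine isFiniteMeasure_withDensity ?_
  have h : ∫⁻ ψ in Ioo 0 (Real.pi / 2), ENNReal.ofReal (wt d ψ) ≤
      ∫⁻ _ψ in Ioo 0 (Real.pi / 2), 1 := by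
    refine setLIntegral_mono measurable_const fun ψ hψ => ?_
    have h1 : 0 < Real.sin ψ := Real.sin_pos_of_pos_of_lt_pi hψ.1 (by linarith [hψ.2, Real.pi_pos])
    have h2 : 0 < Real.cos ψ := Real.cos_pos_of_mem_Ioo ⟨by linarith [hψ.1, Real.pi_pos], hψ.2⟩
    have h3 : wt d ψ ≤ 1 :=
      mul_le_one₀ (pow_le_one₀ h1.le (Real.sin_le_one _)) (pow_nonneg h2.le _)
        (pow_le_one₀ h2.le (Real.cos_le_one _))
    calc ENNReal.ofReal (wt d ψ) ≤ ENNReal.ofReal 1 := ENNReal.ofReal_le_ofReal h3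
      _ = 1 := ENNReal.ofReal_one
  refine ne_top_of_le_ne_top ?_ h
  simp

/-- the map to (s,t) -/
def stMap (d : ℕ) (p : ℝ × Kst d) : ℝ × ℝ :=
  (inner ℝ (va d p.1) (kact p.2 (va d p.1)), inner ℝ (va d p.1) (kact p.2 (vb d p.1)))

theorem mm_eq (d : ℕ) : mm d = Measure.map (stMap d) ((rhoM d).prod (kap d)) := rfl

theorem lm_measurable_stMap {d : ℕ} (hd : 1 ≤ d) : Measurable (stMap d) := lm_measurable_st d hd

instance instFiniteMM (d : ℕ) : IsFiniteMeasure (mm d) := by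
  rw [mm_eq]
  infer_instance

instance instFiniteNuu (q : ℝ) (δ : ℝ → ℝ) : IsFiniteMeasure (nuu q δ) := by
  unfold nuu
  infer_instance

theorem mm_compl_sqK {d : ℕ} (hd : 1 ≤ d) : mm d sqKᶜ = 0 := by
  rw [mm_eq, Measure.map_apply (lm_measurable_stMap hd) measurableSet_sqK.compl]
  have : stMap d ⁻¹' sqKᶜ = ∅ := by
    ext p
    simp only [mem_preimage, mem_compl_iff, mem_empty_iff_false, iff_false, not_not]
    have h1 : |inner ℝ (va d p.1) (kact p.2 (va d p.1))| ≤ 1 := by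
      refine (abs_real_inner_le_norm _ _).trans ?_
      rw [lm_norm_kact, lm_norm_va hd, one_mul]
    have h2 : |inner ℝ (va d p.1) (kact p.2 (vb d p.1))| ≤ 1 := by
      refine (abs_real_inner_le_norm _ _).trans ?_
      rw [lm_norm_kact, lm_norm_va hd, lm_norm_vb hd, one_mul]
    exact ⟨abs_le.mp h1, abs_le.mp h2⟩
  rw [this, measure_empty]

/-- the hypothesis REC3 (a) in its weak form -/
def HJ4 (d : ℕ) : Prop :=
  ∀ (g : E d → ℂ) (y0 y1 y2 y3 : E d), ‖y0‖ = 1 → ‖y1‖ = 1 → ‖y2‖ = 1 → ‖y3‖ = 1 →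
    y0 + y3 = y1 + y2 → inner ℝ y0 y1 + inner ℝ y0 y2 < 2 →
    J4 g g g g y0 y1 y2 y3 = jg g (inner ℝ y0 y1) (inner ℝ y0 y2)

theorem lm_integral_mm {d : ℕ} (hd : 3 ≤ d) (hJ : HJ4 d)
    (g : E d → ℂ) (hm : Measurable fun p : ℝ × ℝ => jg g p.1 p.2) (hb : ∀ s t, ‖jg g s t‖ ≤ 1)
    (α β : ℕ) :
    ∫ p, ((p.1 ^ α * p.2 ^ β : ℝ) : ℂ) * jg g p.1 p.2 ∂(mm d) =
    ∫ ψ in Ioo 0 (Real.pi / 2), (wt d ψ : ℂ) * ∫ k : Kst d,
        ((inner ℝ (va d ψ) (kact k (va d ψ)) ^ α * inner ℝ (va d ψ) (kact k (vb d ψ)) ^ β : ℝ) : ℂ) *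
        J4 g g g g (va d ψ) (kact k (va d ψ)) (kact k (vb d ψ)) (vb d ψ) ∂(kap d) := by
  have hd1 : 1 ≤ d := by omega
  have hF : Measurable fun p : ℝ × ℝ => ((p.1 ^ α * p.2 ^ β : ℝ) : ℂ) * jg g p.1 p.2 := by
    refine Measurable.mul ?_ hm
    exact Complex.measurable_ofReal.comp (by fun_prop)
  rw [mm_eq, integral_map (lm_measurable_stMap hd1).aemeasurable hF.aestronglyMeasurable]
  have hFs : Measurable fun p : ℝ × Kst d =>
      (((stMap d p).1 ^ α * (stMap d p).2 ^ β : ℝ) : ℂ) * jg g (stMap d p).1 (stMap d p).2 :=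
    hF.comp (lm_measurable_stMap hd1)
  have hbd : ∀ p : ℝ × Kst d,
      ‖(((stMap d p).1 ^ α * (stMap d p).2 ^ β : ℝ) : ℂ) * jg g (stMap d p).1 (stMap d p).2‖ ≤ 1 := by
    intro p
    have h1 : |inner ℝ (va d p.1) (kact p.2 (va d p.1))| ≤ 1 := by
      refine (abs_real_inner_le_norm _ _).trans ?_
      rw [lm_norm_kact, lm_norm_va hd1, one_mul]
    have h2 : |inner ℝ (va d p.1) (kact p.2 (vb d p.1))| ≤ 1 := by
      refine (abs_real_inner_le_norm _ _).trans ?_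
      rw [lm_norm_kact, lm_norm_va hd1, lm_norm_vb hd1, one_mul]
    rw [norm_mul, Complex.norm_real, Real.norm_eq_abs, abs_mul, abs_pow, abs_pow]
    refine mul_le_one₀ (mul_le_one₀ (pow_le_one₀ (abs_nonneg _) h1)
      (pow_nonneg (abs_nonneg _) _) (pow_le_one₀ (abs_nonneg _) h2)) (norm_nonneg _) (hb _ _)
  have hint : Integrable (fun p : ℝ × Kst d =>
      (((stMap d p).1 ^ α * (stMap d p).2 ^ β : ℝ) : ℂ) * jg g (stMap d p).1 (stMap d p).2)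
      ((rhoM d).prod (kap d)) :=
    Integrable.of_bound hFs.aestronglyMeasurable 1 (Filter.Eventually.of_forall hbd)
  rw [integral_prod _ hint]
  unfold rhoM
  rw [integral_withDensity_eq_integral_toReal_smul ((lm_measurable_wt d).ennreal_ofReal)
    (Filter.Eventually.of_forall fun _ => ENNReal.ofReal_lt_top)]
  refine setIntegral_congr_fun measurableSet_Ioo fun ψ hψ => ?_
  have hw := lm_wt_pos (d := d) hψ
  show (ENNReal.ofReal (wt d ψ)).toReal • _ = (wt d ψ : ℂ) * _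
  rw [ENNReal.toReal_ofReal hw.le]
  rw [Complex.real_smul]
  congr 1
  refine integral_congr_ae (Filter.Eventually.of_forall fun k => ?_)
  show (((stMap d (ψ, k)).1 ^ α * (stMap d (ψ, k)).2 ^ β : ℝ) : ℂ) *
    jg g (stMap d (ψ, k)).1 (stMap d (ψ, k)).2 = _
  have hsum : inner ℝ (va d ψ) (kact k (va d ψ)) + inner ℝ (va d ψ) (kact k (vb d ψ)) < 2 := by
    rw [(lm_inner_va_kact hd1 ψ k).1, (lm_inner_va_kact hd1 ψ k).2]
    have hs : 0 < Real.sin ψ := Real.sin_pos_of_pos_of_lt_pi hψ.1 (by linarith [hψ.2, Real.pi_pos])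
    have := Real.sin_sq_add_cos_sq ψ
    nlinarith
  beta_reduce
  rw [hJ g (va d ψ) (kact k (va d ψ)) (kact k (vb d ψ)) (vb d ψ) (lm_norm_va hd1 ψ)
    (by rw [lm_norm_kact, lm_norm_va hd1]) (by rw [lm_norm_kact, lm_norm_vb hd1]) (lm_norm_vb hd1 ψ)
    (lm_va_add_vb ψ k) hsum]
  rfl

/-- the rectangles coming from the two Cauchy-Schwarz steps -/
theorem rect_small {d : ℕ} (hd : 3 ≤ d) (hJ : HJ4 d)
    (hmj : ∀ g : E d → ℂ, Measurable g → Measurable fun p : ℝ × ℝ => jg g p.1 p.2)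
    (hnj : ∀ g : E d → ℂ, (∀ x, ‖g x‖ ≤ 1) → ∀ s t : ℝ, ‖jg g s t‖ ≤ 1)
    (hklaw : ∀ N : Set ℝ, MeasurableSet N →
      kap d {k | inner ℝ (bas d 1) (kact k (bas d 1)) ∈ N} = 0 → volume (N ∩ Ioo (-1) 1) = 0)
    (hL4 : ∃ C : ℝ, 0 < C ∧ ∀ g : E d → ℂ, Measurable g →
      (∀ x, ‖g x‖ ≤ 1) → ∀ M : ℝ, 0 ≤ M → (∀ ξ, ‖FT g ξ‖ ≤ M) →
      ∫⁻ ξ : E d, ‖FT g ξ‖ₑ ^ 4 ≤ ENNReal.ofReal (C * M ^ ((2 : ℝ) / 3)))
    (hR2 : ∀ α β : ℕ, ∃ C : ℝ, 0 < C ∧ ∀ g : E d → ℂ, Measurable g → (∀ x, ‖g x‖ ≤ 1) →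
      ‖∫ ψ in Ioo 0 (Real.pi / 2), (wt d ψ : ℂ) * ∫ k : Kst d,
        ((inner ℝ (va d ψ) (kact k (va d ψ)) ^ α * inner ℝ (va d ψ) (kact k (vb d ψ)) ^ β : ℝ) : ℂ) *
        J4 g g g g (va d ψ) (kact k (va d ψ)) (kact k (vb d ψ)) (vb d ψ) ∂(kap d)‖ₑ ^ 4 ≤
      ENNReal.ofReal C * (∫⁻ ξ : E d, ‖FT g ξ‖ₑ ^ 4))
    (q : ℝ) (δ : ℝ → ℝ) (hq : 0 < q) (hδm : Measurable δ)
    (hδ1 : ∀ θ ∈ Ioo 0 Real.pi, 0 < δ θ ∧ δ θ ≤ 1)
    (hδ2 : ∀ θ ∈ Ioo 0 Real.pi, ∀ φ ∈ Ioo 0 Real.pi,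
        0 ≤ (1 - q * (1 - Real.cos θ)) + (1 - δ θ * (1 - Real.cos φ)))
    (η : ℝ) (hη : 0 < η) :
    ∃ ε : ℝ, 0 < ε ∧ ∀ g : E d → ℂ, Measurable g → (∀ x, ‖g x‖ ≤ 1) → (∀ ξ, ‖FT g ξ‖ ≤ ε) →
      ‖∫ θ in Ioo 0 Real.pi, ∫ φ in Ioo 0 Real.pi,
        jg g (1 - q * (1 - Real.cos θ)) (1 - δ θ * (1 - Real.cos φ))‖ ≤ η := by
  have hd1 : 1 ≤ d := by omega
  obtain ⟨C0, hC0, hL4⟩ := hL4
  set G := {g : E d → ℂ // Measurable g ∧ ∀ x, ‖g x‖ ≤ 1} with hG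
  set J : G → ℝ × ℝ → ℂ := fun g p => jg g.1 p.1 p.2 with hJdef
  set P : ℝ → G → Prop := fun ε g => ∀ ξ, ‖FT g.1 ξ‖ ≤ ε with hPdef
  have hP : ∀ ε ε' g, ε ≤ ε' → P ε g → P ε' g := fun ε ε' g hle h ξ => (h ξ).trans hle
  have hJm : ∀ g, Measurable (J g) := fun g => hmj g.1 g.2.1
  have hJ1 : ∀ g p, ‖J g p‖ ≤ 1 := fun g p => hnj g.1 g.2.2 _ _
  have hmono : ∀ α β : ℕ, SmallW (mm d) J P (fun p => p.1 ^ α * p.2 ^ β) := by
    intro α β η hη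
    obtain ⟨C, hC, hR⟩ := hR2 α β
    refine ⟨(η ^ 4 / (C * C0)) ^ ((3 : ℝ) / 2), Real.rpow_pos_of_pos (by positivity) _, ?_⟩
    intro g hg
    have hε0 : 0 ≤ (η ^ 4 / (C * C0)) ^ ((3 : ℝ) / 2) := (Real.rpow_pos_of_pos (by positivity) _).le
    have h1 := hR g.1 g.2.1 g.2.2
    have h2 := hL4 g.1 g.2.1 g.2.2 _ hε0 hg
    rw [← lm_integral_mm hd hJ g.1 (hmj g.1 g.2.1) (hnj g.1 g.2.2) α β] at h1
    have h3 : ((η ^ 4 / (C * C0)) ^ ((3 : ℝ) / 2)) ^ ((2 : ℝ) / 3) = η ^ 4 / (C * C0) := by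
      rw [← Real.rpow_mul (by positivity)]
      norm_num
    rw [h3] at h2
    set I := ∫ p, ((p.1 ^ α * p.2 ^ β : ℝ) : ℂ) * jg g.1 p.1 p.2 ∂(mm d) with hI
    have h4 : ‖I‖ₑ ^ 4 ≤ ENNReal.ofReal (η ^ 4) := by
      calc ‖I‖ₑ ^ 4 ≤ ENNReal.ofReal C * ENNReal.ofReal (C0 * (η ^ 4 / (C * C0))) :=
            h1.trans (by gcongr)
        _ = ENNReal.ofReal (C * (C0 * (η ^ 4 / (C * C0)))) := (ENNReal.ofReal_mul hC.le).symm
        _ = ENNReal.ofReal (η ^ 4) := by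
            congr 1
            field_simp
    have h5 : ‖I‖ ^ 4 ≤ η ^ 4 := by
      rw [← ofReal_norm, ← ENNReal.ofReal_pow (norm_nonneg _)] at h4
      exact (ENNReal.ofReal_le_ofReal_iff (by positivity)).mp h4
    show ‖I‖ ≤ η
    exact le_of_pow_le_pow_left₀ (by norm_num) hη.le h5
  have hac : nuu q δ ≪ mm d := by
    refine Measure.AbsolutelyContinuous.mk fun N hN h0 => ?_
    exact nuu_ac q δ hq hδm hδ1 hδ2 N hN (leb_ac_mm_of d hd hklaw N hN h0)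
  have hf : Integrable (fun p => ((nuu q δ).rnDeriv (mm d) p).toReal) (mm d) :=
    Measure.integrable_toReal_rnDeriv
  obtain ⟨ε, hε, H⟩ := smallW_of_monomials (mm d) (mm_compl_sqK hd1) J P hP hJm hJ1 hmono _ hf η hη
  refine ⟨ε, hε, fun g hgm hg1 hgε => ?_⟩
  have h := H ⟨g, hgm, hg1⟩ hgε
  have e1 : ∫ p, (((nuu q δ).rnDeriv (mm d) p).toReal : ℂ) * J ⟨g, hgm, hg1⟩ p ∂(mm d) =
      ∫ p, jg g p.1 p.2 ∂(nuu q δ) := by
    rw [← integral_rnDeriv_smul hac]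
    refine integral_congr_ae (Filter.Eventually.of_forall fun p => ?_)
    show _ = ((nuu q δ).rnDeriv (mm d) p).toReal • jg g p.1 p.2
    rw [Complex.real_smul]
  rw [e1] at h
  have hΦ : Measurable (fun p : ℝ × ℝ =>
      ((1 - q * (1 - Real.cos p.1), 1 - δ p.1 * (1 - Real.cos p.2)) : ℝ × ℝ)) := by fun_prop
  have e2 : ∫ p, jg g p.1 p.2 ∂(nuu q δ) =
      ∫ θ in Ioo 0 Real.pi, ∫ φ in Ioo 0 Real.pi,
        jg g (1 - q * (1 - Real.cos θ)) (1 - δ θ * (1 - Real.cos φ)) := by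
    unfold nuu
    rw [integral_map hΦ.aemeasurable (hmj g hgm).aestronglyMeasurable]
    rw [integral_prod]
    refine Integrable.of_bound ((hmj g hgm).comp hΦ).aestronglyMeasurable 1
      (Filter.Eventually.of_forall fun p => hnj g hg1 _ _)
  rw [e2] at h
  exact h

end SPH
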