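import Pool.Agent.SPH.Defs

/-! Project SPH: the doubling step. Control of the multilinear form of a finite family of points at one
of its vertices follows from the control of the families obtained by doubling the points outside B
by almost every rotation of a one parameter group which fixes B. -/

open MeasureTheory Set Metric Filter
open scoped ENNReal NNReal Topology

noncomputable section
namespace SPH

/-- the multilinear form of a finite family of points -/
def form {d : ℕ} {ι : Type*} [Fintype ι] (v : ι → Sph d) (φ : ι → Sph d → ℝ) : ℝ :=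
  ∫ T : OG d, ∏ i, φ i (T • v i) ∂(mu d)

/-- all Fourier coefficients of g sigma are at most ε -/
def SmallFT {d : ℕ} (g : Sph d → ℝ) (ε : ℝ) : Prop :=
  ∀ ξ : E d, ‖∫ x : Sph d, ((g x : ℝ) : ℂ) * ee (-(inner ℝ ξ (x : E d))) ∂(sig d)‖ ≤ ε

/-- the form is controlled at the vertex i0 by the Fourier norm of the function at i0 -/
def CtrlAt {d : ℕ} {ι : Type*} [Fintype ι] (v : ι → Sph d) (i0 : ι) : Prop :=
  ∀ κ : ℝ, 0 < κ → ∃ ε : ℝ, 0 < ε ∧ ∀ φ : ι → Sph d → ℝ, (∀ i, Measurable (φ i)) →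
    (∀ i x, |φ i x| ≤ 1) → SmallFT (φ i0) ε → |form v φ| ≤ κ

/-- the doubled family: the points outside B and their images under r -/
def dbl {d : ℕ} {ι : Type*} (v : ι → Sph d) (B : Finset ι) (r : OG d) :
    {i // i ∉ B} ⊕ {i // i ∉ B} → Sph d :=
  Sum.elim (fun i => v i) (fun i => r • v i)

/-- the doubled family of functions -/
def dblf {d : ℕ} {ι : Type*} (φ : ι → Sph d → ℝ) (B : Finset ι) :
    {i // i ∉ B} ⊕ {i // i ∉ B} → Sph d → ℝ :=
  Sum.elim (fun i => φ i) (fun i => φ i)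

section step
variable {d : ℕ} {ι : Type*} [Fintype ι] [DecidableEq ι]

theorem form_dbl (v : ι → Sph d) (B : Finset ι) (r : OG d) (φ : ι → Sph d → ℝ) :
    form (dbl v B r) (dblf φ B) =
      ∫ T : OG d, (∏ i : {i // i ∉ B}, φ i (T • v i)) * ∏ i : {i // i ∉ B}, φ i ((T * r) • v i) ∂(mu d) := by
  unfold form
  refine integral_congr_ae (Eventually.of_forall fun T => ?_)
  show ∏ i, dblf φ B i (T • dbl v B r i) = _
  rw [Fintype.prod_sum_type]
  simp only [dbl, dblf, Sum.elim_inl, Sum.elim_inr, smul_smul]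

/-- integrability of bounded measurable functions -/
theorem Stp.integrable_bdd {α : Type*} [MeasurableSpace α] {μ : Measure α} [IsFiniteMeasure μ]
    {f : α → ℝ} (hf : Measurable f) (C : ℝ) (h : ∀ x, |f x| ≤ C) : Integrable f μ :=
  Integrable.of_bound hf.aestronglyMeasurable C (Eventually.of_forall h)

theorem Stp.abs_prod_le {κ : Type*} (s : Finset κ) (f : κ → ℝ) (h : ∀ i ∈ s, |f i| ≤ 1) :
    |∏ i ∈ s, f i| ≤ 1 := by
  rw [Finset.abs_prod]
  exact Finset.prod_le_one (fun i _ => abs_nonneg _) h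

/-- abstract Cauchy-Schwarz step for a periodic one parameter group -/
theorem Stp.core (R : ℝ → OG d) (hRc : Continuous R) (hadd : ∀ s t, R (s + t) = R s * R t)
    (hper : R (2 * Real.pi) = 1) (F X : OG d → ℝ) (hF : Measurable F) (hX : Measurable X)
    (hF1 : ∀ T, |F T| ≤ 1) (hX1 : ∀ T, |X T| ≤ 1) (hFR : ∀ T θ, F (T * R θ) = F T) :
    (∫ T, F T * X T ∂(mu d)) ^ 2 ≤ (1 / (2 * Real.pi)) *
      ∫ τ in Ioc 0 (2 * Real.pi), ∫ T, X T * X (T * R τ) ∂(mu d) := by
  set L : ℝ := 2 * Real.pi with hL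
  have hLpos : 0 < L := by positivity
  set ν : Measure ℝ := volume.restrict (Ioc 0 L) with hν
  have : IsFiniteMeasure ν := ⟨by
    rw [hν, Measure.restrict_apply_univ, Real.volume_Ioc]
    exact ENNReal.ofReal_lt_top⟩
  have hmulR : Measurable fun p : OG d × ℝ => p.1 * R p.2 :=
    (continuous_fst.mul (hRc.comp continuous_snd)).measurable
  have hXR : Measurable fun p : OG d × ℝ => X (p.1 * R p.2) := hX.comp hmulR
  set Y : OG d → ℝ := fun T => ∫ τ, X (T * R τ) ∂ν with hY
  have hYm : Measurable Y := by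
    have h : StronglyMeasurable fun p : OG d × ℝ => X (p.1 * R p.2) := hXR.stronglyMeasurable
    exact h.integral_prod_right.measurable
  have hν1 : ν.real univ = L := by
    rw [hν, measureReal_restrict_apply_univ, Real.volume_real_Ioc_of_le hLpos.le]
    ring
  have hYb : ∀ T, |Y T| ≤ L := by
    intro T
    have h := norm_integral_le_of_norm_le_const (μ := ν) (f := fun τ => X (T * R τ)) (C := 1)
      (Eventually.of_forall fun τ => hX1 _)
    rw [one_mul, hν1] at h
    exact h
  have hYR : ∀ T σ, Y (T * R σ) = Y T := by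
    intro T σ
    have hp : Function.Periodic (fun τ => X (T * R τ)) L := by
      intro τ
      show X (T * R (τ + L)) = X (T * R τ)
      rw [hadd, hper, mul_one]
    have e1 : Y (T * R σ) = ∫ τ in (0 : ℝ)..L, X (T * R (σ + τ)) := by
      rw [intervalIntegral.integral_of_le hLpos.le]
      show ∫ τ, X (T * R σ * R τ) ∂ν = _
      refine integral_congr_ae (Eventually.of_forall fun τ => ?_)
      show X (T * R σ * R τ) = X (T * R (σ + τ))
      rw [hadd, mul_assoc]
    have e2 : Y T = ∫ τ in (0 : ℝ)..L, X (T * R τ) := by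
      rw [intervalIntegral.integral_of_le hLpos.le]
    rw [e1, e2, intervalIntegral.integral_comp_add_left (fun τ => X (T * R τ)) σ, add_zero]
    have h := hp.intervalIntegral_add_eq σ 0
    rw [zero_add] at h
    exact h
  -- the swap
  have hswap : ∀ G : OG d → ℝ, Measurable G → (∃ C, ∀ T, |G T| ≤ C) →
      ∫ T, G T * Y T ∂(mu d) = ∫ τ, ∫ T, G T * X (T * R τ) ∂(mu d) ∂ν := by
    intro G hG ⟨C, hC⟩
    have e1 : ∀ T, G T * Y T = ∫ τ, G T * X (T * R τ) ∂ν := fun T =>
      (integral_const_mul _ _).symm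
    simp only [e1]
    refine integral_integral_swap ?_
    refine Stp.integrable_bdd ?_ C fun p => ?_
    · exact (hG.comp measurable_fst).mul hXR
    · show |G p.1 * X (p.1 * R p.2)| ≤ C
      rw [abs_mul]
      calc |G p.1| * |X (p.1 * R p.2)| ≤ |G p.1| * 1 :=
            mul_le_mul_of_nonneg_left (hX1 _) (abs_nonneg _)
        _ ≤ C := by rw [mul_one]; exact hC _
  have hshift : ∀ (G : OG d → ℝ) (τ : ℝ), ∫ T, G (T * R τ) ∂(mu d) = ∫ T, G T ∂(mu d) := fun G τ =>
    integral_mul_right_eq_self (μ := mu d) G (R τ)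
  set I : ℝ := ∫ T, F T * X T ∂(mu d) with hI
  have h1 : ∫ T, F T * Y T ∂(mu d) = L * I := by
    rw [hswap F hF ⟨1, hF1⟩]
    have e : ∀ τ, ∫ T, F T * X (T * R τ) ∂(mu d) = I := by
      intro τ
      rw [hI, ← hshift (fun T => F T * X T) τ]
      refine integral_congr_ae (Eventually.of_forall fun T => ?_)
      show F T * X (T * R τ) = F (T * R τ) * X (T * R τ)
      rw [hFR]
    simp only [e, integral_const, hν1, smul_eq_mul]
  have h2 : ∫ T, Y T * Y T ∂(mu d) = L * ∫ T, X T * Y T ∂(mu d) := by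
    rw [hswap Y hYm ⟨L, hYb⟩]
    have e : ∀ τ, ∫ T, Y T * X (T * R τ) ∂(mu d) = ∫ T, X T * Y T ∂(mu d) := by
      intro τ
      rw [← hshift (fun T => X T * Y T) τ]
      refine integral_congr_ae (Eventually.of_forall fun T => ?_)
      show Y T * X (T * R τ) = X (T * R τ) * Y (T * R τ)
      rw [hYR, mul_comm]
    simp only [e, integral_const, hν1, smul_eq_mul]
  have h3 : ∫ T, X T * Y T ∂(mu d) = ∫ τ, ∫ T, X T * X (T * R τ) ∂(mu d) ∂ν :=
    hswap X hX ⟨1, hX1⟩
  -- Cauchy-Schwarz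
  have hFY : Measurable fun T => F T * Y T := hF.mul hYm
  have iYY : Integrable (fun T => Y T * Y T) (mu d) :=
    Stp.integrable_bdd (hYm.mul hYm) (L * L) fun T => by
      rw [abs_mul]
      exact mul_le_mul (hYb T) (hYb T) (abs_nonneg _) hLpos.le
  have iFY : Integrable (fun T => F T * Y T) (mu d) :=
    Stp.integrable_bdd hFY (1 * L) fun T => by
      rw [abs_mul]
      exact mul_le_mul (hF1 T) (hYb T) (abs_nonneg _) zero_le_one
  have iFF : Integrable (fun T => F T * F T) (mu d) :=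
    Stp.integrable_bdd (hF.mul hF) (1 * 1) fun T => by
      rw [abs_mul]
      exact mul_le_mul (hF1 T) (hF1 T) (abs_nonneg _) zero_le_one
  set c : ℝ := ∫ T, F T * Y T ∂(mu d) with hc
  have h4 : c ^ 2 ≤ ∫ T, Y T * Y T ∂(mu d) := by
    have hnn : 0 ≤ ∫ T, (Y T - c * F T) ^ 2 ∂(mu d) := integral_nonneg fun T => sq_nonneg _
    have e : ∫ T, (Y T - c * F T) ^ 2 ∂(mu d) =
        ∫ T, Y T * Y T ∂(mu d) - 2 * c * c + c ^ 2 * ∫ T, F T * F T ∂(mu d) := by
      have e0 : ∀ T, (Y T - c * F T) ^ 2 = Y T * Y T - (2 * c) * (F T * Y T) + c ^ 2 * (F T * F T) := by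
        intro T
        ring
      simp only [e0]
      have j1 : Integrable (fun T => 2 * c * (F T * Y T)) (mu d) := iFY.const_mul _
      have j2 : Integrable (fun T => c ^ 2 * (F T * F T)) (mu d) := iFF.const_mul _
      have j3 : Integrable (fun T => Y T * Y T - 2 * c * (F T * Y T)) (mu d) := iYY.sub j1
      rw [integral_add j3 j2, integral_sub iYY j1, integral_const_mul, integral_const_mul, ← hc]
    have hFF1 : ∫ T, F T * F T ∂(mu d) ≤ 1 := by
      have h := integral_mono iFF (integrable_const (1 : ℝ)) (fun T => by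
        show F T * F T ≤ 1
        have := hF1 T
        rw [abs_le] at this
        nlinarith [this.1, this.2])
      simpa using h
    rw [e] at hnn
    nlinarith [mul_le_mul_of_nonneg_left hFF1 (sq_nonneg c)]
  rw [h1] at h4
  rw [h2, h3] at h4
  have h5 : L * (L * I ^ 2) ≤ L * ∫ τ, ∫ T, X T * X (T * R τ) ∂(mu d) ∂ν := by
    calc L * (L * I ^ 2) = (L * I) ^ 2 := by ring
      _ ≤ _ := h4
  have h6 := le_of_mul_le_mul_left h5 hLpos
  rw [one_div, inv_mul_eq_div, le_div_iff₀ hLpos]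
  linarith

theorem measurable_term (v : ι → Sph d) (φ : ι → Sph d → ℝ) (hφ : ∀ i, Measurable (φ i))
    {κ : Type*} [Fintype κ] (e : κ → ι) : Measurable fun T : OG d => ∏ i, φ (e i) (T • v (e i)) := by
  refine Finset.measurable_prod _ fun i _ => (hφ (e i)).comp ?_
  exact (continuous_id.smul continuous_const).measurable

/-- the doubling inequality -/
theorem form_sq_le (v : ι → Sph d) (B : Finset ι) (R : ℝ → OG d) (hRc : Continuous R)
    (hadd : ∀ s t, R (s + t) = R s * R t) (hper : R (2 * Real.pi) = 1)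
    (hRB : ∀ θ, ∀ i ∈ B, R θ • v i = v i) (φ : ι → Sph d → ℝ) (hφ : ∀ i, Measurable (φ i))
    (hφ1 : ∀ i x, |φ i x| ≤ 1) :
    (form v φ) ^ 2 ≤ (1 / (2 * Real.pi)) *
      ∫ τ in Ioc 0 (2 * Real.pi), form (dbl v B (R τ)) (dblf φ B) := by
  have h := Stp.core R hRc hadd hper (fun T => ∏ i : {i // i ∈ B}, φ i (T • v i))
    (fun T => ∏ i : {i // i ∉ B}, φ i (T • v i))
    (measurable_term v φ hφ (fun i : {i // i ∈ B} => (i : ι)))
    (measurable_term v φ hφ (fun i : {i // i ∉ B} => (i : ι)))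
    (fun T => Stp.abs_prod_le _ _ fun i _ => hφ1 _ _)
    (fun T => Stp.abs_prod_le _ _ fun i _ => hφ1 _ _)
    (fun T θ => by
      refine Finset.prod_congr rfl fun i _ => ?_
      rw [← smul_smul, hRB θ i i.2])
  have e1 : form v φ = ∫ T : OG d, (∏ i : {i // i ∈ B}, φ i (T • v i)) *
      ∏ i : {i // i ∉ B}, φ i (T • v i) ∂(mu d) := by
    unfold form
    refine integral_congr_ae (Eventually.of_forall fun T => ?_)
    have h0 := (Fintype.prod_subtype_mul_prod_subtype (fun i => i ∈ B) (fun i => φ i (T • v i))).symm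
    convert h0 using 2
    exact Finset.prod_congr (by ext; simp) fun _ _ => rfl
  rw [e1]
  refine h.trans (le_of_eq ?_)
  congr 1
  refine integral_congr_ae (Eventually.of_forall fun τ => ?_)
  show _ = form (dbl v B (R τ)) (dblf φ B)
  rw [form_dbl]

theorem abs_form_le {κ : Type*} [Fintype κ] (v : κ → Sph d) (φ : κ → Sph d → ℝ)
    (hφ1 : ∀ i x, |φ i x| ≤ 1) : |form v φ| ≤ 1 := by
  have h := norm_integral_le_of_norm_le_const (μ := mu d) (f := fun T : OG d => ∏ i, φ i (T • v i))
    (C := 1) (Eventually.of_forall fun T => Stp.abs_prod_le _ _ fun i _ => hφ1 _ _)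
  simpa [form] using h

/-- THE DOUBLING STEP. -/
theorem ctrl_step (v : ι → Sph d) (i0 : ι) (B : Finset ι) (hB : i0 ∉ B) (R : ℝ → OG d)
    (hRc : Continuous R) (hadd : ∀ s t, R (s + t) = R s * R t) (hper : R (2 * Real.pi) = 1)
    (hRB : ∀ θ, ∀ i ∈ B, R θ • v i = v i)
    (h : ∀ᵐ τ ∂(volume.restrict (Ioc 0 (2 * Real.pi))), CtrlAt (dbl v B (R τ)) (Sum.inl ⟨i0, hB⟩)) :
    CtrlAt v i0 := by
  intro κ hκ
  by_contra hcon
  push Not at hcon
  have hn : ∀ n : ℕ, ∃ φ : ι → Sph d → ℝ, (∀ i, Measurable (φ i)) ∧ (∀ i x, |φ i x| ≤ 1) ∧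
      SmallFT (φ i0) (1 / ((n : ℝ) + 1)) ∧ κ < |form v φ| := by
    intro n
    obtain ⟨φ, h1, h2, h3, h4⟩ := hcon (1 / ((n : ℝ) + 1)) (by positivity)
    exact ⟨φ, h1, h2, h3, h4⟩
  choose φ hφm hφ1 hφs hφκ using hn
  set ν : Measure ℝ := volume.restrict (Ioc 0 (2 * Real.pi)) with hν
  have : IsFiniteMeasure ν := ⟨by
    rw [hν, Measure.restrict_apply_univ, Real.volume_Ioc]
    exact ENNReal.ofReal_lt_top⟩
  have hb : ∀ n (i : {i // i ∉ B} ⊕ {i // i ∉ B}) x, |dblf (φ n) B i x| ≤ 1 := by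
    intro n i x
    rcases i with i | i
    · exact hφ1 n i x
    · exact hφ1 n i x
  have hm : ∀ n (i : {i // i ∉ B} ⊕ {i // i ∉ B}), Measurable (dblf (φ n) B i) := by
    intro n i
    rcases i with i | i
    · exact hφm n i
    · exact hφm n i
  have hlim : Tendsto (fun n => ∫ τ, form (dbl v B (R τ)) (dblf (φ n) B) ∂ν) atTop (𝓝 (∫ _τ, (0 : ℝ) ∂ν)) := by
    refine tendsto_integral_of_dominated_convergence (fun _ => (1 : ℝ)) ?_ (integrable_const _) ?_ ?_
    · intro n
      have hmulR : Measurable fun p : ℝ × OG d => p.2 * R p.1 :=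
        (continuous_snd.mul (hRc.comp continuous_fst)).measurable
      have e : (fun τ => form (dbl v B (R τ)) (dblf (φ n) B)) = fun τ =>
          ∫ T : OG d, (∏ i : {i // i ∉ B}, φ n i (T • v i)) *
            ∏ i : {i // i ∉ B}, φ n i ((T * R τ) • v i) ∂(mu d) := by
        funext τ
        exact form_dbl v B (R τ) (φ n)
      rw [e]
      have hX := measurable_term v (φ n) (hφm n) (fun i : {i // i ∉ B} => (i : ι))
      have h2 : Measurable fun p : ℝ × OG d => (∏ i : {i // i ∉ B}, φ n i (p.2 • v i)) *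
            ∏ i : {i // i ∉ B}, φ n i ((p.2 * R p.1) • v i) :=
        (hX.comp measurable_snd).mul (hX.comp hmulR)
      exact (h2.stronglyMeasurable.integral_prod_right).aestronglyMeasurable
    · intro n
      exact Eventually.of_forall fun τ => abs_form_le _ _ (hb n)
    · filter_upwards [h] with τ hτ
      rw [Metric.tendsto_atTop]
      intro δ hδ
      obtain ⟨ε, hε, hε2⟩ := hτ (δ / 2) (half_pos hδ)
      obtain ⟨N, hN⟩ := exists_nat_one_div_lt hε
      refine ⟨N, fun n hn => ?_⟩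
      rw [Real.dist_eq, sub_zero]
      refine lt_of_le_of_lt (hε2 (dblf (φ n) B) (hm n) (hb n) ?_) (half_lt_self hδ)
      intro ξ
      refine (hφs n ξ).trans ?_
      refine le_trans ?_ hN.le
      exact one_div_le_one_div_of_le (by positivity) (by exact_mod_cast Nat.succ_le_succ hn)
  rw [integral_zero] at hlim
  have hpos : 0 < 2 * Real.pi := by positivity
  have hlow : ∀ n, (2 * Real.pi) * κ ^ 2 ≤ ∫ τ, form (dbl v B (R τ)) (dblf (φ n) B) ∂ν := by
    intro n
    have h1 := form_sq_le v B R hRc hadd hper hRB (φ n) (hφm n) (hφ1 n)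
    have h2 : κ ^ 2 ≤ (form v (φ n)) ^ 2 := by
      rw [← sq_abs (form v (φ n))]
      exact pow_le_pow_left₀ hκ.le (hφκ n).le 2
    have h3 := h2.trans h1
    rw [one_div, inv_mul_eq_div, le_div_iff₀ hpos] at h3
    linarith
  have h5 := ge_of_tendsto' hlim hlow
  have h6 : 0 < (2 * Real.pi) * κ ^ 2 := by positivity
  linarith

end step

end SPH
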