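import Pool.Agent.SPH.Basic

/-! Project SPH (MP_f7e9f1_co), helper97: the Gaussian average of the sphere measure (step B2). -/

open MeasureTheory Set Metric
open scoped ENNReal NNReal Topology Pointwise

noncomputable section
namespace SPH

theorem volumeIoiPow_ge (n : ℕ) {δ : ℝ} (_hδ : 0 < δ) :
    ENNReal.ofReal δ ≤ Measure.volumeIoiPow n (Subtype.val ⁻¹' (Ioo (1 : ℝ) (1 + δ))) := by
  have hm : MeasurableSet (Subtype.val ⁻¹' (Ioo (1 : ℝ) (1 + δ)) : Set (Ioi (0 : ℝ))) :=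
    measurable_subtype_coe measurableSet_Ioo
  rw [Measure.volumeIoiPow, withDensity_apply _ hm]
  have h1 : ∫⁻ _ in (Subtype.val ⁻¹' (Ioo (1 : ℝ) (1 + δ)) : Set (Ioi (0 : ℝ))), (1 : ℝ≥0∞)
      ∂(Measure.comap Subtype.val volume) ≤
      ∫⁻ r in (Subtype.val ⁻¹' (Ioo (1 : ℝ) (1 + δ)) : Set (Ioi (0 : ℝ))),
        ENNReal.ofReal ((r : ℝ) ^ n) ∂(Measure.comap Subtype.val volume) := by
    refine setLIntegral_mono' hm fun r hr => ?_
    have hr1 : 1 ≤ (r : ℝ) := le_of_lt hr.1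
    rw [← ENNReal.ofReal_one]
    exact ENNReal.ofReal_le_ofReal (one_le_pow₀ hr1)
  refine le_trans ?_ h1
  rw [setLIntegral_one, comap_subtype_coe_apply measurableSet_Ioi, Subtype.image_preimage_coe]
  have h2 : Ioi (0 : ℝ) ∩ Ioo (1 : ℝ) (1 + δ) = Ioo (1 : ℝ) (1 + δ) := by
    ext t
    simp only [mem_inter_iff, mem_Ioi, mem_Ioo]
    constructor
    · exact fun h => h.2
    · exact fun h => ⟨by linarith [h.1], h⟩
  rw [h2, Real.volume_Ioo]
  simp

theorem sphere_le_ball {d : ℕ} (φ : Sph d → ℝ≥0∞) (ψ : E d → ℝ≥0∞) (hφ : Measurable φ)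
    (_hψ : Measurable ψ) {δ : ℝ} (hδ : 0 < δ)
    (h : ∀ x : Sph d, ∀ r ∈ Ioo (1 : ℝ) (1 + δ), φ x ≤ ψ (r • (x : E d))) :
    ENNReal.ofReal δ * ∫⁻ x, φ x ∂((volume : Measure (E d)).toSphere) ≤ ∫⁻ y, ψ y := by
  have hmp := (volume : Measure (E d)).measurePreserving_homeomorphUnitSphereProd
  have hS : MeasurableSet (Subtype.val ⁻¹' (Ioo (1 : ℝ) (1 + δ)) : Set (Ioi (0 : ℝ))) :=
    measurable_subtype_coe measurableSet_Ioo
  have e1 : ∫⁻ y in ({0}ᶜ : Set (E d)), ψ y = ∫⁻ y : ({(0)}ᶜ : Set (E d)), ψ y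
      ∂((volume : Measure (E d)).comap (↑)) :=
    (lintegral_subtype_comap (measurableSet_singleton _).compl _).symm
  have e2 : ∫⁻ y : ({(0)}ᶜ : Set (E d)), ψ y ∂((volume : Measure (E d)).comap (↑)) =
      ∫⁻ p : Sph d × Ioi (0 : ℝ), ψ ((p.2 : ℝ) • (p.1 : E d))
        ∂((volume : Measure (E d)).toSphere.prod
          (Measure.volumeIoiPow (Module.finrank ℝ (E d) - 1))) := by
    rw [← hmp.lintegral_comp_emb (Homeomorph.measurableEmbedding _)]
    refine lintegral_congr fun y => ?_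
    congr 1
    have h3 := (homeomorphUnitSphereProd (E d)).symm_apply_apply y
    have h4 := congrArg Subtype.val h3
    rw [← h4]
    rfl
  have e3 : ∫⁻ p : Sph d × Ioi (0 : ℝ), φ p.1 *
      (Subtype.val ⁻¹' (Ioo (1 : ℝ) (1 + δ)) : Set (Ioi (0 : ℝ))).indicator (fun _ => (1 : ℝ≥0∞)) p.2
        ∂((volume : Measure (E d)).toSphere.prod
          (Measure.volumeIoiPow (Module.finrank ℝ (E d) - 1))) ≤
      ∫⁻ p : Sph d × Ioi (0 : ℝ), ψ ((p.2 : ℝ) • (p.1 : E d))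
        ∂((volume : Measure (E d)).toSphere.prod
          (Measure.volumeIoiPow (Module.finrank ℝ (E d) - 1))) := by
    refine lintegral_mono fun p => ?_
    by_cases hp : p.2 ∈ (Subtype.val ⁻¹' (Ioo (1 : ℝ) (1 + δ)) : Set (Ioi (0 : ℝ)))
    · show φ p.1 * _ ≤ _
      rw [Set.indicator_of_mem hp, mul_one]
      exact h p.1 _ hp
    · show φ p.1 * _ ≤ _
      rw [Set.indicator_of_notMem hp, mul_zero]
      exact zero_le
  have e4 : ∫⁻ p : Sph d × Ioi (0 : ℝ), φ p.1 *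
      (Subtype.val ⁻¹' (Ioo (1 : ℝ) (1 + δ)) : Set (Ioi (0 : ℝ))).indicator (fun _ => (1 : ℝ≥0∞)) p.2
        ∂((volume : Measure (E d)).toSphere.prod
          (Measure.volumeIoiPow (Module.finrank ℝ (E d) - 1))) =
      (∫⁻ x, φ x ∂((volume : Measure (E d)).toSphere)) *
        Measure.volumeIoiPow (Module.finrank ℝ (E d) - 1) (Subtype.val ⁻¹' (Ioo (1 : ℝ) (1 + δ))) := by
    rw [lintegral_prod_mul hφ.aemeasurable (measurable_const.indicator hS).aemeasurable,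
      lintegral_indicator_const hS, one_mul]
  calc ENNReal.ofReal δ * ∫⁻ x, φ x ∂((volume : Measure (E d)).toSphere)
      ≤ Measure.volumeIoiPow (Module.finrank ℝ (E d) - 1) (Subtype.val ⁻¹' (Ioo (1 : ℝ) (1 + δ))) *
        ∫⁻ x, φ x ∂((volume : Measure (E d)).toSphere) := by
        gcongr
        exact volumeIoiPow_ge _ hδ
    _ = _ := by rw [mul_comm, ← e4]
    _ ≤ _ := e3
    _ = _ := by rw [← e2, ← e1]
    _ ≤ _ := setLIntegral_le_lintegral _ _

/-- step B2 -/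
theorem gauss_sphere (d : ℕ) : ∃ C : ℝ, 0 < C ∧ ∀ R : ℝ, 0 < R → ∀ u : E d,
    ∫ x : Sph d, R ^ (d + 1) * Real.exp (-(Real.pi * R ^ 2 * ‖u - x‖ ^ 2)) ∂(sig d) ≤ C * R := by
  have hV0 : 0 < ((volume : Measure (E d)).toSphere univ).toReal := by
    refine ENNReal.toReal_pos ?_ (measure_ne_top _ _)
    intro h
    exact (Measure.toSphere_ne_zero (volume : Measure (E d))) (Measure.measure_univ_eq_zero.mp h)
  set V : ℝ := ((volume : Measure (E d)).toSphere univ).toReal with hV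
  refine ⟨V⁻¹ * Real.exp Real.pi * 2 ^ (((d : ℝ) + 1) / 2), by positivity, fun R hR u => ?_⟩
  have hcont : Continuous fun x : Sph d => Real.exp (-(Real.pi * R ^ 2 * ‖u - x‖ ^ 2)) := by
    fun_prop
  -- the inequality on the sphere
  have h1 := sphere_le_ball (d := d)
    (fun x => ENNReal.ofReal (Real.exp (-(Real.pi * R ^ 2 * ‖u - x‖ ^ 2))))
    (fun y => ENNReal.ofReal (Real.exp Real.pi *
      Real.exp (-(Real.pi / 2 * R ^ 2) * ‖y - u‖ ^ 2)))
    (by fun_prop) (by fun_prop) (δ := R⁻¹) (by positivity) (by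
      intro x r hr
      refine ENNReal.ofReal_le_ofReal ?_
      rw [← Real.exp_add]
      refine Real.exp_le_exp.mpr ?_
      have h2 : ‖r • (x : E d) - u‖ ≤ ‖u - x‖ + R⁻¹ := by
        have h3 : r • (x : E d) - u = ((x : E d) - u) + (r - 1) • (x : E d) := by module
        rw [h3]
        refine (norm_add_le _ _).trans ?_
        rw [norm_sub_rev, norm_smul, norm_coe_sph, mul_one, Real.norm_eq_abs,
          abs_of_pos (by linarith [hr.1])]
        linarith [hr.2]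
      have h4 : ‖r • (x : E d) - u‖ ^ 2 ≤ 2 * ‖u - x‖ ^ 2 + 2 * (R⁻¹) ^ 2 := by
        have h5 : ‖r • (x : E d) - u‖ ^ 2 ≤ (‖u - x‖ + R⁻¹) ^ 2 :=
          pow_le_pow_left₀ (norm_nonneg _) h2 2
        nlinarith [sq_nonneg (‖u - x‖ - R⁻¹)]
      have h6 : R ^ 2 * (R⁻¹) ^ 2 = 1 := by
        rw [← mul_pow, mul_inv_cancel₀ hR.ne', one_pow]
      have h7 : Real.pi / 2 * R ^ 2 * ‖r • (x : E d) - u‖ ^ 2 ≤
          Real.pi / 2 * R ^ 2 * (2 * ‖u - x‖ ^ 2 + 2 * (R⁻¹) ^ 2) :=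
        mul_le_mul_of_nonneg_left h4 (by positivity)
      have h8 : Real.pi / 2 * R ^ 2 * (2 * ‖u - x‖ ^ 2 + 2 * (R⁻¹) ^ 2) =
          Real.pi * R ^ 2 * ‖u - x‖ ^ 2 + Real.pi * (R ^ 2 * (R⁻¹) ^ 2) := by ring
      rw [h6] at h8
      linarith)
  -- the Gaussian integral
  have hg : ∫ y : E d, Real.exp (-(Real.pi / 2 * R ^ 2) * ‖y - u‖ ^ 2) =
      (2 / R ^ 2) ^ (((d : ℝ) + 1) / 2) := by
    rw [integral_sub_right_eq_self (fun y : E d => Real.exp (-(Real.pi / 2 * R ^ 2) * ‖y‖ ^ 2)) u,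
      GaussianFourier.integral_rexp_neg_mul_sq_norm (by positivity)]
    congr 1
    · field_simp
    · simp
  have hgi : Integrable fun y : E d => Real.exp (-(Real.pi / 2 * R ^ 2) * ‖y - u‖ ^ 2) := by
    have hne : (0 : ℝ) < (2 / R ^ 2) ^ (((d : ℝ) + 1) / 2) := by positivity
    by_contra hcon
    rw [integral_undef hcon] at hg
    exact absurd hg.symm hne.ne'
  have h9 : ∫⁻ y : E d, ENNReal.ofReal (Real.exp Real.pi *
      Real.exp (-(Real.pi / 2 * R ^ 2) * ‖y - u‖ ^ 2)) =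
      ENNReal.ofReal (Real.exp Real.pi * (2 / R ^ 2) ^ (((d : ℝ) + 1) / 2)) := by
    rw [← ofReal_integral_eq_lintegral_ofReal (hgi.const_mul _)
      (Filter.Eventually.of_forall fun y => by positivity), integral_const_mul, hg]
  rw [h9] at h1
  have h10 : ∫⁻ x, ENNReal.ofReal (Real.exp (-(Real.pi * R ^ 2 * ‖u - x‖ ^ 2)))
      ∂((volume : Measure (E d)).toSphere) =
      ENNReal.ofReal (∫ x : Sph d, Real.exp (-(Real.pi * R ^ 2 * ‖u - x‖ ^ 2))
        ∂((volume : Measure (E d)).toSphere)) := by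
    rw [← ofReal_integral_eq_lintegral_ofReal]
    · exact hcont.integrable_of_hasCompactSupport (HasCompactSupport.of_compactSpace _)
    · exact Filter.Eventually.of_forall fun y => by positivity
  rw [h10, ← ENNReal.ofReal_mul (by positivity)] at h1
  have h11 := (ENNReal.ofReal_le_ofReal_iff (by positivity)).mp h1
  -- assemble
  have h12 : ∫ x : Sph d, R ^ (d + 1) * Real.exp (-(Real.pi * R ^ 2 * ‖u - x‖ ^ 2)) ∂(sig d) =
      R ^ (d + 1) * (V⁻¹ * ∫ x : Sph d, Real.exp (-(Real.pi * R ^ 2 * ‖u - x‖ ^ 2))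
        ∂((volume : Measure (E d)).toSphere)) := by
    rw [integral_const_mul]
    unfold sig
    rw [integral_smul_measure, ENNReal.toReal_inv, smul_eq_mul]
  rw [h12]
  have h13 : (2 / R ^ 2) ^ (((d : ℝ) + 1) / 2) = 2 ^ (((d : ℝ) + 1) / 2) * (R ^ (d + 1))⁻¹ := by
    rw [Real.div_rpow (by norm_num) (by positivity), div_eq_mul_inv]
    congr 2
    rw [← Real.rpow_natCast R 2, ← Real.rpow_mul hR.le, ← Real.rpow_natCast R (d + 1)]
    congr 1
    push_cast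
    ring
  rw [h13] at h11
  set I : ℝ := ∫ x : Sph d, Real.exp (-(Real.pi * R ^ 2 * ‖u - x‖ ^ 2))
        ∂((volume : Measure (E d)).toSphere) with hI
  have h14 : I ≤ R * (Real.exp Real.pi * (2 ^ (((d : ℝ) + 1) / 2) * (R ^ (d + 1))⁻¹)) := by
    have := mul_le_mul_of_nonneg_left h11 hR.le
    rw [← mul_assoc, mul_inv_cancel₀ hR.ne', one_mul] at this
    exact this
  calc R ^ (d + 1) * (V⁻¹ * I)
      ≤ R ^ (d + 1) * (V⁻¹ * (R * (Real.exp Real.pi *
        (2 ^ (((d : ℝ) + 1) / 2) * (R ^ (d + 1))⁻¹)))) := by gcongr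
    _ = _ := by field_simp

/-- ROW BALL. The surface measure smoothed at scale 1/R. -/
theorem ball_sig (d : ℕ) (_hd : 1 ≤ d) : ∃ C : ℝ, 0 < C ∧ ∀ R : ℝ, 1 ≤ R → ∀ u : E d,
    ∫ x : Sph d, R ^ (d + 1) * Real.exp (-(Real.pi * R ^ 2 * ‖u - (x : E d)‖ ^ 2)) ∂(sig d) ≤
      C * R := by
  obtain ⟨C, hC, h⟩ := gauss_sphere d
  exact ⟨C, hC, fun R hR u => h R (by linarith) u⟩

end SPH
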