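import Pool.Agent.SPH.EE
import Pool.Agent.SPH.TSDecay
import Pool.Agent.SPH.TSBall

/-! Project SPH (MP_f7e9f1_co), helper97: the Gaussian identity for the extension operator. -/

open MeasureTheory Set Metric
open scoped ENNReal NNReal Topology

noncomputable section
namespace SPH

/-- Fourier integral of a function on the whole space -/
def GH {d : ℕ} (G : E d → ℂ) (x : E d) : ℂ := ∫ ξ : E d, G ξ * ee (-(inner ℝ ξ x))

/-- the Gaussian weight with integral transform `gR` -/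
def wR {d : ℕ} (R : ℝ) (z : E d) : ℝ := Real.exp (-(Real.pi / R ^ 2 * ‖z‖ ^ 2))

/-- the L1 normalised Gaussian -/
def gR {d : ℕ} (R : ℝ) (y : E d) : ℝ := R ^ (d + 1) * Real.exp (-(Real.pi * R ^ 2 * ‖y‖ ^ 2))

theorem gR_nonneg {d : ℕ} {R : ℝ} (hR : 0 < R) (y : E d) : 0 ≤ gR R y := by
  unfold gR; positivity

theorem wR_nonneg {d : ℕ} (R : ℝ) (y : E d) : 0 ≤ wR R y := by
  unfold wR; positivity

theorem wR_le_one {d : ℕ} (R : ℝ) (y : E d) : wR R y ≤ 1 := by
  unfold wR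
  refine Real.exp_le_one_iff.mpr ?_
  have : 0 ≤ Real.pi / R ^ 2 * ‖y‖ ^ 2 := by positivity
  linarith

theorem continuous_gR {d : ℕ} (R : ℝ) : Continuous (gR R : E d → ℝ) := by
  unfold gR; fun_prop

theorem continuous_wR {d : ℕ} (R : ℝ) : Continuous (wR R : E d → ℝ) := by
  unfold wR; fun_prop

theorem gauss_integral {d : ℕ} {R : ℝ} (hR : 0 < R) (z : E d) :
    ∫ y : E d, ((gR R y : ℝ) : ℂ) * ee (-(inner ℝ z y)) = ((wR R z : ℝ) : ℂ) := by
  have hb : 0 < (((Real.pi * R ^ 2 : ℝ) : ℂ)).re := by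
    rw [Complex.ofReal_re]; positivity
  have h1 := GaussianFourier.integral_cexp_neg_mul_sq_norm_add (V := E d) hb
    (-(2 * Real.pi * Complex.I)) z
  have h2 : ∀ y : E d, ((gR R y : ℝ) : ℂ) * ee (-(inner ℝ z y)) = ((R ^ (d + 1) : ℝ) : ℂ) *
      Complex.exp (-((Real.pi * R ^ 2 : ℝ) : ℂ) * ((‖y‖ : ℝ) : ℂ) ^ 2 +
        (-(2 * Real.pi * Complex.I)) * ((inner ℝ z y : ℝ) : ℂ)) := by
    intro y
    unfold gR ee
    rw [Complex.ofReal_mul, Complex.ofReal_exp, mul_assoc, ← Complex.exp_add]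
    congr 2
    push_cast
    ring
  simp only [h2]
  rw [integral_const_mul, h1]
  have h3 : ((Real.pi : ℂ) / ((Real.pi * R ^ 2 : ℝ) : ℂ)) ^ (((Module.finrank ℝ (E d) : ℕ) : ℂ) / 2) =
      (((R ^ (d + 1))⁻¹ : ℝ) : ℂ) := by
    have e1 : (Real.pi : ℂ) / ((Real.pi * R ^ 2 : ℝ) : ℂ) = (((R ^ 2)⁻¹ : ℝ) : ℂ) := by
      have : (Real.pi : ℂ) ≠ 0 := by exact_mod_cast Real.pi_ne_zero
      have hR' : (R : ℂ) ≠ 0 := by exact_mod_cast hR.ne'
      push_cast
      field_simp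
    have e2 : (((Module.finrank ℝ (E d) : ℕ) : ℂ) / 2) = ((((d : ℝ) + 1) / 2 : ℝ) : ℂ) := by
      rw [finrank_euclideanSpace_fin]
      push_cast
      ring
    rw [e1, e2, ← Complex.ofReal_cpow (by positivity)]
    congr 1
    rw [← Real.rpow_natCast R 2, ← Real.rpow_neg hR.le, ← Real.rpow_mul hR.le,
      ← Real.rpow_natCast R (d + 1), ← Real.rpow_neg hR.le]
    congr 1
    push_cast
    ring
  have h4 : Complex.exp ((-(2 * Real.pi * Complex.I)) ^ 2 * ((‖z‖ : ℝ) : ℂ) ^ 2 /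
      (4 * ((Real.pi * R ^ 2 : ℝ) : ℂ))) = ((wR R z : ℝ) : ℂ) := by
    unfold wR
    rw [Complex.ofReal_exp]
    congr 1
    have hpi : (Real.pi : ℂ) ≠ 0 := by exact_mod_cast Real.pi_ne_zero
    have hR' : (R : ℂ) ≠ 0 := by exact_mod_cast hR.ne'
    have hI : Complex.I ^ 2 = -1 := Complex.I_sq
    push_cast
    field_simp
    rw [hI]
    ring
  rw [h3, h4, ← mul_assoc, ← Complex.ofReal_mul, mul_inv_cancel₀ (by positivity)]
  simp

theorem integrable_gR {d : ℕ} {R : ℝ} (hR : 0 < R) : Integrable (gR R : E d → ℝ) := by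
  have h := gauss_integral (d := d) hR 0
  by_contra hcon
  have h1 : ∫ y : E d, ((gR R y : ℝ) : ℂ) * ee (-(inner ℝ (0 : E d) y)) =
      ∫ y : E d, ((gR R y : ℝ) : ℂ) := by
    refine integral_congr_ae (Filter.Eventually.of_forall fun y => ?_)
    show ((gR R y : ℝ) : ℂ) * ee (-(inner ℝ (0 : E d) y)) = ((gR R y : ℝ) : ℂ)
    rw [inner_zero_left, neg_zero, ee_zero, mul_one]
  rw [h1, integral_complex_ofReal, integral_undef hcon] at h
  have h2 : (wR R (0 : E d)) = 0 := by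
    exact_mod_cast h.symm
  unfold wR at h2
  exact absurd h2 (Real.exp_pos _).ne'

theorem measurable_ee_inner {d : ℕ} (x : E d) : Measurable fun ξ : E d => ee (-(inner ℝ ξ x)) :=
  (continuous_ee.comp (by fun_prop)).measurable

theorem integrable_mul_ee {d : ℕ} {G : E d → ℂ} (hG : Integrable G) (x : E d) :
    Integrable fun ξ : E d => G ξ * ee (-(inner ℝ ξ x)) := by
  refine (hG.norm).mono' (hG.aestronglyMeasurable.mul (measurable_ee_inner x).aestronglyMeasurable)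
    (Filter.Eventually.of_forall fun ξ => ?_)
  rw [norm_mul, norm_ee, mul_one]

theorem norm_GH_le {d : ℕ} (G : E d → ℂ) (x : E d) : ‖GH G x‖ ≤ ∫ ξ, ‖G ξ‖ := by
  unfold GH
  refine (norm_integral_le_integral_norm _).trans (le_of_eq ?_)
  refine integral_congr_ae (Filter.Eventually.of_forall fun ξ => ?_)
  show ‖G ξ * ee (-(inner ℝ ξ x))‖ = ‖G ξ‖
  rw [norm_mul, norm_ee, mul_one]

theorem continuous_GH {d : ℕ} {G : E d → ℂ} (hG : Integrable G) : Continuous (GH G) := by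
  refine continuous_of_dominated (bound := fun ξ => ‖G ξ‖) ?_ ?_ hG.norm ?_
  · intro x
    exact (integrable_mul_ee hG x).aestronglyMeasurable
  · intro x
    exact Filter.Eventually.of_forall fun ξ => by rw [norm_mul, norm_ee, mul_one]
  · refine Filter.Eventually.of_forall fun ξ => ?_
    refine continuous_const.mul (continuous_ee.comp ?_)
    fun_prop

/-- the tensor square -/
def PP {d : ℕ} (G : E d → ℂ) (p : E d × E d) : ℂ := G p.1 * (starRingEnd ℂ) (G p.2)

theorem integrable_conj {d : ℕ} {G : E d → ℂ} (hG : Integrable G) :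
    Integrable fun ξ => (starRingEnd ℂ) (G ξ) := by
  refine hG.norm.mono' ?_ (Filter.Eventually.of_forall fun ξ => ?_)
  · exact Complex.continuous_conj.comp_aestronglyMeasurable hG.aestronglyMeasurable
  · rw [Complex.norm_conj]

theorem integrable_PP {d : ℕ} {G : E d → ℂ} (hG : Integrable G) :
    Integrable (PP G) (volume.prod volume) :=
  hG.mul_prod (integrable_conj hG)

theorem norm_PP_integral {d : ℕ} (G : E d → ℂ) :
    ∫ p, ‖PP G p‖ ∂(volume.prod volume) = (∫ ξ, ‖G ξ‖) ^ 2 := by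
  unfold PP
  simp only [norm_mul, Complex.norm_conj]
  rw [integral_prod_mul (fun ξ => ‖G ξ‖) (fun ξ => ‖G ξ‖), sq]

/-- the phase on pairs -/
theorem continuous_phase {d : ℕ} :
    Continuous fun q : E d × (E d × E d) => ee (-(inner ℝ (q.2.1 - q.2.2) q.1)) := by
  refine continuous_ee.comp ?_
  fun_prop

theorem GH_sq {d : ℕ} (G : E d → ℂ) (x : E d) :
    ((‖GH G x‖ ^ 2 : ℝ) : ℂ) =
      ∫ p, PP G p * ee (-(inner ℝ (p.1 - p.2) x)) ∂(volume.prod volume) := by
  have h1 : ((‖GH G x‖ ^ 2 : ℝ) : ℂ) = GH G x * (starRingEnd ℂ) (GH G x) := by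
    rw [Complex.mul_conj']
    push_cast
    rfl
  rw [h1]
  unfold GH PP
  rw [← integral_conj, ← integral_prod_mul]
  refine integral_congr_ae (Filter.Eventually.of_forall fun p => ?_)
  show G p.1 * ee (-(inner ℝ p.1 x)) * (starRingEnd ℂ) (G p.2 * ee (-(inner ℝ p.2 x))) =
    G p.1 * (starRingEnd ℂ) (G p.2) * ee (-(inner ℝ (p.1 - p.2) x))
  have h2 : -(inner ℝ (p.1 - p.2) x : ℝ) = -(inner ℝ p.1 x) + -(-(inner ℝ p.2 x)) := by
    rw [inner_sub_left]; ring
  rw [map_mul, conj_ee, h2, ee_add]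
  ring

/-- the Gaussian identity -/
theorem gauss_identity {d : ℕ} {G : E d → ℂ} (hG : Integrable G) {R : ℝ} (hR : 0 < R) (x : E d) :
    ((∫ y : E d, gR R y * ‖GH G (x + y)‖ ^ 2 : ℝ) : ℂ) =
      ∫ p, PP G p * ((wR R (p.1 - p.2) : ℝ) : ℂ) * ee (-(inner ℝ (p.1 - p.2) x))
        ∂(volume.prod volume) := by
  rw [← integral_complex_ofReal]
  have h1 : ∀ y : E d, ((gR R y * ‖GH G (x + y)‖ ^ 2 : ℝ) : ℂ) =
      ∫ p, ((gR R y : ℝ) : ℂ) * (PP G p * ee (-(inner ℝ (p.1 - p.2) (x + y))))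
        ∂(volume.prod volume) := by
    intro y
    rw [Complex.ofReal_mul, GH_sq, ← integral_const_mul]
  simp only [h1]
  have hint : Integrable (Function.uncurry fun (y : E d) (p : E d × E d) =>
      ((gR R y : ℝ) : ℂ) * (PP G p * ee (-(inner ℝ (p.1 - p.2) (x + y)))))
      (volume.prod (volume.prod volume)) := by
    have h2 : Integrable (fun q : E d × (E d × E d) => ((gR R q.1 : ℝ) : ℂ) * PP G q.2)
        (volume.prod (volume.prod volume)) :=
      (integrable_gR hR).ofReal.mul_prod (integrable_PP hG)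
    have h3 : Continuous fun q : E d × (E d × E d) =>
        ee (-(inner ℝ (q.2.1 - q.2.2) (x + q.1))) := by
      refine continuous_ee.comp ?_
      fun_prop
    refine h2.norm.mono' ?_ (Filter.Eventually.of_forall fun q => ?_)
    · have h4 := h2.aestronglyMeasurable.mul h3.aestronglyMeasurable
      refine h4.congr (Filter.Eventually.of_forall fun q => ?_)
      show ((gR R q.1 : ℝ) : ℂ) * PP G q.2 * ee (-(inner ℝ (q.2.1 - q.2.2) (x + q.1))) =
        ((gR R q.1 : ℝ) : ℂ) * (PP G q.2 * ee (-(inner ℝ (q.2.1 - q.2.2) (x + q.1))))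
      ring
    · show ‖((gR R q.1 : ℝ) : ℂ) * (PP G q.2 * ee (-(inner ℝ (q.2.1 - q.2.2) (x + q.1))))‖ ≤
        ‖((gR R q.1 : ℝ) : ℂ) * PP G q.2‖
      rw [norm_mul, norm_mul, norm_mul, norm_ee, mul_one]
  rw [integral_integral_swap hint]
  refine integral_congr_ae (Filter.Eventually.of_forall fun p => ?_)
  show ∫ y : E d, ((gR R y : ℝ) : ℂ) * (PP G p * ee (-(inner ℝ (p.1 - p.2) (x + y)))) =
    PP G p * ((wR R (p.1 - p.2) : ℝ) : ℂ) * ee (-(inner ℝ (p.1 - p.2) x))
  have h5 : ∀ y : E d, ((gR R y : ℝ) : ℂ) * (PP G p * ee (-(inner ℝ (p.1 - p.2) (x + y)))) =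
      PP G p * ee (-(inner ℝ (p.1 - p.2) x)) *
        (((gR R y : ℝ) : ℂ) * ee (-(inner ℝ (p.1 - p.2) y))) := by
    intro y
    have h6 : -(inner ℝ (p.1 - p.2) (x + y) : ℝ) =
        -(inner ℝ (p.1 - p.2) x) + -(inner ℝ (p.1 - p.2) y) := by
      rw [inner_add_right]; ring
    rw [h6, ee_add]
    ring
  simp only [h5]
  rw [integral_const_mul, gauss_integral hR]
  ring

/-- the sphere average of ‖GH‖^2 as a double integral -/
theorem sphere_identity {d : ℕ} {G : E d → ℂ} (hG : Integrable G) (w : E d → ℝ)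
    (hw : Measurable w) (hw1 : ∀ z, |w z| ≤ 1) :
    ∫ x : Sph d, ∫ p, PP G p * ((w (p.1 - p.2) : ℝ) : ℂ) * ee (-(inner ℝ (p.1 - p.2) (x : E d)))
        ∂(volume.prod volume) ∂(sig d) =
      ∫ p, PP G p * ((w (p.1 - p.2) : ℝ) : ℂ) * sg d (p.1 - p.2) ∂(volume.prod volume) := by
  have hm1 : Measurable fun p : E d × E d => ((w (p.1 - p.2) : ℝ) : ℂ) :=
    Complex.measurable_ofReal.comp (hw.comp (measurable_fst.sub measurable_snd))
  have h0 : Integrable (fun p => PP G p * ((w (p.1 - p.2) : ℝ) : ℂ)) (volume.prod volume) := by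
    refine (integrable_PP hG).norm.mono'
      ((integrable_PP hG).aestronglyMeasurable.mul hm1.aestronglyMeasurable)
      (Filter.Eventually.of_forall fun p => ?_)
    rw [norm_mul, Complex.norm_real, Real.norm_eq_abs]
    calc _ ≤ ‖PP G p‖ * 1 := mul_le_mul_of_nonneg_left (hw1 _) (norm_nonneg _)
      _ = _ := mul_one _
  have hint : Integrable (Function.uncurry fun (x : Sph d) (p : E d × E d) =>
      PP G p * ((w (p.1 - p.2) : ℝ) : ℂ) * ee (-(inner ℝ (p.1 - p.2) (x : E d))))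
      ((sig d).prod (volume.prod volume)) := by
    have h2 : Integrable (fun q : Sph d × (E d × E d) => (1 : ℂ) *
        (PP G q.2 * ((w (q.2.1 - q.2.2) : ℝ) : ℂ))) ((sig d).prod (volume.prod volume)) :=
      (integrable_const (1 : ℂ)).mul_prod h0
    have h3 : Continuous fun q : Sph d × (E d × E d) =>
        ee (-(inner ℝ (q.2.1 - q.2.2) (q.1 : E d))) := by
      refine continuous_ee.comp ?_
      fun_prop
    refine h2.norm.mono' ?_ (Filter.Eventually.of_forall fun q => ?_)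
    · have h4 := h2.aestronglyMeasurable.mul h3.aestronglyMeasurable
      refine h4.congr (Filter.Eventually.of_forall fun q => ?_)
      show (1 : ℂ) * (PP G q.2 * ((w (q.2.1 - q.2.2) : ℝ) : ℂ)) *
          ee (-(inner ℝ (q.2.1 - q.2.2) (q.1 : E d))) =
        PP G q.2 * ((w (q.2.1 - q.2.2) : ℝ) : ℂ) * ee (-(inner ℝ (q.2.1 - q.2.2) (q.1 : E d)))
      ring
    · show ‖PP G q.2 * ((w (q.2.1 - q.2.2) : ℝ) : ℂ) *
          ee (-(inner ℝ (q.2.1 - q.2.2) (q.1 : E d)))‖ ≤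
        ‖(1 : ℂ) * (PP G q.2 * ((w (q.2.1 - q.2.2) : ℝ) : ℂ))‖
      rw [norm_mul, norm_ee, mul_one, one_mul]
  rw [integral_integral_swap hint]
  refine integral_congr_ae (Filter.Eventually.of_forall fun p => ?_)
  show ∫ x : Sph d, PP G p * ((w (p.1 - p.2) : ℝ) : ℂ) * ee (-(inner ℝ (p.1 - p.2) (x : E d)))
    ∂(sig d) = PP G p * ((w (p.1 - p.2) : ℝ) : ℂ) * sg d (p.1 - p.2)
  rw [integral_const_mul]
  unfold sg FT
  simp only [one_mul]

end SPH
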