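import Pool.Agent.SPH.Basic

/-! Project SPH (MP_f7e9f1_co), helper97: invariance of the sphere measure under O(d+1), plane
rotations, transitivity. -/

open MeasureTheory Set Metric
open scoped ENNReal NNReal Topology Pointwise

noncomputable section
namespace SPH

/-- the linear isometry equivalence of `act T` -/
def actLI {d : ℕ} (T : OG d) : E d ≃ₗᵢ[ℝ] E d :=
  LinearIsometryEquiv.mk
    (LinearEquiv.ofBijective (Matrix.toEuclideanLin (T : Matrix (Fin (d + 1)) (Fin (d + 1)) ℝ))
      ⟨fun x y h => by
          have h1 : act T x = act T y := h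
          have h2 : act (T⁻¹ * T) x = act (T⁻¹ * T) y := by rw [act_mul, act_mul, h1]
          simpa using h2,
        fun y => ⟨act T⁻¹ y, by
          have h2 : act (T * T⁻¹) y = act T (act T⁻¹ y) := act_mul _ _ _
          rw [mul_inv_cancel, act_one] at h2
          exact h2.symm⟩⟩)
    (fun x => norm_act T x)

theorem actLI_apply {d : ℕ} (T : OG d) (x : E d) : actLI T x = act T x := rfl

theorem mp_act {d : ℕ} (T : OG d) :
    MeasurePreserving (fun x : E d => act T x) volume volume :=
  (actLI T).measurePreserving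

theorem mp_smul_sph {d : ℕ} (T : OG d) :
    MeasurePreserving (fun x : Sph d => T • x) (sig d) (sig d) := by
  have hm : Measurable fun x : Sph d => T • x := (continuous_const_smul T).measurable
  have h : Measure.map (fun x : Sph d => T • x) ((volume : Measure (E d)).toSphere) =
      (volume : Measure (E d)).toSphere := by
    ext s hs
    rw [Measure.map_apply hm hs, Measure.toSphere_apply' _ (hm hs), Measure.toSphere_apply' _ hs]
    congr 1
    have e1 : (Ioo (0 : ℝ) 1 • ((↑) '' ((fun x : Sph d => T • x) ⁻¹' s)) : Set (E d)) =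
        (fun x : E d => act T x) ⁻¹' (Ioo (0 : ℝ) 1 • ((↑) '' s)) := by
      ext y
      constructor
      · rintro ⟨r, hr, z, ⟨x, hx, rfl⟩, rfl⟩
        refine ⟨r, hr, ((T • x : Sph d) : E d), ⟨T • x, hx, rfl⟩, ?_⟩
        show r • ((T • x : Sph d) : E d) = act T (r • (x : E d))
        rw [act_smul, coe_smul_sph]
      · rintro ⟨r, hr, z, ⟨x, hx, rfl⟩, h⟩
        refine ⟨r, hr, ((T⁻¹ • x : Sph d) : E d), ⟨T⁻¹ • x, ?_, rfl⟩, ?_⟩
        · show T • T⁻¹ • x ∈ s
          rwa [smul_inv_smul]
        · have h' : r • (x : E d) = act T y := h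
          show r • ((T⁻¹ • x : Sph d) : E d) = y
          rw [coe_smul_sph, ← act_smul, h', ← act_mul, inv_mul_cancel, act_one]
    rw [e1]
    exact (mp_act T).measure_preimage_emb (actLI T).toHomeomorph.measurableEmbedding _
  refine ⟨hm, ?_⟩
  unfold sig
  rw [Measure.map_smul, h]

/-- the invariance in integral form -/
theorem integral_smul_sph {d : ℕ} {F : Type*} [NormedAddCommGroup F] [NormedSpace ℝ F] (T : OG d)
    (φ : Sph d → F) : ∫ x, φ (T • x) ∂(sig d) = ∫ x, φ x ∂(sig d) := by
  have he : MeasurableEmbedding fun x : Sph d => T • x :=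
    (Homeomorph.smul T).measurableEmbedding
  exact (mp_smul_sph T).integral_comp he φ

theorem integral_act_sph {d : ℕ} {F : Type*} [NormedAddCommGroup F] [NormedSpace ℝ F] (T : OG d)
    (φ : E d → F) : ∫ x : Sph d, φ (act T x) ∂(sig d) = ∫ x : Sph d, φ x ∂(sig d) :=
  integral_smul_sph T (fun x : Sph d => φ x)

/-- for vectors of the same norm there is an element of O(d+1) moving one to the other -/
theorem exists_act_of_norm_eq {d : ℕ} {u v : E d} (h : ‖u‖ = ‖v‖) : ∃ T : OG d, act T u = v := by
  obtain ⟨T, hT⟩ := exists_act_eq (d := d)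
    ((Submodule.span ℝ {u - v})ᗮ.reflection).toLinearIsometry
  refine ⟨T, ?_⟩
  rw [hT]
  exact Submodule.reflection_sub h

/-- the plane rotation a -> cos th a + sin th b, b -> - sin th a + cos th b, as an element of O(d+1) -/
theorem exists_rot_cs {d : ℕ} {a b : E d} (ha : ‖a‖ = 1) (hb : ‖b‖ = 1) (hab : inner ℝ a b = 0)
    (c s : ℝ) (hcs : c ^ 2 + s ^ 2 = 1) :
    ∃ T : OG d, ∀ x : E d, act T x = x + ((c - 1) * inner ℝ a x - s * inner ℝ b x) • a +
      (s * inner ℝ a x + (c - 1) * inner ℝ b x) • b := by
  let L : E d →ₗ[ℝ] E d :=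
    { toFun := fun x => x + ((c - 1) * inner ℝ a x - s * inner ℝ b x) • a +
        (s * inner ℝ a x + (c - 1) * inner ℝ b x) • b
      map_add' := by
        intro x y
        simp only [inner_add_right]
        module
      map_smul' := by
        intro r x
        simp only [inner_smul_right, RingHom.id_apply]
        module }
  have hn : ∀ x, ‖L x‖ = ‖x‖ := by
    intro x
    have hba : inner ℝ b a = 0 := by rw [real_inner_comm]; exact hab
    have haa : inner ℝ a a = (1 : ℝ) := by rw [real_inner_self_eq_norm_sq, ha]; norm_num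
    have hbb : inner ℝ b b = (1 : ℝ) := by rw [real_inner_self_eq_norm_sq, hb]; norm_num
    have e : inner ℝ (L x) (L x) = inner ℝ x x := by
      show inner ℝ (x + ((c - 1) * inner ℝ a x - s * inner ℝ b x) • a +
        (s * inner ℝ a x + (c - 1) * inner ℝ b x) • b)
        (x + ((c - 1) * inner ℝ a x - s * inner ℝ b x) • a +
        (s * inner ℝ a x + (c - 1) * inner ℝ b x) • b) = inner ℝ x x
      simp only [inner_add_left, inner_add_right, inner_smul_left, inner_smul_right, hab, hba, haa,
        hbb, RCLike.conj_to_real]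
      rw [real_inner_comm a x, real_inner_comm b x]
      have h1 : (c - 1) ^ 2 + s ^ 2 = 2 - 2 * c := by linear_combination hcs
      linear_combination ((inner ℝ a x) ^ 2 + (inner ℝ b x) ^ 2) * h1
    rw [real_inner_self_eq_norm_sq, real_inner_self_eq_norm_sq] at e
    exact (sq_eq_sq₀ (norm_nonneg _) (norm_nonneg _)).mp e
  obtain ⟨T, hT⟩ := exists_act_eq (d := d) ⟨L, hn⟩
  exact ⟨T, fun x => by rw [hT]; rfl⟩

end SPH
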