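import Pool.Agent.SPH.Tplus

/-! Project SPH (MP_f7e9f1_co): the closure of the base condition under doubling. -/

open MeasureTheory Set Metric Filter
open scoped ENNReal NNReal Topology

noncomputable section
namespace SPH

/-- A vertex i0 of a finite family v of points of the sphere is tame if it satisfies the base
condition, or if there are a set B of indices different from i0 and a closed one-parameter group R
of rotations that fixes all v i with i in B, such that for almost every parameter the vertex i0 is
tame in the family that consists of the points v i and R v i with i not in B. -/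
inductive Tame {d : ℕ} : (ι : Type) → (ι → Sph d) → ι → Prop
  | base {ι : Type} (v : ι → Sph d) (i0 : ι) (h : BaseCond v i0) : Tame ι v i0
  | step {ι : Type} (v : ι → Sph d) (i0 : ι) (B : Finset ι) (hB : i0 ∉ B) (R : ℝ → OG d)
      (hRc : Continuous R) (hadd : ∀ s t, R (s + t) = R s * R t) (hper : R (2 * Real.pi) = 1)
      (hRB : ∀ θ, ∀ i ∈ B, R θ • v i = v i) (N : Set ℝ) (hN : volume N = 0)
      (h : ∀ τ, τ ∉ N → Tame ({i // i ∉ B} ⊕ {i // i ∉ B}) (dbl v B (R τ)) (Sum.inl ⟨i0, hB⟩)) :
      Tame ι v i0

/-- tame vertices are controlled -/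
theorem ctrlAt_of_tame {d : ℕ} (hd : 3 ≤ d) {ι : Type} (v : ι → Sph d) (i0 : ι)
    (h : Tame ι v i0) : ∀ _ : Fintype ι, CtrlAt v i0 := by
  classical
  induction h with
  | base v i0 h => exact fun _ => ctrlAt_of_base hd v i0 h
  | step v i0 B hB R hRc hadd hper hRB N hN h ih =>
    intro _
    refine ctrl_step v i0 B hB R hRc hadd hper hRB (ae_restrict_of_ae ?_)
    have h1 : ∀ᵐ τ : ℝ, τ ∉ N := by
      rw [ae_iff]
      simpa using hN
    filter_upwards [h1] with τ hτ
    exact ih τ hτ _

/-- the removal property for the configurations contained, up to signs, in a family with only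
tame vertices -/
theorem hasRemoval_of_tame {d : ℕ} (hd : 3 ≤ d) {ι : Type} [Fintype ι]
    (v : ι → Sph d) (hv : ∀ i0, Tame ι v i0)
    (P : Finset (Sph d)) (hP : P.Nonempty) (hPv : ∀ p ∈ P, ∃ i, p = v i ∨ p = -(v i)) :
    HasRemoval P := by
  classical
  exact hasRemoval_of_ctrlAt hd v (fun i0 => ctrlAt_of_tame hd v i0 (hv i0) _) P hP hPv

end SPH
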