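import Pool.Agent.SPH.Tame

/-! Project SPH (MP_f7e9f1_co): the double doubling step, deterministic form. -/

open MeasureTheory Set Metric Filter
open scoped ENNReal NNReal Topology

noncomputable section
namespace SPH

/-- the rotation formula -/
def RotF {d : ℕ} (a b : E d) (θ : ℝ) (r : OG d) : Prop :=
  ∀ x, act r x = x +
        ((Real.cos θ - 1) * inner ℝ x a - Real.sin θ * inner ℝ x b) • a +
        (Real.sin θ * inner ℝ x a + (Real.cos θ - 1) * inner ℝ x b) • b

theorem RotF.sub_mem {d : ℕ} {a b : E d} {θ : ℝ} {r : OG d} (h : RotF a b θ r) (x : E d) :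
    act r x - x ∈ Submodule.span ℝ ({a, b} : Set (E d)) := by
  rw [h x]
  have e : ∀ s t : ℝ, x + s • a + t • b - x = s • a + t • b := by intro s t; abel
  rw [e]
  exact Submodule.add_mem _ (Submodule.smul_mem _ _ (Submodule.subset_span (by simp)))
    (Submodule.smul_mem _ _ (Submodule.subset_span (by simp)))

theorem RotF.fix {d : ℕ} {a b : E d} {θ : ℝ} {r : OG d} (h : RotF a b θ r) {x : E d}
    (ha : inner ℝ x a = 0) (hb : inner ℝ x b = 0) : act r x = x := by
  rw [h x, ha, hb]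
  simp

theorem RotF.fix_iff {d : ℕ} {a b : E d} {θ : ℝ} {r : OG d} (h : RotF a b θ r) (hna : ‖a‖ = 1)
    (hnb : ‖b‖ = 1) (hab : inner ℝ a b = 0) (hθ : Real.cos θ ≠ 1) {x : E d}
    (hx : act r x = x) : inner ℝ x a = 0 ∧ inner ℝ x b = 0 := by
  set p : ℝ := inner ℝ x a with hp
  set q : ℝ := inner ℝ x b with hq
  set s1 : ℝ := (Real.cos θ - 1) * p - Real.sin θ * q with hs1
  set s2 : ℝ := Real.sin θ * p + (Real.cos θ - 1) * q with hs2
  have h0 := h x
  rw [hx] at h0
  have hz : s1 • a + s2 • b = 0 := by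
    have h5 : x = x + (s1 • a + s2 • b) := by
      rw [← add_assoc]; exact h0
    exact (left_eq_add.mp h5)
  have hza := congrArg (fun x => inner ℝ x a) hz
  have hzb := congrArg (fun x => inner ℝ x b) hz
  simp only [inner_add_left, real_inner_smul_left, inner_zero_left] at hza hzb
  rw [real_inner_self_eq_norm_sq, hna, real_inner_comm, hab] at hza
  rw [real_inner_self_eq_norm_sq, hnb, hab] at hzb
  have z1 : s1 = 0 := by linarith
  have z2 : s2 = 0 := by linarith
  have cs := Real.sin_sq_add_cos_sq θ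
  have hsum : s1 ^ 2 + s2 ^ 2 = 2 * (1 - Real.cos θ) * (p ^ 2 + q ^ 2) := by
    rw [hs1, hs2]
    linear_combination (p ^ 2 + q ^ 2) * cs
  rw [z1, z2] at hsum
  have hc : 2 * (1 - Real.cos θ) ≠ 0 := by
    intro h
    apply hθ
    linarith
  have hpq : p ^ 2 + q ^ 2 = 0 := by
    have h1 : 2 * (1 - Real.cos θ) * (p ^ 2 + q ^ 2) = 0 := by rw [← hsum]; ring
    exact (mul_eq_zero.mp h1).resolve_left hc
  constructor
  · nlinarith [sq_nonneg p, sq_nonneg q]
  · nlinarith [sq_nonneg p, sq_nonneg q]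

/-- the chord of a linear combination -/
theorem chord_add {d : ℕ} (r : OG d) (x y : E d) :
    act r (x + y) - (x + y) = (act r x - x) + (act r y - y) := by
  rw [act_add]; abel

theorem chord_smul {d : ℕ} (r : OG d) (c : ℝ) (x : E d) :
    act r (c • x) - (c • x) = c • (act r x - x) := by
  rw [act_smul, smul_sub]

/-- the parameters of the trivial rotations are negligible -/
theorem null_cos : volume {θ : ℝ | Real.cos θ = 1} = 0 := by
  refine Set.Countable.measure_zero ?_ volume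
  have : {θ : ℝ | Real.cos θ = 1} ⊆ Set.range fun n : ℤ => (n : ℝ) * (2 * Real.pi) := by
    intro θ hθ
    obtain ⟨n, hn⟩ := (Real.cos_eq_one_iff θ).mp hθ
    exact ⟨n, hn⟩
  exact (Set.countable_range _).mono this


theorem finrank_span_image_le {d : ℕ} {ι : Type*} [DecidableEq ι] (v : ι → Sph d) (C : Finset ι) :
    Module.finrank ℝ (Submodule.span ℝ ((fun i => (v i : E d)) '' (C : Set ι))) ≤ C.card := by
  classical
  rw [← Finset.coe_image]
  exact (finrank_span_finset_le_card _).trans Finset.card_image_le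

theorem finrank_span_pair_le {d : ℕ} (a b : E d) :
    Module.finrank ℝ (Submodule.span ℝ ({a, b} : Set (E d))) ≤ 2 := by
  classical
  have h4 := finrank_span_finset_le_card (R := ℝ) ({a, b} : Finset (E d))
  have h5 : ({a, b} : Finset (E d)).card ≤ 2 := Finset.card_le_two
  have h6 : ((({a, b} : Finset (E d))) : Set (E d)) = {a, b} := by simp
  rw [h6] at h4
  exact h4.trans h5

theorem finrank_span_sing_le {d : ℕ} (a : E d) :
    Module.finrank ℝ (Submodule.span ℝ ({a} : Set (E d))) ≤ 1 := by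
  refine (finrank_span_le_card ({a} : Set (E d))).trans ?_
  simp

/-- the double step -/
theorem tame_double {d : ℕ} {ι : Type} [Fintype ι] [DecidableEq ι] (v : ι → Sph d) (i0 : ι)
    (A B L M : Finset ι) (hcov : ∀ i, i ∈ A ∨ i ∈ B ∨ i ∈ L ∨ i ∈ M ∨ i = i0)
    (h0A : i0 ∉ A) (h0B : i0 ∉ B) (h0L : i0 ∉ L) (h0M : i0 ∉ M)
    (a b a' b' : E d) (hna : ‖a‖ = 1) (hnb : ‖b‖ = 1) (hab : inner ℝ a b = 0)
    (hna' : ‖a'‖ = 1) (hnb' : ‖b'‖ = 1) (hab' : inner ℝ a' b' = 0)
    (haa : inner ℝ a a' = 0) (hac : inner ℝ a b' = 0) (hba : inner ℝ b a' = 0)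
    (hbb : inner ℝ b b' = 0)
    (hB : ∀ i ∈ B, inner ℝ (v i : E d) a = 0 ∧ inner ℝ (v i : E d) b = 0)
    (hA : ∀ i ∈ A, inner ℝ (v i : E d) a' = 0 ∧ inner ℝ (v i : E d) b' = 0)
    (H0 : ∀ l ∈ Submodule.span ℝ ((fun i => (v i : E d)) '' (L : Set ι)),
      ∀ m ∈ Submodule.span ℝ ((fun i => (v i : E d)) '' (M : Set ι)),
      ∀ c : ℝ, c • (v i0 : E d) + l + m = 0 → c = 0 ∧ l = 0 ∧ m = 0)
    (H1 : ∀ l ∈ Submodule.span ℝ ((fun i => (v i : E d)) '' (L : Set ι)),
      ∀ m ∈ Submodule.span ℝ ((fun i => (v i : E d)) '' (M : Set ι)),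
      ∀ c : ℝ, c • (v i0 : E d) + l + m ∈ Submodule.span ℝ ({a, b} : Set (E d)) ⊔
        Submodule.span ℝ ({a', b'} : Set (E d)) → c • (v i0 : E d) + l + m = 0)
    (H3 : ∀ w ∈ Submodule.span ℝ ((fun i => (v i : E d)) '' (L : Set ι)),
      ¬ (inner ℝ ((v i0 : E d) + w) a = 0 ∧ inner ℝ ((v i0 : E d) + w) b = 0))
    (H4 : ∀ w ∈ Submodule.span ℝ ((fun i => (v i : E d)) '' (M : Set ι)),
      ¬ (inner ℝ ((v i0 : E d) + w) a' = 0 ∧ inner ℝ ((v i0 : E d) + w) b' = 0))
    (hd1 : L.card + M.card + 5 ≤ d) (hd2 : 2 * L.card + M.card + 3 ≤ d) :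
    Tame ι v i0 := by
  classical
  obtain ⟨R1, hc1, hadd1, hper1, hR1⟩ := exists_rot_per a b hna hnb hab
  obtain ⟨R2, hc2, hadd2, hper2, hR2⟩ := exists_rot_per a' b' hna' hnb' hab'
  have hR1' : ∀ θ, RotF a b θ (R1 θ) := fun θ x => hR1 θ x
  have hR2' : ∀ θ, RotF a' b' θ (R2 θ) := fun θ x => hR2 θ x
  refine Tame.step v i0 B h0B R1 hc1 hadd1 hper1 ?_ {θ | Real.cos θ = 1} null_cos ?_
  · intro θ i hi
    apply Subtype.ext
    rw [coe_smul_sph]
    exact (hR1' θ).fix (hB i hi).1 (hB i hi).2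
  intro τ hτ
  have hτ' : Real.cos τ ≠ 1 := hτ
  have f1 := hR1' τ
  set r1 : OG d := R1 τ with hr1
  set SL : Submodule ℝ (E d) := Submodule.span ℝ ((fun i => (v i : E d)) '' (L : Set ι)) with hSL
  set SM : Submodule ℝ (E d) := Submodule.span ℝ ((fun i => (v i : E d)) '' (M : Set ι)) with hSM
  set P1 : Submodule ℝ (E d) := Submodule.span ℝ ({a, b} : Set (E d)) with hP1
  set P2 : Submodule ℝ (E d) := Submodule.span ℝ ({a', b'} : Set (E d)) with hP2
  -- vectors of P1 are orthogonal to a', b'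
  have hP12 : ∀ x ∈ P1, inner ℝ x a' = 0 ∧ inner ℝ x b' = 0 := by
    intro x hx
    obtain ⟨s, t, rfl⟩ := Submodule.mem_span_pair.mp hx
    constructor
    · rw [inner_add_left, real_inner_smul_left, real_inner_smul_left, haa, hba]; simp
    · rw [inner_add_left, real_inner_smul_left, real_inner_smul_left, hac, hbb]; simp
  set B2 : Finset ({i // i ∉ B} ⊕ {i // i ∉ B}) := Finset.univ.filter
    (fun j => Sum.elim (fun i : {i // i ∉ B} => (i : ι)) (fun i : {i // i ∉ B} => (i : ι)) j ∈ A) with hB2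
  have hj0 : (Sum.inl ⟨i0, h0B⟩ : {i // i ∉ B} ⊕ {i // i ∉ B}) ∉ B2 := by
    simp [hB2, h0A]
  have hl : ∀ i : {i // i ∉ B}, (Sum.inl i : {i // i ∉ B} ⊕ {i // i ∉ B}) ∉ B2 → (i : ι) ∉ A := by
    intro i hi h
    exact hi (by simp [hB2, h])
  have hr : ∀ i : {i // i ∉ B}, (Sum.inr i : {i // i ∉ B} ⊕ {i // i ∉ B}) ∉ B2 → (i : ι) ∉ A := by
    intro i hi h
    exact hi (by simp [hB2, h])
  refine Tame.step (dbl v B r1) (Sum.inl ⟨i0, h0B⟩) B2 hj0 R2 hc2 hadd2 hper2 ?_
    {θ | Real.cos θ = 1} null_cos ?_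
  · intro θ j hj
    apply Subtype.ext
    rw [coe_smul_sph]
    rcases j with i | i
    · have hi : (i : ι) ∈ A := by simpa [hB2] using hj
      exact (hR2' θ).fix (hA i hi).1 (hA i hi).2
    · have hi : (i : ι) ∈ A := by simpa [hB2] using hj
      show act (R2 θ) (act r1 (v i)) = act r1 (v i)
      have e : act r1 (v i : E d) = (v i : E d) + (act r1 (v i) - (v i : E d)) := by abel
      have hm := hP12 _ (f1.sub_mem (v i : E d))
      refine (hR2' θ).fix ?_ ?_
      · rw [e, inner_add_left, (hA i hi).1, hm.1, add_zero]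
      · rw [e, inner_add_left, (hA i hi).2, hm.2, add_zero]
  intro σ hσ
  have hσ' : Real.cos σ ≠ 1 := hσ
  have f2 := hR2' σ
  set r2 : OG d := R2 σ with hr2
  -- the linear maps
  set C1 : E d →ₗ[ℝ] E d := Matrix.toEuclideanLin (r1 : Matrix _ _ ℝ) - LinearMap.id with hC1
  set C2 : E d →ₗ[ℝ] E d := Matrix.toEuclideanLin (r2 : Matrix _ _ ℝ) - LinearMap.id with hC2
  have e1 : ∀ x, C1 x = act r1 x - x := fun x => rfl
  have e2 : ∀ x, C2 x = act r2 x - x := fun x => rfl
  have m1 : ∀ x, C1 x ∈ P1 := fun x => f1.sub_mem x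
  have m2 : ∀ x, C2 x ∈ P2 := fun x => f2.sub_mem x
  have g1 : ∀ x, act r1 x = x + C1 x := fun x => by rw [e1]; abel
  have g2 : ∀ x, act r2 x = x + C2 x := fun x => by rw [e2]; abel
  have g21 : ∀ x, act r2 (act r1 x) = x + C2 x + C1 x := by
    intro x
    rw [g1 x, act_add, g2 x, f2.fix (hP12 _ (m1 x)).1 (hP12 _ (m1 x)).2]
  have z1 : ∀ x, C1 x = 0 → inner ℝ x a = 0 ∧ inner ℝ x b = 0 := by
    intro x hx
    refine f1.fix_iff hna hnb hab hτ' ?_
    rw [g1, hx, add_zero]
  have z2 : ∀ x, C2 x = 0 → inner ℝ x a' = 0 ∧ inner ℝ x b' = 0 := by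
    intro x hx
    refine f2.fix_iff hna' hnb' hab' hσ' ?_
    rw [g2, hx, add_zero]
  set v0 : E d := (v i0 : E d) with hv0
  set W : Submodule ℝ (E d) := Submodule.span ℝ {v0} ⊔ SL ⊔ SM ⊔ P1 ⊔ P2 with hW
  have hWd : Module.finrank ℝ W ≤ d := by
    have k1 := Submodule.finrank_add_le_finrank_add_finrank (Submodule.span ℝ {v0}) SL
    have k2 := Submodule.finrank_add_le_finrank_add_finrank (Submodule.span ℝ {v0} ⊔ SL) SM
    have k3 := Submodule.finrank_add_le_finrank_add_finrank (Submodule.span ℝ {v0} ⊔ SL ⊔ SM) P1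
    have k4 := Submodule.finrank_add_le_finrank_add_finrank (Submodule.span ℝ {v0} ⊔ SL ⊔ SM ⊔ P1) P2
    have k5 := finrank_span_sing_le v0
    have k6 := finrank_span_image_le v L
    have k7 := finrank_span_image_le v M
    have k8 := finrank_span_pair_le a b
    have k9 := finrank_span_pair_le a' b'
    rw [← hSL] at k6
    rw [← hSM] at k7
    rw [← hP1] at k8
    rw [← hP2] at k9
    rw [hW]
    omega
  obtain ⟨e0, he0, he0W⟩ := exists_unit_orth W hWd
  have wv0 : v0 ∈ W := Submodule.mem_sup_left (Submodule.mem_sup_left (Submodule.mem_sup_left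
    (Submodule.mem_sup_left (Submodule.mem_span_singleton_self v0))))
  have wL : ∀ i ∈ L, (v i : E d) ∈ SL := fun i hi => Submodule.subset_span ⟨i, hi, rfl⟩
  have wM : ∀ i ∈ M, (v i : E d) ∈ SM := fun i hi => Submodule.subset_span ⟨i, hi, rfl⟩
  have wLW : SL ≤ W := fun x hx => Submodule.mem_sup_left (Submodule.mem_sup_left (Submodule.mem_sup_left
    (Submodule.mem_sup_right hx)))
  have wMW : SM ≤ W := fun x hx => Submodule.mem_sup_left (Submodule.mem_sup_left
    (Submodule.mem_sup_right hx))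
  have wP1 : P1 ≤ W := fun x hx => Submodule.mem_sup_left (Submodule.mem_sup_right hx)
  have wP2 : P2 ≤ W := fun x hx => Submodule.mem_sup_right hx
  have wi : ∀ i, i ∉ B → i ∉ A → (v i : E d) ∈ W := by
    intro i h1 h2
    rcases hcov i with h | h | h | h | h
    · exact absurd h h2
    · exact absurd h h1
    · exact wLW (wL i h)
    · exact wMW (wM i h)
    · rw [h]; exact wv0
  set cls : {j // j ∉ B2} ⊕ {j // j ∉ B2} → Prop := Sum.elim
    (fun j => Sum.elim (fun i : {i // i ∉ B} => (i : ι) ∈ L ∨ (i : ι) ∈ M)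
      (fun i : {i // i ∉ B} => (i : ι) = i0 ∨ (i : ι) ∈ L) j.1) (fun _ => False) with hcls
  set A' : Finset ({j // j ∉ B2} ⊕ {j // j ∉ B2}) := Finset.univ.filter cls with hA'
  have memA' : ∀ k, k ∈ A' ↔ cls k := fun k => by simp [hA']
  -- the span of the first class
  set SA : Submodule ℝ (E d) := Submodule.span ℝ {v0 + C1 v0} ⊔ SL ⊔ SL.map C1 ⊔ SM with hSA
  have hSAle : Submodule.span ℝ ((fun k => (dbl (dbl v B r1) B2 r2 k : E d)) '' (A' : Set _)) ≤ SA := by
    rw [Submodule.span_le]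
    rintro x ⟨k, hk, rfl⟩
    have hk' : cls k := (memA' k).mp hk
    rcases k with ⟨(i | i), hi⟩ | j
    · have hi' : (i : ι) ∈ L ∨ (i : ι) ∈ M := hk'
      show (v i : E d) ∈ SA
      rcases hi' with h | h
      · exact Submodule.mem_sup_left (Submodule.mem_sup_left (Submodule.mem_sup_right (wL i h)))
      · exact Submodule.mem_sup_right (wM i h)
    · have hi' : (i : ι) = i0 ∨ (i : ι) ∈ L := hk'
      show act r1 (v i : E d) ∈ SA
      rw [g1]
      rcases hi' with h | h
      · rw [h]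
        exact Submodule.mem_sup_left (Submodule.mem_sup_left (Submodule.mem_sup_left
          (Submodule.mem_span_singleton_self _)))
      · refine Submodule.add_mem _ ?_ ?_
        · exact Submodule.mem_sup_left (Submodule.mem_sup_left (Submodule.mem_sup_right (wL i h)))
        · exact Submodule.mem_sup_left (Submodule.mem_sup_right
            (Submodule.mem_map_of_mem (wL i h)))
    · exact absurd hk' (by simp [hcls])
  have hnA : v0 ∉ SA := by
    intro hmem
    obtain ⟨y1, hy1, m, hm, hE⟩ := Submodule.mem_sup.mp hmem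
    obtain ⟨y2, hy2, y3, hy3, rfl⟩ := Submodule.mem_sup.mp hy1
    obtain ⟨y4, hy4, l, hl', rfl⟩ := Submodule.mem_sup.mp hy2
    obtain ⟨α, rfl⟩ := Submodule.mem_span_singleton.mp hy4
    obtain ⟨l2, hl2, rfl⟩ := (Submodule.mem_map).mp hy3
    have key : (1 - α) • v0 + (-l) + (-m) = C1 (α • v0 + l2) := by
      rw [map_add, map_smul]
      have : v0 = α • (v0 + C1 v0) + l + C1 l2 + m := hE.symm
      calc (1 - α) • v0 + (-l) + (-m) = v0 - α • v0 - l - m := by rw [sub_smul, one_smul]; abel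
        _ = (α • (v0 + C1 v0) + l + C1 l2 + m) - α • v0 - l - m := by rw [← this]
        _ = α • C1 v0 + C1 l2 := by rw [smul_add]; abel
    have hz := H1 (-l) (SL.neg_mem hl') (-m) (SM.neg_mem hm) (1 - α)
      (by rw [key]; exact Submodule.mem_sup_left (m1 _))
    obtain ⟨hα, hl0, hm0⟩ := H0 (-l) (SL.neg_mem hl') (-m) (SM.neg_mem hm) (1 - α) hz
    have hα1 : α = 1 := by linarith
    rw [key, hα1, one_smul] at hz
    exact H3 l2 hl2 (z1 _ hz)
  set SB : Submodule ℝ (E d) := P1 ⊔ SM ⊔ Submodule.span ℝ {v0 + C2 v0} ⊔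
    SL.map (LinearMap.id + C2) ⊔ SM.map C2 with hSB
  have sB1 : P1 ≤ SB := fun x hx => Submodule.mem_sup_left (Submodule.mem_sup_left
    (Submodule.mem_sup_left (Submodule.mem_sup_left hx)))
  have sB2 : SM ≤ SB := fun x hx => Submodule.mem_sup_left (Submodule.mem_sup_left
    (Submodule.mem_sup_left (Submodule.mem_sup_right hx)))
  have sB3 : ∀ i, i ∉ B → i ∉ A → (v i : E d) + C2 (v i) ∈ SB := by
    intro i h1 h2
    rcases hcov i with h | h | h | h | h
    · exact absurd h h2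
    · exact absurd h h1
    · exact Submodule.mem_sup_left (Submodule.mem_sup_right
        (Submodule.mem_map.mpr ⟨(v i : E d), wL i h, by simp⟩))
    · exact Submodule.add_mem _ (sB2 (wM i h)) (Submodule.mem_sup_right
        (Submodule.mem_map_of_mem (wM i h)))
    · rw [h]
      exact Submodule.mem_sup_left (Submodule.mem_sup_left (Submodule.mem_sup_right
        (Submodule.mem_span_singleton_self _)))
  have hSBle : Submodule.span ℝ ((fun k => (dbl (dbl v B r1) B2 r2 k : E d)) ''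
      {k | k ∉ A' ∧ k ≠ Sum.inl ⟨Sum.inl ⟨i0, h0B⟩, hj0⟩}) ≤ SB := by
    rw [Submodule.span_le]
    rintro x ⟨k, ⟨hk1, hk2⟩, rfl⟩
    have hk' : ¬ cls k := fun h => hk1 ((memA' k).mpr h)
    rcases k with ⟨(i | i), hi⟩ | ⟨(i | i), hi⟩
    · exfalso
      have hi' : ¬ ((i : ι) ∈ L ∨ (i : ι) ∈ M) := hk'
      push Not at hi'
      rcases hcov i with h | h | h | h | h
      · exact hl i hi h
      · exact i.2 h
      · exact hi'.1 h
      · exact hi'.2 h
      · apply hk2
        congr 2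
        apply congrArg
        exact Subtype.ext h
    · have hi' : ¬ ((i : ι) = i0 ∨ (i : ι) ∈ L) := hk'
      push Not at hi'
      have hM : (i : ι) ∈ M := by
        rcases hcov i with h | h | h | h | h
        · exact absurd h (hr i hi)
        · exact absurd h i.2
        · exact absurd h hi'.2
        · exact h
        · exact absurd h hi'.1
      show act r1 (v i : E d) ∈ SB
      rw [g1]
      exact Submodule.add_mem _ (sB2 (wM i hM)) (sB1 (m1 _))
    · show act r2 (v i : E d) ∈ SB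
      rw [g2]
      exact sB3 i i.2 (hl i hi)
    · show act r2 (act r1 (v i : E d)) ∈ SB
      rw [g21]
      exact Submodule.add_mem _ (sB3 i i.2 (hr i hi)) (sB1 (m1 _))
  have hnB : v0 ∉ SB := by
    intro hmem
    obtain ⟨y1, hy1, y2, hy2, hE⟩ := Submodule.mem_sup.mp hmem
    obtain ⟨y3, hy3, y4, hy4, rfl⟩ := Submodule.mem_sup.mp hy1
    obtain ⟨y5, hy5, y6, hy6, rfl⟩ := Submodule.mem_sup.mp hy3
    obtain ⟨p, hp, m, hm, rfl⟩ := Submodule.mem_sup.mp hy5
    obtain ⟨α, rfl⟩ := Submodule.mem_span_singleton.mp hy6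
    obtain ⟨l, hl', rfl⟩ := (Submodule.mem_map).mp hy4
    obtain ⟨m', hm', rfl⟩ := (Submodule.mem_map).mp hy2
    have key : (1 - α) • v0 + (-l) + (-m) = p + C2 (α • v0 + l + m') := by
      rw [map_add, map_add, map_smul]
      have e3 : (LinearMap.id + C2 : E d →ₗ[ℝ] E d) l = l + C2 l := by simp
      rw [e3] at hE
      calc (1 - α) • v0 + (-l) + (-m) = v0 - α • v0 - l - m := by rw [sub_smul, one_smul]; abel
        _ = (p + m + α • (v0 + C2 v0) + (l + C2 l) + C2 m') - α • v0 - l - m := by rw [hE]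
        _ = p + (α • C2 v0 + C2 l + C2 m') := by rw [smul_add]; abel
    have hz := H1 (-l) (SL.neg_mem hl') (-m) (SM.neg_mem hm) (1 - α)
      (by rw [key]; exact Submodule.add_mem _ (Submodule.mem_sup_left hp)
            (Submodule.mem_sup_right (m2 _)))
    obtain ⟨hα, hl0, hm0⟩ := H0 (-l) (SL.neg_mem hl') (-m) (SM.neg_mem hm) (1 - α) hz
    have hα1 : α = 1 := by linarith
    have hl00 : l = 0 := neg_eq_zero.mp hl0
    rw [key, hα1, one_smul, hl00, add_zero] at hz
    have hp0 : C2 (v0 + m') = -p := by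
      have := eq_neg_of_add_eq_zero_right hz
      exact this
    have hin : inner ℝ (C2 (v0 + m')) (C2 (v0 + m')) = 0 := by
      obtain ⟨s, t, hst⟩ := Submodule.mem_span_pair.mp (m2 (v0 + m'))
      have hpp := hP12 p hp
      have : inner ℝ (C2 (v0 + m')) (s • a' + t • b') = 0 := by
        rw [hp0, inner_neg_left, inner_add_right, real_inner_smul_right, real_inner_smul_right,
          hpp.1, hpp.2]
        simp
      rw [hst] at this
      exact this
    exact H4 m' hm' (z2 _ (inner_self_eq_zero.mp hin))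
  refine Tame.base _ _ ⟨A', e0, ?_, he0, ?_, ?_, ?_, ?_⟩
  · rw [memA']
    show ¬ (i0 ∈ L ∨ i0 ∈ M)
    push Not
    exact ⟨h0L, h0M⟩
  · intro k
    apply he0W
    rcases k with ⟨(i | i), hi⟩ | ⟨(i | i), hi⟩
    · exact wi i i.2 (hl i hi)
    · show act r1 (v i : E d) ∈ W
      rw [g1]
      exact W.add_mem (wi i i.2 (hr i hi)) (wP1 (m1 _))
    · show act r2 (v i : E d) ∈ W
      rw [g2]
      exact W.add_mem (wi i i.2 (hl i hi)) (wP2 (m2 _))
    · show act r2 (act r1 (v i : E d)) ∈ W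
      rw [g21]
      exact W.add_mem (W.add_mem (wi i i.2 (hr i hi)) (wP2 (m2 _))) (wP1 (m1 _))
  · exact fun h => hnA (hSAle h)
  · exact fun h => hnB (hSBle h)
  · have k0 := Submodule.finrank_mono hSAle
    have k1 := Submodule.finrank_add_le_finrank_add_finrank (Submodule.span ℝ {v0 + C1 v0}) SL
    have k2 := Submodule.finrank_add_le_finrank_add_finrank
      (Submodule.span ℝ {v0 + C1 v0} ⊔ SL) (SL.map C1)
    have k3 := Submodule.finrank_add_le_finrank_add_finrank
      (Submodule.span ℝ {v0 + C1 v0} ⊔ SL ⊔ SL.map C1) SM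
    have k4 := Submodule.finrank_map_le C1 SL
    have k5 := finrank_span_sing_le (v0 + C1 v0)
    have k6 := finrank_span_image_le v L
    have k7 := finrank_span_image_le v M
    rw [← hSL] at k6
    rw [← hSM] at k7
    rw [← hSA] at k3
    omega

end SPH
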