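import Pool.Agent.SPH.CS2
import Pool.Agent.SPH.UThm

/-! Project SPH (MP_f7e9f1_co): Theorem U when the plane of the first rotation is orthogonal only to the
vectors outside A (no condition on the rank of the configuration). -/

open MeasureTheory Set Metric Filter
open scoped ENNReal NNReal Topology

noncomputable section
namespace SPH

theorem twoCS_plane {d : ℕ} (hd : 3 ≤ d) {ι : Type*} [Fintype ι] [DecidableEq ι] (v : ι → Sph d)
    (i0 : ι) (A : Finset ι) (hA : i0 ∉ A) (a b : E d) (ha : ‖a‖ = 1) (hb : ‖b‖ = 1)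
    (hab : inner ℝ a b = 0)
    (hB : ∀ i, i ∉ A → i ≠ i0 → inner ℝ a (v i : E d) = 0 ∧ inner ℝ b (v i : E d) = 0)
    (hne : inner ℝ a (v i0 : E d) ≠ 0 ∨ inner ℝ b (v i0 : E d) ≠ 0)
    (h1 : (v i0 : E d) ∉ Submodule.span ℝ ((fun i => (v i : E d)) '' (A : Set ι) ∪ {a, b}))
    (h3 : Module.finrank ℝ (Submodule.span ℝ ((fun i => (v i : E d)) '' (A : Set ι) ∪ {a, b})) + 1
      ≤ d) : TwoCS v i0 :=
  twoCS_plane_of (fun g y0 y1 y2 y3 h0 h1 h2 h3 hy hs ht =>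
      J4_eq_jg hd g y0 y1 y2 y3 h0 h1 h2 h3 hy (by linarith))
    (fun g hg => measurable_jg g hg) (fun g hg s t => norm_jg_le g hg s t)
    v i0 A hA a b ha hb hab hB hne h1 h3

/-- Theorem U, plane version, for real functions on the sphere. -/
theorem theoremU_sph_plane {d : ℕ} (hd : 3 ≤ d) {ι : Type*} [Fintype ι] [DecidableEq ι]
    (v : ι → Sph d) (i0 : ι) (A : Finset ι) (hA : i0 ∉ A) (a b : E d) (ha : ‖a‖ = 1) (hb : ‖b‖ = 1)
    (hab : inner ℝ a b = 0)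
    (hB : ∀ i, i ∉ A → i ≠ i0 → inner ℝ a (v i : E d) = 0 ∧ inner ℝ b (v i : E d) = 0)
    (hne : inner ℝ a (v i0 : E d) ≠ 0 ∨ inner ℝ b (v i0 : E d) ≠ 0)
    (h1 : (v i0 : E d) ∉ Submodule.span ℝ ((fun i => (v i : E d)) '' (A : Set ι) ∪ {a, b}))
    (h3 : Module.finrank ℝ (Submodule.span ℝ ((fun i => (v i : E d)) '' (A : Set ι) ∪ {a, b})) + 1
      ≤ d) (κ : ℝ) (hκ : 0 < κ) :
    ∃ ε : ℝ, 0 < ε ∧ ∀ (g : Sph d → ℝ) (f : ι → Sph d → ℝ), Measurable g → (∀ x, |g x| ≤ 1) →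
        (∀ i, Measurable (f i)) → (∀ i x, |f i x| ≤ 1) →
        (∀ ξ : E d, ‖∫ x : Sph d, ((g x : ℝ) : ℂ) * ee (-(inner ℝ ξ (x : E d))) ∂(sig d)‖ ≤ ε) →
        |∫ T : OG d, g (T • v i0) * ∏ i ∈ Finset.univ.erase i0, f i (T • v i) ∂(mu d)| ≤ κ :=
  theoremU_sph_of v i0 κ (theoremU_of v i0 (twoCS_plane hd v i0 A hA a b ha hb hab hB hne h1 h3)
    (rectSmall d hd) κ hκ)

end SPH
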