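import Pool.Agent.SPH.Defs

/-! Project SPH (MP_f7e9f1_co), row CS, first part: the Cauchy-Schwarz step for a circle acting by
right multiplication. -/

open MeasureTheory Set Metric Filter
open scoped ENNReal NNReal Topology ComplexConjugate

noncomputable section
namespace SPH

/-- Cauchy-Schwarz on a probability space -/
theorem sq_integral_le {Ω : Type*} [MeasurableSpace Ω] (P : Measure Ω) [IsProbabilityMeasure P]
    (f : Ω → ℝ) (h1 : Integrable f P) (h2 : Integrable (fun x => f x ^ 2) P) :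
    (∫ x, f x ∂P) ^ 2 ≤ ∫ x, f x ^ 2 ∂P := by
  set c := ∫ x, f x ∂P with hc
  have h0 : 0 ≤ ∫ x, (f x - c) ^ 2 ∂P := integral_nonneg fun x => sq_nonneg _
  have h3 : ∫ x, (f x - c) ^ 2 ∂P = (∫ x, f x ^ 2 ∂P) - 2 * c * (∫ x, f x ∂P) + c ^ 2 := by
    have e : ∀ x, (f x - c) ^ 2 = (f x ^ 2 - (2 * c) * f x) + c ^ 2 := fun x => by ring
    simp only [e]
    have hi : Integrable (fun x => f x ^ 2 - (2 * c) * f x) P := h2.sub (h1.const_mul (2 * c))
    rw [integral_add hi (integrable_const _), integral_sub h2 (h1.const_mul (2 * c)),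
      integral_const_mul]
    simp
  rw [h3, ← hc] at h0
  nlinarith

theorem integrable_bdd {Ω : Type*} [MeasurableSpace Ω] {P : Measure Ω} [IsFiniteMeasure P]
    {F : Type*} [NormedAddCommGroup F] {f : Ω → F}
    (hf : AEStronglyMeasurable f P) (C : ℝ) (hC : ∀ x, ‖f x‖ ≤ C) : Integrable f P :=
  Integrable.of_bound hf C (Eventually.of_forall hC)

/-- the circle Cauchy-Schwarz step -/
theorem vdc {d : ℕ} (R : ℝ → OG d) (hRc : Continuous R) (hRm : ∀ s t, R (s + t) = R s * R t)
    (hRp : R (2 * Real.pi) = 1) (F X : OG d → ℂ) (hF : Measurable F) (hX : Measurable X)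
    (hF1 : ∀ T, ‖F T‖ ≤ 1) (hX1 : ∀ T, ‖X T‖ ≤ 1) (hFR : ∀ T θ, F (T * R θ) = F T) :
    ‖∫ T, F T * X T ∂(mu d)‖ ^ 2 ≤
      (1 / Real.pi) * ∫ θ in Ioo 0 Real.pi, (∫ T, X T * conj (X (T * R θ)) ∂(mu d)).re := by
  have hpi : 0 < Real.pi := Real.pi_pos
  set ν : Measure ℝ := volume.restrict (Ioc (-Real.pi) Real.pi) with hν
  have hνfin : IsFiniteMeasure ν := by rw [hν]; infer_instance
  have hν1 : ν.real univ = 2 * Real.pi := by
    rw [hν]
    simp only [measureReal_restrict_apply_univ, Real.volume_real_Ioc]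
    rw [max_eq_left (by linarith)]; ring
  -- the joint measurability
  have hjm : Measurable fun p : OG d × ℝ => X (p.1 * R p.2) :=
    hX.comp (continuous_fst.mul (hRc.comp continuous_snd)).measurable
  set Z : OG d → ℂ := fun T => ∫ θ, X (T * R θ) ∂ν with hZ
  have hZm : Measurable Z := (hjm.stronglyMeasurable.integral_prod_right' (ν := ν)).measurable
  have hZb : ∀ T, ‖Z T‖ ≤ 2 * Real.pi := by
    intro T
    have h := norm_integral_le_of_norm_le_const (μ := ν) (f := fun θ => X (T * R θ)) (C := 1)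
      (Eventually.of_forall fun θ => hX1 _)
    rw [hν1, one_mul] at h
    exact h
  have hper : ∀ T, Function.Periodic (fun θ => X (T * R θ)) (2 * Real.pi) := by
    intro T θ
    show X (T * R (θ + 2 * Real.pi)) = X (T * R θ)
    rw [hRm, hRp, mul_one]
  have hZR : ∀ T α, Z (T * R α) = Z T := by
    intro T α
    have e1 : ∀ T, Z T = ∫ θ in (-Real.pi)..Real.pi, X (T * R θ) := by
      intro T
      rw [intervalIntegral.integral_of_le (by linarith)]
    rw [e1, e1]
    have e2 : ∀ θ, X (T * R α * R θ) = (fun θ => X (T * R θ)) (θ + α) := by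
      intro θ
      show _ = X (T * R (θ + α))
      rw [add_comm θ α, hRm, mul_assoc]
    simp only [e2]
    rw [intervalIntegral.integral_comp_add_right (fun θ => X (T * R θ))]
    have h := (hper T).intervalIntegral_add_eq (-Real.pi + α) (-Real.pi)
    have e3 : -Real.pi + α + 2 * Real.pi = Real.pi + α := by ring
    have e4 : -Real.pi + 2 * Real.pi = Real.pi := by ring
    rw [e3, e4] at h
    exact h
  -- first identity
  have hI : ∫ T, F T * Z T ∂(mu d) = (2 * Real.pi : ℝ) * ∫ T, F T * X T ∂(mu d) := by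
    have e1 : ∀ T, F T * Z T = ∫ θ, F T * X (T * R θ) ∂ν := by
      intro T
      rw [hZ, integral_const_mul]
    simp only [e1]
    rw [integral_integral_swap]
    · have e2 : ∀ θ, ∫ T, F T * X (T * R θ) ∂(mu d) = ∫ T, F T * X T ∂(mu d) := by
        intro θ
        rw [← integral_mul_right_eq_self (fun T => F T * X T) (R θ)]
        simp only [hFR]
      simp only [e2]
      rw [integral_const, hν1]
      simp
    · refine integrable_bdd ?_ 1 ?_
      · exact ((hF.comp measurable_fst).mul hjm).aestronglyMeasurable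
      · rintro ⟨T, θ⟩
        show ‖F T * X (T * R θ)‖ ≤ 1
        rw [norm_mul]
        exact mul_le_one₀ (hF1 _) (norm_nonneg _) (hX1 _)
  have hK : Measurable fun θ : ℝ => ∫ T, X T * conj (X (T * R θ)) ∂(mu d) := by
    have h1 : Measurable fun p : ℝ × OG d => X p.2 * conj (X (p.2 * R p.1)) :=
      (hX.comp measurable_snd).mul
        (Complex.continuous_conj.measurable.comp (hjm.comp measurable_swap))
    exact (h1.stronglyMeasurable.integral_prod_right' (ν := mu d)).measurable
  have hKb : ∀ θ : ℝ, ‖∫ T, X T * conj (X (T * R θ)) ∂(mu d)‖ ≤ 1 := by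
    intro θ
    have h := norm_integral_le_of_norm_le_const (μ := mu d)
      (f := fun T => X T * conj (X (T * R θ))) (C := 1)
      (Eventually.of_forall fun T => by
        rw [norm_mul, RCLike.norm_conj]
        exact mul_le_one₀ (hX1 _) (norm_nonneg _) (hX1 _))
    simpa using h
  -- second identity
  have hZZ : ∫ T, Z T * conj (Z T) ∂(mu d) = (2 * Real.pi : ℝ) * ∫ T, X T * conj (Z T) ∂(mu d) := by
    have e1 : ∀ T, Z T * conj (Z T) = ∫ θ, X (T * R θ) * conj (Z T) ∂ν := by
      intro T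
      rw [integral_mul_const]
    simp only [e1]
    rw [integral_integral_swap]
    · have e2 : ∀ θ, ∫ T, X (T * R θ) * conj (Z T) ∂(mu d) = ∫ T, X T * conj (Z T) ∂(mu d) := by
        intro θ
        rw [← integral_mul_right_eq_self (fun T => X T * conj (Z T)) (R θ)]
        simp only [hZR]
      simp only [e2]
      rw [integral_const, hν1]
      simp
    · refine integrable_bdd ?_ (2 * Real.pi) ?_
      · exact (hjm.mul (Complex.continuous_conj.measurable.comp
          (hZm.comp measurable_fst))).aestronglyMeasurable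
      · rintro ⟨T, θ⟩
        show ‖X (T * R θ) * conj (Z T)‖ ≤ 2 * Real.pi
        rw [norm_mul, RCLike.norm_conj]
        calc ‖X (T * R θ)‖ * ‖Z T‖ ≤ 1 * (2 * Real.pi) :=
              mul_le_mul (hX1 _) (hZb _) (norm_nonneg _) zero_le_one
          _ = 2 * Real.pi := one_mul _
  have hXZ : ∫ T, X T * conj (Z T) ∂(mu d) = ∫ θ, (∫ T, X T * conj (X (T * R θ)) ∂(mu d)) ∂ν := by
    have e1 : ∀ T, X T * conj (Z T) = ∫ θ, X T * conj (X (T * R θ)) ∂ν := by
      intro T
      rw [integral_const_mul, hZ, integral_conj]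
    simp only [e1]
    rw [integral_integral_swap]
    refine integrable_bdd ?_ 1 ?_
    · exact ((hX.comp measurable_fst).mul
        (Complex.continuous_conj.measurable.comp hjm)).aestronglyMeasurable
    · rintro ⟨T, θ⟩
      show ‖X T * conj (X (T * R θ))‖ ≤ 1
      rw [norm_mul, RCLike.norm_conj]
      exact mul_le_one₀ (hX1 _) (norm_nonneg _) (hX1 _)
  -- symmetry
  have hR0 : R 0 = 1 := by
    have h := hRm 0 0
    rw [add_zero] at h
    exact left_eq_mul.mp h
  have hKsym : ∀ θ : ℝ, ∫ T, X T * conj (X (T * R (-θ))) ∂(mu d) =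
      conj (∫ T, X T * conj (X (T * R θ)) ∂(mu d)) := by
    intro θ
    rw [← integral_mul_right_eq_self (fun T => X T * conj (X (T * R (-θ)))) (R θ), ← integral_conj]
    congr 1
    funext T
    rw [mul_assoc, ← hRm, add_neg_cancel, hR0, mul_one, map_mul, Complex.conj_conj, mul_comm]
  have hKre : (∫ θ, (∫ T, X T * conj (X (T * R θ)) ∂(mu d)) ∂ν).re =
      2 * ∫ θ in Ioo 0 Real.pi, (∫ T, X T * conj (X (T * R θ)) ∂(mu d)).re := by
    have hKi : Integrable (fun θ : ℝ => ∫ T, X T * conj (X (T * R θ)) ∂(mu d)) ν :=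
      integrable_bdd hK.aestronglyMeasurable 1 hKb
    have e1 : (∫ θ, (∫ T, X T * conj (X (T * R θ)) ∂(mu d)) ∂ν).re =
        ∫ θ, (∫ T, X T * conj (X (T * R θ)) ∂(mu d)).re ∂ν := (integral_re hKi).symm
    rw [e1, hν, ← intervalIntegral.integral_of_le (by linarith)]
    have hk' : ∀ a b : ℝ, IntervalIntegrable
        (fun θ => (∫ T, X T * conj (X (T * R θ)) ∂(mu d)).re) volume a b := by
      intro a b
      refine (intervalIntegrable_const (c := (1 : ℝ))).mono_fun
        (Complex.measurable_re.comp hK).aestronglyMeasurable ?_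
      refine Eventually.of_forall fun θ => ?_
      rw [norm_one]
      exact (Complex.abs_re_le_norm _).trans (hKb θ)
    rw [← intervalIntegral.integral_add_adjacent_intervals (hk' (-Real.pi) 0) (hk' 0 Real.pi)]
    have e2 : ∫ θ in (-Real.pi)..0, (∫ T, X T * conj (X (T * R θ)) ∂(mu d)).re =
        ∫ θ in (0 : ℝ)..Real.pi, (∫ T, X T * conj (X (T * R θ)) ∂(mu d)).re := by
      have h := intervalIntegral.integral_comp_neg (a := 0) (b := Real.pi)
        (fun θ => (∫ T, X T * conj (X (T * R θ)) ∂(mu d)).re)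
      rw [neg_zero] at h
      rw [← h]
      congr 1
      funext θ
      rw [hKsym, Complex.conj_re]
    rw [e2, intervalIntegral.integral_of_le hpi.le, ← integral_Ioc_eq_integral_Ioo]
    ring
  -- Cauchy-Schwarz
  have hZi : Integrable (fun T => ‖Z T‖) (mu d) :=
    (integrable_bdd hZm.aestronglyMeasurable _ hZb).norm
  have hZi2 : Integrable (fun T => ‖Z T‖ ^ 2) (mu d) := by
    refine integrable_bdd (hZm.norm.pow_const 2).aestronglyMeasurable ((2 * Real.pi) ^ 2) ?_
    intro T
    rw [norm_pow, norm_norm]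
    exact pow_le_pow_left₀ (norm_nonneg _) (hZb T) 2
  have h1 : ‖∫ T, F T * Z T ∂(mu d)‖ ≤ ∫ T, ‖Z T‖ ∂(mu d) := by
    refine norm_integral_le_of_norm_le hZi (Eventually.of_forall fun T => ?_)
    rw [norm_mul]
    calc ‖F T‖ * ‖Z T‖ ≤ 1 * ‖Z T‖ := mul_le_mul_of_nonneg_right (hF1 T) (norm_nonneg _)
      _ = ‖Z T‖ := one_mul _
  have h2 : ‖∫ T, F T * Z T ∂(mu d)‖ ^ 2 ≤ ∫ T, ‖Z T‖ ^ 2 ∂(mu d) :=
    (pow_le_pow_left₀ (norm_nonneg _) h1 2).trans (sq_integral_le (mu d) _ hZi hZi2)
  have h3 : ∫ T, ‖Z T‖ ^ 2 ∂(mu d) = (∫ T, Z T * conj (Z T) ∂(mu d)).re := by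
    have hi : Integrable (fun T => Z T * conj (Z T)) (mu d) := by
      refine integrable_bdd (hZm.mul (Complex.continuous_conj.measurable.comp
        hZm)).aestronglyMeasurable ((2 * Real.pi) * (2 * Real.pi)) ?_
      intro T
      rw [norm_mul, RCLike.norm_conj]
      exact mul_le_mul (hZb T) (hZb T) (norm_nonneg _) (by linarith)
    have e1 : (∫ T, Z T * conj (Z T) ∂(mu d)).re = ∫ T, (Z T * conj (Z T)).re ∂(mu d) :=
      (integral_re hi).symm
    rw [e1]
    congr 1
    funext T
    rw [Complex.mul_conj, Complex.ofReal_re, Complex.normSq_eq_norm_sq]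
  rw [hI, norm_mul, Complex.norm_real, Real.norm_of_nonneg (by linarith), h3, hZZ, hXZ,
    Complex.re_ofReal_mul, hKre] at h2
  have h4 : (2 * Real.pi * ‖∫ T, F T * X T ∂(mu d)‖) ^ 2 =
      (4 * Real.pi ^ 2) * ‖∫ T, F T * X T ∂(mu d)‖ ^ 2 := by ring
  rw [h4] at h2
  have h5 : 2 * Real.pi * (2 * ∫ θ in Ioo 0 Real.pi, (∫ T, X T * conj (X (T * R θ)) ∂(mu d)).re) =
      (4 * Real.pi ^ 2) * ((1 / Real.pi) *
        ∫ θ in Ioo 0 Real.pi, (∫ T, X T * conj (X (T * R θ)) ∂(mu d)).re) := by
    field_simp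
    ring
  rw [h5] at h2
  exact le_of_mul_le_mul_left h2 (by positivity)

end SPH
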