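import Mathlib

/-!
Zero measure removal on a compact group (section 2.4 and the compactness of 2.5).
-/

set_option autoImplicit false

open MeasureTheory Topology Filter Set
open scoped ENNReal symmDiff

namespace SPH

/-- Compactness: finitely many compact sets which are not met simultaneously have
neighbourhoods which are not met simultaneously. -/
theorem exists_urysohn {Y X I : Type*} [TopologicalSpace Y] [CompactSpace Y] [TopologicalSpace X]
    [CompactSpace X] [T2Space X] [SecondCountableTopology X] [Fintype I] [Nonempty I]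
    (p : I → Y → X) (hp : ∀ i, Continuous (p i)) (K : I → Set X) (hK : ∀ i, IsCompact (K i))
    (h : ∀ y, ∃ i, p i y ∉ K i) :
    ∃ ψ : I → C(X, ℝ), (∀ i x, 0 ≤ ψ i x ∧ ψ i x ≤ 1) ∧ (∀ i, ∀ x ∈ K i, ψ i x = 0) ∧
      ∀ y, ∃ i, ψ i (p i y) = 1 := by
  classical
  let _ : MetricSpace X := TopologicalSpace.metrizableSpaceMetric X
  by_cases hne : ∃ i, K i = ∅
  · obtain ⟨i₀, hi₀⟩ := hne
    refine ⟨fun i => if i = i₀ then ContinuousMap.const X 1 else ContinuousMap.const X 0,
      ?_, ?_, ?_⟩
    · intro i x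
      by_cases hi : i = i₀
      · simp [hi]
      · simp [hi]
    · intro i x hx
      by_cases hi : i = i₀
      · subst hi
        rw [hi₀] at hx
        exact absurd hx (Set.notMem_empty x)
      · simp [hi]
    · intro y
      exact ⟨i₀, by simp⟩
  · push Not at hne
    have hne' : ∀ i, (K i).Nonempty := fun i => hne i
    set f : Y → ℝ := fun y => ∑ i, Metric.infDist (p i y) (K i) with hf
    have hfc : Continuous f := by
      refine continuous_finset_sum _ fun i _ => ?_
      exact (Metric.continuous_infDist_pt (K i)).comp (hp i)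
    have hfpos : ∀ y, 0 < f y := by
      intro y
      obtain ⟨i, hi⟩ := h y
      refine Finset.sum_pos' (fun j _ => Metric.infDist_nonneg) ⟨i, Finset.mem_univ i, ?_⟩
      exact ((hK i).isClosed.notMem_iff_infDist_pos (hne' i)).1 hi
    obtain ⟨c, hc, hcf⟩ : ∃ c : ℝ, 0 < c ∧ ∀ y, c ≤ f y := by
      rcases isEmpty_or_nonempty Y with hY | hY
      · exact ⟨1, one_pos, fun y => (hY.false y).elim⟩
      · obtain ⟨y₀, -, hy₀⟩ := isCompact_univ.exists_isMinOn (Set.univ_nonempty (α := Y))
          hfc.continuousOn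
        exact ⟨f y₀, hfpos y₀, fun y => hy₀ (Set.mem_univ y)⟩
    set N : ℝ := (Fintype.card I : ℝ) with hN
    have hNpos : 0 < N := by
      rw [hN]; exact_mod_cast Fintype.card_pos
    refine ⟨fun i => ⟨fun x => min 1 ((N / c) * Metric.infDist x (K i)), ?_⟩, ?_, ?_, ?_⟩
    · exact continuous_const.min (continuous_const.mul (Metric.continuous_infDist_pt (K i)))
    · intro i x
      have h0 : 0 ≤ (N / c) * Metric.infDist x (K i) :=
        mul_nonneg (by positivity) Metric.infDist_nonneg
      exact ⟨le_min zero_le_one h0, min_le_left _ _⟩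
    · intro i x hx
      show min 1 ((N / c) * Metric.infDist x (K i)) = 0
      rw [Metric.infDist_zero_of_mem hx, mul_zero]
      exact min_eq_right zero_le_one
    · intro y
      by_contra hcon
      push Not at hcon
      have h1 : ∀ i ∈ Finset.univ, Metric.infDist (p i y) (K i) < c / N := by
        intro i _
        by_contra h2
        push Not at h2
        apply hcon i
        show min 1 ((N / c) * Metric.infDist (p i y) (K i)) = 1
        apply min_eq_left
        rw [div_le_iff₀ hNpos] at h2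
        rw [div_mul_eq_mul_div, le_div_iff₀ hc, one_mul, mul_comm]
        exact h2
      have h3 := Finset.sum_lt_sum_of_nonempty Finset.univ_nonempty h1
      rw [Finset.sum_const, nsmul_eq_mul, Finset.card_univ, ← hN, mul_div_cancel₀ c hNpos.ne'] at h3
      exact absurd (hcf y) (not_le.2 h3)

section main

variable {Y X I : Type*} [Group Y] [TopologicalSpace Y] [IsTopologicalGroup Y] [CompactSpace Y]
  [SecondCountableTopology Y] [MeasurableSpace Y] [BorelSpace Y]
  [TopologicalSpace X] [CompactSpace X] [T2Space X] [SecondCountableTopology X]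
  [MeasurableSpace X] [BorelSpace X] [Fintype I]

/-- The set version: positive measure sets whose simultaneous preimages are null can be shrunk a
little to compact sets which are not met simultaneously. -/
theorem exists_compact (M : Measure Y) [IsProbabilityMeasure M] [M.IsMulRightInvariant]
    [M.IsOpenPosMeasure] (μX : Measure X) [IsProbabilityMeasure μX]
    (a : I → Y → X → X) (ha : ∀ i, Continuous fun z : Y × X => a i z.1 z.2)
    (ha1 : ∀ i x, a i 1 x = x) (hmp : ∀ i g, MeasurePreserving (a i g) μX μX)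
    (p : I → Y → X) (hp : ∀ i, Continuous (p i)) (hpa : ∀ i g y, p i (g * y) = a i g (p i y))
    (B : I → Set X) (hB : ∀ i, MeasurableSet (B i))
    (hnull : M {y | ∀ i, p i y ∈ B i} = 0) (δ : ℝ≥0∞) (hδ : δ ≠ 0) :
    ∃ K : I → Set X, (∀ i, IsCompact (K i)) ∧ (∀ i, K i ⊆ B i) ∧ (∀ i, μX (B i \ K i) ≤ δ) ∧
      ∀ y, ∃ i, p i y ∉ K i := by
  classical
  let _ : MetricSpace X := TopologicalSpace.metrizableSpaceMetric X
  have hne : Nonempty I := by
    by_contra h
    rw [not_nonempty_iff] at h
    have : {y : Y | ∀ i, p i y ∈ B i} = Set.univ := by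
      ext y; simp
    rw [this, measure_univ] at hnull
    exact one_ne_zero hnull
  set N : ℝ≥0∞ := (Fintype.card I : ℝ≥0∞) + 1 with hN
  have hN0 : N ≠ 0 := by simp [hN]
  have hNt : N ≠ ∞ := by simp [hN]
  set κ : ℝ≥0∞ := δ / 2 / N with hκ
  have hδ2 : δ / 2 ≠ 0 := by simp [hδ]
  have hκ0 : κ ≠ 0 := by
    rw [hκ]
    exact (ENNReal.div_pos hδ2 hNt).ne'
  -- the neighbourhood `V`
  have hV : ∀ᶠ g in 𝓝 (1 : Y), ∀ i, μX (B i \ (a i g ⁻¹' B i)) ≤ κ := by
    rw [eventually_all]
    intro i
    let f : Y → C(X, X) := fun g => ⟨a i g, (ha i).comp (Continuous.prodMk_right g)⟩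
    have hfc : Continuous f := by
      have : Continuous (ContinuousMap.curry (⟨fun z : Y × X => a i z.1 z.2, ha i⟩ : C(Y × X, X))) :=
        ContinuousMap.continuous _
      exact this
    have ht := tendsto_measure_symmDiff_preimage_nhds_zero (μ := μX) (ν := μX) (l := 𝓝 (1 : Y))
      (f := f) (g := f 1) (s := B i) (hfc.tendsto 1) (Eventually.of_forall fun g => hmp i g)
      (hmp i 1) (hB i).nullMeasurableSet (measure_ne_top μX _)
    rw [ENNReal.tendsto_nhds_zero] at ht
    filter_upwards [ht κ (pos_iff_ne_zero.2 hκ0)] with g hg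
    refine le_trans (measure_mono ?_) hg
    intro x hx
    right
    refine ⟨?_, hx.2⟩
    show a i 1 x ∈ B i
    rw [ha1]
    exact hx.1
  obtain ⟨V, hVsub, hVo, hV1⟩ := eventually_nhds_iff.1 hV
  have hMV0 : M V ≠ 0 := hVo.measure_ne_zero M ⟨1, hV1⟩
  have hMVt : M V ≠ ∞ := measure_ne_top M V
  -- the function `x ↦ M {g ∈ V : a g x ∉ B}`
  set q : I → X → ℝ≥0∞ := fun i x => M {g | g ∈ V ∧ a i g x ∉ B i} with hq
  have hmeas2 : ∀ i, MeasurableSet {z : Y × X | z.1 ∈ V ∧ a i z.1 z.2 ∉ B i} := by
    intro i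
    have h1 : MeasurableSet {z : Y × X | z.1 ∈ V} := hVo.measurableSet.preimage measurable_fst
    have h2 : MeasurableSet {z : Y × X | a i z.1 z.2 ∉ B i} :=
      (hB i).compl.preimage (ha i).measurable
    exact h1.inter h2
  have hqm : ∀ i, Measurable (q i) := by
    intro i
    exact measurable_measure_prodMk_right (hmeas2 i)
  have hint : ∀ i, ∫⁻ x in B i, q i x ∂μX ≤ M V * κ := by
    intro i
    have e1 : ∫⁻ x in B i, q i x ∂μX =
        ((M.prod (μX.restrict (B i))) {z : Y × X | z.1 ∈ V ∧ a i z.1 z.2 ∉ B i}) := by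
      rw [Measure.prod_apply_symm (hmeas2 i)]
      rfl
    rw [e1, Measure.prod_apply (hmeas2 i)]
    calc ∫⁻ g, (μX.restrict (B i)) (Prod.mk g ⁻¹' {z : Y × X | z.1 ∈ V ∧ a i z.1 z.2 ∉ B i}) ∂M
        ≤ ∫⁻ g, V.indicator (fun _ => κ) g ∂M := by
          refine lintegral_mono fun g => ?_
          by_cases hg : g ∈ V
          · rw [Set.indicator_of_mem hg]
            rw [Measure.restrict_apply (measurable_prodMk_left (hmeas2 i))]
            refine le_trans (measure_mono ?_) (hVsub g hg i)
            intro x hx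
            exact ⟨hx.2, hx.1.2⟩
          · rw [Set.indicator_of_notMem hg]
            have : Prod.mk g ⁻¹' {z : Y × X | z.1 ∈ V ∧ a i z.1 z.2 ∉ B i} = ∅ := by
              ext x
              simp [hg]
            rw [this, measure_empty]
      _ = M V * κ := by
          rw [lintegral_indicator hVo.measurableSet, lintegral_const, Measure.restrict_apply_univ,
            mul_comm]
  set E : I → Set X := fun i => {x | M V / N ≤ q i x} with hE
  have hEm : ∀ i, MeasurableSet (E i) := fun i => measurableSet_le measurable_const (hqm i)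
  have hMVN0 : M V / N ≠ 0 := (ENNReal.div_pos hMV0 hNt).ne'
  have hMVNt : M V / N ≠ ∞ := ENNReal.div_ne_top hMVt hN0
  have hEsmall : ∀ i, μX (B i ∩ E i) ≤ δ / 2 := by
    intro i
    have h1 := mul_meas_ge_le_lintegral₀ (μ := μX.restrict (B i)) (hqm i).aemeasurable (M V / N)
    have h2 : (μX.restrict (B i)) {x | M V / N ≤ q i x} = μX (B i ∩ E i) := by
      rw [Measure.restrict_apply (hEm i), Set.inter_comm]
    rw [h2] at h1
    have h3 := h1.trans (hint i)
    have h4 : M V * κ = M V / N * (δ / 2) := by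
      rw [hκ, ENNReal.div_eq_inv_mul, ENNReal.div_eq_inv_mul (a := M V)]
      ring
    rw [h4] at h3
    exact (ENNReal.mul_le_mul_iff_right hMVN0 hMVNt).1 h3
  -- no point meets all `B i \ E i`
  have hno : ∀ y, ∃ i, p i y ∉ B i \ E i := by
    intro y
    by_contra hcon
    push Not at hcon
    have hZ : M {g | ∀ i, p i (g * y) ∈ B i} = 0 := by
      have h1 : MeasurableSet {y | ∀ i, p i y ∈ B i} := by
        have : {y | ∀ i, p i y ∈ B i} = ⋂ i, p i ⁻¹' B i := by ext y; simp
        rw [this]
        exact MeasurableSet.iInter fun i => (hB i).preimage (hp i).measurable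
      have h2 := measure_preimage_mul_right M y {y | ∀ i, p i y ∈ B i}
      rw [hnull] at h2
      exact h2
    have hcov : V ⊆ {g | ∀ i, p i (g * y) ∈ B i} ∪ ⋃ i, {g | g ∈ V ∧ a i g (p i y) ∉ B i} := by
      intro g hg
      by_cases h : ∀ i, p i (g * y) ∈ B i
      · exact Or.inl h
      · right
        push Not at h
        obtain ⟨i, hi⟩ := h
        rw [hpa] at hi
        exact Set.mem_iUnion.2 ⟨i, hg, hi⟩
    have hle : M V ≤ ∑ i, q i (p i y) := by
      calc M V ≤ M ({g | ∀ i, p i (g * y) ∈ B i} ∪ ⋃ i, {g | g ∈ V ∧ a i g (p i y) ∉ B i}) :=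
            measure_mono hcov
        _ ≤ M {g | ∀ i, p i (g * y) ∈ B i} + M (⋃ i, {g | g ∈ V ∧ a i g (p i y) ∉ B i}) :=
            measure_union_le _ _
        _ = M (⋃ i, {g | g ∈ V ∧ a i g (p i y) ∉ B i}) := by rw [hZ, zero_add]
        _ ≤ ∑ i, M {g | g ∈ V ∧ a i g (p i y) ∉ B i} := measure_iUnion_fintype_le M _
    have hlt : ∀ i, q i (p i y) ≤ M V / N := by
      intro i
      have := (hcon i).2
      rw [hE, Set.mem_setOf_eq, not_le] at this
      exact this.le
    have h5 : M V ≤ Fintype.card I * (M V / N) := by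
      refine hle.trans ?_
      refine (Finset.sum_le_sum fun i _ => hlt i).trans ?_
      rw [Finset.sum_const, nsmul_eq_mul, Finset.card_univ]
    have h6 : (Fintype.card I : ℝ≥0∞) * (M V / N) + M V / N = M V := by
      rw [← add_one_mul, ← hN]
      exact ENNReal.mul_div_cancel hN0 hNt
    have h7 : (Fintype.card I : ℝ≥0∞) * (M V / N) < M V := by
      conv_rhs => rw [← h6]
      exact ENNReal.lt_add_right (ENNReal.mul_ne_top (ENNReal.natCast_ne_top _) hMVNt) hMVN0
    exact absurd h5 (not_le.2 h7)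
  -- compact subsets
  have hKex : ∀ i, ∃ K ⊆ B i \ E i, IsCompact K ∧ μX ((B i \ E i) \ K) < δ / 2 := by
    intro i
    exact ((hB i).diff (hEm i)).exists_isCompact_diff_lt (measure_ne_top _ _) hδ2
  choose K hK1 hK2 hK3 using hKex
  refine ⟨K, hK2, fun i => (hK1 i).trans Set.diff_subset, ?_, ?_⟩
  · intro i
    have hsub : B i \ K i ⊆ (B i ∩ E i) ∪ ((B i \ E i) \ K i) := by
      intro x hx
      by_cases hxE : x ∈ E i
      · exact Or.inl ⟨hx.1, hxE⟩
      · exact Or.inr ⟨⟨hx.1, hxE⟩, hx.2⟩
    calc μX (B i \ K i) ≤ μX ((B i ∩ E i) ∪ ((B i \ E i) \ K i)) := measure_mono hsub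
      _ ≤ μX (B i ∩ E i) + μX ((B i \ E i) \ K i) := measure_union_le _ _
      _ ≤ δ / 2 + δ / 2 := add_le_add (hEsmall i) (hK3 i).le
      _ = δ := ENNReal.add_halves δ
  · intro y
    obtain ⟨i, hi⟩ := hno y
    exact ⟨i, fun h => hi (hK1 i h)⟩

/-- Zero measure removal on a compact group, in the form used at the end of the proof. -/
theorem zero_removal (M : Measure Y) [IsProbabilityMeasure M] [M.IsMulRightInvariant]
    [M.IsOpenPosMeasure] (μX : Measure X) [IsProbabilityMeasure μX]
    (a : I → Y → X → X) (ha : ∀ i, Continuous fun z : Y × X => a i z.1 z.2)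
    (ha1 : ∀ i x, a i 1 x = x) (hmp : ∀ i g, MeasurePreserving (a i g) μX μX)
    (p : I → Y → X) (hp : ∀ i, Continuous (p i)) (hpa : ∀ i g y, p i (g * y) = a i g (p i y))
    (F : I → X → ℝ) (hF : ∀ i, Measurable (F i)) (hF0 : ∀ i x, 0 ≤ F i x)
    (hF1 : ∀ i x, F i x ≤ 1) (hint : ∫ y, ∏ i, F i (p i y) ∂M = 0) (δ : ℝ) (hδ : 0 < δ) :
    ∃ ψ : I → C(X, ℝ), (∀ i x, 0 ≤ ψ i x ∧ ψ i x ≤ 1) ∧
      (∀ i, ∫ x, F i x * ψ i x ∂μX ≤ δ) ∧ ∀ y, ∃ i, ψ i (p i y) = 1 := by
  classical
  set B : I → Set X := fun i => {x | 0 < F i x} with hBdef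
  have hB : ∀ i, MeasurableSet (B i) := fun i => measurableSet_lt measurable_const (hF i)
  have hprodm : Measurable fun y => ∏ i, F i (p i y) :=
    Finset.measurable_prod _ fun i _ => (hF i).comp (hp i).measurable
  have hprod0 : ∀ y, 0 ≤ ∏ i, F i (p i y) := fun y => Finset.prod_nonneg fun i _ => hF0 i _
  have hprod1 : ∀ y, ∏ i, F i (p i y) ≤ 1 := fun y =>
    Finset.prod_le_one (fun i _ => hF0 i _) fun i _ => hF1 i _
  have hintg : Integrable (fun y => ∏ i, F i (p i y)) M := by
    refine Integrable.of_bound hprodm.aestronglyMeasurable 1 (Eventually.of_forall fun y => ?_)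
    rw [Real.norm_eq_abs, abs_of_nonneg (hprod0 y)]
    exact hprod1 y
  have hnull : M {y | ∀ i, p i y ∈ B i} = 0 := by
    rw [integral_eq_zero_iff_of_nonneg hprod0 hintg] at hint
    have h1 : M {y | ¬ (∏ i, F i (p i y) = 0)} = 0 := hint
    refine measure_mono_null ?_ h1
    intro y hy
    show ¬ (∏ i, F i (p i y) = 0)
    rw [Finset.prod_eq_zero_iff]
    push Not
    intro i _
    exact (hy i).ne'
  have hne : Nonempty I := by
    by_contra h
    rw [not_nonempty_iff] at h
    have : {y : Y | ∀ i, p i y ∈ B i} = Set.univ := by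
      ext y; simp
    rw [this, measure_univ] at hnull
    exact one_ne_zero hnull
  obtain ⟨K, hK1, hK2, hK3, hK4⟩ := exists_compact M μX a ha ha1 hmp p hp hpa B hB hnull
    (ENNReal.ofReal δ) (by simpa using hδ)
  obtain ⟨ψ, hψ1, hψ2, hψ3⟩ := exists_urysohn p hp K hK1 hK4
  refine ⟨ψ, hψ1, ?_, hψ3⟩
  intro i
  have hle : ∀ x, F i x * ψ i x ≤ (B i \ K i).indicator (fun _ => (1 : ℝ)) x := by
    intro x
    by_cases hx : x ∈ B i \ K i
    · rw [Set.indicator_of_mem hx]
      exact mul_le_one₀ (hF1 i x) (hψ1 i x).1 (hψ1 i x).2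
    · rw [Set.indicator_of_notMem hx]
      by_cases hxK : x ∈ K i
      · rw [hψ2 i x hxK, mul_zero]
      · have hxB : x ∉ B i := fun h => hx ⟨h, hxK⟩
        have hF00 : F i x = 0 := le_antisymm (not_lt.1 hxB) (hF0 i x)
        rw [hF00, zero_mul]
  have hm : MeasurableSet (B i \ K i) := by
    exact (hB i).diff (hK1 i).isClosed.measurableSet
  calc ∫ x, F i x * ψ i x ∂μX ≤ ∫ x, (B i \ K i).indicator (fun _ => (1 : ℝ)) x ∂μX := by
        refine integral_mono ?_ ?_ hle
        · refine Integrable.of_bound ((hF i).mul (ψ i).continuous.measurable).aestronglyMeasurable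
            1 (Eventually.of_forall fun x => ?_)
          rw [Real.norm_eq_abs, abs_of_nonneg (mul_nonneg (hF0 i x) (hψ1 i x).1)]
          exact mul_le_one₀ (hF1 i x) (hψ1 i x).1 (hψ1 i x).2
        · exact (integrable_const (1 : ℝ)).indicator hm
    _ = (μX (B i \ K i)).toReal := by
        rw [integral_indicator hm, integral_const, smul_eq_mul, mul_one]
        simp [Measure.real]
    _ ≤ δ := by
        rw [← ENNReal.toReal_ofReal hδ.le]
        exact ENNReal.toReal_mono ENNReal.ofReal_ne_top (hK3 i)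

end main

end SPH
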